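import Pool.Agent.PHW.Defs

/-!
The loop identity on the honeycomb lattice: definitions.
Vertices of the lattice are the points of class 0 and 2, centres of the faces the points of class 1.
-/

set_option autoImplicit false

namespace HexObs

namespace LP

open Complex Finset

/-- the coordinate along the normal (1, -1). -/
def nn (v : Pt) : ℤ := v.1 - v.2

/-- the level. -/
def lv (v : Pt) : ℤ := v.1 + 2 * v.2

/-- vertices of the lattice. -/
def Vt (v : Pt) : Prop := cl v ≠ 1

/-- centres of the faces. -/
def Fc (f : Pt) : Prop := cl f = 1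

/-- directed edges: the first component is the first vertex, the second one the direction. -/
def De (p : Pt × Pt) : Prop := p.2 ∈ dirs ∧ Vt p.1 ∧ Vt (p.1 + p.2)

/-- the same edge in the other direction. -/
def rv (p : Pt × Pt) : Pt × Pt := (p.1 + p.2, -p.2)

/-- the ray from the face f in the direction (-1, -1): signed crossing by the directed edge p, + if the
crossing is counterclockwise around f. -/
def cr (f : Pt) (p : Pt × Pt) : ℤ :=
  if p.2 = (1, -1) ∧ nn p.1 = nn f - 1 ∧ lv p.1 < lv f then 1
  else if p.2 = (-1, 1) ∧ nn p.1 = nn f + 1 ∧ lv p.1 < lv f then -1 else 0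

/-- rooted oriented polygons with m edges: first vertex v, first direction d, turns tau (periodic). -/
structure Poly (v d : Pt) (τ : ℕ → Bool) (m : ℕ) : Prop where
  pos : 0 < m
  de : De (v, d)
  per : ∀ i, τ (i + m) = τ i
  clv : vs v d τ m = v
  cld : ds d τ m = d
  inj : ∀ i k, i < k → k < m → vs v d τ i ≠ vs v d τ k

/-- the directed edge number i. -/
def eg (v d : Pt) (τ : ℕ → Bool) (i : ℕ) : Pt × Pt := (vs v d τ i, ds d τ i)

/-- the set of the directed edges. -/
def pe (v d : Pt) (τ : ℕ → Bool) (m : ℕ) : Finset (Pt × Pt) := (range m).image (eg v d τ)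

/-- oriented polygons as sets of directed edges. -/
def IsPoly (E : Finset (Pt × Pt)) : Prop := ∃ v d τ m, Poly v d τ m ∧ E = pe v d τ m

/-- the vertices of a polygon. -/
def VE (E : Finset (Pt × Pt)) : Finset Pt := E.image Prod.fst

/-- the same polygon in the other orientation. -/
def rE (E : Finset (Pt × Pt)) : Finset (Pt × Pt) := E.image rv

/-- winding number around the face f. -/
def Nw (E : Finset (Pt × Pt)) (f : Pt) : ℤ := ∑ p ∈ E, cr f p

/-- the orientation: 1 for counterclockwise, -1 for clockwise polygons. -/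
noncomputable def sg (E : Finset (Pt × Pt)) : ℤ := by
  classical
  exact if ∃ f, Fc f ∧ Nw E f = 1 then 1 else -1

/-- the vertex v lies strictly inside E. -/
def Ins (E : Finset (Pt × Pt)) (v : Pt) : Prop :=
  Vt v ∧ v ∉ VE E ∧ ∃ d ∈ dirs, Fc (v + d) ∧ Nw E (v + d) ≠ 0

/-- the edge p is not on E and lies inside E. -/
def EIn (E : Finset (Pt × Pt)) (p : Pt × Pt) : Prop := p ∉ E ∧ rv p ∉ E ∧ Nw E (p.1 + rotL p.2) ≠ 0

/-- the polygons with all vertices in Ω. -/
noncomputable def polys (Ω : Finset Pt) : Finset (Finset (Pt × Pt)) := by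
  classical
  exact (Ω ×ˢ dirs).powerset.filter IsPoly

/-- the vertices of Ω inside E. -/
noncomputable def inn (Ω : Finset Pt) (E : Finset (Pt × Pt)) : Finset Pt := by
  classical
  exact Ω.filter (Ins E)

/-- Ω consists of vertices and contains the interior of every polygon in Ω. -/
def Full (Ω : Finset Pt) : Prop :=
  (∀ v ∈ Ω, Vt v) ∧ ∀ E, IsPoly E → VE E ⊆ Ω → ∀ v, Ins E v → v ∈ Ω

/-! words: walks from the directed edge (v0, d0); v0 itself may be visited once. -/

/-- the word t is self-avoiding, its turning vertices (number 1, ..., t.length) lie in Ω. -/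
structure Arr0 (Ω : Finset Pt) (p : Pt × Pt) (t : List Bool) : Prop where
  mem : ∀ i, 1 ≤ i → i ≤ t.length → vx p.1 p.2 t i ∈ Ω
  inj : ∀ i k, 1 ≤ i → i < k → k ≤ t.length → vx p.1 p.2 t i ≠ vx p.1 p.2 t k

lemma Arr0.length_le {Ω : Finset Pt} {p : Pt × Pt} {t : List Bool} (h : Arr0 Ω p t) : t.length ≤ Ω.card := by
  have h1 : ((Finset.range t.length).image (fun i => vx p.1 p.2 t (i + 1))).card = t.length := by
    rw [Finset.card_image_of_injOn, Finset.card_range]
    intro i hi k hk hik
    rw [Finset.mem_coe, Finset.mem_range] at hi hk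
    rcases lt_trichotomy i k with h2 | h2 | h2
    · exact absurd hik (h.inj (i + 1) (k + 1) (by omega) (by omega) (by omega))
    · exact h2
    · exact absurd hik.symm (h.inj (k + 1) (i + 1) (by omega) (by omega) (by omega))
  rw [← h1]
  apply Finset.card_le_card
  intro v hv
  rw [Finset.mem_image] at hv
  obtain ⟨i, hi, rfl⟩ := hv
  rw [Finset.mem_range] at hi
  exact h.mem (i + 1) (by omega) (by omega)

lemma arr0_finite (Ω : Finset Pt) (p : Pt × Pt) : {t : List Bool | Arr0 Ω p t}.Finite :=
  (List.finite_length_le Bool Ω.card).subset (fun _ ht => Arr0.length_le ht)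

/-- all self-avoiding words of the domain. -/
noncomputable def arr0 (Ω : Finset Pt) (p : Pt × Pt) : Finset (List Bool) := (arr0_finite Ω p).toFinset

lemma mem_arr0 {Ω : Finset Pt} {p : Pt × Pt} {t : List Bool} : t ∈ arr0 Ω p ↔ Arr0 Ω p t := by
  unfold arr0
  rw [Set.Finite.mem_toFinset]
  exact Iff.rfl

/-- the last directed edge of the word. -/
def le (p : Pt × Pt) (t : List Bool) : Pt × Pt := (vx p.1 p.2 t t.length, dx p.2 t t.length)

/-- the last vertex. -/
def tp (p : Pt × Pt) (t : List Bool) : Pt := tip p.1 p.2 t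

/-- the words that leave the domain with their last step. -/
noncomputable def ex0 (Ω : Finset Pt) (p : Pt × Pt) : Finset (List Bool) :=
  (arr0 Ω p).filter (fun t => tp p t ∉ Ω)

/-- the words that come back to their first turning vertex through the starting edge (closed polygons through p). -/
noncomputable def clo (Ω : Finset Pt) (p : Pt × Pt) : Finset (List Bool) := by
  classical
  exact (arr0 Ω p).filter (fun t => 1 ≤ t.length ∧ le p t = p)

/-- the other words that come back to a visited vertex (lollipops). -/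
noncomputable def lol (Ω : Finset Pt) (p : Pt × Pt) : Finset (List Bool) := by
  classical
  exact (arr0 Ω p).filter (fun t => (∃ j, 1 ≤ j ∧ j ≤ t.length ∧ vx p.1 p.2 t j = tp p t) ∧ le p t ≠ p)

/-- the sum of the weights of the words that leave the domain. -/
noncomputable def SS (Ω : Finset Pt) (p : Pt × Pt) : ℂ := ∑ t ∈ ex0 Ω p, wt t

/-- the sticks from p to the polygon E: words that avoid E up to their tip, which lies on E, and whose last edge
does not belong to E. -/
noncomputable def stk (Ω : Finset Pt) (E : Finset (Pt × Pt)) (p : Pt × Pt) : Finset (List Bool) := by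
  classical
  exact (arr0 Ω p).filter (fun s => (∀ i, 1 ≤ i → i ≤ s.length → vx p.1 p.2 s i ∉ VE E) ∧ tp p s ∈ VE E ∧
    le p s ∉ E ∧ rv (le p s) ∉ E)

/-- signed number of the crossings of the ray from f by the word, the first edge (p) and the last edge included. -/
def NN (f : Pt) (p : Pt × Pt) (t : List Bool) : ℤ :=
  ∑ i ∈ range (t.length + 1), cr f (vx p.1 p.2 t i, dx p.2 t i)

/-- the boundary edges, directed inwards. -/
noncomputable def bd (Ω : Finset Pt) : Finset (Pt × Pt) := by
  classical
  exact ((Ω ×ˢ dirs).image (fun p => (p.1 - p.2, p.2))).filter (fun p => De p ∧ p.1 ∉ Ω)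

/-- the word t (from p) meets K. -/
def Hit (K : Finset Pt) (p : Pt × Pt) (t : List Bool) : Prop := ∃ i, 1 ≤ i ∧ i ≤ t.length ∧ vx p.1 p.2 t i ∈ K

/-- walks from the boundary to the boundary that meet K. -/
noncomputable def HH (Ω K : Finset Pt) : ℝ := by
  classical
  exact ∑ a ∈ bd Ω, ∑ t ∈ (ex0 Ω a).filter (Hit K a), Real.cos (wind t * (Real.pi / 8)) * xc ^ t.length

/-- the right side of the loop identity. -/
noncomputable def QQ (Ω : Finset Pt) (f : Pt) : ℝ :=
  -∑ a ∈ bd Ω, ∑ t ∈ ex0 Ω a, (NN f a t : ℝ) * Real.sin (wind t * (Real.pi / 8)) * xc ^ t.length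

/-- t is the lollipop with the stick s and the loop E. -/
def IsLol (E : Finset (Pt × Pt)) (p : Pt × Pt) (s t : List Bool) : Prop :=
  s.length + E.card = t.length ∧ t.take s.length = s ∧
    E = (Finset.Icc (s.length + 1) t.length).image (fun i => (vx p.1 p.2 t i, dx p.2 t i)) ∧
    vx p.1 p.2 t (s.length + 1) = tp p t

/-- the phase of a lollipop. -/
noncomputable def ph (E : Finset (Pt × Pt)) (q : Pt × Pt) : ℂ := by
  classical
  exact if EIn E q then -1 else I * (sg E : ℂ)

/-- sum over the sticks inside E. -/
noncomputable def Sin (Ω : Finset Pt) (E : Finset (Pt × Pt)) (p : Pt × Pt) : ℂ := by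
  classical
  exact ∑ s ∈ (stk Ω E p).filter (fun s => EIn E (le p s)), wt s

/-- the polygons through the directed edge p. -/
noncomputable def thr (Ω : Finset Pt) (p : Pt × Pt) : Finset (Finset (Pt × Pt)) :=
  (polys Ω).filter (fun E => p ∈ E)

/-- the phase of a closed polygon. -/
noncomputable def e6 (E : Finset (Pt × Pt)) : ℂ := Complex.exp (((6 * sg E : ℤ) : ℝ) * (Real.pi / 8) * I)

end LP

end HexObs
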