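import Pool.Agent.HexLoop.DefsC
import Pool.Agent.RSWP.Lam
import Pool.Agent.RSWP.Glue

/-!
LOOP, module L17: polygons around a box.
-/

set_option autoImplicit false

namespace HexObs

namespace LP

open Complex Finset

section L17

/-! ### closed words -/

/-- the periodic turns of a closed word. -/
private def L17_per (W : List Bool) (i : ℕ) : Bool := tf W (i % W.length)

private lemma L17_per_lt {W : List Bool} {i : ℕ} (hi : i < W.length) : L17_per W i = tf W i := by
  unfold L17_per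
  rw [Nat.mod_eq_of_lt hi]

private lemma L17_vs (v d : Pt) (W : List Bool) {i : ℕ} (hi : i ≤ W.length) :
    vs v d (L17_per W) i = vx v d W i :=
  vs_congr i (fun _ hk => L17_per_lt (by omega))

private lemma L17_ds (d : Pt) (W : List Bool) {i : ℕ} (hi : i ≤ W.length) :
    ds d (L17_per W) i = dx d W i :=
  ds_congr i (fun _ hk => L17_per_lt (by omega))

private lemma L17_vs_add (v z d : Pt) (τ : ℕ → Bool) (i : ℕ) : vs (v + z) d τ i = vs v d τ i + z := by
  induction i with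
  | zero => rfl
  | succ i ih => rw [vs_succ, vs_succ, ih, add_right_comm]

private lemma L17_vx_add (v z d : Pt) (W : List Bool) (i : ℕ) : vx (v + z) d W i = vx v d W i + z :=
  L17_vs_add v z d (tf W) i

private lemma L17_poly {m : Pt} {W : List Bool} (hm : cl m = 0) (hpos : 0 < W.length)
    (h1 : vx m up W W.length = m) (h2 : dx up W W.length = up)
    (h3 : ∀ i j, i < j → j < W.length → vx m up W i ≠ vx m up W j) : Poly m up (L17_per W) W.length where
  pos := hpos
  de := by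
    refine ⟨by show up ∈ dirs; decide, ?_, ?_⟩
    · unfold Vt
      rw [hm]
      decide
    · unfold Vt
      show cl (m + up) ≠ 1
      rw [cl_add, hm]
      decide
  per := by
    intro i
    unfold L17_per
    rw [Nat.add_mod_right]
  clv := by rw [L17_vs _ _ _ le_rfl, h1]
  cld := by rw [L17_ds _ _ le_rfl, h2]
  inj := by
    intro i k hik hk
    rw [L17_vs _ _ _ (by omega), L17_vs _ _ _ (by omega)]
    exact h3 i k hik hk

/-! ### polygons as sets of edges -/

section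

variable {v d : Pt} {τ : ℕ → Bool} {m : ℕ}

private lemma L17_injOn (h : Poly v d τ m) : Set.InjOn (eg v d τ) (range m : Finset ℕ) := by
  intro i hi k hk hik
  rw [Finset.mem_coe, Finset.mem_range] at hi hk
  have h1 : vs v d τ i = vs v d τ k := congrArg Prod.fst hik
  rcases lt_trichotomy i k with h2 | h2 | h2
  · exact absurd h1 (h.inj i k h2 hk)
  · exact h2
  · exact absurd h1.symm (h.inj k i h2 hi)

private lemma L17_card (h : Poly v d τ m) : (pe v d τ m).card = m := by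
  unfold pe
  rw [Finset.card_image_of_injOn (L17_injOn h), Finset.card_range]

private lemma L17_Nw (h : Poly v d τ m) (f : Pt) : Nw (pe v d τ m) f = ∑ i ∈ range m, cr f (eg v d τ i) := by
  unfold Nw pe
  rw [Finset.sum_image (L17_injOn h)]

private lemma L17_fun (h : Poly v d τ m) {w d1 d2 : Pt} (h1 : (w, d1) ∈ pe v d τ m)
    (h2 : (w, d2) ∈ pe v d τ m) : d1 = d2 := by
  unfold pe at h1 h2
  rw [Finset.mem_image] at h1 h2
  obtain ⟨i, hi, e1⟩ := h1
  obtain ⟨k, hk, e2⟩ := h2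
  rw [Finset.mem_range] at hi hk
  have h3 : vs v d τ i = vs v d τ k := (congrArg Prod.fst e1).trans (congrArg Prod.fst e2).symm
  have h4 : i = k := by
    rcases lt_trichotomy i k with h2 | h2 | h2
    · exact absurd h3 (h.inj i k h2 hk)
    · exact h2
    · exact absurd h3.symm (h.inj k i h2 hi)
  subst h4
  exact (congrArg Prod.snd e1).symm.trans (congrArg Prod.snd e2)

private lemma L17_shift (h : Poly v d τ m) (i : ℕ) : eg v d τ (m + i) = eg v d τ i := by
  have hp : (fun k => τ (m + k)) = τ := by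
    funext k
    rw [add_comm]
    exact h.per k
  unfold eg
  rw [vs_shift, ds_shift, h.clv, h.cld, hp]

private lemma L17_mem (h : Poly v d τ m) (i : ℕ) : eg v d τ i ∈ pe v d τ m := by
  induction i using Nat.strong_induction_on with
  | _ i ih =>
    by_cases hi : i < m
    · unfold pe
      exact Finset.mem_image_of_mem _ (Finset.mem_range.2 hi)
    · obtain ⟨j, rfl⟩ : ∃ j, i = m + j := ⟨i - m, by omega⟩
      rw [L17_shift h]
      exact ih j (by have := h.pos; omega)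

end

private lemma L17_turn_inj {d : Pt} (hd : d ∈ dirs) {b c : Bool} (h : turn b d = turn c d) : b = c := by
  revert b c
  revert d
  decide

/-- two polygons with the same edges. -/
private lemma L17_same {v d v' d' : Pt} {τ τ' : ℕ → Bool} {m m' : ℕ} (h : Poly v d τ m)
    (h' : Poly v' d' τ' m') (he : pe v' d' τ' m' = pe v d τ m) : m' = m ∧ ∃ k, k < m ∧ vs v d τ k = v' ∧
      ds d τ k = d' ∧ ∀ i, τ' i = τ (k + i) := by
  have hm : m' = m := by rw [← L17_card h, ← L17_card h', he]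
  refine ⟨hm, ?_⟩
  have h0 : (v', d') ∈ pe v d τ m := by
    rw [← he]
    exact L17_mem h' 0
  unfold pe at h0
  rw [Finset.mem_image] at h0
  obtain ⟨k, hk, e1⟩ := h0
  rw [Finset.mem_range] at hk
  have e2 : vs v d τ k = v' := congrArg Prod.fst e1
  have e3 : ds d τ k = d' := congrArg Prod.snd e1
  have key : ∀ i, eg v' d' τ' i = eg v d τ (k + i) := by
    intro i
    induction i with
    | zero => exact e1.symm
    | succ i ih =>
      have a1 : vs v' d' τ' i = vs v d τ (k + i) := congrArg Prod.fst ih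
      have a2 : ds d' τ' i = ds d τ (k + i) := congrArg Prod.snd ih
      have a3 : vs v' d' τ' (i + 1) = vs v d τ (k + (i + 1)) := by
        rw [← add_assoc, vs_succ, vs_succ, a1, a2]
      have a4 := L17_mem h' (i + 1)
      have a5 := L17_mem h (k + (i + 1))
      rw [he] at a4
      unfold eg at a4 a5
      rw [a3] at a4
      have a6 := L17_fun h a4 a5
      unfold eg
      rw [a3, a6]
  refine ⟨k, hk, e2, e3, ?_⟩
  intro i
  have b1 : ds d' τ' (i + 1) = ds d τ (k + i + 1) := congrArg Prod.snd (key (i + 1))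
  have b2 : ds d' τ' i = ds d τ (k + i) := congrArg Prod.snd (key i)
  rw [ds_succ, ds_succ, b2] at b1
  exact L17_turn_inj (ds_mem h.de.1 (k + i)) b1

private lemma L17_rotate {W W' : List Bool} {k : ℕ} (hl : W'.length = W.length)
    (h : ∀ i, L17_per W' i = L17_per W (k + i)) : W' = W.rotate k := by
  apply List.ext_getElem
  · rw [hl, List.length_rotate]
  · intro i h1 h2
    rw [List.getElem_rotate]
    have h3 := h i
    rw [L17_per_lt h1] at h3
    unfold L17_per tf at h3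
    have h4 : (k + i) % W.length < W.length := Nat.mod_lt _ (by omega)
    rw [List.getD_eq_getElem _ _ h1, List.getD_eq_getElem _ _ h4] at h3
    rw [h3]
    congr 2
    rw [add_comm]

/-! ### the number of crossings -/

private lemma L17_cl {p : Pt} : cl p = 1 ↔ nn p % 3 = 1 := by
  have h1 : cl p = 1 ↔ ((p.1 - p.2 - 1 : ℤ) : ZMod 3) = 0 := by
    unfold cl
    push_cast
    rw [sub_eq_zero]
  rw [h1, ZMod.intCast_zmod_eq_zero_iff_dvd]
  unfold nn
  constructor
  · intro h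
    have h2 : (3 : ℤ) ∣ p.1 - p.2 - 1 := h
    omega
  · intro h
    show (3 : ℤ) ∣ p.1 - p.2 - 1
    omega

private def L17_phi (g p : Pt) : ℤ := if nn g < nn p then 1 else 0

private lemma L17_edge {g p d : Pt} (hg : cl g = 1) (hp : cl p ≠ 1) (hd : d ∈ dirs) (hpd : cl (p + d) ≠ 1)
    (hl : lv p < lv g) : cr g (p, d) = L17_phi g (p + d) - L17_phi g p := by
  rw [L17_cl] at hg
  rw [Ne, L17_cl] at hp hpd
  have hd' : d = (1, 0) ∨ d = (0, 1) ∨ d = (-1, 1) ∨ d = (-1, 0) ∨ d = (0, -1) ∨ d = (1, -1) := by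
    simpa [dirs] using hd
  have hn : nn (p + d) = nn p + d.1 - d.2 := by
    unfold nn
    rw [Prod.fst_add, Prod.snd_add]
    ring
  unfold cr L17_phi
  rw [hn] at hpd ⊢
  simp only [hl, and_true]
  generalize nn p = a at *
  generalize nn g = b at *
  rcases hd' with rfl | rfl | rfl | rfl | rfl | rfl
  all_goals
    norm_num at hpd ⊢
    split_ifs <;> omega

/-- signed crossings of a word. -/
private def L17_S (g v d : Pt) (u : List Bool) : ℤ := ∑ i ∈ range u.length, cr g (vx v d u i, dx d u i)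

private lemma L17_S_app {g v d v' d' : Pt} {s t : List Bool} (h1 : vx v d s s.length = v')
    (h2 : dx d s s.length = d') : L17_S g v d (s ++ t) = L17_S g v d s + L17_S g v' d' t := by
  unfold L17_S
  rw [List.length_append, Finset.sum_range_add]
  congr 1
  · apply Finset.sum_congr rfl
    intro i hi
    rw [Finset.mem_range] at hi
    rw [vx_append (by omega), dx_append (by omega)]
  · apply Finset.sum_congr rfl
    intro i _
    rw [RP.Glue.vxc, RP.Glue.dxc, h1, h2]

private lemma L17_cr_zero {g p d : Pt} (h : nn p < nn g - 1 ∨ nn g + 1 < nn p ∨ lv g ≤ lv p) :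
    cr g (p, d) = 0 := by
  unfold cr
  rw [if_neg, if_neg]
  · rintro ⟨_, h1, h2⟩
    simp only at h1 h2
    omega
  · rintro ⟨_, h1, h2⟩
    simp only at h1 h2
    omega

private lemma L17_S_zero {g v d : Pt} {u : List Bool}
    (h : ∀ p ∈ RP.Glue.HO v d u, nn p < nn g - 1 ∨ nn g + 1 < nn p ∨ lv g ≤ lv p) : L17_S g v d u = 0 := by
  unfold L17_S
  apply Finset.sum_eq_zero
  intro i hi
  rw [Finset.mem_range] at hi
  exact L17_cr_zero (h _ ⟨i, hi, rfl⟩)

private lemma L17_S_tele {g v d : Pt} {u : List Bool} (hg : cl g = 1) (hd : d ∈ dirs) (hv : cl v ≠ 1)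
    (hvd : cl (v + d) ≠ 1) (h : ∀ p ∈ RP.Glue.HO v d u, lv p < lv g) :
    L17_S g v d u = L17_phi g (vx v d u u.length) - L17_phi g v := by
  have h1 : ∀ i, cl (vx v d u i) ≠ 1 := by
    intro i
    unfold vx
    rw [cl_vs]
    split_ifs
    · exact hv
    · rw [← cl_add]
      exact hvd
  have h2 : ∀ n, n ≤ u.length → ∑ i ∈ range n, cr g (vx v d u i, dx d u i) =
      L17_phi g (vx v d u n) - L17_phi g v := by
    intro n
    induction n with
    | zero =>
      intro _
      rw [Finset.sum_range_zero]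
      show 0 = L17_phi g v - L17_phi g v
      rw [sub_self]
    | succ n ih =>
      intro hn
      rw [Finset.sum_range_succ, ih (by omega)]
      have h3 : vx v d u (n + 1) = vx v d u n + dx d u n := vs_succ n
      have h4 := h1 (n + 1)
      rw [h3] at h4
      have h6 : dx d u n ∈ dirs := ds_mem hd n
      rw [L17_edge hg (h1 n) h6 h4 (h _ ⟨n, by omega, rfl⟩), h3]
      ring
  exact h2 u.length le_rfl

private lemma L17_cr_trans (f z p d : Pt) : cr f (p + z, d) = cr (f - z) (p, d) := by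
  unfold cr nn lv
  simp only [Prod.fst_add, Prod.snd_add, Prod.fst_sub, Prod.snd_sub]
  have e1 : (p.1 + z.1 - (p.2 + z.2) = f.1 - f.2 - 1) ↔ (p.1 - p.2 = f.1 - z.1 - (f.2 - z.2) - 1) := by
    constructor <;> intro h <;> linarith
  have e2 : (p.1 + z.1 - (p.2 + z.2) = f.1 - f.2 + 1) ↔ (p.1 - p.2 = f.1 - z.1 - (f.2 - z.2) + 1) := by
    constructor <;> intro h <;> linarith
  have e3 : (p.1 + z.1 + 2 * (p.2 + z.2) < f.1 + 2 * f.2) ↔ (p.1 + 2 * p.2 < f.1 - z.1 + 2 * (f.2 - z.2)) := by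
    constructor <;> intro h <;> linarith
  simp only [e1, e2, e3]

/-- the crossings of the ray from a face g near the origin and the distance of the vertices. -/
private lemma L17_dec {K e L : ℕ} (hK : 2 ≤ K) (he2 : 2 ≤ e) {m : Pt} {w : RP.S6} (h : RP.Dec K e L m w) :
    cl m = 0 ∧
    (∀ g : Pt, cl g = 1 → |g.1| ≤ e + 1 → |g.2| ≤ e + 1 → L17_S g m up (RP.cat6 w) = -1) ∧
    ∀ v : Pt, |v.1| ≤ e → |v.2| ≤ e → ∀ i, i < (RP.cat6 w).length → vx m up (RP.cat6 w) i ≠ v := by
  obtain ⟨b0, c0, b1, c1, b2, c2⟩ := w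
  obtain ⟨n0, m1, n1, m2, n2, hb0, hc0, hb1, hc1, hb2, hc2⟩ := h
  simp only [] at hb0 hc0 hb1 hc1 hb2 hc2
  have d0 : RP.e0 ∈ dirs := by decide
  have d1 : RP.e1 ∈ dirs := by decide
  have d2 : RP.e2 ∈ dirs := by decide
  have he1 : 1 ≤ e := by omega
  obtain B0 := RP.Glue.toBF d0 hb0
  obtain B1 := RP.Glue.toBF d1 hb1
  obtain B2 := RP.Glue.toBF d2 hb2
  obtain C0 := RP.Glue.toCF (by omega : 1 ≤ K) he1 d0 hc0
  obtain C1 := RP.Glue.toCF (by omega : 1 ≤ K) he1 d1 hc1
  obtain C2 := RP.Glue.toCF (by omega : 1 ≤ K) he1 d2 hc2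
  have clm : cl m = 0 := hb0.1.1
  have cln : cl n2 = 0 := hb2.2.1.1
  have hk : (2 : ℤ) * e ≤ (K : ℤ) * e := by
    have : (2 : ℤ) ≤ K := by exact_mod_cast hK
    nlinarith
  have he : (2 : ℤ) ≤ e := by exact_mod_cast he2
  clear hb0 hc0 hb1 hc1 hb2 hc2
  generalize hkk : (K : ℤ) * e = k at *
  generalize hee : (e : ℤ) = E at *
  have x0 := C0.dn
  have x1 := C1.dn
  have x2 := C2.dn
  rw [RP.Glue.rr0] at x0
  rw [RP.Glue.rr1] at x1
  rw [RP.Glue.rr2] at x2
  have hcat : RP.cat6 (b0, c0, b1, c1, b2, c2) = b0 ++ (c0 ++ (b1 ++ (c1 ++ (b2 ++ c2)))) := rfl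
  rw [hcat]
  have hup : (up : Pt) = RP.e0 := rfl
  rw [hup]
  have qm := B0.ma
  have qm' := B0.mb
  have q0 := B0.na
  have q0' := B0.nb
  have q1 := B1.ma
  have q1' := B1.mb
  have q2 := B1.na
  have q2' := B1.nb
  have q3 := B2.ma
  have q3' := B2.mb
  have q4 := B2.na
  have q4' := B2.nb
  have r0 := B0.mc
  have r4 := B2.mc
  have r5 := B2.nc
  simp only [RP.Glue.ip0, RP.Glue.ip1, RP.Glue.ip2, RP.Glue.cr0, RP.Glue.cr2] at qm qm' q0 q0' q1 q1' q2 q2' q3 q3' q4 q4' r0 r4 r5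
  have hB0 : ∀ p, p ∈ RP.Glue.HO m RP.e0 b0 → 12 * E ≤ -p.1 ∧ m.1 + 2 * m.2 ≤ p.1 + 2 * p.2 := by
    intro p hp
    have := RP.Glue.HO_B B0 hp
    simp only [RP.Glue.ip0, RP.Glue.cr0] at this
    exact ⟨this.2.2.2.1, this.2.2.2.2⟩
  have hB1 : ∀ p, p ∈ RP.Glue.HO m1 RP.e1 b1 → p.1 - p.2 ≤ n1.1 - n1.2 ∧ 12 * E ≤ p.1 + p.2 := by
    intro p hp
    have := RP.Glue.HO_B B1 hp
    simp only [RP.Glue.ip1, RP.Glue.cr1] at this
    exact ⟨this.2.1, this.2.2.2.1⟩
  have hB2 : ∀ p, p ∈ RP.Glue.HO m2 RP.e2 b2 → -2 * p.1 - p.2 ≤ -2 * n2.1 - n2.2 ∧ 12 * E ≤ -p.2 := by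
    intro p hp
    have := RP.Glue.HO_B B2 hp
    simp only [RP.Glue.ip2, RP.Glue.cr2] at this
    exact ⟨this.2.1, this.2.2.2.1⟩
  have hC0 : ∀ p, p ∈ RP.Glue.HO n0 RP.e0 c0 → p.1 - p.2 ≤ m1.1 - m1.2 := by
    intro p hp
    have := RP.Glue.HO_C C0 hp
    simp only [RP.Glue.rr0, RP.Glue.ip0, RP.Glue.ip1] at this
    exact this.2.1
  have hC1 : ∀ p, p ∈ RP.Glue.HO n1 RP.e1 c1 → n1.1 - n1.2 ≤ p.1 - p.2 := by
    intro p hp
    have := RP.Glue.HO_C C1 hp
    simp only [RP.Glue.rr1, RP.Glue.ip1, RP.Glue.ip2] at this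
    exact this.2.2.2
  have hC2 : ∀ p, p ∈ RP.Glue.HO n2 RP.e2 c2 → p.1 + 2 * p.2 ≤ m.1 + 2 * m.2 := by
    intro p hp
    have := RP.Glue.HO_C C2 hp
    simp only [RP.Glue.rr2, RP.Glue.ip2, RP.Glue.ip0] at this
    exact this.2.1
  refine ⟨clm, ?_, ?_⟩
  · intro g hg hg1 hg2
    rw [abs_le] at hg1 hg2
    rw [L17_S_app B0.en B0.dn, L17_S_app C0.en x0, L17_S_app B1.en B1.dn, L17_S_app C1.en x1,
      L17_S_app B2.en B2.dn]
    have s0 : L17_S g m RP.e0 b0 = 0 := by
      apply L17_S_zero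
      intro p hp
      have := hB0 p hp
      unfold nn lv
      left
      omega
    have s1 : L17_S g n0 RP.e0 c0 = 0 := by
      apply L17_S_zero
      intro p hp
      have := hC0 p hp
      unfold nn lv
      left
      omega
    have s2 : L17_S g m1 RP.e1 b1 = 0 := by
      apply L17_S_zero
      intro p hp
      have := hB1 p hp
      unfold nn lv
      right
      right
      omega
    have s3 : L17_S g n1 RP.e1 c1 = 0 := by
      apply L17_S_zero
      intro p hp
      have := hC1 p hp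
      unfold nn lv
      right
      left
      omega
    have s4 : L17_S g m2 RP.e2 b2 = 0 := by
      apply L17_S_zero
      intro p hp
      have := hB2 p hp
      unfold nn lv
      right
      left
      omega
    have s5 : L17_S g n2 RP.e2 c2 = -1 := by
      rw [L17_S_tele hg d2 (by rw [cln]; decide) (by rw [cl_add, cln]; decide), C2.en]
      · unfold L17_phi nn
        rw [if_neg (by omega), if_pos (by omega)]
        rfl
      · intro p hp
        have := hC2 p hp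
        unfold lv
        omega
    rw [s0, s1, s2, s3, s4, s5]
    rfl
  · intro v hv1 hv2 i hi hiv
    rw [abs_le] at hv1 hv2
    have hp : v ∈ RP.Glue.HO m RP.e0 (b0 ++ (c0 ++ (b1 ++ (c1 ++ (b2 ++ c2))))) := ⟨i, hi, hiv⟩
    rcases RP.Glue.HO_app B0.en B0.dn hp with hp | hp
    · have := hB0 v hp
      omega
    rcases RP.Glue.HO_app C0.en x0 hp with hp | hp
    · have := hC0 v hp
      omega
    rcases RP.Glue.HO_app B1.en B1.dn hp with hp | hp
    · have := hB1 v hp
      omega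
    rcases RP.Glue.HO_app C1.en x1 hp with hp | hp
    · have := hC1 v hp
      omega
    rcases RP.Glue.HO_app B2.en B2.dn hp with hp | hp
    · have := hB2 v hp
      omega
    · have := hC2 v hp
      omega

/-- the polygon of a rooted closed word, translated by z. -/
private def L17_E (z : Pt) (y : Pt × List Bool) : Finset (Pt × Pt) := pe (y.1 + z) up (L17_per y.2) y.2.length

private lemma L17_pol {K e L : ℕ} (hK : 2 ≤ K) (he2 : 2 ≤ e) {z : Pt} (hz : cl z = 0) {y : Pt × List Bool}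
    (hy : y ∈ RP.Lam.Y K e (L * e)) : Poly (y.1 + z) up (L17_per y.2) y.2.length := by
  obtain ⟨R, hR⟩ := RP.glue K L hK
  obtain ⟨w, h1, h2⟩ := RP.Lam.mem_Y.1 hy
  obtain ⟨g1, g2, g3, _, i, hi, _⟩ := hR e y.1 w (by omega) h1
  rw [h2] at g1 g2 g3 hi
  apply L17_poly
  · rw [cl_add, hz, (L17_dec hK he2 h1).1, add_zero]
  · omega
  · rw [L17_vx_add, g1]
  · exact g2
  · intro i j hij hj
    rw [L17_vx_add, L17_vx_add]
    intro h
    exact g3 i j hij hj (add_right_cancel h)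

private lemma L17_Ins {K e L : ℕ} (hK : 2 ≤ K) (he2 : 2 ≤ e) {z : Pt} (hz : cl z = 0) {y : Pt × List Bool}
    (hy : y ∈ RP.Lam.Y K e (L * e)) {v : Pt} (hv : Vt v) (hb : Bx z e v) : Ins (L17_E z y) v := by
  have hp := L17_pol hK he2 hz hy
  obtain ⟨w, h1, h2⟩ := RP.Lam.mem_Y.1 hy
  obtain ⟨_, g1, g2⟩ := L17_dec hK he2 h1
  rw [h2] at g1 g2
  obtain ⟨v1, v2⟩ := hb
  refine ⟨hv, ?_, ?_⟩
  · intro h
    unfold VE L17_E pe at h
    rw [Finset.mem_image] at h
    obtain ⟨q, hq, hqv⟩ := h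
    rw [Finset.mem_image] at hq
    obtain ⟨i, hi, hiq⟩ := hq
    rw [Finset.mem_range] at hi
    have h3 : vs (y.1 + z) up (L17_per y.2) i = v := (congrArg Prod.fst hiq).trans hqv
    rw [L17_vs _ _ _ hi.le, L17_vx_add] at h3
    exact g2 (v - z) v1 v2 i hi (by rw [← h3, add_sub_cancel_right])
  · have hd : ∃ d ∈ dirs, cl (v + d) = 1 := by
      unfold Vt at hv
      have h3 : cl v = 0 ∨ cl v = 2 := by
        generalize cl v = a at hv
        revert a
        decide
      rcases h3 with h3 | h3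
      · refine ⟨(1, 0), by decide, ?_⟩
        rw [cl_add, h3]
        decide
      · refine ⟨(-1, 0), by decide, ?_⟩
        rw [cl_add, h3]
        decide
    obtain ⟨d, hd, hc⟩ := hd
    refine ⟨d, hd, hc, ?_⟩
    have h4 : Nw (L17_E z y) (v + d) = L17_S (v + d - z) y.1 up y.2 := by
      unfold L17_E
      rw [L17_Nw hp]
      unfold L17_S
      apply Finset.sum_congr rfl
      intro i hi
      rw [Finset.mem_range] at hi
      unfold eg
      rw [L17_vs _ _ _ hi.le, L17_vx_add, L17_ds _ _ hi.le, L17_cr_trans]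
    have h5 := dir_bound hd
    rw [abs_le] at v1 v2
    rw [h4, g1]
    · decide
    · rw [cl_sub, hc, hz, sub_zero]
    · show |v.1 + d.1 - z.1| ≤ _
      have h6 : (v - z).1 = v.1 - z.1 := rfl
      rw [h6] at v1
      rw [abs_le]
      constructor <;> linarith
    · show |v.2 + d.2 - z.2| ≤ _
      have h6 : (v - z).2 = v.2 - z.2 := rfl
      rw [h6] at v2
      rw [abs_le]
      constructor <;> linarith

private lemma L17_VE {e R : ℕ} {z : Pt} {y : Pt × List Bool}
    (h : ∀ i, i ≤ y.2.length → |(vx y.1 up y.2 i).1| ≤ R * e ∧ |(vx y.1 up y.2 i).2| ≤ R * e) :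
    ∀ v ∈ VE (L17_E z y), Bx z ((R + 1) * e) v := by
  intro v hv
  unfold VE L17_E pe at hv
  rw [Finset.mem_image] at hv
  obtain ⟨q, hq, hqv⟩ := hv
  rw [Finset.mem_image] at hq
  obtain ⟨i, hi, hiq⟩ := hq
  rw [Finset.mem_range] at hi
  have h3 : vs (y.1 + z) up (L17_per y.2) i = v := (congrArg Prod.fst hiq).trans hqv
  rw [L17_vs _ _ _ hi.le, L17_vx_add] at h3
  have h4 : v - z = vx y.1 up y.2 i := by rw [← h3, add_sub_cancel_right]
  have h5 := h i hi.le
  have h6 : (0 : ℤ) ≤ e := Int.natCast_nonneg e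
  unfold Bx
  rw [h4]
  push_cast
  constructor
  · linarith [h5.1]
  · linarith [h5.2]

/-- the roots of a polygon. -/
private lemma L17_roots {K e L : ℕ} (hK : 2 ≤ K) (he2 : 2 ≤ e) {z : Pt} (hz : cl z = 0) {y y' : Pt × List Bool}
    (hy : y ∈ RP.Lam.Y K e (L * e)) (hy' : y' ∈ RP.Lam.Y K e (L * e)) (h : L17_E z y' = L17_E z y) :
    ∃ k ∈ {k : ℕ | k < y.2.length ∧ dx up y.2 k = up ∧
      (vx y.1 up y.2 k, y.2.rotate k) ∈ RP.Y0 K e (L * e) y.2.length}, y' = (vx y.1 up y.2 k, y.2.rotate k) := by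
  have hp := L17_pol hK he2 hz hy
  have hp' := L17_pol hK he2 hz hy'
  obtain ⟨hl, k, hk, a1, a2, a3⟩ := L17_same hp hp' h
  rw [L17_vs _ _ _ hk.le, L17_vx_add] at a1
  rw [L17_ds _ _ hk.le] at a2
  have a4 := L17_rotate hl a3
  have a5 : y' = (vx y.1 up y.2 k, y.2.rotate k) := by
    rw [← a4, add_right_cancel a1]
  refine ⟨k, ⟨hk, a2, ?_⟩, a5⟩
  rw [← a5, ← hl]
  exact hy'

private lemma L17_fiber {K e L : ℕ} (hK : 2 ≤ K) (he2 : 2 ≤ e) {z : Pt} (hz : cl z = 0)
    (E : Finset (Pt × Pt)) :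
    ∑' y : {y : {y : Pt × List Bool // y ∈ RP.Lam.Y K e (L * e)} // L17_E z y.1 = E},
      wE y.1.1.2 * (RP.N0 K e (L * e) y.1.1 : ENNReal)⁻¹ ≤ ENNReal.ofReal (xc ^ E.card) := by
  classical
  have hcard : ∀ y : {y : {y : Pt × List Bool // y ∈ RP.Lam.Y K e (L * e)} // L17_E z y.1 = E},
      Finite {y : {y : Pt × List Bool // y ∈ RP.Lam.Y K e (L * e)} // L17_E z y.1 = E} ∧
      Nat.card {y : {y : Pt × List Bool // y ∈ RP.Lam.Y K e (L * e)} // L17_E z y.1 = E} ≤
        RP.N0 K e (L * e) y.1.1 := by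
    intro y
    have h1 : ∀ y' : {y : {y : Pt × List Bool // y ∈ RP.Lam.Y K e (L * e)} // L17_E z y.1 = E},
        ∃ k ∈ {k : ℕ | k < y.1.1.2.length ∧ dx up y.1.1.2 k = up ∧
          (vx y.1.1.1 up y.1.1.2 k, y.1.1.2.rotate k) ∈ RP.Y0 K e (L * e) y.1.1.2.length},
          y'.1.1 = (vx y.1.1.1 up y.1.1.2 k, y.1.1.2.rotate k) := fun y' =>
      L17_roots hK he2 hz y.1.2 y'.1.2 (y'.2.trans y.2.symm)
    choose φ hφ hφ' using h1
    have hfin : {k : ℕ | k < y.1.1.2.length ∧ dx up y.1.1.2 k = up ∧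
        (vx y.1.1.1 up y.1.1.2 k, y.1.1.2.rotate k) ∈ RP.Y0 K e (L * e) y.1.1.2.length}.Finite :=
      (Set.finite_lt_nat y.1.1.2.length).subset (fun _ h => h.1)
    have hinj : Function.Injective (fun y' => (⟨φ y', hφ y'⟩ : {k : ℕ // k ∈ {k : ℕ | k < y.1.1.2.length ∧
        dx up y.1.1.2 k = up ∧ (vx y.1.1.1 up y.1.1.2 k, y.1.1.2.rotate k) ∈
          RP.Y0 K e (L * e) y.1.1.2.length}})) := by
      intro y1 y2 h12
      have h3 : φ y1 = φ y2 := congrArg Subtype.val h12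
      apply Subtype.ext
      apply Subtype.ext
      rw [hφ' y1, hφ' y2, h3]
    have : Finite {k : ℕ // k ∈ {k : ℕ | k < y.1.1.2.length ∧ dx up y.1.1.2 k = up ∧
        (vx y.1.1.1 up y.1.1.2 k, y.1.1.2.rotate k) ∈ RP.Y0 K e (L * e) y.1.1.2.length}} := hfin
    exact ⟨Finite.of_injective _ hinj, Nat.card_le_card_of_injective _ hinj⟩
  by_cases hne : Nonempty {y : {y : Pt × List Bool // y ∈ RP.Lam.Y K e (L * e)} // L17_E z y.1 = E}
  · obtain ⟨y0⟩ := hne
    have := (hcard y0).1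
    have hft : Fintype {y : {y : Pt × List Bool // y ∈ RP.Lam.Y K e (L * e)} // L17_E z y.1 = E} :=
      Fintype.ofFinite _
    rw [tsum_fintype]
    have hpos : 0 < Nat.card {y : {y : Pt × List Bool // y ∈ RP.Lam.Y K e (L * e)} // L17_E z y.1 = E} :=
      Nat.card_pos_iff.2 ⟨⟨y0⟩, this⟩
    have hterm : ∀ y ∈ (Finset.univ : Finset {y : {y : Pt × List Bool // y ∈ RP.Lam.Y K e (L * e)} // L17_E z y.1 = E}),
        wE y.1.1.2 * (RP.N0 K e (L * e) y.1.1 : ENNReal)⁻¹ ≤ ENNReal.ofReal (xc ^ E.card) *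
          (Nat.card {y : {y : Pt × List Bool // y ∈ RP.Lam.Y K e (L * e)} // L17_E z y.1 = E} : ENNReal)⁻¹ := by
      intro y _
      have h1 : E.card = y.1.1.2.length :=
        (congrArg Finset.card y.2).symm.trans (L17_card (L17_pol hK he2 hz y.1.2))
      have h2 : wE y.1.1.2 = ENNReal.ofReal (xc ^ E.card) := by
        rw [h1]
        rfl
      rw [h2]
      gcongr
      exact (hcard y).2
    refine (Finset.sum_le_card_nsmul _ _ _ hterm).trans (le_of_eq ?_)
    rw [Finset.card_univ, ← Nat.card_eq_fintype_card, nsmul_eq_mul, mul_left_comm, ENNReal.mul_inv_cancel, mul_one]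
    · exact_mod_cast hpos.ne'
    · exact ENNReal.natCast_ne_top _
  · rw [not_nonempty_iff] at hne
    rw [tsum_empty]
    exact zero_le

/-- polygons around the box of size e at the vertex z, in the box of size R e. -/
theorem ring : ∃ (R e_0 : ℕ) (c : ℝ), 1 ≤ R ∧ 1 ≤ e_0 ∧ 0 < c ∧ ∀ (e : ℕ) (z : Pt), e_0 ≤ e → cl z = 0 →
    ∃ 𝓔 : Finset (Finset (Pt × Pt)), (∀ E ∈ 𝓔, IsPoly E ∧ (∀ v ∈ VE E, Bx z (R * e) v) ∧
      ∀ v, Vt v → Bx z e v → Ins E v) ∧ c ≤ ∑ E ∈ 𝓔, xc ^ E.card := by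
  classical
  obtain ⟨K, L, e0, c, hK4, hL, hc, hlam⟩ := RP.lam_lower
  have hK : 2 ≤ K := by omega
  obtain ⟨R, hR⟩ := RP.glue K L hK
  refine ⟨R + 1, max e0 2, c, by omega, by omega, hc, ?_⟩
  intro e z he hz
  have he0 : e0 ≤ e := le_trans (le_max_left _ _) he
  have he2 : 2 ≤ e := le_trans (le_max_right _ _) he
  obtain ⟨Bf, hBf⟩ : ∃ Bf : Finset Pt, ∀ v, Bx z ((R + 1) * e) v → v ∈ Bf := by
    refine ⟨(Finset.Icc (z.1 - ((R + 1) * e : ℕ)) (z.1 + ((R + 1) * e : ℕ))) ×ˢ
      (Finset.Icc (z.2 - ((R + 1) * e : ℕ)) (z.2 + ((R + 1) * e : ℕ))), ?_⟩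
    rintro v ⟨h1, h2⟩
    rw [abs_le] at h1 h2
    have h3 : (v - z).1 = v.1 - z.1 := rfl
    have h4 : (v - z).2 = v.2 - z.2 := rfl
    rw [h3] at h1
    rw [h4] at h2
    rw [Finset.mem_product, Finset.mem_Icc, Finset.mem_Icc]
    refine ⟨⟨?_, ?_⟩, ?_, ?_⟩ <;> linarith
  have hbox : ∀ y ∈ RP.Lam.Y K e (L * e), ∀ v ∈ VE (L17_E z y), Bx z ((R + 1) * e) v := by
    intro y hy
    obtain ⟨w, h1, h2⟩ := RP.Lam.mem_Y.1 hy
    obtain ⟨_, _, _, g4, _⟩ := hR e y.1 w (by omega) h1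
    rw [h2] at g4
    exact L17_VE g4
  refine ⟨((Bf ×ˢ dirs).powerset).filter (fun E => ∃ y ∈ RP.Lam.Y K e (L * e), L17_E z y = E), ?_, ?_⟩
  · intro E hE
    rw [Finset.mem_filter] at hE
    obtain ⟨_, y, hy, rfl⟩ := hE
    exact ⟨⟨_, _, _, _, L17_pol hK he2 hz hy, rfl⟩, hbox y hy, fun v hv hb => L17_Ins hK he2 hz hy hv hb⟩
  · have h1 := hlam e he0
    have h2 : ∑' y : {y : Pt × List Bool // y ∈ RP.Lam.Y K e (L * e)},
        wE y.1.2 * (RP.N0 K e (L * e) y.1 : ENNReal)⁻¹ =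
        ∑' E : Finset (Pt × Pt), ∑' y : {y : {y : Pt × List Bool // y ∈ RP.Lam.Y K e (L * e)} // L17_E z y.1 = E},
          wE y.1.1.2 * (RP.N0 K e (L * e) y.1.1 : ENNReal)⁻¹ := by
      rw [← (Equiv.sigmaFiberEquiv (fun y : {y : Pt × List Bool // y ∈ RP.Lam.Y K e (L * e)} => L17_E z y.1)).tsum_eq,
        ENNReal.tsum_sigma']
      rfl
    have h3 : ∑' E : Finset (Pt × Pt), ∑' y : {y : {y : Pt × List Bool // y ∈ RP.Lam.Y K e (L * e)} // L17_E z y.1 = E},
          wE y.1.1.2 * (RP.N0 K e (L * e) y.1.1 : ENNReal)⁻¹ =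
        ∑ E ∈ ((Bf ×ˢ dirs).powerset).filter (fun E => ∃ y ∈ RP.Lam.Y K e (L * e), L17_E z y = E),
          ∑' y : {y : {y : Pt × List Bool // y ∈ RP.Lam.Y K e (L * e)} // L17_E z y.1 = E},
          wE y.1.1.2 * (RP.N0 K e (L * e) y.1.1 : ENNReal)⁻¹ := by
      apply tsum_eq_sum
      intro E hE
      have h4 : IsEmpty {y : {y : Pt × List Bool // y ∈ RP.Lam.Y K e (L * e)} // L17_E z y.1 = E} := by
        constructor
        rintro ⟨⟨y, hy⟩, hyE⟩
        apply hE
        rw [Finset.mem_filter]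
        refine ⟨?_, y, hy, hyE⟩
        rw [Finset.mem_powerset]
        simp only at hyE
        intro p hp
        rw [Finset.mem_product]
        constructor
        · apply hBf
          apply hbox y hy
          rw [hyE]
          exact Finset.mem_image_of_mem _ hp
        · rw [← hyE] at hp
          unfold L17_E pe at hp
          rw [Finset.mem_image] at hp
          obtain ⟨i, _, rfl⟩ := hp
          exact ds_mem (by decide) i
      rw [tsum_empty]
    have hx : 0 ≤ xc := by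
      have := xc_pos
      exact this.le
    have h5 : ENNReal.ofReal c ≤ ENNReal.ofReal
        (∑ E ∈ ((Bf ×ˢ dirs).powerset).filter (fun E => ∃ y ∈ RP.Lam.Y K e (L * e), L17_E z y = E), xc ^ E.card) := by
      rw [ENNReal.ofReal_sum_of_nonneg (fun E _ => pow_nonneg hx _)]
      refine h1.trans ?_
      rw [h2, h3]
      exact Finset.sum_le_sum (fun E _ => L17_fiber hK he2 hz E)
    exact (ENNReal.ofReal_le_ofReal_iff (Finset.sum_nonneg (fun E _ => pow_nonneg hx _))).1 h5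

end L17

end LP

end HexObs
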