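import Pool.Agent.HexLoop.Defs

/-!
LOOP, module L1: lattice polygons, rotation of the root, reversal, winding numbers on both sides of an edge.
-/

set_option autoImplicit false

namespace HexObs

namespace LP

open Complex Finset

section L1

variable {v d : Pt} {τ : ℕ → Bool} {m : ℕ}

theorem poly_closed (h : Poly v d τ m) (i : ℕ) : vs v d τ (i + m) = vs v d τ i ∧ ds d τ (i + m) = ds d τ i := by
  induction i with
  | zero =>
    rw [Nat.zero_add]
    exact ⟨h.clv, h.cld⟩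
  | succ i ih =>
    have e : i + 1 + m = i + m + 1 := by omega
    rw [e, vs_succ, vs_succ, ds_succ, ds_succ, ih.1, ih.2, h.per]
    exact ⟨rfl, rfl⟩

lemma w_mod (h : Poly v d τ m) (i : ℕ) : vs v d τ (i % m) = vs v d τ i ∧ ds d τ (i % m) = ds d τ i := by
  have h1 : Function.Periodic (vs v d τ) m := fun j => (poly_closed h j).1
  have h2 : Function.Periodic (ds d τ) m := fun j => (poly_closed h j).2
  exact ⟨h1.map_mod_nat i, h2.map_mod_nat i⟩

lemma w_eg_mod (h : Poly v d τ m) (i : ℕ) : eg v d τ (i % m) = eg v d τ i := by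
  unfold eg
  rw [(w_mod h i).1, (w_mod h i).2]

lemma w_eg_mem (h : Poly v d τ m) (i : ℕ) : eg v d τ i ∈ pe v d τ m := by
  rw [← w_eg_mod h i]
  exact Finset.mem_image_of_mem _ (Finset.mem_range.2 (Nat.mod_lt _ h.pos))

lemma w_mod_eq (h : Poly v d τ m) {a b : ℕ} (hab : vs v d τ a = vs v d τ b) : a % m = b % m := by
  rw [← (w_mod h a).1, ← (w_mod h b).1] at hab
  have ha := Nat.mod_lt a h.pos
  have hb := Nat.mod_lt b h.pos
  rcases lt_trichotomy (a % m) (b % m) with h1 | h1 | h1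
  · exact absurd hab (h.inj _ _ h1 hb)
  · exact h1
  · exact absurd hab.symm (h.inj _ _ h1 ha)

lemma w_ne (h : Poly v d τ m) {a b : ℕ} (h1 : a < b) (h2 : b < a + m) : vs v d τ a ≠ vs v d τ b := by
  intro hab
  have h3 : b ≡ a [MOD m] := (w_mod_eq h hab).symm
  have h4 := (Nat.modEq_iff_dvd' h1.le).1 h3.symm
  have h5 := Nat.le_of_dvd (by omega) h4
  omega

theorem poly_de (h : Poly v d τ m) (i : ℕ) : De (eg v d τ i) := by
  have key : ∀ j, cl (vs v d τ j) ≠ 1 := by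
    intro j
    rw [cl_vs]
    split_ifs
    · exact h.de.2.1
    · rw [← cl_add]
      exact h.de.2.2
  exact ⟨ds_mem h.de.1 i, key i, key (i + 1)⟩

theorem poly_rot (h : Poly v d τ m) (k : ℕ) :
    Poly (vs v d τ k) (ds d τ k) (fun i => τ (k + i)) m ∧
      pe (vs v d τ k) (ds d τ k) (fun i => τ (k + i)) m = pe v d τ m := by
  have he : ∀ i, eg (vs v d τ k) (ds d τ k) (fun i => τ (k + i)) i = eg v d τ (k + i) := by
    intro i
    unfold eg
    rw [vs_shift, ds_shift]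
  constructor
  · refine ⟨h.pos, poly_de h k, ?_, ?_, ?_, ?_⟩
    · intro i
      show τ (k + (i + m)) = τ (k + i)
      rw [← add_assoc, h.per]
    · rw [← vs_shift, (poly_closed h k).1]
    · rw [← ds_shift, (poly_closed h k).2]
    · intro i j h1 h2
      rw [← vs_shift, ← vs_shift]
      exact w_ne h (by omega) (by omega)
  · ext p
    unfold pe
    simp only [Finset.mem_image, Finset.mem_range]
    constructor
    · rintro ⟨i, _, rfl⟩
      rw [he]
      exact ⟨(k + i) % m, Nat.mod_lt _ h.pos, w_eg_mod h _⟩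
    · rintro ⟨j, hj, rfl⟩
      refine ⟨(j + m * k - k) % m, Nat.mod_lt _ h.pos, ?_⟩
      rw [he, ← w_eg_mod h]
      have h0 : k ≤ m * k := Nat.le_mul_of_pos_left k h.pos
      have h1 : (k + (j + m * k - k) % m) % m = j := by
        rw [Nat.add_mod_mod, show k + (j + m * k - k) = j + m * k by omega, Nat.add_mul_mod_self_left]
        exact Nat.mod_eq_of_lt hj
      rw [h1]

lemma w_eg_inj (h : Poly v d τ m) : Set.InjOn (eg v d τ) (Finset.range m : Set ℕ) := by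
  intro i hi k hk hik
  rw [Finset.mem_coe, Finset.mem_range] at hi hk
  have h0 : vs v d τ i = vs v d τ k := congrArg Prod.fst hik
  have h1 := w_mod_eq h h0
  rwa [Nat.mod_eq_of_lt hi, Nat.mod_eq_of_lt hk] at h1

theorem pe_card (h : Poly v d τ m) : (pe v d τ m).card = m := by
  unfold pe
  rw [Finset.card_image_of_injOn (w_eg_inj h), Finset.card_range]

lemma w_turn_ne : ∀ d ∈ dirs, ∀ b : Bool, d ≠ 0 ∧ turn b d ≠ -d ∧ d + turn b d ≠ 0 := by decide

theorem poly_len (h : Poly v d τ m) : 3 ≤ m := by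
  have h0 := h.pos
  have hd := h.de.1
  by_contra hc
  have h1 : m = 1 ∨ m = 2 := by omega
  have h2 := h.clv
  rcases h1 with h1 | h1
  · rw [h1] at h2
    have h3 : v + d = v := h2
    exact (w_turn_ne d hd true).1 (by simpa using h3)
  · rw [h1] at h2
    have h3 : v + d + turn (τ 0) d = v := h2
    rw [add_assoc] at h3
    exact (w_turn_ne d hd (τ 0)).2.2 (by simpa using h3)

theorem Nw_poly (h : Poly v d τ m) (f : Pt) : Nw (pe v d τ m) f = ∑ i ∈ range m, cr f (eg v d τ i) := by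
  unfold Nw pe
  rw [Finset.sum_image (w_eg_inj h)]

/-- every polygon can be rooted at each of its directed edges. -/
theorem root_at {E : Finset (Pt × Pt)} (hE : IsPoly E) {p : Pt × Pt} (hp : p ∈ E) :
    ∃ τ m, Poly p.1 p.2 τ m ∧ E = pe p.1 p.2 τ m := by
  obtain ⟨v, d, τ, m, h, rfl⟩ := hE
  unfold pe at hp
  obtain ⟨k, _, rfl⟩ := Finset.mem_image.1 hp
  exact ⟨_, m, (poly_rot h k).1, (poly_rot h k).2.symm⟩

theorem isPoly_de {E : Finset (Pt × Pt)} (hE : IsPoly E) {p : Pt × Pt} (hp : p ∈ E) : De p := by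
  obtain ⟨τ, m, h, _⟩ := root_at hE hp
  exact h.de

theorem isPoly_next {E : Finset (Pt × Pt)} (hE : IsPoly E) {p : Pt × Pt} (hp : p ∈ E) :
    ∃ b, (p.1 + p.2, turn b p.2) ∈ E := by
  obtain ⟨τ, m, h, hE'⟩ := root_at hE hp
  refine ⟨τ 0, ?_⟩
  rw [hE']
  exact w_eg_mem h 1

theorem isPoly_prev {E : Finset (Pt × Pt)} (hE : IsPoly E) {v : Pt} (hv : v ∈ VE E) :
    ∃ d b, (v - d, d) ∈ E ∧ (v, turn b d) ∈ E := by
  unfold VE at hv
  obtain ⟨p, hp, rfl⟩ := Finset.mem_image.1 hv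
  obtain ⟨τ, m, h, hE'⟩ := root_at hE hp
  obtain ⟨n, rfl⟩ : ∃ n, m = n + 1 := ⟨m - 1, by have := h.pos; omega⟩
  have h1 : vs p.1 p.2 τ n + ds p.2 τ n = p.1 := h.clv
  have h2 : turn (τ n) (ds p.2 τ n) = p.2 := h.cld
  refine ⟨ds p.2 τ n, τ n, ?_, ?_⟩
  · rw [hE']
    have h3 : (p.1 - ds p.2 τ n, ds p.2 τ n) = eg p.1 p.2 τ n := by
      unfold eg
      rw [← h1, add_sub_cancel_right, h1]
    rw [h3]
    exact w_eg_mem h n
  · rw [h2]
    exact hp

theorem isPoly_fun {E : Finset (Pt × Pt)} (hE : IsPoly E) {v d d' : Pt} (h1 : (v, d) ∈ E) (h2 : (v, d') ∈ E) :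
    d = d' := by
  obtain ⟨τ, m, h, hE'⟩ := root_at hE h1
  rw [hE'] at h2
  unfold pe at h2
  obtain ⟨k, hk, hk2⟩ := Finset.mem_image.1 h2
  rw [Finset.mem_range] at hk
  have h3 : vs v d τ k = v := congrArg Prod.fst hk2
  have h4 : ds d τ k = d' := congrArg Prod.snd hk2
  have h5 : k % m = 0 % m := w_mod_eq h (show vs v d τ k = vs v d τ 0 from h3)
  rw [Nat.mod_eq_of_lt hk, Nat.zero_mod] at h5
  rw [h5] at h4
  exact h4

lemma w_rv_rv (p : Pt × Pt) : rv (rv p) = p := by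
  unfold rv
  ext <;> simp

theorem isPoly_rv {E : Finset (Pt × Pt)} (hE : IsPoly E) {p : Pt × Pt} (hp : p ∈ E) : rv p ∉ E := by
  intro h1
  obtain ⟨b, h2⟩ := isPoly_next hE hp
  have h3 : -p.2 = turn b p.2 := isPoly_fun hE h1 h2
  exact (w_turn_ne p.2 (isPoly_de hE hp).1 b).2.1 h3.symm

theorem rE_rE (E : Finset (Pt × Pt)) : rE (rE E) = E := by
  unfold rE
  rw [Finset.image_image]
  have : rv ∘ rv = id := by
    funext p
    exact w_rv_rv p
  rw [this, Finset.image_id]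

theorem mem_rE {E : Finset (Pt × Pt)} {p : Pt × Pt} : p ∈ rE E ↔ rv p ∈ E := by
  unfold rE
  rw [Finset.mem_image]
  constructor
  · rintro ⟨q, hq, rfl⟩
    rwa [w_rv_rv]
  · intro h
    exact ⟨rv p, h, w_rv_rv p⟩

lemma w_rev (h : Poly v d τ m) : ∀ i, i ≤ m →
    vs v (-(ds d τ (2 * m - 1))) (fun i => !(τ (2 * m - 2 - i % m))) i = vs v d τ (2 * m - i) ∧
    (i < m → ds (-(ds d τ (2 * m - 1))) (fun i => !(τ (2 * m - 2 - i % m))) i = -(ds d τ (2 * m - 1 - i))) := by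
  have h3 := poly_len h
  intro i
  induction i with
  | zero =>
    intro _
    refine ⟨?_, fun _ => rfl⟩
    show v = vs v d τ (2 * m - 0)
    rw [show 2 * m - 0 = m + m by omega, (poly_closed h m).1, h.clv]
  | succ i ih =>
    intro hi
    have h4 := ih (by omega)
    have h5 := h4.2 (by omega)
    constructor
    · rw [vs_succ, h4.1, h5, show 2 * m - i = (2 * m - (i + 1)) + 1 by omega, vs_succ,
        show 2 * m - 1 - i = 2 * m - (i + 1) by omega]
      abel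
    · intro hi2
      rw [ds_succ, h5]
      show turn (!(τ (2 * m - 2 - i % m))) (-(ds d τ (2 * m - 1 - i))) = _
      rw [Nat.mod_eq_of_lt (show i < m by omega), show 2 * m - 1 - i = (2 * m - 2 - i) + 1 by omega, ds_succ,
        turn_neg, turn_turn, show 2 * m - 1 - (i + 1) = 2 * m - 2 - i by omega]

lemma w_rev_poly (h : Poly v d τ m) :
    Poly v (-(ds d τ (2 * m - 1))) (fun i => !(τ (2 * m - 2 - i % m))) m := by
  have h3 := poly_len h
  have hr := w_rev h
  refine ⟨h.pos, ?_, ?_, ?_, ?_, ?_⟩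
  · have h4 := poly_de h (2 * m - 1)
    refine ⟨?_, h.de.2.1, ?_⟩
    · show -(ds d τ (2 * m - 1)) ∈ dirs
      rw [mem_dirs, nrm_neg]
      exact mem_dirs.1 (ds_mem h.de.1 _)
    · have h5 : v = vs v d τ (2 * m - 1) + ds d τ (2 * m - 1) := by
        have h6 : vs v d τ (2 * m - 1) + ds d τ (2 * m - 1) = vs v d τ (m + m) := by
          rw [show m + m = (2 * m - 1) + 1 by omega, vs_succ]
        rw [h6, (poly_closed h m).1, h.clv]
      show Vt (v + -(ds d τ (2 * m - 1)))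
      have h7 : v + -(ds d τ (2 * m - 1)) = vs v d τ (2 * m - 1) := by
        nth_rewrite 1 [h5]
        abel
      rw [h7]
      exact h4.2.1
  · intro i
    show (!(τ (2 * m - 2 - (i + m) % m))) = !(τ (2 * m - 2 - i % m))
    rw [Nat.add_mod_right]
  · rw [(hr m le_rfl).1, show 2 * m - m = m by omega, h.clv]
  · obtain ⟨n, rfl⟩ : ∃ n, m = n + 1 := ⟨m - 1, by omega⟩
    rw [ds_succ, (hr n (by omega)).2 (by omega)]
    show turn (!(τ (2 * (n + 1) - 2 - n % (n + 1)))) (-(ds d τ (2 * (n + 1) - 1 - n))) = _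
    rw [Nat.mod_eq_of_lt (show n < n + 1 by omega), show 2 * (n + 1) - 1 - n = n + 1 by omega,
      show 2 * (n + 1) - 2 - n = n by omega, ds_succ, turn_neg, turn_turn,
      show 2 * (n + 1) - 1 = n + (n + 1) by omega, (poly_closed h n).2]
  · intro i k hik hk
    rw [(hr i (by omega)).1, (hr k (by omega)).1]
    exact (w_ne h (by omega) (by omega)).symm

lemma w_rev_pe (h : Poly v d τ m) :
    pe v (-(ds d τ (2 * m - 1))) (fun i => !(τ (2 * m - 2 - i % m))) m = rE (pe v d τ m) := by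
  have h3 := poly_len h
  have hr := w_rev h
  have he : ∀ i, i < m → eg v (-(ds d τ (2 * m - 1))) (fun i => !(τ (2 * m - 2 - i % m))) i =
      rv (eg v d τ (2 * m - 1 - i)) := by
    intro i hi
    unfold eg rv
    rw [(hr i hi.le).1, (hr i hi.le).2 hi]
    show _ = (vs v d τ (2 * m - 1 - i) + ds d τ (2 * m - 1 - i), -(ds d τ (2 * m - 1 - i)))
    rw [show 2 * m - i = (2 * m - 1 - i) + 1 by omega, vs_succ]
  ext p
  rw [mem_rE]
  constructor
  · intro hp
    rw [pe, Finset.mem_image] at hp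
    obtain ⟨i, hi, rfl⟩ := hp
    rw [Finset.mem_range] at hi
    rw [he i hi, w_rv_rv]
    exact w_eg_mem h _
  · intro hp
    rw [pe, Finset.mem_image] at hp
    obtain ⟨j, hj, hj2⟩ := hp
    rw [Finset.mem_range] at hj
    rw [pe, Finset.mem_image]
    refine ⟨m - 1 - j, Finset.mem_range.2 (by omega), ?_⟩
    rw [he _ (by omega), show 2 * m - 1 - (m - 1 - j) = j + m by omega]
    have h4 : eg v d τ (j + m) = eg v d τ j := by
      unfold eg
      rw [(poly_closed h j).1, (poly_closed h j).2]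
    rw [h4, hj2, w_rv_rv]

theorem isPoly_rE {E : Finset (Pt × Pt)} (hE : IsPoly E) : IsPoly (rE E) := by
  obtain ⟨v, d, τ, m, h, rfl⟩ := hE
  exact ⟨_, _, _, _, w_rev_poly h, (w_rev_pe h).symm⟩

theorem VE_rE {E : Finset (Pt × Pt)} (hE : IsPoly E) : VE (rE E) = VE E := by
  ext v
  constructor
  · intro hv
    obtain ⟨p, hp, rfl⟩ := Finset.mem_image.1 hv
    rw [mem_rE] at hp
    obtain ⟨b, hb⟩ := isPoly_next hE hp
    have h1 : (rv p).1 + (rv p).2 = p.1 := by
      show p.1 + p.2 + -p.2 = p.1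
      abel
    rw [h1] at hb
    exact Finset.mem_image.2 ⟨_, hb, rfl⟩
  · intro hv
    obtain ⟨e, b, he, _⟩ := isPoly_prev hE hv
    refine Finset.mem_image.2 ⟨(v, -e), ?_, rfl⟩
    rw [mem_rE]
    have h1 : rv (v, -e) = (v - e, e) := by
      unfold rv
      rw [neg_neg, ← sub_eq_add_neg]
    rw [h1]
    exact he

theorem card_rE (E : Finset (Pt × Pt)) : (rE E).card = E.card := by
  unfold rE
  apply Finset.card_image_of_injective
  intro p q h
  have := congrArg rv h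
  rwa [w_rv_rv, w_rv_rv] at this

lemma w_cr_rv (p : Pt × Pt) (f : Pt) : cr f (rv p) = -cr f p := by
  obtain ⟨⟨a, b⟩, ⟨c, e⟩⟩ := p
  obtain ⟨x, y⟩ := f
  simp only [cr, rv, nn, lv, Prod.mk.injEq, Prod.mk_add_mk, Prod.neg_mk]
  split_ifs <;> omega

theorem cr_rv {p : Pt × Pt} (_hp : De p) (f : Pt) : cr f (rv p) = -cr f p := w_cr_rv p f

theorem Nw_rE {E : Finset (Pt × Pt)} (_hE : IsPoly E) (f : Pt) : Nw (rE E) f = -Nw E f := by
  unfold Nw rE
  rw [Finset.sum_image, ← Finset.sum_neg_distrib]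
  · exact Finset.sum_congr rfl (fun p _ => w_cr_rv p f)
  · intro p _ q _ h
    have := congrArg rv h
    rwa [w_rv_rv, w_rv_rv] at this

/-- sums of differences over a polygon vanish. -/
lemma w_tele {E : Finset (Pt × Pt)} (hE : IsPoly E) (φ : Pt → ℤ) : ∑ q ∈ E, (φ (q.1 + q.2) - φ q.1) = 0 := by
  obtain ⟨v, d, τ, m, h, rfl⟩ := hE
  unfold pe
  rw [Finset.sum_image (w_eg_inj h)]
  have h1 : ∀ i, φ ((eg v d τ i).1 + (eg v d τ i).2) - φ (eg v d τ i).1 = φ (vs v d τ (i + 1)) - φ (vs v d τ i) :=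
    fun i => rfl
  simp only [h1]
  rw [Finset.sum_range_sub (fun i => φ (vs v d τ i)), h.clv]
  exact sub_self _

lemma w_vt {v : Pt} (h : Vt v) : (v.1 - v.2) % 3 ≠ 1 := by
  intro h1
  apply h
  unfold cl
  have h2 : ((v.1 - v.2 : ℤ) : ZMod 3) = ((1 : ℤ) : ZMod 3) := (ZMod.intCast_eq_intCast_iff _ _ 3).2 (by
    show (v.1 - v.2) % 3 = 1 % 3
    omega)
  rw [h2]
  norm_num

lemma w_ind {E : Finset (Pt × Pt)} (p : Pt × Pt) :
    ∑ q ∈ E, (if q = p then (1 : ℤ) else 0) = if p ∈ E then 1 else 0 := by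
  rw [Finset.sum_ite_eq']

lemma w_pt (p : Pt × Pt) (hp : De p) (q : Pt × Pt) (hq : De q)
    (h : p.2 = (1, -1) ∨ p.2 = (0, 1) ∨ p.2 = (1, 0)) :
    cr (p.1 + rotL p.2) q - cr (p.1 + rotR p.2) q =
      ((if nn (p.1 + rotL p.2) < nn (q.1 + q.2) ∧ nn (q.1 + q.2) < nn (p.1 + rotR p.2) ∧
          lv (q.1 + q.2) ≤ lv p.1 then 1 else 0) -
        (if nn (p.1 + rotL p.2) < nn q.1 ∧ nn q.1 < nn (p.1 + rotR p.2) ∧ lv q.1 ≤ lv p.1 then 1 else 0)) +
      (if q = p then 1 else 0) - (if q = rv p then 1 else 0) := by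
  obtain ⟨⟨a, b⟩, e⟩ := p
  obtain ⟨⟨x, y⟩, g⟩ := q
  have h1 := w_vt hp.2.1
  have h2 := w_vt hp.2.2
  have h3 := w_vt hq.2.1
  have h4 := w_vt hq.2.2
  have h5 : g ∈ dirs := hq.1
  clear hp hq
  simp only [dirs, Finset.mem_insert, Finset.mem_singleton] at h5
  simp only at h
  simp only [cr, rv, nn, lv, rotL, rotR] at h1 h2 h3 h4 ⊢
  rcases h with rfl | rfl | rfl
  · simp at h2 ⊢
    rcases h5 with rfl | rfl | rfl | rfl | rfl | rfl <;> (simp at h4 ⊢; omega)
  · simp at h2 ⊢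
    rcases h5 with rfl | rfl | rfl | rfl | rfl | rfl <;> (simp at h4 ⊢; omega)
  · simp at h2 ⊢
    rcases h5 with rfl | rfl | rfl | rfl | rfl | rfl <;> (simp at h4 ⊢; omega)

/-- the winding numbers on the two sides of an edge, first part. -/
lemma w_edge {E : Finset (Pt × Pt)} (hE : IsPoly E) {p : Pt × Pt} (hp : De p)
    (h : p.2 = (1, -1) ∨ p.2 = (0, 1) ∨ p.2 = (1, 0)) :
    Nw E (p.1 + rotL p.2) - Nw E (p.1 + rotR p.2) = (if p ∈ E then 1 else 0) - (if rv p ∈ E then 1 else 0) := by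
  unfold Nw
  rw [← Finset.sum_sub_distrib, Finset.sum_congr rfl (fun q hq => w_pt p hp q (isPoly_de hE hq) h),
    Finset.sum_sub_distrib, Finset.sum_add_distrib, w_ind, w_ind,
    w_tele hE (fun v => if nn (p.1 + rotL p.2) < nn v ∧ nn v < nn (p.1 + rotR p.2) ∧ lv v ≤ lv p.1 then 1 else 0),
    zero_add]

lemma w_de_rv {p : Pt × Pt} (hp : De p) : De (rv p) := by
  refine ⟨?_, hp.2.2, ?_⟩
  · show -p.2 ∈ dirs
    rw [mem_dirs, nrm_neg]
    exact mem_dirs.1 hp.1
  · show Vt (p.1 + p.2 + -p.2)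
    rw [add_neg_cancel_right]
    exact hp.2.1

lemma w_face (p : Pt × Pt) : (rv p).1 + rotL (rv p).2 = p.1 + rotR p.2 ∧ (rv p).1 + rotR (rv p).2 = p.1 + rotL p.2 := by
  obtain ⟨⟨a, b⟩, ⟨c, e⟩⟩ := p
  simp only [rv, rotL, rotR, Prod.mk_add_mk, Prod.neg_mk, Prod.mk.injEq]
  omega

lemma w_dirs : ∀ d ∈ dirs, (d = (1, -1) ∨ d = (0, 1) ∨ d = (1, 0)) ∨ (-d = (1, -1) ∨ -d = (0, 1) ∨ -d = (1, 0)) := by
  decide

/-- the winding numbers on the two sides of an edge. -/
theorem Nw_edge {E : Finset (Pt × Pt)} (hE : IsPoly E) {p : Pt × Pt} (hp : De p) :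
    Nw E (p.1 + rotL p.2) - Nw E (p.1 + rotR p.2) = (if p ∈ E then 1 else 0) - (if rv p ∈ E then 1 else 0) := by
  rcases w_dirs p.2 hp.1 with h | h
  · exact w_edge hE hp h
  · have h1 := w_edge hE (w_de_rv hp) h
    rw [(w_face p).1, (w_face p).2, w_rv_rv] at h1
    omega

theorem Nw_low {E : Finset (Pt × Pt)} {f : Pt} (h : ∀ v ∈ VE E, lv f ≤ lv v) : Nw E f = 0 := by
  unfold Nw
  apply Finset.sum_eq_zero
  intro p hp
  have h1 := h p.1 (Finset.mem_image_of_mem _ hp)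
  unfold cr
  rw [if_neg (by omega), if_neg (by omega)]

lemma w_cr_zero {f : Pt} (hf : (f.1 - f.2) % 3 ≠ 1) {q : Pt × Pt} (hq : De q) : cr f q = 0 := by
  obtain ⟨⟨x, y⟩, g⟩ := q
  have h3 := w_vt hq.2.1
  have h4 := w_vt hq.2.2
  unfold cr
  rw [if_neg, if_neg]
  · rintro ⟨h1, h2, _⟩
    simp only at h1
    subst h1
    simp only [nn, Prod.mk_add_mk] at h2 h3 h4
    omega
  · rintro ⟨h1, h2, _⟩
    simp only at h1
    subst h1
    simp only [nn, Prod.mk_add_mk] at h2 h3 h4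
    omega

lemma w_cr_step {f : Pt} (hf : (f.1 - f.2) % 3 = 1) {q : Pt × Pt} (hq : De q) (h1 : lv q.1 < lv f) :
    cr f q = (if nn f < nn (q.1 + q.2) then 1 else 0) - (if nn f < nn q.1 then 1 else 0) := by
  obtain ⟨⟨x, y⟩, g⟩ := q
  have h3 := w_vt hq.2.1
  have h4 := w_vt hq.2.2
  have h5 : g ∈ dirs := hq.1
  simp only [dirs, Finset.mem_insert, Finset.mem_singleton] at h5
  simp only [cr, nn, lv] at h1 h3 h4 ⊢
  rcases h5 with rfl | rfl | rfl | rfl | rfl | rfl <;> (simp at h4 ⊢; split_ifs <;> omega)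

/-- above the polygon. -/
theorem Nw_high {E : Finset (Pt × Pt)} (hE : IsPoly E) {f : Pt} (h : ∀ v ∈ VE E, lv v < lv f) : Nw E f = 0 := by
  by_cases hf : (f.1 - f.2) % 3 = 1
  · unfold Nw
    rw [Finset.sum_congr rfl (fun q hq => w_cr_step hf (isPoly_de hE hq) (h q.1 (Finset.mem_image_of_mem _ hq))),
      w_tele hE (fun v => if nn f < nn v then 1 else 0)]
  · exact Finset.sum_eq_zero (fun q hq => w_cr_zero hf (isPoly_de hE hq))

theorem Nw_left {E : Finset (Pt × Pt)} (hE : IsPoly E) {f : Pt} (h : ∀ v ∈ VE E, nn f < nn v) : Nw E f = 0 := by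
  apply Finset.sum_eq_zero
  intro q hq
  obtain ⟨b, hb⟩ := isPoly_next hE hq
  have h1 := h q.1 (Finset.mem_image_of_mem _ hq)
  have h2 := h (q.1 + q.2) (Finset.mem_image_of_mem Prod.fst hb)
  obtain ⟨⟨x, y⟩, g⟩ := q
  unfold cr
  rw [if_neg, if_neg]
  · rintro ⟨h3, h4, _⟩
    simp only at h3
    subst h3
    simp only [nn, Prod.mk_add_mk] at h1 h2 h4
    omega
  · rintro ⟨h3, h4, _⟩
    simp only at h3 h4 h1
    omega

theorem Nw_right {E : Finset (Pt × Pt)} (hE : IsPoly E) {f : Pt} (h : ∀ v ∈ VE E, nn v < nn f) : Nw E f = 0 := by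
  apply Finset.sum_eq_zero
  intro q hq
  obtain ⟨b, hb⟩ := isPoly_next hE hq
  have h1 := h q.1 (Finset.mem_image_of_mem _ hq)
  have h2 := h (q.1 + q.2) (Finset.mem_image_of_mem Prod.fst hb)
  obtain ⟨⟨x, y⟩, g⟩ := q
  unfold cr
  rw [if_neg, if_neg]
  · rintro ⟨h3, h4, _⟩
    simp only at h3 h4 h1
    omega
  · rintro ⟨h3, h4, _⟩
    simp only at h3
    subst h3
    simp only [nn, Prod.mk_add_mk] at h1 h2 h4
    omega

end L1

end LP

end HexObs
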