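import Pool.Agent.HexLoop.Defs

/-!
LOOP, module L4: the words of the domain, weights and numbers of crossings.
-/

set_option autoImplicit false

namespace HexObs

namespace LP

open Complex Finset

section L4

private lemma L4_nil (Ω : Finset Pt) (p : Pt × Pt) : Arr0 Ω p [] := by
  constructor
  · intro i h1 h2
    simp only [List.length_nil] at h2
    omega
  · intro i k h1 h2 h3
    simp only [List.length_nil] at h3
    omega

private lemma L4_append {Ω : Finset Pt} {p : Pt × Pt} {t : List Bool} {b : Bool} :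
    Arr0 Ω p (t ++ [b]) ↔
      Arr0 Ω p t ∧ tp p t ∈ Ω ∧ ∀ i, 1 ≤ i → i ≤ t.length → vx p.1 p.2 t i ≠ tp p t := by
  have hl : (t ++ [b]).length = t.length + 1 := by simp
  constructor
  · intro h
    refine ⟨⟨?_, ?_⟩, ?_, ?_⟩
    · intro i h1 h2
      have := h.mem i h1 (by omega)
      rwa [vx_append (by omega)] at this
    · intro i k h0 h1 h2
      have := h.inj i k h0 h1 (by omega)
      rwa [vx_append (by omega), vx_append (by omega)] at this
    · have := h.mem (t.length + 1) (by omega) (by omega)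
      rwa [vx_append (by omega)] at this
    · intro i h0 h1
      have := h.inj i (t.length + 1) h0 (by omega) (by omega)
      rwa [vx_append (by omega), vx_append (by omega)] at this
  · rintro ⟨h, h1, h2⟩
    constructor
    · intro i h3 h4
      rw [hl] at h4
      rw [vx_append (by omega)]
      rcases Nat.lt_or_ge t.length i with h5 | h5
      · have : i = t.length + 1 := by omega
        rw [this]
        exact h1
      · exact h.mem i h3 h5
    · intro i k h0 h3 h4
      rw [hl] at h4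
      rw [vx_append (by omega), vx_append (by omega)]
      rcases Nat.lt_or_ge t.length k with h5 | h5
      · have : k = t.length + 1 := by omega
        rw [this]
        exact h2 i h0 (by omega)
      · exact h.inj i k h0 h3 h5

/-- the words of the domain whose next vertex is free. -/
private noncomputable def L4_exte (Ω : Finset Pt) (p : Pt × Pt) : Finset (List Bool) := by
  classical
  exact (arr0 Ω p).filter (fun t => tp p t ∈ Ω ∧ ∀ i, 1 ≤ i → i ≤ t.length → vx p.1 p.2 t i ≠ tp p t)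

private lemma L4_mem_exte {Ω : Finset Pt} {p : Pt × Pt} {t : List Bool} : t ∈ L4_exte Ω p ↔
    Arr0 Ω p t ∧ tp p t ∈ Ω ∧ ∀ i, 1 ≤ i → i ≤ t.length → vx p.1 p.2 t i ≠ tp p t := by
  unfold L4_exte
  simp only [Finset.mem_filter, mem_arr0]

private lemma L4_mem_lol {Ω : Finset Pt} {p : Pt × Pt} {t : List Bool} : t ∈ lol Ω p ↔
    Arr0 Ω p t ∧ (∃ j, 1 ≤ j ∧ j ≤ t.length ∧ vx p.1 p.2 t j = tp p t) ∧ le p t ≠ p := by
  unfold lol
  simp only [Finset.mem_filter, mem_arr0]

private lemma L4_mem_clo {Ω : Finset Pt} {p : Pt × Pt} {t : List Bool} : t ∈ clo Ω p ↔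
    Arr0 Ω p t ∧ 1 ≤ t.length ∧ le p t = p := by
  unfold clo
  simp only [Finset.mem_filter, mem_arr0]

private lemma L4_clo {p : Pt × Pt} {t : List Bool} (h : le p t = p) : tp p t = vx p.1 p.2 t 1 := by
  have h1 : vx p.1 p.2 t t.length = p.1 := congrArg Prod.fst h
  have h2 : dx p.2 t t.length = p.2 := congrArg Prod.snd h
  have e1 : tp p t = vx p.1 p.2 t t.length + dx p.2 t t.length := rfl
  have e2 : vx p.1 p.2 t 1 = p.1 + p.2 := rfl
  rw [e1, e2, h1, h2]

private lemma L4_split (Ω : Finset Pt) (p : Pt × Pt) (f : List Bool → ℂ) :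
    ∑ t ∈ arr0 Ω p, f t = ∑ t ∈ ex0 Ω p, f t + ∑ t ∈ L4_exte Ω p, f t + ∑ t ∈ lol Ω p, f t +
      ∑ t ∈ clo Ω p, f t := by
  classical
  have h1 : arr0 Ω p = ((ex0 Ω p ∪ L4_exte Ω p) ∪ lol Ω p) ∪ clo Ω p := by
    ext t
    simp only [Finset.mem_union, L4_mem_exte, L4_mem_lol, L4_mem_clo]
    unfold ex0
    rw [Finset.mem_filter, mem_arr0]
    constructor
    · intro ht
      by_cases h2 : tp p t ∈ Ω
      · by_cases h3 : ∀ i, 1 ≤ i → i ≤ t.length → vx p.1 p.2 t i ≠ tp p t
        · exact Or.inl (Or.inl (Or.inr ⟨ht, h2, h3⟩))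
        · push Not at h3
          by_cases h4 : le p t = p
          · obtain ⟨i, h5, h6, _⟩ := h3
            exact Or.inr ⟨ht, by omega, h4⟩
          · exact Or.inl (Or.inr ⟨ht, h3, h4⟩)
      · exact Or.inl (Or.inl (Or.inl ⟨ht, h2⟩))
    · rintro (((h | h) | h) | h) <;> exact h.1
  have h2 : Disjoint (ex0 Ω p) (L4_exte Ω p) := by
    rw [Finset.disjoint_left]
    intro t ht ht'
    unfold ex0 at ht
    rw [Finset.mem_filter] at ht
    exact ht.2 (L4_mem_exte.1 ht').2.1
  have h3 : Disjoint (ex0 Ω p ∪ L4_exte Ω p) (lol Ω p) := by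
    rw [Finset.disjoint_left]
    intro t ht ht'
    obtain ⟨h4, ⟨j, h5, h6, h7⟩, _⟩ := L4_mem_lol.1 ht'
    rcases Finset.mem_union.1 ht with h | h
    · unfold ex0 at h
      rw [Finset.mem_filter] at h
      apply h.2
      rw [← h7]
      exact h4.mem j h5 h6
    · exact (L4_mem_exte.1 h).2.2 j h5 h6 h7
  have h4 : Disjoint ((ex0 Ω p ∪ L4_exte Ω p) ∪ lol Ω p) (clo Ω p) := by
    rw [Finset.disjoint_left]
    intro t ht ht'
    obtain ⟨h5, h6, h7⟩ := L4_mem_clo.1 ht'
    have h8 := L4_clo h7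
    rcases Finset.mem_union.1 ht with h | h
    · rcases Finset.mem_union.1 h with h | h
      · unfold ex0 at h
        rw [Finset.mem_filter] at h
        apply h.2
        rw [h8]
        exact h5.mem 1 le_rfl h6
      · exact (L4_mem_exte.1 h).2.2 1 le_rfl h6 h8.symm
    · exact (L4_mem_lol.1 h).2.2 h7
  rw [h1, Finset.sum_union h4, Finset.sum_union h3, Finset.sum_union h2]

private lemma L4_sum (Ω : Finset Pt) (p : Pt × Pt) (f : List Bool → ℂ) :
    ∑ t ∈ arr0 Ω p, f t = f [] + ∑ t ∈ L4_exte Ω p, (f (t ++ [true]) + f (t ++ [false])) := by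
  classical
  have hnil : [] ∈ arr0 Ω p := mem_arr0.2 (L4_nil Ω p)
  rw [← Finset.add_sum_erase _ _ hnil]
  congr 1
  have h1 : ∑ t ∈ L4_exte Ω p, (f (t ++ [true]) + f (t ++ [false])) =
      ∑ t ∈ L4_exte Ω p, ∑ b : Bool, f (t ++ [b]) := by
    apply Finset.sum_congr rfl
    intro t _
    rw [Fintype.sum_bool]
  rw [h1, ← Finset.sum_product']
  symm
  refine Finset.sum_bij (fun q _ => q.1 ++ [q.2]) ?_ ?_ ?_ ?_
  · rintro ⟨t, b⟩ hq
    rw [Finset.mem_product, L4_mem_exte] at hq
    rw [Finset.mem_erase, mem_arr0]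
    exact ⟨by simp, L4_append.2 hq.1⟩
  · rintro ⟨t, b⟩ _ ⟨s, c⟩ _ h
    have := List.append_inj' h rfl
    simp only [List.cons.injEq, and_true] at this
    exact Prod.ext this.1 this.2
  · intro t ht
    rw [Finset.mem_erase, mem_arr0] at ht
    obtain ⟨hne, harr⟩ := ht
    have h2 := List.dropLast_append_getLast hne
    refine ⟨(t.dropLast, t.getLast hne), ?_, h2⟩
    rw [Finset.mem_product, L4_mem_exte]
    refine ⟨?_, Finset.mem_univ _⟩
    rw [← h2] at harr
    exact L4_append.1 harr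
  · intro q _
    rfl

private lemma L4_NN (f : Pt) (p : Pt × Pt) (t : List Bool) (b : Bool) :
    NN f p (t ++ [b]) = NN f p t + cr f (le p (t ++ [b])) := by
  have hl : (t ++ [b]).length = t.length + 1 := by simp
  unfold NN le
  rw [hl, Finset.sum_range_succ]
  congr 1
  apply Finset.sum_congr rfl
  intro i hi
  rw [Finset.mem_range] at hi
  rw [vx_append (by omega), dx_append (by omega)]

/-- the words of the domain: weights. -/
theorem sum_wt (Ω : Finset Pt) (p : Pt × Pt) : SS Ω p + ∑ t ∈ lol Ω p, wt t + ∑ t ∈ clo Ω p, wt t = 1 := by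
  have h1 := L4_split Ω p wt
  have h2 := L4_sum Ω p wt
  have h3 : ∑ t ∈ L4_exte Ω p, (wt (t ++ [true]) + wt (t ++ [false])) = ∑ t ∈ L4_exte Ω p, wt t := by
    apply Finset.sum_congr rfl
    intro t _
    exact wt_extend t
  rw [h3, wt_nil] at h2
  unfold SS
  linear_combination h2 - h1

/-- the words of the domain: weights with the number of crossings. -/
theorem sum_NN (Ω : Finset Pt) (p : Pt × Pt) (f : Pt) :
    ∑ t ∈ ex0 Ω p, (NN f p t : ℂ) * wt t + ∑ t ∈ lol Ω p, (NN f p t : ℂ) * wt t +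
      ∑ t ∈ clo Ω p, (NN f p t : ℂ) * wt t = ∑ t ∈ arr0 Ω p, (cr f (le p t) : ℂ) * wt t := by
  have h1 := L4_split Ω p (fun t => (NN f p t : ℂ) * wt t)
  have h2 := L4_sum Ω p (fun t => (NN f p t : ℂ) * wt t)
  have h3 := L4_sum Ω p (fun t => (cr f (le p t) : ℂ) * wt t)
  have h4 : ∑ t ∈ L4_exte Ω p, ((NN f p (t ++ [true]) : ℂ) * wt (t ++ [true]) +
      (NN f p (t ++ [false]) : ℂ) * wt (t ++ [false])) =
      ∑ t ∈ L4_exte Ω p, (NN f p t : ℂ) * wt t +
      ∑ t ∈ L4_exte Ω p, ((cr f (le p (t ++ [true])) : ℂ) * wt (t ++ [true]) +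
        (cr f (le p (t ++ [false])) : ℂ) * wt (t ++ [false])) := by
    rw [← Finset.sum_add_distrib]
    apply Finset.sum_congr rfl
    intro t _
    rw [L4_NN, L4_NN]
    push_cast
    linear_combination (NN f p t : ℂ) * wt_extend t
  have h5 : NN f p [] = cr f (le p []) := by
    unfold NN le
    simp
  rw [h4, h5] at h2
  linear_combination h2 - h1 - h3

/-- no closed polygons through a boundary edge. -/
theorem clo_empty {Ω : Finset Pt} {p : Pt × Pt} (h : p.1 ∉ Ω) : clo Ω p = ∅ := by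
  apply Finset.eq_empty_of_forall_notMem
  intro t ht
  obtain ⟨h1, h2, h3⟩ := L4_mem_clo.1 ht
  have h4 : vx p.1 p.2 t t.length = p.1 := congrArg Prod.fst h3
  apply h
  rw [← h4]
  exact h1.mem t.length h2 le_rfl

/-- boundary edges: the old notions. -/
theorem ex0_exits {Ω : Finset Pt} {p : Pt × Pt} (h : p.1 ∉ Ω) : ex0 Ω p = exits Ω p.1 p.2 := by
  ext t
  unfold ex0 exits
  rw [Finset.mem_filter, Finset.mem_filter, mem_arr0, mem_arr]
  apply and_congr _ Iff.rfl
  constructor
  · intro h1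
    constructor
    · exact h1.mem
    · intro i k h2 h3
      rcases Nat.eq_zero_or_pos i with rfl | h4
      · intro h5
        apply h
        have h6 := h1.mem k (by omega) h3
        rw [← h5] at h6
        exact h6
      · exact h1.inj i k h4 h2 h3
  · intro h1
    exact ⟨h1.mem, fun i k _ h2 h3 => h1.inj i k h2 h3⟩

end L4

end LP

end HexObs
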