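import Pool.Agent.HexLoop.DefsC
import Pool.Agent.HexLoop.Words0
import Pool.Agent.HexLoop.Wind

/-!
LOOP, module L12: the parallelogram.
-/

set_option autoImplicit false

namespace HexObs

namespace LP

open Complex Finset


section L12

private lemma L12_cl (v : Pt) (k : ℤ) : cl v = (k : ZMod 3) ↔ (v.1 - v.2 - k) % 3 = 0 := by
  unfold cl
  rw [ZMod.intCast_eq_intCast_iff]
  unfold Int.ModEq
  push_cast
  omega

private lemma L12_vt (v : Pt) : Vt v ↔ (v.1 - v.2) % 3 ≠ 1 := by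
  unfold Vt
  have h := L12_cl v 1
  rw [Int.cast_one] at h
  rw [Ne, h]
  omega

private lemma L12_fc (v : Pt) : Fc v ↔ (v.1 - v.2) % 3 = 1 := by
  unfold Fc
  have h := L12_cl v 1
  rw [Int.cast_one] at h
  rw [h]
  omega

private lemma L12_zero (v : Pt) : cl v = 0 ↔ (v.1 - v.2) % 3 = 0 := by
  have h := L12_cl v 0
  rw [Int.cast_zero] at h
  rw [h]
  omega

private lemma L12_two (v : Pt) : cl v = -1 ↔ (v.1 - v.2) % 3 = 2 := by
  have h := L12_cl v (-1)
  rw [Int.cast_neg, Int.cast_one] at h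
  rw [h]
  omega

private lemma L12_hex (v : Pt) : IsHex oo up v ↔ Vt v := by
  have e1 : cl oo = 0 := by decide
  have e2 : cl up = -1 := by decide
  unfold IsHex
  rw [e1, e2, zero_add, L12_zero, L12_two, L12_vt]
  omega

theorem mem_par {T A B : ℕ} {v : Pt} : v ∈ Par T A B ↔
    Vt v ∧ 0 < lv v ∧ lv v < 3 * T + 2 ∧ -(3 * A : ℤ) < nn v ∧ nn v < 3 * B - 1 := by
  unfold Par
  rw [Tube.mem_dF]
  have e0 : v - oo = v := sub_zero v
  have e1 : ip v up = lv v := by
    unfold ip up lv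
    ring
  have e2 : ip v (rotL up) = -nn v := by
    unfold ip rotL up nn
    ring
  have e3 : ip v (Tube.gn true up) = nn v := by
    show ip v (rotR (rotR up)) = nn v
    unfold ip rotR up nn
    ring
  constructor
  · rintro ⟨⟨h1, h2, h3⟩, h4, h5⟩
    rw [e0, e1] at h2 h3
    rw [e0, e2] at h4
    rw [e0, e3] at h5
    have h6 : nn v < 3 * (B : ℤ) - 1 := h5
    exact ⟨(L12_hex v).1 h1, h2, h3, by linarith, h6⟩
  · rintro ⟨h1, h2, h3, h4, h5⟩
    refine ⟨⟨(L12_hex v).2 h1, ?_, ?_⟩, ?_, ?_⟩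
    · rw [e0, e1]
      exact h2
    · rw [e0, e1]
      exact h3
    · rw [e0, e2]
      linarith
    · rw [e0, e3]
      exact h5

private lemma L12_dirs : ∀ d ∈ dirs, d = (1, 0) ∨ d = (0, 1) ∨ d = (-1, 1) ∨ d = (-1, 0) ∨ d = (0, -1) ∨ d = (1, -1) := by
  decide

private lemma L12_dirs_bound {d : Pt} (h : d ∈ dirs) : -2 ≤ lv d ∧ lv d ≤ 2 ∧ -2 ≤ nn d ∧ nn d ≤ 2 := by
  revert d
  decide

theorem par_full (T A B : ℕ) : Full (Par T A B) := by
  constructor
  · intro v hv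
    exact (mem_par.1 hv).1
  · rintro E hE hV v ⟨h1, _, d, hd, h2, h3⟩
    rw [mem_par]
    have hb := L12_dirs_bound hd
    rw [L12_fc] at h2
    have a1 : ∃ w ∈ VE E, lv w < lv (v + d) := by
      by_contra hcon
      push Not at hcon
      exact h3 (Nw_low hcon)
    have a2 : ∃ w ∈ VE E, lv (v + d) ≤ lv w := by
      by_contra hcon
      push Not at hcon
      exact h3 (Nw_high hE hcon)
    have a3 : ∃ w ∈ VE E, nn w ≤ nn (v + d) := by
      by_contra hcon
      push Not at hcon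
      exact h3 (Nw_left hE hcon)
    have a4 : ∃ w ∈ VE E, nn (v + d) ≤ nn w := by
      by_contra hcon
      push Not at hcon
      exact h3 (Nw_right hE hcon)
    obtain ⟨w1, b1, c1⟩ := a1
    obtain ⟨w2, b2, c2⟩ := a2
    obtain ⟨w3, b3, c3⟩ := a3
    obtain ⟨w4, b4, c4⟩ := a4
    have d1 := mem_par.1 (hV b1)
    have d2 := mem_par.1 (hV b2)
    have d3 := mem_par.1 (hV b3)
    have d4 := mem_par.1 (hV b4)
    rw [L12_vt] at d1 d2 d3 d4
    refine ⟨h1, ?_⟩
    simp only [lv, nn, Prod.fst_add, Prod.snd_add] at *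
    obtain ⟨v1, v2⟩ := v
    obtain ⟨x1, y1⟩ := w1
    obtain ⟨x2, y2⟩ := w2
    obtain ⟨x3, y3⟩ := w3
    obtain ⟨x4, y4⟩ := w4
    obtain ⟨p, q⟩ := d
    simp only at *
    omega

private lemma L12_mem_bd {Ω : Finset Pt} {a : Pt × Pt} : a ∈ bd Ω ↔ De a ∧ a.1 ∉ Ω ∧ a.1 + a.2 ∈ Ω := by
  unfold bd
  simp only [Finset.mem_filter, Finset.mem_image, Finset.mem_product]
  constructor
  · rintro ⟨⟨q, ⟨h1, h2⟩, rfl⟩, h3, h4⟩
    refine ⟨h3, h4, ?_⟩
    show q.1 - q.2 + q.2 ∈ Ω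
    rw [sub_add_cancel]
    exact h1
  · rintro ⟨h1, h2, h3⟩
    refine ⟨⟨(a.1 + a.2, a.2), ⟨h3, h1.1⟩, ?_⟩, h1, h2⟩
    show (a.1 + a.2 - a.2, a.2) = a
    rw [add_sub_cancel_right]

/-- the boundary of the parallelogram. -/
theorem par_bd {T A B : ℕ} (hT : 1 ≤ T) (hA : 1 ≤ A) (hB : 1 ≤ B) {a : Pt × Pt} (ha : a ∈ bd (Par T A B)) :
    (a.2 = up ∧ lv a.1 = 0) ∨ (a.2 = -up ∧ lv a.1 = 3 * T + 2) ∨ (a.2 = (1, -1) ∧ nn a.1 = -(3 * A : ℤ)) ∨
      (a.2 = (-1, 1) ∧ nn a.1 = 3 * B - 1) := by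
  obtain ⟨⟨h1, h2, h3⟩, h4, h5⟩ := L12_mem_bd.1 ha
  rw [mem_par] at h4 h5
  obtain ⟨⟨x, y⟩, d⟩ := a
  simp only [L12_vt, lv, nn] at *
  rcases L12_dirs d h1 with rfl | rfl | rfl | rfl | rfl | rfl
  · exfalso
    simp only [Prod.mk_add_mk] at *
    omega
  · left
    refine ⟨rfl, ?_⟩
    simp only [Prod.mk_add_mk] at *
    omega
  · right
    right
    right
    refine ⟨rfl, ?_⟩
    simp only [Prod.mk_add_mk] at *
    omega
  · exfalso
    simp only [Prod.mk_add_mk] at *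
    omega
  · right
    left
    refine ⟨rfl, ?_⟩
    simp only [Prod.mk_add_mk] at *
    omega
  · right
    right
    left
    refine ⟨rfl, ?_⟩
    simp only [Prod.mk_add_mk] at *
    omega

private def L12_S (b1 b2 b3 b4 : Pt) : Set (Pt × Pt) := {(b1, -up), (b2, up), (b3, (-1, 1)), (b4, (1, -1))}

private lemma L12_good {T A B : ℕ} {a : Pt × Pt} (ha : a ∈ bd (Par T A B)) {b1 b2 b3 b4 : Pt}
    (h1 : lv b1 = 0) (h2 : lv b2 = 3 * T + 2) (h3 : nn b3 = -(3 * A : ℤ)) (h4 : nn b4 = 3 * B - 1)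
    (hS : (a.1, -a.2) ∈ L12_S b1 b2 b3 b4) : GoodDom (Par T A B) a.1 a.2 := by
  obtain ⟨⟨g1, g2, g3⟩, g4, g5⟩ := L12_mem_bd.1 ha
  have hne := cl_dir_ne g1
  have three : ∀ x : ZMod 3, x = 0 ∨ x = 1 ∨ x = -1 := by decide
  have hcl : (cl a.1 = 0 ∧ cl a.2 = -1) ∨ (cl a.1 = -1 ∧ cl a.2 = 1) := by
    unfold Vt at g2 g3
    rw [cl_add] at g3
    revert g2 g3 hne
    generalize cl a.1 = x
    generalize cl a.2 = y
    revert x y
    decide
  have hx : ∀ v, IsHex a.1 a.2 v ↔ Vt v := by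
    intro v
    unfold IsHex Vt
    rcases hcl with ⟨e1, e2⟩ | ⟨e1, e2⟩
    · rw [e1, e2]
      generalize cl v = x
      revert x
      decide
    · rw [e1, e2]
      generalize cl v = x
      revert x
      decide
  have hside : ∀ s ∈ L12_S b1 b2 b3 b4, (cl s.1 = 0 ∧ cl s.2 = 1) ∨ (cl s.1 = -1 ∧ cl s.2 = -1) := by
    rintro s (rfl | rfl | rfl | rfl)
    · left
      have e : cl (-up) = 1 := by decide
      refine ⟨?_, e⟩
      show cl b1 = 0
      rw [L12_zero]
      simp only [lv] at h1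
      omega
    · right
      have e : cl up = -1 := by decide
      refine ⟨?_, e⟩
      show cl b2 = -1
      rw [L12_two]
      simp only [lv] at h2
      omega
    · left
      have e : cl (-1, 1) = 1 := by decide
      refine ⟨?_, e⟩
      show cl b3 = 0
      rw [L12_zero]
      simp only [nn] at h3
      omega
    · right
      have e : cl (1, -1) = -1 := by decide
      refine ⟨?_, e⟩
      show cl b4 = -1
      rw [L12_two]
      simp only [nn] at h4
      omega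
  apply polygon_good g1 (L12_S b1 b2 b3 b4) _ hS _ g5
  · intro s hs
    constructor
    · rcases hs with rfl | rfl | rfl | rfl
      · show -up ∈ dirs
        decide
      · exact upd
      · show ((-1, 1) : Pt) ∈ dirs
        decide
      · show ((1, -1) : Pt) ∈ dirs
        decide
    · rcases hcl with ⟨e1, e2⟩ | ⟨e1, e2⟩ <;> rcases hside s hs with ⟨e3, e4⟩ | ⟨e3, e4⟩ <;> rw [e1, e2, e3, e4]
      · left
        decide
      · right
        decide
      · right
        decide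
      · left
        decide
  · intro v
    rw [hx, mem_par]
    have k1 : ip (b1 - v) (-up) = lv v - lv b1 := by
      simp only [ip, up, lv, Prod.fst_sub, Prod.snd_sub, Prod.fst_neg, Prod.snd_neg]
      ring
    have k2 : ip (b2 - v) up = lv b2 - lv v := by
      simp only [ip, up, lv, Prod.fst_sub, Prod.snd_sub]
      ring
    have k3 : ip (b3 - v) (-1, 1) = nn v - nn b3 := by
      simp only [ip, nn, Prod.fst_sub, Prod.snd_sub]
      ring
    have k4 : ip (b4 - v) (1, -1) = nn b4 - nn v := by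
      simp only [ip, nn, Prod.fst_sub, Prod.snd_sub]
      ring
    rw [h1] at k1
    rw [h2] at k2
    rw [h3] at k3
    rw [h4] at k4
    constructor
    · rintro ⟨m1, m2, m3, m4, m5⟩
      refine ⟨m1, ?_⟩
      rintro s (rfl | rfl | rfl | rfl)
      · show 0 < ip (b1 - v) (-up)
        rw [k1]
        linarith
      · show 0 < ip (b2 - v) up
        rw [k2]
        linarith
      · show 0 < ip (b3 - v) (-1, 1)
        rw [k3]
        linarith
      · show 0 < ip (b4 - v) (1, -1)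
        rw [k4]
        linarith
    · rintro ⟨m1, m2⟩
      have n1 : 0 < ip (b1 - v) (-up) := m2 (b1, -up) (by simp [L12_S])
      have n2 : 0 < ip (b2 - v) up := m2 (b2, up) (by simp [L12_S])
      have n3 : 0 < ip (b3 - v) (-1, 1) := m2 (b3, (-1, 1)) (by simp [L12_S])
      have n4 : 0 < ip (b4 - v) (1, -1) := m2 (b4, (1, -1)) (by simp [L12_S])
      rw [k1] at n1
      rw [k2] at n2
      rw [k3] at n3
      rw [k4] at n4
      refine ⟨m1, ?_, ?_, ?_, ?_⟩ <;> linarith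

theorem par_good {T A B : ℕ} (hT : 1 ≤ T) (hA : 1 ≤ A) (hB : 1 ≤ B) {a : Pt × Pt} (ha : a ∈ bd (Par T A B)) :
    GoodDom (Par T A B) a.1 a.2 := by
  have c1 : lv ((0, 0) : Pt) = 0 := by simp [lv]
  have c2 : lv ((3 * T + 2, 0) : Pt) = 3 * T + 2 := by simp [lv]
  have c3 : nn ((-(3 * A : ℤ), 0) : Pt) = -(3 * A : ℤ) := by simp [nn]
  have c4 : nn ((3 * B - 1, 0) : Pt) = 3 * B - 1 := by simp [nn]
  rcases par_bd hT hA hB ha with ⟨h1, h2⟩ | ⟨h1, h2⟩ | ⟨h1, h2⟩ | ⟨h1, h2⟩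
  · apply L12_good ha h2 c2 c3 c4
    rw [h1]
    simp [L12_S]
  · apply L12_good ha c1 h2 c3 c4
    rw [h1]
    simp [L12_S]
  · apply L12_good ha c1 c2 h2 c4
    rw [h1]
    simp [L12_S]
  · apply L12_good ha c1 c2 c3 h2
    rw [h1]
    simp [L12_S]

private lemma L12_term {T A B : ℕ} (hT : 1 ≤ T) (hA : 1 ≤ A) (hB : 1 ≤ B) {a : Pt × Pt} (ha : a ∈ bd (Par T A B))
    {t : List Bool} (ht : t ∈ ex0 (Par T A B) a) : 0 ≤ Real.cos (wind t * (Real.pi / 8)) * xc ^ t.length := by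
  have h1 : a.1 ∉ Par T A B := (L12_mem_bd.1 ha).2.1
  rw [ex0_exits h1] at ht
  apply mul_nonneg _ (pow_nonneg xc_pos.le _)
  apply Real.cos_nonneg_of_mem_Icc
  have h2 := Real.pi_pos
  rcases (par_good hT hA hB ha).wind_cases ht with h | h | h | h | h | h | h <;> rw [h] <;> constructor <;>
    push_cast <;> linarith

theorem HH_nonneg {T A B : ℕ} (hT : 1 ≤ T) (hA : 1 ≤ A) (hB : 1 ≤ B) (K : Finset Pt) : 0 ≤ HH (Par T A B) K := by
  unfold HH
  apply Finset.sum_nonneg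
  intro a ha
  apply Finset.sum_nonneg
  intro t ht
  simp only [Finset.mem_filter] at ht
  exact L12_term hT hA hB ha ht.1

private lemma L12_ft (k : ℤ) : (ft k).1 = (2 * k, -k) := by
  unfold ft hz rotR up
  ext
  · simp
    ring
  · simp

private lemma L12_vx (k : ℤ) (t : List Bool) (i : ℕ) : vx (ft k).1 up t i = vx oo up t i + (ft k).1 := by
  have h := CB.vx_trans (ft k).1 oo up t i
  have e : oo + (ft k).1 = (ft k).1 := zero_add _
  rw [e] at h
  exact h

private lemma L12_lv (k : ℤ) (t : List Bool) (i : ℕ) : lv (vx (ft k).1 up t i) = lev t i := by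
  rw [L12_vx, L12_ft]
  unfold lev ip up lv
  simp only [Prod.fst_add, Prod.snd_add]
  ring

/-- bridges that meet K. -/
theorem HH_ge {T A B : ℕ} (hT : 1 ≤ T) (hA : 1 ≤ A) (hB : 1 ≤ B) {K : Finset Pt} (X : Finset (ℤ × List Bool))
    (h : ∀ x ∈ X, x.2 ∈ Brd T ∧ (∀ i, 1 ≤ i → i ≤ x.2.length → vx (ft x.1).1 up x.2 i ∈ Par T A B) ∧
      Hit K (ft x.1) x.2) : ∑ x ∈ X, xc ^ x.2.length ≤ HH (Par T A B) K := by
  classical
  have key : ∀ x ∈ X, ft x.1 ∈ bd (Par T A B) ∧ x.2 ∈ ex0 (Par T A B) (ft x.1) ∧ wind x.2 = 0 := by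
    rintro ⟨k, t⟩ hx
    obtain ⟨h1, h2, h3⟩ := h _ hx
    simp only at h1 h2 h3 ⊢
    have hB1 := mem_Brd.1 h1
    obtain ⟨q1, q2, q3, q4⟩ := hB1
    have hlen : 1 ≤ t.length := by
      by_contra hcon
      have hz : t.length = 0 := by omega
      rw [hz, lev_zero] at q4
      omega
    have hft : ft k ∈ bd (Par T A B) := by
      rw [L12_mem_bd]
      refine ⟨⟨upd, ?_, ?_⟩, ?_, ?_⟩
      · rw [L12_vt, L12_ft]
        simp only
        omega
      · show Vt ((ft k).1 + up)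
        rw [L12_vt, L12_ft]
        simp only [up, Prod.mk_add_mk]
        omega
      · intro hcon
        have := (mem_par.1 hcon).2.1
        rw [L12_ft] at this
        simp only [lv] at this
        omega
      · exact h2 1 le_rfl hlen
    have hex : t ∈ ex0 (Par T A B) (ft k) := by
      unfold ex0
      rw [Finset.mem_filter, mem_arr0]
      refine ⟨⟨h2, ?_⟩, ?_⟩
      · intro i j _ hij hj
        show vx (ft k).1 up t i ≠ vx (ft k).1 up t j
        rw [L12_vx, L12_vx]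
        intro hc
        exact q2 i j hij hj (add_right_cancel hc)
      · intro hcon
        have h5 := (mem_par.1 hcon).2.2.1
        have h6 : lv (tp (ft k) t) = lev t (t.length + 1) := L12_lv k t _
        rw [h6, lev_succ, q3, q4] at h5
        have h7 : ip up up = 2 := by decide
        omega
    refine ⟨hft, hex, ?_⟩
    have hex' := hex
    rw [ex0_exits (L12_mem_bd.1 hft).2.1] at hex'
    obtain ⟨⟨a1, a2, a3, a4, a5⟩, _, _, _, _⟩ := dirs_distinct up upd
    have q3' : dx (ft k).2 t t.length = up := q3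
    rcases (par_good hT hA hB hft).wind hex' with ⟨hd', hw⟩ | ⟨hd', hw⟩ | ⟨hd', hw⟩ | ⟨hd', hw⟩ | ⟨hd', hw⟩ | ⟨hd', _⟩ <;>
      rw [q3'] at hd'
    · exact hw
    · exact absurd hd'.symm a1
    · exact absurd hd'.symm a2
    · exact absurd hd'.symm a3
    · exact absurd hd'.symm a4
    · exact absurd hd'.symm a5
  have hinj : ∀ x ∈ X, ∀ y ∈ X, (⟨ft x.1, x.2⟩ : Σ _ : Pt × Pt, List Bool) = ⟨ft y.1, y.2⟩ → x = y := by
    rintro ⟨k, t⟩ _ ⟨l, s⟩ _ he
    simp only [Sigma.mk.injEq, heq_eq_eq] at he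
    obtain ⟨e1, e2⟩ := he
    have e3 : (ft k).1 = (ft l).1 := by rw [e1]
    rw [L12_ft, L12_ft] at e3
    have e4 := congrArg Prod.snd e3
    simp only at e4
    rw [e2, show k = l by omega]
  have h1 : ∑ x ∈ X, xc ^ x.2.length =
      ∑ y ∈ X.image (fun x => (⟨ft x.1, x.2⟩ : Σ _ : Pt × Pt, List Bool)),
        Real.cos (wind y.2 * (Real.pi / 8)) * xc ^ y.2.length := by
    rw [Finset.sum_image hinj]
    apply Finset.sum_congr rfl
    intro x hx
    rw [(key x hx).2.2]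
    simp
  have h2 : HH (Par T A B) K = ∑ y ∈ (bd (Par T A B)).sigma (fun a => (ex0 (Par T A B) a).filter (Hit K a)),
      Real.cos (wind y.2 * (Real.pi / 8)) * xc ^ y.2.length := by
    unfold HH
    rw [Finset.sum_sigma]
  rw [h1, h2]
  apply Finset.sum_le_sum_of_subset_of_nonneg
  · intro y hy
    rw [Finset.mem_image] at hy
    obtain ⟨x, hx, rfl⟩ := hy
    rw [Finset.mem_sigma]
    refine ⟨(key x hx).1, ?_⟩
    simp only [Finset.mem_filter]
    exact ⟨(key x hx).2.1, (h x hx).2.2⟩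
  · intro y hy _
    rw [Finset.mem_sigma] at hy
    exact L12_term hT hA hB hy.1 (Finset.mem_filter.1 hy.2).1

end L12

end LP

end HexObs
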