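import Pool.Agent.HexLoop.Jordan

/-!
LOOP, module L3: the inside of lattice polygons, nested polygons.
-/

set_option autoImplicit false

namespace HexObs

namespace LP

open Complex Finset


section L3

private lemma i_face (d : Pt) (hd : d ∈ dirs) (c : ZMod 3) (h1 : c ≠ 1) (h2 : c + cl d ≠ 1) :
    c + cl (rotL d) = 1 ∧ c + cl (rotR d) = 1 ∧ rotL d ∈ dirs ∧ rotR d ∈ dirs ∧ -d ∈ dirs := by
  revert d
  revert c
  decide +kernel

private lemma i_edge (d : Pt) (hd : d ∈ dirs) (c : ZMod 3) (h1 : c ≠ 1) (h2 : c + cl d = 1) :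
    c + cl (rotL d) ≠ 1 ∧ c + cl (rotR d) ≠ 1 ∧ rotL d ∈ dirs ∧ rotR d ∈ dirs := by
  revert d
  revert c
  decide +kernel

private lemma i_three (d : Pt) (hd : d ∈ dirs) (d' : Pt) (hd' : d' ∈ dirs) (c : ZMod 3) (h1 : c ≠ 1)
    (h2 : c + cl d = 1) (h3 : c + cl d' = 1) : d' = d ∨ d' = rotL (rotL d) ∨ d' = rotR (rotR d) := by
  revert c
  revert d'
  revert d
  decide +kernel

private lemma i_lowdir (c : ZMod 3) (h1 : c ≠ 1) : ∃ d ∈ dirs, c + cl d = 1 ∧ d.1 + 2 * d.2 < 0 := by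
  revert c
  decide +kernel

private lemma i_rotRL (d : Pt) : rotR (rotL d) = d := by
  simp only [rotL, rotR]
  ext <;> simp

private lemma i_rotLR (d : Pt) : rotL (rotR d) = d := by
  simp only [rotL, rotR]
  ext <;> simp

private lemma i_rv_rv (p : Pt × Pt) : rv (rv p) = p := by
  unfold rv
  ext <;> simp

private lemma i_de_rv {p : Pt × Pt} (hp : De p) : De (rv p) := by
  obtain ⟨h1, h2, h3⟩ := hp
  refine ⟨?_, h3, ?_⟩
  · have : ∀ d ∈ dirs, -d ∈ dirs := by decide +kernel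
    exact this p.2 h1
  · show Vt (p.1 + p.2 + -p.2)
    rw [add_neg_cancel_right]
    exact h2

private lemma i_not_mem {E : Finset (Pt × Pt)} (hE : IsPoly E) {p : Pt × Pt} (h1 : p.1 ∉ VE E) :
    p ∉ E ∧ rv p ∉ E := by
  constructor
  · intro h
    exact h1 (Finset.mem_image_of_mem _ h)
  · intro h
    obtain ⟨b, hb⟩ := isPoly_next hE h
    apply h1
    have e : (rv p).1 + (rv p).2 = p.1 := by
      unfold rv
      simp
    rw [e] at hb
    exact Finset.mem_image.2 ⟨_, hb, rfl⟩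

private lemma i_left {p : Pt × Pt} (hp : De p) : Fc (p.1 + rotL p.2) ∧ rotL p.2 ∈ dirs := by
  obtain ⟨h1, h2, h3⟩ := hp
  unfold Vt at h2 h3
  rw [cl_add] at h3
  unfold Fc
  rw [cl_add]
  exact ⟨(i_face p.2 h1 (cl p.1) h2 h3).1, (i_face p.2 h1 (cl p.1) h2 h3).2.2.1⟩

private lemma i_same {E : Finset (Pt × Pt)} (hE : IsPoly E) {p : Pt × Pt} (hp : De p) (h1 : p ∉ E)
    (h2 : rv p ∉ E) : Nw E (p.1 + rotL p.2) = Nw E (p.1 + rotR p.2) := by
  have h := Nw_edge hE hp
  rw [if_neg h1, if_neg h2, sub_self] at h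
  linarith

/-- the faces around a vertex off the polygon -/
private lemma i_around {E : Finset (Pt × Pt)} (hE : IsPoly E) {v : Pt} (hv : Vt v) (h : v ∉ VE E) {d d' : Pt}
    (hd : d ∈ dirs) (hd' : d' ∈ dirs) (h1 : Fc (v + d)) (h2 : Fc (v + d')) : Nw E (v + d') = Nw E (v + d) := by
  unfold Fc at h1 h2
  rw [cl_add] at h1 h2
  unfold Vt at hv
  obtain ⟨e1, e2, e3, e4⟩ := i_edge d hd (cl v) hv h1
  have hL : De (v, rotL d) := by
    refine ⟨e3, hv, ?_⟩
    unfold Vt
    rw [cl_add]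
    exact e1
  have hR : De (v, rotR d) := by
    refine ⟨e4, hv, ?_⟩
    unfold Vt
    rw [cl_add]
    exact e2
  have hnL := i_not_mem hE (p := (v, rotL d)) h
  have hnR := i_not_mem hE (p := (v, rotR d)) h
  have sL := i_same hE hL hnL.1 hnL.2
  have sR := i_same hE hR hnR.1 hnR.2
  simp only [i_rotRL, i_rotLR] at sL sR
  rcases i_three d hd d' hd' (cl v) hv h1 h2 with e | e | e
  · rw [e]
  · rw [e]
    exact sL
  · rw [e]
    exact sR.symm

theorem ins_edge {E : Finset (Pt × Pt)} (hE : IsPoly E) {p : Pt × Pt} (hp : De p) (h1 : p.1 ∉ VE E) :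
    Ins E p.1 ↔ EIn E p := by
  have hl := i_left hp
  have hn := i_not_mem hE h1
  constructor
  · rintro ⟨hv, _, d, hd, hf, hne⟩
    refine ⟨hn.1, hn.2, ?_⟩
    rw [i_around hE hv h1 hd hl.2 hf hl.1]
    exact hne
  · rintro ⟨_, _, hne⟩
    exact ⟨hp.2.1, h1, rotL p.2, hl.2, hl.1, hne⟩

theorem eIn_rv {E : Finset (Pt × Pt)} (hE : IsPoly E) {p : Pt × Pt} (hp : De p) : EIn E (rv p) ↔ EIn E p := by
  have e1 : (rv p).1 + rotL (rv p).2 = p.1 + rotR p.2 := by
    unfold rv rotL rotR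
    ext <;> simp <;> ring
  unfold EIn
  rw [i_rv_rv, e1]
  constructor
  · rintro ⟨h1, h2, h3⟩
    refine ⟨h2, h1, ?_⟩
    rw [i_same hE hp h2 h1]
    exact h3
  · rintro ⟨h1, h2, h3⟩
    refine ⟨h2, h1, ?_⟩
    rw [← i_same hE hp h1 h2]
    exact h3

/-- neighbours off the polygon are on the same side. -/
theorem ins_adj {E : Finset (Pt × Pt)} (hE : IsPoly E) {p : Pt × Pt} (hp : De p) (h1 : p.1 ∉ VE E)
    (h2 : p.1 + p.2 ∉ VE E) : Ins E p.1 ↔ Ins E (p.1 + p.2) := by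
  have hr := i_de_rv hp
  have h3 := ins_edge hE hr h2
  rw [ins_edge hE hp h1, ← eIn_rv hE hp]
  exact h3.symm

/-- an edge p that ends on E comes from inside exactly if E turns in the direction of its orientation. -/
theorem eIn_turn {E : Finset (Pt × Pt)} (hE : IsPoly E) {p : Pt × Pt} (hp : De p) (h1 : p ∉ E) (h2 : rv p ∉ E)
    {b : Bool} (hb : (p.1 + p.2, turn b p.2) ∈ E) : EIn E p ↔ sgn b = sg E := by
  have hs := side hE hb
  have hsame := i_same hE hp h1 h2
  cases b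
  · have e : ((p.1 + p.2, turn false p.2) : Pt × Pt).1 + rotR ((p.1 + p.2, turn false p.2) : Pt × Pt).2 =
        p.1 + rotR p.2 := by
      simp only [turn, Bool.false_eq_true, if_false, rotR]
      ext <;> simp <;> ring
    rw [e] at hs
    have h3 := hs.2
    have e2 : sgn false = -1 := by simp [sgn]
    rw [e2]
    unfold EIn
    rw [hsame, h3]
    rcases sg_cases E with h4 | h4
    · rw [h4]
      simp
    · rw [h4]
      simp [h1, h2]
  · have e : ((p.1 + p.2, turn true p.2) : Pt × Pt).1 + rotL ((p.1 + p.2, turn true p.2) : Pt × Pt).2 =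
        p.1 + rotL p.2 := by
      simp only [turn, if_true, rotL]
      ext <;> simp <;> ring
    rw [e] at hs
    have h3 := hs.1
    have e2 : sgn true = 1 := by simp [sgn]
    rw [e2]
    unfold EIn
    rw [h3]
    rcases sg_cases E with h4 | h4
    · rw [h4]
      simp [h1, h2]
    · rw [h4]
      simp

theorem ins_rE {E : Finset (Pt × Pt)} (hE : IsPoly E) (v : Pt) : Ins (rE E) v ↔ Ins E v := by
  unfold Ins
  rw [VE_rE hE]
  simp only [Nw_rE hE, ne_eq, neg_eq_zero]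

theorem eIn_rE {E : Finset (Pt × Pt)} (hE : IsPoly E) (p : Pt × Pt) : EIn (rE E) p ↔ EIn E p := by
  unfold EIn
  rw [mem_rE, mem_rE, i_rv_rv, Nw_rE hE, ne_eq, neg_eq_zero]
  constructor
  · rintro ⟨h1, h2, h3⟩
    exact ⟨h2, h1, h3⟩
  · rintro ⟨h1, h2, h3⟩
    exact ⟨h2, h1, h3⟩

private lemma i_vt {E : Finset (Pt × Pt)} (hE : IsPoly E) {v : Pt} (hv : v ∈ VE E) : Vt v := by
  obtain ⟨p, hp, rfl⟩ := Finset.mem_image.1 hv
  exact (isPoly_de hE hp).2.1

private lemma i_nonempty {E : Finset (Pt × Pt)} (hE : IsPoly E) : (VE E).Nonempty := by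
  obtain ⟨v, d, τ, m, h, rfl⟩ := hE
  refine ⟨v, Finset.mem_image.2 ⟨eg v d τ 0, ?_, rfl⟩⟩
  exact Finset.mem_image.2 ⟨0, Finset.mem_range.2 h.pos, rfl⟩

private lemma i_low {v : Pt} (hv : Vt v) : ∃ d ∈ dirs, Fc (v + d) ∧ lv (v + d) < lv v := by
  obtain ⟨d, hd, h1, h2⟩ := i_lowdir (cl v) hv
  refine ⟨d, hd, ?_, ?_⟩
  · unfold Fc
    rw [cl_add]
    exact h1
  · unfold lv
    simp only [Prod.fst_add, Prod.snd_add]
    omega

/-- the vertices of E are not inside E' -/
private lemma i_claim {E E' : Finset (Pt × Pt)} (hE : IsPoly E) (hE' : IsPoly E') (h : ∀ w ∈ VE E', Ins E w)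
    {u : Pt} (hu : u ∈ VE E) : ¬ Ins E' u := by
  intro hins
  have hdis : ∀ w ∈ VE E, w ∉ VE E' := fun w h1 h2 => (h w h2).2.1 h1
  -- all vertices of E are inside E'
  obtain ⟨p, hp, rfl⟩ := Finset.mem_image.1 hu
  obtain ⟨τ, m, hP, hEp⟩ := root_at hE hp
  have hvs : ∀ i, i < m → vs p.1 p.2 τ i ∈ VE E := by
    intro i hi
    refine Finset.mem_image.2 ⟨eg p.1 p.2 τ i, ?_, rfl⟩
    rw [hEp]
    exact Finset.mem_image.2 ⟨i, Finset.mem_range.2 hi, rfl⟩
  have hall' : ∀ i, i < m → Ins E' (vs p.1 p.2 τ i) := by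
    intro i
    induction i with
    | zero =>
      intro _
      exact hins
    | succ i ih =>
      intro hi
      have h1 := ih (by omega)
      have h2 := ins_adj hE' (poly_de hP i) (hdis _ (hvs i (by omega))) (hdis _ (hvs (i + 1) hi))
      exact h2.1 h1
  have hall : ∀ w ∈ VE E, Ins E' w := by
    intro w hw
    obtain ⟨q, hq, rfl⟩ := Finset.mem_image.1 hw
    rw [hEp] at hq
    obtain ⟨i, hi, rfl⟩ := Finset.mem_image.1 hq
    exact hall' i (Finset.mem_range.1 hi)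
  -- the lowest vertex
  have hne : (VE E ∪ VE E').Nonempty := (i_nonempty hE).mono Finset.subset_union_left
  obtain ⟨w, hw, hmin⟩ := Finset.exists_min_image _ lv hne
  have hVt : Vt w := by
    rcases Finset.mem_union.1 hw with h1 | h1
    · exact i_vt hE h1
    · exact i_vt hE' h1
  obtain ⟨d, hd, hf, hlt⟩ := i_low hVt
  have n1 : Nw E (w + d) = 0 := Nw_low (fun v hv => le_trans hlt.le (hmin v (Finset.mem_union_left _ hv)))
  have n2 : Nw E' (w + d) = 0 := Nw_low (fun v hv => le_trans hlt.le (hmin v (Finset.mem_union_right _ hv)))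
  rcases Finset.mem_union.1 hw with h1 | h1
  · obtain ⟨_, h3, d', hd', hf', hne'⟩ := hall w h1
    rw [i_around hE' hVt h3 hd hd' hf hf'] at hne'
    exact hne' n2
  · obtain ⟨_, h3, d', hd', hf', hne'⟩ := h w h1
    rw [i_around hE hVt h3 hd hd' hf hf'] at hne'
    exact hne' n1

/-- the edge crossed by the ray from the face g -/
private lemma i_ray {g : Pt} (hg : Fc g) : De (g + (-1, 0), (1, -1)) ∧ Fc (g + (-1, -1)) ∧
    (g + (-1, 0)) + rotL (1, -1) = g ∧ (g + (-1, 0)) + rotR (1, -1) = g + (-1, -1) ∧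
    (g + (-1, 0)) + (1, 0) = g := by
  unfold Fc at hg
  refine ⟨⟨?_, ?_, ?_⟩, ?_, ?_, ?_, ?_⟩
  · show ((1, -1) : Pt) ∈ dirs
    decide +kernel
  · unfold Vt
    rw [cl_add, hg]
    decide +kernel
  · show cl (g + (-1, 0) + (1, -1)) ≠ 1
    rw [cl_add, cl_add, hg]
    decide +kernel
  · unfold Fc
    rw [cl_add, hg]
    decide +kernel
  · simp only [rotL]
    ext <;> simp
  · simp only [rotR]
    ext <;> simp
  · ext <;> simp

private lemma i_faces {E E' : Finset (Pt × Pt)} (hE : IsPoly E) (hE' : IsPoly E') (h : ∀ w ∈ VE E', Ins E w)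
    (L : ℤ) (hL : ∀ w ∈ VE E', L ≤ lv w) (n : ℕ) :
    ∀ g, Fc g → lv g ≤ L + 3 * n → Nw E' g ≠ 0 → Nw E g ≠ 0 := by
  induction n with
  | zero =>
    intro g _ h1 h2
    exfalso
    apply h2
    apply Nw_low
    intro v hv
    have := hL v hv
    push_cast at h1
    linarith
  | succ n ih =>
    intro g hg h1 h2
    obtain ⟨hde, hf, eL, eR, e1⟩ := i_ray hg
    set u : Pt := g + (-1, 0) with hu
    have hvu : Vt u := hde.2.1
    have hd1 : ((1, 0) : Pt) ∈ dirs := by decide +kernel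
    by_cases hmem : u ∈ VE E'
    · obtain ⟨_, h3, d', hd', hf', hne'⟩ := h u hmem
      have := i_around hE hvu h3 hd1 hd' (by rw [e1]; exact hg) hf'
      rw [e1] at this
      rw [← this]
      exact hne'
    · have hn := i_not_mem hE' (p := (u, (1, -1))) hmem
      have hs := i_same hE' hde hn.1 hn.2
      have hs' : Nw E' g = Nw E' (g + (-1, -1)) := by
        have : Nw E' (u + rotL (1, -1)) = Nw E' (u + rotR (1, -1)) := hs
        rwa [eL, eR] at this
      have hins : Ins E' u := ⟨hvu, hmem, (1, 0), hd1, by rw [e1]; exact hg, by rw [e1]; exact h2⟩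
      have hmE : u ∉ VE E := fun h3 => i_claim hE hE' h h3 hins
      have hnE := i_not_mem hE (p := (u, (1, -1))) hmE
      have hsE := i_same hE hde hnE.1 hnE.2
      have hsE' : Nw E g = Nw E (g + (-1, -1)) := by
        have : Nw E (u + rotL (1, -1)) = Nw E (u + rotR (1, -1)) := hsE
        rwa [eL, eR] at this
      rw [hsE']
      apply ih _ hf
      · push_cast at h1
        unfold lv at h1 ⊢
        simp only [Prod.fst_add, Prod.snd_add]
        linarith
      · rw [← hs']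
        exact h2

/-- nested polygons. -/
theorem nested {E E' : Finset (Pt × Pt)} (hE : IsPoly E) (hE' : IsPoly E') (h : ∀ w ∈ VE E', Ins E w) {v : Pt}
    (hv : Ins E' v) : Ins E v := by
  obtain ⟨h1, h2, d, hd, hf, hne⟩ := hv
  refine ⟨h1, ?_, d, hd, hf, ?_⟩
  · intro h3
    exact i_claim hE hE' h h3 ⟨h1, h2, d, hd, hf, hne⟩
  · obtain ⟨w, hw, hmin⟩ := Finset.exists_min_image _ lv (i_nonempty hE')
    have hk : lv (v + d) ≤ lv w + 3 * ((lv (v + d) - lv w).toNat : ℕ) := by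
      have := Int.self_le_toNat (lv (v + d) - lv w)
      have h0 : (0 : ℤ) ≤ ((lv (v + d) - lv w).toNat : ℕ) := Int.natCast_nonneg _
      linarith
    exact i_faces hE hE' h (lv w) hmin _ (v + d) hf hk hne

theorem mem_polys {Ω : Finset Pt} {E : Finset (Pt × Pt)} : E ∈ polys Ω ↔ IsPoly E ∧ VE E ⊆ Ω := by
  classical
  unfold polys
  rw [Finset.mem_filter, Finset.mem_powerset]
  constructor
  · rintro ⟨h1, h2⟩
    refine ⟨h2, ?_⟩
    intro v hv
    obtain ⟨p, hp, rfl⟩ := Finset.mem_image.1 hv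
    exact (Finset.mem_product.1 (h1 hp)).1
  · rintro ⟨h1, h2⟩
    refine ⟨?_, h1⟩
    intro p hp
    rw [Finset.mem_product]
    exact ⟨h2 (Finset.mem_image_of_mem _ hp), (isPoly_de h1 hp).1⟩

theorem mem_inn {Ω : Finset Pt} {E : Finset (Pt × Pt)} {v : Pt} : v ∈ inn Ω E ↔ v ∈ Ω ∧ Ins E v := by
  classical
  unfold inn
  rw [Finset.mem_filter]

theorem full_inn {Ω : Finset Pt} {E : Finset (Pt × Pt)} (hΩ : Full Ω) (hE : E ∈ polys Ω) : Full (inn Ω E) := by
  obtain ⟨hP, hV⟩ := mem_polys.1 hE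
  constructor
  · intro v hv
    exact hΩ.1 v (mem_inn.1 hv).1
  · intro E' hE' hs v hv
    rw [mem_inn]
    constructor
    · exact hΩ.2 E' hE' (fun w hw => (mem_inn.1 (hs hw)).1) v hv
    · exact nested hP hE' (fun w hw => (mem_inn.1 (hs hw)).2) hv

theorem inn_card {Ω : Finset Pt} {E : Finset (Pt × Pt)} (hE : E ∈ polys Ω) : (inn Ω E).card < Ω.card := by
  obtain ⟨hP, hV⟩ := mem_polys.1 hE
  obtain ⟨w, hw⟩ := i_nonempty hP
  apply Finset.card_lt_card
  rw [Finset.ssubset_iff_of_subset (fun v hv => (mem_inn.1 hv).1)]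
  exact ⟨w, hV hw, fun h => (mem_inn.1 h).2.2.1 hw⟩

end L3

end LP

end HexObs
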