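import Pool.Agent.HexLoop.DefsD
import Pool.Agent.HexLoop.Inside

/-!
SD4: the stepped domains: membership, rotation, fullness, the steps of the growth.
-/

set_option autoImplicit false

namespace HexObs

namespace LP

open Finset

lemma vt_iff3 {v : Pt} : Vt v ↔ (v.1 - v.2) % 3 ≠ 1 := by
  unfold Vt cl
  rw [not_iff_not]
  have h : (((v.1 - v.2 : ℤ)) : ZMod 3) = 1 ↔ (((v.1 - v.2 : ℤ)) : ZMod 3) = ((1 : ℤ) : ZMod 3) := by norm_num
  rw [h, ZMod.intCast_eq_intCast_iff]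
  exact Iff.rfl

lemma fc_iff3 {v : Pt} : Fc v ↔ (v.1 - v.2) % 3 = 1 := by
  unfold Fc cl
  have h : (((v.1 - v.2 : ℤ)) : ZMod 3) = 1 ↔ (((v.1 - v.2 : ℤ)) : ZMod 3) = ((1 : ℤ) : ZMod 3) := by norm_num
  rw [h, ZMod.intCast_eq_intCast_iff]
  exact Iff.rfl

/-- the low vertex number j of the row above PP m M. -/
def um (m : ℕ) (j : ℤ) : Pt := (m + 2 * j + 2, m - j)

/-- the high vertex to the left of um m j. -/
def am (m : ℕ) (j : ℤ) : Pt := (m + 2 * j + 1, m - j + 1)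

/-- membership by linear inequalities. -/
theorem mem_SP' {m M : ℕ} {θ θ' : ℤ} {v : Pt} : v ∈ SP m M θ θ' ↔
    (v.1 - v.2) % 3 ≠ 1 ∧ -3 * (M : ℤ) < v.1 - v.2 - 1 ∧ v.1 - v.2 - 1 < 3 * M ∧
    ((-3 * (m : ℤ) < v.1 + 2 * v.2 - 1 ∧ v.1 + 2 * v.2 - 1 < 3 * m) ∨
    (3 * (m : ℤ) < v.1 + 2 * v.2 - 1 ∧ v.1 + 2 * v.2 - 1 < 3 * m + 3 ∧ θ ≤ v.1 - v.2 - 1) ∨
    (3 * (m : ℤ) < 1 - (v.1 + 2 * v.2) ∧ 1 - (v.1 + 2 * v.2) < 3 * m + 3 ∧ θ' ≤ 1 - (v.1 - v.2))) := by
  rw [mem_SP]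
  unfold InSP nn lv
  rw [vt_iff3, abs_lt, abs_lt]
  omega

theorem SP_big {m M : ℕ} {θ θ' : ℤ} (h : 3 * (M : ℤ) ≤ θ) (h' : 3 * (M : ℤ) ≤ θ') : SP m M θ θ' = PP m M := by
  ext v
  unfold PP
  rw [mem_SP', mem_SP']
  omega

theorem SP_small {m M : ℕ} {θ θ' : ℤ} (h : θ ≤ -3 * (M : ℤ) + 1) (h' : θ' ≤ -3 * (M : ℤ) + 1) :
    SP m M θ θ' = PP (m + 1) M := by
  ext v
  unfold PP
  rw [mem_SP', mem_SP']
  push_cast
  omega

theorem SP_mono {m M : ℕ} {θ θ' κ κ' : ℤ} (h : κ ≤ θ) (h' : κ' ≤ θ') : SP m M θ θ' ⊆ SP m M κ κ' := by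
  intro v hv
  rw [mem_SP'] at hv ⊢
  omega

theorem SP_sub {m M : ℕ} {θ θ' : ℤ} : SP m M θ θ' ⊆ PP (m + 1) M := by
  intro v hv
  unfold PP
  rw [mem_SP'] at hv ⊢
  push_cast
  omega

theorem PP_sub {m M : ℕ} {θ θ' : ℤ} : PP m M ⊆ SP m M θ θ' := by
  intro v hv
  unfold PP at hv
  rw [mem_SP'] at hv ⊢
  omega

theorem R2_R2 (v : Pt) : R2 (R2 v) = v := by
  unfold R2
  ext <;> simp

theorem SP_R2 {m M : ℕ} {θ θ' : ℤ} {v : Pt} : R2 v ∈ SP m M θ θ' ↔ v ∈ SP m M θ' θ := by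
  rw [mem_SP', mem_SP']
  unfold R2
  dsimp only
  omega

/-- all stepped domains are full. -/
theorem SP_full (m M : ℕ) (θ θ' : ℤ) : Full (SP m M θ θ') := by
  constructor
  · intro v hv
    exact (mem_SP.1 hv).1
  · rintro E hE hV v hv
    have hvE : v ∉ VE E := hv.2.1
    have hbd : ∀ w ∈ VE E, (w.1 - w.2) % 3 ≠ 1 ∧ -3 * (M : ℤ) < w.1 - w.2 - 1 ∧ w.1 - w.2 - 1 < 3 * M ∧
        -3 * (m : ℤ) - 3 < w.1 + 2 * w.2 - 1 ∧ w.1 + 2 * w.2 - 1 < 3 * m + 3 := by
      intro w hw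
      have := mem_SP'.1 (hV hw)
      omega
    -- the vertex is in the large parallelogram
    have hin : -3 * (M : ℤ) < v.1 - v.2 - 1 ∧ v.1 - v.2 - 1 < 3 * M ∧
        -3 * (m : ℤ) - 3 < v.1 + 2 * v.2 - 1 ∧ v.1 + 2 * v.2 - 1 < 3 * m + 3 := by
      obtain ⟨h1, _, d, hd, h2, h3⟩ := hv
      have a1 : ∃ w ∈ VE E, lv w < lv (v + d) := by
        by_contra hcon
        push Not at hcon
        exact h3 (Nw_low hcon)
      have a2 : ∃ w ∈ VE E, lv (v + d) ≤ lv w := by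
        by_contra hcon
        push Not at hcon
        exact h3 (Nw_high hE hcon)
      have a3 : ∃ w ∈ VE E, nn w ≤ nn (v + d) := by
        by_contra hcon
        push Not at hcon
        exact h3 (Nw_left hE hcon)
      have a4 : ∃ w ∈ VE E, nn (v + d) ≤ nn w := by
        by_contra hcon
        push Not at hcon
        exact h3 (Nw_right hE hcon)
      obtain ⟨w1, b1, c1⟩ := a1
      obtain ⟨w2, b2, c2⟩ := a2
      obtain ⟨w3, b3, c3⟩ := a3
      obtain ⟨w4, b4, c4⟩ := a4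
      have d1 := hbd w1 b1
      have d2 := hbd w2 b2
      have d3 := hbd w3 b3
      have d4 := hbd w4 b4
      rw [fc_iff3] at h2
      rw [vt_iff3] at h1
      unfold dirs at hd
      simp only [Finset.mem_insert, Finset.mem_singleton] at hd
      unfold lv at c1 c2
      unfold nn at c3 c4
      simp only [Prod.fst_add, Prod.snd_add] at c1 c2 c3 c4 h2
      rcases hd with rfl | rfl | rfl | rfl | rfl | rfl <;> dsimp only at * <;> omega
    -- nothing is inside at the top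
    have top : ∀ w : Pt, Vt w → 3 * (m : ℤ) + 3 < w.1 + 2 * w.2 - 1 → (w.1 - w.2) % 3 = 2 → ¬ Ins E w := by
      rintro w - hw hw2 ⟨h1, _, d, hd, h2, h3⟩
      apply h3
      apply Nw_high hE
      intro z hz
      have := hbd z hz
      rw [fc_iff3] at h2
      unfold dirs at hd
      simp only [Finset.mem_insert, Finset.mem_singleton] at hd
      unfold lv
      simp only [Prod.fst_add, Prod.snd_add] at h2 ⊢
      rcases hd with rfl | rfl | rfl | rfl | rfl | rfl <;> dsimp only at * <;> omega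
    have bot : ∀ w : Pt, Vt w → w.1 + 2 * w.2 - 1 < -3 * (m : ℤ) - 3 → (w.1 - w.2) % 3 = 0 → ¬ Ins E w := by
      rintro w - hw hw2 ⟨h1, _, d, hd, h2, h3⟩
      apply h3
      apply Nw_low
      intro z hz
      have := hbd z hz
      rw [fc_iff3] at h2
      unfold dirs at hd
      simp only [Finset.mem_insert, Finset.mem_singleton] at hd
      unfold lv
      simp only [Prod.fst_add, Prod.snd_add] at h2 ⊢
      rcases hd with rfl | rfl | rfl | rfl | rfl | rfl <;> dsimp only at * <;> omega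
    have step : ∀ w d : Pt, d ∈ dirs → Vt w → Vt (w + d) → w ∉ VE E → w + d ∉ VE E → Ins E w → Ins E (w + d) := by
      intro w d hd h1 h2 h3 h4 h5
      exact (ins_adj hE (p := (w, d)) ⟨hd, h1, h2⟩ h3 h4).1 h5
    by_contra hcon
    have hvt : (v.1 - v.2) % 3 ≠ 1 := vt_iff3.1 hv.1
    have hc : ¬ ((v.1 - v.2) % 3 ≠ 1 ∧ -3 * (M : ℤ) < v.1 - v.2 - 1 ∧ v.1 - v.2 - 1 < 3 * M ∧
      ((-3 * (m : ℤ) < v.1 + 2 * v.2 - 1 ∧ v.1 + 2 * v.2 - 1 < 3 * m) ∨
      (3 * (m : ℤ) < v.1 + 2 * v.2 - 1 ∧ v.1 + 2 * v.2 - 1 < 3 * m + 3 ∧ θ ≤ v.1 - v.2 - 1) ∨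
      (3 * (m : ℤ) < 1 - (v.1 + 2 * v.2) ∧ 1 - (v.1 + 2 * v.2) < 3 * m + 3 ∧ θ' ≤ 1 - (v.1 - v.2)))) := fun h =>
      hcon (mem_SP'.2 h)
    have hcase : (3 * (m : ℤ) < v.1 + 2 * v.2 - 1 ∧ v.1 - v.2 - 1 < θ) ∨
        (v.1 + 2 * v.2 - 1 < -3 * (m : ℤ) ∧ 1 - (v.1 - v.2) < θ') := by omega
    have notin : ∀ w : Pt, w ∉ SP m M θ θ' → w ∉ VE E := fun w h h' => h (hV h')
    obtain ⟨x, y⟩ := v
    dsimp only at *
    rcases hcase with ⟨h1, h2⟩ | ⟨h1, h2⟩
    · -- top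
      have hhigh : ∀ p q : ℤ, 3 * (m : ℤ) < p + 2 * q - 1 → p + 2 * q - 1 < 3 * m + 3 → p - q - 1 < θ → (p - q) % 3 = 0 →
          (p, q) ∉ VE E → ¬ Ins E (p, q) := by
        intro p q k1 k4 k2 k3 k5 k6
        have e : ((p, q) : Pt) + (0, 1) = (p, q + 1) := by
          ext <;> simp
        have k7 := step (p, q) (0, 1) (by decide) (vt_iff3.2 (by dsimp only; omega))
          (vt_iff3.2 (by rw [e]; dsimp only; omega)) k5
          (notin _ (by rw [e, mem_SP']; dsimp only; omega)) k6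
        rw [e] at k7
        exact top (p, q + 1) (vt_iff3.2 (by dsimp only; omega)) (by dsimp only; omega) (by dsimp only; omega) k7
      by_cases h0 : (x - y) % 3 = 0
      · exact hhigh x y h1 (by omega) h2 h0 hvE hv
      · have e : ((x, y) : Pt) + (-1, 1) = (x - 1, y + 1) := by
          ext <;> simp
          ring
        have hn := notin (x - 1, y + 1) (by rw [mem_SP']; dsimp only; omega)
        have k7 := step (x, y) (-1, 1) (by decide) (vt_iff3.2 (by dsimp only; omega))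
          (vt_iff3.2 (by rw [e]; dsimp only; omega)) hvE (by rw [e]; exact hn) hv
        rw [e] at k7
        exact hhigh (x - 1) (y + 1) (by omega) (by omega) (by omega) (by omega) hn k7
    · -- bottom
      have hlow : ∀ p q : ℤ, p + 2 * q - 1 < -3 * (m : ℤ) → -3 * (m : ℤ) - 3 < p + 2 * q - 1 → 1 - (p - q) < θ' →
          (p - q) % 3 = 2 → (p, q) ∉ VE E → ¬ Ins E (p, q) := by
        intro p q k1 k4 k2 k3 k5 k6
        have e : ((p, q) : Pt) + (0, -1) = (p, q - 1) := by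
          ext <;> simp
          ring
        have k7 := step (p, q) (0, -1) (by decide) (vt_iff3.2 (by dsimp only; omega))
          (vt_iff3.2 (by rw [e]; dsimp only; omega)) k5
          (notin _ (by rw [e, mem_SP']; dsimp only; omega)) k6
        rw [e] at k7
        exact bot (p, q - 1) (vt_iff3.2 (by dsimp only; omega)) (by dsimp only; omega) (by dsimp only; omega) k7
      by_cases h0 : (x - y) % 3 = 2
      · exact hlow x y h1 (by omega) h2 h0 hvE hv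
      · have e : ((x, y) : Pt) + (1, -1) = (x + 1, y - 1) := by
          ext <;> simp
          ring
        have hn := notin (x + 1, y - 1) (by rw [mem_SP']; dsimp only; omega)
        have k7 := step (x, y) (1, -1) (by decide) (vt_iff3.2 (by dsimp only; omega))
          (vt_iff3.2 (by rw [e]; dsimp only; omega)) hvE (by rw [e]; exact hn) hv
        rw [e] at k7
        exact hlow (x + 1) (y - 1) (by omega) (by omega) (by omega) (by omega) hn k7

end LP

end HexObs
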