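import Pool.Agent.HexLoop.Cnt0
import Pool.Agent.HexLoop.Stepped
import Pool.Agent.HexLoop.Par

/-!
Translations by z with cl z = 0.
-/

set_option autoImplicit false

namespace HexObs

namespace LP

open Complex Finset

/-- translation of directed edges. -/
def Te (z : Pt) (p : Pt × Pt) : Pt × Pt := (p.1 + z, p.2)

/-- translation of a set of vertices. -/
def Ti (z : Pt) (Ω : Finset Pt) : Finset Pt := Ω.image (· + z)

/-- translation of sets of directed edges. -/
def TE (z : Pt) (E : Finset (Pt × Pt)) : Finset (Pt × Pt) := E.image (Te z)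

lemma Te_neg (z : Pt) (p : Pt × Pt) : Te (-z) (Te z p) = p := by
  unfold Te
  simp

lemma Te_neg' (z : Pt) (p : Pt × Pt) : Te z (Te (-z) p) = p := by
  unfold Te
  simp

lemma Te_inj (z : Pt) : Function.Injective (Te z) := by
  intro v w h
  rw [← Te_neg z v, h, Te_neg]

theorem mem_Ti {z : Pt} {Ω : Finset Pt} {v : Pt} : v ∈ Ti z Ω ↔ v - z ∈ Ω := by
  unfold Ti
  rw [Finset.mem_image]
  constructor
  · rintro ⟨w, hw, rfl⟩
    rwa [add_sub_cancel_right]
  · intro h
    exact ⟨_, h, sub_add_cancel v z⟩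

lemma tr_mem {z : Pt} {Ω : Finset Pt} {v : Pt} : v + z ∈ Ti z Ω ↔ v ∈ Ω := by
  rw [mem_Ti, add_sub_cancel_right]

lemma tr_cl {z : Pt} (hz : cl z = 0) (v : Pt) : cl (v + z) = cl v := by
  rw [cl_add, hz, add_zero]

lemma tr_Vt {z : Pt} (hz : cl z = 0) {v : Pt} : Vt (v + z) ↔ Vt v := by
  unfold Vt
  rw [tr_cl hz]

lemma tr_Fc {z : Pt} (hz : cl z = 0) {v : Pt} : Fc (v + z) ↔ Fc v := by
  unfold Fc
  rw [tr_cl hz]

lemma tr_De {z : Pt} (hz : cl z = 0) {p : Pt × Pt} : De (Te z p) ↔ De p := by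
  unfold De Te
  simp only
  rw [tr_Vt hz, add_right_comm, tr_Vt hz]

lemma tr_rv (z : Pt) (p : Pt × Pt) : rv (Te z p) = Te z (rv p) := by
  unfold rv Te
  simp only
  rw [add_right_comm]

lemma vs_tr (z v d : Pt) (τ : ℕ → Bool) (i : ℕ) : vs (v + z) d τ i = vs v d τ i + z := by
  induction i with
  | zero => rfl
  | succ i ih => rw [vs_succ, vs_succ, ih, add_right_comm]

theorem vx_tr (z v d : Pt) (t : List Bool) (i : ℕ) : vx (v + z) d t i = vx v d t i + z := vs_tr z v d (tf t) i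

lemma eg_tr (z v d : Pt) (τ : ℕ → Bool) (i : ℕ) : eg (v + z) d τ i = Te z (eg v d τ i) := by
  unfold eg Te
  rw [vs_tr]

lemma poly_tr {z : Pt} (hz : cl z = 0) {v d : Pt} {τ : ℕ → Bool} {m : ℕ} (h : Poly v d τ m) :
    Poly (v + z) d τ m := by
  refine ⟨h.pos, ?_, h.per, ?_, h.cld, ?_⟩
  · exact (tr_De (p := (v, d)) hz).2 h.de
  · rw [vs_tr, h.clv]
  · intro i k h1 h2
    rw [vs_tr, vs_tr]
    exact fun e => h.inj i k h1 h2 (add_right_cancel e)

lemma pe_tr (z v d : Pt) (τ : ℕ → Bool) (m : ℕ) : pe (v + z) d τ m = TE z (pe v d τ m) := by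
  unfold TE pe
  rw [Finset.image_image]
  apply Finset.image_congr
  intro i _
  exact eg_tr z v d τ i

theorem isPoly_TE {z : Pt} (hz : cl z = 0) {E : Finset (Pt × Pt)} (hE : IsPoly E) : IsPoly (TE z E) := by
  obtain ⟨v, d, τ, m, h, rfl⟩ := hE
  exact ⟨v + z, d, τ, m, poly_tr hz h, (pe_tr z v d τ m).symm⟩

theorem TE_TE (z : Pt) (E : Finset (Pt × Pt)) : TE (-z) (TE z E) = E := by
  unfold TE
  rw [Finset.image_image]
  have : Te (-z) ∘ Te z = id := by
    ext p <;> simp [Te]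
  rw [this, Finset.image_id]

theorem TE_TE' (z : Pt) (E : Finset (Pt × Pt)) : TE z (TE (-z) E) = E := by
  have := TE_TE (-z) E
  rwa [neg_neg] at this

theorem card_TE (z : Pt) (E : Finset (Pt × Pt)) : (TE z E).card = E.card :=
  Finset.card_image_of_injective _ (Te_inj z)

theorem VE_TE (z : Pt) (E : Finset (Pt × Pt)) : VE (TE z E) = Ti z (VE E) := by
  unfold VE TE Ti
  rw [Finset.image_image, Finset.image_image]
  rfl

lemma cr_tr (z f : Pt) (p : Pt × Pt) : cr (f + z) (Te z p) = cr f p := by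
  unfold cr Te
  simp only
  rw [nn_add, nn_add, lv_add, lv_add]
  have e1 : (nn p.1 + nn z = nn f + nn z - 1) ↔ (nn p.1 = nn f - 1) := by
    constructor <;> intro h <;> linarith
  have e2 : (nn p.1 + nn z = nn f + nn z + 1) ↔ (nn p.1 = nn f + 1) := by
    constructor <;> intro h <;> linarith
  have e3 : (lv p.1 + lv z < lv f + lv z) ↔ (lv p.1 < lv f) := by
    constructor <;> intro h <;> linarith
  simp only [e1, e2, e3]

theorem Nw_TE (z f : Pt) (E : Finset (Pt × Pt)) : Nw (TE z E) (f + z) = Nw E f := by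
  unfold Nw TE
  rw [Finset.sum_image (fun a _ b _ h => Te_inj z h)]
  apply Finset.sum_congr rfl
  intro p _
  exact cr_tr z f p

/-! words -/

lemma arr0_tr {z : Pt} {Ω : Finset Pt} {p : Pt × Pt} {t : List Bool} : Arr0 (Ti z Ω) (Te z p) t ↔ Arr0 Ω p t := by
  constructor
  · intro h
    refine ⟨fun i h1 h2 => ?_, fun i k h1 h2 h3 => ?_⟩
    · have h4 := h.mem i h1 h2
      unfold Te at h4
      simp only at h4
      rwa [vx_tr, tr_mem] at h4
    · have h4 := h.inj i k h1 h2 h3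
      unfold Te at h4
      simp only at h4
      rw [vx_tr, vx_tr] at h4
      exact fun e => h4 (by rw [e])
  · intro h
    refine ⟨fun i h1 h2 => ?_, fun i k h1 h2 h3 => ?_⟩
    · unfold Te
      simp only
      rw [vx_tr, tr_mem]
      exact h.mem i h1 h2
    · unfold Te
      simp only
      rw [vx_tr, vx_tr]
      exact fun e => h.inj i k h1 h2 h3 (add_right_cancel e)

lemma tp_tr (z : Pt) (p : Pt × Pt) (t : List Bool) : tp (Te z p) t = tp p t + z := by
  unfold tp tip Te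
  simp only
  rw [vx_tr]

lemma hit_tr {z : Pt} {K : Finset Pt} {p : Pt × Pt} {t : List Bool} : Hit (Ti z K) (Te z p) t ↔ Hit K p t := by
  unfold Hit Te
  simp only [vx_tr, tr_mem]

theorem ex0_tr {z : Pt} {Ω : Finset Pt} {p : Pt × Pt} : ex0 (Ti z Ω) (Te z p) = ex0 Ω p := by
  ext t
  unfold ex0
  rw [Finset.mem_filter, Finset.mem_filter, mem_arr0, mem_arr0, arr0_tr, tp_tr, tr_mem]

theorem bd_tr {z : Pt} (hz : cl z = 0) (Ω : Finset Pt) : bd (Ti z Ω) = (bd Ω).image (Te z) := by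
  ext a
  rw [Finset.mem_image, mem_bd]
  constructor
  · rintro ⟨h1, h2, h3⟩
    refine ⟨Te (-z) a, ?_, Te_neg' z a⟩
    rw [mem_bd]
    rw [mem_Ti] at h1 h3
    refine ⟨?_, ?_, ?_⟩
    · show a.1 + -z + a.2 ∈ Ω
      have e : a.1 + -z + a.2 = a.1 + a.2 - z := by abel
      rwa [e]
    · have h4 := (tr_De (p := Te (-z) a) hz)
      rw [Te_neg'] at h4
      exact h4.1 h2
    · show a.1 + -z ∉ Ω
      rw [← sub_eq_add_neg]
      exact h3
  · rintro ⟨b, hb, rfl⟩
    rw [mem_bd] at hb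
    obtain ⟨h1, h2, h3⟩ := hb
    refine ⟨?_, (tr_De hz).2 h2, ?_⟩
    · show b.1 + z + b.2 ∈ Ti z Ω
      have e : b.1 + z + b.2 = b.1 + b.2 + z := by abel
      rw [e, tr_mem]
      exact h1
    · show b.1 + z ∉ Ti z Ω
      rw [tr_mem]
      exact h3

theorem NN_tr (z f : Pt) (p : Pt × Pt) (t : List Bool) : NN (f + z) (Te z p) t = NN f p t := by
  unfold NN
  apply Finset.sum_congr rfl
  intro i _
  have h : (vx (Te z p).1 (Te z p).2 t i, dx (Te z p).2 t i) = Te z (vx p.1 p.2 t i, dx p.2 t i) := by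
    unfold Te
    simp only
    rw [vx_tr]
  rw [h, cr_tr]

/-- HH is invariant under translations. -/
theorem HH_tr {z : Pt} (hz : cl z = 0) (Ω K : Finset Pt) : HH (Ti z Ω) (Ti z K) = HH Ω K := by
  classical
  unfold HH
  rw [bd_tr hz, Finset.sum_image (fun a _ b _ h => Te_inj z h)]
  apply Finset.sum_congr rfl
  intro a _
  apply Finset.sum_congr
  · ext t
    rw [Finset.mem_filter, Finset.mem_filter, ex0_tr, hit_tr]
  · intro t _
    rfl

/-- QQ is invariant under translations. -/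
theorem QQ_tr {z : Pt} (hz : cl z = 0) (Ω : Finset Pt) (f : Pt) : QQ (Ti z Ω) (f + z) = QQ Ω f := by
  unfold QQ
  rw [bd_tr hz, Finset.sum_image (fun a _ b _ h => Te_inj z h)]
  congr 1
  apply Finset.sum_congr rfl
  intro a _
  rw [ex0_tr]
  apply Finset.sum_congr rfl
  intro t _
  rw [NN_tr]

theorem polys_tr {z : Pt} (hz : cl z = 0) (Ω : Finset Pt) : polys (Ti z Ω) = (polys Ω).image (TE z) := by
  ext E
  rw [Finset.mem_image, mem_polys]
  have hz' : cl (-z) = 0 := by rw [cl_neg, hz, neg_zero]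
  constructor
  · rintro ⟨h1, h2⟩
    refine ⟨TE (-z) E, ?_, TE_TE' z E⟩
    rw [mem_polys]
    refine ⟨isPoly_TE hz' h1, ?_⟩
    rw [VE_TE]
    intro v hv
    rw [mem_Ti, sub_neg_eq_add] at hv
    have := h2 hv
    rwa [tr_mem] at this
  · rintro ⟨E', h1, rfl⟩
    rw [mem_polys] at h1
    refine ⟨isPoly_TE hz h1.1, ?_⟩
    rw [VE_TE]
    exact Finset.image_subset_image h1.2

lemma TE_inj (z : Pt) : Function.Injective (TE z) := by
  intro E E' h
  rw [← TE_TE z E, h, TE_TE]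

/-- sums over the polygons. -/
theorem sum_polys_tr {z : Pt} (hz : cl z = 0) (Ω : Finset Pt) (F : Finset (Pt × Pt) → ℝ) :
    ∑ E ∈ polys (Ti z Ω), F E = ∑ E ∈ polys Ω, F (TE z E) := by
  rw [polys_tr hz, Finset.sum_image (fun a _ b _ h => TE_inj z h)]

theorem LL_tr {z : Pt} (hz : cl z = 0) (Ω : Finset Pt) (f : Pt) : LL (Ti z Ω) (f + z) = LL Ω f := by
  classical
  unfold LL
  rw [Finset.sum_filter, Finset.sum_filter, sum_polys_tr hz]
  apply Finset.sum_congr rfl
  intro E _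
  rw [Nw_TE, card_TE]

theorem full_tr {z : Pt} (hz : cl z = 0) {Ω : Finset Pt} (h : Full Ω) : Full (Ti z Ω) := by
  have hz' : cl (-z) = 0 := by rw [cl_neg, hz, neg_zero]
  refine ⟨?_, ?_⟩
  · intro v hv
    rw [mem_Ti] at hv
    have := h.1 _ hv
    rwa [← tr_Vt hz, sub_add_cancel] at this
  · intro E hE hs v hv
    rw [mem_Ti]
    apply h.2 (TE (-z) E) (isPoly_TE hz' hE)
    · rw [VE_TE]
      intro w hw
      rw [mem_Ti, sub_neg_eq_add] at hw
      have := hs hw
      rwa [tr_mem] at this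
    · obtain ⟨h1, h2, d, hd, h3, h4⟩ := hv
      refine ⟨?_, ?_, d, hd, ?_, ?_⟩
      · rw [sub_eq_add_neg, tr_Vt hz']
        exact h1
      · rw [VE_TE, mem_Ti, sub_neg_eq_add, sub_add_cancel]
        exact h2
      · have e : v - z + d = v + d + -z := by abel
        rw [e, tr_Fc hz']
        exact h3
      · have e : v - z + d = v + d + -z := by abel
        rw [e, Nw_TE]
        exact h4

/-- the centred parallelogram is a translate of the parallelogram over the floor. -/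
theorem PP_Par (m M : ℕ) : Ti (m, m) (PP m M) = Par (2 * m) M (M + 1) := by
  ext v
  rw [mem_Ti, mem_PP, mem_par]
  have hz : cl ((m, m) : Pt) = 0 := by
    unfold cl
    simp
  have e : Vt (v - ((m : ℤ), (m : ℤ))) ↔ Vt v := by
    have := tr_Vt (v := v - ((m : ℤ), (m : ℤ))) hz
    rw [sub_add_cancel] at this
    exact this.symm
  rw [e, lv_sub, nn_sub]
  have e1 : lv ((m, m) : Pt) = 3 * m := by
    unfold lv
    ring
  have e2 : nn ((m, m) : Pt) = 0 := by
    unfold nn
    ring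
  rw [e1, e2, abs_lt, abs_lt, vt_iff3]
  have e3 := lv_mod v
  unfold nn at *
  push_cast
  constructor
  · rintro ⟨h1, h2, h3⟩
    refine ⟨h1, ?_⟩
    omega
  · rintro ⟨h1, h2⟩
    refine ⟨h1, ?_⟩
    omega

end LP

end HexObs
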