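import Pool.Agent.HexLoop.DefsC
import Pool.Agent.PHW.Defs

/-!
SD12a: the mean length of the bridges of height T from the hitting probabilities of the vertices.
-/

set_option autoImplicit false

namespace HexObs

namespace LP

open Complex Finset ENNReal

private lemma ML_vx (k : ℤ) (t : List Bool) (i : ℕ) : vx (ft k).1 up t i = (ft k).1 + vx oo up t i := by
  have h2 := vx_mulE (1, 0) oo (ft k).1 up t i
  rw [mulE_one, mulE_one] at h2
  rw [h2]
  congr 1
  exact sub_zero _

private lemma ML_ft (k : ℤ) : (ft k).1 = (2 * k, -k) := by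
  show k • hz up = _
  have : hz up = (2, -1) := by decide
  rw [this]
  simp only [Prod.smul_mk, smul_eq_mul]
  ext
  · ring
  · ring

/-- the translation. -/
private def ML_k (t : List Bool) (i : ℕ) : ℤ := -((vx oo up t i).1 / 2)

private lemma ML_v (t : List Bool) (i : ℕ) :
    vx (ft (ML_k t i)).1 up t i = (lev t i % 2, lev t i / 2) := by
  rw [ML_vx, ML_ft]
  have h : lev t i = (vx oo up t i).1 + 2 * (vx oo up t i).2 := by
    unfold lev ip up
    ring
  rw [h]
  unfold ML_k
  ext
  · simp only [Prod.fst_add]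
    omega
  · simp only [Prod.snd_add]
    omega

/-- the levels of the vertices of the strip. -/
private def ML_lev (T : ℕ) : Finset ℤ :=
  (range T).image (fun j : ℕ => (3 * j + 2 : ℤ)) ∪ (range T).image (fun j : ℕ => (3 * j + 3 : ℤ))

private lemma ML_card (T : ℕ) : (ML_lev T).card ≤ 2 * T := by
  unfold ML_lev
  refine (card_union_le _ _).trans ?_
  have h1 := card_image_le (s := range T) (f := fun j : ℕ => (3 * j + 2 : ℤ))
  have h2 := card_image_le (s := range T) (f := fun j : ℕ => (3 * j + 3 : ℤ))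
  rw [card_range] at h1 h2
  omega

private lemma ML_mem {T : ℕ} {t : List Bool} (ht : t ∈ Brd T) {i : ℕ} (h1 : 1 ≤ i) (h2 : i ≤ t.length) :
    lev t i ∈ ML_lev T := by
  rw [mem_Brd] at ht
  have h3 := ht.1 i h1 h2
  have h4 := lev_mod t i
  unfold ML_lev
  rw [mem_union, mem_image, mem_image]
  split_ifs at h4 with h5
  · right
    refine ⟨((lev t i - 3) / 3).toNat, ?_, ?_⟩
    · rw [mem_range]
      omega
    · omega
  · left
    refine ⟨((lev t i - 2) / 3).toNat, ?_, ?_⟩
    · rw [mem_range]
      omega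
    · omega

/-- the mean length of the bridges: all visited vertices are translated to two columns. -/
theorem mean_len {T : ℕ} {b : ℝ} (hb : ∀ (v : Pt) (X : Finset (ℤ × List Bool)),
    (∀ x ∈ X, x.2 ∈ Brd T ∧ Hit {v} (ft x.1) x.2) → ∑ x ∈ X, xc ^ x.2.length ≤ b) :
    ∑' t : Brd T, (t.1.length : ℝ≥0∞) * wE t.1 ≤ ENNReal.ofReal (2 * T * b) := by
  classical
  have hb0 : 0 ≤ b := by
    have := hb oo ∅ (by simp)
    simpa using this
  have hx := xc_pos
  rw [ENNReal.tsum_eq_iSup_sum]
  apply iSup_le
  intro Y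
  have e1 : ∑ t ∈ Y, (t.1.length : ℝ≥0∞) * wE t.1 =
      ENNReal.ofReal (∑ t ∈ Y, (t.1.length : ℝ) * xc ^ t.1.length) := by
    rw [ENNReal.ofReal_sum_of_nonneg (fun t _ => by positivity)]
    apply Finset.sum_congr rfl
    intro t _
    unfold wE
    rw [ENNReal.ofReal_mul (by positivity), ENNReal.ofReal_natCast]
  rw [e1]
  apply ENNReal.ofReal_le_ofReal
  set S : Finset (Σ _ : Brd T, ℕ) := Y.sigma (fun t => Finset.Icc 1 t.1.length) with hS
  have e2 : ∑ t ∈ Y, (t.1.length : ℝ) * xc ^ t.1.length = ∑ p ∈ S, xc ^ p.1.1.length := by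
    rw [hS, Finset.sum_sigma]
    apply Finset.sum_congr rfl
    intro t _
    show (t.1.length : ℝ) * xc ^ t.1.length = ∑ _s ∈ Finset.Icc 1 t.1.length, xc ^ t.1.length
    rw [Finset.sum_const, Nat.card_Icc, nsmul_eq_mul, Nat.add_sub_cancel]
  rw [e2, ← Finset.sum_fiberwise_of_maps_to (s := S) (t := ML_lev T) (g := fun p => lev p.1.1 p.2)]
  · have e3 : ∀ L ∈ ML_lev T, ∑ p ∈ S.filter (fun p => lev p.1.1 p.2 = L), xc ^ p.1.1.length ≤ b := by
      intro L _
      have e4 := hb (L % 2, L / 2) ((S.filter (fun p => lev p.1.1 p.2 = L)).image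
        (fun p => (ML_k p.1.1 p.2, p.1.1))) ?_
      · rw [Finset.sum_image] at e4
        · exact e4
        · intro p hp p' hp' h
          rw [Finset.mem_coe, Finset.mem_filter, hS, Finset.mem_sigma, Finset.mem_Icc] at hp hp'
          obtain ⟨⟨_, h1, h2⟩, h3⟩ := hp
          obtain ⟨⟨_, h1', h2'⟩, h3'⟩ := hp'
          obtain ⟨⟨t, ht⟩, i⟩ := p
          obtain ⟨⟨t', ht'⟩, i'⟩ := p'
          simp only at h h1 h2 h3 h1' h2' h3'
          rw [Prod.mk.injEq] at h
          obtain ⟨h4, h5⟩ := h
          subst h5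
          have h6 := ML_v t i
          have h7 := ML_v t i'
          rw [h3] at h6
          rw [h3', ← h4] at h7
          have h8 : vx oo up t i = vx oo up t i' := by
            have := h6.trans h7.symm
            rw [ML_vx, ML_vx] at this
            exact add_left_cancel this
          have h9 : i = i' := by
            rw [mem_Brd] at ht
            rcases lt_trichotomy i i' with h | h | h
            · exact absurd h8 (ht.2.1 i i' h h2')
            · exact h
            · exact absurd h8.symm (ht.2.1 i' i h h2)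
          subst h9
          rfl
      · intro x hx
        rw [Finset.mem_image] at hx
        obtain ⟨p, hp, rfl⟩ := hx
        rw [Finset.mem_filter, hS, Finset.mem_sigma, Finset.mem_Icc] at hp
        obtain ⟨⟨_, h1, h2⟩, h3⟩ := hp
        refine ⟨p.1.2, p.2, h1, h2, ?_⟩
        rw [Finset.mem_singleton, ← h3]
        exact ML_v p.1.1 p.2
    calc ∑ L ∈ ML_lev T, ∑ p ∈ S.filter (fun p => lev p.1.1 p.2 = L), xc ^ p.1.1.length
        ≤ ∑ _L ∈ ML_lev T, b := Finset.sum_le_sum e3
      _ = (ML_lev T).card * b := by rw [Finset.sum_const, nsmul_eq_mul]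
      _ ≤ 2 * T * b := by
          apply mul_le_mul_of_nonneg_right _ hb0
          exact_mod_cast ML_card T
  · intro p hp
    rw [hS, Finset.mem_sigma, Finset.mem_Icc] at hp
    exact ML_mem p.1.2 hp.2.1 hp.2.2

end LP

end HexObs
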