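import Pool.Agent.HexLoop.SDVertA

/-!
SD11, second part: the walks through a vertex, started from the vertex.
-/

set_option autoImplicit false

namespace HexObs

namespace LP

open Complex Finset

/-- the walks from p (p starts at v) to the boundary of Ω that do not come back to v. -/
noncomputable def exv (Ω : Finset Pt) (v : Pt) (p : Pt × Pt) : Finset (List Bool) := by
  classical
  exact (ex0 (Ω.erase v) p).filter (fun t => tp p t ≠ v)

theorem wt_re (t : List Bool) : (wt t).re = Real.cos (wind t * (Real.pi / 8)) * xc ^ t.length := by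
  unfold wt
  rw [← Complex.ofReal_pow, Complex.re_mul_ofReal, Complex.exp_ofReal_mul_I_re]

private lemma sdb_bd {Ω : Finset Pt} {a : Pt × Pt} : a ∈ bd Ω ↔ a.1 + a.2 ∈ Ω ∧ De a ∧ a.1 ∉ Ω := by
  classical
  unfold bd
  rw [Finset.mem_filter, Finset.mem_image]
  constructor
  · rintro ⟨⟨q, hq, rfl⟩, h2⟩
    rw [Finset.mem_product] at hq
    refine ⟨?_, h2⟩
    show q.1 - q.2 + q.2 ∈ Ω
    rw [sub_add_cancel]
    exact hq.1
  · rintro ⟨h1, h2⟩
    refine ⟨⟨(a.1 + a.2, a.2), ?_, ?_⟩, h2⟩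
    · rw [Finset.mem_product]
      exact ⟨h1, h2.1.1⟩
    · show (a.1 + a.2 - a.2, a.2) = a
      rw [add_sub_cancel_right]

private lemma sdb_ex0 {Ω : Finset Pt} {a : Pt × Pt} {t : List Bool} :
    t ∈ ex0 Ω a ↔ Arr0 Ω a t ∧ tp a t ∉ Ω := by
  unfold ex0
  rw [Finset.mem_filter, mem_arr0]

private lemma sdb_rv (p : Pt × Pt) : rv (rv p) = p := by
  unfold rv
  simp only [neg_neg, add_neg_cancel_right]

private lemma sdb_arr0 {Ω : Finset Pt} {a : Pt × Pt} {t : List Bool} (h : Arr0 Ω a t) :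
    Arr0 Ω (rv (le a t)) (rev t) := by
  constructor
  · intro i h1 h2
    rw [rev_length] at h2
    rw [vx_rev0 t i (by omega)]
    exact h.mem _ (by omega) (by omega)
  · intro i k h1 h2 h3
    rw [rev_length] at h3
    rw [vx_rev0 t i (by omega), vx_rev0 t k (by omega)]
    exact (h.inj _ _ (by omega) (by omega) (by omega)).symm

private lemma sdb_tp (a : Pt × Pt) (t : List Bool) : tp (rv (le a t)) (rev t) = a.1 := by
  unfold tp tip
  rw [rev_length, vx_rev0 t _ le_rfl, Nat.sub_self]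
  rfl

private lemma sdb_back (a : Pt × Pt) (t : List Bool) : rv (le (rv (le a t)) (rev t)) = a := by
  have h1 : le (rv (le a t)) (rev t) = rv a := by
    unfold le
    rw [rev_length]
    have e1 := vx_rev0 (p := a) t t.length (by omega)
    have e2 := dx_rev0 (p := a) t t.length le_rfl
    unfold le at e1 e2
    rw [e1, e2, Nat.sub_self]
    have e3 : t.length + 1 - t.length = 1 := by omega
    rw [e3]
    rfl
  rw [h1, sdb_rv]

private lemma sdb_de {q : Pt × Pt} (h : De q) : De (rv q) := by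
  obtain ⟨h1, h2, h3⟩ := h
  refine ⟨neg_mem_dirs h1, h3, ?_⟩
  show Vt (q.1 + q.2 + -q.2)
  rw [add_neg_cancel_right]
  exact h2

private lemma sdb_wt (t : List Bool) : (wt (rev t)).re = (wt t).re := by
  rw [wt_re, wt_re, rev_length, wind_rev]
  push_cast
  rw [neg_mul, Real.cos_neg]

open Classical in
/-- walks through v from the boundary and sticks to v. -/
theorem hit_vertex {Ω : Finset Pt} (hΩ : Full Ω) {v : Pt} (hv : v ∈ Ω) {a : Pt × Pt} (ha : a ∈ bd Ω) :
    ∑ t ∈ (ex0 Ω a).filter (Hit {v} a), wt t = ∑ t ∈ (ex0 (Ω.erase v) a).filter (fun t => tp a t = v), wt t := by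
  rw [sdb_bd] at ha
  have h1 : SS Ω a = 1 := start_one hΩ (le_refl _) ha.2.1 ha.2.2
  have h2 : SS (Ω.erase v) a = 1 := start_one hΩ (Finset.erase_subset _ _) ha.2.1 ha.2.2
  have h3 : (ex0 Ω a).filter (fun t => ¬ Hit {v} a t) = (ex0 (Ω.erase v) a).filter (fun t => ¬ tp a t = v) := by
    ext t
    rw [Finset.mem_filter, Finset.mem_filter, sdb_ex0, sdb_ex0]
    constructor
    · rintro ⟨⟨h4, h5⟩, h6⟩
      have h7 : ∀ i, 1 ≤ i → i ≤ t.length → vx a.1 a.2 t i ≠ v := by
        intro i hi1 hi2 hi3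
        exact h6 ⟨i, hi1, hi2, by rw [hi3]; exact Finset.mem_singleton_self v⟩
      refine ⟨⟨⟨fun i hi1 hi2 => Finset.mem_erase.2 ⟨h7 i hi1 hi2, h4.mem i hi1 hi2⟩, h4.inj⟩, ?_⟩, ?_⟩
      · exact fun h8 => h5 (Finset.mem_of_mem_erase h8)
      · intro h8
        rw [h8] at h5
        exact h5 hv
    · rintro ⟨⟨h4, h5⟩, h6⟩
      refine ⟨⟨⟨fun i hi1 hi2 => Finset.mem_of_mem_erase (h4.mem i hi1 hi2), h4.inj⟩, ?_⟩, ?_⟩
      · exact fun h8 => h5 (Finset.mem_erase.2 ⟨h6, h8⟩)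
      · rintro ⟨i, hi1, hi2, h7⟩
        rw [Finset.mem_singleton] at h7
        exact (Finset.mem_erase.1 (h4.mem i hi1 hi2)).1 h7
  unfold SS at h1 h2
  rw [← Finset.sum_filter_add_sum_filter_not _ (Hit {v} a)] at h1
  rw [← Finset.sum_filter_add_sum_filter_not _ (fun t => tp a t = v), ← h3] at h2
  linear_combination h1 - h2

open Classical in
/-- reversal of the sticks to v. -/
theorem rev_vertex {Ω : Finset Pt} {v : Pt} (hv : v ∈ Ω) :
    ∑ a ∈ bd Ω, ∑ t ∈ (ex0 (Ω.erase v) a).filter (fun t => tp a t = v), (wt t).re =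
      ∑ d ∈ dirs.filter (fun d => De (v, d)), ∑ t ∈ exv Ω v (v, d), (wt t).re := by
  rw [Finset.sum_sigma', Finset.sum_sigma']
  refine Finset.sum_nbij' (fun x => ⟨(rv (le x.1 x.2)).2, rev x.2⟩) (fun y => ⟨rv (le (v, y.1) y.2), rev y.2⟩)
    ?_ ?_ ?_ ?_ ?_
  · rintro ⟨a, t⟩ hx
    rw [Finset.mem_sigma] at hx
    obtain ⟨ha, ht⟩ := hx
    simp only at ha ht ⊢
    rw [sdb_bd] at ha
    rw [Finset.mem_filter, sdb_ex0] at ht
    obtain ⟨⟨h1, h2⟩, h3⟩ := ht
    have h4 : (rv (le a t)).1 = v := h3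
    have h5 : ((v, (rv (le a t)).2) : Pt × Pt) = rv (le a t) := by rw [← h4]
    have h6 : De (rv (le a t)) := sdb_de (de_vx ha.2.1 t t.length)
    rw [Finset.mem_sigma]
    simp only
    refine ⟨?_, ?_⟩
    · rw [Finset.mem_filter, h5]
      exact ⟨h6.1, h6⟩
    · unfold exv
      rw [Finset.mem_filter, sdb_ex0, h5, sdb_tp]
      refine ⟨⟨sdb_arr0 h1, ?_⟩, ?_⟩
      · exact fun h7 => ha.2.2 (Finset.mem_of_mem_erase h7)
      · intro h7
        exact ha.2.2 (h7 ▸ hv)
  · rintro ⟨d, s⟩ hy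
    rw [Finset.mem_sigma] at hy
    obtain ⟨hd, hs⟩ := hy
    simp only at hd hs ⊢
    rw [Finset.mem_filter] at hd
    unfold exv at hs
    rw [Finset.mem_filter, sdb_ex0] at hs
    obtain ⟨⟨h1, h2⟩, h3⟩ := hs
    rw [Finset.mem_sigma]
    simp only
    refine ⟨?_, ?_⟩
    · rw [sdb_bd]
      refine ⟨?_, sdb_de (de_vx hd.2 s s.length), ?_⟩
      · have h4 : (rv (le (v, d) s)).1 + (rv (le (v, d) s)).2 = vx v d s s.length := by
          show vx v d s s.length + dx d s s.length + -(dx d s s.length) = _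
          rw [add_neg_cancel_right]
        rw [h4]
        rcases Nat.eq_zero_or_pos s.length with h0 | h0
        · rw [h0]
          exact hv
        · exact Finset.mem_of_mem_erase (h1.mem _ h0 le_rfl)
      · intro h4
        exact h2 (Finset.mem_erase.2 ⟨h3, h4⟩)
    · rw [Finset.mem_filter, sdb_ex0, sdb_tp]
      refine ⟨⟨sdb_arr0 h1, ?_⟩, rfl⟩
      exact fun h4 => (Finset.mem_erase.1 h4).1 rfl
  · rintro ⟨a, t⟩ hx
    rw [Finset.mem_sigma] at hx
    obtain ⟨ha, ht⟩ := hx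
    simp only at ha ht ⊢
    rw [Finset.mem_filter] at ht
    have h4 : (rv (le a t)).1 = v := ht.2
    have h5 : ((v, (rv (le a t)).2) : Pt × Pt) = rv (le a t) := by rw [← h4]
    rw [h5, sdb_back, rev_rev]
  · rintro ⟨d, s⟩ hy
    simp only
    rw [sdb_back, rev_rev]
  · rintro ⟨a, t⟩ _
    simp only
    rw [sdb_wt]

open Classical in
/-- the walks through a vertex as walks from the vertex. -/
theorem HH_vertex {Ω : Finset Pt} (hΩ : Full Ω) {v : Pt} (hv : v ∈ Ω) :
    HH Ω {v} = ∑ d ∈ dirs.filter (fun d => De (v, d)), ∑ t ∈ exv Ω v (v, d), (wt t).re := by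
  rw [← rev_vertex hv]
  unfold HH
  apply Finset.sum_congr rfl
  intro a ha
  have h := congrArg Complex.re (hit_vertex hΩ hv ha)
  rw [Complex.re_sum, Complex.re_sum] at h
  rw [← h]
  apply Finset.sum_congr rfl
  intro t _
  rw [wt_re]

end LP

end HexObs
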