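import Pool.Agent.HexLoop.Defs
import Pool.Agent.HexObs.Sym

/-!
LOOP L10: reversal of the walks.
-/

set_option autoImplicit false

namespace HexObs

namespace LP

open Complex Finset

section L10

private lemma revw_sgn (b : Bool) : sgn (!b) = -sgn b := by
  cases b <;> simp [sgn]

private lemma revw_wind_not (t : List Bool) : wind (t.map not) = -wind t := by
  induction t with
  | nil => rfl
  | cons b t ih =>
    have h1 : ∀ (c : Bool) (s : List Bool), wind (c :: s) = sgn c + wind s := by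
      intro c s
      unfold wind
      rw [List.map_cons, List.sum_cons]
    rw [List.map_cons, h1, h1, ih, revw_sgn]
    ring

theorem wind_rev (t : List Bool) : wind (rev t) = -wind t := by
  rw [← revw_wind_not]
  unfold wind rev
  rw [List.map_reverse, List.sum_reverse]

private lemma revw_fst (p : Pt × Pt) (t : List Bool) : (rv (le p t)).1 = tip p.1 p.2 t := rfl

private lemma revw_snd (p : Pt × Pt) (t : List Bool) : (rv (le p t)).2 = -(dx p.2 t t.length) := rfl

/-- the reversed walk: its vertices and directions. -/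
theorem vx_rev0 {p : Pt × Pt} (t : List Bool) (i : ℕ) (hi : i ≤ t.length + 1) :
    vx (rv (le p t)).1 (rv (le p t)).2 (rev t) i = vx p.1 p.2 t (t.length + 1 - i) := by
  rw [revw_fst, revw_snd]
  exact vx_rev p.1 p.2 t i hi

theorem dx_rev0 {p : Pt × Pt} (t : List Bool) (i : ℕ) (hi : i ≤ t.length) :
    dx (rv (le p t)).2 (rev t) i = -dx p.2 t (t.length - i) := by
  rw [revw_snd]
  exact dx_rev p.2 t i hi

private lemma revw_rv (p : Pt × Pt) : rv (rv p) = p := by
  unfold rv
  simp only [neg_neg, add_neg_cancel_right]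

private lemma revw_cr (f : Pt) (q : Pt × Pt) : cr f (rv q) = -cr f q := by
  obtain ⟨⟨a, b⟩, ⟨c, d⟩⟩ := q
  obtain ⟨x, y⟩ := f
  unfold cr rv nn lv
  simp only [Prod.mk_add_mk, Prod.neg_mk, Prod.mk.injEq]
  split_ifs <;> omega

theorem NN_rev {f : Pt} {p : Pt × Pt} {t : List Bool} (h : ∀ i, i ≤ t.length → De (vx p.1 p.2 t i, dx p.2 t i)) :
    NN f (rv (le p t)) (rev t) = -NN f p t := by
  have _ := h
  unfold NN
  rw [rev_length, ← Finset.sum_neg_distrib, ← Finset.sum_range_reflect]
  apply Finset.sum_congr rfl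
  intro i hi
  rw [Finset.mem_range] at hi
  have e1 : t.length + 1 - 1 - i = t.length - i := by omega
  rw [e1, vx_rev0 t (t.length - i) (by omega), dx_rev0 t (t.length - i) (by omega), ← revw_cr]
  have e2 : t.length + 1 - (t.length - i) = i + 1 := by omega
  have e3 : t.length - (t.length - i) = i := by omega
  rw [e2, e3]
  rfl

private lemma revw_cl {d : Pt} (h : d ∈ dirs) : cl d = 1 ∨ cl d = 2 := by
  revert d
  decide

private lemma revw_z3 : ∀ a c : ZMod 3, a ≠ 1 → (c = 1 ∨ c = 2) → a + c ≠ 1 → a + c + -c ≠ 1 := by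
  decide

private lemma revw_step {v d : Pt} (h : De (v, d)) (b : Bool) : De (v + d, turn b d) := by
  obtain ⟨h1, h2, h3⟩ := h
  refine ⟨turn_mem h1 b, h3, ?_⟩
  unfold Vt at *
  simp only at *
  rw [cl_add, cl_add, cl_turn]
  rw [cl_add] at h3
  exact revw_z3 _ _ h2 (revw_cl h1) h3

/-- all edges of a walk are edges of the lattice. -/
theorem de_vx {p : Pt × Pt} (hp : De p) (t : List Bool) (i : ℕ) : De (vx p.1 p.2 t i, dx p.2 t i) := by
  induction i with
  | zero => exact hp
  | succ i ih => exact revw_step ih (tf t i)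

theorem Hit_rev {K : Finset Pt} {p : Pt × Pt} (t : List Bool) :
    Hit K (rv (le p t)) (rev t) ↔ Hit K p t := by
  unfold Hit
  rw [rev_length]
  constructor
  · rintro ⟨i, h1, h2, h3⟩
    rw [vx_rev0 t i (by omega)] at h3
    exact ⟨t.length + 1 - i, by omega, by omega, h3⟩
  · rintro ⟨i, h1, h2, h3⟩
    refine ⟨t.length + 1 - i, by omega, by omega, ?_⟩
    rw [vx_rev0 t _ (by omega)]
    have e : t.length + 1 - (t.length + 1 - i) = i := by omega
    rw [e]
    exact h3

private lemma revw_bd {Ω : Finset Pt} {a : Pt × Pt} : a ∈ bd Ω ↔ a.1 + a.2 ∈ Ω ∧ De a ∧ a.1 ∉ Ω := by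
  classical
  unfold bd
  rw [Finset.mem_filter, Finset.mem_image]
  constructor
  · rintro ⟨⟨q, hq, rfl⟩, h2⟩
    rw [Finset.mem_product] at hq
    refine ⟨?_, h2⟩
    show q.1 - q.2 + q.2 ∈ Ω
    rw [sub_add_cancel]
    exact hq.1
  · rintro ⟨h1, h2⟩
    refine ⟨⟨(a.1 + a.2, a.2), ?_, ?_⟩, h2⟩
    · rw [Finset.mem_product]
      exact ⟨h1, h2.1.1⟩
    · show (a.1 + a.2 - a.2, a.2) = a
      rw [add_sub_cancel_right]

private lemma revw_ex0 {Ω : Finset Pt} {a : Pt × Pt} {t : List Bool} :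
    t ∈ ex0 Ω a ↔ Arr0 Ω a t ∧ tp a t ∉ Ω := by
  unfold ex0
  rw [Finset.mem_filter, mem_arr0]

private lemma revw_arr0 {Ω : Finset Pt} {a : Pt × Pt} {t : List Bool} (h : Arr0 Ω a t) :
    Arr0 Ω (rv (le a t)) (rev t) := by
  constructor
  · intro i h1 h2
    rw [rev_length] at h2
    rw [vx_rev0 t i (by omega)]
    exact h.mem _ (by omega) (by omega)
  · intro i k h1 h2 h3
    rw [rev_length] at h3
    rw [vx_rev0 t i (by omega), vx_rev0 t k (by omega)]
    exact (h.inj _ _ (by omega) (by omega) (by omega)).symm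

private lemma revw_tp (a : Pt × Pt) (t : List Bool) : tp (rv (le a t)) (rev t) = a.1 := by
  unfold tp tip
  rw [rev_length, vx_rev0 t _ le_rfl, Nat.sub_self]
  rfl

private lemma revw_back (a : Pt × Pt) (t : List Bool) : rv (le (rv (le a t)) (rev t)) = a := by
  have h1 : le (rv (le a t)) (rev t) = rv a := by
    unfold le
    rw [rev_length]
    have e1 := vx_rev0 (p := a) t t.length (by omega)
    have e2 := dx_rev0 (p := a) t t.length le_rfl
    unfold le at e1 e2
    rw [e1, e2, Nat.sub_self]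
    have e3 : t.length + 1 - t.length = 1 := by omega
    rw [e3]
    rfl
  rw [h1, revw_rv]

private lemma revw_de {q : Pt × Pt} (h : De q) : De (rv q) := by
  obtain ⟨h1, h2, h3⟩ := h
  refine ⟨neg_mem_dirs h1, h3, ?_⟩
  show Vt (q.1 + q.2 + -q.2)
  rw [add_neg_cancel_right]
  exact h2

/-- reversal of the walks from the boundary to the boundary. -/
theorem rev_ex {Ω : Finset Pt} (hΩ : ∀ v ∈ Ω, Vt v) {α : Type} [AddCommMonoid α] (F : Pt × Pt → List Bool → α) :
    ∑ a ∈ bd Ω, ∑ t ∈ ex0 Ω a, F a t = ∑ a ∈ bd Ω, ∑ t ∈ ex0 Ω a, F (rv (le a t)) (rev t) := by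
  have _ := hΩ
  rw [Finset.sum_sigma', Finset.sum_sigma']
  have key : ∀ x ∈ (bd Ω).sigma (fun a => ex0 Ω a),
      (⟨rv (le x.1 x.2), rev x.2⟩ : (_ : Pt × Pt) × List Bool) ∈ (bd Ω).sigma (fun a => ex0 Ω a) := by
    rintro ⟨a, t⟩ hx
    rw [Finset.mem_sigma] at hx ⊢
    obtain ⟨ha, ht⟩ := hx
    simp only at ha ht ⊢
    rw [revw_bd] at ha
    rw [revw_ex0] at ht
    obtain ⟨ha1, ha2, ha3⟩ := ha
    obtain ⟨ht1, ht2⟩ := ht
    have hlen : 1 ≤ t.length := by
      by_contra hcon
      have h0 : t.length = 0 := by omega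
      apply ht2
      unfold tp tip
      rw [h0]
      exact ha1
    refine ⟨?_, ?_⟩
    · rw [revw_bd]
      refine ⟨?_, revw_de (de_vx ha2 t t.length), ht2⟩
      have h1 := ht1.mem t.length hlen le_rfl
      have h2 : (rv (le a t)).1 + (rv (le a t)).2 = vx a.1 a.2 t t.length := by
        show vx a.1 a.2 t t.length + dx a.2 t t.length + -(dx a.2 t t.length) = _
        rw [add_neg_cancel_right]
      rw [h2]
      exact h1
    · rw [revw_ex0]
      refine ⟨revw_arr0 ht1, ?_⟩
      rw [revw_tp]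
      exact ha3
  have hinv : ∀ x : (_ : Pt × Pt) × List Bool,
      (⟨rv (le (rv (le x.1 x.2)) (rev x.2)), rev (rev x.2)⟩ : (_ : Pt × Pt) × List Bool) = x := by
    rintro ⟨a, t⟩
    simp only
    rw [revw_back, rev_rev]
  refine Finset.sum_nbij' (fun x => ⟨rv (le x.1 x.2), rev x.2⟩) (fun x => ⟨rv (le x.1 x.2), rev x.2⟩)
    key key (fun x _ => hinv x) (fun x _ => hinv x) ?_
  rintro ⟨a, t⟩ -
  simp only
  rw [revw_back, rev_rev]

private lemma revw_wt (t : List Bool) : wt (rev t) = (starRingEnd ℂ) (wt t) := by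
  unfold wt
  rw [rev_length, wind_rev, map_mul, map_pow, Complex.conj_ofReal, ← Complex.exp_conj, map_mul, Complex.conj_ofReal,
    Complex.conj_I]
  congr 2
  push_cast
  ring

open Classical in
/-- reversal of the walks from the boundary to the directed edge p. -/
theorem rev_arr {Ω : Finset Pt} (hΩ : ∀ v ∈ Ω, Vt v) {p : Pt × Pt} (hp : De p) (h : p.1 ∈ Ω ∨ p.1 + p.2 ∈ Ω) :
    ∑ a ∈ bd Ω, ∑ t ∈ (arr0 Ω a).filter (fun t => le a t = p), wt t = (starRingEnd ℂ) (SS Ω (rv p)) := by
  have _ := hΩ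
  unfold SS
  rw [map_sum, Finset.sum_sigma']
  refine Finset.sum_nbij' (fun x => rev x.2) (fun s => ⟨rv (le (rv p) s), rev s⟩) ?_ ?_ ?_ ?_ ?_
  · rintro ⟨a, t⟩ hx
    rw [Finset.mem_sigma] at hx
    obtain ⟨ha, ht⟩ := hx
    simp only at ha ht ⊢
    rw [revw_bd] at ha
    rw [Finset.mem_filter, mem_arr0] at ht
    obtain ⟨ht1, ht2⟩ := ht
    rw [← ht2, revw_ex0]
    refine ⟨revw_arr0 ht1, ?_⟩
    rw [revw_tp]
    exact ha.2.2
  · intro s hs
    rw [revw_ex0] at hs
    obtain ⟨hs1, hs2⟩ := hs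
    rw [Finset.mem_sigma]
    refine ⟨?_, ?_⟩
    · rw [revw_bd]
      refine ⟨?_, revw_de (de_vx (revw_de hp) s s.length), hs2⟩
      have h2 : (rv (le (rv p) s)).1 + (rv (le (rv p) s)).2 = vx (rv p).1 (rv p).2 s s.length := by
        show vx (rv p).1 (rv p).2 s s.length + dx (rv p).2 s s.length + -(dx (rv p).2 s s.length) = _
        rw [add_neg_cancel_right]
      simp only
      rw [h2]
      rcases Nat.eq_zero_or_pos s.length with h0 | h0
      · rw [h0]
        show p.1 + p.2 ∈ Ω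
        rcases h with h | h
        · exfalso
          apply hs2
          unfold tp tip
          rw [h0]
          show p.1 + p.2 + -p.2 ∈ Ω
          rw [add_neg_cancel_right]
          exact h
        · exact h
      · exact hs1.mem _ h0 le_rfl
    · rw [Finset.mem_filter, mem_arr0]
      refine ⟨revw_arr0 hs1, ?_⟩
      have h3 := revw_back (rv p) s
      have h4 := congrArg rv h3
      rwa [revw_rv, revw_rv] at h4
  · rintro ⟨a, t⟩ hx
    rw [Finset.mem_sigma] at hx
    obtain ⟨ha, ht⟩ := hx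
    simp only at ha ht ⊢
    rw [Finset.mem_filter] at ht
    have h3 := revw_back a t
    rw [← ht.2, h3, rev_rev]
  · intro s _
    exact rev_rev s
  · rintro ⟨a, t⟩ _
    simp only
    rw [revw_wt, Complex.conj_conj]

end L10

end LP

end HexObs
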