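import Pool.Agent.HexLoop.Cnt0
import Pool.Agent.HexLoop.Wind

/-!
SD5: the point reflection in a face; polygons, words and the sums HH.
-/

set_option autoImplicit false

namespace HexObs

namespace LP

open Complex Finset

/-- the reflected polygon. -/
def RE (f : Pt) (E : Finset (Pt × Pt)) : Finset (Pt × Pt) := E.image (Re f)

lemma Rf_self (f : Pt) : Rf f f = f := by
  unfold Rf
  abel

lemma Rf_add (f v d : Pt) : Rf f (v + d) = Rf f v + -d := by
  unfold Rf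
  abel

lemma Rf_inj (f : Pt) : Function.Injective (Rf f) := by
  intro v w h
  rw [← Rf_Rf f v, h, Rf_Rf]

lemma cl_Rf (f v : Pt) : cl (Rf f v) = cl f + cl f - cl v := by
  unfold Rf cl
  simp only [Prod.fst_add, Prod.snd_add, Prod.fst_sub, Prod.snd_sub]
  push_cast
  ring

lemma Rf_Vt {f : Pt} (hf : Fc f) {v : Pt} : Vt (Rf f v) ↔ Vt v := by
  unfold Vt
  unfold Fc at hf
  rw [cl_Rf, hf]
  have h : ∀ c : ZMod 3, 1 + 1 - c ≠ 1 ↔ c ≠ 1 := by decide
  exact h _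

lemma Rf_Fc {f : Pt} (hf : Fc f) {v : Pt} : Fc (Rf f v) ↔ Fc v := by
  unfold Fc at *
  rw [cl_Rf, hf]
  have h : ∀ c : ZMod 3, 1 + 1 - c = 1 ↔ c = 1 := by decide
  exact h _

lemma Re_inj (f : Pt) : Function.Injective (Re f) := by
  intro v w h
  rw [← Re_Re f v, h, Re_Re]

lemma neg_dirs_iff {d : Pt} : -d ∈ dirs ↔ d ∈ dirs := by
  have h : ∀ d ∈ dirs, -d ∈ dirs := by decide
  constructor
  · intro h1
    have h2 := h _ h1
    rwa [neg_neg] at h2
  · exact h d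

lemma De_Re {f : Pt} (hf : Fc f) {p : Pt × Pt} : De (Re f p) ↔ De p := by
  unfold De Re
  simp only
  rw [neg_dirs_iff, Rf_Vt hf, ← Rf_add, Rf_Vt hf]

lemma rv_Re (f : Pt) (p : Pt × Pt) : rv (Re f p) = Re f (rv p) := by
  unfold rv Re
  simp only [Rf_add]

lemma ds_negR (d : Pt) (τ : ℕ → Bool) (i : ℕ) : ds (-d) τ i = -ds d τ i := by
  induction i with
  | zero => rfl
  | succ i ih => rw [ds_succ, ds_succ, ih, turn_neg]

lemma vs_Rf (f v d : Pt) (τ : ℕ → Bool) (i : ℕ) : vs (Rf f v) (-d) τ i = Rf f (vs v d τ i) := by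
  induction i with
  | zero => rfl
  | succ i ih => rw [vs_succ, vs_succ, ih, ds_negR, Rf_add]

lemma eg_Re (f v d : Pt) (τ : ℕ → Bool) (i : ℕ) : eg (Rf f v) (-d) τ i = Re f (eg v d τ i) := by
  unfold eg Re
  rw [vs_Rf, ds_negR]

lemma poly_Re {f : Pt} (hf : Fc f) {v d : Pt} {τ : ℕ → Bool} {m : ℕ} (h : Poly v d τ m) :
    Poly (Rf f v) (-d) τ m := by
  refine ⟨h.pos, ?_, h.per, ?_, ?_, ?_⟩
  · exact (De_Re (p := (v, d)) hf).2 h.de
  · rw [vs_Rf, h.clv]
  · rw [ds_negR, h.cld]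
  · intro i k h1 h2
    rw [vs_Rf, vs_Rf]
    exact fun e => h.inj i k h1 h2 (Rf_inj f e)

lemma pe_Re (f v d : Pt) (τ : ℕ → Bool) (m : ℕ) : pe (Rf f v) (-d) τ m = RE f (pe v d τ m) := by
  unfold RE pe
  rw [Finset.image_image]
  apply Finset.image_congr
  intro i _
  exact eg_Re f v d τ i

theorem isPoly_RE {f : Pt} (hf : Fc f) {E : Finset (Pt × Pt)} (hE : IsPoly E) : IsPoly (RE f E) := by
  obtain ⟨v, d, τ, m, h, rfl⟩ := hE
  exact ⟨Rf f v, -d, τ, m, poly_Re hf h, (pe_Re f v d τ m).symm⟩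

theorem mem_RE {f : Pt} {E : Finset (Pt × Pt)} {p : Pt × Pt} : p ∈ RE f E ↔ Re f p ∈ E := by
  unfold RE
  rw [Finset.mem_image]
  constructor
  · rintro ⟨q, hq, rfl⟩
    rwa [Re_Re]
  · intro h
    exact ⟨_, h, Re_Re f p⟩

theorem RE_RE (f : Pt) (E : Finset (Pt × Pt)) : RE f (RE f E) = E := by
  ext p
  rw [mem_RE, mem_RE, Re_Re]

theorem card_RE (f : Pt) (E : Finset (Pt × Pt)) : (RE f E).card = E.card :=
  Finset.card_image_of_injective _ (Re_inj f)

theorem VE_RE (f : Pt) (E : Finset (Pt × Pt)) : VE (RE f E) = (VE E).image (Rf f) := by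
  unfold VE RE
  rw [Finset.image_image, Finset.image_image]
  rfl

theorem mem_VE_RE {f : Pt} {E : Finset (Pt × Pt)} {v : Pt} : v ∈ VE (RE f E) ↔ Rf f v ∈ VE E := by
  rw [VE_RE, Finset.mem_image]
  constructor
  · rintro ⟨w, hw, rfl⟩
    rwa [Rf_Rf]
  · intro h
    exact ⟨_, h, Rf_Rf f v⟩

/-- the edge crossed by the ray from the face g -/
lemma rf_ray {g : Pt} (hg : Fc g) : De (g + (-1, 0), (1, -1)) ∧ Fc (g + (-1, -1)) ∧
    (g + (-1, 0)) + rotL (1, -1) = g ∧ (g + (-1, 0)) + rotR (1, -1) = g + (-1, -1) := by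
  unfold Fc at hg
  refine ⟨⟨?_, ?_, ?_⟩, ?_, ?_, ?_⟩
  · show ((1, -1) : Pt) ∈ dirs
    decide +kernel
  · unfold Vt
    rw [cl_add, hg]
    decide +kernel
  · show cl (g + (-1, 0) + (1, -1)) ≠ 1
    rw [cl_add, cl_add, hg]
    decide +kernel
  · unfold Fc
    rw [cl_add, hg]
    decide +kernel
  · simp only [rotL]
    ext <;> simp
  · simp only [rotR]
    ext <;> simp

private lemma re_left (f : Pt) (p : Pt × Pt) : (Re f p).1 + rotL (Re f p).2 = Rf f (p.1 + rotL p.2) ∧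
    (Re f p).1 + rotR (Re f p).2 = Rf f (p.1 + rotR p.2) := by
  have h1 := turn_neg true p.2
  have h2 := turn_neg false p.2
  simp only [turn, if_true, Bool.false_eq_true, if_false] at h1 h2
  rw [Rf_add, Rf_add]
  unfold Re
  simp only
  rw [h1, h2]
  exact ⟨rfl, rfl⟩

private lemma Nw_RE_aux {f : Pt} (hf : Fc f) {E : Finset (Pt × Pt)} (hE : IsPoly E) (L : ℤ)
    (hL : ∀ w ∈ VE E, L < lv w) (n : ℕ) : ∀ g, Fc g → lv g ≤ L + 3 * n → Nw (RE f E) (Rf f g) = Nw E g := by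
  induction n with
  | zero =>
    intro g _ h
    have h1 : Nw E g = 0 := by
      apply Nw_low
      intro v hv
      have := hL v hv
      push_cast at h
      omega
    rw [h1]
    apply Nw_high (isPoly_RE hf hE)
    intro v hv
    rw [mem_VE_RE] at hv
    have h2 := hL _ hv
    rw [lv_Rf] at h2
    rw [lv_Rf]
    push_cast at h
    omega
  | succ n ih =>
    intro g hg h
    obtain ⟨h1, h2, h3, h4⟩ := rf_ray hg
    have h5 := ih (g + (-1, -1)) h2 (by
      unfold lv at h ⊢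
      push_cast at h
      simp only [Prod.fst_add, Prod.snd_add]
      omega)
    have h6 := Nw_edge hE h1
    have h7 := Nw_edge (isPoly_RE hf hE) ((De_Re hf).2 h1)
    rw [(re_left f _).1, (re_left f _).2, rv_Re] at h7
    simp only [mem_RE, Re_Re] at h6 h7
    rw [h3, h4] at h6 h7
    omega

theorem Nw_RE {f : Pt} (hf : Fc f) {E : Finset (Pt × Pt)} (hE : IsPoly E) {g : Pt} (hg : Fc g) :
    Nw (RE f E) (Rf f g) = Nw E g := by
  obtain ⟨L, hL⟩ : ∃ L : ℤ, ∀ w ∈ VE E, L < lv w := by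
    obtain ⟨L, hL⟩ := ((VE E).image lv).bddBelow
    refine ⟨L - 1, fun w hw => ?_⟩
    have h1 : L ≤ lv w := hL (by
      rw [Finset.coe_image]
      exact Set.mem_image_of_mem _ hw)
    omega
  apply Nw_RE_aux hf hE L hL (Int.toNat (lv g - L)) g hg
  have : lv g - L ≤ (Int.toNat (lv g - L) : ℤ) := Int.self_le_toNat _
  omega

theorem Nw_RE_self {f : Pt} (hf : Fc f) {E : Finset (Pt × Pt)} (hE : IsPoly E) : Nw (RE f E) f = Nw E f := by
  have h := Nw_RE hf hE hf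
  rwa [Rf_self] at h

theorem ins_RE {f : Pt} (hf : Fc f) {E : Finset (Pt × Pt)} (hE : IsPoly E) {v : Pt} :
    Ins (RE f E) (Rf f v) ↔ Ins E v := by
  have key : ∀ E : Finset (Pt × Pt), IsPoly E → ∀ v, Ins E v → Ins (RE f E) (Rf f v) := by
    rintro E hE v ⟨h1, h2, d, hd, h3, h4⟩
    refine ⟨(Rf_Vt hf).2 h1, ?_, -d, neg_dirs_iff.2 hd, ?_, ?_⟩
    · rw [mem_VE_RE, Rf_Rf]
      exact h2
    · rw [← Rf_add]
      exact (Rf_Fc hf).2 h3
    · rw [← Rf_add, Nw_RE hf hE h3]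
      exact h4
  constructor
  · intro h
    have h1 := key _ (isPoly_RE hf hE) _ h
    rwa [RE_RE, Rf_Rf] at h1
  · exact key E hE v

/-! words -/

lemma vx_Rf (f v d : Pt) (t : List Bool) (i : ℕ) : vx (Rf f v) (-d) t i = Rf f (vx v d t i) := vs_Rf f v d (tf t) i

lemma dx_Rf (d : Pt) (t : List Bool) (i : ℕ) : dx (-d) t i = -dx d t i := ds_negR d (tf t) i

lemma mem_Rf_image {f : Pt} {Ω : Finset Pt} {v : Pt} : v ∈ Ω.image (Rf f) ↔ Rf f v ∈ Ω := by
  rw [Finset.mem_image]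
  constructor
  · rintro ⟨w, hw, rfl⟩
    rwa [Rf_Rf]
  · intro h
    exact ⟨_, h, Rf_Rf f v⟩

lemma Rf_image_self {f : Pt} {Ω : Finset Pt} (h : ∀ v ∈ Ω, Rf f v ∈ Ω) : Ω.image (Rf f) = Ω := by
  ext v
  rw [mem_Rf_image]
  constructor
  · intro h1
    have h2 := h _ h1
    rwa [Rf_Rf] at h2
  · exact h v

lemma arr0_Re {f : Pt} {Ω : Finset Pt} {p : Pt × Pt} {t : List Bool} :
    Arr0 (Ω.image (Rf f)) (Re f p) t ↔ Arr0 Ω p t := by
  constructor
  · intro h
    refine ⟨fun i h1 h2 => ?_, fun i k h1 h2 h3 => ?_⟩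
    · have h4 := h.mem i h1 h2
      unfold Re at h4
      simp only at h4
      rwa [vx_Rf, mem_Rf_image, Rf_Rf] at h4
    · have h4 := h.inj i k h1 h2 h3
      unfold Re at h4
      simp only at h4
      rw [vx_Rf, vx_Rf] at h4
      exact fun e => h4 (by rw [e])
  · intro h
    refine ⟨fun i h1 h2 => ?_, fun i k h1 h2 h3 => ?_⟩
    · unfold Re
      simp only
      rw [vx_Rf, mem_Rf_image, Rf_Rf]
      exact h.mem i h1 h2
    · unfold Re
      simp only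
      rw [vx_Rf, vx_Rf]
      exact fun e => h.inj i k h1 h2 h3 (Rf_inj f e)

lemma tp_Re (f : Pt) (p : Pt × Pt) (t : List Bool) : tp (Re f p) t = Rf f (tp p t) := by
  unfold tp tip Re
  simp only
  rw [vx_Rf]

lemma hit_img {f : Pt} {K : Finset Pt} {p : Pt × Pt} {t : List Bool} :
    Hit (K.image (Rf f)) (Re f p) t ↔ Hit K p t := by
  unfold Hit Re
  simp only [vx_Rf, mem_Rf_image, Rf_Rf]

theorem ex0_img {f : Pt} {Ω : Finset Pt} {p : Pt × Pt} : ex0 (Ω.image (Rf f)) (Re f p) = ex0 Ω p := by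
  ext t
  unfold ex0
  rw [Finset.mem_filter, Finset.mem_filter, mem_arr0, mem_arr0, arr0_Re, tp_Re, mem_Rf_image, Rf_Rf]

theorem bd_Re {f : Pt} (hf : Fc f) (Ω : Finset Pt) : bd (Ω.image (Rf f)) = (bd Ω).image (Re f) := by
  ext a
  rw [Finset.mem_image, mem_bd]
  constructor
  · rintro ⟨h1, h2, h3⟩
    refine ⟨Re f a, ?_, Re_Re f a⟩
    rw [mem_bd, De_Re hf]
    rw [mem_Rf_image] at h1 h3
    refine ⟨?_, h2, h3⟩
    rw [Rf_add] at h1
    exact h1
  · rintro ⟨b, hb, rfl⟩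
    rw [mem_bd] at hb
    obtain ⟨h1, h2, h3⟩ := hb
    refine ⟨?_, (De_Re hf).2 h2, ?_⟩
    · rw [mem_Rf_image, Rf_add]
      show Rf f (Rf f b.1) + - -b.2 ∈ Ω
      rw [Rf_Rf, neg_neg]
      exact h1
    · rw [mem_Rf_image]
      show Rf f (Rf f b.1) ∉ Ω
      rw [Rf_Rf]
      exact h3

theorem HH_Re {f : Pt} (hf : Fc f) (Ω K : Finset Pt) : HH (Ω.image (Rf f)) (K.image (Rf f)) = HH Ω K := by
  classical
  unfold HH
  rw [bd_Re hf, Finset.sum_image (fun a _ b _ h => Re_inj f h)]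
  apply Finset.sum_congr rfl
  intro a _
  apply Finset.sum_congr
  · ext t
    rw [Finset.mem_filter, Finset.mem_filter, ex0_img, hit_img]
  · intro t _
    rfl

theorem HH_Re_self {f : Pt} (hf : Fc f) {Ω : Finset Pt} (h : ∀ v ∈ Ω, Rf f v ∈ Ω) (K : Finset Pt) :
    HH Ω (K.image (Rf f)) = HH Ω K := by
  have h1 := HH_Re hf Ω K
  rwa [Rf_image_self h] at h1

/-- the interior of a polygon and of its image. -/
theorem polys_RE {f : Pt} (hf : Fc f) {Ω : Finset Pt} {E : Finset (Pt × Pt)} (hE : IsPoly E) (h : VE E ⊆ Ω) :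
    IsPoly (RE f E) ∧ VE (RE f E) ⊆ Ω.image (Rf f) := by
  refine ⟨isPoly_RE hf hE, ?_⟩
  rw [VE_RE]
  exact Finset.image_subset_image h

/-- the image of a full domain is full. -/
theorem full_Re {f : Pt} (hf : Fc f) {Ω : Finset Pt} (h : Full Ω) : Full (Ω.image (Rf f)) := by
  refine ⟨?_, ?_⟩
  · intro v hv
    rw [mem_Rf_image] at hv
    exact (Rf_Vt hf).1 (h.1 _ hv)
  · intro E hE hs v hv
    rw [mem_Rf_image]
    apply h.2 (RE f E) (isPoly_RE hf hE)
    · intro w hw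
      rw [mem_VE_RE] at hw
      have h1 := hs hw
      rw [mem_Rf_image, Rf_Rf] at h1
      exact h1
    · exact (ins_RE hf hE).2 hv

end LP

end HexObs
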