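import Pool.Agent.HexLoop.Bulk
import Pool.Agent.HexLoop.Refl

/-!
SD5: the sums HH are monotone and subadditive if all windings are at most 240 degrees.
-/

set_option autoImplicit false

namespace HexObs

namespace LP

open Complex Finset

/-- all crossings turn by at most 240 degrees. -/
def WB (Ω : Finset Pt) : Prop := ∀ a ∈ bd Ω, ∀ t ∈ ex0 Ω a, |wind t| ≤ 4

lemma cw_re (t : List Bool) : (wt t).re = cw t := by
  unfold wt cw
  rw [← Complex.ofReal_pow, Complex.re_mul_ofReal, Complex.exp_ofReal_mul_I_re]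

lemma cw_nn4 {t : List Bool} (h : |wind t| ≤ 4) : 0 ≤ cw t := by
  unfold cw
  apply mul_nonneg _ (pow_nonneg xc_pos.le _)
  have h1 : |(wind t : ℝ)| ≤ 4 := by exact_mod_cast h
  rw [abs_le] at h1
  have hp := Real.pi_pos
  apply Real.cos_nonneg_of_neg_pi_div_two_le_of_le
  · nlinarith [h1.1]
  · nlinarith [h1.2]

theorem start_re {Ω : Finset Pt} (hΩ : Full Ω) {a : Pt × Pt} (ha : a ∈ bd Ω) : ∑ t ∈ ex0 Ω a, cw t = 1 := by
  rw [mem_bd] at ha
  have h := start_one hΩ (Finset.Subset.refl Ω) ha.2.1 ha.2.2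
  unfold SS at h
  have h1 := congrArg Complex.re h
  rw [Complex.re_sum, Complex.one_re] at h1
  rw [← h1]
  exact Finset.sum_congr rfl (fun t _ => (cw_re t).symm)

open Classical in
lemma HH_def (Ω K : Finset Pt) : HH Ω K = ∑ a ∈ bd Ω, ∑ t ∈ (ex0 Ω a).filter (Hit K a), cw t := by
  unfold HH
  apply Finset.sum_congr rfl
  intro a _
  apply Finset.sum_congr
  · ext t
    rw [Finset.mem_filter]
  · intro t _
    rfl

open Classical in
/-- the sum over the crossings that avoid K. -/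
theorem HH_avoid {Ω : Finset Pt} (hΩ : Full Ω) (K : Finset Pt) :
    HH Ω K = (bd Ω).card - ∑ a ∈ bd Ω, ∑ t ∈ (ex0 Ω a).filter (fun t => ¬ Hit K a t), cw t := by
  rw [HH_def, eq_sub_iff_add_eq, ← Finset.sum_add_distrib, Finset.card_eq_sum_ones]
  push_cast
  apply Finset.sum_congr rfl
  intro a ha
  rw [Finset.sum_filter_add_sum_filter_not, start_re hΩ ha]

lemma Hit.mono {K K' : Finset Pt} (h : K ⊆ K') {a : Pt × Pt} {t : List Bool} (ht : Hit K a t) : Hit K' a t := by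
  obtain ⟨i, h1, h2, h3⟩ := ht
  exact ⟨i, h1, h2, h h3⟩

theorem HH_mono {Ω : Finset Pt} (hw : WB Ω) {K K' : Finset Pt} (h : K ⊆ K') : HH Ω K ≤ HH Ω K' := by
  classical
  rw [HH_def, HH_def]
  apply Finset.sum_le_sum
  intro a ha
  apply Finset.sum_le_sum_of_subset_of_nonneg
  · intro t ht
    rw [Finset.mem_filter] at ht ⊢
    exact ⟨ht.1, ht.2.mono h⟩
  · intro t ht _
    exact cw_nn4 (hw a ha t (Finset.mem_filter.1 ht).1)

theorem HH_nonneg' {Ω : Finset Pt} (hw : WB Ω) (K : Finset Pt) : 0 ≤ HH Ω K := by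
  classical
  rw [HH_def]
  apply Finset.sum_nonneg
  intro a ha
  apply Finset.sum_nonneg
  intro t ht
  exact cw_nn4 (hw a ha t (Finset.mem_filter.1 ht).1)

theorem HH_union {Ω : Finset Pt} (hw : WB Ω) (K K' : Finset Pt) : HH Ω (K ∪ K') ≤ HH Ω K + HH Ω K' := by
  classical
  rw [HH_def, HH_def, HH_def, ← Finset.sum_add_distrib]
  apply Finset.sum_le_sum
  intro a ha
  rw [← Finset.sum_union_inter]
  have h1 : (ex0 Ω a).filter (Hit (K ∪ K') a) ⊆ (ex0 Ω a).filter (Hit K a) ∪ (ex0 Ω a).filter (Hit K' a) := by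
    intro t ht
    rw [Finset.mem_filter] at ht
    obtain ⟨h2, i, h3, h4, h5⟩ := ht
    rw [Finset.mem_union, Finset.mem_filter, Finset.mem_filter]
    rcases Finset.mem_union.1 h5 with h6 | h6
    · exact Or.inl ⟨h2, i, h3, h4, h6⟩
    · exact Or.inr ⟨h2, i, h3, h4, h6⟩
  have h2 : ∀ t ∈ ex0 Ω a, 0 ≤ cw t := fun t ht => cw_nn4 (hw a ha t ht)
  have h3 : ∑ t ∈ (ex0 Ω a).filter (Hit (K ∪ K') a), cw t ≤
      ∑ t ∈ (ex0 Ω a).filter (Hit K a) ∪ (ex0 Ω a).filter (Hit K' a), cw t := by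
    apply Finset.sum_le_sum_of_subset_of_nonneg h1
    intro t ht _
    rcases Finset.mem_union.1 ht with h4 | h4
    · exact h2 t (Finset.mem_filter.1 h4).1
    · exact h2 t (Finset.mem_filter.1 h4).1
  have h4 : 0 ≤ ∑ t ∈ (ex0 Ω a).filter (Hit K a) ∩ (ex0 Ω a).filter (Hit K' a), cw t := by
    apply Finset.sum_nonneg
    intro t ht
    exact h2 t (Finset.mem_filter.1 (Finset.mem_inter.1 ht).1).1
  linarith

end LP

end HexObs
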