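import Pool.Agent.HexLoop.Area
import Pool.Agent.Tight.Touch2

/-!
LOOP, module L20: the limit curves of the half plane walk have zero area.
-/

set_option autoImplicit false

namespace HexObs

open Finset MeasureTheory Filter Topology

open scoped ENNReal

namespace Touch

/-- the word, from the foot k, meets the box of size s around z. -/
def HB (z : Pt) (s : ℕ) (k : ℤ) : Set (List Bool) :=
  {t | ∃ i, 1 ≤ i ∧ i ≤ t.length ∧ LP.Bx z s (vx (LP.ft k).1 up t i)}

lemma hb_lev {k : ℤ} {t : List Bool} {i : ℕ} : LP.lv (vx (LP.ft k).1 up t i) = lev t i := by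
  rw [LP.hit_vx, LP.hit_lv_add, LP.lv_ft, zero_add]
  show (vx oo up t i).1 + 2 * (vx oo up t i).2 = ip (vx oo up t i) up
  unfold ip up
  ring

lemma uu_eq_BT (i : ℕ) : gf (Brd i) = ENNReal.ofReal (uu i) := by
  rw [gf_Brd]
  unfold uu
  rw [ENNReal.ofReal_toReal]
  rcases Nat.eq_zero_or_pos i with rfl | h
  · rw [← gf_Brd, Brd_zero]
    unfold gf
    rw [tsum_singleton (f := wE)]
    unfold wE
    simp
  · exact ne_top_of_le_ne_top ENNReal.one_ne_top (BT_le_one h)

lemma CW_nn : 0 < CW := by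
  have hs : 0 < Real.sqrt 2 - 1 := by
    have : 1 < Real.sqrt 2 := by
      rw [show (1 : ℝ) = Real.sqrt 1 from Real.sqrt_one.symm]
      exact Real.sqrt_lt_sqrt (by norm_num) (by norm_num)
    linarith
  unfold CW
  positivity

lemma UU_big {A T : ℕ} (hT : 1 ≤ T) : UU (A * T + T) ≤ (6 + CW + A) * (T * uu T) := by
  have h1 : UU (A * T + T) = UU T + ∑ i ∈ range (A * T), uu (T + 1 + i) := by
    unfold UU
    rw [show A * T + T + 1 = (T + 1) + A * T by omega, Finset.sum_range_add]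
  have h2 : ∑ i ∈ range (A * T), uu (T + 1 + i) ≤ A * T * uu T := by
    calc ∑ i ∈ range (A * T), uu (T + 1 + i) ≤ ∑ i ∈ range (A * T), uu T :=
          Finset.sum_le_sum (fun i _ => uu_anti (by omega))
      _ = A * T * uu T := by
          rw [Finset.sum_const, card_range, nsmul_eq_mul]
          push_cast
          ring
  have h3 := UU_le_mul hT
  rw [h1]
  nlinarith

/-- the half plane walk up to its first cut above T hits the box. -/
lemma fc_hit (η : ℝ) (hη : 0 < η) (A : ℕ) : ∃ (C : ℝ) (M : ℕ), 0 < C ∧ 1 ≤ M ∧ ∀ (T s : ℕ) (z : Pt), 1 ≤ s →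
    M * s < T → 6 * s ≤ T → cl z = 0 → 3 * η * T ≤ LP.lv z →
    ∑' k : ℤ, ∑ j ∈ Icc T (A * T), gf (FC T j ∩ HB z s k) ≤ ENNReal.ofReal (C * T / Real.log (T / (M * s))) := by
  obtain ⟨η', hη'⟩ : ∃ η' : ℝ, η' = min (1 / (3 * ((A : ℝ) + 1))) (η / (A + 1)) := ⟨_, rfl⟩
  have hA0 : (0 : ℝ) < (A : ℝ) + 1 := by positivity
  have h0 : 0 < η' := by
    rw [hη']
    exact lt_min (by positivity) (by positivity)
  have h1 : η' * (A + 1) ≤ 1 / 3 := by
    have := min_le_left (1 / (3 * ((A : ℝ) + 1))) (η / (A + 1))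
    rw [← hη', le_div_iff₀ (by positivity)] at this
    linarith
  have h2 : η' * (A + 1) ≤ η := by
    have := min_le_right (1 / (3 * ((A : ℝ) + 1))) (η / (A + 1))
    rwa [← hη', le_div_iff₀ hA0] at this
  obtain ⟨C, M, hC, hM, hhit⟩ := LP.hit_le η' h0
  have hCW := CW_nn
  refine ⟨2 * C * (A + 1) * (6 + CW + A), M, by positivity, hM, ?_⟩
  intro T s z hs hMs hs6 hz hlv
  have hT : 1 ≤ T := by omega
  have hT0 : (0 : ℝ) < T := by exact_mod_cast hT
  have hMs' : (M * s : ℝ) < T := by exact_mod_cast hMs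
  have hMs0 : (0 : ℝ) < M * s := by
    have : 0 < M * s := Nat.mul_pos hM hs
    exact_mod_cast this
  have hlog : 0 < Real.log (T / (M * s)) := Real.log_pos (by rw [lt_div_iff₀ hMs0]; linarith)
  have hs6' : (6 * s : ℝ) ≤ T := by exact_mod_cast hs6
  set Q : Set (List Bool) := {u | ∃ i, T < 2 * i ∧ u ∈ Brd i} with hQ
  set P : ℕ → ℤ → Set (List Bool) := fun N k => {g | g ∈ Brd N ∧ ∃ j a u, j ≤ A * T ∧ j ≤ N ∧ a ∈ FC T j ∧
    a ∈ HB z s k ∧ u ∈ Brd (N - j) ∧ u ∈ Q ∧ g = a ++ u} with hP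
  have hN : ∀ N ∈ range (A * T + T + 1), ∑' k : ℤ, gf (P N k) ≤
      ENNReal.ofReal (C * ((A + 1) * T) * uu N / Real.log (T / (M * s))) := by
    intro N hN
    rw [mem_range] at hN
    have hNR : (N : ℝ) ≤ (A + 1) * T := by
      have : N ≤ A * T + T := by omega
      have : (N : ℝ) ≤ A * T + T := by exact_mod_cast this
      linarith
    have hNN : (0 : ℝ) ≤ N := Nat.cast_nonneg N
    have huN := uu_pos N
    apply CC.tsum_hit
    intro X hX
    rcases Finset.eq_empty_or_nonempty X with rfl | ⟨x0, hx0⟩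
    · rw [Finset.sum_empty]
      positivity
    · -- the height
      obtain ⟨-, j, a, u, b1, b2, b3, ⟨i, i1, i2, i3⟩, b5, ⟨i', b6, b6'⟩, -⟩ := hX x0 hx0
      have hTj : T ≤ j := b3.2.1
      have hTN : T ≤ N := hTj.trans b2
      have hii : i' = N - j := Brd_height b6' b5
      have h4 := LP.hit_box i3
      rw [hb_lev] at h4
      have h5 : lev a i ≤ 3 * j := ((mem_Brd.1 b3.1).1 i i1 i2).2
      have h6 : (LP.lv z : ℝ) ≤ 3 * j + 3 * s := by
        have h7 : LP.lv z ≤ 3 * j + 3 * s := by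
          have := (abs_le.1 h4.1).1
          omega
        exact_mod_cast h7
      have h7 : (T : ℝ) + 2 * j ≤ 2 * N := by
        have : T + 2 * j ≤ 2 * N := by omega
        exact_mod_cast this
      have h8 : η' * N ≤ 1 / 3 * T := by
        calc η' * N ≤ η' * ((A + 1) * T) := mul_le_mul_of_nonneg_left hNR h0.le
          _ = η' * (A + 1) * T := by ring
          _ ≤ _ := mul_le_mul_of_nonneg_right h1 hT0.le
      have h9 : η' * N ≤ η * T := by
        calc η' * N ≤ η' * ((A + 1) * T) := mul_le_mul_of_nonneg_left hNR h0.le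
          _ = η' * (A + 1) * T := by ring
          _ ≤ _ := mul_le_mul_of_nonneg_right h2 hT0.le
      have hTN' : (T : ℝ) ≤ N := by exact_mod_cast hTN
      have h10 := hhit N s z hs (hMs.le.trans hTN) hz (by linarith) (by linarith) X (by
        intro x hx
        obtain ⟨a1, j, a, u, b1, b2, b3, ⟨i, i1, i2, i3⟩, b5, b6, b7⟩ := hX x hx
        refine ⟨a1, i, i1, ?_, ?_⟩
        · rw [b7, List.length_append]
          omega
        · rw [b7, vx_append (by omega)]
          exact i3)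
      have h11 : Real.log (T / (M * s)) ≤ Real.log (N / (M * s)) := by
        apply Real.log_le_log (by positivity)
        gcongr
      rw [le_div_iff₀ hlog]
      have h12 : 0 ≤ ∑ x ∈ X, xc ^ x.2.length := Finset.sum_nonneg (fun x _ => (pow_pos xc_pos _).le)
      calc (∑ x ∈ X, xc ^ x.2.length) * Real.log (T / (M * s)) ≤
            (∑ x ∈ X, xc ^ x.2.length) * Real.log (N / (M * s)) := mul_le_mul_of_nonneg_left h11 h12
        _ ≤ C * N * uu N := h10
        _ ≤ C * ((A + 1) * T) * uu N := by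
            apply mul_le_mul_of_nonneg_right _ huN.le
            exact mul_le_mul_of_nonneg_left hNR hC.le
  -- appending bridges
  have hap : (∑' k : ℤ, ∑ j ∈ Icc T (A * T), gf (FC T j ∩ HB z s k)) * (∑ i ∈ range (T + 1), gf (Brd i ∩ Q)) ≤
      ENNReal.ofReal (C * ((A + 1) * T) * UU (A * T + T) / Real.log (T / (M * s))) := by
    rw [← ENNReal.tsum_mul_right]
    calc ∑' k : ℤ, (∑ j ∈ Icc T (A * T), gf (FC T j ∩ HB z s k)) * (∑ i ∈ range (T + 1), gf (Brd i ∩ Q))
        ≤ ∑' k : ℤ, ∑ N ∈ range (A * T + T + 1), gf (P N k) :=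
          ENNReal.tsum_le_tsum (fun k => tk_append (HB z s k) Q T (A * T))
      _ = ∑ N ∈ range (A * T + T + 1), ∑' k : ℤ, gf (P N k) :=
          Summable.tsum_finsetSum (fun _ _ => ENNReal.summable)
      _ ≤ ∑ N ∈ range (A * T + T + 1), ENNReal.ofReal (C * ((A + 1) * T) * uu N / Real.log (T / (M * s))) :=
          Finset.sum_le_sum hN
      _ = _ := by
          rw [← ENNReal.ofReal_sum_of_nonneg]
          · congr 1
            rw [← Finset.sum_div, ← Finset.mul_sum]
            rfl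
          · intro N _
            have := uu_pos N
            positivity
  have hlo : ENNReal.ofReal (T / 2 * uu T) ≤ ∑ i ∈ range (T + 1), gf (Brd i ∩ Q) := by
    calc ENNReal.ofReal (T / 2 * uu T) ≤ ∑ i ∈ Ioc (T / 2) T, gf (Brd i ∩ Q) := by
          have h3 : ∀ i ∈ Ioc (T / 2) T, ENNReal.ofReal (uu T) ≤ gf (Brd i ∩ Q) := by
            intro i hi
            rw [Finset.mem_Ioc] at hi
            have h4 : Brd i ∩ Q = Brd i := by
              rw [Set.inter_eq_left]
              intro u hu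
              exact ⟨i, by omega, hu⟩
            rw [h4, uu_eq_BT]
            exact ENNReal.ofReal_le_ofReal (uu_anti hi.2)
          refine le_trans ?_ (Finset.sum_le_sum h3)
          rw [Finset.sum_const, Nat.card_Ioc, nsmul_eq_mul, ← ENNReal.ofReal_natCast,
            ← ENNReal.ofReal_mul (Nat.cast_nonneg _)]
          apply ENNReal.ofReal_le_ofReal
          apply mul_le_mul_of_nonneg_right _ (uu_pos T).le
          rw [div_le_iff₀ (by norm_num)]
          have : T ≤ (T - T / 2) * 2 := by omega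
          exact_mod_cast this
      _ ≤ _ := by
          apply Finset.sum_le_sum_of_subset
          intro i hi
          rw [Finset.mem_Ioc] at hi
          rw [Finset.mem_range]
          omega
  have huT := uu_pos T
  have hfin : (∑' k : ℤ, ∑ j ∈ Icc T (A * T), gf (FC T j ∩ HB z s k)) * ENNReal.ofReal (T / 2 * uu T) ≤
      ENNReal.ofReal (C * ((A + 1) * T) * UU (A * T + T) / Real.log (T / (M * s))) :=
    (mul_le_mul' le_rfl hlo).trans hap
  have hp : (0 : ℝ) < T / 2 * uu T := by positivity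
  rw [← ENNReal.le_div_iff_mul_le (Or.inl (ENNReal.ofReal_pos.2 hp).ne') (Or.inl ENNReal.ofReal_ne_top),
    ← ENNReal.ofReal_div_of_pos hp] at hfin
  refine hfin.trans (ENNReal.ofReal_le_ofReal ?_)
  rw [div_div, div_le_div_iff₀ (by positivity) hlog]
  have h3 := UU_big (A := A) hT
  have h4 : C * ((A + 1) * T) * UU (A * T + T) ≤ C * ((A + 1) * T) * ((6 + CW + A) * (T * uu T)) :=
    mul_le_mul_of_nonneg_left h3 (by positivity)
  calc C * ((A + 1) * T) * UU (A * T + T) * Real.log (T / (M * s))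
      ≤ C * ((A + 1) * T) * ((6 + CW + A) * (T * uu T)) * Real.log (T / (M * s)) :=
        mul_le_mul_of_nonneg_right h4 hlog.le
    _ = 2 * C * (A + 1) * (6 + CW + A) * T * (Real.log (T / (M * s)) * (T / 2 * uu T)) := by ring

/-- curves that meet the ball and end below the height A. -/
def CB (ε A x y : ℝ) : Set C(unitInterval, ℂ) := {f | (∃ u, dist (f u) ⟨x, y⟩ < ε) ∧ (f 1).im < A}

lemma open_CB (ε A x y : ℝ) : IsOpen (CB ε A x y) := by
  have h : CB ε A x y = (⋃ u : unitInterval, {f : C(unitInterval, ℂ) | dist (f u) ⟨x, y⟩ < ε}) ∩ {f | (f 1).im < A} := by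
    ext f
    simp only [CB, Set.mem_ofPred_eq, Set.mem_inter_iff, Set.mem_iUnion]
  rw [h]
  refine IsOpen.inter (isOpen_iUnion fun u => ?_) ?_
  · exact isOpen_lt ((continuous_eval_const u).dist continuous_const) continuous_const
  · exact isOpen_lt (Complex.continuous_im.comp (continuous_eval_const 1)) continuous_const

lemma re_step (t : List Bool) {T : ℕ} (hT : 1 ≤ T) (i : ℕ) :
    |(zp t i / (T : ℂ)).re - (zp t (i + 1) / (T : ℂ)).re| ≤ 1 / T := by
  have hT' : (0 : ℝ) < T := by exact_mod_cast hT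
  have h1 : dist (zp t i / T) (zp t (i + 1) / T) = 1 / T := by
    rw [dist_eq_norm, ← sub_div, norm_div, ← dist_eq_norm, zp_step, Complex.norm_natCast]
  rw [← h1, Complex.dist_eq, ← Complex.sub_re]
  exact Complex.abs_re_le_norm _

lemma sqrt3 : 0 < Real.sqrt 3 ∧ 17 / 10 ≤ Real.sqrt 3 := by
  refine ⟨Real.sqrt_pos.2 (by norm_num), ?_⟩
  apply Real.le_sqrt_of_sq_le
  norm_num

/-- the words of the curves that meet the ball. -/
lemma cb_words {T : ℕ} (hT : 1 ≤ T) {A : ℕ} {x y ε : ℝ} (hε : 0 < ε) (hεT : 2 ≤ ε * T) {s : ℕ} (hs : 2 * (2 * ε) * T + 6 ≤ s)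
    {f : C(unitInterval, ℂ)} {t : List Bool} {j : ℕ} (ht : t ∈ FC T j) {r : unitInterval ≃ₜ unitInterval}
    (hr : Monotone r) (hf : ∀ u, f u = curve T t (r u)) (k : ℤ) (h : f ∈ CB ε A (x + k * (Real.sqrt 3 / T)) y) :
    j ≤ A * T ∧ t ∈ HB (CC.zz T (2 * x / Real.sqrt 3) (2 * y / 3)) s (-k) := by
  obtain ⟨⟨u, hu⟩, h1⟩ := h
  have hT0 : (0 : ℝ) < T := by exact_mod_cast hT
  obtain ⟨s3, s3'⟩ := sqrt3
  have hn := len_pos hT ht
  have hB := mem_Brd.1 ht.1
  constructor
  · -- the height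
    rw [hf, r_one hr] at h1
    have h2 : (curve T t 1).im = (zp t t.length / (T : ℂ)).im := by
      unfold curve
      rw [Tight.poly_one]
    rw [h2, im_div, hB.2.2.2] at h1
    have h3 : (j : ℝ) < A * T := by
      rw [div_div, div_lt_iff₀ (by positivity)] at h1
      push_cast at h1
      have h4 : (0 : ℝ) ≤ j := Nat.cast_nonneg j
      nlinarith
    have h4 : j < A * T := by exact_mod_cast h3
    exact h4.le
  · rw [hf] at hu
    obtain ⟨i, xx, hi, hx0, hx1, -, him, hre⟩ := pts (T := T) hn (r u)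
    have hre1 := re_step t hT i
    have him1 := im_step t hT i
    refine ⟨i + 1, by omega, by omega, ?_⟩
    have hd1 : |(curve T t (r u)).re - (x + k * (Real.sqrt 3 / T))| < ε := by
      refine lt_of_le_of_lt ?_ hu
      rw [Complex.dist_eq]
      exact Complex.abs_re_le_norm (curve T t (r u) - ⟨x + k * (Real.sqrt 3 / T), y⟩)
    have hd2 : |(curve T t (r u)).im - y| < ε := by
      refine lt_of_le_of_lt ?_ hu
      rw [Complex.dist_eq]
      exact Complex.abs_im_le_norm (curve T t (r u) - ⟨x + k * (Real.sqrt 3 / T), y⟩)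
    rw [abs_le] at hre1 him1
    rw [abs_lt] at hd1 hd2
    have g1 : |(zp t (i + 1) / (T : ℂ)).re - (x + k * (Real.sqrt 3 / T))| < ε + 1 / T := by
      rw [abs_lt]
      constructor <;> nlinarith
    have g2 : |(zp t (i + 1) / (T : ℂ)).im - y| < ε + 1 / T := by
      rw [abs_lt]
      constructor <;> nlinarith
    rw [re_div] at g1
    rw [im_div] at g2
    have hlat : (lat t (i + 1) : ℝ) = (vx oo up t (i + 1)).1 := by
      have : lat t (i + 1) = (vx oo up t (i + 1)).1 := by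
        unfold lat cross up
        simp
      rw [this]
    have e4 : vx (LP.ft (-k)).1 up t (i + 1) = ((vx oo up t (i + 1)).1 - 2 * k, (vx oo up t (i + 1)).2 + k) := by
      rw [LP.hit_vx, CC.ft_eq]
      apply Prod.ext
      · simp only [Prod.fst_add]
        ring
      · simp only [Prod.snd_add]
        ring
    have hmod := lev_mod t (i + 1)
    obtain ⟨y', hy'⟩ : ∃ y' : ℤ, lev t (i + 1) = 3 * y' ∨ lev t (i + 1) = 3 * y' - 1 := by
      obtain ⟨c, hc⟩ := hmod
      split_ifs at hc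
      · exact ⟨c, Or.inl (by linarith)⟩
      · exact ⟨c + 1, Or.inr (by linarith)⟩
    have g3 : |(lat t (i + 1) : ℝ) - 2 * k - 2 * x / Real.sqrt 3 * T| < 2 * ε * T := by
      have e5 : (lat t (i + 1) : ℝ) - 2 * k - 2 * x / Real.sqrt 3 * T =
          (Real.sqrt 3 / 2 * lat t (i + 1) / T - (x + k * (Real.sqrt 3 / T))) * (2 * T / Real.sqrt 3) := by
        field_simp
        ring
      rw [e5, abs_mul, abs_of_pos (show 0 < 2 * T / Real.sqrt 3 by positivity)]
      calc |Real.sqrt 3 / 2 * (lat t (i + 1) : ℝ) / T - (x + k * (Real.sqrt 3 / T))| * (2 * T / Real.sqrt 3)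
          < (ε + 1 / T) * (2 * T / Real.sqrt 3) := mul_lt_mul_of_pos_right g1 (by positivity)
        _ = 2 * (ε * T + 1) / Real.sqrt 3 := by
            field_simp
        _ ≤ 2 * ε * T := by
            rw [div_le_iff₀ s3]
            nlinarith
    have g4 : |(y' : ℝ) - 2 * y / 3 * T| < 2 * ε * T := by
      have e5 : |(lev t (i + 1) : ℝ) - 2 * y * T| < 2 * (ε * T + 1) := by
        have e6 : (lev t (i + 1) : ℝ) - 2 * y * T = ((lev t (i + 1) : ℝ) / 2 / T - y) * (2 * T) := by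
          field_simp
        rw [e6, abs_mul, abs_of_pos (show (0 : ℝ) < 2 * T by positivity)]
        calc |(lev t (i + 1) : ℝ) / 2 / T - y| * (2 * T) < (ε + 1 / T) * (2 * T) :=
              mul_lt_mul_of_pos_right g2 (by positivity)
          _ = _ := by field_simp
      rw [abs_lt] at e5 ⊢
      rcases hy' with h5 | h5
      · rw [h5] at e5
        push_cast at e5
        constructor <;> linarith
      · rw [h5] at e5
        push_cast at e5
        constructor <;> linarith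
    apply CC.zz_box (y := y') (ε := 2 * ε) hs
    · rw [e4]
      show |((((vx oo up t (i + 1)).1 - 2 * k : ℤ)) : ℝ) - 2 * x / Real.sqrt 3 * T| < 2 * ε * T
      push_cast
      rw [← hlat]
      exact g3
    · exact g4
    · rw [hb_lev]
      exact hy'

section

variable {X : ℕ → List Bool → C(unitInterval, ℂ)} {μ : ℕ → ProbabilityMeasure C(unitInterval, ℂ)}
  {φ : ℕ → ℕ} {ν : ProbabilityMeasure C(unitInterval, ℂ)}

lemma meas_CB (T : ℕ) (ε A y : ℝ) : Measurable (fun x : ℝ => gf {t | t ∈ FCW T ∧ X T t ∈ CB ε A x y}) := by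
  have h : (fun x : ℝ => gf {t | t ∈ FCW T ∧ X T t ∈ CB ε A x y}) =
      fun x : ℝ => ∑' t : List Bool, {t | t ∈ FCW T ∧ X T t ∈ CB ε A x y}.indicator wE t := by
    ext x
    unfold gf
    exact _root_.tsum_subtype {t | t ∈ FCW T ∧ X T t ∈ CB ε A x y} wE
  rw [h]
  apply Measurable.ennreal_tsum
  intro t
  have h1 : (fun x : ℝ => {t | t ∈ FCW T ∧ X T t ∈ CB ε A x y}.indicator wE t) =
      {x : ℝ | t ∈ FCW T ∧ X T t ∈ CB ε A x y}.indicator (fun _ => wE t) := rfl
  rw [h1]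
  apply measurable_const.indicator
  have h2 : {x : ℝ | t ∈ FCW T ∧ X T t ∈ CB ε A x y} = {x : ℝ | t ∈ FCW T} ∩
      ((⋃ u : unitInterval, {x : ℝ | dist (X T t u) ⟨x, y⟩ < ε}) ∩ {x : ℝ | (X T t 1).im < A}) := by
    ext x
    simp only [CB, Set.mem_ofPred_eq, Set.mem_inter_iff, Set.mem_iUnion]
  rw [h2]
  apply (MeasurableSet.const _).inter
  apply MeasurableSet.inter _ (MeasurableSet.const _)
  apply IsOpen.measurableSet
  apply isOpen_iUnion
  intro u
  have h3 : Continuous (fun x : ℝ => (⟨x, y⟩ : ℂ)) := by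
    have : (fun x : ℝ => (⟨x, y⟩ : ℂ)) = fun x : ℝ => (x : ℂ) + y * Complex.I := by
      ext x
      apply Complex.ext <;> simp
    rw [this]
    fun_prop
  exact isOpen_lt (continuous_const.dist h3) continuous_const

/-- the finite estimate on a line. -/
lemma line_fin (hX : ∀ T t, ∃ r : unitInterval ≃ₜ unitInterval, Monotone r ∧ ∀ u, X T t u = curve T t (r u))
    {y : ℝ} (hy : 0 < y) (A : ℕ) : ∃ C : ℝ, 0 < C ∧ ∃ ε0 : ℝ, 0 < ε0 ∧ ε0 < 1 ∧ ∀ ε : ℝ, 0 < ε → ε < ε0 →
    ∀ᶠ T : ℕ in atTop, ∫⁻ x : ℝ, gf {t | t ∈ FCW T ∧ X T t ∈ CB ε A x y} ≤ ENNReal.ofReal (C / Real.log (1 / ε)) := by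
  obtain ⟨C, M, hC, hM, hfc⟩ := fc_hit (y / 3) (by positivity) A
  obtain ⟨s3, s3'⟩ := sqrt3
  have hM1 : (1 : ℝ) ≤ M := by exact_mod_cast hM
  have hM0 : (0 : ℝ) < M := by linarith
  refine ⟨2 * Real.sqrt 3 * C, by positivity, 1 / (30 * M) ^ 2, by positivity, ?_, ?_⟩
  · rw [div_lt_one (by positivity)]
    nlinarith
  intro ε hε hε0
  have hε1 : ε * (30 * M) ^ 2 < 1 := by
    rwa [lt_div_iff₀ (by positivity)] at hε0
  have hε5 : 30 * M * ε < 1 := by
    have h1 : 0 ≤ (M * ε) * (30 * M - 1) := mul_nonneg (by positivity) (by linarith)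
    nlinarith
  have hεlt : ε < 1 := by nlinarith
  have hlogε : 0 < Real.log (1 / ε) := Real.log_pos (by rw [lt_div_iff₀ hε]; linarith)
  have hlog3 : Real.log (1 / ε) / 2 ≤ Real.log (1 / (30 * M * ε)) := by
    have h1 : (1 / ε) ≤ (1 / (30 * M * ε)) ^ 2 := by
      rw [div_pow, one_pow, div_le_div_iff₀ hε (by positivity)]
      nlinarith
    have h2 := Real.log_le_log (by positivity) h1
    rw [Real.log_pow] at h2
    push_cast at h2
    linarith
  obtain ⟨T0, hT0⟩ := exists_nat_ge (max (7 / ε) (6 / y))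
  filter_upwards [eventually_ge_atTop (T0 + 1)] with T hT
  have hT1 : (max (7 / ε) (6 / y) : ℝ) ≤ T := hT0.trans (by exact_mod_cast (by omega : T0 ≤ T))
  have hTone : 1 ≤ T := by omega
  have hTp : (0 : ℝ) < T := by exact_mod_cast hTone
  have h7 : 7 ≤ ε * T := by
    have := (le_max_left _ _).trans hT1
    rw [div_le_iff₀ hε] at this
    linarith
  have h6 : 6 ≤ y * T := by
    have := (le_max_right _ _).trans hT1
    rw [div_le_iff₀ hy] at this
    linarith
  obtain ⟨s, hs⟩ : ∃ s : ℕ, s = ⌈4 * ε * T⌉₊ + 6 := ⟨_, rfl⟩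
  have hs1 : (2 * (2 * ε) * T + 6 : ℝ) ≤ s := by
    rw [hs]
    push_cast
    linarith [Nat.le_ceil (4 * ε * T)]
  have hs2 : (s : ℝ) ≤ 5 * ε * T := by
    rw [hs]
    push_cast
    have := Nat.ceil_lt_add_one (a := 4 * ε * T) (by positivity)
    linarith
  have hs3 : 1 ≤ s := by omega
  have hs0 : (0 : ℝ) < s := by exact_mod_cast hs3
  have hMs : (M * s : ℝ) ≤ 30 * M * ε * T := by
    have : M * (s : ℝ) ≤ M * (5 * ε * T) := mul_le_mul_of_nonneg_left hs2 hM0.le
    have h8 : 0 ≤ M * (ε * T) := by positivity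
    linarith
  have hMsT : (M * s : ℝ) < T := by nlinarith
  have h6s : (6 * s : ℝ) ≤ T := by
    have h8 : 30 * ε ≤ 30 * M * ε := by nlinarith
    nlinarith
  have hperiod := CC.lint_period (p := Real.sqrt 3 / T) (by positivity)
    (fun x => gf {t | t ∈ FCW T ∧ X T t ∈ CB ε A x y}) (c := ENNReal.ofReal (C * T / Real.log (T / (M * s))))
    (meas_CB T ε A y) (by
      intro x
      have hz := CC.lv_zz T (2 * x / Real.sqrt 3) (2 * y / 3)
      have h8 := hfc T s (CC.zz T (2 * x / Real.sqrt 3) (2 * y / 3)) hs3 (by exact_mod_cast hMsT)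
        (by exact_mod_cast h6s) (CC.cl_zz T _ _) (by linarith [hz.1])
      refine le_trans ?_ h8
      have h9 : ∑' k : ℤ, ∑ j ∈ Icc T (A * T), gf (FC T j ∩ HB (CC.zz T (2 * x / Real.sqrt 3) (2 * y / 3)) s (-k)) =
          ∑' k : ℤ, ∑ j ∈ Icc T (A * T), gf (FC T j ∩ HB (CC.zz T (2 * x / Real.sqrt 3) (2 * y / 3)) s k) :=
        (Equiv.neg ℤ).tsum_eq (fun k => ∑ j ∈ Icc T (A * T), gf (FC T j ∩ HB (CC.zz T (2 * x / Real.sqrt 3) (2 * y / 3)) s k))
      rw [← h9]
      apply ENNReal.tsum_le_tsum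
      intro k
      have h10 : {t | t ∈ FCW T ∧ X T t ∈ CB ε A (x + k * (Real.sqrt 3 / T)) y} ⊆
          ⋃ j ∈ Icc T (A * T), FC T j ∩ HB (CC.zz T (2 * x / Real.sqrt 3) (2 * y / 3)) s (-k) := by
        rintro t ⟨⟨j, hj⟩, ht⟩
        obtain ⟨r, hr1, hr2⟩ := hX T t
        obtain ⟨b1, b2⟩ := cb_words hTone hε (by linarith) hs1 hj hr1 hr2 k ht
        simp only [Set.mem_iUnion]
        exact ⟨j, Finset.mem_Icc.2 ⟨hj.2.1, b1⟩, hj, b2⟩
      exact (gf_mono h10).trans (ENNReal.tsum_biUnion_le wE _ _))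
  refine hperiod.trans ?_
  rw [← ENNReal.ofReal_mul' (by positivity)]
  apply ENNReal.ofReal_le_ofReal
  have h8 : Real.log (1 / (30 * M * ε)) ≤ Real.log (T / (M * s)) := by
    apply Real.log_le_log (by positivity)
    rw [div_le_div_iff₀ (by positivity) (by positivity)]
    linarith
  have h9 : Real.log (1 / ε) / 2 ≤ Real.log (T / (M * s)) := hlog3.trans h8
  have e : C * T / Real.log (T / (M * s)) * (Real.sqrt 3 / T) = Real.sqrt 3 * C / Real.log (T / (M * s)) := by
    field_simp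
  rw [e, div_le_div_iff₀ (by linarith) hlogε]
  have h10 : 0 < Real.sqrt 3 * C := by positivity
  nlinarith

/-- the estimate in the limit, on one line. -/
lemma line_lim (hX : ∀ T t, ∃ r : unitInterval ≃ₜ unitInterval, Monotone r ∧ ∀ u, X T t u = curve T t (r u))
    (hμ : ∀ T, (μ T : Measure C(unitInterval, ℂ)) = ((lawK T).map (X T)).toMeasure)
    (hφ : Tendsto φ atTop atTop) (hν : Tendsto (fun k => μ (φ k)) atTop (𝓝 ν)) {y : ℝ} (hy : 0 < y) (A : ℕ) :
    ∃ C : ℝ, 0 < C ∧ ∃ ε0 : ℝ, 0 < ε0 ∧ ε0 < 1 ∧ ∀ ε : ℝ, 0 < ε → ε < ε0 →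
    ∫⁻ x : ℝ, (ν : Measure C(unitInterval, ℂ)) (CB ε A x y) ≤ ENNReal.ofReal (C / Real.log (1 / ε)) := by
  obtain ⟨C, hC, ε0, h1, h2, h3⟩ := line_fin hX hy A
  refine ⟨C, hC, ε0, h1, h2, fun ε hε hε0 => ?_⟩
  have h4 := h3 ε hε hε0
  have h5 : ∀ T x, (μ T : Measure C(unitInterval, ℂ)) (CB ε A x y) = gf {t | t ∈ FCW T ∧ X T t ∈ CB ε A x y} := by
    intro T x
    rw [hμ, law _ _ (open_CB ε A x y).measurableSet]
  calc ∫⁻ x : ℝ, (ν : Measure C(unitInterval, ℂ)) (CB ε A x y)
      ≤ ∫⁻ x : ℝ, liminf (fun k => (μ (φ k) : Measure C(unitInterval, ℂ)) (CB ε A x y)) atTop :=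
        lintegral_mono (fun x => ProbabilityMeasure.le_liminf_measure_open_of_tendsto hν (open_CB ε A x y))
    _ ≤ liminf (fun k => ∫⁻ x : ℝ, (μ (φ k) : Measure C(unitInterval, ℂ)) (CB ε A x y)) atTop := by
        apply lintegral_liminf_le
        intro k
        simp_rw [h5]
        exact meas_CB (φ k) ε A y
    _ ≤ ENNReal.ofReal (C / Real.log (1 / ε)) := by
        apply liminf_le_of_frequently_le'
        apply Eventually.frequently
        filter_upwards [hφ.eventually h4] with k hk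
        simp_rw [h5]
        exact hk

/-- the closed set of the pairs (f, p) with p on the curve f. -/
lemma closed_range : IsClosed {x : C(unitInterval, ℂ) × ℂ | x.2 ∈ Set.range x.1} := by
  have hS : IsClosed {x : (C(unitInterval, ℂ) × ℂ) × unitInterval | x.1.1 x.2 = x.1.2} :=
    isClosed_eq (by fun_prop) (by fun_prop)
  have h1 := isClosedMap_fst_of_compactSpace (X := C(unitInterval, ℂ) × ℂ) (Y := unitInterval) _ hS
  convert h1 using 1
  ext x
  constructor
  · rintro ⟨u, hu⟩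
    exact ⟨(x, u), hu, rfl⟩
  · rintro ⟨⟨x', u⟩, hu, rfl⟩
    exact ⟨u, hu⟩

lemma cont_mk : Continuous (fun p : ℝ × ℝ => (⟨p.1, p.2⟩ : ℂ)) := by
  have : (fun p : ℝ × ℝ => (⟨p.1, p.2⟩ : ℂ)) = fun p : ℝ × ℝ => (p.1 : ℂ) + p.2 * Complex.I := by
    ext p
    apply Complex.ext <;> simp
  rw [this]
  fun_prop

lemma meas_range : MeasurableSet {x : C(unitInterval, ℂ) × (ℝ × ℝ) | (⟨x.2.1, x.2.2⟩ : ℂ) ∈ Set.range x.1} := by
  apply IsClosed.measurableSet
  exact closed_range.preimage (f := fun x : C(unitInterval, ℂ) × (ℝ × ℝ) => ((x.1, (⟨x.2.1, x.2.2⟩ : ℂ)) : C(unitInterval, ℂ) × ℂ))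
    (continuous_fst.prodMk (cont_mk.comp continuous_snd))

lemma meas_range' (y : ℝ) : MeasurableSet {x : C(unitInterval, ℂ) × ℝ | (⟨x.2, y⟩ : ℂ) ∈ Set.range x.1} := by
  apply IsClosed.measurableSet
  exact closed_range.preimage (f := fun x : C(unitInterval, ℂ) × ℝ => ((x.1, (⟨x.2, y⟩ : ℂ)) : C(unitInterval, ℂ) × ℂ))
    (continuous_fst.prodMk (cont_mk.comp (continuous_snd.prodMk continuous_const)))

/-- a fixed line meets the limit curve in a set of length zero. -/
theorem slice_lim (hX : ∀ T t, ∃ r : unitInterval ≃ₜ unitInterval, Monotone r ∧ ∀ u, X T t u = curve T t (r u))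
    (hμ : ∀ T, (μ T : Measure C(unitInterval, ℂ)) = ((lawK T).map (X T)).toMeasure)
    (hφ : Tendsto φ atTop atTop) (hν : Tendsto (fun k => μ (φ k)) atTop (𝓝 ν)) (y : ℝ) :
    ∀ᵐ (f : C(unitInterval, ℂ)) ∂(ν : Measure C(unitInterval, ℂ)), volume {x : ℝ | (⟨x, y⟩ : ℂ) ∈ Set.range f} = 0 := by
  rcases lt_trichotomy y 0 with hy | hy | hy
  · filter_upwards [half hX hμ hφ hν] with f hf
    have : {x : ℝ | (⟨x, y⟩ : ℂ) ∈ Set.range f} = ∅ := by
      rw [Set.eq_empty_iff_forall_notMem]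
      rintro x ⟨u, hu⟩
      have := hf u
      rw [hu] at this
      exact absurd this (not_le.2 hy)
    rw [this, measure_empty]
  · subst hy
    filter_upwards [touch hX hμ hφ hν] with f hf
    apply measure_mono_null (t := {0}) _ (measure_singleton 0)
    rintro x ⟨u, hu⟩
    have h1 := hf u (by rw [hu])
    rw [hu] at h1
    exact congrArg Complex.re h1
  · have h4 : ∀ A : ℕ, ∫⁻ x : ℝ, (ν : Measure C(unitInterval, ℂ)) {f | (⟨x, y⟩ : ℂ) ∈ Set.range f ∧ (f 1).im < A} = 0 := by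
      intro A
      obtain ⟨C, hC, ε0, h1, h2, h3⟩ := line_lim hX hμ hφ hν hy A
      have h5 : ∀ ε : ℝ, 0 < ε → ε < ε0 → ∫⁻ x : ℝ, (ν : Measure C(unitInterval, ℂ)) {f | (⟨x, y⟩ : ℂ) ∈ Set.range f ∧ (f 1).im < A} ≤
          ENNReal.ofReal (C / Real.log (1 / ε)) := by
        intro ε hε hε0
        refine le_trans (lintegral_mono fun x => measure_mono ?_) (h3 ε hε hε0)
        rintro f ⟨⟨u, hu⟩, hf⟩
        exact ⟨⟨u, by rw [hu, dist_self]; exact hε⟩, hf⟩
      have h6 : Tendsto (fun ε : ℝ => ENNReal.ofReal (C / Real.log (1 / ε))) (𝓝[>] 0) (𝓝 0) := by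
        have h7 : Tendsto (fun ε : ℝ => Real.log (1 / ε)) (𝓝[>] 0) atTop := by
          simp only [one_div]
          exact Real.tendsto_log_atTop.comp tendsto_inv_nhdsGT_zero
        have h8 := ENNReal.tendsto_ofReal (h7.const_div_atTop C)
        rwa [ENNReal.ofReal_zero] at h8
      refine le_antisymm (ge_of_tendsto h6 ?_) zero_le
      filter_upwards [Ioo_mem_nhdsGT h1] with ε hε
      exact h5 ε hε.1 hε.2
    have hmeasA : ∀ A : ℕ, MeasurableSet {x : C(unitInterval, ℂ) × ℝ | (⟨x.2, y⟩ : ℂ) ∈ Set.range x.1 ∧ (x.1 1).im < A} := by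
      intro A
      apply (meas_range' y).inter
      exact (isOpen_lt (Complex.continuous_im.comp ((continuous_eval_const 1).comp continuous_fst)) continuous_const).measurableSet
    have h5 : ∀ A : ℕ, ∀ᵐ x : ℝ, (ν : Measure C(unitInterval, ℂ)) {f | (⟨x, y⟩ : ℂ) ∈ Set.range f ∧ (f 1).im < A} = 0 := by
      intro A
      have hm : Measurable (fun x : ℝ => (ν : Measure C(unitInterval, ℂ)) {f | (⟨x, y⟩ : ℂ) ∈ Set.range f ∧ (f 1).im < A}) :=
        measurable_measure_prodMk_right (hmeasA A)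
      exact (lintegral_eq_zero_iff hm).1 (h4 A)
    have h6 : ∀ᵐ x : ℝ, (ν : Measure C(unitInterval, ℂ)) {f | (⟨x, y⟩ : ℂ) ∈ Set.range f} = 0 := by
      filter_upwards [ae_all_iff.2 h5] with x hx
      have h7 : {f : C(unitInterval, ℂ) | (⟨x, y⟩ : ℂ) ∈ Set.range f} ⊆
          ⋃ A : ℕ, {f | (⟨x, y⟩ : ℂ) ∈ Set.range f ∧ (f 1).im < A} := by
        intro f hf
        obtain ⟨A, hA⟩ := exists_nat_gt (f 1).im
        rw [Set.mem_iUnion]
        exact ⟨A, hf, hA⟩
      exact measure_mono_null h7 (measure_iUnion_null hx)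
    have h9 : ∫⁻ f : C(unitInterval, ℂ), volume {x : ℝ | (⟨x, y⟩ : ℂ) ∈ Set.range f} ∂(ν : Measure C(unitInterval, ℂ)) = 0 := by
      have e1 : ∫⁻ f : C(unitInterval, ℂ), volume {x : ℝ | (⟨x, y⟩ : ℂ) ∈ Set.range f} ∂(ν : Measure C(unitInterval, ℂ)) =
          ((ν : Measure C(unitInterval, ℂ)).prod (volume : Measure ℝ)) {x : C(unitInterval, ℂ) × ℝ | (⟨x.2, y⟩ : ℂ) ∈ Set.range x.1} :=
        (Measure.prod_apply (meas_range' y)).symm
      rw [e1, Measure.prod_apply_symm (meas_range' y)]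
      rw [lintegral_congr_ae (g := fun _ => 0)]
      · simp
      · filter_upwards [h6] with x hx
        exact hx
    have h10 : Measurable (fun f : C(unitInterval, ℂ) => volume {x : ℝ | (⟨x, y⟩ : ℂ) ∈ Set.range f}) :=
      measurable_measure_prodMk_left (meas_range' y)
    exact (lintegral_eq_zero_iff h10).1 h9

/-- the limit curves have zero area. -/
theorem area_lim (hX : ∀ T t, ∃ r : unitInterval ≃ₜ unitInterval, Monotone r ∧ ∀ u, X T t u = curve T t (r u))
    (hμ : ∀ T, (μ T : Measure C(unitInterval, ℂ)) = ((lawK T).map (X T)).toMeasure)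
    (hφ : Tendsto φ atTop atTop) (hν : Tendsto (fun k => μ (φ k)) atTop (𝓝 ν)) :
    ∀ᵐ (f : C(unitInterval, ℂ)) ∂(ν : Measure C(unitInterval, ℂ)), volume (Set.range f) = 0 := by
  have h9 : ∫⁻ f : C(unitInterval, ℂ), volume {p : ℝ × ℝ | (⟨p.1, p.2⟩ : ℂ) ∈ Set.range f} ∂(ν : Measure C(unitInterval, ℂ)) = 0 := by
    have e1 : ∫⁻ f : C(unitInterval, ℂ), volume {p : ℝ × ℝ | (⟨p.1, p.2⟩ : ℂ) ∈ Set.range f} ∂(ν : Measure C(unitInterval, ℂ)) =
        ((ν : Measure C(unitInterval, ℂ)).prod (volume : Measure (ℝ × ℝ))) {x : C(unitInterval, ℂ) × (ℝ × ℝ) | (⟨x.2.1, x.2.2⟩ : ℂ) ∈ Set.range x.1} :=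
      (Measure.prod_apply meas_range).symm
    rw [e1, Measure.prod_apply_symm meas_range]
    have h2 : Measurable (fun p : ℝ × ℝ => (ν : Measure C(unitInterval, ℂ)) ((fun f => (f, p)) ⁻¹' {x : C(unitInterval, ℂ) × (ℝ × ℝ) | (⟨x.2.1, x.2.2⟩ : ℂ) ∈ Set.range x.1})) :=
      measurable_measure_prodMk_right meas_range
    rw [Measure.volume_eq_prod, lintegral_prod_symm' _ h2]
    have h3 : ∀ y : ℝ, ∫⁻ x : ℝ, (ν : Measure C(unitInterval, ℂ)) ((fun f => (f, (x, y))) ⁻¹' {x : C(unitInterval, ℂ) × (ℝ × ℝ) | (⟨x.2.1, x.2.2⟩ : ℂ) ∈ Set.range x.1}) = 0 := by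
      intro y
      have e2 : ∫⁻ x : ℝ, (ν : Measure C(unitInterval, ℂ)) ((fun f => (f, (x, y))) ⁻¹' {x : C(unitInterval, ℂ) × (ℝ × ℝ) | (⟨x.2.1, x.2.2⟩ : ℂ) ∈ Set.range x.1}) =
          ((ν : Measure C(unitInterval, ℂ)).prod (volume : Measure ℝ)) {x : C(unitInterval, ℂ) × ℝ | (⟨x.2, y⟩ : ℂ) ∈ Set.range x.1} :=
        (Measure.prod_apply_symm (meas_range' y)).symm
      rw [e2, Measure.prod_apply (meas_range' y)]
      rw [lintegral_congr_ae (g := fun _ => 0)]
      · simp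
      · filter_upwards [slice_lim hX hμ hφ hν y] with f hf
        exact hf
    simp only [h3, lintegral_zero]
  have h10 : Measurable (fun f : C(unitInterval, ℂ) => volume {p : ℝ × ℝ | (⟨p.1, p.2⟩ : ℂ) ∈ Set.range f}) :=
    measurable_measure_prodMk_left meas_range
  have h11 := (lintegral_eq_zero_iff h10).1 h9
  filter_upwards [h11] with f hf
  have hcl : MeasurableSet (Set.range f) := (isCompact_range f.continuous).isClosed.measurableSet
  have h12 := (Complex.volume_preserving_equiv_real_prod.symm Complex.measurableEquivRealProd).measure_preimage hcl.nullMeasurableSet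
  rw [← h12]
  exact hf

end

end Touch

end HexObs
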