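import Pool.Agent.HexLoop.Gate
import Pool.Agent.PHW.Num2
import Pool.Agent.PHW.Mirror

/-!
LOOP L14b: arcs at the floor and at the top that cross the ray from a face.
-/

set_option autoImplicit false

namespace HexObs

namespace LP

open Complex Finset



section L14b

lemma arcA_hex (w : Pt) : IsHex oo up w ↔ cl w = 0 ∨ cl w = 2 := by
  have e1 : cl oo = 0 := by decide
  have e2 : cl oo + cl up = 2 := by decide
  unfold IsHex
  rw [e2, e1]

lemma arcA_mem {T L r : ℕ} {w : Pt} : w ∈ Tube.dF upd oo true T L r ↔ (cl w = 0 ∨ cl w = 2) ∧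
    0 < w.1 + 2 * w.2 ∧ w.1 + 2 * w.2 < 3 * T + 2 ∧ w.2 - w.1 < 3 * L ∧ w.1 - w.2 < 3 * r - 1 := by
  rw [Tube.mem_dF]
  have e1 : ip (w - oo) up = w.1 + 2 * w.2 := by
    simp only [ip, up, oo, Prod.fst_sub, Prod.snd_sub]
    ring
  have e2 : ip (w - oo) (rotL up) = w.2 - w.1 := by
    simp only [ip, up, oo, rotL, Prod.fst_sub, Prod.snd_sub]
    ring
  have e3 : ip (w - oo) (Tube.gn true up) = w.1 - w.2 := by
    show ip (w - oo) (rotR (rotR up)) = w.1 - w.2
    simp only [ip, up, oo, rotR, Prod.fst_sub, Prod.snd_sub]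
    ring
  show ((IsHex oo up w ∧ 0 < ip (w - oo) up ∧ ip (w - oo) up < 3 * T + 2) ∧ ip (w - oo) (rotL up) < 3 * L ∧
    ip (w - oo) (Tube.gn true up) < 3 * r - 1) ↔ _
  rw [e1, e2, e3, arcA_hex]
  tauto

lemma arcA_memF {T L r : ℕ} {w : Pt} : w ∈ Tube.dF upd oo false T L r ↔ (cl w = 0 ∨ cl w = 2) ∧
    0 < w.1 + 2 * w.2 ∧ w.1 + 2 * w.2 < 3 * T + 2 ∧ w.2 - w.1 < 3 * L ∧ 2 * w.1 + w.2 < 3 * r := by
  rw [Tube.mem_dF]
  have e1 : ip (w - oo) up = w.1 + 2 * w.2 := by
    simp only [ip, up, oo, Prod.fst_sub, Prod.snd_sub]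
    ring
  have e2 : ip (w - oo) (rotL up) = w.2 - w.1 := by
    simp only [ip, up, oo, rotL, Prod.fst_sub, Prod.snd_sub]
    ring
  have e3 : ip (w - oo) (Tube.gn false up) = 2 * w.1 + w.2 := by
    show ip (w - oo) (rotR up) = 2 * w.1 + w.2
    simp only [ip, up, oo, rotR, Prod.fst_sub, Prod.snd_sub]
    ring
  show ((IsHex oo up w ∧ 0 < ip (w - oo) up ∧ ip (w - oo) up < 3 * T + 2) ∧ ip (w - oo) (rotL up) < 3 * L ∧
    ip (w - oo) (Tube.gn false up) < 3 * r) ↔ _
  rw [e1, e2, e3, arcA_hex]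
  tauto

lemma arcA_cos : 0 < Real.cos (3 * Real.pi / 8) := by
  apply Real.cos_pos_of_mem_Ioo
  constructor <;> linarith [Real.pi_pos]

/-- the cosine of an arc -/
lemma arcA_fb {T L r : ℕ} (hT : 1 ≤ T) (hL : 1 ≤ L) (hr : 1 ≤ r) {t : List Bool}
    (ht : t ∈ exits (Tube.dF upd oo true T L r) oo up) (hd : dx up t t.length = -up) :
    Tube.fb 0 t = Real.cos (3 * Real.pi / 8) * xc ^ t.length := by
  obtain ⟨⟨a1, a2, a3, a4, a5⟩, ⟨b1, b2, b3, b4⟩, ⟨c1, c2, c3⟩, ⟨e1, e2⟩, f1⟩ := dirs_distinct up upd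
  have hw : wind t = 3 ∨ wind t = -3 := by
    rcases (Tube.dm_good upd true hT hL hr).wind ht with ⟨hd', _⟩ | ⟨hd', _⟩ | ⟨hd', _⟩ | ⟨hd', _⟩ | ⟨hd', _⟩ | ⟨_, hw⟩
    · rw [hd] at hd'
      exact absurd hd' a5
    · rw [hd] at hd'
      exact absurd hd' b4
    · rw [hd] at hd'
      exact absurd hd' c3
    · rw [hd] at hd'
      exact absurd hd' e2
    · rw [hd] at hd'
      exact absurd hd' f1
    · exact hw
  unfold Tube.fb
  rcases hw with h | h
  · rw [h]
    congr 2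
    push_cast
    ring
  · rw [h]
    have : ((-3 : ℤ) : ℝ) * (Real.pi / 8) + 0 = -(3 * Real.pi / 8) := by
      push_cast
      ring
    rw [this, Real.cos_neg]

lemma arcA_zero : |(0 : ℝ)| ≤ Real.pi / 8 := by
  rw [abs_zero]
  positivity

/-- arcs that go beyond the gate on the right. -/
lemma arcA_R {T L r r' : ℕ} (hT : 1 ≤ T) (hL : 1 ≤ L) (hr : 1 ≤ r) (hrr : r ≤ r') {A : Finset (List Bool)}
    (hA : ∀ t ∈ A, t ∈ exits (Tube.dF upd oo true T L r') oo up ∧ dx up t t.length = -up ∧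
      ∃ i, 1 ≤ i ∧ i ≤ t.length ∧ (3 * r - 1 : ℤ) ≤ nn (vx oo up t i)) :
    Real.cos (3 * Real.pi / 8) * Tube.wS A ≤ Tube.wS (Tube.gE upd oo true T L r) := by
  classical
  have hr' : 1 ≤ r' := by omega
  have hs : Tube.dF upd oo true T L r ⊆ Tube.dF upd oo true T L r' := by
    intro v hv
    rw [arcA_mem] at hv ⊢
    have h7 : (r : ℤ) ≤ r' := by exact_mod_cast hrr
    exact ⟨hv.1, hv.2.1, hv.2.2.1, hv.2.2.2.1, by linarith [hv.2.2.2.2]⟩
  have h1 := Tube.two_dom upd (Tube.dF_half upd oo true T L r) (Tube.dF_half upd oo true T L r') 0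
  have h2 : Real.cos (3 * Real.pi / 8) * Tube.wS A ≤ ∑ t ∈ exits (Tube.dF upd oo true T L r') oo up \
      exits (Tube.dF upd oo true T L r) oo up, Tube.fb 0 t := by
    have e : Real.cos (3 * Real.pi / 8) * Tube.wS A = ∑ t ∈ A, Tube.fb 0 t := by
      unfold Tube.wS
      rw [Finset.mul_sum]
      apply Finset.sum_congr rfl
      intro t ht
      rw [arcA_fb hT hL hr' (hA t ht).1 (hA t ht).2.1]
    rw [e]
    apply Finset.sum_le_sum_of_subset_of_nonneg
    · intro t ht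
      obtain ⟨h3, _, i, h4, h5, h6⟩ := hA t ht
      refine Finset.mem_sdiff.2 ⟨h3, fun h7 => ?_⟩
      have h8 := (mem_exits.1 h7).1.mem i h4 h5
      rw [arcA_mem] at h8
      have h9 := h8.2.2.2.2
      unfold nn at h6
      omega
    · intro t ht _
      exact Tube.fb_nonneg arcA_zero (Tube.dm_wind upd true hT hL hr' (Finset.mem_sdiff.1 ht).1)
  have h3 : ∑ t ∈ exits (Tube.dF upd oo true T L r) oo up \ exits (Tube.dF upd oo true T L r') oo up, Tube.fb 0 t ≤
      ∑ t ∈ Tube.gE upd oo true T L r, Tube.fb 0 t := by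
    apply Finset.sum_le_sum_of_subset_of_nonneg
    · intro t ht
      obtain ⟨h4, h5⟩ := Finset.mem_sdiff.1 ht
      refine Finset.mem_filter.2 ⟨h4, Tube.exit_gate upd oo (k' := true) (r' := r') hT hL hr h4 ?_⟩
      by_contra hcon
      obtain ⟨ha, _⟩ := mem_exits.1 h4
      exact h5 (mem_exits.2 ⟨⟨fun i h6 h7 => hs (ha.mem i h6 h7), ha.inj⟩, hcon⟩)
    · intro t ht _
      exact Tube.fb_nonneg arcA_zero (Tube.dm_wind upd true hT hL hr (Finset.mem_filter.1 ht).1)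
  rw [Tube.sum_fb_const (Tube.gE_wind upd oo true hT hL hr)] at h3
  have h4 : Real.cos ((Tube.gw true : ℝ) * (Real.pi / 8) + 0) * Tube.wS (Tube.gE upd oo true T L r) ≤
      Tube.wS (Tube.gE upd oo true T L r) := by
    have := mul_le_mul_of_nonneg_right (Real.cos_le_one ((Tube.gw true : ℝ) * (Real.pi / 8) + 0))
      (Tube.wS_nonneg (Tube.gE upd oo true T L r))
    linarith
  linarith

/-- the mirror image -/
lemma arcA_not (t : List Bool) {i : ℕ} (hi : i ≤ t.length + 1) :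
    vx oo up (t.map not) i = (-(vx oo up t i).1, (vx oo up t i).1 + (vx oo up t i).2) := vx_not t hi

/-- arcs that go beyond the wall on the left. -/
lemma arcA_L {T L L' r : ℕ} (hT : 1 ≤ T) (hL : 1 ≤ L) (hr : 1 ≤ r) (hLL : L ≤ L') {A : Finset (List Bool)}
    (hA : ∀ t ∈ A, t ∈ exits (Tube.dF upd oo true T L' r) oo up ∧ dx up t t.length = -up ∧
      ∃ i, 1 ≤ i ∧ i ≤ t.length ∧ nn (vx oo up t i) ≤ -(3 * L : ℤ)) :
    Real.cos (3 * Real.pi / 8) * Tube.wS A ≤ Tube.wS (Tube.gE upd oo false T (r + T + 1) L) := by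
  classical
  have hL' : 1 ≤ L' := by omega
  have hs : Tube.dF upd oo true T L r ⊆ Tube.dF upd oo true T L' r := by
    intro v hv
    rw [arcA_mem] at hv ⊢
    have h7 : (L : ℤ) ≤ L' := by exact_mod_cast hLL
    exact ⟨hv.1, hv.2.1, hv.2.2.1, by linarith [hv.2.2.2.1], hv.2.2.2.2⟩
  have h1 := Tube.two_dom upd (Tube.dF_half upd oo true T L r) (Tube.dF_half upd oo true T L' r) 0
  have h2 : Real.cos (3 * Real.pi / 8) * Tube.wS A ≤ ∑ t ∈ exits (Tube.dF upd oo true T L' r) oo up \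
      exits (Tube.dF upd oo true T L r) oo up, Tube.fb 0 t := by
    have e : Real.cos (3 * Real.pi / 8) * Tube.wS A = ∑ t ∈ A, Tube.fb 0 t := by
      unfold Tube.wS
      rw [Finset.mul_sum]
      apply Finset.sum_congr rfl
      intro t ht
      rw [arcA_fb hT hL' hr (hA t ht).1 (hA t ht).2.1]
    rw [e]
    apply Finset.sum_le_sum_of_subset_of_nonneg
    · intro t ht
      obtain ⟨h3, _, i, h4, h5, h6⟩ := hA t ht
      refine Finset.mem_sdiff.2 ⟨h3, fun h7 => ?_⟩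
      have h8 := (mem_exits.1 h7).1.mem i h4 h5
      rw [arcA_mem] at h8
      have h9 := h8.2.2.2.1
      unfold nn at h6
      omega
    · intro t ht _
      exact Tube.fb_nonneg arcA_zero (Tube.dm_wind upd true hT hL' hr (Finset.mem_sdiff.1 ht).1)
  set X := (exits (Tube.dF upd oo true T L r) oo up).filter (fun t => dx up t t.length = rotL up) with hX
  have h3 : ∑ t ∈ exits (Tube.dF upd oo true T L r) oo up \ exits (Tube.dF upd oo true T L' r) oo up, Tube.fb 0 t ≤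
      ∑ t ∈ X, Tube.fb 0 t := by
    apply Finset.sum_le_sum_of_subset_of_nonneg
    · intro t ht
      obtain ⟨h4, h5⟩ := Finset.mem_sdiff.1 ht
      refine Finset.mem_filter.2 ⟨h4, ?_⟩
      have htip : tip oo up t ∈ Tube.dF upd oo true T L' r := by
        by_contra hcon
        obtain ⟨ha, _⟩ := mem_exits.1 h4
        exact h5 (mem_exits.2 ⟨⟨fun i h6 h7 => hs (ha.mem i h6 h7), ha.inj⟩, hcon⟩)
      rw [Tube.mem_dF] at htip
      obtain ⟨⟨_, g2, g3⟩, g4, g5⟩ := htip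
      rcases Tube.dm_exit upd true hT hL hr h4 with ⟨_, h⟩ | ⟨_, h⟩ | ⟨hd, _⟩ | ⟨_, h⟩
      · omega
      · omega
      · exact hd
      · omega
    · intro t ht _
      exact Tube.fb_nonneg arcA_zero (Tube.dm_wind upd true hT hL hr (Finset.mem_filter.1 ht).1)
  have h4 : ∑ t ∈ X, Tube.fb 0 t ≤ Tube.wS X := by
    unfold Tube.wS
    apply Finset.sum_le_sum
    intro t _
    unfold Tube.fb
    have := mul_le_mul_of_nonneg_right (Real.cos_le_one (wind t * (Real.pi / 8) + 0)) (pow_nonneg xc_pos.le t.length)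
    linarith
  have hinj : Function.Injective (fun t : List Bool => t.map not) := by
    intro s t hst
    have := congrArg (List.map not) hst
    simpa only [map_not_not] using this
  have h5 : Tube.wS X = Tube.wS (X.image (fun t => t.map not)) := by
    unfold Tube.wS
    rw [Finset.sum_image (fun a _ b _ h => hinj h)]
    apply Finset.sum_congr rfl
    intro t _
    rw [List.length_map]
  have h6 : X.image (fun t => t.map not) ⊆ Tube.gE upd oo false T (r + T + 1) L := by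
    intro s hs2
    obtain ⟨t, ht, rfl⟩ := Finset.mem_image.1 hs2
    obtain ⟨ht1, ht2⟩ := Finset.mem_filter.1 ht
    obtain ⟨ha, ho⟩ := mem_exits.1 ht1
    have hcl : ∀ v : Pt, cl ((-v.1, v.1 + v.2) : Pt) = cl v := by
      intro v
      have h3 : (3 : ZMod 3) = 0 := three_eq
      simp only [cl]
      push_cast
      linear_combination (-(v.1 : ZMod 3)) * h3
    have hl : (t.map not).length = t.length := List.length_map _
    have htipeq : tip oo up (t.map not) = (-(tip oo up t).1, (tip oo up t).1 + (tip oo up t).2) := by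
      unfold tip
      rw [hl]
      exact arcA_not t le_rfl
    refine Finset.mem_filter.2 ⟨mem_exits.2 ⟨⟨?_, ?_⟩, ?_⟩, ?_⟩
    · intro i hi1 hi2
      rw [hl] at hi2
      have h7 := ha.mem i hi1 hi2
      rw [arcA_mem] at h7
      rw [arcA_not t (by omega), arcA_memF, hcl]
      obtain ⟨g1, g2, g3, g4, g5⟩ := h7
      refine ⟨g1, ?_, ?_, ?_, ?_⟩
      · show 0 < -(vx oo up t i).1 + 2 * ((vx oo up t i).1 + (vx oo up t i).2)
        linarith
      · show -(vx oo up t i).1 + 2 * ((vx oo up t i).1 + (vx oo up t i).2) < 3 * T + 2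
        linarith
      · show ((vx oo up t i).1 + (vx oo up t i).2) - -(vx oo up t i).1 < 3 * ((r + T + 1 : ℕ) : ℤ)
        push_cast
        linarith
      · show 2 * -(vx oo up t i).1 + ((vx oo up t i).1 + (vx oo up t i).2) < 3 * L
        linarith
    · intro i k hik hk heq
      rw [hl] at hk
      rw [arcA_not t (by omega), arcA_not t (by omega)] at heq
      apply ha.inj i k hik hk
      have e1 := congrArg Prod.fst heq
      have e2 := congrArg Prod.snd heq
      simp only at e1 e2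
      ext
      · linarith
      · linarith
    · rw [htipeq, arcA_memF]
      rintro ⟨_, _, _, _, g5⟩
      have g6 : 2 * -(tip oo up t).1 + ((tip oo up t).1 + (tip oo up t).2) < 3 * L := g5
      rcases Tube.dm_exit upd true hT hL hr ht1 with ⟨h, _⟩ | ⟨h, _⟩ | ⟨_, h⟩ | ⟨h, _⟩
      · rw [ht2] at h
        exact absurd h (by decide)
      · rw [ht2] at h
        exact absurd h (by decide)
      · have e2 : ip (tip oo up t - oo) (rotL up) = (tip oo up t).2 - (tip oo up t).1 := by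
          simp only [ip, up, oo, rotL, Prod.fst_sub, Prod.snd_sub]
          ring
        rw [e2] at h
        linarith
      · rw [ht2] at h
        exact absurd h (by decide)
    · rw [hl, dx_not t le_rfl, ht2]
      decide
  have h7 := Tube.wS_mono h6
  linarith

/-- transport of the start -/
lemma arcA_tr {u v0 : Pt} {P : Finset Pt} {T L r : ℕ}
    (hP : ∀ w, v0 + mulE u w ∈ P ↔ w ∈ Tube.dF upd oo true T L r) {d : Pt} (hd : mulE u up = d) {t : List Bool}
    (ht : t ∈ ex0 P (v0, d)) : t ∈ exits (Tube.dF upd oo true T L r) oo up := by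
  subst hd
  have hv : ∀ i, vx v0 (mulE u up) t i = v0 + mulE u (vx oo up t i) := by
    intro i
    have := vx_mulE u oo v0 up t i
    rw [this]
    have : vx oo up t i - oo = vx oo up t i := sub_zero _
    rw [this]
  unfold ex0 at ht
  obtain ⟨h1, h2⟩ := Finset.mem_filter.1 ht
  have h3 := mem_arr0.1 h1
  have hm : ∀ i, 1 ≤ i → i ≤ t.length → vx oo up t i ∈ Tube.dF upd oo true T L r := by
    intro i h4 h5
    have h6 := h3.mem i h4 h5
    have h7 : vx v0 (mulE u up) t i ∈ P := h6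
    rw [hv i] at h7
    exact (hP _).1 h7
  refine mem_exits.2 ⟨⟨hm, ?_⟩, ?_⟩
  · intro i k hik hk heq
    rcases Nat.eq_zero_or_pos i with h0 | h0
    · subst h0
      have h4 := hm k (by omega) hk
      rw [← heq] at h4
      have h5 : vx oo up t 0 = oo := rfl
      rw [h5, arcA_mem] at h4
      have h6 : (0 : ℤ) < 0 + 2 * 0 := h4.2.1
      omega
    · apply h3.inj i k h0 hik hk
      show vx v0 (mulE u up) t i = vx v0 (mulE u up) t k
      rw [hv i, hv k, heq]
  · intro h4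
    apply h2
    show tip v0 (mulE u up) t ∈ P
    unfold tip
    rw [hv]
    exact (hP _).2 h4

/-- the distance to the gate -/
def arcA_rho (m k : ℤ) : ℕ := if k ≤ m then (m + 1 - k).toNat else (k - m).toNat

lemma arcA_geom {q : ℝ} (hq : 0 < q) (hq1 : q < 1) {T : ℕ} (N : ℕ) (hT : 1 ≤ T) :
    ∑ ρ ∈ range (T * N), q ^ (ρ / T) ≤ T * (1 - q)⁻¹ := by
  have h : ∑ ρ ∈ range (T * N), q ^ (ρ / T) = T * ∑ j ∈ range N, q ^ j := by
    induction N with
    | zero => simp
    | succ N ih =>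
      rw [Nat.mul_succ, Finset.sum_range_add, ih, Finset.sum_range_succ, mul_add]
      congr 1
      rw [Finset.sum_congr rfl (g := fun _ => q ^ N)]
      · rw [Finset.sum_const, Finset.card_range, nsmul_eq_mul]
      · intro i hi
        rw [Finset.mem_range] at hi
        rw [Nat.mul_add_div (by omega), Nat.div_eq_of_lt hi, add_zero]
  rw [h]
  apply mul_le_mul_of_nonneg_left _ (by positivity)
  have h2 := geom_sum_eq (ne_of_lt hq1) N
  rw [h2]
  have h3 : 0 < 1 - q := by linarith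
  have h4 : (q ^ N - 1) / (q - 1) = (1 - q ^ N) * (1 - q)⁻¹ := by
    rw [div_eq_mul_inv, ← neg_sub 1 (q ^ N), ← neg_sub 1 q, inv_neg]
    ring
  rw [h4]
  have h5 : 0 < q ^ N := pow_pos hq N
  have h6 : 0 < (1 - q)⁻¹ := inv_pos.2 h3
  nlinarith

lemma arcA_uu_nonneg (T : ℕ) : 0 ≤ uu T := ENNReal.toReal_nonneg

/-- the sum over the distances -/
lemma arcA_sum {q : ℝ} (hq : 0 < q) (hq1 : q < 1) {T : ℕ} (hT : 1 ≤ T) (R : ℕ) :
    ∑ ρ ∈ Icc 1 R, uu (min ρ T) * q ^ (ρ / T) ≤ ((6 + CW) + (1 - q)⁻¹) * (T * uu T) := by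
  have h1 : ∀ ρ ∈ Icc 1 R, uu (min ρ T) * q ^ (ρ / T) ≤ (if ρ ≤ T then uu ρ else 0) + uu T * q ^ (ρ / T) := by
    intro ρ _
    by_cases h : ρ ≤ T
    · rw [if_pos h, min_eq_left h]
      have h2 : q ^ (ρ / T) ≤ 1 := pow_le_one₀ hq.le hq1.le
      have h3 := mul_le_mul_of_nonneg_left h2 (arcA_uu_nonneg ρ)
      have h4 : 0 ≤ uu T * q ^ (ρ / T) := mul_nonneg (arcA_uu_nonneg T) (pow_nonneg hq.le _)
      linarith
    · rw [if_neg h, min_eq_right (by omega), zero_add]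
  refine (Finset.sum_le_sum h1).trans ?_
  rw [Finset.sum_add_distrib, ← Finset.mul_sum]
  have h2 : ∑ ρ ∈ Icc 1 R, (if ρ ≤ T then uu ρ else 0) ≤ UU T := by
    rw [← Finset.sum_filter]
    unfold UU
    apply Finset.sum_le_sum_of_subset_of_nonneg
    · intro ρ hρ
      obtain ⟨_, h3⟩ := Finset.mem_filter.1 hρ
      exact Finset.mem_range.2 (by omega)
    · intro ρ _ _
      exact arcA_uu_nonneg ρ
  have h3 : ∑ ρ ∈ Icc 1 R, q ^ (ρ / T) ≤ T * (1 - q)⁻¹ := by
    refine le_trans ?_ (arcA_geom hq hq1 (R + 1) hT)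
    apply Finset.sum_le_sum_of_subset_of_nonneg
    · intro ρ hρ
      obtain ⟨_, h4⟩ := Finset.mem_Icc.1 hρ
      apply Finset.mem_range.2
      calc ρ < R + 1 := by omega
        _ ≤ T * (R + 1) := Nat.le_mul_of_pos_left _ hT
    · intro ρ _ _
      exact pow_nonneg hq.le _
  have h4 := UU_le_mul hT
  have h5 := mul_le_mul_of_nonneg_left h3 (arcA_uu_nonneg T)
  linarith

/-- the sum over the feet -/
lemma arcA_feet {F : Finset (Pt × Pt)} (κ : Pt × Pt → ℤ) (hinj : ∀ a ∈ F, ∀ b ∈ F, κ a = κ b → a = b) (m : ℤ)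
    (g : Pt × Pt → ℝ) (G : ℕ → ℝ) (hG : ∀ ρ, 0 ≤ G ρ) (hg : ∀ a ∈ F, g a ≤ G (arcA_rho m (κ a))) {S : ℝ}
    (hS : ∀ R, ∑ ρ ∈ Icc 1 R, G ρ ≤ S) : ∑ a ∈ F, g a ≤ 2 * S := by
  classical
  refine (Finset.sum_le_sum hg).trans ?_
  rw [← Finset.sum_filter_add_sum_filter_not F (fun a => κ a ≤ m)]
  have key : ∀ F' : Finset (Pt × Pt), (∀ a ∈ F', ∀ b ∈ F', arcA_rho m (κ a) = arcA_rho m (κ b) → a = b) →
      (∀ a ∈ F', 1 ≤ arcA_rho m (κ a)) → ∑ a ∈ F', G (arcA_rho m (κ a)) ≤ S := by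
    intro F' h1 h2
    rw [← Finset.sum_image (f := G) (g := fun a => arcA_rho m (κ a)) (s := F') (fun a ha b hb h => h1 a ha b hb h)]
    refine le_trans ?_ (hS ((F'.image (fun a => arcA_rho m (κ a))).sup id))
    apply Finset.sum_le_sum_of_subset_of_nonneg
    · intro ρ hρ
      refine Finset.mem_Icc.2 ⟨?_, ?_⟩
      · obtain ⟨a, ha, rfl⟩ := Finset.mem_image.1 hρ
        exact h2 a ha
      · exact Finset.le_sup (f := id) hρ
    · intro ρ _ _
      exact hG ρ
  have a1 := key (F.filter (fun a => κ a ≤ m)) (by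
    intro a ha b hb h
    obtain ⟨ha1, ha2⟩ := Finset.mem_filter.1 ha
    obtain ⟨hb1, hb2⟩ := Finset.mem_filter.1 hb
    apply hinj a ha1 b hb1
    unfold arcA_rho at h
    rw [if_pos ha2, if_pos hb2] at h
    omega) (by
    intro a ha
    obtain ⟨ha1, ha2⟩ := Finset.mem_filter.1 ha
    unfold arcA_rho
    rw [if_pos ha2]
    omega)
  have a2 := key (F.filter (fun a => ¬ κ a ≤ m)) (by
    intro a ha b hb h
    obtain ⟨ha1, ha2⟩ := Finset.mem_filter.1 ha
    obtain ⟨hb1, hb2⟩ := Finset.mem_filter.1 hb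
    apply hinj a ha1 b hb1
    unfold arcA_rho at h
    rw [if_neg ha2, if_neg hb2] at h
    omega) (by
    intro a ha
    obtain ⟨ha1, ha2⟩ := Finset.mem_filter.1 ha
    unfold arcA_rho
    rw [if_neg ha2]
    omega)
  linarith

/-- the arcs of one foot. -/
lemma arcA_foot {C q : ℝ} (hg : ∀ (k : Bool) (T L r : ℕ), 1 ≤ T → 1 ≤ L → 1 ≤ r →
    Tube.wS (Tube.gE upd oo k T L r) ≤ C * uu (min r T) * q ^ (r / T)) {u v0 d : Pt} {P : Finset Pt} {T L r : ℕ}
    (hT : 1 ≤ T) (hL : 1 ≤ L) (hr : 1 ≤ r) (hP : ∀ w, v0 + mulE u w ∈ P ↔ w ∈ Tube.dF upd oo true T L r)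
    (hd : mulE u up = d) {ρ : ℕ} (h1 : 1 ≤ ρ) {A : Finset (List Bool)}
    (hA : ∀ t ∈ A, t ∈ ex0 P (v0, d) ∧ dx up t t.length = -up)
    (hc : (ρ ≤ r ∧ ∀ t ∈ A, ∃ i, 1 ≤ i ∧ i ≤ t.length ∧ (3 * ρ - 1 : ℤ) ≤ nn (vx oo up t i)) ∨
      (ρ ≤ L ∧ ∀ t ∈ A, ∃ i, 1 ≤ i ∧ i ≤ t.length ∧ nn (vx oo up t i) ≤ -(3 * ρ : ℤ))) :
    ∑ t ∈ A, xc ^ t.length ≤ (Real.cos (3 * Real.pi / 8))⁻¹ * C * (uu (min ρ T) * q ^ (ρ / T)) := by
  have hcos := arcA_cos
  have key : Real.cos (3 * Real.pi / 8) * Tube.wS A ≤ C * uu (min ρ T) * q ^ (ρ / T) := by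
    rcases hc with ⟨h2, h3⟩ | ⟨h2, h3⟩
    · refine (arcA_R hT hL h1 h2 (A := A) ?_).trans (hg true T L ρ hT hL h1)
      intro t ht
      exact ⟨arcA_tr hP hd (hA t ht).1, (hA t ht).2, h3 t ht⟩
    · refine (arcA_L hT h1 hr h2 (A := A) ?_).trans (hg false T (r + T + 1) ρ hT (by omega) h1)
      intro t ht
      exact ⟨arcA_tr hP hd (hA t ht).1, (hA t ht).2, h3 t ht⟩
  have h4 : ∑ t ∈ A, xc ^ t.length = Tube.wS A := rfl
  rw [h4]
  calc Tube.wS A = (Real.cos (3 * Real.pi / 8))⁻¹ * (Real.cos (3 * Real.pi / 8) * Tube.wS A) := by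
        rw [← mul_assoc, inv_mul_cancel₀ (ne_of_gt hcos), one_mul]
    _ ≤ (Real.cos (3 * Real.pi / 8))⁻¹ * (C * uu (min ρ T) * q ^ (ρ / T)) :=
        mul_le_mul_of_nonneg_left key (inv_nonneg.2 hcos.le)
    _ = _ := by ring

lemma arcA_par {T A B : ℕ} {v : Pt} : v ∈ Par T A B ↔ (cl v = 0 ∨ cl v = 2) ∧
    0 < v.1 + 2 * v.2 ∧ v.1 + 2 * v.2 < 3 * T + 2 ∧ v.2 - v.1 < 3 * A ∧ v.1 - v.2 < 3 * B - 1 := arcA_mem

lemma arcA_cl (v : Pt) : cl v = ((v.1 - v.2 : ℤ) : ZMod 3) := by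
  unfold cl
  push_cast
  rfl

lemma arcA_cl' (v : Pt) : (cl v = 0 ∨ cl v = 2) ↔ ¬ (3 ∣ (v.1 - v.2 - 1)) := by
  rw [arcA_cl]
  have h1 : (3 ∣ (v.1 - v.2 - 1)) ↔ ((v.1 - v.2 : ℤ) : ZMod 3) = 1 := by
    have := ZMod.intCast_zmod_eq_zero_iff_dvd (v.1 - v.2 - 1) 3
    push_cast at this ⊢
    rw [← this, sub_eq_zero]
  rw [h1]
  generalize ((v.1 - v.2 : ℤ) : ZMod 3) = c
  revert c
  decide

/-- the crossing index. -/
lemma arcA_crs {f : Pt} {v0 d : Pt} {t : List Bool} (hd : d ≠ (1, -1) ∧ d ≠ (-1, 1))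
    (he : dx d t t.length ≠ (1, -1) ∧ dx d t t.length ≠ (-1, 1)) (h : Crs f (v0, d) t) :
    (∃ i, 1 ≤ i ∧ i ≤ t.length ∧ nn (vx v0 d t i) = nn f + 1) ∧
      ∃ i, 1 ≤ i ∧ i ≤ t.length ∧ nn (vx v0 d t i) = nn f - 1 := by
  obtain ⟨i, hi, hc⟩ := h
  have hc' : cr f (vx v0 d t i, dx d t i) ≠ 0 := hc
  have hcase : (dx d t i = (1, -1) ∧ nn (vx v0 d t i) = nn f - 1) ∨
      (dx d t i = (-1, 1) ∧ nn (vx v0 d t i) = nn f + 1) := by
    unfold cr at hc'
    simp only at hc'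
    by_cases h1 : dx d t i = (1, -1) ∧ nn (vx v0 d t i) = nn f - 1 ∧ lv (vx v0 d t i) < lv f
    · exact Or.inl ⟨h1.1, h1.2.1⟩
    · rw [if_neg h1] at hc'
      by_cases h2 : dx d t i = (-1, 1) ∧ nn (vx v0 d t i) = nn f + 1 ∧ lv (vx v0 d t i) < lv f
      · exact Or.inr ⟨h2.1, h2.2.1⟩
      · rw [if_neg h2] at hc'
        exact absurd rfl hc'
  have h0 : 1 ≤ i := by
    by_contra hcon
    have : i = 0 := by omega
    subst this
    have h2 : dx d t 0 = d := rfl
    rw [h2] at hcase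
    rcases hcase with h | h
    · exact hd.1 h.1
    · exact hd.2 h.1
  have hlt : i < t.length := by
    rcases Nat.lt_or_ge i t.length with h2 | h2
    · exact h2
    · exfalso
      have : i = t.length := by omega
      subst this
      rcases hcase with h | h
      · exact he.1 h.1
      · exact he.2 h.1
  have hs : vx v0 d t (i + 1) = vx v0 d t i + dx d t i := vs_succ _
  rcases hcase with ⟨h1, h2⟩ | ⟨h1, h2⟩
  · refine ⟨⟨i + 1, by omega, by omega, ?_⟩, ⟨i, h0, hi, h2⟩⟩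
    rw [hs, h1]
    unfold nn at h2 ⊢
    simp only [Prod.fst_add, Prod.snd_add]
    omega
  · refine ⟨⟨i, h0, hi, h2⟩, ⟨i + 1, by omega, by omega, ?_⟩⟩
    rw [hs, h1]
    unfold nn at h2 ⊢
    simp only [Prod.fst_add, Prod.snd_add]
    omega

lemma arcA_vx {u v0 : Pt} (t : List Bool) (i : ℕ) :
    vx v0 (mulE u up) t i = v0 + mulE u (vx oo up t i) := by
  have := vx_mulE u oo v0 up t i
  rw [this]
  have : vx oo up t i - oo = vx oo up t i := sub_zero _
  rw [this]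

open Classical in
/-- arcs at the floor that cross the ray. -/
theorem arc_floor : ∃ C : ℝ, 0 < C ∧ ∀ (T A B : ℕ) (f : Pt), 1 ≤ T → 1 ≤ A → 1 ≤ B → Fc f → 0 < lv f →
    -(3 * A : ℤ) < nn f → nn f < 3 * B - 1 →
    ∑ a ∈ (bd (Par T A B)).filter (fun a => a.2 = up), ∑ t ∈ (ex0 (Par T A B) a).filter (fun t =>
      dx a.2 t t.length = -up ∧ Crs f a t), xc ^ t.length ≤ C * T * uu T := by
  obtain ⟨C, q, hC, hq, hq1, hg⟩ := gate_bound
  have hcos := arcA_cos
  have hCW : 0 ≤ CW := Tube.CW_nonneg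
  have hq2 : 0 < (1 - q)⁻¹ := inv_pos.2 (by linarith)
  refine ⟨2 * ((Real.cos (3 * Real.pi / 8))⁻¹ * C * ((6 + CW) + (1 - q)⁻¹)), by positivity, ?_⟩
  intro T A B f hT hA hB hf _ hn1 hn2
  obtain ⟨m, hm⟩ : ∃ m : ℤ, nn f = 3 * m + 1 := by
    have h1 : (3 : ℤ) ∣ f.1 - f.2 - 1 := by
      by_contra hcon
      have h2 := (arcA_cl' f).2 hcon
      unfold Fc at hf
      rw [hf] at h2
      revert h2
      decide
    obtain ⟨m, hm⟩ := h1
    exact ⟨m, by unfold nn; linarith⟩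
  -- the feet
  have hfeet : ∀ a ∈ (bd (Par T A B)).filter (fun a => a.2 = up), ∃ k : ℤ, a = ((2 * k, -k), up) ∧
      -(A : ℤ) < k ∧ k < B := by
    intro a ha
    obtain ⟨h1, h2⟩ := Finset.mem_filter.1 ha
    unfold bd at h1
    obtain ⟨h3, h4, h5⟩ := Finset.mem_filter.1 h1
    obtain ⟨p, hp, hpa⟩ := Finset.mem_image.1 h3
    obtain ⟨hp1, hp2⟩ := Finset.mem_product.1 hp
    have e1 : a.1 = p.1 - p.2 := by rw [← hpa]
    have e2 : p.2 = up := by
      rw [← h2, ← hpa]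
    rw [e2] at e1
    rw [arcA_par, arcA_cl'] at hp1
    have hv : Vt a.1 := h4.2.1
    have hv2 : ¬ (3 ∣ (a.1.1 - a.1.2 - 1)) := by
      rw [← arcA_cl']
      unfold Vt at hv
      revert hv
      generalize cl a.1 = c
      revert c
      decide
    rw [arcA_par, arcA_cl'] at h5
    have x1 : a.1.1 = p.1.1 := by
      rw [e1]
      simp [up]
    have x2 : a.1.2 = p.1.2 - 1 := by
      rw [e1]
      simp [up]
    rw [x1, x2] at hv2 h5
    obtain ⟨g1, g2, g3, g4, g5⟩ := hp1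
    have h6 : p.1.1 + 2 * (p.1.2 - 1) = 0 := by
      by_contra hcon
      apply h5
      refine ⟨hv2, ?_, ?_, ?_, ?_⟩ <;> omega
    refine ⟨-(p.1.2 - 1), ?_, by omega, by omega⟩
    apply Prod.ext
    · apply Prod.ext
      · show a.1.1 = 2 * -(p.1.2 - 1)
        rw [x1]
        omega
      · show a.1.2 = - -(p.1.2 - 1)
        rw [x2]
        ring
    · exact h2
  refine (arcA_feet (F := (bd (Par T A B)).filter (fun a => a.2 = up)) (fun a => -a.1.2) ?_ m
    (fun a => ∑ t ∈ (ex0 (Par T A B) a).filter (fun t => dx a.2 t t.length = -up ∧ Crs f a t), xc ^ t.length)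
    (fun ρ => (Real.cos (3 * Real.pi / 8))⁻¹ * C * (uu (min ρ T) * q ^ (ρ / T))) ?_ ?_
    (S := (Real.cos (3 * Real.pi / 8))⁻¹ * C * (((6 + CW) + (1 - q)⁻¹) * (T * uu T))) ?_).trans ?_
  · intro a ha b hb h
    obtain ⟨k, rfl, _, _⟩ := hfeet a ha
    obtain ⟨l, rfl, _, _⟩ := hfeet b hb
    have h' : - -k = - -l := h
    have : k = l := by omega
    rw [this]
  · intro ρ
    have := arcA_uu_nonneg (min ρ T)
    have := pow_nonneg hq.le (ρ / T)
    positivity
  · intro a ha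
    obtain ⟨k, rfl, hk1, hk2⟩ := hfeet a ha
    have hP : ∀ w, ((2 * k, -k) : Pt) + mulE (1, 0) w ∈ Par T A B ↔
        w ∈ Tube.dF upd oo true T (A + k).toNat (B - k).toNat := by
      intro w
      have e1 : ((A + k).toNat : ℤ) = A + k := Int.toNat_of_nonneg (by omega)
      have e2 : ((B - k).toNat : ℤ) = B - k := Int.toNat_of_nonneg (by omega)
      rw [mulE_one, arcA_par, arcA_mem, e1, e2, arcA_cl', arcA_cl']
      simp only [Prod.fst_add, Prod.snd_add]
      constructor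
      · rintro ⟨g1, g2, g3, g4, g5⟩
        refine ⟨?_, ?_, ?_, ?_, ?_⟩ <;> omega
      · rintro ⟨g1, g2, g3, g4, g5⟩
        refine ⟨?_, ?_, ?_, ?_, ?_⟩ <;> omega
    have hud : mulE (1, 0) up = up := mulE_one up
    show ∑ t ∈ (ex0 (Par T A B) ((2 * k, -k), up)).filter (fun t => dx up t t.length = -up ∧
      Crs f ((2 * k, -k), up) t), xc ^ t.length ≤ _
    have hk' : - -k = k := by ring
    have hcr : ∀ t ∈ (ex0 (Par T A B) ((2 * k, -k), up)).filter (fun t => dx up t t.length = -up ∧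
        Crs f ((2 * k, -k), up) t), (∃ i, 1 ≤ i ∧ i ≤ t.length ∧ nn (vx oo up t i) = 3 * m + 2 - 3 * k) ∧
          ∃ i, 1 ≤ i ∧ i ≤ t.length ∧ nn (vx oo up t i) = 3 * m - 3 * k := by
      intro t ht
      obtain ⟨_, h2, h3⟩ := Finset.mem_filter.1 ht
      have hx : ∀ i, vx (2 * k, -k) up t i = (2 * k, -k) + vx oo up t i := by
        intro i
        have := arcA_vx (u := (1, 0)) (v0 := (2 * k, -k)) t i
        rw [mulE_one, mulE_one] at this
        exact this
      obtain ⟨⟨i, i1, i2, i3⟩, ⟨j, j1, j2, j3⟩⟩ := arcA_crs (by decide) (by rw [h2]; decide) h3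
      rw [hx] at i3 j3
      unfold nn at i3 j3 hm
      simp only [Prod.fst_add, Prod.snd_add] at i3 j3
      refine ⟨⟨i, i1, i2, ?_⟩, ⟨j, j1, j2, ?_⟩⟩
      · unfold nn
        omega
      · unfold nn
        omega
    apply arcA_foot hg hT (L := (A + k).toNat) (r := (B - k).toNat) (by omega) (by omega) hP hud
    · show 1 ≤ arcA_rho m (- -k)
      unfold arcA_rho
      split_ifs <;> omega
    · intro t ht
      obtain ⟨h1, h2, _⟩ := Finset.mem_filter.1 ht
      exact ⟨h1, h2⟩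
    · show (arcA_rho m (- -k) ≤ _ ∧ _) ∨ (arcA_rho m (- -k) ≤ _ ∧ _)
      rw [hk']
      by_cases hkm : k ≤ m
      · left
        have e : arcA_rho m k = (m + 1 - k).toNat := if_pos hkm
        rw [e]
        refine ⟨by unfold nn at hm hn2; omega, ?_⟩
        intro t ht
        obtain ⟨⟨i, i1, i2, i3⟩, _⟩ := hcr t ht
        exact ⟨i, i1, i2, by rw [i3]; omega⟩
      · right
        have e : arcA_rho m k = (k - m).toNat := if_neg hkm
        rw [e]
        refine ⟨by unfold nn at hm hn1; omega, ?_⟩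
        intro t ht
        obtain ⟨_, ⟨i, i1, i2, i3⟩⟩ := hcr t ht
        exact ⟨i, i1, i2, by rw [i3]; omega⟩
  · intro R
    rw [← Finset.mul_sum]
    exact mul_le_mul_of_nonneg_left (arcA_sum hq hq1 hT R) (by positivity)
  · apply le_of_eq
    ring

open Classical in
/-- arcs at the top that cross the ray. -/
theorem arc_top : ∀ η : ℝ, 0 < η → ∃ C : ℝ, 0 < C ∧ ∀ (T A B : ℕ) (f : Pt), 1 ≤ T → 1 ≤ A → 1 ≤ B → Fc f →
    (lv f : ℝ) ≤ 3 * T - 3 * η * T → -(3 * A : ℤ) < nn f → nn f < 3 * B - 1 →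
    ∑ a ∈ (bd (Par T A B)).filter (fun a => a.2 = -up), ∑ t ∈ (ex0 (Par T A B) a).filter (fun t =>
      dx a.2 t t.length = up ∧ Crs f a t), xc ^ t.length ≤ C * T * uu T := by
  intro η _
  obtain ⟨C, q, hC, hq, hq1, hg⟩ := gate_bound
  have hcos := arcA_cos
  have hCW : 0 ≤ CW := Tube.CW_nonneg
  have hq2 : 0 < (1 - q)⁻¹ := inv_pos.2 (by linarith)
  refine ⟨2 * ((Real.cos (3 * Real.pi / 8))⁻¹ * C * ((6 + CW) + (1 - q)⁻¹)), by positivity, ?_⟩
  intro T A B f hT hA hB hf _ hn1 hn2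
  obtain ⟨m, hm⟩ : ∃ m : ℤ, nn f = 3 * m + 1 := by
    have h1 : (3 : ℤ) ∣ f.1 - f.2 - 1 := by
      by_contra hcon
      have h2 := (arcA_cl' f).2 hcon
      unfold Fc at hf
      rw [hf] at h2
      revert h2
      decide
    obtain ⟨m, hm⟩ := h1
    exact ⟨m, by unfold nn; linarith⟩
  -- the feet at the top
  have hfeet : ∀ a ∈ (bd (Par T A B)).filter (fun a => a.2 = -up), ∃ j : ℤ,
      a = ((2 * j + T, T + 1 - j), -up) ∧ -(A : ℤ) < j ∧ j < B := by
    intro a ha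
    obtain ⟨h1, h2⟩ := Finset.mem_filter.1 ha
    unfold bd at h1
    obtain ⟨h3, h4, h5⟩ := Finset.mem_filter.1 h1
    obtain ⟨p, hp, hpa⟩ := Finset.mem_image.1 h3
    obtain ⟨hp1, hp2⟩ := Finset.mem_product.1 hp
    have e1 : a.1 = p.1 - p.2 := by rw [← hpa]
    have e2 : p.2 = -up := by
      rw [← h2, ← hpa]
    rw [e2] at e1
    rw [arcA_par, arcA_cl'] at hp1
    have hv : Vt a.1 := h4.2.1
    have hv2 : ¬ (3 ∣ (a.1.1 - a.1.2 - 1)) := by
      rw [← arcA_cl']
      unfold Vt at hv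
      revert hv
      generalize cl a.1 = c
      revert c
      decide
    rw [arcA_par, arcA_cl'] at h5
    have x1 : a.1.1 = p.1.1 := by
      rw [e1]
      simp [up]
    have x2 : a.1.2 = p.1.2 + 1 := by
      rw [e1]
      simp [up]
    rw [x1, x2] at hv2 h5
    obtain ⟨g1, g2, g3, g4, g5⟩ := hp1
    have h6 : p.1.1 + 2 * (p.1.2 + 1) = 3 * T + 2 := by
      by_contra hcon
      apply h5
      refine ⟨hv2, ?_, ?_, ?_, ?_⟩ <;> omega
    refine ⟨T + 1 - (p.1.2 + 1), ?_, by omega, by omega⟩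
    apply Prod.ext
    · apply Prod.ext
      · show a.1.1 = 2 * (T + 1 - (p.1.2 + 1)) + T
        rw [x1]
        omega
      · show a.1.2 = T + 1 - (T + 1 - (p.1.2 + 1))
        rw [x2]
        ring
    · exact h2
  refine (arcA_feet (F := (bd (Par T A B)).filter (fun a => a.2 = -up)) (fun a => T + 1 - a.1.2) ?_ m
    (fun a => ∑ t ∈ (ex0 (Par T A B) a).filter (fun t => dx a.2 t t.length = up ∧ Crs f a t), xc ^ t.length)
    (fun ρ => (Real.cos (3 * Real.pi / 8))⁻¹ * C * (uu (min ρ T) * q ^ (ρ / T))) ?_ ?_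
    (S := (Real.cos (3 * Real.pi / 8))⁻¹ * C * (((6 + CW) + (1 - q)⁻¹) * (T * uu T))) ?_).trans ?_
  · intro a ha b hb h
    obtain ⟨k, rfl, _, _⟩ := hfeet a ha
    obtain ⟨l, rfl, _, _⟩ := hfeet b hb
    have h' : (T : ℤ) + 1 - (T + 1 - k) = T + 1 - (T + 1 - l) := h
    have : k = l := by omega
    rw [this]
  · intro ρ
    have := arcA_uu_nonneg (min ρ T)
    have := pow_nonneg hq.le (ρ / T)
    positivity
  · intro a ha
    obtain ⟨k, rfl, hk1, hk2⟩ := hfeet a ha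
    have hmul : ∀ w : Pt, mulE (-1, 0) w = -w := by
      intro w
      simp only [mulE]
      ext
      · simp
      · simp
    have hP : ∀ w, ((2 * k + T, T + 1 - k) : Pt) + mulE (-1, 0) w ∈ Par T A B ↔
        w ∈ Tube.dF upd oo true T (B - k).toNat (A + k).toNat := by
      intro w
      have e1 : ((A + k).toNat : ℤ) = A + k := Int.toNat_of_nonneg (by omega)
      have e2 : ((B - k).toNat : ℤ) = B - k := Int.toNat_of_nonneg (by omega)
      rw [hmul, arcA_par, arcA_mem, e1, e2, arcA_cl', arcA_cl']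
      simp only [Prod.fst_add, Prod.snd_add, Prod.fst_neg, Prod.snd_neg]
      constructor
      · rintro ⟨g1, g2, g3, g4, g5⟩
        refine ⟨?_, ?_, ?_, ?_, ?_⟩ <;> omega
      · rintro ⟨g1, g2, g3, g4, g5⟩
        refine ⟨?_, ?_, ?_, ?_, ?_⟩ <;> omega
    have hud : mulE (-1, 0) up = -up := hmul up
    have hdx : ∀ t : List Bool, ∀ i, dx (-up) t i = -dx up t i := by
      intro t i
      have := dx_mulE (-1, 0) up t i
      rw [hud, hmul] at this
      exact this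
    show ∑ t ∈ (ex0 (Par T A B) ((2 * k + T, T + 1 - k), -up)).filter (fun t => dx (-up) t t.length = up ∧
      Crs f ((2 * k + T, T + 1 - k), -up) t), xc ^ t.length ≤ _
    have hk' : (T : ℤ) + 1 - (T + 1 - k) = k := by ring
    have hend : ∀ t : List Bool, dx (-up) t t.length = up → dx up t t.length = -up := by
      intro t h
      rw [hdx] at h
      rw [← neg_neg (dx up t t.length), h]
    have hcr : ∀ t ∈ (ex0 (Par T A B) ((2 * k + T, T + 1 - k), -up)).filter (fun t => dx (-up) t t.length = up ∧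
        Crs f ((2 * k + T, T + 1 - k), -up) t),
        (∃ i, 1 ≤ i ∧ i ≤ t.length ∧ nn (vx oo up t i) = 3 * k - 1 - (3 * m + 2)) ∧
          ∃ i, 1 ≤ i ∧ i ≤ t.length ∧ nn (vx oo up t i) = 3 * k - 1 - 3 * m := by
      intro t ht
      obtain ⟨_, h2, h3⟩ := Finset.mem_filter.1 ht
      have hx : ∀ i, vx (2 * k + T, T + 1 - k) (-up) t i = (2 * k + T, T + 1 - k) + -vx oo up t i := by
        intro i
        have := arcA_vx (u := (-1, 0)) (v0 := (2 * k + T, T + 1 - k)) t i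
        rw [hmul, hmul] at this
        exact this
      obtain ⟨⟨i, i1, i2, i3⟩, ⟨j, j1, j2, j3⟩⟩ := arcA_crs (by decide) (by rw [h2]; decide) h3
      rw [hx] at i3 j3
      unfold nn at i3 j3 hm
      simp only [Prod.fst_add, Prod.snd_add, Prod.fst_neg, Prod.snd_neg] at i3 j3
      refine ⟨⟨i, i1, i2, ?_⟩, ⟨j, j1, j2, ?_⟩⟩
      · unfold nn
        omega
      · unfold nn
        omega
    apply arcA_foot hg hT (L := (B - k).toNat) (r := (A + k).toNat) (by omega) (by omega) hP hud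
    · show 1 ≤ arcA_rho m (T + 1 - (T + 1 - k))
      unfold arcA_rho
      split_ifs <;> omega
    · intro t ht
      obtain ⟨h1, h2, _⟩ := Finset.mem_filter.1 ht
      exact ⟨h1, hend t h2⟩
    · show (arcA_rho m (T + 1 - (T + 1 - k)) ≤ _ ∧ _) ∨ (arcA_rho m (T + 1 - (T + 1 - k)) ≤ _ ∧ _)
      rw [hk']
      by_cases hkm : k ≤ m
      · right
        have e : arcA_rho m k = (m + 1 - k).toNat := if_pos hkm
        rw [e]
        refine ⟨by unfold nn at hm hn2; omega, ?_⟩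
        intro t ht
        obtain ⟨⟨i, i1, i2, i3⟩, _⟩ := hcr t ht
        exact ⟨i, i1, i2, by rw [i3]; omega⟩
      · left
        have e : arcA_rho m k = (k - m).toNat := if_neg hkm
        rw [e]
        refine ⟨by unfold nn at hm hn1; omega, ?_⟩
        intro t ht
        obtain ⟨_, ⟨i, i1, i2, i3⟩⟩ := hcr t ht
        exact ⟨i, i1, i2, by rw [i3]; omega⟩
  · intro R
    rw [← Finset.mul_sum]
    exact mul_le_mul_of_nonneg_left (arcA_sum hq hq1 hT R) (by positivity)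
  · apply le_of_eq
    ring

end L14b

end LP

end HexObs
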