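import Pool.Agent.HexLoop.Hit
import Pool.Agent.HexLim.Limit

/-!
LOOP, module L19: the limits have zero area.
-/

set_option autoImplicit false

open ENNReal MeasureTheory TopologicalSpace Filter Topology

namespace HexObs

namespace CC

open Ex Haus

/-- the sets that meet the open ball -/
def hitE (ε : ℝ) (p : PL) : Set NC := {K | ∃ q ∈ K, dist q p < ε}

lemma isOpen_hitE (ε : ℝ) (p : PL) : IsOpen (hitE ε p) :=
  isOpen_meet (U := {q | dist q p < ε}) (isOpen_lt (continuous_id.dist continuous_const) continuous_const)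

/-- all feet together. -/
lemma tsum_hit {P : ℤ → Set (List Bool)} {c : ℝ}
    (h : ∀ X : Finset (ℤ × List Bool), (∀ x ∈ X, x.2 ∈ P x.1) → ∑ x ∈ X, xc ^ x.2.length ≤ c) :
    ∑' k : ℤ, gf (P k) ≤ ENNReal.ofReal c := by
  have h1 : ∑' k : ℤ, gf (P k) = ∑' x : (Σ k : ℤ, P k), wE (x.2 : List Bool) := by
    rw [ENNReal.tsum_sigma']
    rfl
  rw [h1, ENNReal.tsum_eq_iSup_sum]
  apply iSup_le
  intro s
  have h2 : ∑ x ∈ s, wE (x.2 : List Bool) =
      ∑ y ∈ s.map ⟨fun x : (Σ k : ℤ, P k) => ((x.1, (x.2 : List Bool)) : ℤ × List Bool), by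
        rintro ⟨k, t, ht⟩ ⟨k', t', ht'⟩ hkk
        simp only [Prod.mk.injEq] at hkk
        obtain ⟨rfl, rfl⟩ := hkk
        rfl⟩, wE y.2 := by
    rw [Finset.sum_map]
    rfl
  rw [h2]
  unfold wE
  rw [← ENNReal.ofReal_sum_of_nonneg (fun y _ => (pow_pos xc_pos _).le)]
  apply ENNReal.ofReal_le_ofReal
  apply h
  intro y hy
  rw [Finset.mem_map] at hy
  obtain ⟨x, -, rfl⟩ := hy
  exact x.2.2

/-- the lattice point near (a T, b T). -/
noncomputable def zz (T : ℕ) (a b : ℝ) : Pt :=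
  (⌊(3 * b * T - a * T) / 2⌋ + 3 * ⌊(a * T - (3 * b * T - a * T) / 2) / 3⌋, ⌊(3 * b * T - a * T) / 2⌋)

lemma cl_zz (T : ℕ) (a b : ℝ) : cl (zz T a b) = 0 := by
  unfold cl zz
  have h3 : (3 : ZMod 3) = 0 := three_eq
  push_cast
  linear_combination (⌊(a * T - (3 * b * T - a * T) / 2) / 3⌋ : ZMod 3) * h3

lemma zz_bd (T : ℕ) (a b : ℝ) : a * T - 4 < (zz T a b).1 ∧ ((zz T a b).1 : ℝ) ≤ a * T ∧
    (3 * b * T - a * T) / 2 - 1 < (zz T a b).2 ∧ ((zz T a b).2 : ℝ) ≤ (3 * b * T - a * T) / 2 := by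
  have h1 := Int.floor_le ((3 * b * T - a * T) / 2)
  have h2 := Int.lt_floor_add_one ((3 * b * T - a * T) / 2)
  have h3 := Int.floor_le ((a * T - (3 * b * T - a * T) / 2) / 3)
  have h4 := Int.lt_floor_add_one ((a * T - (3 * b * T - a * T) / 2) / 3)
  unfold zz
  push_cast
  refine ⟨?_, ?_, ?_, ?_⟩ <;> linarith

lemma zz_box {T s : ℕ} {a b ε : ℝ} (hs : 2 * ε * T + 6 ≤ s) {v : Pt} {y : ℤ}
    (h1 : |(v.1 : ℝ) - a * T| < ε * T) (h2 : |(y : ℝ) - b * T| < ε * T) (h3 : LP.lv v = 3 * y ∨ LP.lv v = 3 * y - 1) :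
    LP.Bx (zz T a b) s v := by
  obtain ⟨z1, z2, z3, z4⟩ := zz_bd T a b
  have e1 : (LP.lv v : ℝ) = v.1 + 2 * v.2 := by
    unfold LP.lv
    push_cast
    ring
  have e2 : 3 * (y : ℝ) - 1 ≤ LP.lv v ∧ (LP.lv v : ℝ) ≤ 3 * y := by
    rcases h3 with h3 | h3 <;> rw [h3] <;> push_cast <;> constructor <;> linarith
  rw [abs_lt] at h1 h2
  have hεT : 0 < ε * T := by linarith
  unfold LP.Bx
  have f1 : |((v.1 : ℝ) - (zz T a b).1)| ≤ s := by
    rw [abs_le]
    constructor <;> linarith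
  have f2 : |((v.2 : ℝ) - (zz T a b).2)| ≤ s := by
    rw [abs_le]
    constructor <;> linarith
  constructor
  · simp only [Prod.fst_sub]
    exact_mod_cast f1
  · simp only [Prod.snd_sub]
    exact_mod_cast f2

lemma lv_zz (T : ℕ) (a b : ℝ) : 3 * b * T - 6 ≤ (LP.lv (zz T a b) : ℝ) ∧ (LP.lv (zz T a b) : ℝ) ≤ 3 * b * T := by
  obtain ⟨z1, z2, z3, z4⟩ := zz_bd T a b
  have e1 : (LP.lv (zz T a b) : ℝ) = (zz T a b).1 + 2 * (zz T a b).2 := by
    unfold LP.lv
    push_cast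
    ring
  rw [e1]
  constructor <;> linarith

lemma ft_eq (k : ℤ) : (LP.ft k).1 = (2 * k, -k) := by
  show k • hz up = _
  have : hz up = (2, -1) := by decide
  rw [this]
  simp only [Prod.smul_mk, smul_eq_mul, mul_neg, mul_one]
  rw [mul_comm]

/-- the finite estimate. -/
lemma fin_hit : ∀ η : ℝ, 0 < η → ∃ (C : ℝ) (M : ℕ), 0 < C ∧ 1 ≤ M ∧ ∀ (T s : ℕ) (a b ε : ℝ), 1 ≤ s → M * s < T →
    2 ≤ η * T → 2 * η ≤ b → b ≤ 1 - 2 * η → 0 < ε → 2 * ε * T + 6 ≤ s →
    ∑' k : ℤ, law T (hitE ε (a + k * (2 / T), b)) ≤ ENNReal.ofReal (C * T / Real.log (T / (M * s))) := by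
  intro η hη
  obtain ⟨C, M, hC, hM, hhit⟩ := LP.hit_le η hη
  refine ⟨C, M, hC, hM, ?_⟩
  intro T s a b ε hs hMs hηT hb1 hb2 hε hεs
  have hT : 1 ≤ T := by omega
  have hT0 : (0 : ℝ) < T := by exact_mod_cast hT
  have hMs' : (M * s : ℝ) < T := by exact_mod_cast hMs
  have hMs0 : (0 : ℝ) < M * s := by
    have : 0 < M * s := Nat.mul_pos hM hs
    exact_mod_cast this
  have hlog : 0 < Real.log (T / (M * s)) := Real.log_pos (by rw [lt_div_iff₀ hMs0]; linarith)
  set P : ℤ → Set (List Bool) := fun k => {t | t ∈ Brd T ∧ ∃ i, 1 ≤ i ∧ i ≤ t.length ∧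
    LP.Bx (zz T a b) s (vx (LP.ft (-k)).1 up t i)} with hP
  have h1 : ∀ k : ℤ, law T (hitE ε (a + k * (2 / T), b)) ≤ (B T)⁻¹ * gf (P k) := by
    intro k
    refine (law_le hT (Q := fun L => ∃ h : ∃ b, Crossing T 0 b L, trace T ⟨L, h⟩ ∈ hitE ε (a + k * (2 / T), b))
      (fun L hL => ⟨L.2, hL⟩)).trans ?_
    refine mul_le_mul' le_rfl (gf_mono ?_)
    rintro t ⟨ht, hb, q, hq, hqd⟩
    refine ⟨ht, ?_⟩
    obtain ⟨i, y, i1, i2, e1, e2, e3⟩ := trace_site (t := t) rfl hq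
    refine ⟨i, i1, i2, ?_⟩
    rw [Prod.dist_eq, max_lt_iff, Real.dist_eq, Real.dist_eq, e1, e2] at hqd
    obtain ⟨d1, d2⟩ := hqd
    have hlat : (lat t i : ℝ) = (vx oo up t i).1 := by
      have : lat t i = (vx oo up t i).1 := by
        unfold lat cross up
        simp
      rw [this]
    have e4 : vx (LP.ft (-k)).1 up t i = ((vx oo up t i).1 - 2 * k, (vx oo up t i).2 + k) := by
      rw [LP.hit_vx, ft_eq]
      apply Prod.ext
      · simp only [Prod.fst_add]
        ring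
      · simp only [Prod.snd_add]
        ring
    apply zz_box (y := y) hεs
    · rw [e4]
      have e5 : ((((vx oo up t i).1 - 2 * k : ℤ)) : ℝ) - a * T = ((lat t i : ℝ) / T - (a + k * (2 / T))) * T := by
        rw [hlat]
        push_cast
        field_simp
        ring
      show |((((vx oo up t i).1 - 2 * k : ℤ)) : ℝ) - a * T| < ε * T
      rw [e5, abs_mul, abs_of_pos hT0]
      exact mul_lt_mul_of_pos_right d1 hT0
    · have e5 : (y : ℝ) - b * T = ((y : ℝ) / T - b) * T := by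
        field_simp
      rw [e5, abs_mul, abs_of_pos hT0]
      exact mul_lt_mul_of_pos_right d2 hT0
    · have e5 : LP.lv (vx (LP.ft (-k)).1 up t i) = lev t i := by
        rw [LP.hit_vx, LP.hit_lv_add, LP.lv_ft, zero_add]
        show (vx oo up t i).1 + 2 * (vx oo up t i).2 = ip (vx oo up t i) up
        unfold ip up
        ring
      rw [e5]
      exact e3
  have hz := lv_zz T a b
  have h2 : ∑' k : ℤ, gf (P k) ≤ ENNReal.ofReal (C * T * uu T / Real.log (T / (M * s))) := by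
    have h3 : ∑' k : ℤ, gf (P (-k)) = ∑' k : ℤ, gf (P k) := (Equiv.neg ℤ).tsum_eq (fun k => gf (P k))
    rw [← h3]
    apply tsum_hit
    intro X hX
    rw [le_div_iff₀ hlog]
    apply hhit T s (zz T a b) hs hMs.le (cl_zz T a b)
    · have : 3 * (2 * η) * T ≤ 3 * b * T := by
        apply mul_le_mul_of_nonneg_right _ hT0.le
        linarith
      linarith [hz.1]
    · have : 3 * b * T ≤ 3 * (1 - 2 * η) * T := by
        apply mul_le_mul_of_nonneg_right _ hT0.le
        linarith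
      have h4 : 0 ≤ η * T := by linarith
      linarith [hz.2]
    · intro x hx
      obtain ⟨a1, i, i1, i2, i3⟩ := hX x hx
      rw [neg_neg] at i3
      exact ⟨a1, i, i1, i2, i3⟩
  calc ∑' k : ℤ, law T (hitE ε (a + k * (2 / T), b)) ≤ ∑' k : ℤ, (B T)⁻¹ * gf (P k) := ENNReal.tsum_le_tsum h1
    _ = (B T)⁻¹ * ∑' k : ℤ, gf (P k) := ENNReal.tsum_mul_left
    _ ≤ (B T)⁻¹ * ENNReal.ofReal (C * T * uu T / Real.log (T / (M * s))) := mul_le_mul' le_rfl h2
    _ = (B T)⁻¹ * ENNReal.ofReal (C * T / Real.log (T / (M * s)) * uu T) := by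
        congr 2
        ring
    _ = ENNReal.ofReal (C * T / Real.log (T / (M * s))) := by
        rw [ENNReal.ofReal_mul (by positivity), ← B_uu hT, mul_comm (B T)⁻¹, mul_assoc,
          ENNReal.mul_inv_cancel (B_ne_zero hT) (B_ne_top' hT), mul_one]

/-- periodization of an integral. -/
lemma lint_period {p : ℝ} (hp : 0 < p) (F : ℝ → ℝ≥0∞) {c : ℝ≥0∞} (hF : Measurable F)
    (h : ∀ a, ∑' k : ℤ, F (a + k * p) ≤ c) : ∫⁻ a, F a ≤ c * ENNReal.ofReal p := by
  have hU : (⋃ n : ℤ, Set.Ioc (n • p) ((n + 1) • p)) = Set.univ := iUnion_Ioc_zsmul hp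
  have h1 : ∫⁻ a, F a = ∑' n : ℤ, ∫⁻ a in Set.Ioc (n • p) ((n + 1) • p), F a := by
    rw [← setLIntegral_univ, ← hU]
    exact lintegral_iUnion (fun n => measurableSet_Ioc) (Set.pairwise_disjoint_Ioc_zsmul p) F
  have h2 : ∀ n : ℤ, ∫⁻ a in Set.Ioc (n • p) ((n + 1) • p), F a = ∫⁻ a in Set.Ioc 0 p, F (a + n * p) := by
    intro n
    rw [← lintegral_indicator measurableSet_Ioc, ← lintegral_indicator measurableSet_Ioc,
      ← lintegral_add_right_eq_self _ (n * p)]
    apply lintegral_congr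
    intro a
    have e : a + n * p ∈ Set.Ioc (n • p) ((n + 1) • p) ↔ a ∈ Set.Ioc 0 p := by
      rw [Set.mem_Ioc, Set.mem_Ioc, zsmul_eq_mul, zsmul_eq_mul]
      push_cast
      constructor
      · rintro ⟨h3, h4⟩
        constructor <;> linarith
      · rintro ⟨h3, h4⟩
        constructor <;> linarith
    by_cases h3 : a ∈ Set.Ioc 0 p
    · rw [Set.indicator_of_mem h3, Set.indicator_of_mem (e.2 h3)]
    · rw [Set.indicator_of_notMem h3, Set.indicator_of_notMem (fun h4 => h3 (e.1 h4))]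
  rw [h1]
  simp_rw [h2]
  rw [← lintegral_tsum (f := fun (n : ℤ) (a : ℝ) => F (a + n * p))
    (fun n => (hF.comp (measurable_id.add_const (n * p))).aemeasurable)]
  calc ∫⁻ a in Set.Ioc 0 p, ∑' n : ℤ, F (a + n * p) ≤ ∫⁻ _ in Set.Ioc 0 p, c := lintegral_mono (fun a => h a)
    _ = c * ENNReal.ofReal p := by
        rw [setLIntegral_const, Real.volume_Ioc, sub_zero]

lemma meas_hit (T : ℕ) (ε b : ℝ) : Measurable (fun a : ℝ => law T (hitE ε (a, b))) := by
  simp_rw [law_apply]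
  apply Measurable.const_mul
  apply Measurable.ennreal_tsum
  intro L
  have h1 : (fun a : ℝ => (hitE ε (a, b)).indicator (fun _ => wt L.1) (trace T L)) =
      {a : ℝ | trace T L ∈ hitE ε (a, b)}.indicator (fun _ => wt L.1) := rfl
  rw [h1]
  apply measurable_const.indicator
  apply IsOpen.measurableSet
  have h2 : {a : ℝ | trace T L ∈ hitE ε (a, b)} = ⋃ q ∈ (trace T L : Set PL), {a | dist q (a, b) < ε} := by
    ext a
    simp only [Set.mem_ofPred_eq, Set.mem_iUnion]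
    constructor
    · rintro ⟨q, hq, h⟩
      exact ⟨q, hq, h⟩
    · rintro ⟨q, hq, h⟩
      exact ⟨q, hq, h⟩
  rw [h2]
  apply isOpen_biUnion
  intro q _
  exact isOpen_lt (by fun_prop) continuous_const

lemma fin_line : ∀ η : ℝ, 0 < η → ∃ (C : ℝ) (M : ℕ), 0 < C ∧ 1 ≤ M ∧ ∀ (T s : ℕ) (b ε : ℝ), 1 ≤ s → M * s < T →
    2 ≤ η * T → 2 * η ≤ b → b ≤ 1 - 2 * η → 0 < ε → 2 * ε * T + 6 ≤ s →
    ∫⁻ a : ℝ, law T (hitE ε (a, b)) ≤ ENNReal.ofReal (2 * C / Real.log (T / (M * s))) := by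
  intro η hη
  obtain ⟨C, M, hC, hM, h⟩ := fin_hit η hη
  refine ⟨C, M, hC, hM, ?_⟩
  intro T s b ε hs hMs hηT hb1 hb2 hε hεs
  have hT : 1 ≤ T := by omega
  have hT0 : (0 : ℝ) < T := by exact_mod_cast hT
  have h1 := lint_period (p := 2 / T) (by positivity) (fun a => law T (hitE ε (a, b))) (meas_hit T ε b)
    (fun a => h T s a b ε hs hMs hηT hb1 hb2 hε hεs)
  refine h1.trans (le_of_eq ?_)
  rw [← ENNReal.ofReal_mul' (by positivity)]
  congr 1
  field_simp

section limit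

variable {φ : ℕ → ℕ} {ν : ProbabilityMeasure NC}

/-- the estimate in the limit, on one line. -/
theorem lim_line : ∀ η : ℝ, 0 < η → ∃ C : ℝ, 0 < C ∧ ∃ ε0 : ℝ, 0 < ε0 ∧ ε0 < 1 ∧ ∀ {φ : ℕ → ℕ} {ν : ProbabilityMeasure NC},
    Tendsto φ atTop atTop → Tendsto (fun k => lawP (φ k)) atTop (𝓝 ν) → ∀ b ε : ℝ, 2 * η ≤ b → b ≤ 1 - 2 * η →
    0 < ε → ε < ε0 → ∫⁻ a : ℝ, (ν : Measure NC) (hitE ε (a, b)) ≤ ENNReal.ofReal (C / Real.log (1 / ε)) := by
  intro η hη
  obtain ⟨C, M, hC, hM, hline⟩ := fin_line η hη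
  have hM1 : (1 : ℝ) ≤ M := by exact_mod_cast hM
  have hM0 : (0 : ℝ) < M := by linarith
  refine ⟨4 * C, by positivity, 1 / (9 * M ^ 2), by positivity, ?_, ?_⟩
  · rw [div_lt_one (by positivity)]
    nlinarith
  intro φ ν hφ h b ε hb1 hb2 hε hε0
  have hε1 : ε * (9 * M ^ 2) < 1 := by
    rwa [lt_div_iff₀ (by positivity)] at hε0
  have hε3 : 3 * M * ε < 1 := by
    have h1 : 0 ≤ (M * ε) * (3 * M - 1) := mul_nonneg (by positivity) (by linarith)
    nlinarith
  have hεlt : ε < 1 := by nlinarith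
  have hlogε : 0 < Real.log (1 / ε) := Real.log_pos (by rw [lt_div_iff₀ hε]; linarith)
  have hlog3 : Real.log (1 / ε) / 2 ≤ Real.log (1 / (3 * M * ε)) := by
    have h1 : (1 / ε) ≤ (1 / (3 * M * ε)) ^ 2 := by
      rw [div_pow, one_pow, div_le_div_iff₀ hε (by positivity)]
      nlinarith
    have h2 := Real.log_le_log (by positivity) h1
    rw [Real.log_pow] at h2
    push_cast at h2
    linarith
  -- the finite estimate for large T
  have hfin : ∀ᶠ T : ℕ in atTop, ∫⁻ a : ℝ, law T (hitE ε (a, b)) ≤ ENNReal.ofReal (4 * C / Real.log (1 / ε)) := by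
    obtain ⟨T0, hT0⟩ := exists_nat_ge (max (7 / ε) (2 / η))
    filter_upwards [eventually_ge_atTop (T0 + 1)] with T hT
    have hT1 : (max (7 / ε) (2 / η) : ℝ) ≤ T := hT0.trans (by exact_mod_cast (by omega : T0 ≤ T))
    have hTp : (0 : ℝ) < T := by
      have : 0 < T := by omega
      exact_mod_cast this
    have h7 : 7 ≤ ε * T := by
      have := (le_max_left _ _).trans hT1
      rw [div_le_iff₀ hε] at this
      linarith
    have h2 : 2 ≤ η * T := by
      have := (le_max_right _ _).trans hT1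
      rw [div_le_iff₀ hη] at this
      linarith
    set s : ℕ := ⌈2 * ε * T⌉₊ + 6 with hs
    have hs1 : (2 * ε * T + 6 : ℝ) ≤ s := by
      rw [hs]
      push_cast
      linarith [Nat.le_ceil (2 * ε * T)]
    have hs2 : (s : ℝ) ≤ 3 * ε * T := by
      rw [hs]
      push_cast
      have := Nat.ceil_lt_add_one (a := 2 * ε * T) (by positivity)
      linarith
    have hs3 : 1 ≤ s := by omega
    have hs0 : (0 : ℝ) < s := by exact_mod_cast hs3
    have hMs : (M * s : ℝ) ≤ 3 * M * ε * T := by nlinarith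
    have hMsT : (M * s : ℝ) < T := by nlinarith
    have h3 := hline T s b ε hs3 (by exact_mod_cast hMsT) h2 hb1 hb2 hε hs1
    refine h3.trans (ENNReal.ofReal_le_ofReal ?_)
    have h4 : Real.log (1 / (3 * M * ε)) ≤ Real.log (T / (M * s)) := by
      apply Real.log_le_log (by positivity)
      rw [div_le_div_iff₀ (by positivity) (by positivity)]
      linarith
    have h5 : Real.log (1 / ε) / 2 ≤ Real.log (T / (M * s)) := hlog3.trans h4
    rw [div_le_div_iff₀ (by linarith) hlogε]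
    nlinarith
  calc ∫⁻ a : ℝ, (ν : Measure NC) (hitE ε (a, b))
      ≤ ∫⁻ a : ℝ, liminf (fun k => (lawP (φ k) : Measure NC) (hitE ε (a, b))) atTop :=
        lintegral_mono (fun a => ProbabilityMeasure.le_liminf_measure_open_of_tendsto h (isOpen_hitE ε (a, b)))
    _ ≤ liminf (fun k => ∫⁻ a : ℝ, (lawP (φ k) : Measure NC) (hitE ε (a, b))) atTop := by
        apply lintegral_liminf_le
        intro k
        simp_rw [lawP_coe]
        exact meas_hit _ ε b
    _ ≤ ENNReal.ofReal (4 * C / Real.log (1 / ε)) := by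
        apply liminf_le_of_frequently_le'
        apply Eventually.frequently
        filter_upwards [hφ.eventually hfin, hφ.eventually_ge_atTop 1] with k hk hk1
        rw [lawP_coe, max_eq_right hk1]
        exact hk

/-- the neighbourhoods are measurable. -/
lemma isOpen_nb (ε : ℝ) : IsOpen {x : NC × PL | ∃ q ∈ x.1, dist q x.2 < ε} := by
  have h1 : IsOpen {x : PL × PL × PL | dist x.1 x.2.2 < ε} := isOpen_lt (by fun_prop) continuous_const
  have h2 := isOpen_pair h1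
  have e : {x : NC × PL | ∃ q ∈ x.1, dist q x.2 < ε} =
      {x : NC × PL | ∃ p ∈ x.1, ∃ p' ∈ x.1, (p, p', x.2) ∈ {x : PL × PL × PL | dist x.1 x.2.2 < ε}} := by
    ext x
    constructor
    · rintro ⟨q, hq, h⟩
      exact ⟨q, hq, q, hq, h⟩
    · rintro ⟨q, hq, _, _, h⟩
      exact ⟨q, hq, h⟩
  rw [e]
  exact h2

lemma nb_le {η : ℝ} (hη : 0 < η) {C ε : ℝ} (hh : ∀ b : ℝ, 2 * η ≤ b → b ≤ 1 - 2 * η →
    ∫⁻ a : ℝ, (ν : Measure NC) (hitE ε (a, b)) ≤ ENNReal.ofReal C) :
    ∫⁻ K : NC, volume {p : PL | 2 * η ≤ p.2 ∧ p.2 ≤ 1 - 2 * η ∧ ∃ q ∈ K, dist q p < ε} ∂(ν : Measure NC) ≤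
      ENNReal.ofReal C := by
  have hS : MeasurableSet {x : NC × PL | 2 * η ≤ x.2.2 ∧ x.2.2 ≤ 1 - 2 * η ∧ ∃ q ∈ x.1, dist q x.2 < ε} := by
    apply MeasurableSet.inter
    · exact (isClosed_le (f := fun _ : NC × PL => 2 * η) (g := fun x : NC × PL => x.2.2) continuous_const
        (continuous_snd.comp continuous_snd)).measurableSet
    · apply MeasurableSet.inter
      · exact (isClosed_le (f := fun x : NC × PL => x.2.2) (g := fun _ : NC × PL => 1 - 2 * η)
          (continuous_snd.comp continuous_snd) continuous_const).measurableSet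
      · exact (isOpen_nb ε).measurableSet
  have h1 : ∫⁻ K : NC, volume {p : PL | 2 * η ≤ p.2 ∧ p.2 ≤ 1 - 2 * η ∧ ∃ q ∈ K, dist q p < ε} ∂(ν : Measure NC) =
      ((ν : Measure NC).prod (volume : Measure PL)) {x : NC × PL | 2 * η ≤ x.2.2 ∧ x.2.2 ≤ 1 - 2 * η ∧ ∃ q ∈ x.1, dist q x.2 < ε} :=
    (Measure.prod_apply hS).symm
  rw [h1, Measure.prod_apply_symm hS]
  have h2 : Measurable (fun p : PL => (ν : Measure NC) ((fun K => (K, p)) ⁻¹' {x : NC × PL | 2 * η ≤ x.2.2 ∧ x.2.2 ≤ 1 - 2 * η ∧ ∃ q ∈ x.1, dist q x.2 < ε})) :=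
    measurable_measure_prodMk_right hS
  rw [Measure.volume_eq_prod, lintegral_prod_symm' _ h2]
  calc ∫⁻ b : ℝ, ∫⁻ a : ℝ, (ν : Measure NC) ((fun K => (K, (a, b))) ⁻¹' {x : NC × PL | 2 * η ≤ x.2.2 ∧ x.2.2 ≤ 1 - 2 * η ∧ ∃ q ∈ x.1, dist q x.2 < ε})
      ≤ ∫⁻ b : ℝ, (Set.Icc (0 : ℝ) 1).indicator (fun _ => ENNReal.ofReal C) b := by
        apply lintegral_mono
        intro b
        by_cases hb : 2 * η ≤ b ∧ b ≤ 1 - 2 * η
        · have hb' : b ∈ Set.Icc (0 : ℝ) 1 := ⟨by linarith [hb.1], by linarith [hb.2]⟩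
          rw [Set.indicator_of_mem hb']
          refine le_trans (lintegral_mono fun a => measure_mono ?_) (hh b hb.1 hb.2)
          intro K hK
          exact hK.2.2
        · have : ∀ a : ℝ, (fun K : NC => (K, ((a, b) : PL))) ⁻¹' {x : NC × PL | 2 * η ≤ x.2.2 ∧ x.2.2 ≤ 1 - 2 * η ∧ ∃ q ∈ x.1, dist q x.2 < ε} = ∅ := by
            intro a
            rw [Set.eq_empty_iff_forall_notMem]
            intro K hK
            exact hb ⟨hK.1, hK.2.1⟩
          simp only [this, measure_empty, lintegral_zero]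
          exact zero_le
    _ = ENNReal.ofReal C := by
        rw [lintegral_indicator measurableSet_Icc, setLIntegral_const, Real.volume_Icc, sub_zero, ENNReal.ofReal_one,
          mul_one]

/-- the area of the neighbourhoods of the limit. -/
theorem lim_nbhd : ∀ η : ℝ, 0 < η → ∃ C : ℝ, 0 < C ∧ ∃ ε0 : ℝ, 0 < ε0 ∧ ε0 < 1 ∧ ∀ {φ : ℕ → ℕ} {ν : ProbabilityMeasure NC},
    Tendsto φ atTop atTop → Tendsto (fun k => lawP (φ k)) atTop (𝓝 ν) → ∀ ε : ℝ, 0 < ε → ε < ε0 →
    ∫⁻ K : NC, volume {p : PL | η ≤ p.2 ∧ p.2 ≤ 1 - η ∧ ∃ q ∈ K, dist q p < ε} ∂(ν : Measure NC) ≤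
      ENNReal.ofReal (C / Real.log (1 / ε)) := by
  intro η hη
  obtain ⟨C, hC, ε0, h1, h2, h3⟩ := lim_line (η / 2) (by positivity)
  refine ⟨C, hC, ε0, h1, h2, ?_⟩
  intro φ ν hφ h ε hε hε0
  have h4 := nb_le (ν := ν) (η := η / 2) (by positivity) (C := C / Real.log (1 / ε)) (ε := ε)
    (fun b hb1 hb2 => h3 hφ h b ε hb1 hb2 hε hε0)
  have e : 2 * (η / 2) = η := by ring
  rw [e] at h4
  exact h4

/-- the closed set of the pairs (K, p) with p in K. -/
lemma isClosed_mem : IsClosed {x : NC × PL | x.2 ∈ x.1} := by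
  rw [← isOpen_compl_iff, isOpen_iff_mem_nhds]
  rintro ⟨K, p⟩ hx
  have hp : p ∉ (K : Set PL) := hx
  obtain ⟨r, hr, hball⟩ := Metric.isOpen_iff.1 K.isCompact.isClosed.isOpen_compl p hp
  have h1 : IsOpen {K' : NC | ∀ q ∈ K', q ∈ {q : PL | r / 2 < dist q p}} :=
    isOpen_sub (isOpen_lt continuous_const (by fun_prop))
  have h2 : K ∈ {K' : NC | ∀ q ∈ K', q ∈ {q : PL | r / 2 < dist q p}} := by
    intro q hq
    show r / 2 < dist q p
    by_contra h3
    have h4 : q ∈ Metric.ball p r := by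
      rw [Metric.mem_ball]
      linarith [not_lt.1 h3]
    exact hball h4 hq
  refine Filter.mem_of_superset ((h1.prod Metric.isOpen_ball).mem_nhds
    (show (K, p) ∈ {K' : NC | ∀ q ∈ K', q ∈ {q : PL | r / 2 < dist q p}} ×ˢ Metric.ball p (r / 2) from
      ⟨h2, Metric.mem_ball_self (by positivity)⟩)) ?_
  rintro ⟨K', p'⟩ ⟨h3, h4⟩ h5
  have h6 : r / 2 < dist p' p := h3 p' h5
  have h7 : dist p' p < r / 2 := Metric.mem_ball.1 h4
  linarith

/-- a fixed line meets the limit in a set of length zero. -/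
theorem lim_slice (hφ : Tendsto φ atTop atTop) (h : Tendsto (fun k => lawP (φ k)) atTop (𝓝 ν)) (l : ℝ) :
    ∀ᵐ (K : NC) ∂(ν : Measure NC), volume {x : ℝ | (x, l) ∈ K} = 0 := by
  by_cases hl : 0 < l ∧ l < 1
  · -- inside the strip
    set η := min l (1 - l) / 2 with hη
    have hη0 : 0 < η := by
      have : 0 < min l (1 - l) := lt_min hl.1 (by linarith [hl.2])
      positivity
    have hl1 : 2 * η ≤ l := by
      have := min_le_left l (1 - l)
      linarith
    have hl2 : l ≤ 1 - 2 * η := by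
      have := min_le_right l (1 - l)
      linarith
    obtain ⟨C, hC, ε0, h1, h2, h3⟩ := lim_line η hη0
    have hS : MeasurableSet {x : NC × ℝ | (x.2, l) ∈ x.1} := by
      apply IsClosed.measurableSet
      exact isClosed_mem.preimage (f := fun x : NC × ℝ => ((x.1, (x.2, l)) : NC × PL)) (by fun_prop)
    have h4 : ∫⁻ a : ℝ, (ν : Measure NC) {K : NC | (a, l) ∈ K} = 0 := by
      have h5 : ∀ ε : ℝ, 0 < ε → ε < ε0 → ∫⁻ a : ℝ, (ν : Measure NC) {K : NC | (a, l) ∈ K} ≤
          ENNReal.ofReal (C / Real.log (1 / ε)) := by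
        intro ε hε hε0
        refine le_trans (lintegral_mono fun a => measure_mono ?_) (h3 hφ h l ε hl1 hl2 hε hε0)
        intro K hK
        exact ⟨(a, l), hK, by rw [dist_self]; exact hε⟩
      have h6 : Tendsto (fun ε : ℝ => ENNReal.ofReal (C / Real.log (1 / ε))) (𝓝[>] 0) (𝓝 0) := by
        have h7 : Tendsto (fun ε : ℝ => Real.log (1 / ε)) (𝓝[>] 0) atTop := by
          simp only [one_div]
          exact Real.tendsto_log_atTop.comp tendsto_inv_nhdsGT_zero
        have h8 := ENNReal.tendsto_ofReal (h7.const_div_atTop C)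
        rwa [ENNReal.ofReal_zero] at h8
      refine le_antisymm (ge_of_tendsto h6 ?_) zero_le
      filter_upwards [Ioo_mem_nhdsGT h1] with ε hε
      exact h5 ε hε.1 hε.2
    have h9 : ∫⁻ K : NC, volume {x : ℝ | (x, l) ∈ K} ∂(ν : Measure NC) = 0 := by
      have e1 : ∫⁻ K : NC, volume {x : ℝ | (x, l) ∈ K} ∂(ν : Measure NC) =
          ((ν : Measure NC).prod (volume : Measure ℝ)) {x : NC × ℝ | (x.2, l) ∈ x.1} := (Measure.prod_apply hS).symm
      rw [e1, Measure.prod_apply_symm hS]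
      exact h4
    have h10 : Measurable (fun K : NC => volume {x : ℝ | (x, l) ∈ K}) := measurable_measure_prodMk_left hS
    exact (lintegral_eq_zero_iff h10).1 h9
  · -- at most one point
    have e2 := lim_strip hφ h
    have e5 := lim_bot hφ h
    have e6 := lim_top hφ h
    filter_upwards [e2, e5, e6] with K k2 k5 k6
    have hsub : {x : ℝ | (x, l) ∈ K}.Subsingleton := by
      intro x hx x' hx'
      have hx1 : (x, l) ∈ K := hx
      have hx2 : (x', l) ∈ K := hx'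
      have h1 := k2 _ hx1
      simp only [] at h1
      rcases eq_or_ne l 0 with h0 | h0
      · subst h0
        have a1 := k5 _ hx1 rfl
        have a2 := k5 _ hx2 rfl
        simp only [] at a1 a2
        rw [a1, a2]
      · have hl1 : l = 1 := by
          by_contra hne
          exact hl ⟨lt_of_le_of_ne h1.1 (Ne.symm h0), lt_of_le_of_ne h1.2 hne⟩
        have a1 := k6 _ hx1 _ hx2 hl1 hl1
        exact congrArg Prod.fst a1
    exact hsub.measure_zero volume

/-- the limit has zero area. -/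
theorem lim_area (hφ : Tendsto φ atTop atTop) (h : Tendsto (fun k => lawP (φ k)) atTop (𝓝 ν)) :
    ∀ᵐ (K : NC) ∂(ν : Measure NC), volume (K : Set PL) = 0 := by
  have hS : MeasurableSet {x : NC × PL | x.2 ∈ x.1} := isClosed_mem.measurableSet
  have h9 : ∫⁻ K : NC, volume (K : Set PL) ∂(ν : Measure NC) = 0 := by
    have e1 : ∫⁻ K : NC, volume (K : Set PL) ∂(ν : Measure NC) =
        ((ν : Measure NC).prod (volume : Measure PL)) {x : NC × PL | x.2 ∈ x.1} := (Measure.prod_apply hS).symm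
    rw [e1, Measure.prod_apply_symm hS]
    have h2 : Measurable (fun p : PL => (ν : Measure NC) ((fun K => (K, p)) ⁻¹' {x : NC × PL | x.2 ∈ x.1})) :=
      measurable_measure_prodMk_right hS
    rw [Measure.volume_eq_prod, lintegral_prod_symm' _ h2]
    have h3 : ∀ b : ℝ, ∫⁻ a : ℝ, (ν : Measure NC) ((fun K => (K, ((a, b) : PL))) ⁻¹' {x : NC × PL | x.2 ∈ x.1}) = 0 := by
      intro b
      have hS' : MeasurableSet {x : NC × ℝ | (x.2, b) ∈ x.1} := by
        apply IsClosed.measurableSet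
        exact isClosed_mem.preimage (f := fun x : NC × ℝ => ((x.1, (x.2, b)) : NC × PL)) (by fun_prop)
      have e2 : ∫⁻ a : ℝ, (ν : Measure NC) ((fun K => (K, ((a, b) : PL))) ⁻¹' {x : NC × PL | x.2 ∈ x.1}) =
          ((ν : Measure NC).prod (volume : Measure ℝ)) {x : NC × ℝ | (x.2, b) ∈ x.1} :=
        (Measure.prod_apply_symm hS').symm
      rw [e2, Measure.prod_apply hS']
      have h4 := lim_slice hφ h b
      rw [lintegral_congr_ae (g := fun _ => 0)]
      · simp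
      · filter_upwards [h4] with K hK
        exact hK
    simp only [h3, lintegral_zero]
  have h10 : Measurable (fun K : NC => volume (K : Set PL)) := measurable_measure_prodMk_left hS
  exact (lintegral_eq_zero_iff h10).1 h9

end limit

end CC

end HexObs
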