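import Pool.Agent.HexLoop.Jordan
import Pool.Agent.HexLoop.Inside
import Pool.Agent.HexLoop.RevW

/-!
LOOP L6: phases of lollipops and closed polygons.
Uses from L1 - L3: root_at, pe_card, isPoly_fun, isPoly_de, turn_sum, eIn_turn, mem_polys.
-/

set_option autoImplicit false

namespace HexObs

namespace LP

open Complex Finset

section L6

private lemma L6_turn_dir : ∀ d ∈ dirs, ∀ d' ∈ dirs, ∀ b : Bool, turn b d = turn b d' → d = d' := by
  decide +kernel

private lemma L6_turn_b : ∀ d ∈ dirs, ∀ b b' : Bool, turn b d = turn b' d → b = b' := by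
  decide +kernel

private lemma L6_sgn (b : Bool) : sgn b = 1 ∨ sgn b = -1 := by
  cases b <;> simp [sgn]

private lemma L6_sgn_ne {b c : Bool} (h : c ≠ b) : sgn c = -sgn b := by
  cases b <;> cases c <;> simp_all [sgn]

/-- the polygon E follows the word t from the index j on. -/
private lemma L6_follow {E : Finset (Pt × Pt)} (hE : IsPoly E) {p : Pt × Pt} {t : List Bool} {τ : ℕ → Bool}
    {j m : ℕ} {q : Pt × Pt} (h1 : q = (vx p.1 p.2 t j, dx p.2 t j)) (hP : Poly q.1 q.2 τ m)
    (hEq : E = pe q.1 q.2 τ m) (h2 : ∀ i, i < m → (vx p.1 p.2 t (j + i), dx p.2 t (j + i)) ∈ E) :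
    ∀ i, i < m → vs q.1 q.2 τ i = vx p.1 p.2 t (j + i) ∧ ds q.2 τ i = dx p.2 t (j + i) := by
  intro i
  induction i with
  | zero =>
    intro _
    rw [h1]
    exact ⟨rfl, rfl⟩
  | succ i ih =>
    intro hi
    obtain ⟨e1, e2⟩ := ih (by omega)
    have e3 : vs q.1 q.2 τ (i + 1) = vx p.1 p.2 t (j + (i + 1)) := by
      rw [vs_succ, e1, e2]
      rfl
    have m1 : (vs q.1 q.2 τ (i + 1), ds q.2 τ (i + 1)) ∈ E := by
      rw [hEq]
      unfold pe
      rw [Finset.mem_image]
      exact ⟨i + 1, Finset.mem_range.2 hi, rfl⟩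
    have m2 := h2 (i + 1) hi
    rw [e3] at m1
    exact ⟨e3, isPoly_fun hE m1 m2⟩

private lemma L6_De_dirs {p : Pt × Pt} (hp : De p) : p.2 ∈ dirs := hp.1

private lemma L6_take {s t : List Bool} (h : t.take s.length = s) : t = s ++ t.drop s.length := by
  conv_lhs => rw [← List.take_append_drop s.length t, h]

private lemma L6_vx {p : Pt × Pt} {s t : List Bool} (h : t.take s.length = s) {i : ℕ} (hi : i ≤ s.length + 1) :
    vx p.1 p.2 t i = vx p.1 p.2 s i := by
  rw [L6_take h, vx_append hi]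

private lemma L6_dx {p : Pt × Pt} {s t : List Bool} (h : t.take s.length = s) {i : ℕ} (hi : i ≤ s.length) :
    dx p.2 t i = dx p.2 s i := by
  rw [L6_take h, dx_append hi]

private lemma L6_tf {s t : List Bool} (h : t.take s.length = s) {i : ℕ} (hi : i < s.length) :
    tf t i = tf s i := by
  rw [L6_take h, tf_append_left hi]

private lemma L6_wind {Ω : Finset Pt} {E : Finset (Pt × Pt)} {p : Pt × Pt} {s t : List Bool} (hp : De p)
    (hE : E ∈ polys Ω) (hs : s ∈ stk Ω E p) (ht : IsLol E p s t) :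
    ∃ b, (EIn E (le p s) ↔ sgn b = sg E) ∧ wind t = wind s + 6 * sg E + 2 * sgn b := by
  obtain ⟨hl, htk, hEi, hcl⟩ := ht
  have hPo : IsPoly E := (mem_polys.1 hE).1
  have hs' : s ∈ arr0 Ω p ∧ (∀ i, 1 ≤ i → i ≤ s.length → vx p.1 p.2 s i ∉ VE E) ∧ tp p s ∈ VE E ∧
      le p s ∉ E ∧ rv (le p s) ∉ E := by
    unfold stk at hs
    simp only [Finset.mem_filter] at hs
    exact hs
  obtain ⟨-, -, hs2, hs3, hs4⟩ := hs'
  have hcard : 1 ≤ E.card := by
    obtain ⟨v, d, τ, m, hP, hEq⟩ := hPo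
    rw [hEq, pe_card hP]
    exact hP.pos
  set n := s.length with hn
  obtain ⟨q, hq⟩ : ∃ q, q = (vx p.1 p.2 t (n + 1), dx p.2 t (n + 1)) := ⟨_, rfl⟩
  have hmem : ∀ i, i < E.card → (vx p.1 p.2 t (n + 1 + i), dx p.2 t (n + 1 + i)) ∈ E := by
    intro i hi
    have : (vx p.1 p.2 t (n + 1 + i), dx p.2 t (n + 1 + i)) ∈
        (Finset.Icc (n + 1) t.length).image (fun i => (vx p.1 p.2 t i, dx p.2 t i)) := by
      rw [Finset.mem_image]
      exact ⟨n + 1 + i, Finset.mem_Icc.2 ⟨by omega, by omega⟩, rfl⟩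
    rw [hEi]
    exact this
  have hqE : q ∈ E := by
    rw [hq]
    exact hmem 0 hcard
  obtain ⟨τ, m, hP, hEq⟩ := root_at hPo hqE
  have hm : E.card = m := by
    conv_lhs => rw [hEq]
    exact pe_card hP
  have hfol := L6_follow hPo hq hP hEq (fun i hi => hmem i (by omega))
  have hmpos := hP.pos
  -- all directions are in dirs
  have hdt : ∀ i, dx p.2 t i ∈ dirs := fun i => (de_vx hp t i).1
  have hqd : q.2 ∈ dirs := hP.de.1
  -- the turns
  have htau : ∀ i, i + 1 < m → τ i = tf t (n + 1 + i) := by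
    intro i hi
    have e1 := (hfol i (by omega)).2
    have e2 := (hfol (i + 1) hi).2
    rw [ds_succ, e1] at e2
    have e3 : dx p.2 t (n + 1 + (i + 1)) = turn (tf t (n + 1 + i)) (dx p.2 t (n + 1 + i)) := rfl
    rw [e3] at e2
    exact L6_turn_b _ (hdt _) _ _ e2
  -- the turn into the loop and the closing turn
  obtain ⟨b, hb⟩ : ∃ b, b = tf t n := ⟨_, rfl⟩
  have hlast : dx p.2 t (n + 1) = turn b (dx p.2 t n) := by
    rw [hb]
    rfl
  have hle : le p s = (vx p.1 p.2 t n, dx p.2 t n) := by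
    unfold le
    rw [L6_vx htk (by omega), L6_dx htk le_rfl]
  have hclose : turn (τ (m - 1)) (ds q.2 τ (m - 1)) = q.2 := by
    have := hP.cld
    obtain ⟨m', rfl⟩ : ∃ m', m = m' + 1 := ⟨m - 1, by omega⟩
    rw [ds_succ] at this
    exact this
  have hclosev : vs q.1 q.2 τ (m - 1) + ds q.2 τ (m - 1) = q.1 := by
    have := hP.clv
    obtain ⟨m', rfl⟩ : ∃ m', m = m' + 1 := ⟨m - 1, by omega⟩
    rw [vs_succ] at this
    exact this
  have hlastE : (vs q.1 q.2 τ (m - 1), ds q.2 τ (m - 1)) ∈ E := by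
    rw [hEq]
    unfold pe
    rw [Finset.mem_image]
    exact ⟨m - 1, Finset.mem_range.2 (by omega), rfl⟩
  have hq1 : q.1 = vx p.1 p.2 t n + dx p.2 t n := by
    rw [hq]
    rfl
  have hq2 : q.2 = turn b (dx p.2 t n) := by
    rw [hq]
    exact hlast
  have hne : τ (m - 1) ≠ b := by
    intro h
    rw [h, hq2] at hclose
    have e1 : ds q.2 τ (m - 1) = dx p.2 t n := by
      apply L6_turn_dir _ (ds_mem hqd _) _ (hdt _) b
      rw [hq2]
      exact hclose
    rw [e1, hq1] at hclosev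
    have e2 : vs q.1 q.2 τ (m - 1) = vx p.1 p.2 t n := by
      rw [hq1]
      exact add_right_cancel hclosev
    apply hs3
    rw [hle]
    rw [e1, e2] at hlastE
    exact hlastE
  refine ⟨b, ?_, ?_⟩
  · apply eIn_turn hPo _ hs3 hs4
    · have : ((le p s).1 + (le p s).2, turn b (le p s).2) = q := by
        rw [hle]
        apply Prod.ext
        · exact hq1.symm
        · exact hq2.symm
      rw [this]
      exact hqE
    · exact de_vx hp s _
  · have hsum := turn_sum hP
    rw [← hEq] at hsum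
    obtain ⟨m', hm'⟩ : ∃ m', m = m' + 1 := ⟨m - 1, by omega⟩
    rw [hm', Finset.sum_range_succ] at hsum
    have e1 : ∑ i ∈ range m', sgn (τ i) = ∑ i ∈ range m', sgn (tf t (n + 1 + i)) := by
      apply Finset.sum_congr rfl
      intro i hi
      rw [Finset.mem_range] at hi
      rw [htau i (by omega)]
    have e2 : sgn (τ m') = -sgn b := by
      apply L6_sgn_ne
      have : m' = m - 1 := by omega
      rw [this]
      exact hne
    rw [wind_sum, wind_sum]
    have e3 : t.length = n + 1 + m' := by omega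
    rw [e3, Finset.sum_range_add, Finset.sum_range_succ, ← hb]
    have e4 : ∑ i ∈ range n, sgn (tf t i) = ∑ i ∈ range s.length, sgn (tf s i) := by
      rw [← hn]
      apply Finset.sum_congr rfl
      intro i hi
      rw [Finset.mem_range] at hi
      rw [L6_tf htk hi]
    rw [e4, ← e1]
    rw [e2] at hsum
    linarith

private lemma L6_exp (w k : ℤ) : Complex.exp ((((w + k : ℤ) : ℝ) * (Real.pi / 8) : ℝ) * I) =
    Complex.exp (((w : ℝ) * (Real.pi / 8) : ℝ) * I) * Complex.exp (((k : ℝ) * (Real.pi / 8) : ℝ) * I) := by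
  rw [← Complex.exp_add]
  congr 1
  push_cast
  ring

private lemma L6_exp8 : Complex.exp ((((8 : ℤ) : ℝ) * (Real.pi / 8) : ℝ) * I) = -1 := by
  have : ((((8 : ℤ) : ℝ) * (Real.pi / 8) : ℝ) : ℂ) * I = Real.pi * I := by
    push_cast
    ring
  rw [this]
  exact Complex.exp_pi_mul_I

private lemma L6_expm8 : Complex.exp ((((-8 : ℤ) : ℝ) * (Real.pi / 8) : ℝ) * I) = -1 := by
  have : ((((-8 : ℤ) : ℝ) * (Real.pi / 8) : ℝ) : ℂ) * I = -(Real.pi * I) := by
    push_cast
    ring
  rw [this, Complex.exp_neg, Complex.exp_pi_mul_I]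
  norm_num

private lemma L6_exp4 : Complex.exp ((((4 : ℤ) : ℝ) * (Real.pi / 8) : ℝ) * I) = I := by
  have : ((((4 : ℤ) : ℝ) * (Real.pi / 8) : ℝ) : ℂ) * I = Real.pi / 2 * I := by
    push_cast
    ring
  rw [this]
  exact Complex.exp_pi_div_two_mul_I

private lemma L6_expm4 : Complex.exp ((((-4 : ℤ) : ℝ) * (Real.pi / 8) : ℝ) * I) = -I := by
  have : ((((-4 : ℤ) : ℝ) * (Real.pi / 8) : ℝ) : ℂ) * I = -Real.pi / 2 * I := by
    push_cast
    ring
  rw [this]
  exact Complex.exp_neg_pi_div_two_mul_I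

theorem lol_wt {Ω : Finset Pt} {E : Finset (Pt × Pt)} {p : Pt × Pt} {s t : List Bool} (hp : De p)
    (hE : E ∈ polys Ω) (hs : s ∈ stk Ω E p) (ht : IsLol E p s t) :
    wt t = (xc : ℂ) ^ E.card * wt s * ph E (le p s) := by
  obtain ⟨b, h1, h2⟩ := L6_wind hp hE hs ht
  have hl := ht.1
  have key : Complex.exp ((((6 * sg E + 2 * sgn b : ℤ) : ℝ) * (Real.pi / 8) : ℝ) * I) = ph E (le p s) := by
    unfold ph
    by_cases h : EIn E (le p s)
    · rw [if_pos h, h1.1 h]
      rcases sg_cases E with hg | hg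
      · rw [hg]
        exact L6_exp8
      · rw [hg]
        exact L6_expm8
    · rw [if_neg h]
      have h3 : sgn b ≠ sg E := fun hh => h (h1.2 hh)
      rcases sg_cases E with hg | hg
      · rcases L6_sgn b with hb | hb
        · exact absurd (by rw [hg, hb]) h3
        · rw [hg, hb]
          have := L6_exp4
          norm_num at this ⊢
          exact this
      · rcases L6_sgn b with hb | hb
        · rw [hg, hb]
          have := L6_expm4
          norm_num at this ⊢
          exact this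
        · exact absurd (by rw [hg, hb]) h3
  have h3 : wind t = wind s + (6 * sg E + 2 * sgn b) := by
    rw [h2]
    ring
  unfold wt
  rw [h3, L6_exp, key, ← hl, pow_add]
  ring

theorem lol_NN {Ω : Finset Pt} {E : Finset (Pt × Pt)} {p : Pt × Pt} {s t : List Bool} (hp : De p)
    (hE : E ∈ polys Ω) (hs : s ∈ stk Ω E p) (ht : IsLol E p s t) (f : Pt) :
    NN f p t = NN f p s + Nw E f := by
  obtain ⟨hl, htk, hEi, hcl⟩ := ht
  have hinj : Set.InjOn (fun i => (vx p.1 p.2 t i, dx p.2 t i)) (Finset.Icc (s.length + 1) t.length : Finset ℕ) := by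
    apply Finset.card_image_iff.1
    rw [← hEi, Nat.card_Icc]
    omega
  have e1 : Nw E f = ∑ i ∈ Finset.Icc (s.length + 1) t.length, cr f (vx p.1 p.2 t i, dx p.2 t i) := by
    unfold Nw
    conv_lhs => rw [hEi]
    exact Finset.sum_image hinj
  have e2 : Finset.Icc (s.length + 1) t.length = Finset.Ico (s.length + 1) (t.length + 1) := by
    ext i
    simp only [Finset.mem_Icc, Finset.mem_Ico]
    omega
  unfold NN
  rw [e1, e2, ← Finset.sum_range_add_sum_Ico _ (by omega : s.length + 1 ≤ t.length + 1)]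
  congr 1
  apply Finset.sum_congr rfl
  intro i hi
  rw [Finset.mem_range] at hi
  rw [L6_vx htk (by omega), L6_dx htk (by omega)]

/-- the edges of a closed word. -/
private noncomputable def L6_E (p : Pt × Pt) (t : List Bool) : Finset (Pt × Pt) :=
  (range t.length).image (fun i => (vx p.1 p.2 t i, dx p.2 t i))

/-- the periodic continuation of a word. -/
private def L6_tau (t : List Bool) (i : ℕ) : Bool := tf t (i % t.length)

private lemma L6_mem_clo {Ω : Finset Pt} {p : Pt × Pt} {t : List Bool} :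
    t ∈ clo Ω p ↔ Arr0 Ω p t ∧ 1 ≤ t.length ∧ le p t = p := by
  unfold clo
  rw [Finset.mem_filter, mem_arr0]

private lemma L6_ds {p : Pt × Pt} {t : List Bool} (i : ℕ) (hi : i ≤ t.length) :
    ds p.2 (L6_tau t) i = dx p.2 t i := by
  unfold dx
  apply ds_congr
  intro k hk
  unfold L6_tau
  rw [Nat.mod_eq_of_lt (by omega)]

private lemma L6_vs {p : Pt × Pt} {t : List Bool} (i : ℕ) (hi : i ≤ t.length + 1) :
    vs p.1 p.2 (L6_tau t) i = vx p.1 p.2 t i := by
  unfold vx
  apply vs_congr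
  intro k hk
  unfold L6_tau
  rw [Nat.mod_eq_of_lt (by omega)]

private lemma L6_poly {Ω : Finset Pt} {p : Pt × Pt} {t : List Bool} (hp : De p) (ht : t ∈ clo Ω p) :
    Poly p.1 p.2 (L6_tau t) t.length ∧ L6_E p t = pe p.1 p.2 (L6_tau t) t.length := by
  obtain ⟨h1, h2, h3⟩ := L6_mem_clo.1 ht
  have hv : vx p.1 p.2 t t.length = p.1 := congrArg Prod.fst h3
  have hd : dx p.2 t t.length = p.2 := congrArg Prod.snd h3
  refine ⟨⟨h2, hp, ?_, ?_, ?_, ?_⟩, ?_⟩
  · intro i
    unfold L6_tau
    rw [Nat.add_mod_right]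
  · rw [L6_vs _ (by omega), hv]
  · rw [L6_ds _ le_rfl, hd]
  · intro i k hik hk
    rw [L6_vs _ (by omega), L6_vs _ (by omega)]
    rcases Nat.eq_zero_or_pos i with hi | hi
    · subst hi
      have e : vx p.1 p.2 t 0 = vx p.1 p.2 t t.length := by
        rw [hv]
        rfl
      rw [e]
      exact (h1.inj k t.length (by omega) hk le_rfl).symm
    · exact h1.inj i k hi hik (by omega)
  · unfold L6_E pe
    apply Finset.image_congr
    intro i hi
    rw [Finset.mem_coe, Finset.mem_range] at hi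
    show (vx p.1 p.2 t i, dx p.2 t i) = (vs p.1 p.2 (L6_tau t) i, ds p.2 (L6_tau t) i)
    rw [L6_vs _ (by omega), L6_ds _ (by omega)]

private lemma L6_windclo {Ω : Finset Pt} {p : Pt × Pt} {t : List Bool} (hp : De p) (ht : t ∈ clo Ω p) :
    wind t = 6 * sg (L6_E p t) ∧ t.length = (L6_E p t).card := by
  obtain ⟨hP, hE⟩ := L6_poly hp ht
  constructor
  · rw [hE, ← turn_sum hP, wind_sum]
    apply Finset.sum_congr rfl
    intro i hi
    rw [Finset.mem_range] at hi
    unfold L6_tau
    rw [Nat.mod_eq_of_lt hi]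
  · rw [hE, pe_card hP]

private lemma L6_ext {t t' : List Bool} (hl : t.length = t'.length) (h : ∀ i, i < t.length → tf t i = tf t' i) :
    t = t' := by
  apply List.ext_getElem hl
  intro i h1 h2
  have := h i h1
  unfold tf at this
  rwa [List.getD_eq_getElem _ _ h1, List.getD_eq_getElem _ _ h2] at this

private lemma L6_inj {Ω : Finset Pt} {p : Pt × Pt} {t t' : List Bool} (hp : De p) (ht : t ∈ clo Ω p)
    (ht' : t' ∈ clo Ω p) (h : L6_E p t = L6_E p t') : t = t' := by
  have hl : t.length = t'.length := by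
    rw [(L6_windclo hp ht).2, (L6_windclo hp ht').2, h]
  have hPo : IsPoly (L6_E p t) := ⟨_, _, _, _, L6_poly hp ht⟩
  have key : ∀ i, i < t.length → vx p.1 p.2 t i = vx p.1 p.2 t' i ∧ dx p.2 t i = dx p.2 t' i := by
    intro i
    induction i with
    | zero =>
      intro _
      exact ⟨rfl, rfl⟩
    | succ i ih =>
      intro hi
      obtain ⟨e1, e2⟩ := ih (by omega)
      have e3 : vx p.1 p.2 t (i + 1) = vx p.1 p.2 t' (i + 1) := by
        have a1 : vx p.1 p.2 t (i + 1) = vx p.1 p.2 t i + dx p.2 t i := rfl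
        have a2 : vx p.1 p.2 t' (i + 1) = vx p.1 p.2 t' i + dx p.2 t' i := rfl
        rw [a1, a2, e1, e2]
      have m1 : (vx p.1 p.2 t (i + 1), dx p.2 t (i + 1)) ∈ L6_E p t := by
        unfold L6_E
        rw [Finset.mem_image]
        exact ⟨i + 1, Finset.mem_range.2 hi, rfl⟩
      have m2 : (vx p.1 p.2 t' (i + 1), dx p.2 t' (i + 1)) ∈ L6_E p t := by
        rw [h]
        unfold L6_E
        rw [Finset.mem_image]
        exact ⟨i + 1, Finset.mem_range.2 (by omega), rfl⟩
      rw [e3] at m1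
      exact ⟨e3, isPoly_fun hPo m1 m2⟩
  have key2 : ∀ i, i ≤ t.length → dx p.2 t i = dx p.2 t' i := by
    intro i hi
    rcases Nat.lt_or_ge i t.length with h1 | h1
    · exact (key i h1).2
    · have : i = t.length := by omega
      subst this
      have a1 : dx p.2 t t.length = p.2 := congrArg Prod.snd (L6_mem_clo.1 ht).2.2
      have a2 : dx p.2 t' t'.length = p.2 := congrArg Prod.snd (L6_mem_clo.1 ht').2.2
      rw [a1, hl, a2]
  apply L6_ext hl
  intro i hi
  have a1 : dx p.2 t (i + 1) = turn (tf t i) (dx p.2 t i) := rfl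
  have a2 : dx p.2 t' (i + 1) = turn (tf t' i) (dx p.2 t' i) := rfl
  have a3 := key2 (i + 1) (by omega)
  rw [a1, a2, ← key2 i (by omega)] at a3
  exact L6_turn_b _ (de_vx hp t i).1 _ _ a3

private lemma L6_thr {Ω : Finset Pt} {p : Pt × Pt} {t : List Bool} (hp : De p) (ht : t ∈ clo Ω p) :
    L6_E p t ∈ thr Ω p := by
  obtain ⟨h1, h2, h3⟩ := L6_mem_clo.1 ht
  have hv : vx p.1 p.2 t t.length = p.1 := congrArg Prod.fst h3
  unfold thr
  rw [Finset.mem_filter, mem_polys]
  refine ⟨⟨⟨_, _, _, _, L6_poly hp ht⟩, ?_⟩, ?_⟩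
  · intro v hv'
    unfold VE L6_E at hv'
    rw [Finset.mem_image] at hv'
    obtain ⟨q, hq, rfl⟩ := hv'
    rw [Finset.mem_image] at hq
    obtain ⟨i, hi, rfl⟩ := hq
    rw [Finset.mem_range] at hi
    rcases Nat.eq_zero_or_pos i with h | h
    · subst h
      have e : vx p.1 p.2 t 0 = vx p.1 p.2 t t.length := by
        rw [hv]
        rfl
      show vx p.1 p.2 t 0 ∈ Ω
      rw [e]
      exact h1.mem t.length h2 le_rfl
    · exact h1.mem i h (by omega)
  · unfold L6_E
    rw [Finset.mem_image]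
    exact ⟨0, Finset.mem_range.2 (by omega), rfl⟩

private lemma L6_surj {Ω : Finset Pt} {p : Pt × Pt} (hp : De p) {E : Finset (Pt × Pt)} (hE : E ∈ thr Ω p) :
    ∃ t ∈ clo Ω p, L6_E p t = E := by
  unfold thr at hE
  rw [Finset.mem_filter, mem_polys] at hE
  obtain ⟨⟨hPo, hV⟩, hpE⟩ := hE
  obtain ⟨τ, m, hP, hEq⟩ := root_at hPo hpE
  obtain ⟨t, htd⟩ : ∃ t : List Bool, t = List.ofFn (fun i : Fin m => τ i) := ⟨_, rfl⟩
  have hlen : t.length = m := by
    rw [htd, List.length_ofFn]
  have htf : ∀ i, i < m → tf t i = τ i := by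
    intro i hi
    unfold tf
    rw [List.getD_eq_getElem _ _ (by omega)]
    simp [htd]
  have hvx : ∀ i, i ≤ m + 1 → vx p.1 p.2 t i = vs p.1 p.2 τ i := by
    intro i hi
    unfold vx
    apply vs_congr
    intro k hk
    exact htf k (by omega)
  have hdx : ∀ i, i ≤ m → dx p.2 t i = ds p.2 τ i := by
    intro i hi
    unfold dx
    apply ds_congr
    intro k hk
    exact htf k (by omega)
  have hmem : ∀ i, i < m → vs p.1 p.2 τ i ∈ Ω := by
    intro i hi
    apply hV
    unfold VE
    rw [Finset.mem_image]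
    refine ⟨eg p.1 p.2 τ i, ?_, rfl⟩
    rw [hEq]
    unfold pe
    rw [Finset.mem_image]
    exact ⟨i, Finset.mem_range.2 hi, rfl⟩
  have hpos := hP.pos
  refine ⟨t, ?_, ?_⟩
  · rw [L6_mem_clo]
    refine ⟨⟨?_, ?_⟩, by omega, ?_⟩
    · intro i h1 h2
      rw [hvx i (by omega)]
      rcases Nat.lt_or_ge i m with h | h
      · exact hmem i h
      · have : i = m := by omega
        rw [this, hP.clv]
        exact hmem 0 hpos
    · intro i k h1 h2 h3
      rw [hvx i (by omega), hvx k (by omega)]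
      rcases Nat.lt_or_ge k m with h | h
      · exact hP.inj i k h2 h
      · have : k = m := by omega
        rw [this, hP.clv]
        exact (hP.inj 0 i (by omega) (by omega)).symm
    · unfold le
      rw [hlen, hvx m (by omega), hdx m le_rfl, hP.clv, hP.cld]
  · rw [hEq]
    unfold L6_E pe
    rw [hlen]
    apply Finset.image_congr
    intro i hi
    rw [Finset.mem_coe, Finset.mem_range] at hi
    show (vx p.1 p.2 t i, dx p.2 t i) = (vs p.1 p.2 τ i, ds p.2 τ i)
    rw [hvx i (by omega), hdx i (by omega)]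

theorem clo_sum {Ω : Finset Pt} {p : Pt × Pt} (hΩ : ∀ v ∈ Ω, Vt v) (hp : De p) :
    ∑ t ∈ clo Ω p, wt t = ∑ E ∈ thr Ω p, (xc : ℂ) ^ E.card * e6 E := by
  apply Finset.sum_bij (fun t _ => L6_E p t)
  · intro t ht
    exact L6_thr hp ht
  · intro t ht t' ht' h
    exact L6_inj hp ht ht' h
  · intro E hE
    obtain ⟨t, h1, h2⟩ := L6_surj hp hE
    exact ⟨t, h1, h2⟩
  · intro t ht
    obtain ⟨h1, h2⟩ := L6_windclo hp ht
    unfold wt e6
    rw [h1, ← h2, mul_comm]
    congr 2
    push_cast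
    ring

end L6

end LP

end HexObs
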