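import Pool.Agent.HexLoop.Flux
import Pool.Agent.HexLoop.RevW
import Pool.Agent.HexLoop.Words0
import Pool.Agent.HexLoop.Phase

/-!
LOOP, L11: the loop inequality.
-/

set_option autoImplicit false

namespace HexObs

namespace LP

open Complex Finset

namespace TW

lemma mfl {α : Type} {p : α → Prop} {d : DecidablePred p} {s : Finset α} {a : α} :
    a ∈ @Finset.filter α p d s ↔ a ∈ s ∧ p a := Finset.mem_filter

lemma rv_rv (p : Pt × Pt) : rv (rv p) = p := by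
  unfold rv
  ext <;> simp

lemma wt_re (t : List Bool) : (wt t).re = Real.cos (wind t * (Real.pi / 8)) * xc ^ t.length := by
  unfold wt
  rw [← Complex.ofReal_pow, Complex.re_mul_ofReal, Complex.exp_ofReal_mul_I_re]

lemma wt_im (t : List Bool) : (wt t).im = Real.sin (wind t * (Real.pi / 8)) * xc ^ t.length := by
  unfold wt
  rw [← Complex.ofReal_pow, Complex.im_mul_ofReal, Complex.exp_ofReal_mul_I_im]

lemma mem_bd {Ω : Finset Pt} {a : Pt × Pt} (h : a ∈ bd Ω) : a.1 + a.2 ∈ Ω ∧ De a ∧ a.1 ∉ Ω := by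
  unfold bd at h
  obtain ⟨h1, h2, h3⟩ := mfl.1 h
  obtain ⟨p, hp, rfl⟩ := Finset.mem_image.1 h1
  rw [Finset.mem_product] at hp
  refine ⟨?_, h2, h3⟩
  show p.1 - p.2 + p.2 ∈ Ω
  rw [sub_add_cancel]
  exact hp.1

lemma mem_ex0 {Ω : Finset Pt} {p : Pt × Pt} {t : List Bool} : t ∈ ex0 Ω p ↔ Arr0 Ω p t ∧ tp p t ∉ Ω := by
  unfold ex0
  rw [Finset.mem_filter, mem_arr0]

lemma mem_stk {Ω : Finset Pt} {E : Finset (Pt × Pt)} {p : Pt × Pt} {s : List Bool} : s ∈ stk Ω E p ↔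
    Arr0 Ω p s ∧ (∀ i, 1 ≤ i → i ≤ s.length → vx p.1 p.2 s i ∉ VE E) ∧ tp p s ∈ VE E ∧ le p s ∉ E ∧
      rv (le p s) ∉ E := by
  unfold stk
  constructor
  · intro h
    obtain ⟨h1, h2⟩ := mfl.1 h
    exact ⟨mem_arr0.1 h1, h2⟩
  · rintro ⟨h1, h2⟩
    exact mfl.2 ⟨mem_arr0.2 h1, h2⟩

lemma avoid {E : Finset (Pt × Pt)} {a : Pt × Pt} {s : List Bool} (h0 : a.1 ∉ VE E)
    (h : ∀ i, 1 ≤ i → i ≤ s.length → vx a.1 a.2 s i ∉ VE E) (i : ℕ) (hi : i ≤ s.length) : vx a.1 a.2 s i ∉ VE E := by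
  rcases Nat.eq_zero_or_pos i with h1 | h1
  · rw [h1]
    exact h0
  · exact h i h1 hi

/-- the sticks from outside stay outside -/
lemma stick_out {Ω : Finset Pt} (hΩ : Full Ω) {E : Finset (Pt × Pt)} (hE : E ∈ polys Ω) {a : Pt × Pt} (ha : De a)
    (h1 : a.1 ∉ Ω) {s : List Bool} (hs : s ∈ stk Ω E a) : ¬ EIn E (le a s) := by
  obtain ⟨hP, hV⟩ := mem_polys.1 hE
  obtain ⟨s1, s2, s3, s4, s5⟩ := mem_stk.1 hs
  have hav := avoid (fun h => h1 (hV h)) s2
  have key : ∀ i, i ≤ s.length → ¬ Ins E (vx a.1 a.2 s i) := by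
    intro i
    induction i with
    | zero =>
      intro _ h
      exact h1 (hΩ.2 E hP hV a.1 h)
    | succ i ih =>
      intro hi h
      exact ih (by omega) ((ins_adj hP (de_vx ha s i) (hav i (by omega)) (hav (i + 1) hi)).2 h)
  intro h
  exact key s.length le_rfl ((ins_edge hP (de_vx ha s s.length) (hav s.length le_rfl)).2 h)

/-- the weight of the sticks -/
lemma stk_wt {Ω : Finset Pt} (hΩ : Full Ω) {E : Finset (Pt × Pt)} (hE : E ∈ polys Ω) {a : Pt × Pt}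
    (ha : De a) (h1 : a.1 ∉ Ω) [DecidablePred (Hit (VE E) a)] :
    ∑ s ∈ stk Ω E a, wt s = ∑ t ∈ (ex0 Ω a).filter (Hit (VE E) a), wt t := by
  classical
  obtain ⟨hP, hV⟩ := mem_polys.1 hE
  have e1 := start_one hΩ (Finset.Subset.refl Ω) ha h1
  have e2 := start_one (Ω' := Ω \ VE E) hΩ Finset.sdiff_subset ha h1
  have e3 : ex0 (Ω \ VE E) a = stk Ω E a ∪ (ex0 Ω a).filter (fun t => ¬ Hit (VE E) a t) := by
    ext t
    rw [Finset.mem_union, Finset.mem_filter, mem_stk, mem_ex0, mem_ex0]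
    constructor
    · rintro ⟨⟨b1, b2⟩, b3⟩
      have c1 : Arr0 Ω a t := ⟨fun i h2 h3 => (Finset.mem_sdiff.1 (b1 i h2 h3)).1, b2⟩
      have c2 : ∀ i, 1 ≤ i → i ≤ t.length → vx a.1 a.2 t i ∉ VE E := fun i h2 h3 => (Finset.mem_sdiff.1 (b1 i h2 h3)).2
      by_cases h2 : tp a t ∈ VE E
      · left
        have hav := avoid (fun h => h1 (hV h)) c2 t.length le_rfl
        refine ⟨c1, c2, h2, ?_, ?_⟩
        · intro h3
          exact hav (Finset.mem_image.2 ⟨_, h3, rfl⟩)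
        · intro h3
          obtain ⟨b, hb⟩ := isPoly_next hP h3
          apply hav
          refine Finset.mem_image.2 ⟨_, hb, ?_⟩
          show vx a.1 a.2 t t.length + dx a.2 t t.length + -(dx a.2 t t.length) = _
          abel
      · right
        refine ⟨⟨c1, fun h3 => b3 (Finset.mem_sdiff.2 ⟨h3, h2⟩)⟩, ?_⟩
        rintro ⟨i, h3, h4, h5⟩
        exact c2 i h3 h4 h5
    · rintro (⟨c1, c2, c3, _, _⟩ | ⟨⟨c1, c2⟩, c3⟩)
      · refine ⟨⟨fun i h2 h3 => Finset.mem_sdiff.2 ⟨c1.mem i h2 h3, c2 i h2 h3⟩, c1.inj⟩, fun h2 => ?_⟩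
        exact (Finset.mem_sdiff.1 h2).2 c3
      · refine ⟨⟨fun i h2 h3 => Finset.mem_sdiff.2 ⟨c1.mem i h2 h3, fun h4 => c3 ⟨i, h2, h3, h4⟩⟩, c1.inj⟩, fun h2 => ?_⟩
        exact c2 (Finset.mem_sdiff.1 h2).1
  have e4 : Disjoint (stk Ω E a) ((ex0 Ω a).filter (fun t => ¬ Hit (VE E) a t)) := by
    rw [Finset.disjoint_left]
    intro t h2 h3
    exact (mem_ex0.1 (Finset.mem_filter.1 h3).1).2 (hV (mem_stk.1 h2).2.2.1)
  unfold SS at e1 e2
  rw [e3, Finset.sum_union e4] at e2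
  rw [← Finset.sum_filter_add_sum_filter_not (ex0 Ω a) (Hit (VE E) a)] at e1
  have e5 := e1.trans e2.symm
  have e6 := add_right_cancel e5
  rw [← e6]

lemma rE_polys {Ω : Finset Pt} {E : Finset (Pt × Pt)} (hE : E ∈ polys Ω) : rE E ∈ polys Ω := by
  obtain ⟨hP, hV⟩ := mem_polys.1 hE
  refine mem_polys.2 ⟨isPoly_rE hP, ?_⟩
  rw [VE_rE hP]
  exact hV

lemma stk_rE {Ω : Finset Pt} {E : Finset (Pt × Pt)} (hE : E ∈ polys Ω) (a : Pt × Pt) : stk Ω (rE E) a = stk Ω E a := by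
  obtain ⟨hP, hV⟩ := mem_polys.1 hE
  ext s
  rw [mem_stk, mem_stk, VE_rE hP, mem_rE, mem_rE, rv_rv]
  tauto

lemma sum_odd {Ω : Finset Pt} (g : Finset (Pt × Pt) → ℂ) (h : ∀ E ∈ polys Ω, g (rE E) = -g E) :
    ∑ E ∈ polys Ω, g E = 0 := by
  have h1 : ∑ E ∈ polys Ω, g E = ∑ E ∈ polys Ω, g (rE E) := by
    refine Finset.sum_bij' (fun E _ => rE E) (fun E _ => rE E) (fun E hE => rE_polys hE) (fun E hE => rE_polys hE)
      (fun E _ => rE_rE E) (fun E _ => rE_rE E) (fun E _ => ?_)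
    rw [rE_rE]
  have h2 : ∑ E ∈ polys Ω, g (rE E) = -∑ E ∈ polys Ω, g E := by
    rw [← Finset.sum_neg_distrib]
    exact Finset.sum_congr rfl h
  have h3 := h1.trans h2
  have h4 : (2 : ℂ) * ∑ E ∈ polys Ω, g E = 0 := by
    linear_combination h3
  exact (mul_eq_zero.1 h4).resolve_left two_ne_zero

open Classical in
/-- one starting edge -/
lemma one_a {Ω : Finset Pt} (hΩ : Full Ω) {f : Pt} (hf : Fc f) {a : Pt × Pt} (ha : De a) (h1 : a.1 ∉ Ω) :
    ∑ t ∈ ex0 Ω a, (NN f a t : ℂ) * wt t + I * ∑ E ∈ (polys Ω).filter (fun E => Nw E f ≠ 0),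
      (xc : ℂ) ^ E.card * ∑ t ∈ (ex0 Ω a).filter (Hit (VE E) a), wt t =
      ∑ t ∈ arr0 Ω a, (cr f (le a t) : ℂ) * wt t := by
  have e1 := sum_NN Ω a f
  rw [clo_empty h1, Finset.sum_empty, add_zero] at e1
  have e2 := lolli (Ω := Ω) hΩ.1 ha (fun t => (NN f a t : ℂ) * wt t)
    (fun E s => ((NN f a s : ℂ) + (Nw E f : ℂ)) * ((xc : ℂ) ^ E.card * wt s * (I * (sg E : ℂ)))) (by
      intro E s t hE hs ht
      show (NN f a t : ℂ) * wt t = _
      rw [lol_NN ha hE hs ht f, lol_wt ha hE hs ht]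
      have h2 : ph E (le a s) = I * (sg E : ℂ) := by
        unfold ph
        rw [if_neg (stick_out hΩ hE ha h1 hs)]
      rw [h2]
      push_cast
      ring)
  have e3 : ∑ E ∈ polys Ω, ∑ s ∈ stk Ω E a, ((NN f a s : ℂ) + (Nw E f : ℂ)) *
      ((xc : ℂ) ^ E.card * wt s * (I * (sg E : ℂ))) =
      ∑ E ∈ polys Ω, ∑ s ∈ stk Ω E a, (NN f a s : ℂ) * ((xc : ℂ) ^ E.card * wt s * (I * (sg E : ℂ))) +
      ∑ E ∈ polys Ω, I * (((Nw E f * sg E : ℤ) : ℂ) * ((xc : ℂ) ^ E.card * ∑ s ∈ stk Ω E a, wt s)) := by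
    rw [← Finset.sum_add_distrib]
    apply Finset.sum_congr rfl
    intro E _
    rw [Finset.mul_sum, Finset.mul_sum, Finset.mul_sum, ← Finset.sum_add_distrib]
    apply Finset.sum_congr rfl
    intro s _
    push_cast
    ring
  have e4 : ∑ E ∈ polys Ω, ∑ s ∈ stk Ω E a, (NN f a s : ℂ) * ((xc : ℂ) ^ E.card * wt s * (I * (sg E : ℂ))) = 0 := by
    apply sum_odd
    intro E hE
    rw [stk_rE hE, ← Finset.sum_neg_distrib]
    apply Finset.sum_congr rfl
    intro s _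
    rw [card_rE, sg_rE (mem_polys.1 hE).1]
    push_cast
    ring
  have e5 : ∑ E ∈ polys Ω, I * (((Nw E f * sg E : ℤ) : ℂ) * ((xc : ℂ) ^ E.card * ∑ s ∈ stk Ω E a, wt s)) =
      I * ∑ E ∈ (polys Ω).filter (fun E => Nw E f ≠ 0),
        (xc : ℂ) ^ E.card * ∑ t ∈ (ex0 Ω a).filter (Hit (VE E) a), wt t := by
    rw [Finset.mul_sum, Finset.sum_filter]
    apply Finset.sum_congr rfl
    intro E hE
    have hP := (mem_polys.1 hE).1
    by_cases h2 : Nw E f ≠ 0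
    · rw [if_pos h2, stk_wt hΩ hE ha h1]
      have h3 : Nw E f * sg E = 1 := by
        rcases Nw_cases hP hf with h4 | h4
        · exact absurd h4 h2
        · rw [h4]
          rcases sg_cases E with h5 | h5 <;> rw [h5] <;> norm_num
      rw [h3]
      push_cast
      ring
    · rw [if_neg h2]
      push Not at h2
      rw [h2]
      push_cast
      ring
  rw [e2, e3, e4, zero_add, e5] at e1
  exact e1

lemma cr_cases (f : Pt) (p : Pt × Pt) : cr f p = 1 ∨ cr f p = -1 ∨ cr f p = 0 := by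
  unfold cr
  split_ifs
  · left
    rfl
  · right
    left
    rfl
  · right
    right
    rfl

lemma de_rv {p : Pt × Pt} (h : De p) : De (rv p) := by
  obtain ⟨h1, h2, h3⟩ := h
  refine ⟨neg_mem_dirs h1, h3, ?_⟩
  show Vt (p.1 + p.2 + -p.2)
  rw [add_neg_cancel_right]
  exact h2

/-- the directed edges near the domain with a positive crossing -/
noncomputable def RR (Ω : Finset Pt) (f : Pt) : Finset (Pt × Pt) := by
  classical
  exact ((Ω ×ˢ dirs) ∪ (Ω ×ˢ dirs).image rv).filter (fun p => De p ∧ cr f p = 1)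

lemma mem_RR {Ω : Finset Pt} {f : Pt} {p : Pt × Pt} :
    p ∈ RR Ω f ↔ De p ∧ cr f p = 1 ∧ (p.1 ∈ Ω ∨ p.1 + p.2 ∈ Ω) := by
  unfold RR
  constructor
  · intro h
    obtain ⟨h1, h2, h3⟩ := mfl.1 h
    refine ⟨h2, h3, ?_⟩
    rcases Finset.mem_union.1 h1 with h4 | h4
    · exact Or.inl (Finset.mem_product.1 h4).1
    · obtain ⟨q, h5, rfl⟩ := Finset.mem_image.1 h4
      right
      show q.1 + q.2 + -q.2 ∈ Ω
      rw [add_neg_cancel_right]
      exact (Finset.mem_product.1 h5).1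
  · rintro ⟨h2, h3, h1⟩
    refine mfl.2 ⟨Finset.mem_union.2 ?_, h2, h3⟩
    rcases h1 with h1 | h1
    · exact Or.inl (Finset.mem_product.2 ⟨h1, h2.1⟩)
    · refine Or.inr (Finset.mem_image.2 ⟨rv p, Finset.mem_product.2 ⟨h1, ?_⟩, rv_rv p⟩)
      exact neg_mem_dirs h2.1

open Classical in
lemma sum_RR {Ω : Finset Pt} {f : Pt} {q : Pt × Pt} (hq : De q) (ht : q.1 ∈ Ω ∨ q.1 + q.2 ∈ Ω) (w : ℂ) :
    ∑ p ∈ RR Ω f, ((if q = p then w else 0) - (if q = rv p then w else 0)) = (cr f q : ℂ) * w := by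
  have h1 : ∀ p, (if q = rv p then w else 0) = (if rv q = p then w else 0) := by
    intro p
    have h2 : q = rv p ↔ rv q = p := by
      constructor
      · rintro rfl
        exact rv_rv p
      · rintro rfl
        exact (rv_rv q).symm
    by_cases h3 : q = rv p
    · rw [if_pos h3, if_pos (h2.1 h3)]
    · rw [if_neg h3, if_neg (fun h => h3 (h2.2 h))]
  rw [Finset.sum_sub_distrib, Finset.sum_ite_eq]
  simp_rw [h1]
  rw [Finset.sum_ite_eq]
  have h2 : q ∈ RR Ω f ↔ cr f q = 1 := by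
    rw [mem_RR]
    exact ⟨fun h => h.2.1, fun h => ⟨hq, h, ht⟩⟩
  have ht' : (rv q).1 ∈ Ω ∨ (rv q).1 + (rv q).2 ∈ Ω := by
    rcases ht with h | h
    · right
      show q.1 + q.2 + -q.2 ∈ Ω
      rw [add_neg_cancel_right]
      exact h
    · left
      exact h
  have h3 : rv q ∈ RR Ω f ↔ cr f q = -1 := by
    rw [mem_RR, cr_rv hq f]
    constructor
    · intro h
      have := h.2.1
      omega
    · intro h
      exact ⟨de_rv hq, by omega, ht'⟩
  rcases cr_cases f q with h4 | h4 | h4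
  · rw [if_pos (h2.2 h4), if_neg (fun h => by have := h3.1 h; omega), h4]
    push_cast
    ring
  · rw [if_neg (fun h => by have := h2.1 h; omega), if_pos (h3.2 h4), h4]
    push_cast
    ring
  · rw [if_neg (fun h => by have := h2.1 h; omega), if_neg (fun h => by have := h3.1 h; omega), h4]
    push_cast
    ring

open Classical in
lemma flux_eq {Ω : Finset Pt} (hΩ : Full Ω) {f : Pt} :
    ∑ a ∈ bd Ω, ∑ t ∈ arr0 Ω a, (cr f (le a t) : ℂ) * wt t =
      -(starRingEnd ℂ) (∑ p ∈ RR Ω f, (SS Ω p - SS Ω (rv p))) := by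
  have e1 : ∀ a ∈ bd Ω, ∀ t ∈ arr0 Ω a, (cr f (le a t) : ℂ) * wt t =
      ∑ p ∈ RR Ω f, ((if le a t = p then wt t else 0) - (if le a t = rv p then wt t else 0)) := by
    intro a ha t ht
    obtain ⟨a1, a2, a3⟩ := mem_bd ha
    have h1 := mem_arr0.1 ht
    refine (sum_RR (de_vx a2 t t.length) ?_ (wt t)).symm
    rcases Nat.eq_zero_or_pos t.length with h2 | h2
    · right
      rw [h2]
      exact a1
    · left
      exact h1.mem t.length h2 le_rfl
  have e2 : ∑ a ∈ bd Ω, ∑ t ∈ arr0 Ω a, (cr f (le a t) : ℂ) * wt t =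
      ∑ p ∈ RR Ω f, ∑ a ∈ bd Ω, ∑ t ∈ arr0 Ω a, ((if le a t = p then wt t else 0) -
        (if le a t = rv p then wt t else 0)) := by
    rw [Finset.sum_comm]
    apply Finset.sum_congr rfl
    intro a ha
    rw [Finset.sum_comm]
    apply Finset.sum_congr rfl
    intro t ht
    exact e1 a ha t ht
  rw [e2, map_sum, ← Finset.sum_neg_distrib]
  apply Finset.sum_congr rfl
  intro p hp
  obtain ⟨p1, p2, p3⟩ := mem_RR.1 hp
  have p3' : (rv p).1 ∈ Ω ∨ (rv p).1 + (rv p).2 ∈ Ω := by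
    rcases p3 with h | h
    · right
      show p.1 + p.2 + -p.2 ∈ Ω
      rw [add_neg_cancel_right]
      exact h
    · left
      exact h
  have r1 := rev_arr (Ω := Ω) hΩ.1 p1 p3
  have r2 := rev_arr (Ω := Ω) hΩ.1 (de_rv p1) p3'
  rw [rv_rv] at r2
  simp_rw [Finset.sum_sub_distrib]
  simp_rw [Finset.sum_filter] at r1 r2
  rw [r1, r2, map_sub]
  ring

end TW

open Classical in
/-- THE LOOP INEQUALITY. -/
theorem loop {Ω : Finset Pt} (hΩ : Full Ω) {f : Pt} (hf : Fc f) :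
    ∑ E ∈ (polys Ω).filter (fun E => Nw E f ≠ 0), xc ^ E.card * HH Ω (VE E) ≤ QQ Ω f := by
  have e1 : ∑ a ∈ bd Ω, (∑ t ∈ ex0 Ω a, (NN f a t : ℂ) * wt t + I * ∑ E ∈ (polys Ω).filter (fun E => Nw E f ≠ 0),
      (xc : ℂ) ^ E.card * ∑ t ∈ (ex0 Ω a).filter (Hit (VE E) a), wt t) =
      ∑ a ∈ bd Ω, ∑ t ∈ arr0 Ω a, (cr f (le a t) : ℂ) * wt t := by
    apply Finset.sum_congr rfl
    intro a ha
    obtain ⟨a1, a2, a3⟩ := TW.mem_bd ha
    exact TW.one_a hΩ hf a2 a3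
  rw [TW.flux_eq hΩ] at e1
  obtain ⟨g, hg, e2⟩ := flux hΩ hf (TW.RR Ω f) (fun p hp => ⟨(TW.mem_RR.1 hp).1, (TW.mem_RR.1 hp).2.1⟩)
    (fun p h1 h2 h3 => TW.mem_RR.2 ⟨h1, h2, h3⟩)
  rw [e2, Finset.sum_add_distrib] at e1
  have e3 := congrArg Complex.im e1
  rw [Complex.add_im] at e3
  have e4 : (∑ a ∈ bd Ω, ∑ t ∈ ex0 Ω a, (NN f a t : ℂ) * wt t).im = -QQ Ω f := by
    unfold QQ
    rw [neg_neg, Complex.im_sum]
    apply Finset.sum_congr rfl
    intro a _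
    rw [Complex.im_sum]
    apply Finset.sum_congr rfl
    intro t _
    have h1 : ((NN f a t : ℤ) : ℂ) = (((NN f a t : ℤ) : ℝ) : ℂ) := by push_cast; rfl
    rw [h1, Complex.im_ofReal_mul, TW.wt_im]
    ring
  have e5 : (∑ a ∈ bd Ω, I * ∑ E ∈ (polys Ω).filter (fun E => Nw E f ≠ 0),
      (xc : ℂ) ^ E.card * ∑ t ∈ (ex0 Ω a).filter (Hit (VE E) a), wt t).im =
      ∑ E ∈ (polys Ω).filter (fun E => Nw E f ≠ 0), xc ^ E.card * HH Ω (VE E) := by
    rw [Complex.im_sum]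
    have h1 : ∀ a ∈ bd Ω, (I * ∑ E ∈ (polys Ω).filter (fun E => Nw E f ≠ 0),
        (xc : ℂ) ^ E.card * ∑ t ∈ (ex0 Ω a).filter (Hit (VE E) a), wt t).im =
        ∑ E ∈ (polys Ω).filter (fun E => Nw E f ≠ 0), xc ^ E.card *
          ∑ t ∈ (ex0 Ω a).filter (Hit (VE E) a), Real.cos (wind t * (Real.pi / 8)) * xc ^ t.length := by
      intro a _
      rw [Complex.I_mul_im, Complex.re_sum]
      apply Finset.sum_congr rfl
      intro E _
      rw [← Complex.ofReal_pow, Complex.re_ofReal_mul, Complex.re_sum]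
      congr 1
      exact Finset.sum_congr rfl (fun t _ => TW.wt_re t)
    rw [Finset.sum_congr rfl h1, Finset.sum_comm]
    apply Finset.sum_congr rfl
    intro E _
    rw [← Finset.mul_sum]
    rfl
  rw [e4, e5] at e3
  have e6 : (-(starRingEnd ℂ) (-(g : ℂ) * I)).im = -g := by
    simp
  rw [e6] at e3
  linarith

end LP

end HexObs
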