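import Pool.Agent.HexLoop.HMono
import Pool.Agent.HexLoop.Twist
import Pool.Agent.HexLoop.Shift
import Pool.Agent.HexLoop.Stepped

/-!
SD10, the base: two rows.
-/

set_option autoImplicit false

namespace HexObs

namespace LP

open Complex Finset

/-- the crossings that start at a vertex of K. -/
theorem HH_ge_one {Ω : Finset Pt} (hΩ : Full Ω) (hw : WB Ω) {K : Finset Pt} {a : Pt × Pt} (ha : a ∈ bd Ω)
    (hK : a.1 + a.2 ∈ K) : 1 ≤ HH Ω K := by
  classical
  rw [HH_def]
  have h1 : ∀ b ∈ bd Ω, 0 ≤ ∑ t ∈ (ex0 Ω b).filter (Hit K b), cw t := by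
    intro b hb
    apply Finset.sum_nonneg
    intro t ht
    exact cw_nn4 (hw b hb t (Finset.mem_filter.1 ht).1)
  have h2 : ∑ t ∈ (ex0 Ω a).filter (Hit K a), cw t = 1 := by
    rw [← start_re hΩ ha]
    apply Finset.sum_congr _ (fun _ _ => rfl)
    apply Finset.filter_true_of_mem
    intro t ht
    rw [TW.mem_ex0] at ht
    have h3 : 1 ≤ t.length := by
      rcases Nat.eq_zero_or_pos t.length with h0 | h0
      · rw [List.length_eq_zero_iff] at h0
        subst h0
        exact absurd (TW.mem_bd ha).1 ht.2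
      · exact h0
    exact ⟨1, le_rfl, h3, hK⟩
  rw [← h2]
  exact Finset.single_le_sum (f := fun b => ∑ t ∈ (ex0 Ω b).filter (Hit K b), cw t) h1 ha

private lemma b1_bd {Ω : Finset Pt} {a : Pt × Pt} (h1 : a.1 + a.2 ∈ Ω) (h2 : De a) (h3 : a.1 ∉ Ω) : a ∈ bd Ω := by
  unfold bd
  simp only [Finset.mem_filter, Finset.mem_image, Finset.mem_product]
  refine ⟨⟨(a.1 + a.2, a.2), ⟨h1, h2.1⟩, ?_⟩, h2, h3⟩
  simp

private lemma b1_par {T A B : ℕ} (hT : 1 ≤ T) (hA : 1 ≤ A) (hB : 1 ≤ B) : WB (Par T A B) := by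
  intro a ha t ht
  rw [ex0_exits (TW.mem_bd ha).2.2] at ht
  rcases (par_good hT hA hB ha).wind_cases ht with h | h | h | h | h | h | h <;> rw [h] <;> decide

/-- all windings in the centred parallelogram are at most 180 degrees. -/
theorem PP_WB {m M : ℕ} (hm : 1 ≤ m) (hM : 1 ≤ M) : WB (PP m M) := by
  have hz : cl ((m, m) : Pt) = 0 := by
    unfold cl
    simp
  have h := b1_par (T := 2 * m) (A := M) (B := M + 1) (by omega) hM (by omega)
  rw [← PP_Par] at h
  intro a ha t ht
  refine h (Te (m, m) a) ?_ t ?_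
  · rw [bd_tr hz]
    exact Finset.mem_image_of_mem _ ha
  · rw [ex0_tr]
    exact ht

private lemma b1_dirs : ∀ d ∈ dirs, (d = (1, 0) ∨ d = (0, 1) ∨ d = (-1, 1) ∨ d = (-1, 0) ∨ d = (0, -1) ∨ d = (1, -1)) ∧
    ∀ b, turn b d ∈ dirs ∧ turn b d ≠ -d := by
  decide

/-- a polygon in two rows has a vertex at the bottom or at the top. -/
private lemma b1_poly {M : ℕ} {E : Finset (Pt × Pt)} (hE : E ∈ polys (PP 1 M)) :
    ∃ v ∈ VE E, lv v = -1 ∨ lv v = 3 := by
  rw [mem_polys] at hE
  obtain ⟨hE, hV⟩ := hE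
  by_contra hcon
  push Not at hcon
  have hlv : ∀ v ∈ VE E, (v.1 - v.2) % 3 ≠ 1 ∧ (lv v = 0 ∨ lv v = 2) := by
    intro v hv
    have h1 := mem_PP.1 (hV hv)
    have h2 := hcon v hv
    have h3 := vt_iff3.1 h1.1
    have h4 := h1.2.1
    rw [abs_lt] at h4
    unfold lv at *
    push_cast at h4
    refine ⟨h3, ?_⟩
    omega
  obtain ⟨v, hv⟩ : (VE E).Nonempty := by
    obtain ⟨v, d, τ, m, hP, hEq⟩ := hE
    refine ⟨v, ?_⟩
    unfold VE
    rw [Finset.mem_image]
    refine ⟨eg v d τ 0, ?_, rfl⟩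
    rw [hEq]
    unfold pe
    rw [Finset.mem_image]
    exact ⟨0, Finset.mem_range.2 hP.pos, rfl⟩
  obtain ⟨d, b, h1, h2⟩ := isPoly_prev hE hv
  obtain ⟨b', h3⟩ := isPoly_next hE h2
  have m1 : v - d ∈ VE E := Finset.mem_image.2 ⟨_, h1, rfl⟩
  have m2 : v + turn b d ∈ VE E := Finset.mem_image.2 ⟨_, h3, rfl⟩
  have hd := (isPoly_de hE h1).1
  simp only at hd
  obtain ⟨c1, c2⟩ := b1_dirs d hd
  obtain ⟨c3, c4⟩ := c2 b
  obtain ⟨c5, -⟩ := b1_dirs _ c3
  obtain ⟨q1, q2⟩ := hlv v hv
  obtain ⟨q3, q4⟩ := hlv _ m1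
  obtain ⟨q5, q6⟩ := hlv _ m2
  unfold lv at q2 q4 q6
  rw [Prod.fst_sub, Prod.snd_sub] at q3 q4
  rw [Prod.fst_add, Prod.snd_add] at q5 q6
  rcases c1 with c1 | c1 | c1 | c1 | c1 | c1 <;> rcases c5 with c5 | c5 | c5 | c5 | c5 | c5 <;>
    rw [c1] at q3 q4 <;> rw [c5] at q5 q6 <;> rw [c5, c1] at c4 <;> simp only at q3 q4 q5 q6 <;>
    first
    | omega
    | exact absurd rfl (fun h => c4 (by rw [h] <;> decide))
    | exact absurd (by decide) c4

private lemma b1_one {M : ℕ} (hM : 1 ≤ M) {E : Finset (Pt × Pt)} (hE : E ∈ polys (PP 1 M)) :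
    1 ≤ HH (PP 1 M) (VE E) := by
  have hV := (mem_polys.1 hE).2
  obtain ⟨v, hv, h⟩ := b1_poly hE
  have hf : Full (PP 1 M) := SP_full 1 M _ _
  have h1 := mem_PP.1 (hV hv)
  have h2 := vt_iff3.1 h1.1
  rcases h with h | h
  · have ha : (v + (0, -1), ((0, 1) : Pt)) ∈ bd (PP 1 M) := by
      apply b1_bd
      · show v + (0, -1) + (0, 1) ∈ _
        have : v + (0, -1) + (0, 1) = v := by
          ext <;> simp
        rw [this]
        exact hV hv
      · refine ⟨?_, ?_, ?_⟩
        · show ((0, 1) : Pt) ∈ dirs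
          decide
        · show Vt (v + (0, -1))
          rw [vt_iff3, Prod.fst_add, Prod.snd_add]
          unfold lv at h
          simp only
          omega
        · show Vt (v + (0, -1) + (0, 1))
          have : v + (0, -1) + (0, 1) = v := by
            ext <;> simp
          rw [this]
          exact h1.1
      · intro h3
        have h4 := (mem_PP.1 h3).2.1
        rw [abs_lt] at h4
        unfold lv at h h4
        simp only [Prod.fst_add, Prod.snd_add] at h4
        push_cast at h4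
        omega
    refine HH_ge_one hf (PP_WB le_rfl hM) ha ?_
    show v + (0, -1) + (0, 1) ∈ _
    have : v + (0, -1) + (0, 1) = v := by
      ext <;> simp
    rw [this]
    exact hv
  · have ha : (v + (0, 1), ((0, -1) : Pt)) ∈ bd (PP 1 M) := by
      apply b1_bd
      · show v + (0, 1) + (0, -1) ∈ _
        have : v + (0, 1) + (0, -1) = v := by
          ext <;> simp
        rw [this]
        exact hV hv
      · refine ⟨?_, ?_, ?_⟩
        · show ((0, -1) : Pt) ∈ dirs
          decide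
        · show Vt (v + (0, 1))
          rw [vt_iff3, Prod.fst_add, Prod.snd_add]
          unfold lv at h
          simp only
          omega
        · show Vt (v + (0, 1) + (0, -1))
          have : v + (0, 1) + (0, -1) = v := by
            ext <;> simp
          rw [this]
          exact h1.1
      · intro h3
        have h4 := (mem_PP.1 h3).2.1
        rw [abs_lt] at h4
        unfold lv at h h4
        simp only [Prod.fst_add, Prod.snd_add] at h4
        push_cast at h4
        omega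
    refine HH_ge_one hf (PP_WB le_rfl hM) ha ?_
    show v + (0, 1) + (0, -1) ∈ _
    have : v + (0, 1) + (0, -1) = v := by
      ext <;> simp
    rw [this]
    exact hv

private lemma b1_f0 : (f0.1 - f0.2) % 3 = 1 := by
  decide

/-- the base of the growth. -/
theorem base1 (M : ℕ) : LL (PP 1 M) f0 ≤ QQ (PP 1 M) f0 := by
  classical
  have hf : Full (PP 1 M) := SP_full 1 M _ _
  have h0 : Fc f0 := by
    rw [fc_iff3]
    exact b1_f0
  have h1 := loop hf h0
  refine le_trans ?_ h1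
  unfold LL
  apply Finset.sum_le_sum
  intro E hE
  have hE' := (Finset.mem_filter.1 hE).1
  have hM : 1 ≤ M := by
    rcases Nat.eq_zero_or_pos M with h | h
    · exfalso
      obtain ⟨v, hv, -⟩ := b1_poly hE'
      have h2 := mem_PP.1 ((mem_polys.1 hE').2 hv)
      rw [h] at h2
      have h3 := h2.2.2
      have h4 := abs_nonneg (nn v - 1)
      push_cast at h3
      omega
    · exact h
  have h2 := b1_one hM hE'
  have h3 : 0 ≤ xc ^ E.card := pow_nonneg xc_pos.le _
  calc xc ^ E.card = xc ^ E.card * 1 := (mul_one _).symm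
    _ ≤ _ := mul_le_mul_of_nonneg_left h2 h3

private lemma b1_hex : Poly (1, -1) (1, 0) (fun _ => true) 6 := by
  refine ⟨by omega, ⟨by decide, ?_, ?_⟩, fun _ => rfl, by decide, by decide, ?_⟩
  · rw [vt_iff3]
    decide
  · rw [vt_iff3]
    decide
  intro i k hik hk
  have : ∀ k < 6, ∀ i < k, vs ((1, -1) : Pt) (1, 0) (fun _ => true) i ≠ vs (1, -1) (1, 0) (fun _ => true) k := by
    decide
  exact this k hk i hik

private lemma b1_in : ∀ i < 6, ((eg ((1, -1) : Pt) (1, 0) (fun _ => true) i).1.1 -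
      (eg ((1, -1) : Pt) (1, 0) (fun _ => true) i).1.2) % 3 ≠ 1 ∧
    |lv (eg ((1, -1) : Pt) (1, 0) (fun _ => true) i).1 - 1| < 3 * ((1 : ℕ) : ℤ) ∧
    |nn (eg ((1, -1) : Pt) (1, 0) (fun _ => true) i).1 - 1| < 3 * ((1 : ℕ) : ℤ) := by
  decide

/-- the hexagon around f0. -/
theorem LL_pos : 0 < LL (PP 1 1) f0 := by
  classical
  unfold LL
  apply Finset.sum_pos
  · intro E _
    exact pow_pos xc_pos _
  · refine ⟨pe (1, -1) (1, 0) (fun _ => true) 6, ?_⟩
    rw [Finset.mem_filter, mem_polys]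
    refine ⟨⟨⟨_, _, _, _, b1_hex, rfl⟩, ?_⟩, ?_⟩
    · intro v hv
      unfold VE pe at hv
      simp only [Finset.mem_image, Finset.mem_range] at hv
      obtain ⟨p, ⟨i, hi, rfl⟩, rfl⟩ := hv
      rw [mem_PP, vt_iff3]
      exact b1_in i hi
    · rw [Nw_poly b1_hex]
      decide

end LP

end HexObs
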