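import Pool.Agent.HexLoop.Inside
import Pool.Agent.HexLoop.Refl

/-!
SD5: two disjoint polygons around the same face are nested; a polygon around f meets its image under the reflection in f.
-/

set_option autoImplicit false

namespace HexObs

namespace LP

open Complex Finset

private lemma m_vs {E : Finset (Pt × Pt)} (hE : IsPoly E) {u : Pt} (hu : u ∈ VE E) :
    ∃ d τ m, Poly u d τ m ∧ E = pe u d τ m := by
  obtain ⟨p, hp, rfl⟩ := Finset.mem_image.1 hu
  obtain ⟨τ, m, hP, hEp⟩ := root_at hE hp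
  exact ⟨p.2, τ, m, hP, hEp⟩

lemma mem_VE_pe {v d : Pt} {τ : ℕ → Bool} {m : ℕ} {w : Pt} :
    w ∈ VE (pe v d τ m) ↔ ∃ i, i < m ∧ vs v d τ i = w := by
  unfold VE pe
  rw [Finset.image_image, Finset.mem_image]
  simp only [Finset.mem_range, Function.comp]
  exact Iff.rfl

/-- a polygon disjoint from E' with one vertex inside E' is inside E'. -/
theorem all_ins {E E' : Finset (Pt × Pt)} (hE : IsPoly E) (hE' : IsPoly E') (hdis : ∀ w ∈ VE E, w ∉ VE E')
    {u : Pt} (hu : u ∈ VE E) (h : Ins E' u) : ∀ w ∈ VE E, Ins E' w := by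
  obtain ⟨d, τ, m, hP, hEp⟩ := m_vs hE hu
  have hvs : ∀ i, i < m → vs u d τ i ∈ VE E := by
    intro i hi
    rw [hEp, mem_VE_pe]
    exact ⟨i, hi, rfl⟩
  have hall' : ∀ i, i < m → Ins E' (vs u d τ i) := by
    intro i
    induction i with
    | zero =>
      intro _
      exact h
    | succ i ih =>
      intro hi
      have h1 := ih (by omega)
      have h2 := ins_adj hE' (poly_de hP i) (hdis _ (hvs i (by omega))) (hdis _ (hvs (i + 1) hi))
      exact h2.1 h1
  intro w hw
  rw [hEp, mem_VE_pe] at hw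
  obtain ⟨i, hi, rfl⟩ := hw
  exact hall' i hi

private lemma m_next {E : Finset (Pt × Pt)} (hE : IsPoly E) {p : Pt × Pt} (hp : p ∈ E ∨ rv p ∈ E) :
    p.1 ∈ VE E := by
  rcases hp with h | h
  · exact Finset.mem_image_of_mem _ h
  · obtain ⟨b, hb⟩ := isPoly_next hE h
    have e : (rv p).1 + (rv p).2 = p.1 := by
      unfold rv
      simp
    rw [e] at hb
    exact Finset.mem_image.2 ⟨_, hb, rfl⟩

private lemma m_ins {E : Finset (Pt × Pt)} {g : Pt} (hg : Fc g) (h : Nw E g ≠ 0) (h1 : g + (-1, 0) ∉ VE E) :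
    Ins E (g + (-1, 0)) := by
  refine ⟨(rf_ray hg).1.2.1, h1, (1, 0), by decide +kernel, ?_, ?_⟩
  · have e : g + (-1, 0) + (1, 0) = g := by ext <;> simp
    rw [e]
    exact hg
  · have e : g + (-1, 0) + (1, 0) = g := by ext <;> simp
    rw [e]
    exact h

private lemma nested_aux {E E' : Finset (Pt × Pt)} (hE : IsPoly E) (hE' : IsPoly E')
    (hdis : ∀ w ∈ VE E, w ∉ VE E') (L : ℤ) (hL : ∀ w ∈ VE E, L < lv w) (n : ℕ) :
    ∀ g, Fc g → lv g ≤ L + 3 * n → Nw E g ≠ 0 → Nw E' g ≠ 0 →
      (∀ w ∈ VE E', Ins E w) ∨ (∀ w ∈ VE E, Ins E' w) := by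
  have hdis' : ∀ w ∈ VE E', w ∉ VE E := fun w h1 h2 => hdis w h2 h1
  induction n with
  | zero =>
    intro g _ h h1 _
    exfalso
    apply h1
    apply Nw_low
    intro v hv
    have := hL v hv
    push_cast at h
    omega
  | succ n ih =>
    intro g hg h hN hN'
    obtain ⟨h1, h2, h3, h4⟩ := rf_ray hg
    by_cases hc : (g + (-1, 0), ((1, -1) : Pt)) ∈ E ∨ rv (g + (-1, 0), ((1, -1) : Pt)) ∈ E
    · right
      have hv := m_next hE hc
      simp only at hv
      exact all_ins hE hE' hdis hv (m_ins hg hN' (hdis _ hv))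
    · by_cases hc' : (g + (-1, 0), ((1, -1) : Pt)) ∈ E' ∨ rv (g + (-1, 0), ((1, -1) : Pt)) ∈ E'
      · left
        have hv := m_next hE' hc'
        simp only at hv
        exact all_ins hE' hE hdis' hv (m_ins hg hN (hdis' _ hv))
      · push_neg at hc hc'
        have h6 := Nw_edge hE h1
        have h7 := Nw_edge hE' h1
        rw [if_neg hc.1, if_neg hc.2] at h6
        rw [if_neg hc'.1, if_neg hc'.2] at h7
        simp only at h6 h7
        rw [h3, h4] at h6 h7
        apply ih (g + (-1, -1)) h2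
        · unfold lv at h ⊢
          push_cast at h
          simp only [Prod.fst_add, Prod.snd_add]
          omega
        · intro e
          apply hN
          omega
        · intro e
          apply hN'
          omega

/-- two disjoint polygons around one face are nested. -/
theorem nested_or {E E' : Finset (Pt × Pt)} (hE : IsPoly E) (hE' : IsPoly E') (hdis : ∀ w ∈ VE E, w ∉ VE E')
    {g : Pt} (hg : Fc g) (h1 : Nw E g ≠ 0) (h2 : Nw E' g ≠ 0) :
    (∀ w ∈ VE E', Ins E w) ∨ (∀ w ∈ VE E, Ins E' w) := by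
  obtain ⟨L, hL⟩ : ∃ L : ℤ, ∀ w ∈ VE E, L < lv w := by
    obtain ⟨L, hL⟩ := ((VE E).image lv).bddBelow
    refine ⟨L - 1, fun w hw => ?_⟩
    have h3 : L ≤ lv w := hL (by
      rw [Finset.coe_image]
      exact Set.mem_image_of_mem _ hw)
    omega
  apply nested_aux hE hE' hdis L hL (Int.toNat (lv g - L)) g hg _ h1 h2
  have : lv g - L ≤ (Int.toNat (lv g - L) : ℤ) := Int.self_le_toNat _
  omega

lemma VE_nonempty {E : Finset (Pt × Pt)} (hE : IsPoly E) : (VE E).Nonempty := by
  obtain ⟨v, d, τ, m, h, rfl⟩ := hE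
  exact ⟨v, mem_VE_pe.2 ⟨0, h.pos, rfl⟩⟩

/-- a polygon around f meets its image. -/
theorem meet_RE {Ω : Finset Pt} (hΩ : Full Ω) {f : Pt} (hf : Fc f) {E : Finset (Pt × Pt)} (hE : IsPoly E)
    (hs : VE E ⊆ Ω) (hN : Nw E f ≠ 0) : ∃ w ∈ VE E, Rf f w ∈ VE E := by
  by_contra hcon
  push_neg at hcon
  have hE' := isPoly_RE hf hE
  have hN' : Nw (RE f E) f ≠ 0 := by
    rw [Nw_RE_self hf hE]
    exact hN
  have hdis : ∀ w ∈ VE E, w ∉ VE (RE f E) := by
    intro w hw h
    rw [mem_VE_RE] at h
    exact hcon w hw h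
  -- the interior of E
  have hfin : ∀ v, Ins E v → v ∈ inn Ω E := fun v hv => mem_inn.2 ⟨hΩ.2 E hE hs v hv, hv⟩
  have himg : ∀ v, Ins (RE f E) v ↔ Rf f v ∈ inn Ω E := by
    intro v
    have h1 := ins_RE hf hE (v := Rf f v)
    rw [Rf_Rf] at h1
    rw [h1]
    exact ⟨hfin _, fun h => (mem_inn.1 h).2⟩
  rcases nested_or hE hE' hdis hf hN hN' with h | h
  · -- the image is inside
    have hsub : (inn Ω E).image (Rf f) ∪ VE (RE f E) ⊆ inn Ω E := by
      intro v hv
      rcases Finset.mem_union.1 hv with h1 | h1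
      · rw [mem_Rf_image] at h1
        exact hfin v (nested hE hE' h ((himg v).2 h1))
      · exact hfin v (h v h1)
    have hd : Disjoint ((inn Ω E).image (Rf f)) (VE (RE f E)) := by
      rw [Finset.disjoint_left]
      intro v h1 h2
      rw [mem_Rf_image] at h1
      exact ((himg v).2 h1).2.1 h2
    have hc := Finset.card_le_card hsub
    rw [Finset.card_union_of_disjoint hd, Finset.card_image_of_injective _ (Rf_inj f)] at hc
    have h3 := (VE_nonempty hE').card_pos
    omega
  · -- the polygon is inside its image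
    have hsub : inn Ω E ∪ VE E ⊆ (inn Ω E).image (Rf f) := by
      intro v hv
      rw [mem_Rf_image]
      apply (himg v).1
      rcases Finset.mem_union.1 hv with h1 | h1
      · exact nested hE' hE h (mem_inn.1 h1).2
      · exact h v h1
    have hd : Disjoint (inn Ω E) (VE E) := by
      rw [Finset.disjoint_left]
      intro v h1 h2
      exact (mem_inn.1 h1).2.2.1 h2
    have hc := Finset.card_le_card hsub
    rw [Finset.card_union_of_disjoint hd, Finset.card_image_of_injective _ (Rf_inj f)] at hc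
    have h3 := (VE_nonempty hE).card_pos
    omega

end LP

end HexObs
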