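import Pool.Agent.HexObs.Planar

/-!
SD6: separation in a stepped domain, in the coordinates (horizontal, level). The domain has levels -1, ..., 3T+3;
the top row (levels 3T+2, 3T+3) is present to the right of u = (xt, 3T+2), the bottom row (levels -1, 0) to the left of
u' = (xb, 0). A path of the domain from its right side to its left side meets every path from u to u'.
-/

set_option autoImplicit false

namespace HexObs

namespace SD6

open Finset Planar

/-- the parity of the vertical edges to the left of r on a path with m steps. -/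
def KQ (a : ℕ → ℤ × ℤ) (m : ℕ) (r : ℤ × ℤ) : ZMod 2 := ∑ i ∈ range m, kap (a i) (a (i + 1)) r

lemma tele (f : ℕ → ZMod 2) (n : ℕ) : ∑ i ∈ range n, (f i + f (i + 1)) = f 0 + f n := by
  induction n with
  | zero =>
    rw [sum_range_zero]
    have h : ∀ x : ZMod 2, 0 = x + x := by decide
    exact h _
  | succ n ih =>
    rw [sum_range_succ, ih]
    have h2 : ∀ x y z : ZMod 2, x + y + (y + z) = x + z := by decide
    exact h2 _ _ _

lemma KQ_vert {a : ℕ → ℤ × ℤ} {m : ℕ} (ha : ∀ i, i < m → Adj (a i) (a (i + 1))) {r r' : ℤ × ℤ} (hr : r.2 % 3 = 0)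
    (h1 : r'.1 = r.1) (h2 : r'.2 = r.2 + 2) : KQ a m r = KQ a m r' := by
  unfold KQ
  apply sum_congr rfl
  intro i hi
  rw [mem_range] at hi
  exact kap_vert (ha i hi) hr h1 h2

lemma KQ_left {a : ℕ → ℤ × ℤ} {m : ℕ} (ha : ∀ i, i < m → Adj (a i) (a (i + 1))) {r r' : ℤ × ℤ} (hr : r.2 % 3 = 0)
    (hpar : (r.1 + r.2) % 2 = 0) (h1 : r'.1 = r.1 - 1) (h2 : r'.2 = r.2 - 1) (hne : ∀ i, i ≤ m → a i ≠ r) :
    KQ a m r + KQ a m r' = phi 0 r (a 0) + phi 0 r (a m) := by
  unfold KQ
  rw [← sum_add_distrib, ← tele (fun i => phi 0 r (a i)) m]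
  apply sum_congr rfl
  intro i hi
  rw [mem_range] at hi
  exact kap_left (ha i hi) hr hpar h1 h2 (hne i (by omega)) (hne (i + 1) (by omega))

lemma KQ_right {a : ℕ → ℤ × ℤ} {m : ℕ} (ha : ∀ i, i < m → Adj (a i) (a (i + 1))) {r r' : ℤ × ℤ} (hr : r.2 % 3 = 0)
    (hpar : (r.1 + r.2) % 2 = 0) (h1 : r'.1 = r.1 + 1) (h2 : r'.2 = r.2 - 1) (hne : ∀ i, i ≤ m → a i ≠ r') :
    KQ a m r + KQ a m r' = phi 1 r (a 0) + phi 1 r (a m) := by
  unfold KQ
  rw [← sum_add_distrib, ← tele (fun i => phi 1 r (a i)) m]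
  apply sum_congr rfl
  intro i hi
  rw [mem_range] at hi
  exact kap_right (ha i hi) hr hpar h1 h2 (hne i (by omega)) (hne (i + 1) (by omega))

/-- the shape of the domain. -/
structure Stp (T xt xb : ℤ) (D : Set (ℤ × ℤ)) : Prop where
  pos : 1 ≤ T
  par : ∀ r ∈ D, (r.1 + r.2) % 2 = 0
  low : ∀ r ∈ D, -1 ≤ r.2
  high : ∀ r ∈ D, r.2 ≤ 3 * T + 3
  top : ∀ r ∈ D, 3 * T + 2 ≤ r.2 → xt ≤ r.1
  bot : ∀ r ∈ D, r.2 ≤ 0 → r.1 ≤ xb

/-- p has a boundary edge on the right side: through the raised top, the right wall or the right part of the floor. -/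
def RB (T xb : ℤ) (D : Set (ℤ × ℤ)) (p : ℤ × ℤ) : Prop :=
  p.2 = 3 * T + 3 ∨ (p.2 % 3 = 0 ∧ 3 ≤ p.2 ∧ (p.1 + 1, p.2 - 1) ∉ D ∧ ∀ r ∈ D, r.2 = p.2 → r.1 ≤ p.1) ∨
    (p.2 = 2 ∧ xb < p.1)

/-- p has a boundary edge on the left side: through the left floor, the left wall or the left part of the top. -/
def LB (T xt : ℤ) (D : Set (ℤ × ℤ)) (q : ℤ × ℤ) : Prop :=
  q.2 = -1 ∨ (q.2 % 3 = 2 ∧ q.2 ≤ 3 * T - 1 ∧ (q.1 - 1, q.2 + 1) ∉ D ∧ ∀ r ∈ D, r.2 = q.2 + 1 → q.1 ≤ r.1) ∨
    (q.2 = 3 * T ∧ q.1 < xt)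

/-- the properties of the correction term of an end point z. -/
structure Cor (T xt xb : ℤ) (D : Set (ℤ × ℤ)) (z : ℤ × ℤ) (e : ℤ × ℤ → ZMod 2) (s : ZMod 2) : Prop where
  vert : ∀ r ∈ D, r.2 % 3 = 0 → ∀ r' ∈ D, r'.1 = r.1 → r'.2 = r.2 + 2 → e r = e r'
  left : ∀ r ∈ D, r.2 % 3 = 0 → r ≠ z → ∀ r' ∈ D, r' ≠ z → r'.1 = r.1 - 1 → r'.2 = r.2 - 1 → e r + e r' = phi 0 r z
  right : ∀ r ∈ D, r.2 % 3 = 0 → r ≠ z → ∀ r' ∈ D, r' ≠ z → r'.1 = r.1 + 1 → r'.2 = r.2 - 1 → e r + e r' = phi 1 r z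
  stp : e (xt, 3 * T + 2) + e (xb, 0) = s + phi 1 (xb, 0) z

private lemma ne_pt {r z : ℤ × ℤ} (h : r ≠ z) : r.1 ≠ z.1 ∨ r.2 ≠ z.2 := by
  by_contra hcon
  push Not at hcon
  exact h (Prod.ext hcon.1 hcon.2)

lemma cor_RB {T xt xb : ℤ} {D : Set (ℤ × ℤ)} (hD : Stp T xt xb D) {z : ℤ × ℤ} (hz : z ∈ D) (h : RB T xb D z) :
    ∃ e, Cor T xt xb D z e 0 := by
  have hT := hD.pos
  have hzp := hD.par z hz
  rcases h with h | ⟨h, h5, h6, h7⟩ | ⟨h, h5⟩
  · refine ⟨fun r => if r.2 = 3 * T + 3 ∧ z.1 ≤ r.1 then 1 else 0, ?_, ?_, ?_, ?_⟩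
    · intro r hr h1 r' hr' h2 h3
      have k1 := hD.high r' hr'
      try dsimp only
      split_ifs <;> first | rfl | (exfalso; omega)
    · intro r hr h1 h4 r' hr' h8 h2 h3
      have k1 := hD.high r hr
      unfold phi
      try dsimp only
      split_ifs <;> first | rfl | (exfalso; omega)
    · intro r hr h1 h4 r' hr' h8 h2 h3
      have k1 := hD.high r hr
      unfold phi
      try dsimp only
      split_ifs <;> first | rfl | (exfalso; omega)
    · unfold phi
      try dsimp only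
      split_ifs <;> first | rfl | (exfalso; omega)
  · refine ⟨fun r => 0, ?_, ?_, ?_, ?_⟩
    · intro r hr h1 r' hr' h2 h3
      rfl
    · intro r hr h1 h4 r' hr' h8 h2 h3
      have k4 := ne_pt h4
      have k5 := h7 r hr
      unfold phi
      try dsimp only
      split_ifs <;> first | rfl | (exfalso; omega)
    · intro r hr h1 h4 r' hr' h8 h2 h3
      have k4 := ne_pt h4
      have k5 := h7 r hr
      unfold phi
      try dsimp only
      split_ifs <;> first | rfl | (exfalso; omega)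
    · unfold phi
      try dsimp only
      split_ifs <;> first | rfl | (exfalso; omega)
  · refine ⟨fun r => if (r.2 = 0 ∨ r.2 = 2) ∧ z.1 ≤ r.1 then 1 else 0, ?_, ?_, ?_, ?_⟩
    · intro r hr h1 r' hr' h2 h3
      try dsimp only
      split_ifs <;> first | rfl | (exfalso; omega)
    · intro r hr h1 h4 r' hr' h8 h2 h3
      have k1 := hD.bot r hr
      have k2 := hD.par r hr
      unfold phi
      try dsimp only
      split_ifs <;> first | rfl | (exfalso; omega)
    · intro r hr h1 h4 r' hr' h8 h2 h3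
      have k1 := hD.bot r hr
      have k2 := hD.par r hr
      unfold phi
      try dsimp only
      split_ifs <;> first | rfl | (exfalso; omega)
    · unfold phi
      try dsimp only
      split_ifs <;> first | rfl | (exfalso; omega)

lemma cor_LB {T xt xb : ℤ} {D : Set (ℤ × ℤ)} (hD : Stp T xt xb D) {z : ℤ × ℤ} (hz : z ∈ D) (h : LB T xt D z) :
    ∃ e, Cor T xt xb D z e 1 := by
  have hT := hD.pos
  have hzp := hD.par z hz
  have hzb := hD.bot z hz
  have hzl := hD.low z hz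
  rcases h with h | ⟨h, h5, h6, h7⟩ | ⟨h, h5⟩
  · refine ⟨fun r => if r.2 = -1 ∧ z.1 ≤ r.1 then 1 else 0, ?_, ?_, ?_, ?_⟩
    · intro r hr h1 r' hr' h2 h3
      have k1 := hD.low r hr
      try dsimp only
      split_ifs <;> first | rfl | (exfalso; omega)
    · intro r hr h1 h4 r' hr' h8 h2 h3
      have k2 := hD.par r hr
      unfold phi
      try dsimp only
      split_ifs <;> first | rfl | (exfalso; omega)
    · intro r hr h1 h4 r' hr' h8 h2 h3
      have k2 := hD.par r hr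
      unfold phi
      try dsimp only
      split_ifs <;> first | rfl | (exfalso; omega)
    · unfold phi
      try dsimp only
      split_ifs <;> first | rfl | decide | (exfalso; omega) | (exfalso; tauto)
  · refine ⟨fun r => if r.2 ≤ z.2 then 1 else 0, ?_, ?_, ?_, ?_⟩
    · intro r hr h1 r' hr' h2 h3
      try dsimp only
      split_ifs <;> first | rfl | (exfalso; omega)
    · intro r hr h1 h4 r' hr' h8 h2 h3
      have k5 := h7 r hr
      unfold phi
      try dsimp only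
      split_ifs <;> first | rfl | (exfalso; omega)
    · intro r hr h1 h4 r' hr' h8 h2 h3
      have k5 := h7 r hr
      unfold phi
      try dsimp only
      split_ifs <;> first | rfl | (exfalso; omega)
    · unfold phi
      try dsimp only
      split_ifs <;> first | rfl | (exfalso; omega)
  · refine ⟨fun r => (if r.2 ≤ 3 * T + 2 then 1 else 0) +
      (if (r.2 = 3 * T ∨ r.2 = 3 * T + 2) ∧ z.1 ≤ r.1 then 1 else 0), ?_, ?_, ?_, ?_⟩
    · intro r hr h1 r' hr' h2 h3
      have k1 := hD.high r' hr'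
      try dsimp only
      split_ifs <;> first | rfl | (exfalso; omega)
    · intro r hr h1 h4 r' hr' h8 h2 h3
      have k1 := hD.high r hr
      have k2 := hD.top r' hr'
      have k3 := hD.top r hr
      unfold phi
      try dsimp only
      split_ifs <;> first | rfl | (exfalso; omega)
    · intro r hr h1 h4 r' hr' h8 h2 h3
      have k1 := hD.high r hr
      have k2 := hD.top r' hr'
      have k3 := hD.top r hr
      unfold phi
      try dsimp only
      split_ifs <;> first | rfl | (exfalso; omega)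
    · unfold phi
      try dsimp only
      split_ifs <;> first | rfl | (exfalso; omega)

/-- the corrected parity is constant along the edges that avoid the path. -/
lemma KQ_step {T xt xb : ℤ} {D : Set (ℤ × ℤ)} {a : ℕ → ℤ × ℤ} {n : ℕ}
    (ha : ∀ i, i < n → Adj (a i) (a (i + 1))) {e e' : ℤ × ℤ → ZMod 2} {s s' : ZMod 2}
    (he : Cor T xt xb D (a 0) e s) (he' : Cor T xt xb D (a n) e' s') {r r' : ℤ × ℤ} (hr : r ∈ D) (hr' : r' ∈ D)
    (h : EE r r') (h1 : ∀ i, i ≤ n → a i ≠ r) (h2 : ∀ i, i ≤ n → a i ≠ r') :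
    KQ a n r + e r + e' r = KQ a n r' + e r' + e' r' := by
  have key : ∀ a b c d x y : ZMod 2, a + b = (c + d) + (x + y) → a + c + x = b + d + y := by decide
  obtain ⟨c1, c2, c3⟩ := h
  have z1 : r ≠ a 0 := fun h => h1 0 (by omega) h.symm
  have z2 : r ≠ a n := fun h => h1 n le_rfl h.symm
  have z3 : r' ≠ a 0 := fun h => h2 0 (by omega) h.symm
  have z4 : r' ≠ a n := fun h => h2 n le_rfl h.symm
  rcases c3 with ⟨b1, b2⟩ | ⟨b1, b2⟩ | ⟨b1, b2⟩
  · rw [KQ_vert ha c1 b1 b2, he.vert r hr c1 r' hr' b1 b2, he'.vert r hr c1 r' hr' b1 b2]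
  · apply key
    rw [KQ_right ha c1 c2 b1 b2 h2, he.right r hr c1 z1 r' hr' z3 b1 b2, he'.right r hr c1 z2 r' hr' z4 b1 b2]
  · apply key
    rw [KQ_left ha c1 c2 b1 b2 h1, he.left r hr c1 z1 r' hr' z3 b1 b2, he'.left r hr c1 z2 r' hr' z4 b1 b2]

/-- SEPARATION. -/
theorem sep_abs {T xt xb : ℤ} {D : Set (ℤ × ℤ)} (hD : Stp T xt xb D) {a g : ℕ → ℤ × ℤ} {n m : ℕ}
    (ha : ∀ i, i < n → Adj (a i) (a (i + 1))) (haD : ∀ i, i ≤ n → a i ∈ D)
    (hg : ∀ j, j < m → Adj (g j) (g (j + 1))) (hgD : ∀ j, j ≤ m → g j ∈ D)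
    (hg0 : g 0 = (xt, 3 * T + 2)) (hgm : g m = (xb, 0)) (hdis : ∀ i, i ≤ n → ∀ j, j ≤ m → a i ≠ g j)
    (hp : RB T xb D (a 0)) (hq : LB T xt D (a n)) : False := by
  obtain ⟨e, he⟩ := cor_RB hD (haD 0 (by omega)) hp
  obtain ⟨e', he'⟩ := cor_LB hD (haD n le_rfl) hq
  have hT := hD.pos
  have hc : ∀ j, j ≤ m → KQ a n (g j) + e (g j) + e' (g j) = KQ a n (g 0) + e (g 0) + e' (g 0) := by
    intro j
    induction j with
    | zero => intro _; rfl
    | succ j ih =>
      intro hj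
      rw [← ih (by omega)]
      rcases hg j (by omega) with h | h
      · exact (KQ_step ha he he' (hgD j (by omega)) (hgD (j + 1) hj) h (fun i hi => hdis i hi j (by omega))
          (fun i hi => hdis i hi (j + 1) hj)).symm
      · exact KQ_step ha he he' (hgD (j + 1) hj) (hgD j (by omega)) h (fun i hi => hdis i hi (j + 1) hj)
          (fun i hi => hdis i hi j (by omega))
  have h1 := hc m le_rfl
  rw [hgm, hg0] at h1
  have hu : KQ a n (xt, 3 * T + 2) = 0 := by
    unfold KQ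
    apply sum_eq_zero
    intro i hi
    rw [mem_range] at hi
    unfold kap
    rw [if_neg]
    rintro ⟨k1, k2, k3⟩
    dsimp only at k2 k3
    rcases k2 with k2 | k2
    · have k4 := hD.top _ (haD i (by omega)) (by omega)
      exact hdis i (by omega) 0 (by omega) (by rw [hg0]; exact Prod.ext (by dsimp only; omega) k2)
    · have k4 := hD.top _ (haD (i + 1) (by omega)) (by omega)
      exact hdis (i + 1) (by omega) 0 (by omega) (by rw [hg0]; exact Prod.ext (by dsimp only; omega) k2)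
  have hpar : ((xb : ℤ) + 0) % 2 = 0 := by
    have := hD.par _ (hgD m le_rfl)
    rw [hgm] at this
    exact this
  have hb : KQ a n (xb, 0) + KQ a n (xb + 1, -1) = phi 1 (xb, 0) (a 0) + phi 1 (xb, 0) (a n) := by
    refine KQ_right ha rfl hpar rfl rfl ?_
    intro i hi h
    have k1 := hD.bot _ (haD i hi) (by rw [h]; dsimp only; omega)
    rw [h] at k1
    dsimp only at k1
    omega
  have hb2 : KQ a n (xb + 1, -1) = 0 := by
    unfold KQ
    apply sum_eq_zero
    intro i hi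
    rw [mem_range] at hi
    unfold kap
    rw [if_neg]
    rintro ⟨k1, k2, k3⟩
    dsimp only at k2 k3
    have l1 := hD.low _ (haD i (by omega))
    have l2 := hD.low _ (haD (i + 1) (by omega))
    have l3 := ha i hi
    unfold Adj EE at l3
    rcases l3 with ⟨a1, a2, a3 | a3 | a3⟩ | ⟨a1, a2, a3 | a3 | a3⟩ <;> omega
  rw [hb2, add_zero] at hb
  rw [hu, hb] at h1
  have s1 := he.stp
  have s2 := he'.stp
  revert h1 s1 s2
  generalize e (xt, 3 * T + 2) = v1
  generalize e (xb, 0) = v2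
  generalize e' (xt, 3 * T + 2) = v3
  generalize e' (xb, 0) = v4
  generalize phi 1 (xb, 0) (a 0) = v5
  generalize phi 1 (xb, 0) (a n) = v6
  revert v1 v2 v3 v4 v5 v6
  decide

end SD6

end HexObs
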