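import Pool.Agent.HexLoop.Defs
import Pool.Agent.HexLoop.SepAbs

/-!
SD6: separation in the stepped domain.
-/

set_option autoImplicit false

namespace HexObs

namespace SD6

open Finset Planar LP

/-- one step in Ω. -/
def Nx (Ω : Set Pt) (v w : Pt) : Prop := v ∈ Ω ∧ w ∈ Ω ∧ w - v ∈ dirs

/-- connected in Ω. -/
def Cn (Ω : Set Pt) : Pt → Pt → Prop := Relation.ReflTransGen (Nx Ω)

lemma Cn.single {Ω : Set Pt} {v w : Pt} (hv : v ∈ Ω) (hw : w ∈ Ω) (h : w - v ∈ dirs) : Cn Ω v w :=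
  Relation.ReflTransGen.single ⟨hv, hw, h⟩

lemma Cn.refl {Ω : Set Pt} (v : Pt) : Cn Ω v v := Relation.ReflTransGen.refl

lemma neg_dirs {d : Pt} (h : d ∈ dirs) : -d ∈ dirs := by
  revert h
  revert d
  decide

lemma Cn.symm {Ω : Set Pt} {v w : Pt} (h : Cn Ω v w) : Cn Ω w v := by
  induction h with
  | refl => exact Relation.ReflTransGen.refl
  | @tail b c hb hbc ih =>
    obtain ⟨h1, h2, h3⟩ := hbc
    have h4 := neg_dirs h3
    rw [neg_sub] at h4
    exact Relation.ReflTransGen.head ⟨h2, h1, h4⟩ ih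

lemma Cn.trans {Ω : Set Pt} {u v w : Pt} (h : Cn Ω u v) (h' : Cn Ω v w) : Cn Ω u w :=
  Relation.ReflTransGen.trans h h'

lemma Cn.mono {Ω Ω' : Set Pt} (hs : Ω ⊆ Ω') {v w : Pt} (h : Cn Ω v w) : Cn Ω' v w := by
  induction h with
  | refl => exact Relation.ReflTransGen.refl
  | @tail b c hb hbc ih =>
    obtain ⟨h1, h2, h3⟩ := hbc
    exact Relation.ReflTransGen.tail ih ⟨hs h1, hs h2, h3⟩

/-- a connection is a path. -/
lemma Cn.path {Ω : Set Pt} {v w : Pt} (hv : v ∈ Ω) (h : Cn Ω v w) :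
    ∃ (n : ℕ) (a : ℕ → Pt), a 0 = v ∧ a n = w ∧ (∀ i, i < n → Nx Ω (a i) (a (i + 1))) ∧ ∀ i, i ≤ n → a i ∈ Ω := by
  induction h with
  | refl =>
    refine ⟨0, fun _ => v, rfl, rfl, fun i hi => absurd hi (by omega), fun i _ => hv⟩
  | @tail b c hb hbc ih =>
    obtain ⟨n, a, h0, hn, hs, hm⟩ := ih
    refine ⟨n + 1, fun i => if i ≤ n then a i else c, ?_, ?_, ?_, ?_⟩
    · show (if 0 ≤ n then a 0 else c) = v
      rw [if_pos (Nat.zero_le n), h0]
    · show (if n + 1 ≤ n then a (n + 1) else c) = c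
      rw [if_neg (by omega)]
    · intro i hi
      show Nx Ω (if i ≤ n then a i else c) (if i + 1 ≤ n then a (i + 1) else c)
      rw [if_pos (by omega)]
      by_cases h1 : i + 1 ≤ n
      · rw [if_pos h1]
        exact hs i (by omega)
      · rw [if_neg h1]
        have h2 : i = n := by omega
        rw [h2, hn]
        exact hbc
    · intro i hi
      show (if i ≤ n then a i else c) ∈ Ω
      by_cases h1 : i ≤ n
      · rw [if_pos h1]
        exact hm i h1
      · rw [if_neg h1]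
        exact hbc.2.1

/-- the coordinates (horizontal, level). -/
def XY (v : Pt) : ℤ × ℤ := (v.1, lv v)

lemma XY_inj {v w : Pt} (h : XY v = XY w) : v = w := by
  have h1 := congrArg Prod.fst h
  have h2 := congrArg Prod.snd h
  unfold XY lv at h1 h2
  dsimp only at h1 h2
  exact Prod.ext h1 (by omega)

lemma vt_mod {v : Pt} (h : Vt v) : (v.1 - v.2) % 3 ≠ 1 := by
  intro h1
  apply h
  unfold cl
  have h2 : (((v.1 - v.2 : ℤ)) : ZMod 3) = ((1 : ℤ) : ZMod 3) := by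
    rw [ZMod.intCast_eq_intCast_iff]
    exact h1
  rw [h2]
  norm_num

lemma adj_of {v w : Pt} (hv : Vt v) (hw : Vt w) (h : w - v ∈ dirs) : Adj (XY v) (XY w) := by
  have h1 := vt_mod hv
  have h2 := vt_mod hw
  have h3 : w = v + (w - v) := by abel
  revert h3
  generalize w - v = d at h
  intro h3
  subst h3
  obtain ⟨x, y⟩ := v
  unfold dirs at h
  simp only [Finset.mem_insert, Finset.mem_singleton] at h
  unfold Adj EE XY lv
  rcases h with rfl | rfl | rfl | rfl | rfl | rfl <;> simp only [Prod.mk_add_mk, true_and] at h1 h2 ⊢ <;> omega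

/-- SEPARATION: D has the levels -1, ..., 3T+3; above the level 3T it lies to the right of u, at the levels -1, 0 to the
left of r. If G joins u to r, the complement of G does not join the left side to the right side. -/
theorem sep {D G : Set Pt} {T : ℤ} (hT : 1 ≤ T) {u r : Pt} (hu : lv u = 3 * T + 2) (hr : lv r = 0)
    (hV : ∀ v ∈ D, Vt v) (hlow : ∀ v ∈ D, -1 ≤ lv v) (hhigh : ∀ v ∈ D, lv v ≤ 3 * T + 3)
    (htop : ∀ v ∈ D, 3 * T + 2 ≤ lv v → u.1 ≤ v.1) (hbot : ∀ v ∈ D, lv v ≤ 0 → v.1 ≤ r.1)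
    (hG : G ⊆ D) (huG : u ∈ G) (hGc : Cn G u r) {v w : Pt} (hv : v ∈ D \ G)
    (h : Cn (D \ G) v w) (hL : lv v = -1 ∨ (lv v = 3 * T ∧ v.1 < u.1))
    (hR : lv w = 3 * T + 3 ∨ (lv w = 2 ∧ r.1 < w.1)) : False := by
  have hw : w ∈ D \ G := by
    rcases Relation.ReflTransGen.cases_tail h with h1 | ⟨c, _, h1⟩
    · rw [h1]
      exact hv
    · exact h1.2.1
  obtain ⟨n, a, a0, an, as, am⟩ := Cn.path hw h.symm
  obtain ⟨m, g, g0, gm, gs, gg⟩ := Cn.path huG hGc
  have hS : Stp T u.1 r.1 (XY '' D) := by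
    refine ⟨hT, ?_, ?_, ?_, ?_, ?_⟩
    · rintro _ ⟨z, hz, rfl⟩
      unfold XY lv
      dsimp only
      omega
    · rintro _ ⟨z, hz, rfl⟩
      exact hlow z hz
    · rintro _ ⟨z, hz, rfl⟩
      exact hhigh z hz
    · rintro _ ⟨z, hz, rfl⟩
      exact htop z hz
    · rintro _ ⟨z, hz, rfl⟩
      exact hbot z hz
  refine sep_abs hS (a := fun i => XY (a i)) (g := fun j => XY (g j)) (n := n) (m := m) ?_ ?_ ?_ ?_ ?_ ?_ ?_ ?_ ?_
  · intro i hi
    exact adj_of (hV _ (as i hi).1.1) (hV _ (as i hi).2.1.1) (as i hi).2.2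
  · intro i hi
    exact ⟨a i, (am i hi).1, rfl⟩
  · intro j hj
    exact adj_of (hV _ (hG (gs j hj).1)) (hV _ (hG (gs j hj).2.1)) (gs j hj).2.2
  · intro j hj
    exact ⟨g j, hG (gg j hj), rfl⟩
  · show XY (g 0) = _
    rw [g0]
    exact Prod.ext rfl hu
  · show XY (g m) = _
    rw [gm]
    exact Prod.ext rfl hr
  · intro i hi j hj hij
    have := XY_inj hij
    exact (am i hi).2 (this ▸ gg j hj)
  · show RB T r.1 (XY '' D) (XY (a 0))
    rw [a0]
    rcases hR with hR | ⟨hR, hR2⟩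
    · exact Or.inl hR
    · exact Or.inr (Or.inr ⟨hR, hR2⟩)
  · show LB T u.1 (XY '' D) (XY (a n))
    rw [an]
    rcases hL with hL | ⟨hL, hL2⟩
    · exact Or.inl hL
    · exact Or.inr (Or.inr ⟨hL, hL2⟩)

end SD6

end HexObs
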