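import Pool.Agent.HexLoop.HMono
import Pool.Agent.HexLoop.Meet
import Pool.Agent.HexLoop.SepW

/-!
SD5: a polygon E around f that is born with a new vertex: the sum HH over the crossings that meet E is at least half
of the sum over the crossings that meet a symmetric connected set G.
-/

set_option autoImplicit false

namespace HexObs

namespace LP

open Complex Finset SD6

/-- the conclusion: G is a symmetric connected subset of D that contains u. -/
structure SymConn (D : Finset Pt) (f u : Pt) (G : Finset Pt) : Prop where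
  sub : G ⊆ D
  sym : ∀ v ∈ G, Rf f v ∈ G
  mem : u ∈ G
  con : ∀ v ∈ G, ∀ w ∈ G, Cn (G : Set Pt) v w

/-- the vertices a (pendant) and u (closes a face) are added to D. -/
structure Grow (D : Finset Pt) (a u : Pt) : Prop where
  ha : a ∉ D
  hu : u ∉ D
  ca : nn a % 3 = 0
  ua : u = a + (-1, 0)
  a1 : a + (1, -1) ∈ D
  a2 : a + (0, 1) ∉ D
  u1 : u + (0, -1) ∈ D
  u2 : u + (-1, 1) ∉ D

section conn

lemma cn_vs {v d : Pt} {τ : ℕ → Bool} (hd : d ∈ dirs) {G : Set Pt} (i j : ℕ) (hij : i ≤ j)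
    (h : ∀ k, i ≤ k → k ≤ j → vs v d τ k ∈ G) : Cn G (vs v d τ i) (vs v d τ j) := by
  obtain ⟨n, rfl⟩ := Nat.exists_eq_add_of_le hij
  induction n with
  | zero => exact Cn.refl _
  | succ n ih =>
    have h1 := ih (by omega) (fun k h1 h2 => h k h1 (by omega))
    refine h1.trans (Cn.single (h _ (by omega) (by omega)) (h _ (by omega) (by omega)) ?_)
    have e : vs v d τ (i + (n + 1)) - vs v d τ (i + n) = ds d τ (i + n) := by
      rw [← add_assoc, vs_succ]
      abel
    rw [e]
    exact ds_mem hd _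

lemma cn_Rf {f : Pt} {G G' : Set Pt} (h : ∀ v ∈ G, Rf f v ∈ G') {v w : Pt} (hc : Cn G v w) :
    Cn G' (Rf f v) (Rf f w) := by
  induction hc with
  | refl => exact Cn.refl _
  | tail _ h2 ih =>
    refine ih.trans (Cn.single (h _ h2.1) (h _ h2.2.1) ?_)
    have e : ∀ x y : Pt, Rf f y - Rf f x = -(y - x) := by
      intro x y
      unfold Rf
      abel
    rw [e]
    exact neg_dirs h2.2.2

/-- the union of a connected set and its image. -/
lemma symConn_union {D : Finset Pt} {f u : Pt} {K : Finset Pt} (hR : ∀ v ∈ D, Rf f v ∈ D) (hK : K ⊆ D) (hu : u ∈ K)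
    (hc : ∀ v ∈ K, ∀ w ∈ K, Cn (K : Set Pt) v w) {z : Pt} (hz : z ∈ K) (hz' : Rf f z ∈ K) :
    SymConn D f u (K ∪ K.image (Rf f)) := by
  have h1 : ∀ v ∈ K ∪ K.image (Rf f), Cn ((K ∪ K.image (Rf f) : Finset Pt) : Set Pt) v z := by
    intro v hv
    rcases Finset.mem_union.1 hv with h | h
    · apply (hc v h z hz).mono
      rw [Finset.coe_union]
      exact Set.subset_union_left
    · rw [mem_Rf_image] at h
      have h2 : Cn ((K.image (Rf f) : Finset Pt) : Set Pt) (Rf f (Rf f v)) (Rf f (Rf f z)) := by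
        apply cn_Rf _ (hc _ h _ hz')
        intro x hx
        rw [Finset.mem_coe, mem_Rf_image, Rf_Rf]
        exact hx
      rw [Rf_Rf, Rf_Rf] at h2
      apply h2.mono
      rw [Finset.coe_union]
      exact Set.subset_union_right
  refine ⟨?_, ?_, Finset.mem_union_left _ hu, ?_⟩
  · intro v hv
    rcases Finset.mem_union.1 hv with h | h
    · exact hK h
    · rw [mem_Rf_image] at h
      have h2 := hR _ (hK h)
      rwa [Rf_Rf] at h2
  · intro v hv
    rw [Finset.mem_union, mem_Rf_image, Rf_Rf]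
    rw [Finset.mem_union, mem_Rf_image] at hv
    exact hv.symm
  · intro v hv w hw
    exact (h1 v hv).trans (h1 w hw).symm

lemma poly_conn {E : Finset (Pt × Pt)} (hE : IsPoly E) : ∀ v ∈ VE E, ∀ w ∈ VE E, Cn (VE E : Set Pt) v w := by
  intro v hv w hw
  obtain ⟨p, hp, rfl⟩ := Finset.mem_image.1 hv
  obtain ⟨τ, m, hP, hEp⟩ := root_at hE hp
  have hw' := hw
  rw [hEp, mem_VE_pe] at hw'
  obtain ⟨i, hi, rfl⟩ := hw'
  apply cn_vs hP.de.1 0 i (Nat.zero_le i)
  intro k _ hk
  rw [Finset.mem_coe, hEp, mem_VE_pe]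
  exact ⟨k, by omega, rfl⟩

end conn

/-- a polygon around f in the symmetric domain D. -/
theorem born_b {D : Finset Pt} {f : Pt} (hf : Fc f) (hD : Full D) (hR : ∀ v ∈ D, Rf f v ∈ D) (hw : WB D)
    {E : Finset (Pt × Pt)} (hE : E ∈ polys D) (hN : Nw E f ≠ 0) {u : Pt} (hu : Rf f u ∈ VE E) :
    ∃ G, SymConn D f u G ∧ HH D G ≤ 2 * HH D (VE E) := by
  obtain ⟨h1, h2⟩ := mem_polys.1 hE
  obtain ⟨z, hz, hz'⟩ := meet_RE hD hf h1 h2 hN
  refine ⟨VE E ∪ (VE E).image (Rf f), ?_, ?_⟩
  · have h3 := symConn_union hR h2 hu (poly_conn h1) hz hz'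
    refine ⟨h3.sub, h3.sym, ?_, h3.con⟩
    have h4 := h3.sym _ h3.mem
    rwa [Rf_Rf] at h4
  · have h3 := HH_union hw (VE E) ((VE E).image (Rf f))
    rw [HH_Re_self hf hR] at h3
    linarith

section grow

variable {D : Finset Pt} {a u : Pt}

lemma Grow.cu (h : Grow D a u) : nn u % 3 = 2 := by
  have h1 := h.ca
  rw [h.ua, nn_add]
  have e : nn (-1, 0) = -1 := by decide
  rw [e]
  omega

lemma Grow.ne (h : Grow D a u) : a ≠ u := by
  intro e
  have h1 := h.ca
  have h2 := h.cu
  rw [← e] at h2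
  omega

lemma Grow.ua' (h : Grow D a u) : u + (1, 0) = a := by
  rw [h.ua]
  ext <;> simp

lemma Grow.mem (_h : Grow D a u) {v : Pt} : v ∈ insert u (insert a D) ↔ v = u ∨ v = a ∨ v ∈ D := by
  rw [Finset.mem_insert, Finset.mem_insert]

/-- the neighbours of a. -/
lemma Grow.nba (h : Grow D a u) {d : Pt} (hd : De (a, d)) :
    d = (1, -1) ∨ (d = (-1, 0) ∧ a + d = u) ∨ (d = (0, 1) ∧ a + d ∉ insert u (insert a D)) := by
  rcases De_cases hd with ⟨h1, _⟩ | ⟨_, h2 | h2 | h2⟩
  · have := h.ca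
    omega
  · right
    right
    refine ⟨h2, ?_⟩
    rw [h2, h.mem]
    rintro (h3 | h3 | h3)
    · have h4 := congrArg nn h3
      have h5 := h.cu
      have h6 := h.ca
      rw [nn_add] at h4
      have e : nn (0, 1) = -1 := by decide
      rw [h.ua, nn_add] at h4
      have h7 := congrArg lv h3
      rw [h.ua, lv_add, lv_add] at h7
      have e1 : lv (0, 1) = 2 := by decide
      have e2 : lv (-1, 0) = -1 := by decide
      omega
    · have h4 := congrArg nn h3
      rw [nn_add] at h4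
      have e : nn (0, 1) = -1 := by decide
      omega
    · exact h.a2 h3
  · right
    left
    refine ⟨h2, ?_⟩
    rw [h2, h.ua]
  · left
    exact h2

/-- the neighbours of u. -/
lemma Grow.nbu (h : Grow D a u) {d : Pt} (hd : De (u, d)) :
    d = (0, -1) ∨ (d = (1, 0) ∧ u + d = a) ∨ (d = (-1, 1) ∧ u + d ∉ insert u (insert a D)) := by
  rcases De_cases hd with ⟨_, h2 | h2 | h2⟩ | ⟨h1, _⟩
  · right
    left
    refine ⟨h2, ?_⟩
    rw [h2, h.ua']
  · right
    right
    refine ⟨h2, ?_⟩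
    rw [h2, h.mem]
    rintro (h3 | h3 | h3)
    · have h4 := congrArg nn h3
      rw [nn_add] at h4
      have e : nn (-1, 1) = -2 := by decide
      omega
    · have h4 := congrArg nn h3
      rw [h.ua, nn_add, nn_add] at h4
      have e : nn (-1, 1) = -2 := by decide
      have e2 : nn (-1, 0) = -1 := by decide
      omega
    · exact h.u2 h3
  · left
    exact h2
  · have := h.cu
    omega

lemma Grow.nea (h : Grow D a u) {p : Pt × Pt} (h1 : p.1 + p.2 ∈ D) (h2 : De p) (h3 : p.1 = a) : p.2 = (1, -1) := by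
  have h4 : De (a, p.2) := by
    rw [← h3]
    exact h2
  rcases h.nba h4 with h5 | ⟨_, h5⟩ | ⟨_, h5⟩
  · exact h5
  · rw [← h3] at h5
    rw [h5] at h1
    exact absurd h1 h.hu
  · rw [h3] at h1
    exact absurd (h.mem.2 (Or.inr (Or.inr h1))) h5

lemma Grow.neu (h : Grow D a u) {p : Pt × Pt} (h1 : p.1 + p.2 ∈ D) (h2 : De p) (h3 : p.1 = u) : p.2 = (0, -1) := by
  have h4 : De (u, p.2) := by
    rw [← h3]
    exact h2
  rcases h.nbu h4 with h5 | ⟨_, h5⟩ | ⟨_, h5⟩
  · exact h5
  · rw [← h3] at h5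
    rw [h5] at h1
    exact absurd h1 h.ha
  · rw [h3] at h1
    exact absurd (h.mem.2 (Or.inr (Or.inr h1))) h5

private lemma de_rv {p : Pt × Pt} (hp : De p) : De (p.1 + p.2, -p.2) := by
  obtain ⟨h1, h2, h3⟩ := hp
  refine ⟨neg_dirs h1, h3, ?_⟩
  show Vt (p.1 + p.2 + -p.2)
  rw [add_neg_cancel_right]
  exact h2

/-- the boundary of the new domain. -/
lemma Grow.bd_eq (h : Grow D a u) : bd (insert u (insert a D)) =
    insert (a + (0, 1), ((0, -1) : Pt)) (insert (u + (-1, 1), ((1, -1) : Pt))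
      (((bd D).erase (a, ((1, -1) : Pt))).erase (u, ((0, -1) : Pt)))) := by
  have hca := h.ca
  have hcu := h.cu
  ext p
  rw [Finset.mem_insert, Finset.mem_insert, Finset.mem_erase, Finset.mem_erase, mem_bd, mem_bd, h.mem, h.mem]
  constructor
  · rintro ⟨h1, h2, h3⟩
    push Not at h3
    rcases h1 with h1 | h1 | h1
    · right
      left
      have h4 := de_rv h2
      rw [h1] at h4
      rcases h.nbu h4 with h5 | ⟨_, h5⟩ | ⟨h5, _⟩
      · exfalso
        apply h3.2.2
        have e : p.1 = u + -p.2 := by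
          rw [← h1]
          abel
        rw [e, h5]
        exact h.u1
      · exfalso
        apply h3.2.1
        rw [← h5, ← h1]
        abel
      · have e : p.1 = u + -p.2 := by
          rw [← h1]
          abel
        rw [h5] at e
        have e2 : p.2 = (1, -1) := by
          rw [← neg_neg p.2, h5]
          decide
        exact Prod.ext e e2
    · left
      have h4 := de_rv h2
      rw [h1] at h4
      rcases h.nba h4 with h5 | ⟨_, h5⟩ | ⟨h5, _⟩
      · exfalso
        apply h3.2.2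
        have e : p.1 = a + -p.2 := by
          rw [← h1]
          abel
        rw [e, h5]
        exact h.a1
      · exfalso
        apply h3.1
        rw [← h5, ← h1]
        abel
      · have e : p.1 = a + -p.2 := by
          rw [← h1]
          abel
        rw [h5] at e
        have e2 : p.2 = (0, -1) := by
          rw [← neg_neg p.2, h5]
          decide
        exact Prod.ext e e2
    · right
      right
      refine ⟨?_, ?_, h1, h2, h3.2.2⟩
      · intro e
        apply h3.1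
        rw [e]
      · intro e
        apply h3.2.1
        rw [e]
  · rintro (h1 | h1 | ⟨h1, h2, h3, h4, h5⟩)
    · subst h1
      simp only
      have e : a + (0, 1) + ((0, -1) : Pt) = a := by ext <;> simp
      have h6 : De (a, ((0, 1) : Pt)) := De_mk (Or.inr ⟨hca, Or.inl rfl⟩)
      refine ⟨Or.inr (Or.inl e), de_rv h6, ?_⟩
      rcases h.nba h6 with h7 | ⟨h7, _⟩ | ⟨_, h7⟩
      · exact absurd h7 (by decide)
      · exact absurd h7 (by decide)
      · rw [h.mem] at h7
        exact h7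
    · subst h1
      simp only
      have e : u + (-1, 1) + ((1, -1) : Pt) = u := by ext <;> simp
      have h6 : De (u, ((-1, 1) : Pt)) := De_mk (Or.inl ⟨hcu, Or.inr (Or.inl rfl)⟩)
      refine ⟨Or.inl e, de_rv h6, ?_⟩
      rcases h.nbu h6 with h7 | ⟨h7, _⟩ | ⟨_, h7⟩
      · exact absurd h7 (by decide)
      · exact absurd h7 (by decide)
      · rw [h.mem] at h7
        exact h7
    · refine ⟨Or.inr (Or.inr h3), h4, ?_⟩
      rintro (h6 | h6 | h6)
      · apply h1
        exact Prod.ext h6 (h.neu h3 h4 h6)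
      · apply h2
        exact Prod.ext h6 (h.nea h3 h4 h6)
      · exact h5 h6

lemma Grow.card_bd (h : Grow D a u) : (bd (insert u (insert a D))).card = (bd D).card := by
  have hca := h.ca
  have hcu := h.cu
  have m1 : (a, ((1, -1) : Pt)) ∈ bd D :=
    mem_bd.2 ⟨h.a1, De_mk (Or.inr ⟨hca, Or.inr (Or.inr rfl)⟩), h.ha⟩
  have m2 : (u, ((0, -1) : Pt)) ∈ (bd D).erase (a, ((1, -1) : Pt)) := by
    rw [Finset.mem_erase]
    refine ⟨fun e => h.ne (congrArg Prod.fst e).symm, ?_⟩
    exact mem_bd.2 ⟨h.u1, De_mk (Or.inl ⟨hcu, Or.inr (Or.inr rfl)⟩), h.hu⟩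
  have n2 : (u + (-1, 1), ((1, -1) : Pt)) ∉ ((bd D).erase (a, ((1, -1) : Pt))).erase (u, ((0, -1) : Pt)) := by
    intro hc
    have h1 := (mem_bd.1 (Finset.mem_of_mem_erase (Finset.mem_of_mem_erase hc))).1
    simp only at h1
    have e : u + (-1, 1) + ((1, -1) : Pt) = u := by ext <;> simp
    rw [e] at h1
    exact h.hu h1
  have n1 : (a + (0, 1), ((0, -1) : Pt)) ∉ insert (u + (-1, 1), ((1, -1) : Pt))
      (((bd D).erase (a, ((1, -1) : Pt))).erase (u, ((0, -1) : Pt))) := by
    rw [Finset.mem_insert]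
    rintro (hc | hc)
    · have h7 := congrArg Prod.snd hc
      simp only at h7
      exact absurd h7 (by decide)
    · have h1 := (mem_bd.1 (Finset.mem_of_mem_erase (Finset.mem_of_mem_erase hc))).1
      simp only at h1
      have e : a + (0, 1) + ((0, -1) : Pt) = a := by ext <;> simp
      rw [e] at h1
      exact h.ha h1
  rw [h.bd_eq, Finset.card_insert_of_notMem n1, Finset.card_insert_of_notMem n2, Finset.card_erase_of_mem m2,
    Finset.card_erase_of_mem m1]
  have h3 : 0 < ((bd D).erase (a, ((1, -1) : Pt))).card := Finset.card_pos.2 ⟨_, m2⟩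
  rw [Finset.card_erase_of_mem m1] at h3
  omega

/-- the crossings that avoid the polygon. -/
lemma Grow.avoid (h : Grow D a u) {V : Finset Pt} (ha : a ∈ V) (hu : u ∈ V) (h1 : a + (1, -1) ∈ V)
    (h2 : u + (0, -1) ∈ V) {p : Pt × Pt} {t : List Bool} :
    (p ∈ bd (insert u (insert a D)) ∧ t ∈ ex0 (insert u (insert a D)) p ∧ ¬ Hit V p t) ↔
      (p ∈ bd D ∧ t ∈ ex0 D p ∧ ¬ Hit ((V.erase a).erase u) p t) := by
  have hK : ∀ v, v ∈ (V.erase a).erase u ↔ v ≠ u ∧ v ≠ a ∧ v ∈ V := by
    intro v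
    rw [Finset.mem_erase, Finset.mem_erase]
  have k1 : a + (1, -1) ∈ (V.erase a).erase u := by
    rw [hK]
    refine ⟨fun e => h.hu (e ▸ h.a1), fun e => h.ha (e ▸ h.a1), h1⟩
  have k2 : u + (0, -1) ∈ (V.erase a).erase u := by
    rw [hK]
    refine ⟨fun e => h.hu (e ▸ h.u1), fun e => h.ha (e ▸ h.u1), h2⟩
  rw [mem_bd, mem_bd, mem_ex0, mem_ex0]
  constructor
  · rintro ⟨⟨b1, b2, b3⟩, ⟨c1, c2⟩, c3⟩
    have hlen : 1 ≤ t.length := ex0_pos b1 (mem_ex0.2 ⟨c1, c2⟩)
    have key : ∀ i, 1 ≤ i → i ≤ t.length → vx p.1 p.2 t i ∈ D := by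
      intro i i1 i2
      have h3 := c1.mem i i1 i2
      rw [h.mem] at h3
      rcases h3 with h3 | h3 | h3
      · exact absurd ⟨i, i1, i2, h3 ▸ hu⟩ c3
      · exact absurd ⟨i, i1, i2, h3 ▸ ha⟩ c3
      · exact h3
    rw [h.mem] at b3 c2
    push Not at b3 c2
    refine ⟨⟨key 1 le_rfl hlen, b2, b3.2.2⟩, ⟨⟨key, c1.inj⟩, c2.2.2⟩, ?_⟩
    rintro ⟨i, i1, i2, i3⟩
    rw [hK] at i3
    exact c3 ⟨i, i1, i2, i3.2.2⟩
  · rintro ⟨⟨b1, b2, b3⟩, ⟨c1, c2⟩, c3⟩
    have hlen : 1 ≤ t.length := ex0_pos b1 (mem_ex0.2 ⟨c1, c2⟩)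
    have hlast := de_rv (de_vx b2 t t.length)
    simp only at hlast
    have htip : vx p.1 p.2 t t.length + dx p.2 t t.length = tp p t := rfl
    rw [htip] at hlast
    have hback : tp p t + -dx p.2 t t.length = vx p.1 p.2 t t.length := by
      rw [← htip]
      abel
    refine ⟨⟨?_, b2, ?_⟩, ⟨⟨?_, c1.inj⟩, ?_⟩, ?_⟩
    · rw [h.mem]
      exact Or.inr (Or.inr b1)
    · rw [h.mem]
      rintro (h3 | h3 | h3)
      · apply c3
        refine ⟨1, le_rfl, hlen, ?_⟩
        show p.1 + p.2 ∈ _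
        rw [h.neu b1 b2 h3, h3]
        exact k2
      · apply c3
        refine ⟨1, le_rfl, hlen, ?_⟩
        show p.1 + p.2 ∈ _
        rw [h.nea b1 b2 h3, h3]
        exact k1
      · exact b3 h3
    · intro i i1 i2
      rw [h.mem]
      exact Or.inr (Or.inr (c1.mem i i1 i2))
    · rw [h.mem]
      rintro (h3 | h3 | h3)
      · apply c3
        refine ⟨t.length, hlen, le_rfl, ?_⟩
        have h4 := h.neu (p := (tp p t, -dx p.2 t t.length)) (by
          show tp p t + -dx p.2 t t.length ∈ D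
          rw [hback]
          exact c1.mem _ hlen le_rfl) hlast h3
        simp only at h4
        rw [← hback, h4, h3]
        exact k2
      · apply c3
        refine ⟨t.length, hlen, le_rfl, ?_⟩
        have h4 := h.nea (p := (tp p t, -dx p.2 t t.length)) (by
          show tp p t + -dx p.2 t t.length ∈ D
          rw [hback]
          exact c1.mem _ hlen le_rfl) hlast h3
        simp only at h4
        rw [← hback, h4, h3]
        exact k1
      · exact c2 h3
    · rintro ⟨i, i1, i2, i3⟩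
      apply c3
      refine ⟨i, i1, i2, ?_⟩
      rw [hK]
      have h4 := c1.mem i i1 i2
      exact ⟨fun e => h.hu (e ▸ h4), fun e => h.ha (e ▸ h4), i3⟩

/-- the sum over the crossings that meet the new polygon. -/
theorem Grow.HH_eq (h : Grow D a u) (hD : Full D) (hD' : Full (insert u (insert a D))) {V : Finset Pt} (ha : a ∈ V)
    (hu : u ∈ V) (h1 : a + (1, -1) ∈ V) (h2 : u + (0, -1) ∈ V) :
    HH (insert u (insert a D)) V = HH D ((V.erase a).erase u) := by
  classical
  rw [HH_avoid hD, HH_avoid hD', h.card_bd]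
  congr 1
  rw [Finset.sum_sigma', Finset.sum_sigma']
  apply Finset.sum_congr _ (fun _ _ => rfl)
  ext ⟨p, t⟩
  rw [Finset.mem_sigma, Finset.mem_sigma, Finset.mem_filter, Finset.mem_filter]
  exact h.avoid ha hu h1 h2

/-- the polygons of the new domain through u. -/
lemma Grow.poly (h : Grow D a u) {E : Finset (Pt × Pt)} (hE : IsPoly E) (hs : VE E ⊆ insert u (insert a D))
    (hu : u ∈ VE E) : a ∈ VE E ∧ a + (1, -1) ∈ VE E ∧ u + (0, -1) ∈ VE E ∧
      ∀ v ∈ ((VE E).erase a).erase u, ∀ w ∈ ((VE E).erase a).erase u,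
        Cn ((((VE E).erase a).erase u : Finset Pt) : Set Pt) v w := by
  -- orientation
  obtain ⟨E1, hE1, hVE, hmem⟩ : ∃ E1, IsPoly E1 ∧ VE E1 = VE E ∧ (u, ((1, 0) : Pt)) ∈ E1 := by
    obtain ⟨d, b, h1, h2⟩ := isPoly_prev hE hu
    have d1 := isPoly_de hE h1
    have d2 := isPoly_de hE h2
    have d3 := de_rv d1
    simp only [sub_add_cancel] at d3
    have v1 : u + -d ∈ VE E := by
      rw [← sub_eq_add_neg]
      exact Finset.mem_image_of_mem _ h1
    obtain ⟨b', v2⟩ := isPoly_next hE h2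
    have v3 : u + turn b d ∈ VE E := Finset.mem_image_of_mem _ v2
    rcases h.nbu d2 with e | ⟨e, _⟩ | ⟨_, e⟩
    · rcases h.nbu d3 with e' | ⟨e', _⟩ | ⟨_, e'⟩
      · exfalso
        have h4 : turn b d = -d := by rw [e, e']
        have h5 : ∀ d ∈ dirs, ∀ b : Bool, turn b d ≠ -d := by decide
        exact h5 d d1.1 b h4
      · refine ⟨rE E, isPoly_rE hE, VE_rE hE, ?_⟩
        rw [mem_rE]
        have e2 : rv (u, ((1, 0) : Pt)) = (u - d, d) := by
          have e3 : d = -(1, 0) := by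
            rw [← e', neg_neg]
          unfold rv
          simp only
          rw [e3]
          ext <;> simp
        rw [e2]
        exact h1
      · exact absurd (hs v1) e'
    · refine ⟨E, hE, rfl, ?_⟩
      rw [← e]
      exact h2
    · exact absurd (hs v3) e
  rw [← hVE] at hs ⊢
  obtain ⟨τ, m, hP, hEp⟩ := root_at hE1 hmem
  simp only at hP hEp
  have hm := poly_len hP
  have hv : ∀ i, i < m → vs u (1, 0) τ i ∈ VE E1 := by
    intro i hi
    rw [hEp, mem_VE_pe]
    exact ⟨i, hi, rfl⟩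
  have w1 : vs u (1, 0) τ 1 = a := h.ua'
  have w2 : vs u (1, 0) τ 2 = a + (1, -1) := by
    have d1 := poly_de hP 1
    unfold eg at d1
    rw [w1] at d1
    have v2 := hs (hv 2 (by omega))
    have e : vs u (1, 0) τ 2 = a + ds (1, 0) τ 1 := by
      rw [vs_succ, w1]
    rw [e]
    rcases h.nba d1 with h3 | ⟨h3, _⟩ | ⟨_, h3⟩
    · rw [h3]
    · exfalso
      have h4 : ds (1, 0) τ 1 = turn (τ 0) (1, 0) := rfl
      rw [h4] at h3
      have h5 : ∀ b : Bool, turn b (1, 0) ≠ (-1, 0) := by decide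
      exact h5 _ h3
    · rw [e] at v2
      exact absurd v2 h3
  obtain ⟨n, rfl⟩ : ∃ n, m = n + 1 := ⟨m - 1, by omega⟩
  have w3 : vs u (1, 0) τ n = u + (0, -1) := by
    have c1 := hP.clv
    have c2 := hP.cld
    rw [vs_succ] at c1
    rw [ds_succ] at c2
    have d1 := de_rv (poly_de hP n)
    unfold eg at d1
    simp only at d1
    rw [c1] at d1
    have e : vs u (1, 0) τ n = u + -ds (1, 0) τ n := by
      rw [← sub_eq_add_neg, eq_sub_iff_add_eq]
      exact c1
    have v2 := hs (hv n (by omega))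
    rcases h.nbu d1 with h3 | ⟨h3, _⟩ | ⟨_, h3⟩
    · rw [e, h3]
    · exfalso
      have h4 : ds (1, 0) τ n = -(1, 0) := by
        have h6 := congrArg Neg.neg h3
        rwa [neg_neg] at h6
      rw [h4] at c2
      have h5 : ∀ b : Bool, turn b (-(1, 0)) ≠ (1, 0) := by decide
      exact h5 _ c2
    · rw [e] at v2
      exact absurd v2 h3
  have hK : ∀ i, 2 ≤ i → i ≤ n → vs u (1, 0) τ i ∈ ((VE E1).erase a).erase u := by
    intro i i1 i2
    rw [Finset.mem_erase, Finset.mem_erase]
    refine ⟨?_, ?_, hv i (by omega)⟩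
    · intro e
      exact hP.inj 0 i (by omega) (by omega) e.symm
    · intro e
      rw [← w1] at e
      exact hP.inj 1 i (by omega) (by omega) e.symm
  have hK' : ∀ v ∈ ((VE E1).erase a).erase u, ∃ i, 2 ≤ i ∧ i ≤ n ∧ vs u (1, 0) τ i = v := by
    intro v hv'
    rw [Finset.mem_erase, Finset.mem_erase] at hv'
    obtain ⟨h3, h4, h5⟩ := hv'
    rw [hEp, mem_VE_pe] at h5
    obtain ⟨i, i1, i2⟩ := h5
    refine ⟨i, ?_, by omega, i2⟩
    by_contra hcon
    rcases (by omega : i = 0 ∨ i = 1) with h6 | h6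
    · rw [h6] at i2
      exact h3 i2.symm
    · rw [h6, w1] at i2
      exact h4 i2.symm
  have hc : ∀ v ∈ ((VE E1).erase a).erase u,
      Cn ((((VE E1).erase a).erase u : Finset Pt) : Set Pt) (vs u (1, 0) τ 2) v := by
    intro v hv'
    obtain ⟨i, i1, i2, rfl⟩ := hK' v hv'
    apply cn_vs hP.de.1 2 i i1
    intro k k1 k2
    exact hK k k1 (by omega)
  refine ⟨?_, ?_, ?_, ?_⟩
  · rw [← w1]
    exact hv 1 (by omega)
  · rw [← w2]
    exact hv 2 (by omega)
  · rw [← w3]
    exact hv n (by omega)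
  · intro v hv' w hw'
    exact (hc v hv').symm.trans (hc w hw')

/-- a polygon around f born with u. -/
theorem born_a {f : Pt} (hf : Fc f) (hD : Full D) (hD' : Full (insert u (insert a D)))
    (hR : ∀ v ∈ D, Rf f v ∈ D) (hw : WB D) (h : Grow D a u) (hau : a + u ≠ f + f)
    {E : Finset (Pt × Pt)} (hE : E ∈ polys (insert u (insert a D))) (hN : Nw E f ≠ 0) (hu : u ∈ VE E) :
    ∃ G, SymConn D f (a + (1, -1)) G ∧ HH D G ≤ 2 * HH (insert u (insert a D)) (VE E) := by
  obtain ⟨h1, h2⟩ := mem_polys.1 hE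
  obtain ⟨p1, p2, p3, p4⟩ := h.poly h1 h2 hu
  obtain ⟨z, hz, hz'⟩ := meet_RE hD' hf h1 h2 hN
  -- the common vertex lies in D
  have hRD : ∀ v, v ∉ D → Rf f v ∉ D := by
    intro v hv h3
    have h4 := hR _ h3
    rw [Rf_Rf] at h4
    exact hv h4
  have hself : ∀ v, Rf f v = v → nn v % 3 = 1 := by
    intro v hv
    have h3 := congrArg nn hv
    rw [nn_Rf] at h3
    unfold Fc cl at hf
    have h4 := ZMod.intCast_eq_intCast_iff (f.1 - f.2) 1 3
    rw [Int.cast_one] at h4
    have h5 := h4.1 hf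
    unfold Int.ModEq at h5
    unfold nn at *
    push_cast at h5
    omega
  have hna : Rf f a ∉ insert u (insert a D) := by
    rw [h.mem]
    rintro (h3 | h3 | h3)
    · apply hau
      rw [← h3]
      unfold Rf
      abel
    · have h4 := hself a h3
      have h5 := h.ca
      omega
    · exact hRD a h.ha h3
  have hnu : Rf f u ∉ insert u (insert a D) := by
    rw [h.mem]
    rintro (h3 | h3 | h3)
    · have h4 := hself u h3
      have h5 := h.cu
      omega
    · apply hau
      rw [← h3]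
      unfold Rf
      abel
    · exact hRD u h.hu h3
  have hzK : ∀ v, v ∈ VE E → Rf f v ∈ VE E → v ∈ ((VE E).erase a).erase u := by
    intro v hv hv'
    rw [Finset.mem_erase, Finset.mem_erase]
    refine ⟨?_, ?_, hv⟩
    · intro e
      rw [e] at hv'
      exact hnu (h2 hv')
    · intro e
      rw [e] at hv'
      exact hna (h2 hv')
  have hKD : ((VE E).erase a).erase u ⊆ D := by
    intro v hv
    rw [Finset.mem_erase, Finset.mem_erase] at hv
    have h3 := h2 hv.2.2
    rw [h.mem] at h3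
    rcases h3 with h3 | h3 | h3
    · exact absurd h3 hv.1
    · exact absurd h3 hv.2.1
    · exact h3
  have hzz : Rf f z ∈ ((VE E).erase a).erase u := hzK _ hz' (by
    rw [Rf_Rf]
    exact hz)
  have hu0 : a + (1, -1) ∈ ((VE E).erase a).erase u := by
    rw [Finset.mem_erase, Finset.mem_erase]
    exact ⟨fun e => h.hu (e ▸ h.a1), fun e => h.ha (e ▸ h.a1), p2⟩
  refine ⟨_, symConn_union hR hKD hu0 p4 (hzK z hz hz') hzz, ?_⟩
  rw [h.HH_eq hD hD' p1 hu p2 p3]
  have h3 := HH_union hw (((VE E).erase a).erase u) ((((VE E).erase a).erase u).image (Rf f))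
  rw [HH_Re_self hf hR] at h3
  linarith

end grow

end LP

end HexObs
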