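import Pool.Agent.HexLoop.Defs

/-!
Board SD: the stepped domains (growth of a parallelogram centred at the face f0 by two rows).
-/

set_option autoImplicit false

namespace HexObs

namespace LP

open Finset

/-- the central face. -/
def f0 : Pt := (1, 0)

/-- rotation by 180 degrees around f0. -/
def R2 (v : Pt) : Pt := (2 - v.1, -v.2)

/-- rotation of directed edges. -/
def R2e (p : Pt × Pt) : Pt × Pt := (R2 p.1, -p.2)

/-- the weight of the oriented polygons in Ω around f. -/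
noncomputable def LL (Ω : Finset Pt) (f : Pt) : ℝ := by
  classical
  exact ∑ E ∈ (polys Ω).filter (fun E => Nw E f ≠ 0), xc ^ E.card

/-- the defining condition of the stepped domain. -/
def InSP (m M : ℕ) (θ θ' : ℤ) (v : Pt) : Prop :=
  Vt v ∧ |nn v - 1| < 3 * M ∧ (|lv v - 1| < 3 * m ∨ (3 * m < lv v - 1 ∧ lv v - 1 < 3 * m + 3 ∧ θ ≤ nn v - 1) ∨
    (3 * m < 1 - lv v ∧ 1 - lv v < 3 * m + 3 ∧ θ' ≤ 1 - nn v))

/-- the stepped domain: the rows of PP m M, the part θ ≤ nn v - 1 of the next row above and the part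
θ' ≤ 1 - nn v of the next row below. -/
noncomputable def SP (m M : ℕ) (θ θ' : ℤ) : Finset Pt := by
  classical
  exact ((Finset.Icc (-(3 * m + 3 * M + 4) : ℤ) (3 * m + 3 * M + 4)) ×ˢ
    (Finset.Icc (-(3 * m + 3 * M + 4) : ℤ) (3 * m + 3 * M + 4))).filter (InSP m M θ θ')

/-- the parallelogram centred at f0: 2 m rows. -/
noncomputable def PP (m M : ℕ) : Finset Pt := SP m M (3 * M) (3 * M)

theorem mem_SP {m M : ℕ} {θ θ' : ℤ} {v : Pt} : v ∈ SP m M θ θ' ↔ InSP m M θ θ' v := by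
  unfold SP
  simp only [Finset.mem_filter]
  rw [and_iff_right_iff_imp]
  rintro ⟨_, h1, h2⟩
  rw [Finset.mem_product, Finset.mem_Icc, Finset.mem_Icc]
  unfold nn lv at *
  rw [abs_lt] at h1
  rw [abs_lt] at h2
  omega

theorem mem_PP {m M : ℕ} {v : Pt} : v ∈ PP m M ↔ Vt v ∧ |lv v - 1| < 3 * m ∧ |nn v - 1| < 3 * M := by
  unfold PP
  rw [mem_SP]
  unfold InSP
  constructor
  · rintro ⟨h1, h2, h3⟩
    refine ⟨h1, ?_, h2⟩
    rw [abs_lt] at h2
    rcases h3 with h3 | h3 | h3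
    · exact h3
    · exfalso
      omega
    · exfalso
      omega
  · rintro ⟨h1, h2, h3⟩
    exact ⟨h1, h3, Or.inl h2⟩

end LP

end HexObs
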