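import Pool.Agent.HexLoop.DefsC

/-!
SD8: definitions for the vertical line.
Words that cross the flat strip, their right extent, first moments of the arcs, the half domain at the right of the
vertical line.
-/

set_option autoImplicit false

namespace HexObs

namespace LP

open Complex Finset ENNReal

/-- words that cross the flat strip of height T from the foot 0. -/
def Crw (T : ℕ) : Set (List Bool) := {t | Saw (St T) oo up t ∧ tip oo up t ∉ St T}

/-- the real weight. -/
noncomputable def ct (t : List Bool) : ℝ := Real.cos (wind t * (Real.pi / 8)) * xc ^ t.length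

/-- the right extent (horizontal coordinate v.1) of a word from the foot 0. -/
noncomputable def At (t : List Bool) : ℕ := (Finset.range (t.length + 1)).sup (fun i => ((vx oo up t i).1).toNat)

/-- the left extent. -/
noncomputable def Al (t : List Bool) : ℕ := (Finset.range (t.length + 1)).sup (fun i => (-(vx oo up t i).1).toNat)

/-- the first moment of the arcs. -/
noncomputable def KT (T : ℕ) : ℝ≥0∞ := ∑' k : ℕ, (k : ℝ≥0∞) * GG T k

/-- the same as a real number. -/
noncomputable def kT (T : ℕ) : ℝ := (KT T).toReal

/-- the part of the parallelogram at the right of the vertical line. -/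
noncomputable def HR (T A B : ℕ) : Finset Pt := (Par T A B).filter (fun v => 0 < v.1)

/-- the starts 1, ..., N. -/
noncomputable def stN (N : ℕ) : Finset (Pt × Pt) := (Finset.Icc 1 N).image (fun j : ℕ => ft (j : ℤ))

open Classical in
/-- stems with a given last direction: walks of HR from the feet 1, ..., N to the vertical line. -/
noncomputable def stem (T A B N : ℕ) (e : Pt) : ℝ :=
  ∑ j ∈ Finset.Icc 1 N, ∑ t ∈ (exits (HR T A B) (ft (j : ℤ)).1 up).filter (fun t =>
    dx up t t.length = e ∧ (tip (ft (j : ℤ)).1 up t).1 ≤ 0 ∧ tip (ft (j : ℤ)).1 up t ∈ Par T A B), xc ^ t.length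

open Classical in
/-- arcs of HR from the feet 1, ..., N to the feet N + 1, ... -/
noncomputable def outN (T A B N : ℕ) : ℝ :=
  ∑ j ∈ Finset.Icc 1 N, ∑ t ∈ (exits (HR T A B) (ft (j : ℤ)).1 up).filter (fun t =>
    dx up t t.length = -up ∧ 2 * (N : ℤ) < (tip (ft (j : ℤ)).1 up t).1), xc ^ t.length

open Classical in
/-- walks of HR from the feet 1, ..., N to the right wall. -/
noncomputable def walN (T A B N : ℕ) : ℝ :=
  ∑ j ∈ Finset.Icc 1 N, ∑ t ∈ (exits (HR T A B) (ft (j : ℤ)).1 up).filter (fun t =>
    tip (ft (j : ℤ)).1 up t ∉ Par T A B ∧ dx up t t.length ≠ -up ∧ dx up t t.length ≠ up), xc ^ t.length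

end LP

end HexObs
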