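import Pool.Agent.HexLoop.Cnt4
import Pool.Agent.HexLoop.DefsD
import Pool.Agent.HexLoop.DefsW
import Pool.Agent.HexLoop.Stepped

/-!
SD7 (counting), part 5: the result for the stepped domain SP m M θ θ.
-/

set_option autoImplicit false

namespace HexObs

namespace LP

open Complex Finset

theorem Cn_shift {Ω Ω' : Set Pt} {z : Pt} (h : ∀ v ∈ Ω, v + z ∈ Ω') {v w : Pt} (hc : SD6.Cn Ω v w) :
    SD6.Cn Ω' (v + z) (w + z) := by
  induction hc with
  | refl => exact Relation.ReflTransGen.refl
  | @tail b c hb hbc ih =>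
    refine Relation.ReflTransGen.tail ih ⟨h _ hbc.1, h _ hbc.2.1, ?_⟩
    have : c + z - (b + z) = c - b := by abel
    rw [this]
    exact hbc.2.2

theorem Cw_of_Crw {T : ℕ} {t : List Bool} (h : t ∈ Crw T) : Cw T t := by
  obtain ⟨h1, h2⟩ := h
  have e : ∀ i, vx 0 up t i ∈ St T ↔ 0 < lv (vx 0 up t i) ∧ lv (vx 0 up t i) < 3 * T + 2 := by
    intro i
    have h3 := mem_St (T := T) (t := t) (i := i)
    have h4 : lev t i = lv (vx 0 up t i) := by
      show ip (vx oo up t i) up = lv (vx oo up t i)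
      unfold ip lv up
      simp only
      ring
    rw [h4] at h3
    exact h3
  refine ⟨fun i i1 i2 => (e i).1 (h1.1 i i1 i2), fun i k _ i2 i3 => h1.2 i k i2 i3, fun h3 => h2 ((e _).2 h3)⟩

theorem Rf_f0 (v : Pt) : Rf f0 v = R2 v := by
  unfold Rf f0 R2
  ext
  · simp only [Prod.fst_add, Prod.fst_sub]
    ring
  · simp only [Prod.snd_add, Prod.snd_sub]
    ring

theorem Fc_f0 : Fc f0 := by
  unfold Fc f0 cl
  norm_num

/-- the flat strip in SP form -/
theorem SP_Dat {m M : ℕ} {θ : ℤ} (hθ : θ % 3 = 1) {u : Pt} (hu : lv u = 3 * m + 2) (hu' : nn u = θ + 1) :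
    Dat (2 * m) (-(3 * m)) (SP m M θ θ) (SP m M (3 * M + 1) (-3 * M - 2)) f0 u (R2 u) (-(3 * M)) (3 * M + 2) := by
  have hr : nn (R2 u) = 1 - θ ∧ lv (R2 u) = -(3 * m) := by
    unfold R2 nn lv at *
    simp only
    constructor <;> omega
  refine ⟨?_, ?_, ?_, ?_, by omega, ?_, by omega, by omega, ?_⟩
  · intro v
    rw [mem_SP']
    unfold StP
    rw [Vt_iff, hu', hr.1]
    unfold nn lv
    push_cast
    omega
  · intro v
    rw [mem_SP']
    unfold SlP
    rw [Vt_iff]
    unfold nn lv
    push_cast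
    omega
  · rw [hu]
    push_cast
    ring
  · exact hr.2
  · unfold R2 f0
    ext
    · simp only [Prod.fst_add]
      ring
    · simp only [Prod.snd_add]
      ring
  · show -(3 * (M : ℤ)) + (3 * M + 2) = 2 * nn f0
    have : nn f0 = 1 := by decide
    rw [this]
    ring

/-- the separation in SP form -/
theorem SP_sep {m M : ℕ} (hm : 1 ≤ m) {θ : ℤ} (hθ : θ % 3 = 1) {u : Pt} (hu : lv u = 3 * m + 2)
    (hu' : nn u = θ + 1) {G : Finset Pt} (hGD : G ⊆ SP m M θ θ) (huG : u ∈ G)
    (hGc : SD6.Cn (G : Set Pt) u (R2 u)) : Sepr (2 * m) (-(3 * m)) (SP m M θ θ) G := by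
  have hd := SP_Dat (M := M) hθ hu hu'
  intro v w hv hc hL hR
  set z : Pt := ((m : ℤ), (m : ℤ)) with hz
  have hlz : lv z = 3 * m := by
    unfold lv
    rw [hz]
    ring
  have hnz : nn z = 0 := by
    unfold nn
    rw [hz]
    ring
  have hr : nn (R2 u) = 1 - θ ∧ lv (R2 u) = -(3 * m) := by
    unfold R2 nn lv at *
    simp only
    constructor <;> omega
  have hw : w ∈ ((SP m M θ θ : Finset Pt) : Set Pt) \ (G : Set Pt) := by
    rcases Relation.ReflTransGen.cases_tail hc with h1 | ⟨c, _, h1⟩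
    · rw [h1]
      exact hv
    · exact h1.2.1
  have hmem : ∀ p : Pt, p ∈ SP m M θ θ → StP (2 * m) (-(3 * m)) u (R2 u) (-(3 * M)) (3 * M + 2) p :=
    fun p hp => (hd.hD p).1 hp
  -- the shifted sets
  have key := SD6.sep (D := {p | p - z ∈ SP m M θ θ}) (G := {p | p - z ∈ G}) (T := 2 * (m : ℤ)) (by omega)
    (u := u + z) (r := R2 u + z) (by rw [lv_add, hu, hlz]; ring) (by rw [lv_add, hr.2, hlz]; ring)
    (by
      intro p hp
      have h1 := (hmem _ hp).1
      rw [Vt_iff, nn_sub, hnz, sub_zero] at h1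
      rwa [Vt_iff])
    (by
      intro p hp
      have h1 := (hmem _ hp).2.2.2
      rw [lv_sub, hlz] at h1
      push_cast at h1
      have h2 := (hmem _ hp).1
      rw [Vt_iff, ← lv_mod, lv_sub, hlz] at h2
      omega)
    (by
      intro p hp
      have h1 := (hmem _ hp).2.2.2
      rw [lv_sub, hlz] at h1
      push_cast at h1
      omega)
    (by
      intro p hp h3
      have h1 := (hmem _ hp).2.2.2
      rw [lv_sub, hlz, nn_sub, hnz] at h1
      push_cast at h1
      have h4 : nn u ≤ nn p := by omega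
      simp only [Prod.fst_add]
      unfold nn lv at *
      rw [hz] at *
      simp only at *
      omega)
    (by
      intro p hp h3
      have h1 := (hmem _ hp).2.2.2
      rw [lv_sub, hlz, nn_sub, hnz] at h1
      push_cast at h1
      have h4 : nn p ≤ nn (R2 u) := by omega
      obtain ⟨hr1, hr2⟩ := hr
      simp only [Prod.fst_add]
      unfold nn lv at *
      rw [hz] at *
      simp only at *
      omega)
    (by
      intro p hp
      exact hGD hp)
    (by
      show u + z - z ∈ G
      rw [add_sub_cancel_right]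
      exact huG)
    (Cn_shift (by
      intro p hp
      show p + z - z ∈ G
      rw [add_sub_cancel_right]
      exact hp) hGc)
    (v := v + z) (w := w + z) (by
      constructor
      · show v + z - z ∈ SP m M θ θ
        rw [add_sub_cancel_right]
        exact hv.1
      · show v + z - z ∉ G
        rw [add_sub_cancel_right]
        exact hv.2)
    (Cn_shift (by
      intro p hp
      constructor
      · show p + z - z ∈ SP m M θ θ
        rw [add_sub_cancel_right]
        exact hp.1
      · show p + z - z ∉ G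
        rw [add_sub_cancel_right]
        exact hp.2) hc)
  apply key
  · rcases hL with hL | ⟨hL, hL2⟩
    · left
      rw [lv_add, hL, hlz]
      ring
    · right
      push_cast at hL
      refine ⟨by rw [lv_add, hL, hlz]; ring, ?_⟩
      have h1 := hmem v hv.1
      rw [hd.hD] at hL2
      obtain ⟨a1, a2, a3, a4⟩ := h1
      have a5 := lv_mod v
      rw [Vt_iff] at a1
      obtain ⟨u1, u2, u3⟩ := up_vals
      have h2 : nn v - 1 < nn u := by
        by_contra hcon
        apply hL2
        refine ⟨?_, ?_, ?_, Or.inr (Or.inl ⟨?_, ?_, ?_⟩)⟩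
        · rw [Vt_iff, nn_add, u2]; omega
        · rw [nn_add, u2]; omega
        · rw [nn_add, u2]; omega
        · rw [lv_add, u1, hL]; push_cast; omega
        · rw [lv_add, u1, hL]; push_cast; omega
        · rw [nn_add, u2]; omega
      simp only [Prod.fst_add]
      unfold nn lv at *
      omega
  · rcases hR with hR | ⟨hR, hR2⟩
    · left
      push_cast at hR
      rw [lv_add, hR, hlz]
      ring
    · right
      refine ⟨by rw [lv_add, hR, hlz]; ring, ?_⟩
      have h1 := hmem w hw.1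
      rw [hd.hD] at hR2
      obtain ⟨a1, a2, a3, a4⟩ := h1
      have a5 := lv_mod w
      rw [Vt_iff] at a1
      obtain ⟨u1, u2, u3⟩ := up_vals
      have h2 : nn (R2 u) < nn w + 1 := by
        by_contra hcon
        apply hR2
        refine ⟨?_, ?_, ?_, Or.inr (Or.inr ⟨?_, ?_, ?_⟩)⟩
        · rw [Vt_iff, nn_sub, u2]; omega
        · rw [nn_sub, u2]; omega
        · rw [nn_sub, u2]; omega
        · rw [lv_sub, u1, hR]; omega
        · rw [lv_sub, u1, hR]; omega
        · rw [nn_sub, u2]; omega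
      obtain ⟨hr1, hr2⟩ := hr
      simp only [Prod.fst_add]
      unfold nn lv at *
      omega

/-- SD7 for the stepped domains -/
theorem count_SP {m M : ℕ} (hm : 1 ≤ m) {θ : ℤ} (hθ : θ % 3 = 1) {G : Finset Pt} (hGD : G ⊆ SP m M θ θ)
    (hGR : ∀ v ∈ G, R2 v ∈ G) {u : Pt} (hu : lv u = 3 * m + 2) (hu' : nn u = θ + 1) (huG : u ∈ G)
    (hGc : SD6.Cn (G : Set Pt) u (R2 u)) (w1 : WB (SP m M θ θ)) (w2 : WB (SP m M (3 * M + 1) (-3 * M - 2))) {L : ℕ}
    (hwall : |θ| + 3 * m + 5 * L + 10 ≤ 3 * M) (F : Finset (List Bool)) (hF : ∀ t ∈ F, t ∈ Crw (2 * m + 1))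
    (hL : ∀ t ∈ F, t.length ≤ L) : 2 * ∑ t ∈ F, ct t * At t ≤ HH (SP m M θ θ) G := by
  have hr : nn (R2 u) = 1 - θ ∧ lv (R2 u) = -(3 * m) := by
    unfold R2 nn lv at *
    simp only
    constructor <;> omega
  refine count (SP_Dat hθ hu hu') (by omega) Fc_f0 (SP_full _ _ _ _) (SP_full _ _ _ _) w1 w2 hGD ?_ huG
    (SP_sep hm hθ hu hu' hGD huG hGc) (L := L) ?_ F (fun t ht => Cw_of_Crw (hF t ht)) hL
  · intro v
    rw [Rf_f0]
    constructor
    · intro h1
      have := hGR _ h1
      rwa [R2_R2] at this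
    · exact hGR v
  · intro v h1 h2 h3
    obtain ⟨hr1, hr2⟩ := hr
    push_cast at h2
    have hab := abs_le.1 (le_refl |θ|)
    rw [abs_le] at h3
    unfold nn lv at *
    omega

end LP

end HexObs
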