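import Pool.Agent.HexLoop.Cnt0
import Pool.Agent.HexLoop.Stepped
import Pool.Agent.HexObs.Exit2

/-!
Board SD: the winding of the crossings of the stepped domains is at most 4.
-/

set_option autoImplicit false

namespace HexObs

namespace LP

open Complex Finset

namespace SW

/-- v is one of the vertices number 1, ..., t.length of the walk t from p -/
def Vis (p : Pt × Pt) (t : List Bool) (v : Pt) : Prop := ∃ i, 1 ≤ i ∧ i ≤ t.length ∧ vx p.1 p.2 t i = v

/-- the vertices number 1, ..., t.length are in the set Q and distinct -/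
def Ok (Q : Set Pt) (p : Pt × Pt) (t : List Bool) : Prop :=
  (∀ v, Vis p t v → v ∈ Q) ∧ ∀ i k, 1 ≤ i → i < k → k ≤ t.length → vx p.1 p.2 t i ≠ vx p.1 p.2 t k

lemma vx_join {p a : Pt × Pt} {s : List Bool} (h : le p s = a) (t : List Bool) (k : ℕ) :
    vx p.1 p.2 (s ++ t) (s.length + k) = vx a.1 a.2 t k := by
  rw [← h]
  show vs p.1 p.2 (tf (s ++ t)) (s.length + k) = vs (vs p.1 p.2 (tf s) s.length) (ds p.2 (tf s) s.length) (tf t) k
  rw [vs_shift]
  have e1 : vs p.1 p.2 (tf (s ++ t)) s.length = vs p.1 p.2 (tf s) s.length :=
    vs_congr _ (fun k hk => tf_append_left (by omega))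
  have e2 : ds p.2 (tf (s ++ t)) s.length = ds p.2 (tf s) s.length :=
    ds_congr _ (fun k hk => tf_append_left hk)
  rw [e1, e2]
  apply vs_congr
  intro l _
  exact tf_append_right l

lemma dx_join {p a : Pt × Pt} {s : List Bool} (h : le p s = a) (t : List Bool) (k : ℕ) :
    dx p.2 (s ++ t) (s.length + k) = dx a.2 t k := by
  rw [← h]
  show ds p.2 (tf (s ++ t)) (s.length + k) = ds (ds p.2 (tf s) s.length) (tf t) k
  rw [ds_shift]
  have e2 : ds p.2 (tf (s ++ t)) s.length = ds p.2 (tf s) s.length :=
    ds_congr _ (fun k hk => tf_append_left hk)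
  rw [e2]
  apply ds_congr
  intro l _
  exact tf_append_right l

lemma le_join {p a : Pt × Pt} {s : List Bool} (h : le p s = a) (t : List Bool) : le p (s ++ t) = le a t := by
  unfold le
  rw [List.length_append, vx_join h, dx_join h]

lemma vis_join {p a : Pt × Pt} {s : List Bool} (h : le p s = a) {t : List Bool} {v : Pt} (hv : Vis p (s ++ t) v) :
    Vis p s v ∨ Vis a t v := by
  obtain ⟨i, h1, h2, h3⟩ := hv
  rw [List.length_append] at h2
  rcases Nat.lt_or_ge s.length i with h4 | h4
  · right
    obtain ⟨k, rfl⟩ : ∃ k, i = s.length + k := ⟨i - s.length, by omega⟩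
    rw [vx_join h] at h3
    exact ⟨k, by omega, by omega, h3⟩
  · left
    rw [vx_append (by omega)] at h3
    exact ⟨i, h1, h4, h3⟩

lemma ok_join {Q : Set Pt} {p a : Pt × Pt} {s : List Bool} (h : le p s = a) {t : List Bool} (h1 : Ok Q p s)
    (h2 : Ok Q a t) (h3 : ∀ v, Vis p s v → ¬ Vis a t v) : Ok Q p (s ++ t) := by
  constructor
  · intro v hv
    rcases vis_join h hv with h4 | h4
    · exact h1.1 v h4
    · exact h2.1 v h4
  · intro i k i1 ik hk heq
    rw [List.length_append] at hk
    rcases Nat.lt_or_ge s.length i with h4 | h4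
    · obtain ⟨i', rfl⟩ : ∃ k, i = s.length + k := ⟨i - s.length, by omega⟩
      obtain ⟨k', rfl⟩ : ∃ l, k = s.length + l := ⟨k - s.length, by omega⟩
      rw [vx_join h, vx_join h] at heq
      exact h2.2 i' k' (by omega) (by omega) (by omega) heq
    · rw [vx_append (by omega)] at heq
      rcases Nat.lt_or_ge s.length k with h5 | h5
      · obtain ⟨k', rfl⟩ : ∃ l, k = s.length + l := ⟨k - s.length, by omega⟩
        rw [vx_join h] at heq
        exact h3 _ ⟨i, i1, h4, rfl⟩ ⟨k', by omega, by omega, heq.symm⟩
      · rw [vx_append (by omega)] at heq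
        exact h1.2 i k i1 ik h5 heq

lemma vis_rev {p : Pt × Pt} {t : List Bool} {v : Pt} : Vis (rv (le p t)) (rev t) v ↔ Vis p t v := by
  have := Hit_rev (K := {v}) (p := p) t
  unfold Hit at this
  simp only [Finset.mem_singleton] at this
  exact this

lemma ok_rev {Q : Set Pt} {p : Pt × Pt} {t : List Bool} (h : Ok Q p t) : Ok Q (rv (le p t)) (rev t) := by
  constructor
  · intro v hv
    exact h.1 v (vis_rev.1 hv)
  · intro i k i1 ik hk
    rw [rev_length] at hk
    rw [vx_rev0 t i (by omega), vx_rev0 t k (by omega)]
    exact (h.2 (t.length + 1 - k) (t.length + 1 - i) (by omega) (by omega) (by omega)).symm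

lemma le_rev (p : Pt × Pt) (t : List Bool) : le (rv (le p t)) (rev t) = rv p := by
  unfold le
  rw [rev_length]
  have e1 := vx_rev0 (p := p) t t.length (by omega)
  have e2 := dx_rev0 (p := p) t t.length le_rfl
  have e3 : t.length + 1 - t.length = 1 := by omega
  rw [e3] at e1
  rw [Nat.sub_self] at e2
  show ((vx (rv (le p t)).1 (rv (le p t)).2 (rev t) t.length, dx (rv (le p t)).2 (rev t) t.length) : Pt × Pt) = rv p
  rw [e1, e2]
  rfl

/-- a walk in a domain that is convex at its two ends has winding at most 3 -/
lemma wind_conv {P : Set Pt} {b b' : Pt × Pt} {t : List Bool} (hb' : b'.2 ∈ dirs) (ht : Ok P b' t)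
    (hle : le b' t = rv b) (h0 : b'.1 ∉ P) (hc : ∀ v ∈ P, 0 < ip (v - b.1) b.2)
    (hc' : ∀ v ∈ P, 0 < ip (v - b'.1) b'.2) :
    |wind t| ≤ 2 ∨ (b.2 = b'.2 ∧ |wind t| ≤ 3) := by
  have h1 : vx b'.1 b'.2 t t.length = b.1 + b.2 := congrArg Prod.fst hle
  have h2 : dx b'.2 t t.length = -b.2 := congrArg Prod.snd hle
  have htip : tip b'.1 b'.2 t = b.1 := by
    show vx b'.1 b'.2 t (t.length + 1) = b.1
    rw [vx_succ, h1, h2]
    abel
  have hP : ∀ i, 1 ≤ i → i ≤ t.length → vx b'.1 b'.2 t i ∈ P := fun i i1 i2 => ht.1 _ ⟨i, i1, i2, rfl⟩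
  have key := wind_exit (v0 := b'.1) (d0 := b'.2) hb' (t := t)
    (by
      intro i k hik hk heq
      rcases Nat.eq_zero_or_pos i with h | h
      · rw [h] at heq
        apply h0
        have := hP k (by omega) hk
        rw [← heq] at this
        exact this
      · exact ht.2 i k h hik hk heq)
    (fun i i1 i2 => hc' _ (hP i i1 i2))
    (by
      intro i i1 i2
      rw [htip, h2, ip_neg_right, ← ip_neg_left, neg_sub]
      exact hc _ (hP i i1 i2))
  rw [h2] at key
  rcases key with ⟨_, h⟩ | ⟨_, h⟩ | ⟨_, h⟩ | ⟨_, h⟩ | ⟨_, h⟩ | ⟨h3, h⟩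
  · left; rw [h]; decide
  · left; rw [h]; decide
  · left; rw [h]; decide
  · left; rw [h]; decide
  · left; rw [h]; decide
  · right
    refine ⟨neg_injective h3, ?_⟩
    rcases h with h | h <;> rw [h] <;> decide

/-- the boundary edge of the stepped domain whose prefix contains the vertex v of the missing part of the rows -/
def own (m : ℕ) (θ θ' : ℤ) (v : Pt) : Pt × Pt :=
  if v.1 + 2 * v.2 = 3 * m + 2 then (v, (0, -1))
  else if v.1 + 2 * v.2 = 3 * m + 3 then (if v.1 - v.2 - 1 = θ - 2 then (v, (1, -1)) else (v + (1, -1), (0, -1)))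
  else if v.1 + 2 * v.2 = -3 * m then (v, (0, 1))
  else (if 1 - (v.1 - v.2) = θ' - 2 then (v, (-1, 1)) else (v + (-1, 1), (0, 1)))

/-- boundary edges of the parallelogram see it in front of them -/
lemma conv {m M : ℕ} {b : Pt × Pt} (hb : b ∈ bd (PP m M)) {v : Pt} (hv : v ∈ PP m M) : 0 < ip (v - b.1) b.2 := by
  obtain ⟨h1, h2, h3⟩ := mem_bd.1 hb
  obtain ⟨⟨x, y⟩, d⟩ := b
  obtain ⟨p, q⟩ := v
  unfold PP at h1 h3 hv
  rw [mem_SP'] at h1 h3 hv
  have hc := De_cases h2
  unfold nn at hc
  simp only [Prod.fst_add, Prod.snd_add, ip, Prod.fst_sub, Prod.snd_sub] at *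
  rcases hc with ⟨h4, rfl | rfl | rfl⟩ | ⟨h4, rfl | rfl | rfl⟩ <;> simp only at * <;> omega

/-- the condition on the winding of the prefix -/
def Om (b : Pt × Pt) (s : List Bool) : Prop :=
  wind s = 0 ∨ (wind s = 1 ∧ (b.2 = (0, 1) ∨ b.2 = (0, -1))) ∨ (wind s = -1 ∧ (b.2 = (1, -1) ∨ b.2 = (-1, 1)))

lemma vis_one {p : Pt × Pt} {c : Bool} {v : Pt} (h : Vis p [c] v) : v = p.1 + p.2 := by
  obtain ⟨i, h1, h2, h3⟩ := h
  have h4 : i = 1 := by
    simp only [List.length_cons, List.length_nil] at h2
    omega
  rw [h4] at h3
  exact h3.symm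

lemma vis_two {p : Pt × Pt} {c c' : Bool} {v : Pt} (h : Vis p [c, c'] v) :
    v = p.1 + p.2 ∨ v = p.1 + p.2 + turn c p.2 := by
  obtain ⟨i, h1, h2, h3⟩ := h
  have h4 : i = 1 ∨ i = 2 := by
    simp only [List.length_cons, List.length_nil] at h2
    omega
  rcases h4 with h4 | h4
  · left
    rw [h4] at h3
    exact h3.symm
  · right
    rw [h4] at h3
    exact h3.symm

lemma ok_one {Q : Set Pt} {p : Pt × Pt} {c : Bool} (h : p.1 + p.2 ∈ Q) : Ok Q p [c] := by
  constructor
  · intro v hv
    rw [vis_one hv]
    exact h
  · intro i k i1 ik hk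
    exfalso
    simp only [List.length_cons, List.length_nil] at hk
    omega

lemma ok_two {Q : Set Pt} {p : Pt × Pt} {c c' : Bool} (hd : p.2 ∈ dirs) (h : p.1 + p.2 ∈ Q)
    (h' : p.1 + p.2 + turn c p.2 ∈ Q) : Ok Q p [c, c'] := by
  constructor
  · intro v hv
    rcases vis_two hv with rfl | rfl
    · exact h
    · exact h'
  · intro i k i1 ik hk
    simp only [List.length_cons, List.length_nil] at hk
    have e1 : i = 1 := by omega
    have e2 : k = 2 := by omega
    rw [e1, e2]
    show p.1 + p.2 ≠ p.1 + p.2 + turn c p.2
    intro heq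
    have hz : turn c p.2 = 0 := by
      have := heq.symm
      rwa [add_eq_left] at this
    have : turn c p.2 ∈ dirs := turn_mem hd c
    rw [hz] at this
    revert this
    decide

/-- THE PREFIX: every boundary edge of the stepped domain is reached from a boundary edge of the parallelogram -/
lemma prefix_ex {m M : ℕ} {θ θ' : ℤ} (h : θ % 3 = 1) (h' : θ' % 3 = 1) {a : Pt × Pt} (ha : a ∈ bd (SP m M θ θ')) :
    ∃ (b : Pt × Pt) (s : List Bool), b ∈ bd (PP (m + 1) M) ∧ le b s = a ∧ Om b s ∧
      Ok {v | v ∈ PP (m + 1) M} b s ∧ ∀ v, Vis b s v → v ∉ SP m M θ θ' ∧ own m θ θ' v = a := by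
  obtain ⟨h1, h2, h3⟩ := mem_bd.1 ha
  by_cases hP : a.1 ∈ PP (m + 1) M
  swap
  · refine ⟨a, [], mem_bd.2 ⟨SP_sub h1, h2, hP⟩, rfl, Or.inl rfl, ⟨?_, ?_⟩, ?_⟩
    · rintro v ⟨i, i1, i2, _⟩
      simp only [List.length_nil] at i2
      omega
    · intro i k i1 ik hk
      simp only [List.length_nil] at hk
      omega
    · rintro v ⟨i, i1, i2, _⟩
      simp only [List.length_nil] at i2
      omega
  obtain ⟨⟨x, y⟩, d⟩ := a
  have hc := De_cases h2
  unfold nn at hc
  rw [mem_SP'] at h1 h3
  unfold PP at hP
  rw [mem_SP'] at hP
  push_cast at hP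
  simp only [Prod.fst_add, Prod.snd_add] at *
  rcases hc with ⟨h4, rfl | rfl | rfl⟩ | ⟨h4, rfl | rfl | rfl⟩ <;> simp only at *
  · exfalso
    omega
  · -- the bottom step edge
    refine ⟨((x, y - 1), (0, 1)), [true], ?_, ?_, ?_, ?_, ?_⟩
    · rw [mem_bd]
      refine ⟨?_, De_mk (Or.inr ⟨?_, Or.inl rfl⟩), ?_⟩
      · unfold PP
        rw [mem_SP']
        push_cast
        simp only [Prod.fst_add, Prod.snd_add]
        omega
      · unfold nn
        simp only
        omega
      · unfold PP
        rw [mem_SP']
        push_cast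
        omega
    · show (((x, y - 1) + (0, 1) : Pt), turn true (0, 1)) = (((x, y), (-1, 1)) : Pt × Pt)
      have e1 : ((x, y - 1) + (0, 1) : Pt) = (x, y) := by
        ext <;> simp
      rw [e1]
      rfl
    · exact Or.inr (Or.inl ⟨rfl, Or.inl rfl⟩)
    · apply ok_one
      show ((x, y - 1) + (0, 1) : Pt) ∈ PP (m + 1) M
      unfold PP
      rw [mem_SP']
      push_cast
      simp only [Prod.fst_add, Prod.snd_add]
      omega
    · intro v hv
      have hv' := vis_one hv
      have e1 : ((x, y - 1) + (0, 1) : Pt) = (x, y) := by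
        ext <;> simp
      simp only [e1] at hv'
      subst hv'
      refine ⟨?_, ?_⟩
      · rw [mem_SP']
        simp only
        omega
      · unfold own
        simp only
        rw [if_neg (by omega), if_neg (by omega), if_neg (by omega), if_pos (by omega)]
  · -- the missing part of the top row, seen from below
    by_cases hw : -3 * (M : ℤ) + 2 < x - y - 1
    · refine ⟨((x - 1, y + 2), (0, -1)), [true, false], ?_, ?_, ?_, ?_, ?_⟩
      · rw [mem_bd]
        refine ⟨?_, De_mk (Or.inl ⟨?_, Or.inr (Or.inr rfl)⟩), ?_⟩
        · unfold PP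
          rw [mem_SP']
          push_cast
          simp only [Prod.fst_add, Prod.snd_add]
          omega
        · unfold nn
          simp only
          omega
        · unfold PP
          rw [mem_SP']
          push_cast
          omega
      · show (((x - 1, y + 2) + (0, -1) + turn true (0, -1) : Pt), turn false (turn true (0, -1))) =
          (((x, y), (0, -1)) : Pt × Pt)
        have e1 : ((x - 1, y + 2) + (0, -1) + turn true (0, -1) : Pt) = (x, y) := by
          have : turn true (0, -1) = (1, -1) := by decide
          rw [this]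
          ext
          · simp
          · simp only [Prod.snd_add]
            ring
        rw [e1]
        rfl
      · exact Or.inl rfl
      · have e0 : turn true ((0, -1) : Pt) = (1, -1) := by decide
        apply ok_two
        · show ((0, -1) : Pt) ∈ dirs
          decide
        · show ((x - 1, y + 2) + (0, -1) : Pt) ∈ PP (m + 1) M
          unfold PP
          rw [mem_SP']
          push_cast
          simp only [Prod.fst_add, Prod.snd_add]
          omega
        · show ((x - 1, y + 2) + (0, -1) + turn true (0, -1) : Pt) ∈ PP (m + 1) M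
          rw [e0]
          unfold PP
          rw [mem_SP']
          push_cast
          simp only [Prod.fst_add, Prod.snd_add]
          omega
      · intro v hv
        have e0 : turn true ((0, -1) : Pt) = (1, -1) := by decide
        rcases vis_two hv with hv' | hv'
        · have e1 : ((x - 1, y + 2) + (0, -1) : Pt) = (x - 1, y + 1) := by
            ext
            · simp
            · simp only [Prod.snd_add]
              ring
          simp only [e1] at hv'
          subst hv'
          refine ⟨?_, ?_⟩
          · rw [mem_SP']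
            simp only
            omega
          · unfold own
            simp only
            rw [if_neg (by omega), if_pos (by omega), if_neg (by omega)]
            refine Prod.ext (Prod.ext ?_ ?_) rfl
            · show x - 1 + 1 = x
              ring
            · show y + 1 + -1 = y
              ring
        · simp only [e0] at hv'
          have e1 : ((x - 1, y + 2) + (0, -1) + (1, -1) : Pt) = (x, y) := by
            ext
            · simp
            · simp only [Prod.snd_add]
              ring
          rw [e1] at hv'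
          subst hv'
          refine ⟨?_, ?_⟩
          · rw [mem_SP']
            simp only
            omega
          · unfold own
            simp only
            rw [if_pos (by omega)]
    · refine ⟨((x - 1, y + 1), (1, -1)), [false], ?_, ?_, ?_, ?_, ?_⟩
      · rw [mem_bd]
        refine ⟨?_, De_mk (Or.inr ⟨?_, Or.inr (Or.inr rfl)⟩), ?_⟩
        · unfold PP
          rw [mem_SP']
          push_cast
          simp only [Prod.fst_add, Prod.snd_add]
          omega
        · unfold nn
          simp only
          omega
        · unfold PP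
          rw [mem_SP']
          push_cast
          omega
      · show (((x - 1, y + 1) + (1, -1) : Pt), turn false (1, -1)) = (((x, y), (0, -1)) : Pt × Pt)
        have e1 : ((x - 1, y + 1) + (1, -1) : Pt) = (x, y) := by
          ext <;> simp
        rw [e1]
        rfl
      · exact Or.inr (Or.inr ⟨rfl, Or.inl rfl⟩)
      · apply ok_one
        show ((x - 1, y + 1) + (1, -1) : Pt) ∈ PP (m + 1) M
        unfold PP
        rw [mem_SP']
        push_cast
        simp only [Prod.fst_add, Prod.snd_add]
        omega
      · intro v hv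
        have hv' := vis_one hv
        have e1 : ((x - 1, y + 1) + (1, -1) : Pt) = (x, y) := by
          ext <;> simp
        simp only [e1] at hv'
        subst hv'
        refine ⟨?_, ?_⟩
        · rw [mem_SP']
          simp only
          omega
        · unfold own
          simp only
          rw [if_pos (by omega)]
  · -- the missing part of the bottom row, seen from above
    by_cases hw : x - y - 1 < 3 * (M : ℤ) - 2
    · refine ⟨((x + 1, y - 2), (0, 1)), [true, false], ?_, ?_, ?_, ?_, ?_⟩
      · rw [mem_bd]
        refine ⟨?_, De_mk (Or.inr ⟨?_, Or.inl rfl⟩), ?_⟩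
        · unfold PP
          rw [mem_SP']
          push_cast
          simp only [Prod.fst_add, Prod.snd_add]
          omega
        · unfold nn
          simp only
          omega
        · unfold PP
          rw [mem_SP']
          push_cast
          omega
      · show (((x + 1, y - 2) + (0, 1) + turn true (0, 1) : Pt), turn false (turn true (0, 1))) =
          (((x, y), (0, 1)) : Pt × Pt)
        have e1 : ((x + 1, y - 2) + (0, 1) + turn true (0, 1) : Pt) = (x, y) := by
          have : turn true (0, 1) = (-1, 1) := by decide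
          rw [this]
          ext
          · simp
          · simp only [Prod.snd_add]
            ring
        rw [e1]
        rfl
      · exact Or.inl rfl
      · have e0 : turn true ((0, 1) : Pt) = (-1, 1) := by decide
        apply ok_two
        · show ((0, 1) : Pt) ∈ dirs
          decide
        · show ((x + 1, y - 2) + (0, 1) : Pt) ∈ PP (m + 1) M
          unfold PP
          rw [mem_SP']
          push_cast
          simp only [Prod.fst_add, Prod.snd_add]
          omega
        · show ((x + 1, y - 2) + (0, 1) + turn true (0, 1) : Pt) ∈ PP (m + 1) M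
          rw [e0]
          unfold PP
          rw [mem_SP']
          push_cast
          simp only [Prod.fst_add, Prod.snd_add]
          omega
      · intro v hv
        have e0 : turn true ((0, 1) : Pt) = (-1, 1) := by decide
        rcases vis_two hv with hv' | hv'
        · have e1 : ((x + 1, y - 2) + (0, 1) : Pt) = (x + 1, y - 1) := by
            ext
            · simp
            · simp only [Prod.snd_add]
              ring
          simp only [e1] at hv'
          subst hv'
          refine ⟨?_, ?_⟩
          · rw [mem_SP']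
            simp only
            omega
          · unfold own
            simp only
            rw [if_neg (by omega), if_neg (by omega), if_neg (by omega), if_neg (by omega)]
            refine Prod.ext (Prod.ext ?_ ?_) rfl
            · show x + 1 + -1 = x
              ring
            · show y - 1 + 1 = y
              ring
        · simp only [e0] at hv'
          have e1 : ((x + 1, y - 2) + (0, 1) + (-1, 1) : Pt) = (x, y) := by
            ext
            · simp
            · simp only [Prod.snd_add]
              ring
          rw [e1] at hv'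
          subst hv'
          refine ⟨?_, ?_⟩
          · rw [mem_SP']
            simp only
            omega
          · unfold own
            simp only
            rw [if_neg (by omega), if_neg (by omega), if_pos (by omega)]
    · refine ⟨((x + 1, y - 1), (-1, 1)), [false], ?_, ?_, ?_, ?_, ?_⟩
      · rw [mem_bd]
        refine ⟨?_, De_mk (Or.inl ⟨?_, Or.inr (Or.inl rfl)⟩), ?_⟩
        · unfold PP
          rw [mem_SP']
          push_cast
          simp only [Prod.fst_add, Prod.snd_add]
          omega
        · unfold nn
          simp only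
          omega
        · unfold PP
          rw [mem_SP']
          push_cast
          omega
      · show (((x + 1, y - 1) + (-1, 1) : Pt), turn false (-1, 1)) = (((x, y), (0, 1)) : Pt × Pt)
        have e1 : ((x + 1, y - 1) + (-1, 1) : Pt) = (x, y) := by
          ext <;> simp
        rw [e1]
        rfl
      · exact Or.inr (Or.inr ⟨rfl, Or.inr rfl⟩)
      · apply ok_one
        show ((x + 1, y - 1) + (-1, 1) : Pt) ∈ PP (m + 1) M
        unfold PP
        rw [mem_SP']
        push_cast
        simp only [Prod.fst_add, Prod.snd_add]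
        omega
      · intro v hv
        have hv' := vis_one hv
        have e1 : ((x + 1, y - 1) + (-1, 1) : Pt) = (x, y) := by
          ext <;> simp
        simp only [e1] at hv'
        subst hv'
        refine ⟨?_, ?_⟩
        · rw [mem_SP']
          simp only
          omega
        · unfold own
          simp only
          rw [if_neg (by omega), if_neg (by omega), if_pos (by omega)]
  · exfalso
    omega
  · -- the top step edge
    refine ⟨((x, y + 1), (0, -1)), [true], ?_, ?_, ?_, ?_, ?_⟩
    · rw [mem_bd]
      refine ⟨?_, De_mk (Or.inl ⟨?_, Or.inr (Or.inr rfl)⟩), ?_⟩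
      · unfold PP
        rw [mem_SP']
        push_cast
        simp only [Prod.fst_add, Prod.snd_add]
        omega
      · unfold nn
        simp only
        omega
      · unfold PP
        rw [mem_SP']
        push_cast
        omega
    · show (((x, y + 1) + (0, -1) : Pt), turn true (0, -1)) = (((x, y), (1, -1)) : Pt × Pt)
      have e1 : ((x, y + 1) + (0, -1) : Pt) = (x, y) := by
        ext <;> simp
      rw [e1]
      rfl
    · exact Or.inr (Or.inl ⟨rfl, Or.inr rfl⟩)
    · apply ok_one
      show ((x, y + 1) + (0, -1) : Pt) ∈ PP (m + 1) M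
      unfold PP
      rw [mem_SP']
      push_cast
      simp only [Prod.fst_add, Prod.snd_add]
      omega
    · intro v hv
      have hv' := vis_one hv
      have e1 : ((x, y + 1) + (0, -1) : Pt) = (x, y) := by
        ext <;> simp
      simp only [e1] at hv'
      subst hv'
      refine ⟨?_, ?_⟩
      · rw [mem_SP']
        simp only
        omega
      · unfold own
        simp only
        rw [if_neg (by omega), if_pos (by omega), if_pos (by omega)]

end SW

open SW in
/-- the winding of the crossings of a stepped domain is at most 4 -/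
theorem SP_wind {m M : ℕ} {θ θ' : ℤ} (h : θ % 3 = 1) (h' : θ' % 3 = 1) {a : Pt × Pt} (ha : a ∈ bd (SP m M θ θ'))
    {t : List Bool} (ht : t ∈ ex0 (SP m M θ θ') a) : |wind t| ≤ 4 := by
  obtain ⟨g1, g2, g3⟩ := mem_bd.1 ha
  obtain ⟨⟨m1, m2⟩, m3⟩ := mem_ex0.1 ht
  have hpos := ex0_pos g1 ht
  have hD : ∀ v, Vis a t v → v ∈ SP m M θ θ' := by
    rintro v ⟨i, i1, i2, rfl⟩
    exact m1 i i1 i2
  -- the last edge
  obtain ⟨a', ha'⟩ : ∃ a', a' = rv (le a t) := ⟨_, rfl⟩
  have e1 : a'.1 = tp a t := by
    rw [ha']
    rfl
  have e2 : a'.1 + a'.2 = vx a.1 a.2 t t.length := by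
    rw [ha']
    show vx a.1 a.2 t t.length + dx a.2 t t.length + -dx a.2 t t.length = _
    abel
  have hba' : a' ∈ bd (SP m M θ θ') := by
    rw [mem_bd, e2]
    refine ⟨m1 _ (by omega) le_rfl, ?_, by rw [e1]; exact m3⟩
    have := de_vx g2 t t.length
    obtain ⟨k1, k2, k3⟩ := this
    rw [ha']
    refine ⟨?_, k3, ?_⟩
    · show -dx a.2 t t.length ∈ dirs
      simp only at k1
      generalize dx a.2 t t.length = z at k1
      revert z
      decide
    · show Vt (vx a.1 a.2 t t.length + dx a.2 t t.length + -dx a.2 t t.length)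
      rw [add_neg_cancel_right]
      exact k2
  have hne : a' ≠ a := by
    intro heq
    rw [heq] at e1 e2
    have h5 : t.length = 1 := by
      by_contra hc
      apply m2 1 t.length le_rfl (by omega) le_rfl
      rw [← e2]
      rfl
    have h6 : a.2 = -(dx a.2 t t.length) := by
      have : a' = rv (le a t) := ha'
      rw [heq] at this
      exact congrArg Prod.snd this
    rw [h5] at h6
    have h7 : dx a.2 t 1 = turn (tf t 0) a.2 := rfl
    rw [h7] at h6
    have h8 : ∀ z ∈ dirs, ∀ c : Bool, z ≠ -turn c z := by decide
    exact h8 _ g2.1 _ h6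
  obtain ⟨b, s, b1, b2, b3, b4, b5⟩ := prefix_ex h h' ha
  obtain ⟨b', s', c1, c2, c3, c4, c5⟩ := prefix_ex h h' hba'
  -- the first extension
  have ht1 : Ok {v | v ∈ PP (m + 1) M} a t := by
    refine ⟨?_, m2⟩
    intro v hv
    exact SP_sub (hD v hv)
  have w1 : Ok {v | v ∈ PP (m + 1) M} b (s ++ t) := by
    apply ok_join b2 b4 ht1
    intro v hv hv'
    exact (b5 v hv).1 (hD v hv')
  have w1' := ok_rev w1
  rw [le_join b2, ← ha'] at w1'
  have w2 : Ok {v | v ∈ PP (m + 1) M} b' (s' ++ rev (s ++ t)) := by
    apply ok_join c2 c4 w1'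
    intro v hv hv'
    have hv2 : Vis b (s ++ t) v := by
      have := vis_rev (p := b) (t := s ++ t) (v := v)
      rw [le_join b2, ← ha'] at this
      exact this.1 hv'
    rcases vis_join b2 hv2 with h9 | h9
    · apply hne
      rw [← (c5 v hv).2, (b5 v h9).2]
    · exact (c5 v hv).1 (hD v h9)
  have hle : le b' (s' ++ rev (s ++ t)) = rv b := by
    rw [le_join c2]
    have := le_rev b (s ++ t)
    rw [le_join b2, ← ha'] at this
    exact this
  obtain ⟨f1, f2, f3⟩ := mem_bd.1 c1
  have key := wind_conv (P := {v | v ∈ PP (m + 1) M}) f2.1 w2 hle f3 (fun v hv => conv b1 hv) (fun v hv => conv c1 hv)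
  rw [wind_append, wind_rev, wind_append] at key
  have k0 : ∀ {b : Pt × Pt} {s : List Bool}, Om b s → -1 ≤ wind s ∧ wind s ≤ 1 := by
    rintro b s (h | ⟨h, _⟩ | ⟨h, _⟩) <;> rw [h] <;> decide
  obtain ⟨p1, p2⟩ := k0 b3
  obtain ⟨q1, q2⟩ := k0 c3
  rw [abs_le]
  rcases key with k | ⟨k1, k2⟩
  · rw [abs_le] at k
    constructor <;> omega
  · rw [abs_le] at k2
    have hx : -1 ≤ wind s' - wind s ∧ wind s' - wind s ≤ 1 := by
      unfold Om at b3 c3
      rw [k1] at b3
      rcases b3 with b3 | ⟨b3, b6⟩ | ⟨b3, b6⟩
      · omega
      · rcases c3 with c3 | ⟨c3, c6⟩ | ⟨c3, c6⟩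
        · omega
        · omega
        · exfalso
          rcases b6 with b6 | b6 <;> rcases c6 with c6 | c6 <;> rw [b6] at c6 <;> revert c6 <;> decide
      · rcases c3 with c3 | ⟨c3, c6⟩ | ⟨c3, c6⟩
        · omega
        · exfalso
          rcases b6 with b6 | b6 <;> rcases c6 with c6 | c6 <;> rw [b6] at c6 <;> revert c6 <;> decide
        · omega
    constructor <;> omega

end LP

end HexObs
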