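import Pool.Agent.HexLoop.Born
import Pool.Agent.HexLoop.Cnt5
import Pool.Agent.HexLoop.Stepped
import Pool.Agent.HexLoop.SPWind

/-!
SD5: the polygons born in the growth of the stepped domains.
-/

set_option autoImplicit false

namespace HexObs

namespace LP

open Complex Finset SD6

lemma nn_um (m : ℕ) (k : ℤ) : nn (um m k) = 3 * k + 2 := by
  unfold nn um
  simp only
  ring

lemma lv_um (m : ℕ) (k : ℤ) : lv (um m k) = 3 * m + 2 := by
  unfold lv um
  simp only
  ring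

lemma SP_sym {m M : ℕ} {θ : ℤ} : ∀ v ∈ SP m M θ θ, Rf f0 v ∈ SP m M θ θ := by
  intro v hv
  rw [Rf_f0]
  exact SP_R2.2 hv

lemma SP_WB {m M : ℕ} {θ θ' : ℤ} (h : θ % 3 = 1) (h' : θ' % 3 = 1) : WB (SP m M θ θ') :=
  fun _ ha _ ht => SP_wind h h' ha ht

/-- the edges at a vertex in coordinates. -/
private lemma vals (v : Pt) : nn (v + (1, -1)) = nn v + 2 ∧ lv (v + (1, -1)) = lv v - 1 ∧
    nn (v + (-1, 1)) = nn v - 2 ∧ lv (v + (-1, 1)) = lv v + 1 ∧ nn (v + (0, 1)) = nn v - 1 ∧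
    lv (v + (0, 1)) = lv v + 2 ∧ nn (v + (0, -1)) = nn v + 1 ∧ lv (v + (0, -1)) = lv v - 2 ∧
    nn (v + (-1, 0)) = nn v - 1 ∧ lv (v + (-1, 0)) = lv v - 1 := by
  unfold nn lv
  simp only [Prod.fst_add, Prod.snd_add]
  refine ⟨?_, ?_, ?_, ?_, ?_, ?_, ?_, ?_, ?_, ?_⟩ <;> ring

private lemma um_pred (m : ℕ) (k : ℤ) : um m (k - 1) = um m k + (-1, 1) + (-1, 0) := by
  unfold um
  ext
  · simp only [Prod.fst_add]
    ring
  · simp only [Prod.snd_add]
    ring

private lemma mem_sp {m M : ℕ} {θ θ' : ℤ} {v : Pt} : v ∈ SP m M θ θ' ↔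
    nn v % 3 ≠ 1 ∧ (-(3 * M : ℤ) < nn v - 1 ∧ nn v - 1 < 3 * M) ∧
      ((-(3 * m : ℤ) < lv v - 1 ∧ lv v - 1 < 3 * m) ∨ (3 * m < lv v - 1 ∧ lv v - 1 < 3 * m + 3 ∧ θ ≤ nn v - 1) ∨
        (3 * m < 1 - lv v ∧ 1 - lv v < 3 * m + 3 ∧ θ' ≤ 1 - nn v)) := by
  rw [mem_SP]
  unfold InSP
  rw [Vt_iff, abs_lt, abs_lt]

/-- one step of the top row. -/
theorem SP_grow {m M : ℕ} (hm : 1 ≤ m) {k θ' : ℤ} (h1 : -(M : ℤ) < k) (h2 : k < M) :
    Grow (SP m M (3 * k + 1) θ') (um m k + (-1, 1)) (um m (k - 1)) := by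
  have e1 := nn_um m k
  have e2 := lv_um m k
  have e3 := nn_um m (k - 1)
  have e4 := lv_um m (k - 1)
  obtain ⟨a1, a2, a3, a4, a5, a6, a7, a8, a9, a10⟩ := vals (um m k)
  obtain ⟨b1, b2, b3, b4, b5, b6, b7, b8, b9, b10⟩ := vals (um m k + (-1, 1))
  obtain ⟨c1, c2, c3, c4, c5, c6, c7, c8, c9, c10⟩ := vals (um m (k - 1))
  refine ⟨?_, ?_, ?_, ?_, ?_, ?_, ?_, ?_⟩
  · rw [mem_sp]
    omega
  · rw [mem_sp]
    omega
  · omega
  · exact um_pred m k
  · rw [mem_sp]
    omega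
  · rw [mem_sp]
    omega
  · rw [mem_sp]
    omega
  · rw [mem_sp]
    omega

/-- the new domain. -/
theorem SP_insert {m M : ℕ} {k θ' : ℤ} (h1 : -(M : ℤ) < k) (h2 : k ≤ M) :
    SP m M (3 * k - 2) θ' = insert (um m (k - 1)) (insert (um m k + (-1, 1)) (SP m M (3 * k + 1) θ')) := by
  have e1 := nn_um m k
  have e2 := lv_um m k
  have e3 := nn_um m (k - 1)
  have e4 := lv_um m (k - 1)
  obtain ⟨a1, a2, a3, a4, a5, a6, a7, a8, a9, a10⟩ := vals (um m k)
  ext v
  rw [Finset.mem_insert, Finset.mem_insert, mem_sp, mem_sp]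
  constructor
  · rintro ⟨h3, h4, h5⟩
    rcases h5 with h5 | h5 | h5
    · right
      right
      exact ⟨h3, h4, Or.inl h5⟩
    · by_cases h6 : 3 * k + 1 ≤ nn v - 1
      · right
        right
        exact ⟨h3, h4, Or.inr (Or.inl ⟨h5.1, h5.2.1, h6⟩)⟩
      · have h7 := lv_mod v
        rcases (by omega : (lv v = 3 * m + 2 ∧ nn v = 3 * k - 1) ∨ (lv v = 3 * m + 3 ∧ nn v = 3 * k)) with h8 | h8
        · left
          apply pt_eq
          · omega
          · omega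
        · right
          left
          apply pt_eq
          · omega
          · omega
    · right
      right
      exact ⟨h3, h4, Or.inr (Or.inr h5)⟩
  · rintro (h3 | h3 | h3)
    · subst h3
      omega
    · subst h3
      omega
    · omega

/-- nothing changes outside of the walls. -/
theorem SP_same {m M : ℕ} {k θ' : ℤ} (h : k ≤ -(M : ℤ) ∨ (M : ℤ) < k) :
    SP m M (3 * k - 2) θ' = SP m M (3 * k + 1) θ' := by
  ext v
  rw [mem_sp, mem_sp]
  omega

/-- a polygon of the new domain that is not in the old one passes through u. -/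
theorem Grow.born {D : Finset Pt} {a u : Pt} (h : Grow D a u) {E : Finset (Pt × Pt)} (hE : IsPoly E)
    (hs : VE E ⊆ insert u (insert a D)) (hn : ¬ VE E ⊆ D) : u ∈ VE E := by
  by_contra hu
  rw [Finset.not_subset] at hn
  obtain ⟨v, hv, hvD⟩ := hn
  have h1 := hs hv
  rw [h.mem] at h1
  rcases h1 with h1 | h1 | h1
  · exact hu (h1 ▸ hv)
  · subst h1
    obtain ⟨d, b, h2, h3⟩ := isPoly_prev hE hv
    have d1 := isPoly_de hE h2
    have d2 := isPoly_de hE h3
    obtain ⟨b', h4⟩ := isPoly_next hE h3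
    have v1 : v - d ∈ VE E := Finset.mem_image_of_mem _ h2
    have v2 : v + turn b d ∈ VE E := Finset.mem_image_of_mem _ h4
    have d3 : De (v, -d) := by
      obtain ⟨x1, x2, x3⟩ := d1
      refine ⟨neg_dirs x1, ?_, ?_⟩
      · show Vt v
        have x4 : v - d + d = v := sub_add_cancel v d
        simp only at x3
        rwa [x4] at x3
      · show Vt (v + -d)
        rw [← sub_eq_add_neg]
        exact x2
    rcases h.nba d2 with h5 | ⟨_, h5⟩ | ⟨_, h5⟩
    · rcases h.nba d3 with h6 | ⟨_, h6⟩ | ⟨_, h6⟩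
      · have h7 : ∀ d ∈ dirs, ∀ b : Bool, turn b d ≠ -d := by decide
        exact h7 d d1.1 b (by rw [h5, h6])
      · rw [← sub_eq_add_neg] at h6
        exact hu (h6 ▸ v1)
      · rw [← sub_eq_add_neg] at h6
        exact h6 (hs v1)
    · exact hu (h5 ▸ v2)
    · exact h5 (hs v2)
  · exact hvD h1

/-- pendant pairs carry no polygon. -/
theorem no_pendant {D : Finset Pt} {a u : Pt} (ca : nn a % 3 = 0) (ua : u = a + (-1, 0)) (ha1 : a + (1, -1) ∉ D)
    (ha2 : a + (0, 1) ∉ D) (hu2 : u + (-1, 1) ∉ D) {E : Finset (Pt × Pt)} (hE : IsPoly E)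
    (hs : VE E ⊆ insert u (insert a D)) : VE E ⊆ D := by
  have cu : nn u % 3 = 2 := by
    rw [ua, (vals a).2.2.2.2.2.2.2.2.1]
    omega
  have hmem : ∀ v, v ∈ insert u (insert a D) ↔ v = u ∨ v = a ∨ v ∈ D := by
    intro v
    rw [Finset.mem_insert, Finset.mem_insert]
  -- the two neighbours on the polygon
  have key : ∀ v ∈ VE E, ∃ d1 d2 : Pt, d1 ≠ d2 ∧ De (v, d1) ∧ De (v, d2) ∧ v + d1 ∈ VE E ∧ v + d2 ∈ VE E := by
    intro v hv
    obtain ⟨d, b, h2, h3⟩ := isPoly_prev hE hv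
    have d1 := isPoly_de hE h2
    have d2 := isPoly_de hE h3
    obtain ⟨b', h4⟩ := isPoly_next hE h3
    have v1 : v - d ∈ VE E := Finset.mem_image_of_mem _ h2
    have v2 : v + turn b d ∈ VE E := Finset.mem_image_of_mem _ h4
    have d3 : De (v, -d) := by
      obtain ⟨x1, x2, x3⟩ := d1
      refine ⟨neg_dirs x1, ?_, ?_⟩
      · show Vt v
        have x4 : v - d + d = v := sub_add_cancel v d
        simp only at x3
        rwa [x4] at x3
      · show Vt (v + -d)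
        rw [← sub_eq_add_neg]
        exact x2
    refine ⟨turn b d, -d, ?_, d2, d3, v2, ?_⟩
    · have h7 : ∀ d ∈ dirs, ∀ b : Bool, turn b d ≠ -d := by decide
      exact h7 d d1.1 b
    · rw [← sub_eq_add_neg]
      exact v1
  have hna : a ∉ VE E := by
    intro hv
    have hone : ∀ d, De (a, d) → a + d ∈ VE E → d = (-1, 0) := by
      intro d hd hd'
      have h1 := hs hd'
      rw [hmem] at h1
      rcases De_cases hd with ⟨h2, _⟩ | ⟨_, h2 | h2 | h2⟩
      · omega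
      · exfalso
        rw [h2] at h1
        rcases h1 with h1 | h1 | h1
        · have h3 := congrArg lv h1
          rw [ua, (vals a).2.2.2.2.2.1, (vals a).2.2.2.2.2.2.2.2.2] at h3
          omega
        · have h3 := congrArg lv h1
          rw [(vals a).2.2.2.2.2.1] at h3
          omega
        · exact ha2 h1
      · exact h2
      · exfalso
        rw [h2] at h1
        rcases h1 with h1 | h1 | h1
        · have h3 := congrArg nn h1
          rw [ua, (vals a).1, (vals a).2.2.2.2.2.2.2.2.1] at h3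
          omega
        · have h3 := congrArg nn h1
          rw [(vals a).1] at h3
          omega
        · exact ha1 h1
    obtain ⟨d1, d2, h1, h2, h3, h4, h5⟩ := key a hv
    exact h1 (by rw [hone d1 h2 h4, hone d2 h3 h5])
  have hnu : u ∉ VE E := by
    intro hv
    have hone : ∀ d, De (u, d) → u + d ∈ VE E → d = (0, -1) := by
      intro d hd hd'
      have h1 := hs hd'
      rw [hmem] at h1
      rcases De_cases hd with ⟨_, h2 | h2 | h2⟩ | ⟨h2, _⟩
      · exfalso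
        apply hna
        have h3 : u + d = a := by
          rw [h2, ua]
          ext <;> simp
        rw [← h3]
        exact hd'
      · exfalso
        rw [h2] at h1
        rcases h1 with h1 | h1 | h1
        · have h3 := congrArg nn h1
          rw [(vals u).2.2.1] at h3
          omega
        · have h3 := congrArg nn h1
          rw [(vals u).2.2.1, ua, (vals a).2.2.2.2.2.2.2.2.1] at h3
          omega
        · exact hu2 h1
      · exact h2
      · omega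
    obtain ⟨d1, d2, h1, h2, h3, h4, h5⟩ := key u hv
    exact h1 (by rw [hone d1 h2 h4, hone d2 h3 h5])
  intro v hv
  have h1 := hs hv
  rw [hmem] at h1
  rcases h1 with h1 | h1 | h1
  · exact absurd (h1 ▸ hv) hnu
  · exact absurd (h1 ▸ hv) hna
  · exact h1

/-- the polygons born in one step of the top row pass through the new vertex. -/
theorem SP_born {m M : ℕ} (hm : 1 ≤ m) {k θ' : ℤ} {E : Finset (Pt × Pt)} (hE : E ∈ polys (SP m M (3 * k - 2) θ'))
    (hE' : E ∉ polys (SP m M (3 * k + 1) θ')) : -(M : ℤ) < k ∧ k < M ∧ um m (k - 1) ∈ VE E := by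
  rw [mem_polys] at hE hE'
  obtain ⟨h1, h2⟩ := hE
  have h3 : ¬ VE E ⊆ SP m M (3 * k + 1) θ' := fun h => hE' ⟨h1, h⟩
  by_cases hk : k ≤ -(M : ℤ) ∨ (M : ℤ) < k
  · rw [SP_same hk] at h2
    exact absurd h2 h3
  · push Not at hk
    rw [SP_insert hk.1 hk.2] at h2
    rcases lt_or_eq_of_le hk.2 with hk2 | hk2
    · exact ⟨hk.1, hk2, (SP_grow hm hk.1 hk2).born h1 h2 h3⟩
    · exfalso
      apply h3
      have e1 := nn_um m k
      have e2 := lv_um m k
      have e3 := nn_um m (k - 1)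
      have e4 := lv_um m (k - 1)
      obtain ⟨a1, a2, a3, a4, a5, a6, a7, a8, a9, a10⟩ := vals (um m k)
      obtain ⟨b1, b2, b3, b4, b5, b6, b7, b8, b9, b10⟩ := vals (um m k + (-1, 1))
      obtain ⟨c1, c2, c3, c4, c5, c6, c7, c8, c9, c10⟩ := vals (um m (k - 1))
      apply no_pendant _ (um_pred m k) _ _ _ h1 h2
      · omega
      · rw [mem_sp]
        omega
      · rw [mem_sp]
        omega
      · rw [mem_sp]
        omega

/-- a crossing sum is at least one if K contains the first vertex of a boundary edge. -/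
theorem HH_ge_one {Ω : Finset Pt} (hΩ : Full Ω) (hw : WB Ω) {K : Finset Pt} {a : Pt × Pt} (ha : a ∈ bd Ω)
    (hK : a.1 + a.2 ∈ K) : 1 ≤ HH Ω K := by
  classical
  rw [HH_def]
  have h1 : ∑ t ∈ (ex0 Ω a).filter (Hit K a), cw t = 1 := by
    rw [← start_re hΩ ha]
    apply Finset.sum_congr _ (fun _ _ => rfl)
    rw [Finset.filter_eq_self]
    intro t ht
    exact ⟨1, le_rfl, ex0_pos (mem_bd.1 ha).1 ht, hK⟩
  rw [← h1]
  apply Finset.single_le_sum (f := fun a => ∑ t ∈ (ex0 Ω a).filter (Hit K a), cw t) _ ha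
  intro b hb
  apply Finset.sum_nonneg
  intro t ht
  exact cw_nn4 (hw b hb t (Finset.mem_filter.1 ht).1)

/-- the outward edge at the new vertex. -/
theorem SP_out {m M : ℕ} (hm : 1 ≤ m) {k θ' : ℤ} (h1 : -(M : ℤ) < k) (h2 : k < M) :
    (um m (k - 1) + (-1, 1), ((1, -1) : Pt)) ∈ bd (SP m M (3 * k - 2) θ') := by
  have e3 := nn_um m (k - 1)
  have e4 := lv_um m (k - 1)
  obtain ⟨c1, c2, c3, c4, c5, c6, c7, c8, c9, c10⟩ := vals (um m (k - 1))
  rw [mem_bd]
  simp only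
  have e : um m (k - 1) + (-1, 1) + ((1, -1) : Pt) = um m (k - 1) := by ext <;> simp
  refine ⟨?_, ?_, ?_⟩
  · rw [e, mem_sp]
    omega
  · apply De_mk
    right
    refine ⟨by omega, Or.inr (Or.inr rfl)⟩
  · rw [mem_sp]
    omega

theorem born_top_one (m M : ℕ) (hm : 1 ≤ m) (k : ℤ) {E : Finset (Pt × Pt)}
    (hE : E ∈ polys (SP m M (3 * k - 2) (3 * k + 1))) (hE' : E ∉ polys (SP m M (3 * k + 1) (3 * k + 1))) :
    1 ≤ HH (SP m M (3 * k - 2) (3 * k + 1)) (VE E) := by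
  obtain ⟨h1, h2, h3⟩ := SP_born hm hE hE'
  have e : um m (k - 1) + (-1, 1) + ((1, -1) : Pt) = um m (k - 1) := by ext <;> simp
  apply HH_ge_one (SP_full _ _ _ _) (SP_WB (by omega) (by omega)) (SP_out hm h1 h2)
  rw [e]
  exact h3

theorem born_bot_one (m M : ℕ) (hm : 1 ≤ m) (k : ℤ) {E : Finset (Pt × Pt)}
    (hE : E ∈ polys (SP m M (3 * k - 2) (3 * k - 2))) (hE' : E ∉ polys (SP m M (3 * k + 1) (3 * k - 2))) :
    1 ≤ HH (SP m M (3 * k - 2) (3 * k - 2)) (VE E) := by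
  obtain ⟨h1, h2, h3⟩ := SP_born hm hE hE'
  have e : um m (k - 1) + (-1, 1) + ((1, -1) : Pt) = um m (k - 1) := by ext <;> simp
  apply HH_ge_one (SP_full _ _ _ _) (SP_WB (by omega) (by omega)) (SP_out hm h1 h2)
  rw [e]
  exact h3

/-- polygons born at the top: the symmetric connected set. -/
theorem born_top_G (m M : ℕ) (hm : 1 ≤ m) (k : ℤ) {E : Finset (Pt × Pt)}
    (hE : E ∈ polys (SP m M (3 * k - 2) (3 * k + 1))) (hE' : E ∉ polys (SP m M (3 * k + 1) (3 * k + 1)))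
    (hN : Nw E f0 ≠ 0) : ∃ G, SymConn (SP m M (3 * k + 1) (3 * k + 1)) f0 (um m k) G ∧
      HH (SP m M (3 * k + 1) (3 * k + 1)) G ≤ 2 * HH (SP m M (3 * k - 2) (3 * k + 1)) (VE E) := by
  obtain ⟨h1, h2, h3⟩ := SP_born hm hE hE'
  have hg : Grow (SP m M (3 * k + 1) (3 * k + 1)) (um m k + (-1, 1)) (um m (k - 1)) := SP_grow hm h1 h2
  have hi := SP_insert (m := m) (θ' := 3 * k + 1) h1 h2.le
  have hau : um m k + (-1, 1) + um m (k - 1) ≠ f0 + f0 := by
    intro e
    have h4 := congrArg lv e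
    rw [lv_add, (vals _).2.2.2.1, lv_um, lv_um, lv_add] at h4
    have h5 : lv f0 = 1 := by decide
    omega
  have hfull := SP_full m M (3 * k - 2) (3 * k + 1)
  rw [hi] at hE hfull ⊢
  obtain ⟨G, hG, hG'⟩ := born_a Fc_f0 (SP_full _ _ _ _) hfull SP_sym (SP_WB (by omega) (by omega)) hg hau hE hN h3
  refine ⟨G, ?_, hG'⟩
  have e : um m k + (-1, 1) + ((1, -1) : Pt) = um m k := by ext <;> simp
  rw [e] at hG
  exact hG

/-- polygons born at the bottom (after the rotation): the symmetric connected set. -/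
theorem born_bot_G (m M : ℕ) (hm : 1 ≤ m) (k : ℤ) {E : Finset (Pt × Pt)}
    (hE : E ∈ polys (SP m M (3 * k - 2) (3 * k - 2))) (hE' : E ∉ polys (SP m M (3 * k + 1) (3 * k - 2)))
    (hN : Nw E f0 ≠ 0) : ∃ G, SymConn (SP m M (3 * k - 2) (3 * k - 2)) f0 (um m (k - 1)) G ∧
      HH (SP m M (3 * k - 2) (3 * k - 2)) G ≤ 2 * HH (SP m M (3 * k - 2) (3 * k - 2)) (VE E) := by
  obtain ⟨_, _, h3⟩ := SP_born hm hE hE'
  obtain ⟨G, hG, hG'⟩ := born_b Fc_f0 (SP_full _ _ _ _) SP_sym (SP_WB (by omega) (by omega)) hE hN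
    (u := Rf f0 (um m (k - 1))) (by
      rw [Rf_Rf]
      exact h3)
  refine ⟨G, ⟨hG.sub, hG.sym, ?_, hG.con⟩, hG'⟩
  have h4 := hG.sym _ hG.mem
  rwa [Rf_Rf] at h4

/-- polygons born at the top. -/
theorem born_top (m : ℕ) (hm : 1 ≤ m) (F : Finset (List Bool)) (hF : ∀ t ∈ F, t ∈ Crw (2 * m + 1)) : ∃ A0 : ℕ,
    ∀ (M : ℕ) (k : ℤ), |k| + A0 ≤ M → ∀ E ∈ polys (SP m M (3 * k - 2) (3 * k + 1)),
      E ∉ polys (SP m M (3 * k + 1) (3 * k + 1)) → Nw E f0 ≠ 0 →
      ∑ t ∈ F, ct t * At t ≤ HH (SP m M (3 * k - 2) (3 * k + 1)) (VE E) := by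
  refine ⟨m + 2 * F.sup List.length + 4, ?_⟩
  intro M k hk E hE hE' hN
  obtain ⟨G, hG, h1⟩ := born_top_G m M hm k hE hE' hN
  have h2 : 2 * ∑ t ∈ F, ct t * At t ≤ HH (SP m M (3 * k + 1) (3 * k + 1)) G := by
    apply count_SP hm (by omega) hG.sub _ (lv_um m k) (by rw [nn_um]; ring) hG.mem _
      (SP_WB (by omega) (by omega)) (SP_WB (by omega) (by omega)) (L := F.sup List.length) _ F hF
      (fun t ht => Finset.le_sup (f := List.length) ht)
    · intro v hv
      rw [← Rf_f0]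
      exact hG.sym v hv
    · apply hG.con _ hG.mem
      rw [← Rf_f0]
      exact hG.sym _ hG.mem
    · have h3 : |3 * k + 1| ≤ 3 * |k| + 1 := by
        rcases abs_cases k with ⟨h4, _⟩ | ⟨h4, _⟩ <;> rcases abs_cases (3 * k + 1) with ⟨h5, _⟩ | ⟨h5, _⟩ <;> omega
      push_cast at hk ⊢
      omega
  linarith

/-- polygons born at the bottom (after the rotation). -/
theorem born_bot (m : ℕ) (hm : 1 ≤ m) (F : Finset (List Bool)) (hF : ∀ t ∈ F, t ∈ Crw (2 * m + 1)) : ∃ A0 : ℕ,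
    ∀ (M : ℕ) (k : ℤ), |k| + A0 ≤ M → ∀ E ∈ polys (SP m M (3 * k - 2) (3 * k - 2)),
      E ∉ polys (SP m M (3 * k + 1) (3 * k - 2)) → Nw E f0 ≠ 0 →
      ∑ t ∈ F, ct t * At t ≤ HH (SP m M (3 * k - 2) (3 * k - 2)) (VE E) := by
  refine ⟨m + 2 * F.sup List.length + 4, ?_⟩
  intro M k hk E hE hE' hN
  obtain ⟨G, hG, h1⟩ := born_bot_G m M hm k hE hE' hN
  have h2 : 2 * ∑ t ∈ F, ct t * At t ≤ HH (SP m M (3 * k - 2) (3 * k - 2)) G := by
    apply count_SP hm (by omega) hG.sub _ (lv_um m (k - 1)) (by rw [nn_um]; ring) hG.mem _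
      (SP_WB (by omega) (by omega)) (SP_WB (by omega) (by omega)) (L := F.sup List.length) _ F hF
      (fun t ht => Finset.le_sup (f := List.length) ht)
    · intro v hv
      rw [← Rf_f0]
      exact hG.sym v hv
    · apply hG.con _ hG.mem
      rw [← Rf_f0]
      exact hG.sym _ hG.mem
    · have h3 : |3 * k - 2| ≤ 3 * |k| + 2 := by
        rcases abs_cases k with ⟨h4, _⟩ | ⟨h4, _⟩ <;> rcases abs_cases (3 * k - 2) with ⟨h5, _⟩ | ⟨h5, _⟩ <;> omega
      push_cast at hk ⊢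
      omega
  linarith

end LP

end HexObs
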