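import Pool.Agent.HexLoop.Inside

/-!
LOOP, module L5: lollipops are sticks with a loop.
-/

set_option autoImplicit false

namespace HexObs

namespace LP

open Complex Finset

/-- the direction of return; the start itself may be visited. -/
theorem loop_dir0 {v0 d0 : Pt} {τ : ℕ → Bool} (h0 : d0 ∈ dirs) {j l : ℕ} (hj : 1 ≤ j) (hjl : j ≤ l)
    (hclosed : vs v0 d0 τ (l + 1) = vs v0 d0 τ j)
    (hd : ∀ i k, 1 ≤ i → i < k → k ≤ l → vs v0 d0 τ i ≠ vs v0 d0 τ k)
    (hne : ¬ (vs v0 d0 τ l = v0 ∧ ds d0 τ l = d0)) :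
    j + 1 < l ∧ - (ds d0 τ l) = turn (!(τ (j - 1))) (ds d0 τ (j - 1)) := by
  have hjl1 : j ≠ l := by
    rintro rfl
    rw [vs_succ] at hclosed
    have : ds d0 τ j = 0 := by simpa using hclosed
    have h1 := mem_dirs.1 (ds_mem h0 (τ := τ) j)
    rw [this] at h1
    simp [nrm] at h1
  have hjl2 : j + 1 ≠ l := by
    rintro rfl
    rw [vs_succ, vs_succ, add_assoc, ds_succ] at hclosed
    have : ds d0 τ j + turn (τ j) (ds d0 τ j) = 0 := by simpa using hclosed
    exact turn_ne_neg _ (ds_mem h0 j) _ this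
  refine ⟨by omega, ?_⟩
  obtain ⟨j', rfl⟩ : ∃ j', j = j' + 1 := ⟨j - 1, by omega⟩
  obtain ⟨l', rfl⟩ : ∃ l', l = l' + 1 := ⟨l - 1, by omega⟩
  rw [Nat.add_sub_cancel]
  obtain ⟨b, hb⟩ : ∃ b, b = τ j' := ⟨_, rfl⟩
  rw [← hb]
  obtain ⟨d, hdd⟩ : ∃ d, d = ds d0 τ j' := ⟨_, rfl⟩
  rw [← hdd]
  have hdm : d ∈ dirs := by
    rw [hdd]
    exact ds_mem h0 j'
  have hdj : ds d0 τ (j' + 1) = turn b d := by rw [ds_succ, hb, hdd]
  obtain ⟨e, he⟩ : ∃ e, e = ds d0 τ (l' + 1) := ⟨_, rfl⟩
  have hem : e ∈ dirs := by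
    rw [he]
    exact ds_mem h0 _
  have hcl : cl e = cl d := by
    have h1 := congrArg cl hclosed
    rw [cl_vs, cl_vs] at h1
    have hne := cl_dir_ne h0
    rw [he, hdd, cl_ds, cl_ds]
    by_cases ha : Even (l' + 1 + 1) <;> by_cases hb' : Even (j' + 1)
    · have e1 : ¬ Even (l' + 1) := by simpa [Nat.even_add_one] using ha
      have e2 : ¬ Even j' := by simpa [Nat.even_add_one] using hb'
      rw [if_neg e1, if_neg e2]
    · rw [if_pos ha, if_neg hb'] at h1
      exact absurd (by simpa using h1.symm) hne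
    · rw [if_neg ha, if_pos hb'] at h1
      exact absurd (by simpa using h1) hne
    · have e1 : Even (l' + 1) := by
        rw [Nat.even_add_one, not_not] at ha
        exact ha
      have e2 : Even j' := by
        rw [Nat.even_add_one, not_not] at hb'
        exact hb'
      rw [if_pos e1, if_pos e2]
  have hvl : vs v0 d0 τ (l' + 1) = vs v0 d0 τ (j' + 1) - e := by
    rw [eq_sub_iff_add_eq, he, ← vs_succ, hclosed]
  have hne1 : e ≠ d := by
    intro h
    have h2 : vs v0 d0 τ j' = vs v0 d0 τ (l' + 1) := by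
      rw [hvl, h, vs_succ, hdd]
      abel
    rcases Nat.eq_zero_or_pos j' with h3 | h3
    · apply hne
      rw [← h2, ← he, h, hdd, h3]
      exact ⟨rfl, rfl⟩
    · exact hd j' (l' + 1) h3 (by omega) le_rfl h2
  have hne2 : -e ≠ turn b d := by
    intro h
    apply hd (j' + 1 + 1) (l' + 1) (by omega) (by omega) le_rfl
    rw [hvl, vs_succ (j' + 1), hdj, ← h]
    abel
  have hee := check_return d hdm e hem b hcl hne1 hne2
  rw [← he, hee]
  exact neg_turn_turn d hdm b

lemma mem_stk {Ω : Finset Pt} {E : Finset (Pt × Pt)} {p : Pt × Pt} {s : List Bool} : s ∈ stk Ω E p ↔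
    Arr0 Ω p s ∧ (∀ i, 1 ≤ i → i ≤ s.length → vx p.1 p.2 s i ∉ VE E) ∧ tp p s ∈ VE E ∧
    le p s ∉ E ∧ rv (le p s) ∉ E := by
  unfold stk
  simp only [Finset.mem_filter, mem_arr0]

lemma mem_lol {Ω : Finset Pt} {p : Pt × Pt} {t : List Bool} : t ∈ lol Ω p ↔
    Arr0 Ω p t ∧ (∃ j, 1 ≤ j ∧ j ≤ t.length ∧ vx p.1 p.2 t j = tp p t) ∧ le p t ≠ p := by
  unfold lol
  simp only [Finset.mem_filter, mem_arr0]

lemma turn_not_neg : ∀ d ∈ dirs, ∀ b : Bool, turn (!b) (-(turn (!b) d)) = turn b d := by decide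

lemma turn_inj : ∀ d ∈ dirs, ∀ b c : Bool, turn b d = turn c d → b = c := by decide

/-- all edges of a walk are edges of the lattice. -/
lemma de_step : ∀ d ∈ dirs, ∀ b : Bool, cl (d + turn b d) = 0 := by decide

lemma de_turn {p : Pt × Pt} (hp : De p) (b : Bool) : De (p.1 + p.2, turn b p.2) := by
  obtain ⟨h1, h2, h3⟩ := hp
  refine ⟨?_, h3, ?_⟩
  · show turn b p.2 ∈ dirs
    rw [mem_dirs, nrm_turn]
    exact mem_dirs.1 h1
  · show Vt (p.1 + p.2 + turn b p.2)
    unfold Vt
    rw [add_assoc, cl_add, de_step _ h1 b, add_zero]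
    exact h2

lemma de_vs {v d : Pt} (h : De (v, d)) (τ : ℕ → Bool) (i : ℕ) : De (vs v d τ i, ds d τ i) := by
  induction i with
  | zero => exact h
  | succ i ih => exact de_turn ih (τ i)

/-- a direction out of the tip of an edge. -/
lemma de_out : ∀ d ∈ dirs, ∀ e ∈ dirs, cl e = - cl d → e = -d ∨ ∃ b, e = turn b d := by decide +kernel

lemma cl_of_de {p : Pt × Pt} (h : De p) : (cl p.1 = 0 ∧ cl p.2 = 2) ∨ (cl p.1 = 2 ∧ cl p.2 = 1) := by
  obtain ⟨h1, h2, h3⟩ := h
  have h4 := cl_dir_ne h1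
  unfold Vt at h2 h3
  rw [cl_add] at h3
  generalize cl p.1 = a at *
  generalize cl p.2 = b at *
  revert a b
  decide

/-- the periodic turns of the loop of a word. -/
def lt (t : List Bool) (j : ℕ) (i : ℕ) : Bool :=
  if i % (t.length + 1 - j) = t.length - j then !(tf t (j - 1)) else tf t (j + i % (t.length + 1 - j))

section
variable {Ω : Finset Pt} {p : Pt × Pt} {t : List Bool} {j : ℕ}

lemma lt_vs (hj : 1 ≤ j) (hjl : j ≤ t.length) (i : ℕ) (hi : i ≤ t.length + 1 - j) :
    vs (vx p.1 p.2 t j) (dx p.2 t j) (lt t j) i = vx p.1 p.2 t (j + i) := by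
  show _ = vs p.1 p.2 (tf t) (j + i)
  rw [vs_shift]
  apply vs_congr
  intro k hk
  unfold lt
  rw [Nat.mod_eq_of_lt (by omega), if_neg (by omega)]

lemma lt_ds (hj : 1 ≤ j) (hjl : j ≤ t.length) (i : ℕ) (hi : i ≤ t.length - j) :
    ds (dx p.2 t j) (lt t j) i = dx p.2 t (j + i) := by
  show _ = ds p.2 (tf t) (j + i)
  rw [ds_shift]
  apply ds_congr
  intro k hk
  unfold lt
  rw [Nat.mod_eq_of_lt (by omega), if_neg (by omega)]

/-- the loop of a lollipop. -/
lemma lol_poly (hp : De p) (h : Arr0 Ω p t) (hj : 1 ≤ j) (hjl : j ≤ t.length) (hv : vx p.1 p.2 t j = tp p t)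
    (hle : le p t ≠ p) : Poly (vx p.1 p.2 t j) (dx p.2 t j) (lt t j) (t.length + 1 - j) := by
  have hld := loop_dir0 (v0 := p.1) (τ := tf t) hp.1 hj hjl hv.symm (fun i k h1 h2 h3 => h.inj i k h1 h2 h3)
    (fun h1 => hle (Prod.ext h1.1 h1.2))
  refine ⟨by omega, de_vs (v := p.1) hp (tf t) j, ?_, ?_, ?_, ?_⟩
  · intro i
    unfold lt
    rw [Nat.add_mod_right]
  · rw [lt_vs hj hjl _ le_rfl]
    have e : j + (t.length + 1 - j) = t.length + 1 := by omega
    rw [e]
    exact hv.symm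
  · obtain ⟨m, hm⟩ : ∃ m, t.length + 1 - j = m + 1 := ⟨t.length - j, by omega⟩
    rw [hm, ds_succ, lt_ds hj hjl m (by omega)]
    have e1 : j + m = t.length := by omega
    have e2 : lt t j m = !(tf t (j - 1)) := by
      unfold lt
      rw [Nat.mod_eq_of_lt (by omega), if_pos (by omega)]
    rw [e1, e2]
    have h3 : -(dx p.2 t t.length) = turn (!(tf t (j - 1))) (dx p.2 t (j - 1)) := hld.2
    have h4 : dx p.2 t t.length = -(turn (!(tf t (j - 1))) (dx p.2 t (j - 1))) := by
      rw [← h3, neg_neg]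
    have h5 := turn_not_neg (dx p.2 t (j - 1)) (ds_mem (τ := tf t) hp.1 (j - 1)) (tf t (j - 1))
    rw [h4, h5]
    obtain ⟨j', rfl⟩ : ∃ j', j = j' + 1 := ⟨j - 1, by omega⟩
    rfl
  · intro i k hik hk
    rw [lt_vs hj hjl i (by omega), lt_vs hj hjl k (by omega)]
    exact h.inj _ _ (by omega) (by omega) (by omega)

lemma lol_pe (hj : 1 ≤ j) (hjl : j ≤ t.length) :
    pe (vx p.1 p.2 t j) (dx p.2 t j) (lt t j) (t.length + 1 - j) =
      (Finset.Icc j t.length).image (fun i => (vx p.1 p.2 t i, dx p.2 t i)) := by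
  ext q
  unfold pe
  rw [Finset.mem_image, Finset.mem_image]
  constructor
  · rintro ⟨i, hi, rfl⟩
    rw [mem_range] at hi
    refine ⟨j + i, by rw [Finset.mem_Icc]; omega, ?_⟩
    unfold eg
    rw [lt_vs hj hjl i (by omega), lt_ds hj hjl i (by omega)]
  · rintro ⟨i, hi, rfl⟩
    rw [Finset.mem_Icc] at hi
    refine ⟨i - j, by rw [mem_range]; omega, ?_⟩
    unfold eg
    rw [lt_vs hj hjl _ (by omega), lt_ds hj hjl _ (by omega), Nat.add_sub_cancel' hi.1]

/-- part A: every lollipop has a stick and a loop. -/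
lemma lol_split (hp : De p) (ht : t ∈ lol Ω p) : ∃ E s, E ∈ polys Ω ∧ s ∈ stk Ω E p ∧ IsLol E p s t := by
  rw [mem_lol] at ht
  obtain ⟨h, ⟨j, hj, hjl, hv⟩, hle⟩ := ht
  have hP := lol_poly hp h hj hjl hv hle
  obtain ⟨E, hEd⟩ : ∃ E, E = (Finset.Icc j t.length).image (fun i => (vx p.1 p.2 t i, dx p.2 t i)) := ⟨_, rfl⟩
  have hpe : E = pe (vx p.1 p.2 t j) (dx p.2 t j) (lt t j) (t.length + 1 - j) := by
    rw [hEd, lol_pe hj hjl]
  have hE : IsPoly E := ⟨_, _, _, _, hP, hpe⟩
  have hVE : ∀ w, w ∈ VE E ↔ ∃ i, j ≤ i ∧ i ≤ t.length ∧ vx p.1 p.2 t i = w := by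
    intro w
    unfold VE
    rw [hEd, Finset.mem_image]
    constructor
    · rintro ⟨q, hq, rfl⟩
      rw [Finset.mem_image] at hq
      obtain ⟨i, hi, rfl⟩ := hq
      rw [Finset.mem_Icc] at hi
      exact ⟨i, hi.1, hi.2, rfl⟩
    · rintro ⟨i, h1, h2, rfl⟩
      exact ⟨(vx p.1 p.2 t i, dx p.2 t i), Finset.mem_image.2 ⟨i, Finset.mem_Icc.2 ⟨h1, h2⟩, rfl⟩, rfl⟩
  have hsub : VE E ⊆ Ω := by
    intro w hw
    obtain ⟨i, h1, h2, rfl⟩ := (hVE w).1 hw
    exact h.mem i (by omega) h2
  obtain ⟨s, hs⟩ : ∃ s, s = t.take (j - 1) := ⟨_, rfl⟩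
  have hsl : s.length = j - 1 := by
    rw [hs, List.length_take]
    omega
  have htf : ∀ i, i < j - 1 → tf s i = tf t i := by
    intro i hi
    have e : t = s ++ t.drop (j - 1) := by rw [hs, List.take_append_drop]
    rw [e, tf_append_left (by omega)]
  have hvx : ∀ i, i ≤ j → vx p.1 p.2 s i = vx p.1 p.2 t i := fun i hi =>
    vs_congr i (fun k hk => htf k (by omega))
  have hdx : ∀ i, i ≤ j - 1 → dx p.2 s i = dx p.2 t i := fun i hi =>
    ds_congr i (fun k hk => htf k (by omega))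
  have htps : tp p s = vx p.1 p.2 t j := by
    show vx p.1 p.2 s (s.length + 1) = _
    rw [hsl, hvx _ (by omega), Nat.sub_add_cancel hj]
  have hles : le p s = (vx p.1 p.2 t (j - 1), dx p.2 t (j - 1)) := by
    unfold le
    rw [hsl, hvx _ (by omega), hdx _ le_rfl]
  refine ⟨E, s, mem_polys.2 ⟨hE, hsub⟩, ?_, ?_, ?_, ?_, ?_⟩
  · rw [mem_stk]
    refine ⟨⟨?_, ?_⟩, ?_, ?_, ?_, ?_⟩
    · intro i h1 h2
      rw [hvx i (by omega)]
      exact h.mem i h1 (by omega)
    · intro i k h1 h2 h3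
      rw [hvx i (by omega), hvx k (by omega)]
      exact h.inj i k h1 h2 (by omega)
    · intro i h1 h2 h3
      rw [hvx i (by omega)] at h3
      obtain ⟨k, k1, k2, k3⟩ := (hVE _).1 h3
      exact h.inj i k h1 (by omega) k2 k3.symm
    · rw [htps, hVE]
      exact ⟨j, le_rfl, hjl, rfl⟩
    · rw [hles, hEd, Finset.mem_image]
      rintro ⟨i, hi, hi2⟩
      rw [Finset.mem_Icc] at hi
      have e1 : vx p.1 p.2 t i = vx p.1 p.2 t (j - 1) := congrArg Prod.fst hi2
      have e2 : dx p.2 t i = dx p.2 t (j - 1) := congrArg Prod.snd hi2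
      rcases Nat.lt_or_ge 1 j with h1 | h1
      · exact h.inj (j - 1) i (by omega) (by omega) hi.2 e1.symm
      · have hj1 : j = 1 := by omega
        subst hj1
        have e3 : vx p.1 p.2 t (i + 1) = vx p.1 p.2 t 1 := by
          show vx p.1 p.2 t i + dx p.2 t i = vx p.1 p.2 t 0 + dx p.2 t 0
          rw [e1, e2]
        rcases Nat.lt_or_ge i t.length with h2 | h2
        · exact h.inj 1 (i + 1) le_rfl (by omega) (by omega) e3.symm
        · have h3 : i = t.length := by omega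
          apply hle
          unfold le
          rw [← h3, e1, e2]
          rfl
    · rw [hles, hEd, Finset.mem_image]
      rintro ⟨i, hi, hi2⟩
      rw [Finset.mem_Icc] at hi
      have e1 : vx p.1 p.2 t i = vx p.1 p.2 t (j - 1) + dx p.2 t (j - 1) := congrArg Prod.fst hi2
      have e2 : dx p.2 t i = -(dx p.2 t (j - 1)) := congrArg Prod.snd hi2
      have e3 : vx p.1 p.2 t (j - 1) + dx p.2 t (j - 1) = vx p.1 p.2 t j := by
        show vx p.1 p.2 t ((j - 1) + 1) = _
        rw [Nat.sub_add_cancel hj]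
      rw [e3] at e1
      have e4 : i = j := by
        by_contra hne
        exact h.inj j i hj (by omega) hi.2 e1.symm
      rw [e4] at e2
      obtain ⟨j', rfl⟩ : ∃ j', j = j' + 1 := ⟨j - 1, by omega⟩
      rw [Nat.add_sub_cancel] at e2
      have e5 : dx p.2 t (j' + 1) = turn (tf t j') (dx p.2 t j') := rfl
      rw [e5] at e2
      apply turn_ne_neg _ (ds_mem (τ := tf t) hp.1 j') (tf t j')
      show dx p.2 t j' + turn (tf t j') (dx p.2 t j') = 0
      rw [e2]
      abel
  · rw [hsl, hpe, pe_card hP]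
    omega
  · rw [hsl, hs]
  · rw [hsl, Nat.sub_add_cancel hj]
    exact hEd
  · rw [hsl, Nat.sub_add_cancel hj]
    exact hv

end

section
variable {Ω : Finset Pt} {E : Finset (Pt × Pt)} {p : Pt × Pt} {s t : List Bool}

/-- part B: a stick and a loop give a lollipop. -/
lemma lol_join (hp : De p) (hE : E ∈ polys Ω) (hs : s ∈ stk Ω E p) : ∃ t, t ∈ lol Ω p ∧ IsLol E p s t := by
  obtain ⟨hEp, hsub⟩ := mem_polys.1 hE
  rw [mem_stk] at hs
  obtain ⟨hA, hav, htip, hl1, hl2⟩ := hs
  -- the root at the tip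
  have htip2 := htip
  unfold VE at htip2
  rw [Finset.mem_image] at htip2
  obtain ⟨⟨v, d⟩, hq, hv⟩ := htip2
  have hv' : v = tp p s := hv
  obtain ⟨τ, m, hP, hpe⟩ := root_at hEp hq
  have hP' : Poly v d τ m := hP
  have hpe' : E = pe v d τ m := hpe
  have hm3 := poly_len hP'
  obtain ⟨d', hd'⟩ : ∃ d', d' = dx p.2 s s.length := ⟨_, rfl⟩
  have hDl : De (vx p.1 p.2 s s.length, dx p.2 s s.length) := de_vs (v := p.1) hp (tf s) s.length
  have hd'm : d' ∈ dirs := by
    rw [hd']
    exact hDl.1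
  have hvtip : v = vx p.1 p.2 s s.length + d' := by
    rw [hv', hd']
    rfl
  -- the first turn
  have hb : ∃ b, d = turn b d' := by
    have h1 := cl_of_de hDl
    have h2 := cl_of_de hP'.de
    simp only [] at h1 h2
    rw [← hd'] at h1
    have h3 : cl v = cl (vx p.1 p.2 s s.length) + cl d' := by rw [hvtip, cl_add]
    have h4 : cl d = - cl d' := by
      rcases h1 with ⟨a1, a2⟩ | ⟨a1, a2⟩ <;> rcases h2 with ⟨b1, b2⟩ | ⟨b1, b2⟩ <;> rw [a1, a2, b1] at h3 <;>
        rw [a2, b2] <;> revert h3 <;> decide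
    rcases de_out d' hd'm d hP'.de.1 h4 with h5 | h5
    · exfalso
      apply hl2
      have : rv (le p s) = (v, d) := by
        unfold rv le
        rw [h5, hd', hv']
        rfl
      rw [this]
      exact hq
    · exact h5
  obtain ⟨b, hb⟩ := hb
  obtain ⟨u, hu⟩ : ∃ u : List Bool, u = (List.range (m - 1)).map τ := ⟨_, rfl⟩
  have hul : u.length = m - 1 := by
    rw [hu]
    simp
  obtain ⟨t, ht⟩ : ∃ t, t = s ++ (b :: u) := ⟨_, rfl⟩
  have htl : t.length = s.length + m := by
    rw [ht, List.length_append, List.length_cons, hul]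
    omega
  have hvx : ∀ i, i ≤ s.length + 1 → vx p.1 p.2 t i = vx p.1 p.2 s i := by
    intro i hi
    rw [ht]
    exact vx_append hi
  have hdx : ∀ i, i ≤ s.length → dx p.2 t i = dx p.2 s i := by
    intro i hi
    rw [ht]
    exact dx_append hi
  have htfb : tf t s.length = b := by
    rw [ht]
    have := tf_append_right (t := s) (s := b :: u) 0
    rw [add_zero] at this
    rw [this]
    rfl
  have htfu : ∀ k, k < m - 1 → tf t (s.length + 1 + k) = τ k := by
    intro k hk
    rw [ht]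
    have := tf_append_right (t := s) (s := b :: u) (k + 1)
    rw [show s.length + 1 + k = s.length + (k + 1) by omega, this]
    show (b :: u).getD (k + 1) true = τ k
    rw [List.getD_cons_succ, hu, List.getD_eq_getElem _ _ (by simpa using hk)]
    simp
  have hd1 : dx p.2 t (s.length + 1) = d := by
    show turn (tf t s.length) (dx p.2 t s.length) = d
    rw [htfb, hdx _ le_rfl, ← hd', hb]
  have hv1 : vx p.1 p.2 t (s.length + 1) = v := by
    rw [hvx _ le_rfl, hv']
    rfl
  have hV : ∀ i, i ≤ m → vx p.1 p.2 t (s.length + 1 + i) = vs v d τ i := by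
    intro i hi
    show vs p.1 p.2 (tf t) (s.length + 1 + i) = _
    rw [vs_shift]
    have e1 : vs p.1 p.2 (tf t) (s.length + 1) = v := hv1
    have e2 : ds p.2 (tf t) (s.length + 1) = d := hd1
    rw [e1, e2]
    exact vs_congr i (fun k hk => htfu k (by omega))
  have hD : ∀ i, i < m → dx p.2 t (s.length + 1 + i) = ds d τ i := by
    intro i hi
    show ds p.2 (tf t) (s.length + 1 + i) = _
    rw [ds_shift]
    have e2 : ds p.2 (tf t) (s.length + 1) = d := hd1
    rw [e2]
    exact ds_congr i (fun k hk => htfu k (by omega))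
  have hmem : ∀ i, i < m → (vs v d τ i, ds d τ i) ∈ E := by
    intro i hi
    rw [hpe']
    exact Finset.mem_image.2 ⟨i, mem_range.2 hi, rfl⟩
  have hVE : ∀ i, i < m → vs v d τ i ∈ VE E := fun i hi => Finset.mem_image.2 ⟨_, hmem i hi, rfl⟩
  have htt : tp p t = v := by
    show vx p.1 p.2 t (t.length + 1) = v
    rw [htl, show s.length + m + 1 = s.length + 1 + m by omega, hV m le_rfl]
    exact hP'.clv
  have hArr : Arr0 Ω p t := by
    constructor
    · intro i h1 h2
      rcases Nat.lt_or_ge s.length i with h3 | h3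
      · obtain ⟨k, rfl⟩ : ∃ k, i = s.length + 1 + k := ⟨i - (s.length + 1), by omega⟩
        rw [hV k (by omega)]
        exact hsub (hVE k (by omega))
      · rw [hvx i (by omega)]
        exact hA.mem i h1 h3
    · intro i k h1 h2 h3
      rcases Nat.lt_or_ge s.length i with h4 | h4
      · obtain ⟨i', rfl⟩ : ∃ k, i = s.length + 1 + k := ⟨i - (s.length + 1), by omega⟩
        obtain ⟨k', rfl⟩ : ∃ l, k = s.length + 1 + l := ⟨k - (s.length + 1), by omega⟩
        rw [hV i' (by omega), hV k' (by omega)]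
        exact hP'.inj _ _ (by omega) (by omega)
      · rw [hvx i (by omega)]
        rcases Nat.lt_or_ge s.length k with h5 | h5
        · obtain ⟨k', rfl⟩ : ∃ l, k = s.length + 1 + l := ⟨k - (s.length + 1), by omega⟩
          rw [hV k' (by omega)]
          intro h6
          apply hav i h1 h4
          rw [h6]
          exact hVE k' (by omega)
        · rw [hvx k (by omega)]
          exact hA.inj i k h1 h2 h5
  have hle : le p t ∈ E := by
    unfold le
    rw [htl, show s.length + m = s.length + 1 + (m - 1) by omega, hV _ (by omega), hD _ (by omega)]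
    exact hmem _ (by omega)
  refine ⟨t, ?_, ?_, ?_, ?_, ?_⟩
  · rw [mem_lol]
    refine ⟨hArr, ⟨s.length + 1, by omega, by omega, by rw [hv1, htt]⟩, ?_⟩
    intro h1
    rw [h1] at hle
    rcases Nat.eq_zero_or_pos s.length with h2 | h2
    · apply hl1
      have : le p s = p := by
        unfold le
        rw [h2]
        rfl
      rw [this]
      exact hle
    · obtain ⟨c, hc⟩ := isPoly_next hEp hle
      apply hav 1 le_rfl h2
      exact Finset.mem_image.2 ⟨_, hc, rfl⟩
  · rw [hpe', pe_card hP', htl]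
  · rw [ht, List.take_left']
    rfl
  · rw [hpe', htl]
    ext q
    unfold pe
    rw [Finset.mem_image, Finset.mem_image]
    constructor
    · rintro ⟨i, hi, rfl⟩
      rw [mem_range] at hi
      refine ⟨s.length + 1 + i, by rw [Finset.mem_Icc]; omega, ?_⟩
      unfold eg
      rw [hV i (by omega), hD i hi]
    · rintro ⟨i, hi, rfl⟩
      rw [Finset.mem_Icc] at hi
      refine ⟨i - (s.length + 1), by rw [mem_range]; omega, ?_⟩
      unfold eg
      rw [← hV _ (by omega), ← hD _ (by omega), Nat.add_sub_cancel' hi.1]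
  · rw [hv1, htt]

/-- part C: the lollipop is determined. -/
lemma lol_unique (hp : De p) (hE : IsPoly E) {t t' : List Bool} (h : IsLol E p s t) (h' : IsLol E p s t') : t = t' := by
  obtain ⟨a1, a2, a3, a4⟩ := h
  obtain ⟨b1, b2, b3, b4⟩ := h'
  have hl : t.length = t'.length := by omega
  have hst : s.length ≤ t.length := by omega
  have key0 : ∀ i, i < s.length → tf t i = tf t' i := by
    intro i hi
    have e1 : t = s ++ t.drop s.length := by
      conv_lhs => rw [← List.take_append_drop s.length t, a2]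
    have e2 : t' = s ++ t'.drop s.length := by
      conv_lhs => rw [← List.take_append_drop s.length t', b2]
    rw [e1, e2, tf_append_left hi, tf_append_left hi]
  have hmem : ∀ i, s.length + 1 ≤ i → i ≤ t.length → (vx p.1 p.2 t i, dx p.2 t i) ∈ E := by
    intro i h1 h2
    rw [a3]
    exact Finset.mem_image.2 ⟨i, Finset.mem_Icc.2 ⟨h1, h2⟩, rfl⟩
  have hmem' : ∀ i, s.length + 1 ≤ i → i ≤ t'.length → (vx p.1 p.2 t' i, dx p.2 t' i) ∈ E := by
    intro i h1 h2
    rw [b3]
    exact Finset.mem_image.2 ⟨i, Finset.mem_Icc.2 ⟨h1, h2⟩, rfl⟩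
  have key1 : vx p.1 p.2 t (s.length + 1) = vx p.1 p.2 t' (s.length + 1) :=
    vs_congr _ (fun k hk => key0 k (by omega))
  have key2 : ∀ i, s.length + 1 + i ≤ t.length → vx p.1 p.2 t (s.length + 1 + i) = vx p.1 p.2 t' (s.length + 1 + i) ∧
      dx p.2 t (s.length + 1 + i) = dx p.2 t' (s.length + 1 + i) := by
    intro i
    induction i with
    | zero =>
      intro hi
      refine ⟨key1, ?_⟩
      have h1 := hmem (s.length + 1) le_rfl (by omega)
      have h2 := hmem' (s.length + 1) le_rfl (by omega)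
      rw [← key1] at h2
      exact isPoly_fun hE h1 h2
    | succ i ih =>
      intro hi
      obtain ⟨h1, h2⟩ := ih (by omega)
      have h3 : vx p.1 p.2 t (s.length + 1 + (i + 1)) = vx p.1 p.2 t' (s.length + 1 + (i + 1)) := by
        show vx p.1 p.2 t (s.length + 1 + i) + dx p.2 t (s.length + 1 + i) =
          vx p.1 p.2 t' (s.length + 1 + i) + dx p.2 t' (s.length + 1 + i)
        rw [h1, h2]
      refine ⟨h3, ?_⟩
      have h4 := hmem (s.length + 1 + (i + 1)) (by omega) hi
      have h5 := hmem' (s.length + 1 + (i + 1)) (by omega) (by omega)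
      rw [← h3] at h5
      exact isPoly_fun hE h4 h5
  have key3 : dx p.2 t s.length = dx p.2 t' s.length := ds_congr _ (fun k hk => key0 k hk)
  have key4 : ∀ i, s.length ≤ i → i ≤ t.length → dx p.2 t i = dx p.2 t' i := by
    intro i h1 h2
    rcases Nat.lt_or_ge s.length i with h3 | h3
    · obtain ⟨k, rfl⟩ : ∃ k, i = s.length + 1 + k := ⟨i - (s.length + 1), by omega⟩
      exact (key2 k h2).2
    · have : i = s.length := by omega
      rw [this]
      exact key3
  apply tf_ext hl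
  intro i hi
  rcases Nat.lt_or_ge i s.length with h1 | h1
  · exact key0 i h1
  · have h2 := key4 i h1 hi.le
    have h3 := key4 (i + 1) (by omega) hi
    have h4 : turn (tf t i) (dx p.2 t i) = turn (tf t' i) (dx p.2 t' i) := h3
    rw [← h2] at h4
    exact turn_inj _ (ds_mem (τ := tf t) hp.1 i) _ _ h4

/-- lollipops are sticks with a loop. -/
theorem lolli {Ω : Finset Pt} {p : Pt × Pt} (hΩ : ∀ v ∈ Ω, Vt v) (hp : De p) (F : List Bool → ℂ)
    (G : Finset (Pt × Pt) → List Bool → ℂ)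
    (h : ∀ E s t, E ∈ polys Ω → s ∈ stk Ω E p → IsLol E p s t → F t = G E s) :
    ∑ t ∈ lol Ω p, F t = ∑ E ∈ polys Ω, ∑ s ∈ stk Ω E p, G E s := by
  classical
  rw [Finset.sum_sigma']
  symm
  have hch : ∀ x ∈ (polys Ω).sigma (fun E => stk Ω E p), ∃ t, t ∈ lol Ω p ∧ IsLol x.1 p x.2 t := by
    rintro ⟨E, s⟩ hx
    rw [Finset.mem_sigma] at hx
    exact lol_join hp hx.1 hx.2
  choose! f hf1 hf2 using hch
  refine Finset.sum_bij (fun x _ => f x) (fun x hx => hf1 x hx) ?_ ?_ ?_
  · intro x hx y hy hxy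
    have h1 := hf2 x hx
    have h2 := hf2 y hy
    have h3 := hf1 x hx
    rw [hxy] at h1 h3
    rw [Finset.mem_sigma] at hx hy
    obtain ⟨E, s⟩ := x
    obtain ⟨E', s'⟩ := y
    obtain ⟨a1, a2, a3, a4⟩ := h1
    obtain ⟨b1, b2, b3, b4⟩ := h2
    simp only [] at a1 a2 a3 a4 b1 b2 b3 b4
    generalize f ⟨E', s'⟩ = t at *
    rw [mem_lol] at h3
    have hc : ∀ X : Finset (Pt × Pt), X ∈ polys Ω → 1 ≤ X.card := by
      intro X hX
      obtain ⟨⟨v, d, τ, m, hP, he⟩, _⟩ := mem_polys.1 hX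
      rw [he, pe_card hP]
      exact hP.pos
    have hc1 := hc E hx.1
    have hc2 := hc E' hy.1
    have e : s.length = s'.length := by
      rcases lt_trichotomy s.length s'.length with h4 | h4 | h4
      · exact absurd (a4.trans b4.symm) (h3.1.inj _ _ (by omega) (by omega) (by omega))
      · exact h4
      · exact absurd (b4.trans a4.symm) (h3.1.inj _ _ (by omega) (by omega) (by omega))
    rw [e] at a2 a3
    have e2 : s = s' := a2.symm.trans b2
    have e3 : E = E' := a3.trans b3.symm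
    subst e2
    subst e3
    rfl
  · intro t ht
    obtain ⟨E, s, h1, h2, h3⟩ := lol_split hp ht
    have hx : (⟨E, s⟩ : (_ : Finset (Pt × Pt)) × List Bool) ∈ (polys Ω).sigma (fun E => stk Ω E p) :=
      Finset.mem_sigma.2 ⟨h1, h2⟩
    exact ⟨⟨E, s⟩, hx, lol_unique hp (mem_polys.1 h1).1 (hf2 _ hx) h3⟩
  · intro x hx
    have h1 := hf1 x hx
    have h2 := hf2 x hx
    rw [Finset.mem_sigma] at hx
    exact (h x.1 x.2 (f x) hx.1 hx.2 h2).symm

end

end LP

end HexObs
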