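import Pool.Agent.HexLoop.Phase
import Pool.Agent.HexLoop.Lolli
import Pool.Agent.HexLoop.Words0
import Pool.Agent.HexLoop.Inside

/-!
LOOP, module L7: the bulk relation; walks that start outside of a full domain.
-/

set_option autoImplicit false

namespace HexObs

namespace LP

open Complex Finset


section L7

private lemma L7_rv_rv (p : Pt × Pt) : rv (rv p) = p := by
  unfold rv
  ext <;> simp

/-- the outside sticks. -/
private noncomputable def L7_out (Ω : Finset Pt) (E : Finset (Pt × Pt)) (p : Pt × Pt) : ℂ := by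
  classical
  exact ∑ s ∈ (stk Ω E p).filter (fun s => ¬ EIn E (le p s)), wt s

private lemma L7_mem_stk {Ω : Finset Pt} {E : Finset (Pt × Pt)} {p : Pt × Pt} {s : List Bool} :
    s ∈ stk Ω E p ↔ Arr0 Ω p s ∧ (∀ i, 1 ≤ i → i ≤ s.length → vx p.1 p.2 s i ∉ VE E) ∧ tp p s ∈ VE E ∧
      le p s ∉ E ∧ rv (le p s) ∉ E := by
  unfold stk
  simp only [Finset.mem_filter, mem_arr0]

private lemma L7_stk_rE {Ω : Finset Pt} {E : Finset (Pt × Pt)} (hE : IsPoly E) (p : Pt × Pt) :
    stk Ω (rE E) p = stk Ω E p := by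
  ext s
  rw [L7_mem_stk, L7_mem_stk, VE_rE hE, mem_rE, mem_rE, L7_rv_rv]
  tauto

private lemma L7_out_rE {Ω : Finset Pt} {E : Finset (Pt × Pt)} (hE : IsPoly E) (p : Pt × Pt) :
    L7_out Ω (rE E) p = L7_out Ω E p := by
  classical
  unfold L7_out
  rw [L7_stk_rE hE]
  apply Finset.sum_congr
  · apply Finset.filter_congr
    intro s _
    rw [eIn_rE hE]
  · intro s _
    rfl

private lemma L7_sum_ph {Ω : Finset Pt} {E : Finset (Pt × Pt)} {p : Pt × Pt} :
    ∑ s ∈ stk Ω E p, (xc : ℂ) ^ E.card * wt s * ph E (le p s) =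
      -((xc : ℂ) ^ E.card * Sin Ω E p) + (xc : ℂ) ^ E.card * (I * (sg E : ℂ)) * L7_out Ω E p := by
  classical
  unfold Sin L7_out
  rw [← Finset.sum_filter_add_sum_filter_not (stk Ω E p) (fun s => EIn E (le p s)),
    Finset.mul_sum, Finset.mul_sum, ← Finset.sum_neg_distrib]
  congr 1
  · apply Finset.sum_congr
    · ext s
      simp only [Finset.mem_filter]
    · intro s hs
      rw [Finset.mem_filter] at hs
      have e : ph E (le p s) = -1 := by
        unfold ph
        rw [if_pos hs.2]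
      rw [e]
      ring
  · apply Finset.sum_congr
    · ext s
      simp only [Finset.mem_filter]
    · intro s hs
      rw [Finset.mem_filter] at hs
      have e : ph E (le p s) = I * (sg E : ℂ) := by
        unfold ph
        rw [if_neg hs.2]
      rw [e]
      ring

private lemma L7_cancel (Ω : Finset Pt) (p : Pt × Pt) :
    ∑ E ∈ polys Ω, (xc : ℂ) ^ E.card * (I * (sg E : ℂ)) * L7_out Ω E p = 0 := by
  have h1 : ∑ E ∈ polys Ω, (xc : ℂ) ^ E.card * (I * (sg E : ℂ)) * L7_out Ω E p =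
      ∑ E ∈ polys Ω, -((xc : ℂ) ^ E.card * (I * (sg E : ℂ)) * L7_out Ω E p) := by
    apply Finset.sum_nbij' rE rE
    · intro E hE
      rw [mem_polys] at hE ⊢
      exact ⟨isPoly_rE hE.1, by rw [VE_rE hE.1]; exact hE.2⟩
    · intro E hE
      rw [mem_polys] at hE ⊢
      exact ⟨isPoly_rE hE.1, by rw [VE_rE hE.1]; exact hE.2⟩
    · intro E _
      exact rE_rE E
    · intro E _
      exact rE_rE E
    · intro E hE
      rw [mem_polys] at hE
      rw [card_rE, sg_rE hE.1, L7_out_rE hE.1]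
      push_cast
      ring
  rw [Finset.sum_neg_distrib] at h1
  linear_combination (1 / 2 : ℂ) * h1

/-- the bulk relation. -/
theorem bulk {Ω : Finset Pt} {p : Pt × Pt} (hΩ : ∀ v ∈ Ω, Vt v) (hp : De p) :
    SS Ω p = 1 - ∑ E ∈ thr Ω p, (xc : ℂ) ^ E.card * e6 E + ∑ E ∈ polys Ω, (xc : ℂ) ^ E.card * Sin Ω E p := by
  have h1 := sum_wt Ω p
  have h2 := lolli (Ω := Ω) (p := p) hΩ hp (fun t => wt t)
    (fun E s => (xc : ℂ) ^ E.card * wt s * ph E (le p s)) (fun E s t hE hs ht => lol_wt hp hE hs ht)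
  have h3 := clo_sum hΩ hp
  have h4 : ∑ E ∈ polys Ω, ∑ s ∈ stk Ω E p, (xc : ℂ) ^ E.card * wt s * ph E (le p s) =
      -∑ E ∈ polys Ω, (xc : ℂ) ^ E.card * Sin Ω E p := by
    rw [Finset.sum_congr rfl (fun E _ => L7_sum_ph), Finset.sum_add_distrib, L7_cancel, add_zero,
      Finset.sum_neg_distrib]
  rw [h4] at h2
  rw [h2, h3] at h1
  linear_combination h1

private lemma L7_de {p : Pt × Pt} (hp : De p) (t : List Bool) (i : ℕ) : De (vx p.1 p.2 t i, dx p.2 t i) := by
  obtain ⟨h1, h2, h3⟩ := hp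
  have key : ∀ k, Vt (vx p.1 p.2 t k) := by
    intro k
    unfold Vt at *
    unfold vx
    rw [cl_vs]
    split_ifs
    · exact h2
    · rw [← cl_add]
      exact h3
  refine ⟨ds_mem h1 i, key i, ?_⟩
  exact key (i + 1)

private lemma L7_stick {Ω Ω' : Finset Pt} (hΩ : Full Ω) (h : Ω' ⊆ Ω) {a : Pt × Pt} (ha : De a) (h1 : a.1 ∉ Ω)
    {E : Finset (Pt × Pt)} (hE : E ∈ polys Ω') {s : List Bool} (hs : s ∈ stk Ω' E a) : ¬ EIn E (le a s) := by
  classical
  rw [mem_polys] at hE
  obtain ⟨h2, h3, h4, h5, h6⟩ := L7_mem_stk.1 hs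
  have hV : ∀ i, i ≤ s.length → vx a.1 a.2 s i ∉ VE E := by
    intro i hi
    rcases Nat.eq_zero_or_pos i with rfl | h0
    · intro hc
      exact h1 (h (hE.2 hc))
    · exact h3 i h0 hi
  intro hin
  have h7 : Ins E (vx a.1 a.2 s s.length) :=
    (ins_edge hE.1 (L7_de ha s s.length) (hV _ le_rfl)).2 hin
  have h8 : ∀ j, j ≤ s.length → Ins E (vx a.1 a.2 s (s.length - j)) := by
    intro j
    induction j with
    | zero =>
      intro _
      exact h7
    | succ j ih =>
      intro hj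
      have h9 := ih (by omega)
      have e : s.length - j = (s.length - (j + 1)) + 1 := by omega
      rw [e] at h9
      exact (ins_adj hE.1 (L7_de ha s (s.length - (j + 1))) (hV _ (by omega))
        (hV (s.length - (j + 1) + 1) (by omega))).2 h9
  have h10 := h8 s.length le_rfl
  rw [Nat.sub_self] at h10
  exact h1 (hΩ.2 E hE.1 (hE.2.trans h) _ h10)

/-- walks that start outside of a full domain. -/
theorem start_one {Ω Ω' : Finset Pt} (hΩ : Full Ω) (h : Ω' ⊆ Ω) {a : Pt × Pt} (ha : De a) (h1 : a.1 ∉ Ω) :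
    SS Ω' a = 1 := by
  classical
  rw [bulk (fun v hv => hΩ.1 v (h hv)) ha]
  have h2 : thr Ω' a = ∅ := by
    apply Finset.eq_empty_of_forall_notMem
    intro E hE
    unfold thr at hE
    rw [Finset.mem_filter, mem_polys] at hE
    exact h1 (h (hE.1.2 (Finset.mem_image_of_mem _ hE.2)))
  have h3 : ∑ E ∈ polys Ω', (xc : ℂ) ^ E.card * Sin Ω' E a = 0 := by
    apply Finset.sum_eq_zero
    intro E hE
    have h4 : Sin Ω' E a = 0 := by
      unfold Sin
      apply Finset.sum_eq_zero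
      intro s hs
      rw [Finset.mem_filter] at hs
      exact absurd hs.2 (L7_stick hΩ h ha h1 hE hs.1)
    rw [h4, mul_zero]
  rw [h2, h3, Finset.sum_empty]
  ring

end L7

end LP

end HexObs
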