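import Pool.Agent.HexLoop.RevW

/-!
SD7 (counting), part 0: coordinates, mirror images and rotations of words.
-/

set_option autoImplicit false

namespace HexObs

namespace LP

open Complex Finset

/-- the real weight -/
noncomputable def cw (t : List Bool) : ℝ := Real.cos (wind t * (Real.pi / 8)) * xc ^ t.length

/-- the mirror image of a word -/
def mir (t : List Bool) : List Bool := t.map not

/-- the mirror image of a point -/
def sg1 (p : Pt) : Pt := (-p.1, p.1 + p.2)

theorem Vt_iff (v : Pt) : Vt v ↔ nn v % 3 ≠ 1 := by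
  unfold Vt cl nn
  have h := ZMod.intCast_eq_intCast_iff (v.1 - v.2) 1 3
  rw [Int.cast_one] at h
  rw [Ne, h]
  unfold Int.ModEq
  push_cast
  omega

theorem dirs_cases {d : Pt} (h : d ∈ dirs) :
    d = (1, 0) ∨ d = (0, 1) ∨ d = (-1, 1) ∨ d = (-1, 0) ∨ d = (0, -1) ∨ d = (1, -1) := by
  simpa [dirs] using h

/-- the edges at a vertex -/
theorem De_cases {v d : Pt} (h : De (v, d)) :
    (nn v % 3 = 2 ∧ (d = (1, 0) ∨ d = (-1, 1) ∨ d = (0, -1))) ∨
      (nn v % 3 = 0 ∧ (d = (0, 1) ∨ d = (-1, 0) ∨ d = (1, -1))) := by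
  obtain ⟨h1, h2, h3⟩ := h
  simp only at h1 h2 h3
  rw [Vt_iff] at h2 h3
  unfold nn at *
  rcases dirs_cases h1 with rfl | rfl | rfl | rfl | rfl | rfl <;>
    simp only [Prod.fst_add, Prod.snd_add] at h3
  · left; exact ⟨by omega, Or.inl rfl⟩
  · right; exact ⟨by omega, Or.inl rfl⟩
  · left; exact ⟨by omega, Or.inr (Or.inl rfl)⟩
  · right; exact ⟨by omega, Or.inr (Or.inl rfl)⟩
  · left; exact ⟨by omega, Or.inr (Or.inr rfl)⟩
  · right; exact ⟨by omega, Or.inr (Or.inr rfl)⟩

theorem De_mk {v d : Pt} (h : (nn v % 3 = 2 ∧ (d = (1, 0) ∨ d = (-1, 1) ∨ d = (0, -1))) ∨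
      (nn v % 3 = 0 ∧ (d = (0, 1) ∨ d = (-1, 0) ∨ d = (1, -1)))) : De (v, d) := by
  unfold De
  simp only [Vt_iff]
  unfold nn at *
  rcases h with ⟨h1, rfl | rfl | rfl⟩ | ⟨h1, rfl | rfl | rfl⟩ <;>
    simp only [Prod.fst_add, Prod.snd_add] <;>
    refine ⟨by decide, by omega, by omega⟩

/-! ### mirror image -/

theorem cw_mir (t : List Bool) : cw (mir t) = cw t := by
  have h : wind (mir t) = -wind t := by
    induction t with
    | nil => rfl
    | cons b t ih =>
      have h1 : ∀ (c : Bool) (s : List Bool), wind (c :: s) = sgn c + wind s := by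
        intro c s
        unfold wind
        rw [List.map_cons, List.sum_cons]
      unfold mir at *
      rw [List.map_cons, h1, h1, ih]
      cases b <;> simp [sgn] <;> ring
  unfold cw
  rw [h]
  unfold mir
  rw [List.length_map]
  push_cast
  rw [neg_mul, Real.cos_neg]

theorem mir_mir (t : List Bool) : mir (mir t) = t := by
  unfold mir
  rw [List.map_map]
  have : (not ∘ not) = id := by
    funext b
    cases b <;> rfl
  rw [this, List.map_id]

theorem mir_length (t : List Bool) : (mir t).length = t.length := List.length_map _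

theorem tf_mir {t : List Bool} {i : ℕ} (h : i < t.length) : tf (mir t) i = !(tf t i) := by
  unfold tf mir
  rw [List.getD_eq_getElem _ _ (by rw [List.length_map]; exact h), List.getD_eq_getElem _ _ h, List.getElem_map]

theorem sg1_add (p q : Pt) : sg1 (p + q) = sg1 p + sg1 q := by
  unfold sg1
  ext
  · simp only [Prod.fst_add]; ring
  · simp only [Prod.fst_add, Prod.snd_add]; ring

theorem sg1_turn (b : Bool) (d : Pt) : turn (!b) (sg1 d) = sg1 (turn b d) := by
  cases b
  · unfold turn sg1 rotL rotR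
    simp only [Bool.not_false, if_true]
    ext
    · simp
    · simp
  · unfold turn sg1 rotL rotR
    simp only [Bool.not_true]
    ext
    · simp
    · simp

theorem dx_mir (d : Pt) (t : List Bool) {i : ℕ} (hi : i ≤ t.length) : dx (sg1 d) (mir t) i = sg1 (dx d t i) := by
  induction i with
  | zero => rfl
  | succ i ih =>
    show turn (tf (mir t) i) (dx (sg1 d) (mir t) i) = sg1 (turn (tf t i) (dx d t i))
    rw [ih (by omega), tf_mir (by omega), sg1_turn]

theorem vx_mir (v d : Pt) (t : List Bool) {i : ℕ} (hi : i ≤ t.length + 1) :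
    vx v (sg1 d) (mir t) i = v + sg1 (vx 0 d t i) := by
  induction i with
  | zero =>
    show v = v + sg1 0
    have : sg1 0 = 0 := by decide
    rw [this, add_zero]
  | succ i ih =>
    show vx v (sg1 d) (mir t) i + dx (sg1 d) (mir t) i = v + sg1 (vx 0 d t i + dx d t i)
    rw [ih (by omega), dx_mir d t (by omega), sg1_add, add_assoc]

/-! ### translation and rotation -/

theorem turn_neg (b : Bool) (d : Pt) : turn b (-d) = -turn b d := by
  cases b
  · show rotR (-d) = -rotR d
    unfold rotR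
    ext
    · simp only [Prod.fst_neg, Prod.snd_neg]; ring
    · simp only [Prod.fst_neg, Prod.snd_neg]
  · show rotL (-d) = -rotL d
    unfold rotL
    ext
    · simp only [Prod.fst_neg, Prod.snd_neg]
    · simp only [Prod.fst_neg, Prod.snd_neg]; ring

theorem dx_neg (d : Pt) (t : List Bool) (i : ℕ) : dx (-d) t i = -dx d t i := by
  induction i with
  | zero => rfl
  | succ i ih =>
    show turn (tf t i) (dx (-d) t i) = -turn (tf t i) (dx d t i)
    rw [ih, turn_neg]

theorem vx_neg (v d : Pt) (t : List Bool) (i : ℕ) : vx v (-d) t i = v - vx 0 d t i := by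
  induction i with
  | zero => show v = v - 0; rw [sub_zero]
  | succ i ih =>
    show vx v (-d) t i + dx (-d) t i = v - (vx 0 d t i + dx d t i)
    rw [ih, dx_neg]
    abel

theorem vx_zero (v d : Pt) (t : List Bool) (i : ℕ) : vx v d t i = v + vx 0 d t i := by
  induction i with
  | zero => show v = v + 0; rw [add_zero]
  | succ i ih =>
    show vx v d t i + dx d t i = v + (vx 0 d t i + dx d t i)
    rw [ih]
    abel

theorem vx_next (v d : Pt) (t : List Bool) (i : ℕ) : vx v d t (i + 1) = vx v d t i + dx d t i := rfl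

theorem dx_next (d : Pt) (t : List Bool) (i : ℕ) : dx d t (i + 1) = turn (tf t i) (dx d t i) := rfl

/-- rotation by 180 degrees around f -/
def Rf (f v : Pt) : Pt := f + f - v

/-- rotation of a directed edge around f -/
def Re (f : Pt) (a : Pt × Pt) : Pt × Pt := (Rf f a.1, -a.2)

theorem vx_Re (f : Pt) (a : Pt × Pt) (t : List Bool) (i : ℕ) :
    vx (Re f a).1 (Re f a).2 t i = Rf f (vx a.1 a.2 t i) := by
  unfold Re Rf
  simp only
  rw [vx_neg, vx_zero a.1]
  abel

theorem Rf_Rf (f v : Pt) : Rf f (Rf f v) = v := by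
  unfold Rf
  abel

theorem Re_Re (f : Pt) (a : Pt × Pt) : Re f (Re f a) = a := by
  unfold Re
  simp only [neg_neg, Rf_Rf]

theorem nn_Rf (f v : Pt) : nn (Rf f v) = 2 * nn f - nn v := by
  unfold nn Rf
  simp only [Prod.fst_add, Prod.fst_sub, Prod.snd_add, Prod.snd_sub]
  ring

theorem lv_Rf (f v : Pt) : lv (Rf f v) = 2 * lv f - lv v := by
  unfold lv Rf
  simp only [Prod.fst_add, Prod.fst_sub, Prod.snd_add, Prod.snd_sub]
  ring

/-! ### boundary edges, exits -/

theorem mem_bd {Ω : Finset Pt} {a : Pt × Pt} : a ∈ bd Ω ↔ a.1 + a.2 ∈ Ω ∧ De a ∧ a.1 ∉ Ω := by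
  classical
  unfold bd
  rw [Finset.mem_filter, Finset.mem_image]
  constructor
  · rintro ⟨⟨q, hq, rfl⟩, h2⟩
    rw [Finset.mem_product] at hq
    refine ⟨?_, h2⟩
    show q.1 - q.2 + q.2 ∈ Ω
    rw [sub_add_cancel]
    exact hq.1
  · rintro ⟨h1, h2⟩
    refine ⟨⟨(a.1 + a.2, a.2), ?_, ?_⟩, h2⟩
    · rw [Finset.mem_product]
      exact ⟨h1, h2.1.1⟩
    · show (a.1 + a.2 - a.2, a.2) = a
      rw [add_sub_cancel_right]

theorem mem_ex0 {Ω : Finset Pt} {a : Pt × Pt} {t : List Bool} :
    t ∈ ex0 Ω a ↔ Arr0 Ω a t ∧ tp a t ∉ Ω := by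
  unfold ex0
  rw [Finset.mem_filter, mem_arr0]

theorem pt_eq {v w : Pt} (h1 : nn v = nn w) (h2 : lv v = lv w) : v = w := by
  unfold nn lv at *
  ext <;> omega

theorem lv_mod (v : Pt) : lv v % 3 = nn v % 3 := by
  unfold nn lv
  omega

theorem ex0_pos {D : Finset Pt} {a : Pt × Pt} (ha : a.1 + a.2 ∈ D) {t : List Bool} (ht : t ∈ ex0 D a) :
    1 ≤ t.length := by
  rcases Nat.eq_zero_or_pos t.length with h | h
  · exfalso
    have h1 := (mem_ex0.1 ht).2
    unfold tp tip at h1
    rw [h] at h1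
    exact h1 ha
  · exact h

theorem nn_add (v w : Pt) : nn (v + w) = nn v + nn w := by
  unfold nn
  simp only [Prod.fst_add, Prod.snd_add]
  ring

theorem lv_add (v w : Pt) : lv (v + w) = lv v + lv w := by
  unfold lv
  simp only [Prod.fst_add, Prod.snd_add]
  ring

theorem nn_sub (v w : Pt) : nn (v - w) = nn v - nn w := by
  unfold nn
  simp only [Prod.fst_sub, Prod.snd_sub]
  ring

theorem lv_sub (v w : Pt) : lv (v - w) = lv v - lv w := by
  unfold lv
  simp only [Prod.fst_sub, Prod.snd_sub]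
  ring

/-- the levels and positions of the six directions -/
theorem dir_vals : nn (1, 0) = 1 ∧ lv (1, 0) = 1 ∧ nn (0, 1) = -1 ∧ lv (0, 1) = 2 ∧ nn (-1, 1) = -2 ∧
    lv (-1, 1) = 1 ∧ nn (-1, 0) = -1 ∧ lv (-1, 0) = -1 ∧ nn (0, -1) = 1 ∧ lv (0, -1) = -2 ∧
    nn (1, -1) = 2 ∧ lv (1, -1) = -1 := by decide

end LP

end HexObs
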