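import Pool.Agent.HexLoop.DefsW
import Pool.Agent.HexLoop.Par
import Pool.Agent.HexLoop.Cnt0

/-!
SD8, module C8A: the half domain at the right of a vertical line, the windings of its exits.
-/

set_option autoImplicit false

namespace HexObs

namespace LP

open Complex Finset ENNReal

section C8A

theorem mem_HR {T A B : ℕ} {v : Pt} : v ∈ HR T A B ↔ v ∈ Par T A B ∧ 0 < v.1 := by
  unfold HR
  rw [Finset.mem_filter]

theorem ft_fst (k : ℤ) : (ft k).1 = (2 * k, -k) := by
  unfold ft hz rotR up
  ext
  · simp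
    ring
  · simp

theorem lat_eq (v : Pt) : 2 * nn v + lv v = 3 * v.1 := by
  unfold nn lv
  ring

theorem de_rv {p : Pt × Pt} (h : De p) : De (rv p) := by
  obtain ⟨h1, h2, h3⟩ := h
  refine ⟨?_, h3, ?_⟩
  · show -p.2 ∈ dirs
    revert h1
    generalize p.2 = d
    revert d
    decide
  · show Vt (p.1 + p.2 + -p.2)
    rw [add_neg_cancel_right]
    exact h2

/-- the exit edges belong to the boundary. -/
theorem exit_bd {Ω : Finset Pt} {a : Pt × Pt} (ha : a ∈ bd Ω) {t : List Bool} (ht : t ∈ exits Ω a.1 a.2) :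
    (tip a.1 a.2 t, -(dx a.2 t t.length)) ∈ bd Ω ∧ 1 ≤ t.length := by
  have h1 := mem_bd.1 ha
  rw [← ex0_exits h1.2.2] at ht
  have hlen := ex0_pos h1.1 ht
  rw [mem_ex0] at ht
  refine ⟨?_, hlen⟩
  rw [mem_bd]
  have e : tip a.1 a.2 t + -(dx a.2 t t.length) = vx a.1 a.2 t t.length := by
    show vx a.1 a.2 t t.length + dx a.2 t t.length + -(dx a.2 t t.length) = _
    rw [add_neg_cancel_right]
  refine ⟨?_, ?_, ht.2⟩
  · show tip a.1 a.2 t + -(dx a.2 t t.length) ∈ Ω
    rw [e]
    exact ht.1.mem _ hlen le_rfl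
  · exact de_rv (de_vx (p := a) h1.2.1 t t.length)

/-- the start of the foot j. -/
theorem start_HR {T A B : ℕ} (hT : 1 ≤ T) (hA : T + 1 ≤ A) {j : ℕ} (hj : 1 ≤ j) (hB : j < B) :
    ft (j : ℤ) ∈ bd (HR T A B) ∧ ft (j : ℤ) ∈ bd (Par T A B) ∧ (∀ v ∈ HR T A B, 0 < ip (v - (ft (j : ℤ)).1) up) ∧
      (∀ v ∈ Par T A B, 0 < ip (v - (ft (j : ℤ)).1) up) := by
  have hV : (ft (j : ℤ)).1 + (ft (j : ℤ)).2 ∈ Par T A B := by
    rw [mem_par, Vt_iff, ft_fst]
    unfold nn lv ft up
    simp only [Prod.mk_add_mk]
    omega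
  have hD : De (ft (j : ℤ)) := by
    have : ft (j : ℤ) = ((2 * (j : ℤ), -(j : ℤ)), (0, 1)) := by
      rw [← ft_fst]
      rfl
    rw [this]
    apply De_mk
    right
    unfold nn
    refine ⟨?_, Or.inl rfl⟩
    simp only
    omega
  have hn : (ft (j : ℤ)).1 ∉ Par T A B := by
    rw [mem_par, ft_fst]
    unfold lv
    simp only
    omega
  have hh : ∀ v ∈ Par T A B, 0 < ip (v - (ft (j : ℤ)).1) up := by
    intro v hv
    have h1 := (mem_par.1 hv).2.1
    rw [ft_fst]
    unfold ip up lv at *
    simp only [Prod.fst_sub, Prod.snd_sub]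
    linarith
  refine ⟨?_, ?_, fun v hv => hh v (mem_HR.1 hv).1, hh⟩
  · rw [mem_bd]
    refine ⟨mem_HR.2 ⟨hV, ?_⟩, hD, fun h => hn (mem_HR.1 h).1⟩
    rw [ft_fst]
    unfold ft up
    simp only [Prod.mk_add_mk]
    omega
  · rw [mem_bd]
    exact ⟨hV, hD, hn⟩

/-- the exits of the parallelogram: directions, places, windings. -/
theorem par_exit {T A B : ℕ} (hT : 1 ≤ T) (hA : T + 1 ≤ A) {j : ℕ} (hj : 1 ≤ j) (hB : j < B) {t : List Bool}
    (ht : t ∈ exits (Par T A B) (ft (j : ℤ)).1 up) :
    (dx up t t.length = -up ∧ (∃ k : ℤ, tip (ft (j : ℤ)).1 up t = (ft k).1 ∧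
      ((k < j ∧ wind t = 3) ∨ (j < k ∧ wind t = -3)))) ∨
    (dx up t t.length = up ∧ lv (tip (ft (j : ℤ)).1 up t) = 3 * T + 2 ∧ wind t = 0) ∨
    (dx up t t.length = (1, -1) ∧ nn (tip (ft (j : ℤ)).1 up t) = 3 * B - 1 ∧ wind t = -2) ∨
    (dx up t t.length = (-1, 1) ∧ nn (tip (ft (j : ℤ)).1 up t) = -(3 * A : ℤ) ∧ wind t = 1) := by
  have hs := (start_HR hT hA hj hB).2.1
  have hg := par_good hT (by omega) (by omega) hs
  obtain ⟨hb, hlen⟩ := exit_bd (a := ft (j : ℤ)) hs ht
  have hb2 := par_bd hT (by omega) (by omega) hb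
  have hde := (mem_bd.1 hb).2.1
  have ht' : t ∈ exits (Par T A B) (ft (j : ℤ)).1 (ft (j : ℤ)).2 := ht
  have hw := hg.wind ht'
  change (dx up t t.length = up ∧ _) ∨ (dx up t t.length = rotL up ∧ _) ∨ (dx up t t.length = rotR up ∧ _) ∨
    (dx up t t.length = rotL (rotL up) ∧ _) ∨ (dx up t t.length = rotR (rotR up) ∧ _) ∨
      (dx up t t.length = -up ∧ _) at hw
  change (-(dx up t t.length) = up ∧ lv (tip (ft (j : ℤ)).1 up t) = 0) ∨
    (-(dx up t t.length) = -up ∧ lv (tip (ft (j : ℤ)).1 up t) = 3 * T + 2) ∨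
    (-(dx up t t.length) = (1, -1) ∧ nn (tip (ft (j : ℤ)).1 up t) = -(3 * A : ℤ)) ∨
    (-(dx up t t.length) = (-1, 1) ∧ nn (tip (ft (j : ℤ)).1 up t) = 3 * B - 1) at hb2
  rcases hb2 with ⟨h1, h2⟩ | ⟨h1, h2⟩ | ⟨h1, h2⟩ | ⟨h1, h2⟩
  · left
    have hd : dx up t t.length = -up := neg_eq_iff_eq_neg.1 h1
    refine ⟨hd, -(tip (ft (j : ℤ)).1 up t).2, ?_, ?_⟩
    · have e := ft_fst (-(tip (ft (j : ℤ)).1 up t).2)
      rw [e]
      unfold lv at h2
      ext
      · show _ = 2 * -(tip (ft (j : ℤ)).1 up t).2
        linarith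
      · show _ = - -(tip (ft (j : ℤ)).1 up t).2
        ring
    · have hbot := hg.bottom ht' hd
      have e : cross (ft (j : ℤ)).2 (tip (ft (j : ℤ)).1 (ft (j : ℤ)).2 t - (ft (j : ℤ)).1) =
          2 * (j + (tip (ft (j : ℤ)).1 up t).2) := by
        have e1 : (ft (j : ℤ)).2 = up := rfl
        rw [e1]
        unfold lv at h2
        unfold cross
        rw [ft_fst] at h2 ⊢
        unfold up at h2 ⊢
        simp only [Prod.fst_sub, Prod.snd_sub]
        linarith
      rw [e] at hbot
      rcases hbot with ⟨h3, h4⟩ | ⟨h3, h4⟩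
      · left
        exact ⟨by omega, h4⟩
      · right
        exact ⟨by omega, h4⟩
  · right; left
    have hd : dx up t t.length = up := neg_injective h1
    refine ⟨hd, h2, ?_⟩
    rw [hd] at hw
    rcases hw with h | h | h | h | h | h
    · exact h.2
    all_goals exact absurd h.1 (by decide)
  · right; right; right
    have hd : dx up t t.length = (-1, 1) := by
      rw [← neg_neg (dx up t t.length), h1]
      rfl
    refine ⟨hd, h2, ?_⟩
    rw [hd] at hw
    rcases hw with h | h | h | h | h | h
    · exact absurd h.1 (by decide)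
    · exact h.2
    all_goals exact absurd h.1 (by decide)
  · right; right; left
    have hd : dx up t t.length = (1, -1) := by
      rw [← neg_neg (dx up t t.length), h1]
      rfl
    refine ⟨hd, h2, ?_⟩
    rw [hd] at hw
    rcases hw with h | h | h | h | h | h
    · exact absurd h.1 (by decide)
    · exact absurd h.1 (by decide)
    · exact absurd h.1 (by decide)
    · exact absurd h.1 (by decide)
    · exact h.2
    · exact absurd h.1 (by decide)

/-! zigzags -/

/-- zigzag to the left, from the direction (-1, 1). -/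
def zz : ℕ → List Bool
  | 0 => []
  | n + 1 => true :: false :: zz n

lemma zz_length (n : ℕ) : (zz n).length = 2 * n := by
  induction n with
  | zero => rfl
  | succ n ih =>
    show (zz n).length + 1 + 1 = _
    rw [ih]
    ring

lemma zz_tf (n : ℕ) : ∀ i, i < 2 * n → tf (zz n) i = decide (i % 2 = 0) := by
  induction n with
  | zero => intro i hi; omega
  | succ n ih =>
    intro i hi
    match i with
    | 0 => rfl
    | 1 => rfl
    | i + 2 =>
      have h1 : tf (zz (n + 1)) (i + 2) = tf (zz n) i := rfl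
      rw [h1, ih i (by omega)]
      congr 1
      apply propext
      omega

lemma zz_wind (n : ℕ) : wind (zz n) = 0 := by
  induction n with
  | zero => rfl
  | succ n ih =>
    have h : wind (true :: false :: zz n) = 1 + (-1 + wind (zz n)) := rfl
    show wind (true :: false :: zz n) = 0
    rw [h, ih]
    rfl

lemma zz_ds {τ : ℕ → Bool} {m : ℕ} (h : ∀ i, i < m → τ i = decide (i % 2 = 0)) :
    ∀ i, i ≤ m → ds (-1, 1) τ i = if i % 2 = 0 then (-1, 1) else (-1, 0) := by
  intro i
  induction i with
  | zero => intro _; rfl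
  | succ i ih =>
    intro hi
    rw [ds_succ, ih (by omega), h i (by omega)]
    rcases Nat.mod_two_eq_zero_or_one i with h1 | h1
    · have h2 : (i + 1) % 2 = 1 := by omega
      rw [h1, h2]
      decide
    · have h2 : (i + 1) % 2 = 0 := by omega
      rw [h1, h2]
      decide

lemma zz_vs {τ : ℕ → Bool} {m : ℕ} (h : ∀ i, i < m → τ i = decide (i % 2 = 0)) (b : Pt) :
    ∀ i, i ≤ m + 1 → vs b (-1, 1) τ i = b + (-(i : ℤ), (((i + 1) / 2 : ℕ) : ℤ)) := by
  intro i
  induction i with
  | zero =>
    intro _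
    show b = _
    simp
  | succ i ih =>
    intro hi
    rw [vs_succ, ih (by omega), zz_ds h i (by omega)]
    rcases Nat.mod_two_eq_zero_or_one i with h1 | h1
    · rw [if_pos h1]
      ext
      · simp only [Prod.fst_add]
        push_cast
        ring
      · simp only [Prod.snd_add]
        have : (i + 1 + 1) / 2 = (i + 1) / 2 + 1 := by omega
        rw [this]
        push_cast
        ring
    · rw [if_neg (by omega)]
      ext
      · simp only [Prod.fst_add]
        push_cast
        ring
      · simp only [Prod.snd_add]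
        have : (i + 1 + 1) / 2 = (i + 1) / 2 := by omega
        rw [this]
        push_cast
        ring

/-- winding of a word that ends at its leftmost column in the direction (-1, 1). -/
theorem zig_wind {v0 : Pt} {t : List Bool} (hinj : ∀ i k, i < k → k ≤ t.length → vx v0 up t i ≠ vx v0 up t k)
    (hhalf : ∀ i, 1 ≤ i → i ≤ t.length → 0 < ip (vx v0 up t i - v0) up)
    (hleft : ∀ i, i ≤ t.length → (vx v0 up t t.length).1 ≤ (vx v0 up t i).1)
    (hd : dx up t t.length = (-1, 1)) (hlen : 1 ≤ t.length) {M : ℤ}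
    (hM : ∀ i, i ≤ t.length → M < nn (vx v0 up t i)) : wind t = 1 := by
  set b := vx v0 up t t.length with hb
  set n : ℕ := (nn b - M).toNat with hn
  have hnM : nn b - M = n := by
    rw [hn, Int.toNat_of_nonneg]
    have : M < nn b := hM t.length le_rfl
    omega
  have hL : (t ++ zz n).length = t.length + 2 * n := by
    rw [List.length_append, zz_length]
  have hv : ∀ i, i ≤ 2 * n + 1 → vx v0 up (t ++ zz n) (t.length + i) = b + (-(i : ℤ), (((i + 1) / 2 : ℕ) : ℤ)) := by
    intro i hi
    show vs v0 up (tf (t ++ zz n)) (t.length + i) = _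
    rw [vs_shift]
    have e1 : vs v0 up (tf (t ++ zz n)) t.length = b := vx_append (by omega)
    have e2 : ds up (tf (t ++ zz n)) t.length = (-1, 1) := (dx_append le_rfl).trans hd
    rw [e1, e2]
    apply zz_vs (m := 2 * n) _ _ _ hi
    intro k hk
    rw [tf_append_right, zz_tf n k hk]
  have hv0 : ∀ i, i ≤ t.length → vx v0 up (t ++ zz n) i = vx v0 up t i := fun i hi => vx_append (by omega)
  have hdd : dx up (t ++ zz n) (t ++ zz n).length = (-1, 1) := by
    rw [hL]
    show ds up (tf (t ++ zz n)) (t.length + 2 * n) = _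
    rw [ds_shift]
    have e2 : ds up (tf (t ++ zz n)) t.length = (-1, 1) := (dx_append le_rfl).trans hd
    rw [e2, zz_ds (m := 2 * n) (fun k hk => by rw [tf_append_right, zz_tf n k hk]) _ le_rfl, if_pos (by omega)]
  have htip : tip v0 up (t ++ zz n) = b + (-((2 * n + 1 : ℕ) : ℤ), (((2 * n + 1 + 1) / 2 : ℕ) : ℤ)) := by
    show vx v0 up (t ++ zz n) ((t ++ zz n).length + 1) = _
    rw [hL, add_assoc]
    exact hv _ le_rfl
  have hbh := hhalf t.length hlen le_rfl
  rw [← hb] at hbh
  have key := wind_exit (v0 := v0) (d0 := up) upd (t := t ++ zz n) ?_ ?_ ?_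
  · rw [hdd, wind_append, zz_wind, add_zero] at key
    rcases key with h | h | h | h | h | h
    · exact absurd h.1 (by decide)
    · exact h.2
    all_goals exact absurd h.1 (by decide)
  · intro i k hik hk
    rw [hL] at hk
    rcases Nat.lt_or_ge t.length k with h1 | h1
    · obtain ⟨k', rfl⟩ := Nat.exists_eq_add_of_le (show t.length ≤ k by omega)
      rw [hv k' (by omega)]
      rcases Nat.lt_or_ge t.length i with h2 | h2
      · obtain ⟨i', rfl⟩ := Nat.exists_eq_add_of_le (show t.length ≤ i by omega)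
        rw [hv i' (by omega)]
        intro hc
        have := congrArg Prod.fst hc
        simp only [Prod.fst_add] at this
        omega
      · rw [hv0 i h2]
        intro hc
        have h3 := hleft i h2
        rw [hc] at h3
        simp only [Prod.fst_add] at h3
        omega
    · rw [hv0 i (by omega), hv0 k h1]
      exact hinj i k hik h1
  · intro i h1 h2
    rw [hL] at h2
    rcases Nat.lt_or_ge t.length i with h3 | h3
    · obtain ⟨i', rfl⟩ := Nat.exists_eq_add_of_le (show t.length ≤ i by omega)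
      rw [hv i' (by omega)]
      unfold ip up at hbh ⊢
      simp only [Prod.fst_sub, Prod.snd_sub, Prod.fst_add, Prod.snd_add] at hbh ⊢
      omega
    · rw [hv0 i h3]
      exact hhalf i h1 h3
  · intro i h1 h2
    rw [hL] at h2
    rw [hdd, htip]
    have e : ∀ w : Pt, ip (b + (-((2 * n + 1 : ℕ) : ℤ), (((2 * n + 1 + 1) / 2 : ℕ) : ℤ)) - w) (-1, 1) =
        nn w - nn b + 3 * n + 2 := by
      intro w
      have e1 : (2 * n + 1 + 1) / 2 = n + 1 := by omega
      rw [e1]
      unfold ip nn
      simp only [Prod.fst_sub, Prod.snd_sub, Prod.fst_add, Prod.snd_add]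
      push_cast
      ring
    rw [e]
    rcases Nat.lt_or_ge t.length i with h3 | h3
    · obtain ⟨i', rfl⟩ := Nat.exists_eq_add_of_le (show t.length ≤ i by omega)
      rw [hv i' (by omega), nn_add]
      unfold nn
      simp only
      omega
    · rw [hv0 i h3]
      have := hM i h3
      omega

/-- the exits of the half domain. The first three cases are exits of the parallelogram, the last two are the stems. -/
theorem HR_exit {T A B : ℕ} (hT : 1 ≤ T) (hA : T + 1 ≤ A) {j : ℕ} (hj : 1 ≤ j) (hB : j < B) {t : List Bool}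
    (ht : t ∈ exits (HR T A B) (ft (j : ℤ)).1 up) :
    (tip (ft (j : ℤ)).1 up t ∉ Par T A B ∧ dx up t t.length = -up ∧ (∃ k : ℤ, 1 ≤ k ∧
      tip (ft (j : ℤ)).1 up t = (ft k).1 ∧ ((k < j ∧ wind t = 3) ∨ (j < k ∧ wind t = -3)))) ∨
    (tip (ft (j : ℤ)).1 up t ∉ Par T A B ∧ dx up t t.length = up ∧ wind t = 0) ∨
    (tip (ft (j : ℤ)).1 up t ∉ Par T A B ∧ dx up t t.length = (1, -1) ∧ wind t = -2) ∨
    (tip (ft (j : ℤ)).1 up t ∈ Par T A B ∧ (tip (ft (j : ℤ)).1 up t).1 = 0 ∧ dx up t t.length = (-1, 1) ∧
      wind t = 1) ∨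
    (tip (ft (j : ℤ)).1 up t ∈ Par T A B ∧ (tip (ft (j : ℤ)).1 up t).1 = 0 ∧ dx up t t.length = (-1, 0) ∧
      wind t = 2) := by
  obtain ⟨hs, hs2, hh, hh2⟩ := start_HR hT hA hj hB
  obtain ⟨hb, hlen⟩ := exit_bd (a := ft (j : ℤ)) hs ht
  have harr := (mem_exits.1 ht).1
  have hout := (mem_exits.1 ht).2
  have hlast := mem_HR.1 (harr.mem _ hlen le_rfl)
  have etip : tip (ft (j : ℤ)).1 up t = vx (ft (j : ℤ)).1 up t t.length + dx up t t.length := rfl
  by_cases hP : tip (ft (j : ℤ)).1 up t ∈ Par T A B
  · have h1 : (tip (ft (j : ℤ)).1 up t).1 ≤ 0 := by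
      by_contra hcon
      exact hout (mem_HR.2 ⟨hP, by omega⟩)
    have hde : De (vx (ft (j : ℤ)).1 up t t.length, dx up t t.length) :=
      de_vx (p := ft (j : ℤ)) (mem_bd.1 hs).2.1 t t.length
    have hdir : (dx up t t.length = (-1, 1) ∨ dx up t t.length = (-1, 0)) ∧ (tip (ft (j : ℤ)).1 up t).1 = 0 ∧
        (vx (ft (j : ℤ)).1 up t t.length).1 = 1 := by
      have h2 := hlast.2
      rw [etip] at h1 ⊢
      rcases dirs_cases hde.1 with h | h | h | h | h | h <;> change dx up t t.length = _ at h <;>
        rw [h] at h1 ⊢ <;> rw [Prod.fst_add] at h1 ⊢ <;> simp only at h1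
      · omega
      · omega
      · exact ⟨Or.inl rfl, by simp only; omega, by omega⟩
      · exact ⟨Or.inr rfl, by simp only; omega, by omega⟩
      · omega
      · omega
    obtain ⟨hdir, h0, h1v⟩ := hdir
    have hft0 : vx (ft (j : ℤ)).1 up t 0 = (ft (j : ℤ)).1 := rfl
    have hM : ∀ i, i ≤ t.length → (-(3 * A : ℤ)) < nn (vx (ft (j : ℤ)).1 up t i) := by
      intro i hi
      rcases Nat.eq_zero_or_pos i with h | h
      · rw [h, hft0, ft_fst]
        unfold nn
        simp only
        omega
      · exact (mem_par.1 (mem_HR.1 (harr.mem i h hi)).1).2.2.2.1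
    have hl1 : ∀ i, i ≤ t.length → 1 ≤ (vx (ft (j : ℤ)).1 up t i).1 := by
      intro i hi
      rcases Nat.eq_zero_or_pos i with h | h
      · rw [h, hft0, ft_fst]
        simp only
        omega
      · have := (mem_HR.1 (harr.mem i h hi)).2
        omega
    rcases hdir with h2 | h2
    · right; right; right; left
      refine ⟨hP, h0, h2, ?_⟩
      exact zig_wind harr.inj (fun i h3 h4 => hh _ (harr.mem i h3 h4))
        (fun i hi => by rw [h1v]; exact hl1 i hi) h2 hlen hM
    · right; right; right; right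
      refine ⟨hP, h0, h2, ?_⟩
      have e1 : (t ++ [false]).length = t.length + 1 := by simp
      have e2 : vx (ft (j : ℤ)).1 up (t ++ [false]) (t.length + 1) = tip (ft (j : ℤ)).1 up t := vx_append le_rfl
      have e3 : ∀ i, i ≤ t.length → vx (ft (j : ℤ)).1 up (t ++ [false]) i = vx (ft (j : ℤ)).1 up t i :=
        fun i hi => vx_append (by omega)
      have key : wind (t ++ [false]) = 1 := by
        apply zig_wind (v0 := (ft (j : ℤ)).1) (M := -(3 * A : ℤ))
        · intro i k hik hk
          rw [e1] at hk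
          rcases Nat.lt_or_ge t.length k with h3 | h3
          · have : k = t.length + 1 := by omega
            rw [this, e2, e3 i (by omega)]
            intro hc
            have h4 := hl1 i (by omega)
            rw [hc, h0] at h4
            omega
          · rw [e3 i (by omega), e3 k h3]
            exact harr.inj i k hik h3
        · intro i h3 h4
          rw [e1] at h4
          rcases Nat.lt_or_ge t.length i with h5 | h5
          · have : i = t.length + 1 := by omega
            rw [this, e2]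
            exact hh2 _ hP
          · rw [e3 i h5]
            exact hh _ (harr.mem i h3 h5)
        · intro i hi
          rw [e1] at hi ⊢
          rw [e2, h0]
          rcases Nat.lt_or_ge t.length i with h5 | h5
          · have : i = t.length + 1 := by omega
            rw [this, e2, h0]
          · rw [e3 i h5]
            have := hl1 i h5
            omega
        · rw [e1]
          show ds up (tf (t ++ [false])) (t.length + 1) = _
          rw [ds_succ]
          have e4 : tf (t ++ [false]) t.length = false := tf_append_right 0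
          have e5 : ds up (tf (t ++ [false])) t.length = dx up t t.length := dx_append le_rfl
          rw [e4, e5, h2]
          decide
        · rw [e1]
          omega
        · intro i hi
          rw [e1] at hi
          rcases Nat.lt_or_ge t.length i with h5 | h5
          · have : i = t.length + 1 := by omega
            rw [this, e2]
            exact (mem_par.1 hP).2.2.2.1
          · rw [e3 i h5]
            exact hM i h5
      rw [wind_append] at key
      have : wind [false] = -1 := rfl
      omega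
  · have hP2 : t ∈ exits (Par T A B) (ft (j : ℤ)).1 up := by
      rw [mem_exits]
      exact ⟨⟨fun i h1 h2 => (mem_HR.1 (harr.mem i h1 h2)).1, harr.inj⟩, hP⟩
    rcases par_exit hT hA hj hB hP2 with ⟨h1, k, h2, h3⟩ | ⟨h1, h2, h3⟩ | ⟨h1, h2, h3⟩ | ⟨h1, h2, h3⟩
    · left
      refine ⟨hP, h1, k, ?_, h2, h3⟩
      have h4 := hlast.2
      have h5 : (vx (ft (j : ℤ)).1 up t t.length).1 = (tip (ft (j : ℤ)).1 up t).1 := by
        rw [etip, h1]
        unfold up
        simp
      rw [h5, h2, ft_fst] at h4
      simp only at h4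
      omega
    · right; left
      exact ⟨hP, h1, h3⟩
    · right; right; left
      exact ⟨hP, h1, h3⟩
    · exfalso
      have h4 := hlast.2
      have h5 := (mem_par.1 hlast.1).2.2.1
      have h6 := lat_eq (vx (ft (j : ℤ)).1 up t t.length)
      rw [etip, h1, nn_add] at h2
      have h7 : nn ((-1, 1) : Pt) = -2 := by decide
      omega

end C8A

end LP

end HexObs
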