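import Pool.Agent.HexLoop.DefsW
import Pool.Agent.HexLoop.Par
import Pool.Agent.HexLoop.RevW
import Pool.Agent.HexLoop.Words0
import Pool.Agent.HexLoop.C8A

/-!
SD8, module C8B: imaginary part of the contour identity, summed over the starts.
-/

set_option autoImplicit false

namespace HexObs

namespace LP

open Complex Finset ENNReal

section C8B

private lemma c8b_back (a : Pt × Pt) (t : List Bool) : rv (le (rv (le a t)) (rev t)) = a := by
  have h1 : le (rv (le a t)) (rev t) = rv a := by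
    unfold le
    rw [rev_length]
    have e1 := vx_rev0 (p := a) t t.length (by omega)
    have e2 := dx_rev0 (p := a) t t.length le_rfl
    unfold le at e1 e2
    rw [e1, e2, Nat.sub_self]
    have e3 : t.length + 1 - t.length = 1 := by omega
    rw [e3]
    rfl
  rw [h1]
  unfold rv
  apply Prod.ext
  · show a.1 + a.2 + -a.2 = a.1
    rw [add_neg_cancel_right]
  · show - -a.2 = a.2
    rw [neg_neg]

private lemma c8b_ft (k : ℤ) : (ft k).1 = (2 * k, -k) := by
  have h4 : hz up = (2, -1) := by decide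
  unfold ft
  rw [h4]
  apply Prod.ext
  · show k • (2 : ℤ) = 2 * k
    rw [smul_eq_mul]
    ring
  · show k • (-1 : ℤ) = -k
    rw [smul_eq_mul]
    ring

private lemma c8b_ft_ext {a : Pt × Pt} {k : ℤ} (h1 : a.1 = (ft k).1) (h2 : a.2 = up) : a = ft k :=
  Prod.ext h1 h2

private lemma c8b_inj {k l : ℤ} (h : ft k = ft l) : k = l := by
  have h1 : (ft k).1 = (ft l).1 := by rw [h]
  rw [c8b_ft, c8b_ft] at h1
  have h2 := (Prod.ext_iff.1 h1).1
  simp only at h2
  omega

private lemma c8b_mem {N : ℕ} {k : ℤ} : ft k ∈ stN N ↔ 1 ≤ k ∧ k ≤ N := by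
  unfold stN
  rw [Finset.mem_image]
  constructor
  · rintro ⟨j, hj, h⟩
    rw [Finset.mem_Icc] at hj
    have := c8b_inj h
    omega
  · rintro ⟨h1, h2⟩
    refine ⟨k.toNat, ?_, ?_⟩
    · rw [Finset.mem_Icc]
      omega
    · rw [Int.toNat_of_nonneg (by omega)]

private lemma c8b_dir {N : ℕ} {a : Pt × Pt} (h : rv a ∈ stN N) : a.2 = -up := by
  unfold stN at h
  rw [Finset.mem_image] at h
  obtain ⟨j, _, hj⟩ := h
  have h1 : -a.2 = up := ((Prod.ext_iff.1 hj).2).symm
  rw [← h1, neg_neg]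

/-- the arcs between the starts cancel. -/
private lemma c8b_cancel {T A B N : ℕ} (hT : 1 ≤ T) (hA : T + 1 ≤ A) (hB : N < B) :
    ∑ j ∈ Finset.Icc 1 N, ∑ t ∈ exits (HR T A B) (ft (j : ℤ)).1 up,
      (if rv (le (ft (j : ℤ)) t) ∈ stN N then Real.sin (wind t * (Real.pi / 8)) * xc ^ t.length else 0) = 0 := by
  classical
  obtain ⟨F, hF⟩ : ∃ F : Pt × Pt → List Bool → ℝ, F = fun a t =>
    if a ∈ stN N ∧ rv (le a t) ∈ stN N then Real.sin (wind t * (Real.pi / 8)) * xc ^ t.length else 0 := ⟨_, rfl⟩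
  have hV : ∀ v ∈ HR T A B, Vt v := fun v hv => (mem_par.1 (mem_HR.1 hv).1).1
  have h1 := rev_ex (Ω := HR T A B) hV F
  have h2 : ∀ a t, F (rv (le a t)) (rev t) = -F a t := by
    intro a t
    rw [hF]
    simp only
    rw [c8b_back, rev_length, wind_rev]
    by_cases h : a ∈ stN N ∧ rv (le a t) ∈ stN N
    · rw [if_pos h, if_pos ⟨h.2, h.1⟩]
      push_cast
      rw [neg_mul, Real.sin_neg]
      ring
    · rw [if_neg h, if_neg (fun h3 => h ⟨h3.2, h3.1⟩), neg_zero]
  simp only [h2, Finset.sum_neg_distrib] at h1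
  have h3 : ∑ a ∈ bd (HR T A B), ∑ t ∈ ex0 (HR T A B) a, F a t = 0 := by linarith
  have h4 : ∑ a ∈ bd (HR T A B), ∑ t ∈ ex0 (HR T A B) a, F a t =
      ∑ a ∈ stN N, ∑ t ∈ ex0 (HR T A B) a, F a t := by
    symm
    apply Finset.sum_subset
    · intro a ha
      unfold stN at ha
      rw [Finset.mem_image] at ha
      obtain ⟨j, hj, rfl⟩ := ha
      rw [Finset.mem_Icc] at hj
      exact (start_HR hT hA hj.1 (by omega)).1
    · intro a _ ha
      apply Finset.sum_eq_zero
      intro t _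
      rw [hF]
      simp only
      rw [if_neg (fun h => ha h.1)]
  have h5 : ∑ a ∈ stN N, ∑ t ∈ ex0 (HR T A B) a, F a t =
      ∑ j ∈ Finset.Icc 1 N, ∑ t ∈ ex0 (HR T A B) (ft (j : ℤ)), F (ft (j : ℤ)) t := by
    unfold stN
    rw [Finset.sum_image]
    intro i _ k _ hik
    have := c8b_inj hik
    omega
  refine Eq.trans ?_ (h5.symm.trans (h4.symm.trans h3))
  apply Finset.sum_congr rfl
  intro j hj
  rw [Finset.mem_Icc] at hj
  have h6 := (start_HR (B := B) hT hA hj.1 (by omega)).1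
  have h7 : (ft (j : ℤ)).1 ∉ HR T A B := by
    unfold bd at h6
    rw [Finset.mem_filter] at h6
    exact h6.2.2
  rw [ex0_exits h7]
  apply Finset.sum_congr rfl
  intro t _
  rw [hF]
  simp only
  have h8 : ft (j : ℤ) ∈ stN N := by
    rw [c8b_mem]
    omega
  by_cases h9 : rv (le (ft (j : ℤ)) t) ∈ stN N
  · rw [if_pos h9, if_pos ⟨h8, h9⟩]
  · rw [if_neg h9, if_neg (fun h => h9 h.2)]

theorem im_sum {T A B N : ℕ} (hT : 1 ≤ T) (hA : T + 1 ≤ A) (hB : N < B) :
    Real.sin (Real.pi / 8) * stem T A B N (-1, 1) + Real.sin (Real.pi / 4) * stem T A B N (-1, 0) =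
      Real.sin (3 * Real.pi / 8) * outN T A B N + Real.sin (Real.pi / 4) * walN T A B N := by
  classical
  have h1 := c8b_cancel (N := N) hT hA hB
  have h2 : ∑ j ∈ Finset.Icc 1 N, ∑ t ∈ exits (HR T A B) (ft (j : ℤ)).1 up,
      Real.sin (wind t * (Real.pi / 8)) * xc ^ t.length = 0 := by
    apply Finset.sum_eq_zero
    intro j hj
    rw [Finset.mem_Icc] at hj
    exact identity_im (HR T A B) upd (start_HR hT hA hj.1 (by omega)).2.2.1
  have h3 : Real.sin (Real.pi / 8) * stem T A B N (-1, 1) + Real.sin (Real.pi / 4) * stem T A B N (-1, 0) -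
      (Real.sin (3 * Real.pi / 8) * outN T A B N + Real.sin (Real.pi / 4) * walN T A B N) =
      ∑ j ∈ Finset.Icc 1 N, ∑ t ∈ exits (HR T A B) (ft (j : ℤ)).1 up,
        Real.sin (wind t * (Real.pi / 8)) * xc ^ t.length -
      ∑ j ∈ Finset.Icc 1 N, ∑ t ∈ exits (HR T A B) (ft (j : ℤ)).1 up,
      (if rv (le (ft (j : ℤ)) t) ∈ stN N then Real.sin (wind t * (Real.pi / 8)) * xc ^ t.length else 0) := by
    unfold stem outN walN
    simp only [Finset.sum_filter, Finset.mul_sum]
    simp only [← Finset.sum_sub_distrib, ← Finset.sum_add_distrib]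
    apply Finset.sum_congr rfl
    intro j hj
    rw [Finset.mem_Icc] at hj
    apply Finset.sum_congr rfl
    intro t ht
    have hin : rv (le (ft (j : ℤ)) t) = (tip (ft (j : ℤ)).1 up t, -(dx up t t.length)) := rfl
    have hdir : rv (le (ft (j : ℤ)) t) ∈ stN N → dx up t t.length = -up := fun h => c8b_dir h
    have hpi := Real.pi_pos
    have sm : ∀ w : ℝ, Real.sin (-w) = -Real.sin w := Real.sin_neg
    rcases HR_exit hT hA hj.1 (by omega) ht with h | h | h | h | h
    · obtain ⟨g1, g2, k, g3, g4, g5⟩ := h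
      have n1 : (-up : Pt) ≠ (-1, 1) := by decide
      have n2 : (-up : Pt) ≠ (-1, 0) := by decide
      have hk : rv (le (ft (j : ℤ)) t) = ft k := by
        rw [hin]
        exact c8b_ft_ext g4 (by show -(dx up t t.length) = up; rw [g2, neg_neg])
      have ht1 : (tip (ft (j : ℤ)).1 up t).1 = 2 * k := by
        rw [g4, c8b_ft]
      rw [hk, ht1, g2, if_neg (fun h => n1 h.1), if_neg (fun h => n2 h.1),
        if_neg (fun h : tip (ft (j : ℤ)).1 up t ∉ Par T A B ∧ (-up : Pt) ≠ -up ∧ (-up : Pt) ≠ up => h.2.1 rfl)]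
      by_cases hkN : k ≤ N
      · rw [if_pos (c8b_mem.2 ⟨g3, hkN⟩), if_neg (fun h => by have := h.2; omega)]
        ring
      · have hw : wind t = -3 := by
          rcases g5 with g5 | g5
          · omega
          · exact g5.2
        rw [if_neg (fun h => hkN (c8b_mem.1 h).2), if_pos (show (-up : Pt) = -up ∧ 2 * (N : ℤ) < 2 * k from ⟨rfl, by omega⟩), hw]
        have e : ((-3 : ℤ) : ℝ) * (Real.pi / 8) = -(3 * Real.pi / 8) := by
          push_cast
          ring
        rw [e, sm]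
        ring
    · obtain ⟨g1, g2, g3⟩ := h
      have n1 : (up : Pt) ≠ (-1, 1) := by decide
      have n2 : (up : Pt) ≠ (-1, 0) := by decide
      have n3 : (up : Pt) ≠ -up := by decide
      rw [if_neg (fun h => n3 (g2.symm.trans (hdir h))), g2, if_neg (fun h => n1 h.1), if_neg (fun h => n2 h.1),
        if_neg (fun h => n3 h.1),
        if_neg (fun h : tip (ft (j : ℤ)).1 up t ∉ Par T A B ∧ (up : Pt) ≠ -up ∧ (up : Pt) ≠ up => h.2.2 rfl), g3]
      push_cast
      rw [zero_mul, Real.sin_zero]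
      ring
    · obtain ⟨g1, g2, g3⟩ := h
      have n1 : ((1, -1) : Pt) ≠ (-1, 1) := by decide
      have n2 : ((1, -1) : Pt) ≠ (-1, 0) := by decide
      have n3 : ((1, -1) : Pt) ≠ -up := by decide
      have n4 : ((1, -1) : Pt) ≠ up := by decide
      rw [if_neg (fun h => n3 (g2.symm.trans (hdir h))), g2, if_neg (fun h => n1 h.1), if_neg (fun h => n2 h.1),
        if_neg (fun h => n3 h.1), if_pos ⟨g1, n3, n4⟩, g3]
      have e : ((-2 : ℤ) : ℝ) * (Real.pi / 8) = -(Real.pi / 4) := by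
        push_cast
        ring
      rw [e, sm]
      ring
    · obtain ⟨g1, g2, g3, g4⟩ := h
      have n2 : ((-1, 1) : Pt) ≠ (-1, 0) := by decide
      have n3 : ((-1, 1) : Pt) ≠ -up := by decide
      rw [if_neg (fun h => n3 (g3.symm.trans (hdir h))), g3, if_pos ⟨rfl, le_of_eq g2, g1⟩,
        if_neg (fun h => n2 h.1), if_neg (fun h => n3 h.1), if_neg (fun h => h.1 g1), g4]
      push_cast
      rw [one_mul]
      ring
    · obtain ⟨g1, g2, g3, g4⟩ := h
      have n1 : ((-1, 0) : Pt) ≠ (-1, 1) := by decide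
      have n3 : ((-1, 0) : Pt) ≠ -up := by decide
      rw [if_neg (fun h => n3 (g3.symm.trans (hdir h))), g3, if_neg (fun h => n1 h.1),
        if_pos ⟨rfl, le_of_eq g2, g1⟩, if_neg (fun h => n3 h.1), if_neg (fun h => h.1 g1), g4]
      have e : ((2 : ℤ) : ℝ) * (Real.pi / 8) = Real.pi / 4 := by
        push_cast
        ring
      rw [e]
      ring
  linarith

end C8B

end LP

end HexObs
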