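import Pool.Agent.HexLoop.C8A
import Pool.Agent.W47.K4

/-!
SD8, module C8C: the stems of direction 210 are injected into the stems of direction 150.
-/

set_option autoImplicit false

namespace HexObs

namespace LP

open Complex Finset ENNReal

section C8C

lemma c8_xc_le : xc ≤ 1 := by
  have h1 := xc_sq
  have h2 : 1 / (2 + Real.sqrt 2) ≤ 1 := by
    rw [div_le_one (by positivity)]
    have := Real.sqrt_nonneg 2
    linarith
  have h3 := xc_pos
  nlinarith

lemma fin_le_gf {P : Set (List Bool)} (U : Finset (List Bool)) (h : ∀ u ∈ U, u ∈ P) :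
    ∑ u ∈ U, wE u ≤ gf P := by
  have h1 : ∑ u ∈ U, wE u = ∑' u : (U : Set (List Bool)), wE u := by
    rw [← Finset.tsum_subtype]
    rfl
  rw [h1]
  exact ENNReal.tsum_mono_subtype wE (fun u hu => h u hu)

lemma fin_bridges {T : ℕ} (hT : 1 ≤ T) (U : Finset (List Bool)) (h : ∀ u ∈ U, u ∈ out (St T) oo up up) :
    ∑ u ∈ U, xc ^ u.length ≤ 1 := by
  have h1 : ∑ u ∈ U, wE u ≤ 1 := (fin_le_gf U h).trans (BT_le_one hT)
  have h2 : ∑ u ∈ U, wE u = ENNReal.ofReal (∑ u ∈ U, xc ^ u.length) := by
    rw [ENNReal.ofReal_sum_of_nonneg (fun u _ => pow_nonneg xc_pos.le _)]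
    rfl
  rw [h2, ENNReal.ofReal_le_one] at h1
  exact h1

lemma tip_snoc (v0 d0 : Pt) (s : List Bool) (b : Bool) :
    vx v0 d0 (s ++ [b]) (s ++ [b]).length = tip v0 d0 s ∧
      dx d0 (s ++ [b]) (s ++ [b]).length = turn b (dx d0 s s.length) ∧
      tip v0 d0 (s ++ [b]) = tip v0 d0 s + turn b (dx d0 s s.length) := by
  have hl : (s ++ [b]).length = s.length + 1 := by simp
  have h1 : vx v0 d0 (s ++ [b]) (s ++ [b]).length = tip v0 d0 s := by
    rw [hl]
    exact vx_append le_rfl
  have h2 : dx d0 (s ++ [b]) (s ++ [b]).length = turn b (dx d0 s s.length) := by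
    rw [hl]
    show ds d0 (tf (s ++ [b])) (s.length + 1) = _
    rw [ds_succ]
    have e4 : tf (s ++ [b]) s.length = b := tf_append_right 0
    have e5 : ds d0 (tf (s ++ [b])) s.length = dx d0 s s.length := dx_append le_rfl
    rw [e4, e5]
  refine ⟨h1, h2, ?_⟩
  show vx v0 d0 (s ++ [b]) (s ++ [b]).length + dx d0 (s ++ [b]) (s ++ [b]).length = _
  rw [h1, h2]

/-- the stems from the foot j. -/
noncomputable def stm (T A B j : ℕ) (e : Pt) : Finset (List Bool) := by
  classical
  exact (exits (HR T A B) (ft (j : ℤ)).1 up).filter (fun t =>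
    dx up t t.length = e ∧ (tip (ft (j : ℤ)).1 up t).1 ≤ 0 ∧ tip (ft (j : ℤ)).1 up t ∈ Par T A B)

lemma mem_stm {T A B j : ℕ} {e : Pt} {t : List Bool} : t ∈ stm T A B j e ↔
    t ∈ exits (HR T A B) (ft (j : ℤ)).1 up ∧
    dx up t t.length = e ∧ (tip (ft (j : ℤ)).1 up t).1 ≤ 0 ∧ tip (ft (j : ℤ)).1 up t ∈ Par T A B := by
  unfold stm
  rw [Finset.mem_filter]

lemma stem_eq (T A B N : ℕ) (e : Pt) : stem T A B N e = ∑ j ∈ Finset.Icc 1 N, ∑ t ∈ stm T A B j e, xc ^ t.length := by
  unfold stem stm
  apply Finset.sum_congr rfl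
  intro j _
  apply Finset.sum_congr _ (fun _ _ => rfl)
  ext t
  simp only [Finset.mem_filter]

/-- leaving through the line in the direction (-1, 1). -/
lemma leave {T A B : ℕ} (hT : 1 ≤ T) (hA : T + 1 ≤ A) {v : Pt} (hv : v ∈ HR T A B) (h1 : v.1 = 1) (h2 : nn v % 3 = 2) :
    v + (-1, 1) ∈ Par T A B ∧ (v + (-1, 1)).1 = 0 := by
  have h0 := mem_par.1 (mem_HR.1 hv).1
  rw [mem_par, Vt_iff]
  rw [Vt_iff] at h0
  have := lat_eq v
  unfold nn lv at *
  simp only [Prod.fst_add, Prod.snd_add] at *
  omega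

/-- the last letters of the stems of direction (-1, 0). -/
lemma stm_last {T A B j : ℕ} (hT : 1 ≤ T) (hA : T + 1 ≤ A) (hj : 1 ≤ j) (hB : j < B) {t : List Bool}
    (ht : t ∈ stm T A B j (-1, 0)) :
    (∃ s, t = s ++ [true] ∧ dx up s s.length = (-1, 1) ∧ IsArr (HR T A B) (ft (j : ℤ)).1 up s ∧
      tip (ft (j : ℤ)).1 up s ∈ HR T A B ∧ (tip (ft (j : ℤ)).1 up s).1 = 1 ∧
      nn (tip (ft (j : ℤ)).1 up s) % 3 = 0 ∧
      (∀ i, i ≤ s.length → vx (ft (j : ℤ)).1 up s i ≠ tip (ft (j : ℤ)).1 up s)) ∨
    (∃ s, t = (s ++ [true]) ++ [false] ∧ dx up s s.length = (-1, 0) ∧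
      s ++ [false] ∈ stm T A B j (-1, 1)) := by
  obtain ⟨hs, hs2, hh, hh2⟩ := start_HR hT hA hj hB
  obtain ⟨h1, h2, h3, h4⟩ := mem_stm.1 ht
  have hlen := (exit_bd (a := ft (j : ℤ)) hs h1).2
  have hde : De (ft (j : ℤ)) := (mem_bd.1 hs).2.1
  rcases List.eq_nil_or_concat' t with h | ⟨s, x, rfl⟩
  · rw [h] at hlen
    simp at hlen
  obtain ⟨e1, e2, e3⟩ := tip_snoc (ft (j : ℤ)).1 up s x
  have harr := (mem_exits.1 h1).1
  obtain ⟨a1, a2, a3⟩ := isArr_append_one.1 harr
  rw [e2] at h2
  have hds : De (vx (ft (j : ℤ)).1 up s s.length, dx up s s.length) := de_vx (p := ft (j : ℤ)) hde s s.length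
  have htip0 : (tip (ft (j : ℤ)).1 up s).1 = 1 := by
    rw [e3, h2] at h3
    have := (mem_HR.1 a2).2
    rw [Prod.fst_add] at h3
    simp only at h3
    omega
  cases x with
  | true =>
    left
    have hd : dx up s s.length = (-1, 1) := by
      rcases dirs_cases hds.1 with h | h | h | h | h | h <;> change dx up s s.length = _ at h <;> rw [h] at h2 ⊢
      all_goals first | rfl | exact absurd h2 (by decide)
    refine ⟨s, rfl, hd, a1, a2, htip0, ?_, a3⟩
    have h5 := De_cases hds
    rw [hd] at h5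
    have h6 : nn (vx (ft (j : ℤ)).1 up s s.length) % 3 = 2 := by
      rcases h5 with h5 | h5
      · exact h5.1
      · exact absurd h5.2 (by decide)
    have h7 : tip (ft (j : ℤ)).1 up s = vx (ft (j : ℤ)).1 up s s.length + dx up s s.length := rfl
    rw [h7, hd, nn_add]
    have h8 : nn ((-1, 1) : Pt) = -2 := by decide
    omega
  | false =>
    right
    have hd : dx up s s.length = (0, -1) := by
      rcases dirs_cases hds.1 with h | h | h | h | h | h <;> change dx up s s.length = _ at h <;> rw [h] at h2 ⊢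
      all_goals first | rfl | exact absurd h2 (by decide)
    rcases List.eq_nil_or_concat' s with h | ⟨r, y, rfl⟩
    · rw [h] at hd
      exact absurd hd (by decide)
    obtain ⟨f1, f2, f3⟩ := tip_snoc (ft (j : ℤ)).1 up r y
    obtain ⟨b1, b2, b3⟩ := isArr_append_one.1 a1
    rw [f2] at hd
    rw [f3, hd] at htip0
    have htr : (tip (ft (j : ℤ)).1 up r).1 = 1 := by
      rw [Prod.fst_add] at htip0
      simp only at htip0
      omega
    have hdr : De (vx (ft (j : ℤ)).1 up r r.length, dx up r r.length) := de_vx (p := ft (j : ℤ)) hde r r.length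
    have hge : 1 ≤ (vx (ft (j : ℤ)).1 up r r.length).1 := by
      rcases Nat.eq_zero_or_pos r.length with h | h
      · rw [h]
        show 1 ≤ (ft (j : ℤ)).1.1
        rw [ft_fst]
        simp only
        omega
      · have := (mem_HR.1 (b1.mem _ h le_rfl)).2
        omega
    have h7 : tip (ft (j : ℤ)).1 up r = vx (ft (j : ℤ)).1 up r r.length + dx up r r.length := rfl
    have hy : y = true ∧ dx up r r.length = (-1, 0) := by
      rw [h7, Prod.fst_add] at htr
      cases y with
      | true =>
        refine ⟨rfl, ?_⟩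
        rcases dirs_cases hdr.1 with h | h | h | h | h | h <;> change dx up r r.length = _ at h <;> rw [h] at hd ⊢
        all_goals first | rfl | exact absurd hd (by decide)
      | false =>
        exfalso
        rcases dirs_cases hdr.1 with h | h | h | h | h | h <;> change dx up r r.length = _ at h <;>
          rw [h] at hd htr
        · exact absurd hd (by decide)
        · exact absurd hd (by decide)
        · exact absurd hd (by decide)
        · exact absurd hd (by decide)
        · exact absurd hd (by decide)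
        · simp only at htr
          omega
    obtain ⟨rfl, hdr0⟩ := hy
    refine ⟨r, rfl, hdr0, ?_⟩
    obtain ⟨g1, g2, g3⟩ := tip_snoc (ft (j : ℤ)).1 up r false
    rw [hdr0] at g2 g3
    have hturn : turn false ((-1, 0) : Pt) = (-1, 1) := by decide
    rw [hturn] at g2 g3
    have h6 : nn (tip (ft (j : ℤ)).1 up r) % 3 = 2 := by
      have h5 := De_cases hdr
      rw [hdr0] at h5
      have h6 : nn (vx (ft (j : ℤ)).1 up r r.length) % 3 = 0 := by
        rcases h5 with h5 | h5
        · exact absurd h5.2 (by decide)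
        · exact h5.1
      rw [h7, hdr0, nn_add]
      have h8 : nn ((-1, 0) : Pt) = -1 := by decide
      omega
    obtain ⟨k1, k2⟩ := leave hT hA b2 htr h6
    rw [mem_stm]
    refine ⟨?_, g2, ?_, ?_⟩
    · rw [mem_exits]
      refine ⟨isArr_append_one.2 ⟨b1, b2, b3⟩, ?_⟩
      rw [g3]
      intro hc
      have := (mem_HR.1 hc).2
      omega
    · rw [g3, k2]
    · rw [g3]
      exact k1

/-- from below: the vertex above is free, the stem can be continued. -/
lemma stm_up {T A B j : ℕ} (hT : 1 ≤ T) (hA : T + 1 ≤ A) (hj : 1 ≤ j) (hB : j < B) {s : List Bool}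
    (hd : dx up s s.length = (-1, 1)) (ha : IsArr (HR T A B) (ft (j : ℤ)).1 up s)
    (hb : tip (ft (j : ℤ)).1 up s ∈ HR T A B) (h1 : (tip (ft (j : ℤ)).1 up s).1 = 1)
    (hnn : nn (tip (ft (j : ℤ)).1 up s) % 3 = 0)
    (hne : ∀ i, i ≤ s.length → vx (ft (j : ℤ)).1 up s i ≠ tip (ft (j : ℤ)).1 up s)
    (hup : tip (ft (j : ℤ)).1 up s + up ∈ HR T A B) :
    (s ++ [false]) ++ [true] ∈ stm T A B j (-1, 1) := by
  obtain ⟨hs, hs2, hh, hh2⟩ := start_HR hT hA hj hB
  have hde : De (ft (j : ℤ)) := (mem_bd.1 hs).2.1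
  obtain ⟨f1, f2, f3⟩ := tip_snoc (ft (j : ℤ)).1 up s false
  have hturn : turn false ((-1, 1) : Pt) = up := by decide
  rw [hd, hturn] at f2 f3
  obtain ⟨g1, g2, g3⟩ := tip_snoc (ft (j : ℤ)).1 up (s ++ [false]) true
  have hturn2 : turn true up = (-1, 1) := by decide
  rw [f2, hturn2] at g2
  rw [f3, f2, hturn2] at g3
  have hA2 : nn (tip (ft (j : ℤ)).1 up s + up) % 3 = 2 := by
    rw [nn_add]
    have h8 : nn up = -1 := by decide
    omega
  have h1u : (tip (ft (j : ℤ)).1 up s + up).1 = 1 := by
    rw [Prod.fst_add, h1]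
    rfl
  obtain ⟨k1, k2⟩ := leave hT hA hup h1u hA2
  have harr1 : IsArr (HR T A B) (ft (j : ℤ)).1 up (s ++ [false]) := isArr_append_one.2 ⟨ha, hb, hne⟩
  have hl : (s ++ [false]).length = s.length + 1 := by simp
  have hfree : ∀ i, i ≤ (s ++ [false]).length → vx (ft (j : ℤ)).1 up (s ++ [false]) i ≠
      tip (ft (j : ℤ)).1 up (s ++ [false]) := by
    intro i hi hc
    rw [f3] at hc
    rw [hl] at hi
    have hup0 := mem_par.1 (mem_HR.1 hup).1
    rcases Nat.eq_zero_or_pos i with h0 | h0
    · rw [h0] at hc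
      have hc2 : (ft (j : ℤ)).1 = tip (ft (j : ℤ)).1 up s + up := hc
      have h5 := congrArg lv hc2
      have h7 : lv (ft (j : ℤ)).1 = 0 := by
        rw [ft_fst]
        unfold lv
        simp only
        ring
      have h6 := hup0.2.1
      omega
    · rcases Nat.lt_or_ge s.length i with h3 | h3
      · have h4 : i = (s ++ [false]).length := by omega
        rw [h4, f1] at hc
        have := congrArg lv hc
        rw [lv_add] at this
        have h8 : lv up = 2 := by decide
        omega
      · -- interior vertex with the two neighbours i - 1, i + 1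
        have e0 : vx (ft (j : ℤ)).1 up (s ++ [false]) i = vx (ft (j : ℤ)).1 up s i := vx_append (by omega)
        rw [e0] at hc
        have e1 : vx (ft (j : ℤ)).1 up s (i + 1) = vx (ft (j : ℤ)).1 up s i + dx up s i := rfl
        have hin1 : vx (ft (j : ℤ)).1 up s (i + 1) ∈ HR T A B := by
          rcases Nat.lt_or_ge i s.length with h4 | h4
          · exact ha.mem _ (by omega) (by omega)
          · have : i = s.length := by omega
            rw [this]
            exact hb
        have d1 : De (vx (ft (j : ℤ)).1 up s i, dx up s i) := de_vx (p := ft (j : ℤ)) hde s i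
        have c1 := De_cases d1
        rw [hc] at c1 e1
        obtain ⟨i', rfl⟩ : ∃ i', i = i' + 1 := ⟨i - 1, by omega⟩
        have e2 : vx (ft (j : ℤ)).1 up s (i' + 1) = vx (ft (j : ℤ)).1 up s i' + dx up s i' := rfl
        have d2 : De (vx (ft (j : ℤ)).1 up s i', dx up s i') := de_vx (p := ft (j : ℤ)) hde s i'
        have c2 := De_cases d2
        have hi'1 : 1 ≤ (vx (ft (j : ℤ)).1 up s i').1 := by
          rcases Nat.eq_zero_or_pos i' with h | h
          · rw [h]
            show 1 ≤ (ft (j : ℤ)).1.1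
            rw [ft_fst]
            simp only
            omega
          · have := (mem_HR.1 (ha.mem _ h (by omega))).2
            omega
        rw [e2] at hc
        have hi1 := (mem_HR.1 hin1).2
        rw [e1, Prod.fst_add, h1u] at hi1
        -- the next direction
        have n1 : dx up s (i' + 1) = (1, 0) ∨ dx up s (i' + 1) = (0, -1) := by
          rcases c1 with ⟨_, h | h | h⟩ | ⟨h, _⟩
          · exact Or.inl h
          · exfalso
            rw [h] at hi1
            simp only at hi1
            omega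
          · exact Or.inr h
          · exfalso
            omega
        -- the previous direction
        have hc1 := congrArg Prod.fst hc
        rw [Prod.fst_add, h1u] at hc1
        have hcn := congrArg nn hc
        rw [nn_add] at hcn
        have n2 : dx up s i' = (-1, 0) ∨ dx up s i' = (0, 1) := by
          rcases c2 with ⟨h, h'⟩ | ⟨_, h | h | h⟩
          · exfalso
            have h9 : nn (dx up s i') % 3 = 1 := by
              rcases h' with h' | h' | h' <;> rw [h'] <;> decide
            omega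
          · exact Or.inr h
          · exact Or.inl h
          · exfalso
            rw [h] at hc1
            simp only at hc1
            omega
        rcases n1 with n1 | n1
        · rcases n2 with n2 | n2
          · -- both neighbours agree
            have : vx (ft (j : ℤ)).1 up s i' = vx (ft (j : ℤ)).1 up s (i' + 1 + 1) := by
              rw [e1, ← hc, n1, n2]
              ext <;> simp
            rcases Nat.lt_or_ge (i' + 1) s.length with h4 | h4
            · exact ha.inj i' (i' + 1 + 1) (by omega) (by omega) this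
            · have h5 : i' + 1 = s.length := by omega
              apply hne i' (by omega)
              rw [this, h5]
              rfl
          · -- the previous one is the tip
            apply hne i' (by omega)
            rw [n2] at hc
            exact add_right_cancel hc
        · -- the next one is the tip
          rw [n1] at e1
          have e4 : vx (ft (j : ℤ)).1 up s (i' + 1 + 1) = tip (ft (j : ℤ)).1 up s := by
            rw [e1]
            ext <;> simp [up]
          rcases Nat.lt_or_ge (i' + 1) s.length with h4 | h4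
          · exact hne (i' + 1 + 1) (by omega) e4
          · have h5 : i' + 1 = s.length := by omega
            rw [h5, hd] at n1
            exact absurd n1 (by decide)
  rw [mem_stm]
  refine ⟨?_, g2, ?_, ?_⟩
  · rw [mem_exits]
    refine ⟨isArr_append_one.2 ⟨harr1, ?_, hfree⟩, ?_⟩
    · rw [f3]
      exact hup
    · rw [g3]
      intro hc
      have := (mem_HR.1 hc).2
      omega
  · rw [g3, k2]
  · rw [g3]
    exact k1

/-- at the top: the stem can be continued to a bridge. -/
lemma stm_top {T A B j : ℕ} (hT : 1 ≤ T) (hA : T + 1 ≤ A) (hj : 1 ≤ j) (hB : j < B) {s : List Bool}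
    (hd : dx up s s.length = (-1, 1)) (ha : IsArr (HR T A B) (ft (j : ℤ)).1 up s)
    (hb : tip (ft (j : ℤ)).1 up s ∈ HR T A B) (h1 : (tip (ft (j : ℤ)).1 up s).1 = 1)
    (hnn : nn (tip (ft (j : ℤ)).1 up s) % 3 = 0)
    (hne : ∀ i, i ≤ s.length → vx (ft (j : ℤ)).1 up s i ≠ tip (ft (j : ℤ)).1 up s)
    (hup : tip (ft (j : ℤ)).1 up s + up ∉ HR T A B) :
    s ++ [false] ∈ out (St T) oo up up ∧ (tip oo up (s ++ [false])).1 = 1 - 2 * j := by
  obtain ⟨f1, f2, f3⟩ := tip_snoc (ft (j : ℤ)).1 up s false
  have hturn : turn false ((-1, 1) : Pt) = up := by decide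
  rw [hd, hturn] at f2 f3
  have harr1 : IsArr (HR T A B) (ft (j : ℤ)).1 up (s ++ [false]) := isArr_append_one.2 ⟨ha, hb, hne⟩
  have hvx : ∀ i, vx (ft (j : ℤ)).1 up (s ++ [false]) i = vx oo up (s ++ [false]) i + (ft (j : ℤ)).1 := by
    intro i
    have h := CB.vx_trans (ft (j : ℤ)).1 oo up (s ++ [false]) i
    have e : oo + (ft (j : ℤ)).1 = (ft (j : ℤ)).1 := zero_add _
    rw [e] at h
    exact h
  have hmem : ∀ v : Pt, v + (ft (j : ℤ)).1 ∈ Par T A B → v ∈ St T := by
    intro v hv
    obtain ⟨p1, p2, p3, _, _⟩ := mem_par.1 hv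
    rw [Vt_iff] at p1
    show IsHex oo up v ∧ _
    have q1 : IsHex oo up v := by
      unfold IsHex
      have hv' : Vt v := by
        rw [Vt_iff]
        rw [ft_fst] at p1
        unfold nn at *
        simp only [Prod.fst_add, Prod.snd_add] at p1
        omega
      unfold Vt at hv'
      have e1 : cl oo = 0 := by decide
      have e2 : cl oo + cl up = -1 := by decide
      rw [e1] at e2 ⊢
      rw [e2]
      revert hv'
      generalize cl v = c
      revert c
      decide
    refine ⟨q1, ?_, ?_⟩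
    · rw [ft_fst] at p2
      unfold ip oo up lv at *
      simp only [Prod.fst_add, Prod.snd_add, Prod.fst_sub, Prod.snd_sub] at *
      omega
    · rw [ft_fst] at p3
      unfold ip oo up lv at *
      simp only [Prod.fst_add, Prod.snd_add, Prod.fst_sub, Prod.snd_sub] at *
      omega
  have htipo : tip oo up (s ++ [false]) + (ft (j : ℤ)).1 = tip (ft (j : ℤ)).1 up s + up := by
    rw [← f3]
    exact (hvx _).symm
  constructor
  · refine ⟨⟨?_, ?_⟩, ?_, ?_⟩
    · intro i h3 h4
      apply hmem
      rw [← hvx]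
      exact (mem_HR.1 (harr1.mem i h3 h4)).1
    · intro i k hik hk hc
      apply harr1.inj i k hik hk
      rw [hvx, hvx, hc]
    · intro hc
      have hc3 := hc.2.2
      have hb0 := mem_par.1 (mem_HR.1 hb).1
      apply hup
      rw [mem_HR, mem_par]
      have e5 : ip (tip oo up (s ++ [false]) - oo) up = lv (tip (ft (j : ℤ)).1 up s + up) := by
        rw [← htipo, ft_fst]
        unfold ip oo up lv
        simp only [Prod.fst_add, Prod.snd_add, Prod.fst_sub, Prod.snd_sub]
        ring
      rw [e5] at hc3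
      rw [Vt_iff] at hb0 ⊢
      have l1 := lat_eq (tip (ft (j : ℤ)).1 up s)
      rw [nn_add, lv_add, Prod.fst_add]
      rw [lv_add] at hc3
      have h8 : nn up = -1 := by decide
      have h9 : lv up = 2 := by decide
      have h10 : up.1 = 0 := rfl
      rw [h8, h9, h10]
      rw [h9] at hc3
      omega
    · exact f2
  · have := congrArg Prod.fst htipo
    rw [Prod.fst_add, Prod.fst_add, h1, ft_fst] at this
    have h10 : up.1 = 0 := rfl
    rw [h10] at this
    simp only at this
    omega

theorem stem_inj {T A B N : ℕ} (hT : 1 ≤ T) (hA : T + 1 ≤ A) (hB : N < B) :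
    xc * stem T A B N (-1, 0) ≤ stem T A B N (-1, 1) + 1 := by
  classical
  have hx0 := xc_pos
  have hx1 : xc ≤ 1 := c8_xc_le
  -- the three types
  set P1 : ℕ → Finset (List Bool) := fun j => (stm T A B j (-1, 0)).filter (fun t => t.getLast? = some false)
  set P2 : ℕ → Finset (List Bool) := fun j => (stm T A B j (-1, 0)).filter (fun t => t.getLast? ≠ some false ∧
    tip (ft (j : ℤ)).1 up t.dropLast + up ∈ HR T A B)
  set P3 : ℕ → Finset (List Bool) := fun j => (stm T A B j (-1, 0)).filter (fun t => t.getLast? ≠ some false ∧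
    tip (ft (j : ℤ)).1 up t.dropLast + up ∉ HR T A B)
  have hsplit : ∀ j, ∑ t ∈ stm T A B j (-1, 0), xc ^ t.length =
      ∑ t ∈ P1 j, xc ^ t.length + ∑ t ∈ P2 j, xc ^ t.length + ∑ t ∈ P3 j, xc ^ t.length := by
    intro j
    rw [← Finset.sum_filter_add_sum_filter_not _ (fun t => t.getLast? = some false)]
    rw [add_assoc]
    congr 1
    rw [← Finset.sum_filter_add_sum_filter_not _ (fun t => tip (ft (j : ℤ)).1 up t.dropLast + up ∈ HR T A B)]
    rw [Finset.filter_filter, Finset.filter_filter]
  have h12 : ∀ j, 1 ≤ j → j ≤ N → xc * (∑ t ∈ P1 j, xc ^ t.length + ∑ t ∈ P2 j, xc ^ t.length) ≤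
      ∑ t ∈ stm T A B j (-1, 1), xc ^ t.length := by
    intro j hj1 hj2
    have hBj : j < B := by omega
    set φ1 : List Bool → List Bool := fun t => t.dropLast.dropLast ++ [false] with hφ1
    set φ2 : List Bool → List Bool := fun t => (t.dropLast ++ [false]) ++ [true] with hφ2
    have k1 : ∀ t ∈ P1 j, ∃ s, t = (s ++ [true]) ++ [false] ∧ φ1 t = s ++ [false] ∧
        s ++ [false] ∈ stm T A B j (-1, 1) := by
      intro t ht
      obtain ⟨ht1, ht2⟩ := Finset.mem_filter.1 ht
      rcases stm_last hT hA hj1 hBj ht1 with ⟨s, rfl, _⟩ | ⟨s, rfl, h1, h2⟩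
      · simp at ht2
      · refine ⟨s, rfl, ?_, h2⟩
        simp [hφ1]
    have k2 : ∀ t ∈ P2 j, ∃ s, t = s ++ [true] ∧ φ2 t = (s ++ [false]) ++ [true] ∧
        (s ++ [false]) ++ [true] ∈ stm T A B j (-1, 1) := by
      intro t ht
      obtain ⟨ht1, ht2, ht3⟩ := Finset.mem_filter.1 ht
      rcases stm_last hT hA hj1 hBj ht1 with ⟨s, rfl, h1, h2, h3, h4, h5, h6⟩ | ⟨s, rfl, h1, h2⟩
      · refine ⟨s, rfl, ?_, ?_⟩
        · simp [hφ2]
        · rw [List.dropLast_concat] at ht3
          exact stm_up hT hA hj1 hBj h1 h2 h3 h4 h5 h6 ht3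
      · simp at ht2
    have i1 : Set.InjOn φ1 (P1 j : Set (List Bool)) := by
      intro t ht t' ht' hc
      obtain ⟨s, rfl, h1, _⟩ := k1 t ht
      obtain ⟨s', rfl, h1', _⟩ := k1 t' ht'
      rw [h1, h1'] at hc
      rw [(List.append_left_inj [false]).1 hc]
    have i2 : Set.InjOn φ2 (P2 j : Set (List Bool)) := by
      intro t ht t' ht' hc
      obtain ⟨s, rfl, h1, _⟩ := k2 t ht
      obtain ⟨s', rfl, h1', _⟩ := k2 t' ht'
      rw [h1, h1'] at hc
      rw [(List.append_left_inj [false]).1 ((List.append_left_inj [true]).1 hc)]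
    have hdis : Disjoint ((P1 j).image φ1) ((P2 j).image φ2) := by
      rw [Finset.disjoint_left]
      intro u hu hu'
      obtain ⟨t, ht, rfl⟩ := Finset.mem_image.1 hu
      obtain ⟨t', ht', hc⟩ := Finset.mem_image.1 hu'
      obtain ⟨s, rfl, h1, _⟩ := k1 t ht
      obtain ⟨s', rfl, h1', _⟩ := k2 t' ht'
      rw [h1, h1'] at hc
      have := congrArg List.getLast? hc
      simp at this
    have hsub : (P1 j).image φ1 ∪ (P2 j).image φ2 ⊆ stm T A B j (-1, 1) := by
      intro u hu
      rcases Finset.mem_union.1 hu with hu | hu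
      · obtain ⟨t, ht, rfl⟩ := Finset.mem_image.1 hu
        obtain ⟨s, rfl, h1, h2⟩ := k1 t ht
        rw [h1]
        exact h2
      · obtain ⟨t, ht, rfl⟩ := Finset.mem_image.1 hu
        obtain ⟨s, rfl, h1, h2⟩ := k2 t ht
        rw [h1]
        exact h2
    calc xc * (∑ t ∈ P1 j, xc ^ t.length + ∑ t ∈ P2 j, xc ^ t.length) =
        ∑ t ∈ P1 j, xc * xc ^ t.length + ∑ t ∈ P2 j, xc * xc ^ t.length := by
          rw [mul_add, Finset.mul_sum, Finset.mul_sum]
      _ ≤ ∑ t ∈ P1 j, xc ^ (φ1 t).length + ∑ t ∈ P2 j, xc ^ (φ2 t).length := by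
          apply add_le_add
          · apply Finset.sum_le_sum
            intro t ht
            obtain ⟨s, rfl, h1, _⟩ := k1 t ht
            rw [h1]
            have e1 : ((s ++ [true]) ++ [false]).length = s.length + 2 := by simp
            have e2 : (s ++ [false]).length = s.length + 1 := by simp
            rw [e1, e2]
            have : xc ^ (s.length + 2) = xc ^ (s.length + 1) * xc := pow_succ _ _
            rw [this]
            have h3 : 0 ≤ xc ^ (s.length + 1) := by positivity
            have h4 : xc * xc ≤ 1 := by nlinarith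
            nlinarith
          · apply le_of_eq
            apply Finset.sum_congr rfl
            intro t ht
            obtain ⟨s, rfl, h1, _⟩ := k2 t ht
            rw [h1]
            have e1 : (s ++ [true]).length = s.length + 1 := by simp
            have e2 : ((s ++ [false]) ++ [true]).length = s.length + 1 + 1 := by simp
            rw [e1, e2, pow_succ xc (s.length + 1)]
            ring
      _ = ∑ u ∈ (P1 j).image φ1, xc ^ u.length + ∑ u ∈ (P2 j).image φ2, xc ^ u.length := by
          rw [Finset.sum_image i1, Finset.sum_image i2]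
      _ = ∑ u ∈ (P1 j).image φ1 ∪ (P2 j).image φ2, xc ^ u.length := by
          rw [Finset.sum_union hdis]
      _ ≤ _ := Finset.sum_le_sum_of_subset_of_nonneg hsub (fun u _ _ => by positivity)
  have h3 : ∑ j ∈ Finset.Icc 1 N, ∑ t ∈ P3 j, xc ^ t.length ≤ 1 := by
    rw [Finset.sum_sigma']
    set ψ : (_ : ℕ) × List Bool → List Bool := fun x => x.2.dropLast ++ [false] with hψ
    have k3 : ∀ x ∈ (Finset.Icc 1 N).sigma P3, ∃ s, x.2 = s ++ [true] ∧ ψ x = s ++ [false] ∧
        s ++ [false] ∈ out (St T) oo up up ∧ (tip oo up (s ++ [false])).1 = 1 - 2 * x.1 := by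
      rintro ⟨j, t⟩ hx
      obtain ⟨hj, ht⟩ := Finset.mem_sigma.1 hx
      rw [Finset.mem_Icc] at hj
      obtain ⟨ht1, ht2, ht3⟩ := Finset.mem_filter.1 ht
      simp only at hj ht1 ht2 ht3
      rcases stm_last hT hA hj.1 (by omega) ht1 with ⟨s, rfl, h1, h2, h3, h4, h5, h6⟩ | ⟨s, rfl, h1, h2⟩
      · refine ⟨s, rfl, ?_, ?_⟩
        · simp [hψ]
        · rw [List.dropLast_concat] at ht3
          exact stm_top hT hA hj.1 (by omega) h1 h2 h3 h4 h5 h6 ht3
      · simp at ht2
    have hinj : Set.InjOn ψ ((Finset.Icc 1 N).sigma P3 : Set ((_ : ℕ) × List Bool)) := by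
      intro x hx y hy hc
      obtain ⟨s, h1, h2, _, h4⟩ := k3 x hx
      obtain ⟨s', h1', h2', _, h4'⟩ := k3 y hy
      rw [h2, h2'] at hc
      have hs : s = s' := (List.append_left_inj [false]).1 hc
      rw [hs] at h4 h1
      have h5 : x.1 = y.1 := by
        rw [h4] at h4'
        omega
      rcases x with ⟨j, t⟩
      rcases y with ⟨j', t'⟩
      simp only at h1 h1' h5
      subst h5
      rw [h1, h1']
    calc ∑ x ∈ (Finset.Icc 1 N).sigma P3, xc ^ x.2.length = ∑ x ∈ (Finset.Icc 1 N).sigma P3, xc ^ (ψ x).length := by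
          apply Finset.sum_congr rfl
          intro x hx
          obtain ⟨s, h1, h2, _, _⟩ := k3 x hx
          rw [h1, h2]
          simp
      _ = ∑ u ∈ ((Finset.Icc 1 N).sigma P3).image ψ, xc ^ u.length := by
          rw [Finset.sum_image hinj]
      _ ≤ 1 := by
          apply fin_bridges hT
          intro u hu
          obtain ⟨x, hx, rfl⟩ := Finset.mem_image.1 hu
          obtain ⟨s, h1, h2, h3, _⟩ := k3 x hx
          rw [h2]
          exact h3
  rw [stem_eq, stem_eq, Finset.mul_sum]
  have h4 : ∀ j ∈ Finset.Icc 1 N, xc * ∑ t ∈ stm T A B j (-1, 0), xc ^ t.length ≤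
      ∑ t ∈ stm T A B j (-1, 1), xc ^ t.length + xc * ∑ t ∈ P3 j, xc ^ t.length := by
    intro j hj
    rw [Finset.mem_Icc] at hj
    rw [hsplit j, mul_add]
    have := h12 j hj.1 hj.2
    linarith
  calc ∑ j ∈ Finset.Icc 1 N, xc * ∑ t ∈ stm T A B j (-1, 0), xc ^ t.length ≤
      ∑ j ∈ Finset.Icc 1 N, (∑ t ∈ stm T A B j (-1, 1), xc ^ t.length + xc * ∑ t ∈ P3 j, xc ^ t.length) :=
        Finset.sum_le_sum h4
    _ = ∑ j ∈ Finset.Icc 1 N, ∑ t ∈ stm T A B j (-1, 1), xc ^ t.length +
        xc * ∑ j ∈ Finset.Icc 1 N, ∑ t ∈ P3 j, xc ^ t.length := by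
        rw [Finset.sum_add_distrib, Finset.mul_sum]
    _ ≤ _ := by
        have h5 : 0 ≤ ∑ j ∈ Finset.Icc 1 N, ∑ t ∈ P3 j, xc ^ t.length :=
          Finset.sum_nonneg (fun j _ => Finset.sum_nonneg (fun t _ => by positivity))
        nlinarith

end C8C

end LP

end HexObs
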