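import Pool.Agent.HexLoop.DefsW
import Pool.Agent.HexLoop.Par
import Pool.Agent.HexLoop.RevW
import Pool.Agent.W47.K4

/-!
SD8, module C8D: the arcs from the feet 1, ..., N to the feet N + 1, ... of the half domain.
-/

set_option autoImplicit false

namespace HexObs

namespace LP

open Complex Finset ENNReal

section C8D

private lemma c8d_mem_HR {T A B : ℕ} {v : Pt} : v ∈ HR T A B ↔ v ∈ Par T A B ∧ 0 < v.1 := by
  unfold HR
  rw [Finset.mem_filter]

private lemma c8d_ft (k : ℤ) : (ft k).1 = (2 * k, -k) := by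
  unfold ft hz rotR up
  ext
  · simp
    ring
  · simp

private lemma c8d_vx (k : ℤ) (t : List Bool) (i : ℕ) : vx (ft k).1 up t i = vx oo up t i + (ft k).1 := by
  have h := CB.vx_trans (ft k).1 oo up t i
  have e : oo + (ft k).1 = (ft k).1 := zero_add _
  rw [e] at h
  exact h

private lemma c8d_cl (v : Pt) (k : ℤ) : cl v = (k : ZMod 3) ↔ (v.1 - v.2 - k) % 3 = 0 := by
  unfold cl
  rw [ZMod.intCast_eq_intCast_iff]
  unfold Int.ModEq
  push_cast
  omega

private lemma c8d_vt (v : Pt) : Vt v ↔ (v.1 - v.2) % 3 ≠ 1 := by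
  unfold Vt
  have h := c8d_cl v 1
  rw [Int.cast_one] at h
  rw [Ne, h]
  omega

private lemma c8d_hex (v : Pt) : IsHex oo up v ↔ Vt v := by
  have e1 : cl oo = 0 := by decide
  have e2 : cl up = -1 := by decide
  have h0 := c8d_cl v 0
  have h2 := c8d_cl v (-1)
  rw [Int.cast_zero] at h0
  rw [Int.cast_neg, Int.cast_one] at h2
  unfold IsHex
  rw [e1, e2, zero_add, h0, h2, c8d_vt]
  omega

private lemma c8d_mem_St {T : ℕ} {v : Pt} : v ∈ St T ↔ Vt v ∧ 0 < lv v ∧ lv v < 3 * T + 2 := by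
  have e0 : v - oo = v := sub_zero v
  have e1 : ip v up = lv v := by
    unfold ip up lv
    ring
  have h : v ∈ St T ↔ IsHex oo up v ∧ 0 < ip (v - oo) up ∧ ip (v - oo) up < 3 * T + 2 := Iff.rfl
  rw [h, e0, e1, c8d_hex]

/-- arcs that land on the right. -/
private def c8d_P (T : ℕ) : Set (List Bool) := {t | t ∈ out (St T) oo up (-up) ∧ 0 < (tip oo up t).1}

/-- the displacement. -/
private def c8d_D (t : List Bool) : ℕ := (-(tip oo up t).2).toNat

private lemma c8d_land {T : ℕ} (hT : 1 ≤ T) {t : List Bool} (ht : t ∈ c8d_P T) :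
    1 ≤ c8d_D t ∧ tip oo up t = (2 * (c8d_D t : ℤ), -(c8d_D t : ℤ)) := by
  obtain ⟨k, -, hk⟩ := k4_land hT ht.1
  rw [k4_foot] at hk
  have h1 := ht.2
  have e : c8d_D t = k.toNat := by
    unfold c8d_D
    rw [hk]
    simp only [neg_neg]
  rw [hk] at h1
  simp only at h1
  have h2 : (c8d_D t : ℤ) = k := by
    rw [e]
    omega
  refine ⟨by omega, ?_⟩
  rw [hk, h2]

private lemma c8d_KT {T : ℕ} (hT : 1 ≤ T) :
    KT T = ∑' t : List Bool, (c8d_P T).indicator (fun t => (c8d_D t : ℝ≥0∞) * wE t) t := by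
  unfold KT
  have e : ∀ k : ℕ, (k : ℝ≥0∞) * GG T k =
      ∑' t : List Bool, (k : ℝ≥0∞) * (Arc (St T) ∅ oo up (foot oo up k)).indicator wE t := by
    intro k
    rw [ENNReal.tsum_mul_left, ← _root_.tsum_subtype]
    rfl
  rw [tsum_congr e, ENNReal.tsum_comm]
  refine tsum_congr fun t => ?_
  by_cases ht : t ∈ c8d_P T
  · obtain ⟨h1, h2⟩ := c8d_land hT ht
    rw [Set.indicator_of_mem ht, tsum_eq_single (c8d_D t)]
    · rw [Set.indicator_of_mem]
      rw [k4_arc]
      refine ⟨ht.1, ?_⟩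
      rw [k4_foot, h2]
    · intro l hl
      rw [Set.indicator_of_notMem, mul_zero]
      intro h
      apply hl
      have h3 := (k4_arc.1 h).2
      rw [k4_foot, h2] at h3
      have h4 := congrArg Prod.snd h3
      simp only at h4
      omega
  · rw [Set.indicator_of_notMem ht]
    rw [ENNReal.tsum_eq_zero]
    intro k
    rcases Nat.eq_zero_or_pos k with hk | hk
    · rw [hk, Nat.cast_zero, zero_mul]
    · rw [Set.indicator_of_notMem, mul_zero]
      intro h
      apply ht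
      rw [k4_arc] at h
      refine ⟨h.1, ?_⟩
      rw [h.2, k4_foot]
      simp only
      omega

open Classical in
/-- the arcs counted by outN. -/
private noncomputable def c8d_E (T A B N j : ℕ) : Finset (List Bool) :=
  (exits (HR T A B) (ft (j : ℤ)).1 up).filter (fun t =>
    dx up t t.length = -up ∧ 2 * (N : ℤ) < (tip (ft (j : ℤ)).1 up t).1)

private lemma c8d_mem_E {T A B N j : ℕ} {t : List Bool} : t ∈ c8d_E T A B N j ↔
    IsArr (HR T A B) (ft (j : ℤ)).1 up t ∧ tip (ft (j : ℤ)).1 up t ∉ HR T A B ∧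
      dx up t t.length = -up ∧ 2 * (N : ℤ) < (tip (ft (j : ℤ)).1 up t).1 := by
  unfold c8d_E
  rw [Finset.mem_filter, mem_exits]
  tauto

private lemma c8d_outN (T A B N : ℕ) : outN T A B N = ∑ j ∈ Finset.Icc 1 N, ∑ t ∈ c8d_E T A B N j, xc ^ t.length := rfl

private lemma c8d_outN_nonneg (T A B N : ℕ) : 0 ≤ outN T A B N := by
  rw [c8d_outN]
  exact Finset.sum_nonneg fun _ _ => Finset.sum_nonneg fun _ _ => pow_nonneg xc_pos.le _

open Classical in
private lemma c8d_ofReal (T A B N : ℕ) : ENNReal.ofReal (outN T A B N) =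
    ∑' t : List Bool, ∑ j ∈ Finset.Icc 1 N, if t ∈ c8d_E T A B N j then wE t else 0 := by
  rw [c8d_outN, ENNReal.ofReal_sum_of_nonneg
    (fun _ _ => Finset.sum_nonneg fun _ _ => pow_nonneg xc_pos.le _),
    Summable.tsum_finsetSum (fun _ _ => ENNReal.summable)]
  apply Finset.sum_congr rfl
  intro j _
  rw [ENNReal.ofReal_sum_of_nonneg (fun _ _ => pow_nonneg xc_pos.le _),
    tsum_eq_sum (s := c8d_E T A B N j) (fun t ht => by rw [if_neg ht])]
  apply Finset.sum_congr rfl
  intro t ht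
  rw [if_pos ht]
  rfl

/-- an arc counted by outN lands on the right of N. -/
private lemma c8d_E_P {T A B N j : ℕ} {t : List Bool} (hj : j ≤ N) (ht : t ∈ c8d_E T A B N j) :
    t ∈ c8d_P T ∧ 2 * (N : ℤ) < 2 * j + (tip oo up t).1 := by
  rw [c8d_mem_E] at ht
  obtain ⟨h1, h2, h3, h4⟩ := ht
  have htip : tip (ft (j : ℤ)).1 up t = tip oo up t + (ft (j : ℤ)).1 := c8d_vx j t _
  have hx : (tip (ft (j : ℤ)).1 up t).1 = (tip oo up t).1 + 2 * j := by
    rw [htip, c8d_ft]
    rfl
  have hDe : De (ft (j : ℤ)) := by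
    refine ⟨upd, ?_, ?_⟩
    · rw [c8d_vt, c8d_ft]
      simp only
      omega
    · show Vt ((ft (j : ℤ)).1 + up)
      rw [c8d_vt, c8d_ft]
      simp only [up, Prod.mk_add_mk]
      omega
  have hlen : 1 ≤ t.length := by
    by_contra hcon
    have h0 : t.length = 0 := by omega
    rw [h0] at h3
    have h5 : up = -up := h3
    revert h5
    decide
  have hd := de_vx hDe t t.length
  have hlast := h1.mem t.length hlen le_rfl
  have htl : tip (ft (j : ℤ)).1 up t = vx (ft (j : ℤ)).1 up t t.length + -up := by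
    rw [← h3]
    rfl
  have hV2 : Vt (tip (ft (j : ℤ)).1 up t) := hd.2.2
  have hV1 : Vt (vx (ft (j : ℤ)).1 up t t.length) := hd.2.1
  have key : tip oo up t ∉ St T := by
    intro hcon
    rw [c8d_mem_St] at hcon
    obtain ⟨-, a2, a3⟩ := hcon
    apply h2
    rw [c8d_mem_HR, mem_par] at hlast ⊢
    obtain ⟨⟨b1, b2, b3, b4, b5⟩, b6⟩ := hlast
    have c1 : lv (tip (ft (j : ℤ)).1 up t) = lv (tip oo up t) := by
      rw [htip, c8d_ft]
      unfold lv
      simp only [Prod.fst_add, Prod.snd_add]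
      ring
    have c2 : nn (tip (ft (j : ℤ)).1 up t) = nn (vx (ft (j : ℤ)).1 up t t.length) + 1 := by
      rw [htl]
      unfold nn up
      simp only [Prod.fst_add, Prod.snd_add, Prod.neg_mk]
      ring
    refine ⟨⟨hV2, by omega, by omega, by omega, ?_⟩, by omega⟩
    rw [c8d_vt] at hV1
    unfold nn at b5 c2 ⊢
    omega
  refine ⟨⟨⟨⟨?_, ?_⟩, key, h3⟩, by omega⟩, by omega⟩
  · intro i hi hl
    have h5 := h1.mem i hi hl
    rw [c8d_mem_HR, mem_par, c8d_vx, c8d_ft] at h5
    rw [c8d_mem_St]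
    obtain ⟨⟨b1, b2, b3, -, -⟩, -⟩ := h5
    rw [c8d_vt] at b1 ⊢
    unfold lv at *
    simp only [Prod.fst_add, Prod.snd_add] at b1 b2 b3
    omega
  · intro i k hik hk heq
    apply h1.inj i k hik hk
    rw [c8d_vx, c8d_vx, heq]

/-- a bound for the coordinates. -/
private def c8d_M (t : List Bool) : ℕ :=
  (Finset.range (t.length + 2)).sup (fun i => (vx oo up t i).1.natAbs + (vx oo up t i).2.natAbs)

private lemma c8d_M_le {t : List Bool} {i : ℕ} (hi : i ≤ t.length + 1) :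
    (vx oo up t i).1.natAbs + (vx oo up t i).2.natAbs ≤ c8d_M t := by
  unfold c8d_M
  exact Finset.le_sup (f := fun i => (vx oo up t i).1.natAbs + (vx oo up t i).2.natAbs)
    (Finset.mem_range.2 (by omega))

/-- an arc fits at the start j. -/
private lemma c8d_P_E {T A B N j : ℕ} (hT : 1 ≤ T) {t : List Bool} (ht : t ∈ c8d_P T) {M : ℕ} (hM : c8d_M t ≤ M)
    (hA : T + 1 ≤ A) (hN : 2 * M + 1 ≤ N) (hB : N + M + 1 ≤ B) (hj : N < j + c8d_D t) (hj' : j ≤ N) :
    t ∈ c8d_E T A B N j := by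
  obtain ⟨hD, htip0⟩ := c8d_land hT ht
  obtain ⟨⟨h1, h2, h3⟩, -⟩ := ht
  have htip : tip (ft (j : ℤ)).1 up t = tip oo up t + (ft (j : ℤ)).1 := c8d_vx j t _
  have hDM : c8d_D t ≤ c8d_M t := by
    have h4 := c8d_M_le (t := t) (i := t.length + 1) le_rfl
    have h5 : vx oo up t (t.length + 1) = tip oo up t := rfl
    rw [h5, htip0] at h4
    simp only at h4
    omega
  rw [c8d_mem_E]
  refine ⟨⟨?_, ?_⟩, ?_, h3, ?_⟩
  · intro i hi hl
    have h4 := h1.mem i hi hl
    have h5 := c8d_M_le (t := t) (i := i) (by omega)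
    rw [c8d_mem_St, c8d_vt] at h4
    obtain ⟨b1, b2, b3⟩ := h4
    rw [c8d_mem_HR, mem_par, c8d_vt, c8d_vx, c8d_ft]
    unfold lv at b2 b3
    unfold lv nn
    simp only [Prod.fst_add, Prod.snd_add]
    omega
  · intro i k hik hk heq
    apply h1.inj i k hik hk
    rw [c8d_vx, c8d_vx] at heq
    exact add_right_cancel heq
  · intro hcon
    rw [c8d_mem_HR, mem_par, htip, htip0, c8d_ft] at hcon
    have h4 := hcon.1.2.1
    unfold lv at h4
    simp only [Prod.mk_add_mk] at h4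
    omega
  · rw [htip, htip0, c8d_ft]
    simp only [Prod.mk_add_mk]
    omega

theorem out_ge {T : ℕ} (hT : 1 ≤ T) {w : ℝ} (hw : w < kT T) : ∃ N0 : ℕ, ∀ N, N0 ≤ N → ∃ B0 : ℕ, ∀ A B : ℕ,
    T + 1 ≤ A → B0 ≤ B → w ≤ outN T A B N := by
  classical
  rcases lt_or_ge w 0 with hw0 | hw0
  · exact ⟨0, fun N _ => ⟨0, fun A B _ _ => hw0.le.trans (c8d_outN_nonneg T A B N)⟩⟩
  have hK : KT T ≠ ∞ := by
    intro hcon
    unfold kT at hw
    rw [hcon, ENNReal.toReal_top] at hw
    linarith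
  have h1 : ENNReal.ofReal w < KT T := (ENNReal.ofReal_lt_iff_lt_toReal hw0 hK).2 hw
  rw [c8d_KT hT, ENNReal.tsum_eq_iSup_sum, lt_iSup_iff] at h1
  obtain ⟨F, hF⟩ := h1
  refine ⟨2 * F.sup c8d_M + 1, fun N hN => ⟨N + F.sup c8d_M + 1, fun A B hA hB => ?_⟩⟩
  have h2 : ENNReal.ofReal w ≤ ENNReal.ofReal (outN T A B N) := by
    refine hF.le.trans ?_
    rw [c8d_ofReal]
    refine le_trans ?_ (ENNReal.sum_le_tsum F)
    apply Finset.sum_le_sum
    intro t htF
    by_cases ht : t ∈ c8d_P T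
    · rw [Set.indicator_of_mem ht, ← Finset.sum_filter, Finset.sum_const, nsmul_eq_mul]
      have hM : c8d_M t ≤ F.sup c8d_M := Finset.le_sup htF
      have hDM : c8d_D t ≤ c8d_M t := by
        have h4 := c8d_M_le (t := t) (i := t.length + 1) le_rfl
        have h5 : vx oo up t (t.length + 1) = tip oo up t := rfl
        rw [h5, (c8d_land hT ht).2] at h4
        simp only at h4
        omega
      have h3 : Finset.Ioc (N - c8d_D t) N ⊆ (Finset.Icc 1 N).filter (fun j => t ∈ c8d_E T A B N j) := by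
        intro j hj
        rw [Finset.mem_Ioc] at hj
        rw [Finset.mem_filter, Finset.mem_Icc]
        refine ⟨⟨by omega, hj.2⟩, ?_⟩
        exact c8d_P_E hT ht hM hA hN hB (by omega) hj.2
      have h4 := Finset.card_le_card h3
      rw [Nat.card_Ioc] at h4
      have h5 : c8d_D t ≤ ((Finset.Icc 1 N).filter (fun j => t ∈ c8d_E T A B N j)).card := by omega
      gcongr
    · rw [Set.indicator_of_notMem ht]
      exact zero_le
  exact (ENNReal.ofReal_le_ofReal_iff (c8d_outN_nonneg T A B N)).1 h2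

theorem out_le {T : ℕ} (hT : 1 ≤ T) (hK : KT T ≠ ∞) {A B N : ℕ} (hA : T + 1 ≤ A) (hB : N < B) :
    outN T A B N ≤ kT T := by
  classical
  have _ := hA
  have _ := hB
  unfold kT
  rw [← ENNReal.ofReal_le_iff_le_toReal hK, c8d_ofReal, c8d_KT hT]
  apply ENNReal.tsum_le_tsum
  intro t
  by_cases ht : t ∈ c8d_P T
  · rw [Set.indicator_of_mem ht, ← Finset.sum_filter, Finset.sum_const, nsmul_eq_mul]
    have h3 : (Finset.Icc 1 N).filter (fun j => t ∈ c8d_E T A B N j) ⊆ Finset.Ioc (N - c8d_D t) N := by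
      intro j hj
      rw [Finset.mem_filter, Finset.mem_Icc] at hj
      obtain ⟨⟨h1, h2⟩, h3⟩ := hj
      have h4 := (c8d_E_P h2 h3).2
      rw [(c8d_land hT ht).2] at h4
      simp only at h4
      rw [Finset.mem_Ioc]
      omega
    have h4 := Finset.card_le_card h3
    rw [Nat.card_Ioc] at h4
    have h5 : ((Finset.Icc 1 N).filter (fun j => t ∈ c8d_E T A B N j)).card ≤ c8d_D t := by omega
    gcongr
  · rw [Set.indicator_of_notMem ht]
    rw [nonpos_iff_eq_zero]
    apply Finset.sum_eq_zero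
    intro j hj
    rw [Finset.mem_Icc] at hj
    rw [if_neg]
    intro h
    exact ht (c8d_E_P hj.2 h).1

end C8D

end LP

end HexObs
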