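import Pool.Agent.HexLoop.DefsW
import Pool.Agent.HexLoop.Par
import Pool.Agent.W47.K4
import Pool.Agent.W47.Numbers

/-!
SD8, module C8E: words that cross the flat strip: signs and total weight; the walls.
-/

set_option autoImplicit false

namespace HexObs

namespace LP

open Complex Finset ENNReal

section C8E

private lemma c8e_big {T : ℕ} {t : List Bool} (h : Saw (St T) oo up t) : ∃ L : ℕ, 1 ≤ L ∧
    Saw (trap oo up T L) oo up t := by
  obtain ⟨L, hL⟩ := saw_trap (v0 := oo) (d0 := up) h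
  exact ⟨L + 1, by omega, hL⟩

theorem crw_wind {T : ℕ} (hT : 1 ≤ T) {t : List Bool} (ht : t ∈ Crw T) : wind t = 0 ∨ wind t = 3 ∨ wind t = -3 := by
  obtain ⟨h1, h2⟩ := ht
  obtain ⟨L, hL, h3⟩ := c8e_big h1
  have hg := trap_good (v0 := oo) HexW.up_mem hT hL
  have hex : t ∈ exits (trapF (v0 := oo) HexW.up_mem T L) oo up := by
    rw [mem_exits]
    constructor
    · rw [← saw_coe, trapF_coe]
      exact h3
    · intro h
      rw [← Finset.mem_coe, trapF_coe] at h
      exact h2 (trap_sub _ _ _ _ h)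
  obtain ⟨⟨a1, a2, a3, a4, a5⟩, ⟨b1, b2, b3, b4⟩, ⟨c1, c2, c3⟩, ⟨e1, e2⟩, f1⟩ := dirs_distinct up HexW.up_mem
  rcases strip_exit HexW.up_mem hT h1 h2 with ⟨hd, _⟩ | ⟨hd, _⟩
  · rcases hg.wind hex with ⟨h, hw⟩ | ⟨h, hw⟩ | ⟨h, hw⟩ | ⟨h, hw⟩ | ⟨h, hw⟩ | ⟨h, hw⟩ <;> rw [hd] at h
    · exact absurd h a5
    · exact absurd h b4
    · exact absurd h c3
    · exact absurd h e2
    · exact absurd h f1
    · exact Or.inr hw
  · rcases hg.wind hex with ⟨h, hw⟩ | ⟨h, hw⟩ | ⟨h, hw⟩ | ⟨h, hw⟩ | ⟨h, hw⟩ | ⟨h, hw⟩ <;> rw [hd] at h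
    · exact Or.inl hw
    · exact absurd h.symm a1
    · exact absurd h.symm a2
    · exact absurd h.symm a3
    · exact absurd h.symm a4
    · exact absurd h.symm a5

theorem ct_nonneg {T : ℕ} (hT : 1 ≤ T) {t : List Bool} (ht : t ∈ Crw T) : 0 ≤ ct t := by
  have hpi := Real.pi_pos
  apply mul_nonneg _ (pow_nonneg xc_pos.le _)
  apply Real.cos_nonneg_of_mem_Icc
  rcases crw_wind hT ht with h | h | h <;> rw [h] <;> constructor <;> push_cast <;> linarith

/-- the value of the weight. -/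
private lemma c8e_ct0 {t : List Bool} (h : wind t = 0) : ct t = xc ^ t.length := by
  unfold ct
  rw [h, Int.cast_zero, zero_mul, Real.cos_zero, one_mul]

private lemma c8e_ct3 {t : List Bool} (h : wind t = 3 ∨ wind t = -3) :
    ct t = Real.cos (3 * Real.pi / 8) * xc ^ t.length := by
  unfold ct
  rcases h with h | h
  · rw [h]
    congr 2
    push_cast
    ring
  · rw [h, ← Real.cos_neg (((-3 : ℤ) : ℝ) * (Real.pi / 8))]
    congr 2
    push_cast
    ring

/-- the words that cross the strip, by the last direction. -/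
private lemma c8e_split {T : ℕ} (hT : 1 ≤ T) : Crw T = out (St T) oo up up ∪ out (St T) oo up (-up) := by
  ext t
  constructor
  · rintro ⟨h1, h2⟩
    rcases strip_exit HexW.up_mem hT h1 h2 with ⟨hd, _⟩ | ⟨hd, _⟩
    · exact Or.inr ⟨h1, h2, hd⟩
    · exact Or.inl ⟨h1, h2, hd⟩
  · rintro (⟨h1, h2, _⟩ | ⟨h1, h2, _⟩)
    · exact ⟨h1, h2⟩
    · exact ⟨h1, h2⟩

private lemma c8e_wup {T : ℕ} (hT : 1 ≤ T) {t : List Bool} (ht : t ∈ Crw T) (hd : dx up t t.length = up) :
    wind t = 0 := by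
  obtain ⟨h1, h2⟩ := ht
  obtain ⟨L, hL, h3⟩ := c8e_big h1
  have hg := trap_good (v0 := oo) HexW.up_mem hT hL
  have hex : t ∈ exits (trapF (v0 := oo) HexW.up_mem T L) oo up := by
    rw [mem_exits]
    constructor
    · rw [← saw_coe, trapF_coe]
      exact h3
    · intro h
      rw [← Finset.mem_coe, trapF_coe] at h
      exact h2 (trap_sub _ _ _ _ h)
  obtain ⟨⟨a1, a2, a3, a4, a5⟩, _⟩ := dirs_distinct up HexW.up_mem
  rcases hg.wind hex with ⟨h, hw⟩ | ⟨h, hw⟩ | ⟨h, hw⟩ | ⟨h, hw⟩ | ⟨h, hw⟩ | ⟨h, hw⟩ <;> rw [hd] at h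
  · exact hw
  · exact absurd h.symm a1
  · exact absurd h.symm a2
  · exact absurd h.symm a3
  · exact absurd h.symm a4
  · exact absurd h.symm a5

private lemma c8e_wdn {T : ℕ} (hT : 1 ≤ T) {t : List Bool} (ht : t ∈ Crw T) (hd : dx up t t.length = -up) :
    wind t = 3 ∨ wind t = -3 := by
  obtain ⟨h1, h2⟩ := ht
  obtain ⟨L, hL, h3⟩ := c8e_big h1
  have hg := trap_good (v0 := oo) HexW.up_mem hT hL
  have hex : t ∈ exits (trapF (v0 := oo) HexW.up_mem T L) oo up := by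
    rw [mem_exits]
    constructor
    · rw [← saw_coe, trapF_coe]
      exact h3
    · intro h
      rw [← Finset.mem_coe, trapF_coe] at h
      exact h2 (trap_sub _ _ _ _ h)
  obtain ⟨⟨a1, a2, a3, a4, a5⟩, ⟨b1, b2, b3, b4⟩, ⟨c1, c2, c3⟩, ⟨e1, e2⟩, f1⟩ := dirs_distinct up HexW.up_mem
  rcases hg.wind hex with ⟨h, hw⟩ | ⟨h, hw⟩ | ⟨h, hw⟩ | ⟨h, hw⟩ | ⟨h, hw⟩ | ⟨h, hw⟩ <;> rw [hd] at h
  · exact absurd h a5
  · exact absurd h b4
  · exact absurd h c3
  · exact absurd h e2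
  · exact absurd h f1
  · exact hw

/-- the total weight. -/
private lemma c8e_total {T : ℕ} (hT : 1 ≤ T) : ∑' t : Crw T, ENNReal.ofReal (ct t) = 1 := by
  have hdis : Disjoint (out (St T) oo up up) (out (St T) oo up (-up)) := by
    rw [Set.disjoint_left]
    rintro t ⟨_, _, h1⟩ ⟨_, _, h2⟩
    rw [h1] at h2
    exact absurd h2 (by decide)
  have hsub := c8e_split hT
  have e0 : ∑' t : Crw T, ENNReal.ofReal (ct t) =
      ∑' t : (out (St T) oo up up ∪ out (St T) oo up (-up) : Set (List Bool)), ENNReal.ofReal (ct t) := by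
    rw [hsub]
  rw [e0, ENNReal.summable.tsum_union_disjoint (f := fun t => ENNReal.ofReal (ct t)) hdis ENNReal.summable]
  have e1 : ∑' t : (out (St T) oo up up : Set (List Bool)), ENNReal.ofReal (ct t) = BT T := by
    show _ = ∑' t : (out (St T) oo up up : Set (List Bool)), wE t
    apply tsum_congr
    rintro ⟨t, ht⟩
    have h1 : t ∈ Crw T := by
      rw [hsub]
      exact Or.inl ht
    show ENNReal.ofReal (ct t) = ENNReal.ofReal (xc ^ t.length)
    rw [c8e_ct0 (c8e_wup hT h1 ht.2.2)]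
  have e2 : ∑' t : (out (St T) oo up (-up) : Set (List Bool)), ENNReal.ofReal (ct t) =
      ENNReal.ofReal (Real.cos (3 * Real.pi / 8)) * AT T := by
    show _ = ENNReal.ofReal (Real.cos (3 * Real.pi / 8)) * ∑' t : (out (St T) oo up (-up) : Set (List Bool)), wE t
    rw [← ENNReal.tsum_mul_left]
    apply tsum_congr
    rintro ⟨t, ht⟩
    have h1 : t ∈ Crw T := by
      rw [hsub]
      exact Or.inr ht
    show ENNReal.ofReal (ct t) = ENNReal.ofReal (Real.cos (3 * Real.pi / 8)) * ENNReal.ofReal (xc ^ t.length)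
    rw [c8e_ct3 (c8e_wdn hT h1 ht.2.2), ENNReal.ofReal_mul cos3_pos.le]
  rw [e1, e2]
  exact BT_add_AT hT

theorem ct_sum_le {T : ℕ} (hT : 1 ≤ T) (F : Finset (List Bool)) (hF : ∀ t ∈ F, t ∈ Crw T) :
    ∑ t ∈ F, ct t ≤ 1 := by
  have h1 : ∑' t : ((F : Finset (List Bool)) : Set (List Bool)), ENNReal.ofReal (ct t) ≤
      ∑' t : Crw T, ENNReal.ofReal (ct t) :=
    ENNReal.tsum_mono_subtype (fun t => ENNReal.ofReal (ct t)) (fun t ht => hF t (Finset.mem_coe.1 ht))
  rw [c8e_total hT, Finset.tsum_subtype' F (fun t => ENNReal.ofReal (ct t)),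
    ← ENNReal.ofReal_sum_of_nonneg (fun t ht => ct_nonneg hT (hF t ht))] at h1
  rwa [ENNReal.ofReal_le_one] at h1

theorem ct_sum_ge {T : ℕ} (hT : 1 ≤ T) {ε : ℝ} (hε : 0 < ε) : ∃ F : Finset (List Bool), (∀ t ∈ F, t ∈ Crw T) ∧
    1 - ε ≤ ∑ t ∈ F, ct t := by
  have h1 := c8e_total hT
  rw [ENNReal.tsum_eq_iSup_sum] at h1
  have h2 : ENNReal.ofReal (1 - ε) < ⨆ s : Finset (Crw T), ∑ t ∈ s, ENNReal.ofReal (ct t) := by
    rw [h1]
    rw [← ENNReal.ofReal_one]
    exact (ENNReal.ofReal_lt_ofReal_iff (by norm_num)).2 (by linarith)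
  obtain ⟨s, hs⟩ := lt_iSup_iff.1 h2
  refine ⟨s.map (Function.Embedding.subtype _), ?_, ?_⟩
  · intro t ht
    rw [Finset.mem_map] at ht
    obtain ⟨a, _, rfl⟩ := ht
    exact a.2
  · rw [Finset.sum_map]
    show 1 - ε ≤ ∑ t ∈ s, ct (t : List Bool)
    rw [← ENNReal.ofReal_sum_of_nonneg (fun t _ => ct_nonneg hT t.2)] at hs
    by_contra hcon
    push Not at hcon
    exact absurd hs (not_lt.2 (ENNReal.ofReal_le_ofReal hcon.le))

private lemma c8e_ft (k : ℤ) : (ft k).1 = (2 * k, -k) := by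
  unfold ft hz rotR up
  ext
  · simp
    ring
  · simp

private lemma c8e_vx (k : ℤ) (t : List Bool) (i : ℕ) : vx (ft k).1 up t i = vx oo up t i + (ft k).1 := by
  have h := CB.vx_trans (ft k).1 oo up t i
  have e : oo + (ft k).1 = (ft k).1 := zero_add _
  rw [e] at h
  exact h

private lemma c8e_vt (v : Pt) : Vt v ↔ (v.1 - v.2) % 3 ≠ 1 := by
  unfold Vt cl
  have h : ((v.1 - v.2 : ℤ) : ZMod 3) = ((1 : ℤ) : ZMod 3) ↔ (v.1 - v.2 - 1) % 3 = 0 := by
    rw [ZMod.intCast_eq_intCast_iff]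
    unfold Int.ModEq
    push_cast
    omega
  rw [Int.cast_one] at h
  rw [Ne, h]
  omega

private lemma c8e_hex (v : Pt) : IsHex oo up v ↔ Vt v := by
  have e1 : cl oo = 0 := by decide
  have e2 : cl up = -1 := by decide
  unfold IsHex Vt
  rw [e1, e2]
  generalize cl v = x
  revert x
  decide

private lemma c8e_st {T : ℕ} {v : Pt} : v ∈ St T ↔ Vt v ∧ 0 < lv v ∧ lv v < 3 * T + 2 := by
  have e0 : v - oo = v := sub_zero v
  have e1 : ip v up = lv v := by
    unfold ip up lv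
    ring
  show (IsHex oo up v ∧ 0 < ip (v - oo) up ∧ ip (v - oo) up < 3 * T + 2) ↔ _
  rw [e0, e1, c8e_hex]

/-- membership after a translation. -/
private lemma c8e_par {T A B : ℕ} {v : Pt} {k : ℤ} (h1 : -(3 * A : ℤ) < nn v + 3 * k) (h2 : nn v + 3 * k < 3 * B - 1) :
    v + (ft k).1 ∈ Par T A B ↔ v ∈ St T := by
  rw [mem_par, c8e_st, c8e_vt, c8e_vt, c8e_ft]
  unfold lv nn at *
  simp only [Prod.fst_add, Prod.snd_add] at *
  constructor
  · rintro ⟨a1, a2, a3, _, _⟩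
    refine ⟨?_, ?_, ?_⟩ <;> omega
  · rintro ⟨a1, a2, a3⟩
    refine ⟨?_, ?_, ?_, ?_, ?_⟩ <;> omega

private lemma c8e_bd {T A B : ℕ} (hT : 1 ≤ T) {k : ℤ} (h1 : -(A : ℤ) < k) (h2 : k < B) : ft k ∈ bd (Par T A B) := by
  unfold bd
  simp only [Finset.mem_filter, Finset.mem_image, Finset.mem_product]
  have e1 : (ft k).1 + up = (2 * k, -k + 1) := by
    rw [c8e_ft]
    unfold up
    simp
  refine ⟨⟨((ft k).1 + up, up), ⟨?_, upd⟩, ?_⟩, ⟨upd, ?_, ?_⟩, ?_⟩
  · show (ft k).1 + up ∈ Par T A B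
    rw [mem_par, c8e_vt, e1]
    simp only [lv, nn]
    omega
  · show ((ft k).1 + up - up, up) = ft k
    rw [add_sub_cancel_right]
    rfl
  · rw [c8e_vt, c8e_ft]
    simp only
    omega
  · show Vt ((ft k).1 + up)
    rw [c8e_vt, e1]
    simp only
    omega
  · intro h
    rw [mem_par, c8e_ft] at h
    have := h.2.1
    simp only [lv] at this
    omega

/-- a bound for the normal coordinate of finitely many words. -/
private lemma c8e_bound (F : Finset (List Bool)) : ∃ M : ℕ, ∀ t ∈ F, ∀ i, i ≤ t.length + 1 →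
    |nn (vx oo up t i)| ≤ M := by
  classical
  induction F using Finset.induction_on with
  | empty => exact ⟨0, fun t ht => absurd ht (Finset.notMem_empty _)⟩
  | insert t F _ ih =>
    obtain ⟨M, hM⟩ := ih
    refine ⟨M + ∑ i ∈ Finset.range (t.length + 2), (nn (vx oo up t i)).natAbs, ?_⟩
    intro s hs i hi
    rw [Finset.mem_insert] at hs
    rcases hs with rfl | hs
    · have h1 : (nn (vx oo up s i)).natAbs ≤ ∑ i ∈ Finset.range (s.length + 2), (nn (vx oo up s i)).natAbs :=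
        Finset.single_le_sum (f := fun i => (nn (vx oo up s i)).natAbs) (fun _ _ => Nat.zero_le _)
          (Finset.mem_range.2 (by omega))
      have h2 : |nn (vx oo up s i)| = ((nn (vx oo up s i)).natAbs : ℤ) := Int.abs_eq_natAbs _
      rw [h2]
      push_cast
      have h3 : (((nn (vx oo up s i)).natAbs : ℕ) : ℤ) ≤
        ((∑ i ∈ Finset.range (s.length + 2), (nn (vx oo up s i)).natAbs : ℕ) : ℤ) := by exact_mod_cast h1
      push_cast at h3
      have h4 : (0 : ℤ) ≤ M := by positivity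
      linarith
    · have h1 := hM s hs i hi
      push_cast
      have h4 : (0 : ℤ) ≤ ∑ i ∈ Finset.range (t.length + 2), |nn (vx oo up t i)| :=
        Finset.sum_nonneg (fun _ _ => abs_nonneg _)
      linarith

/-- the exits of the parallelogram through the walls. -/
theorem wall_sum {T : ℕ} (hT : 1 ≤ T) (N : ℕ) {ε : ℝ} (hε : 0 < ε) : ∃ A0 : ℕ, ∀ A B : ℕ, A0 ≤ A → A0 ≤ B →
    ∑ j ∈ Finset.Icc 1 N, ∑ t ∈ (exits (Par T A B) (ft (j : ℤ)).1 up).filter (fun t =>
      dx up t t.length ≠ up ∧ dx up t t.length ≠ -up), ct t ≤ ε := by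
  have hpi := Real.pi_pos
  have hN : (0 : ℝ) < N + 1 := by positivity
  obtain ⟨F, hF, hs⟩ := ct_sum_ge hT (ε := ε / (N + 1)) (div_pos hε hN)
  obtain ⟨M, hM⟩ := c8e_bound F
  refine ⟨M + N + 1, ?_⟩
  intro A B hA hB
  have key : ∀ j ∈ Finset.Icc 1 N, ∑ t ∈ (exits (Par T A B) (ft (j : ℤ)).1 up).filter (fun t =>
      dx up t t.length ≠ up ∧ dx up t t.length ≠ -up), ct t ≤ ε / (N + 1) := by
    intro j hj
    rw [Finset.mem_Icc] at hj
    have hbd : ft (j : ℤ) ∈ bd (Par T A B) := c8e_bd hT (by omega) (by omega)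
    have hg : GoodDom (Par T A B) (ft (j : ℤ)).1 up := par_good hT (by omega) (by omega) hbd
    have hid := identity_re (Par T A B) hg.dir hg.half
    change ∑ t ∈ exits (Par T A B) (ft (j : ℤ)).1 up, ct t = 1 at hid
    rw [← Finset.sum_filter_add_sum_filter_not _ (fun t => dx up t t.length ≠ up ∧ dx up t t.length ≠ -up)] at hid
    have hsub : F ⊆ (exits (Par T A B) (ft (j : ℤ)).1 up).filter (fun t =>
        ¬ (dx up t t.length ≠ up ∧ dx up t t.length ≠ -up)) := by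
      intro t ht
      obtain ⟨h1, h2⟩ := hF t ht
      have hb : ∀ i, i ≤ t.length + 1 → (vx (ft (j : ℤ)).1 up t i ∈ Par T A B ↔ vx oo up t i ∈ St T) := by
        intro i hi
        rw [c8e_vx]
        have h3 := abs_le.1 (hM t ht i hi)
        apply c8e_par <;> omega
      rw [Finset.mem_filter, mem_exits]
      refine ⟨⟨⟨?_, ?_⟩, ?_⟩, ?_⟩
      · intro i hi hl
        exact (hb i (by omega)).2 (h1.mem i hi hl)
      · intro i k hi hl
        rw [c8e_vx, c8e_vx]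
        intro hc
        exact h1.inj i k hi hl (add_right_cancel hc)
      · intro hc
        exact h2 ((hb (t.length + 1) le_rfl).1 hc)
      · rintro ⟨h3, h4⟩
        rcases strip_exit HexW.up_mem hT h1 h2 with ⟨hd, _⟩ | ⟨hd, _⟩
        · exact h4 hd
        · exact h3 hd
    have hle : ∑ t ∈ F, ct t ≤ ∑ t ∈ (exits (Par T A B) (ft (j : ℤ)).1 up).filter (fun t =>
        ¬ (dx up t t.length ≠ up ∧ dx up t t.length ≠ -up)), ct t := by
      apply Finset.sum_le_sum_of_subset_of_nonneg hsub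
      intro t ht _
      rw [Finset.mem_filter] at ht
      obtain ⟨hex, hd⟩ := ht
      have hw : wind t = 0 ∨ wind t = 3 ∨ wind t = -3 := by
        obtain ⟨⟨a1, a2, a3, a4, a5⟩, ⟨b1, b2, b3, b4⟩, ⟨c1, c2, c3⟩, ⟨e1, e2⟩, f1⟩ := dirs_distinct up HexW.up_mem
        rcases hg.wind hex with ⟨h, hw⟩ | ⟨h, hw⟩ | ⟨h, hw⟩ | ⟨h, hw⟩ | ⟨h, hw⟩ | ⟨h, hw⟩
        · exact Or.inl hw
        · exact absurd ⟨by rw [h]; exact a1, by rw [h]; exact fun hc => b4 hc.symm⟩ hd
        · exact absurd ⟨by rw [h]; exact a2, by rw [h]; exact fun hc => c3 hc.symm⟩ hd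
        · exact absurd ⟨by rw [h]; exact a3, by rw [h]; exact fun hc => e2 hc.symm⟩ hd
        · exact absurd ⟨by rw [h]; exact a4, by rw [h]; exact fun hc => f1 hc.symm⟩ hd
        · exact Or.inr hw
      apply mul_nonneg _ (pow_nonneg xc_pos.le _)
      apply Real.cos_nonneg_of_mem_Icc
      rcases hw with h | h | h <;> rw [h] <;> constructor <;> push_cast <;> linarith
    linarith
  calc ∑ j ∈ Finset.Icc 1 N, ∑ t ∈ (exits (Par T A B) (ft (j : ℤ)).1 up).filter (fun t =>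
      dx up t t.length ≠ up ∧ dx up t t.length ≠ -up), ct t ≤ ∑ _j ∈ Finset.Icc 1 N, ε / (N + 1) :=
        Finset.sum_le_sum key
    _ = N * (ε / (N + 1)) := by
        rw [Finset.sum_const, Nat.card_Icc, nsmul_eq_mul, Nat.add_sub_cancel]
    _ ≤ ε := by
        rw [mul_div_assoc', div_le_iff₀ hN]
        nlinarith

end C8E

end LP

end HexObs
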