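import Pool.Agent.HexLoop.DefsW
import Pool.Agent.HexLoop.Par
import Pool.Agent.HexLoop.RevW
import Pool.Agent.W47.K4
import Pool.Agent.HexTube.Two
import Pool.Agent.HexLoop.C8A
import Pool.Agent.HexLoop.C8E

/-!
SD8, module C8F: real part of the contour identity of the half domain: stems and complete words.
-/

set_option autoImplicit false

namespace HexObs

namespace LP

open Complex Finset ENNReal

/-! C8F: real part: stems and complete words. -/

section C8F

open Classical in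
/-- the complete words that meet the line. -/
noncomputable def cros (T A B N : ℕ) : ℝ :=
  ∑ j ∈ Finset.Icc 1 N, ∑ t ∈ (exits (Par T A B) (ft (j : ℤ)).1 up).filter (fun t =>
    ∃ i, 1 ≤ i ∧ i ≤ t.length ∧ (vx (ft (j : ℤ)).1 up t i).1 ≤ 0), ct t

private lemma c8f_fb (t : List Bool) : Tube.fb 0 t = ct t := by
  unfold Tube.fb ct
  rw [add_zero]

private lemma c8f_ft (k : ℤ) : (ft k).1 = (2 * k, -k) := by
  unfold ft hz rotR up
  ext
  · simp
    ring
  · simp

private lemma c8f_vx (k : ℤ) (t : List Bool) (i : ℕ) : vx (ft k).1 up t i = vx oo up t i + (ft k).1 := by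
  have h := CB.vx_trans (ft k).1 oo up t i
  have e : oo + (ft k).1 = (ft k).1 := zero_add _
  rw [e] at h
  exact h

private lemma c8f_lv (k : ℤ) (t : List Bool) (i : ℕ) : lv (vx (ft k).1 up t i) = lev t i := by
  rw [c8f_vx, c8f_ft]
  unfold lev ip up lv
  simp only [Prod.fst_add, Prod.snd_add]
  ring

private lemma c8f_fst (k : ℤ) (t : List Bool) (i : ℕ) : (vx (ft k).1 up t i).1 = (vx oo up t i).1 + 2 * k := by
  rw [c8f_vx, c8f_ft]
  rfl

private lemma c8f_nn (k : ℤ) (t : List Bool) (i : ℕ) : nn (vx (ft k).1 up t i) = nn (vx oo up t i) + 3 * k := by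
  rw [c8f_vx, c8f_ft]
  unfold nn
  simp only [Prod.fst_add, Prod.snd_add]
  ring

private lemma c8f_ct_nonneg {t : List Bool} (h : wind t = 3 ∨ wind t = -3 ∨ wind t = 0 ∨ wind t = -2 ∨ wind t = 1) :
    0 ≤ ct t := by
  unfold ct
  apply mul_nonneg _ (pow_nonneg xc_pos.le _)
  apply Real.cos_nonneg_of_mem_Icc
  have h2 := Real.pi_pos
  rcases h with h | h | h | h | h <;> rw [h] <;> constructor <;> push_cast <;> linarith

/-- all exits of the parallelogram have nonnegative weights. -/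
private lemma c8f_par_nonneg {T A B : ℕ} (hT : 1 ≤ T) (hA : T + 1 ≤ A) {j : ℕ} (hj : 1 ≤ j) (hB : j < B)
    {t : List Bool} (ht : t ∈ exits (Par T A B) (ft (j : ℤ)).1 up) : 0 ≤ ct t := by
  apply c8f_ct_nonneg
  rcases par_exit hT hA hj hB ht with ⟨_, k, _, ⟨_, h⟩ | ⟨_, h⟩⟩ | ⟨_, _, h⟩ | ⟨_, _, h⟩ | ⟨_, _, h⟩
  · exact Or.inl h
  · exact Or.inr (Or.inl h)
  · exact Or.inr (Or.inr (Or.inl h))
  · exact Or.inr (Or.inr (Or.inr (Or.inl h)))
  · exact Or.inr (Or.inr (Or.inr (Or.inr h)))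

theorem re_sum {T A B N : ℕ} (hT : 1 ≤ T) (hA : T + 1 ≤ A) (hB : N < B) :
    Real.cos (Real.pi / 8) * stem T A B N (-1, 1) + Real.cos (Real.pi / 4) * stem T A B N (-1, 0) =
      cros T A B N := by
  classical
  unfold stem cros
  rw [Finset.mul_sum, Finset.mul_sum, ← Finset.sum_add_distrib]
  apply Finset.sum_congr rfl
  intro j hj
  rw [Finset.mem_Icc] at hj
  obtain ⟨hj1, hj2⟩ := hj
  have hjB : j < B := by omega
  obtain ⟨_, _, hh, hh'⟩ := start_HR hT hA hj1 hjB
  have key := Tube.two_dom (Ω := HR T A B) (Ω' := Par T A B) upd hh hh' 0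
  have e1 : exits (Par T A B) (ft (j : ℤ)).1 up \ exits (HR T A B) (ft (j : ℤ)).1 up =
      (exits (Par T A B) (ft (j : ℤ)).1 up).filter (fun t =>
        ∃ i, 1 ≤ i ∧ i ≤ t.length ∧ (vx (ft (j : ℤ)).1 up t i).1 ≤ 0) := by
    ext t
    rw [Finset.mem_sdiff, Finset.mem_filter, mem_exits, mem_exits]
    constructor
    · rintro ⟨⟨h1, h2⟩, h3⟩
      refine ⟨⟨h1, h2⟩, ?_⟩
      by_contra hcon
      push Not at hcon
      apply h3
      refine ⟨⟨?_, h1.inj⟩, ?_⟩
      · intro i hi1 hi2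
        exact mem_HR.2 ⟨h1.mem i hi1 hi2, hcon i hi1 hi2⟩
      · intro h4
        exact h2 (mem_HR.1 h4).1
    · rintro ⟨⟨h1, h2⟩, i, hi1, hi2, hi3⟩
      refine ⟨⟨h1, h2⟩, ?_⟩
      rintro ⟨h3, _⟩
      have h4 := (mem_HR.1 (h3.mem i hi1 hi2)).2
      omega
  rw [e1] at key
  have e2 : exits (HR T A B) (ft (j : ℤ)).1 up \ exits (Par T A B) (ft (j : ℤ)).1 up =
      (exits (HR T A B) (ft (j : ℤ)).1 up).filter (fun t =>
        dx up t t.length = (-1, 1) ∧ (tip (ft (j : ℤ)).1 up t).1 ≤ 0 ∧ tip (ft (j : ℤ)).1 up t ∈ Par T A B) ∪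
      (exits (HR T A B) (ft (j : ℤ)).1 up).filter (fun t =>
        dx up t t.length = (-1, 0) ∧ (tip (ft (j : ℤ)).1 up t).1 ≤ 0 ∧ tip (ft (j : ℤ)).1 up t ∈ Par T A B) := by
    ext t
    rw [Finset.mem_sdiff, Finset.mem_union, Finset.mem_filter, Finset.mem_filter]
    constructor
    · rintro ⟨h1, h2⟩
      have h3 : tip (ft (j : ℤ)).1 up t ∈ Par T A B := by
        by_contra hcon
        apply h2
        rw [mem_exits] at h1 ⊢
        exact ⟨⟨fun i hi1 hi2 => (mem_HR.1 (h1.1.mem i hi1 hi2)).1, h1.1.inj⟩, hcon⟩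
      rcases HR_exit hT hA hj1 hjB h1 with h | h | h | h | h
      · exact absurd h3 h.1
      · exact absurd h3 h.1
      · exact absurd h3 h.1
      · exact Or.inl ⟨h1, h.2.2.1, h.2.1.le, h3⟩
      · exact Or.inr ⟨h1, h.2.2.1, h.2.1.le, h3⟩
    · rintro (⟨h1, _, _, h3⟩ | ⟨h1, _, _, h3⟩)
      · exact ⟨h1, fun h => (mem_exits.1 h).2 h3⟩
      · exact ⟨h1, fun h => (mem_exits.1 h).2 h3⟩
  rw [e2, Finset.sum_union] at key
  · have k1 : ∑ t ∈ (exits (HR T A B) (ft (j : ℤ)).1 up).filter (fun t =>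
        dx up t t.length = (-1, 1) ∧ (tip (ft (j : ℤ)).1 up t).1 ≤ 0 ∧ tip (ft (j : ℤ)).1 up t ∈ Par T A B),
        Tube.fb 0 t = Real.cos (Real.pi / 8) * ∑ t ∈ (exits (HR T A B) (ft (j : ℤ)).1 up).filter (fun t =>
        dx up t t.length = (-1, 1) ∧ (tip (ft (j : ℤ)).1 up t).1 ≤ 0 ∧ tip (ft (j : ℤ)).1 up t ∈ Par T A B),
        xc ^ t.length := by
      rw [Finset.mul_sum]
      apply Finset.sum_congr rfl
      intro t ht
      rw [Finset.mem_filter] at ht
      obtain ⟨h1, h2, _, h3⟩ := ht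
      have hw : wind t = 1 := by
        rcases HR_exit hT hA hj1 hjB h1 with h | h | h | h | h
        · exact absurd h3 h.1
        · exact absurd h3 h.1
        · exact absurd h3 h.1
        · exact h.2.2.2
        · exfalso
          rw [h2] at h
          exact absurd h.2.2.1 (by decide)
      unfold Tube.fb
      rw [hw]
      congr 2
      push_cast
      ring
    have k2 : ∑ t ∈ (exits (HR T A B) (ft (j : ℤ)).1 up).filter (fun t =>
        dx up t t.length = (-1, 0) ∧ (tip (ft (j : ℤ)).1 up t).1 ≤ 0 ∧ tip (ft (j : ℤ)).1 up t ∈ Par T A B),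
        Tube.fb 0 t = Real.cos (Real.pi / 4) * ∑ t ∈ (exits (HR T A B) (ft (j : ℤ)).1 up).filter (fun t =>
        dx up t t.length = (-1, 0) ∧ (tip (ft (j : ℤ)).1 up t).1 ≤ 0 ∧ tip (ft (j : ℤ)).1 up t ∈ Par T A B),
        xc ^ t.length := by
      rw [Finset.mul_sum]
      apply Finset.sum_congr rfl
      intro t ht
      rw [Finset.mem_filter] at ht
      obtain ⟨h1, h2, _, h3⟩ := ht
      have hw : wind t = 2 := by
        rcases HR_exit hT hA hj1 hjB h1 with h | h | h | h | h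
        · exact absurd h3 h.1
        · exact absurd h3 h.1
        · exact absurd h3 h.1
        · exfalso
          rw [h2] at h
          exact absurd h.2.2.1 (by decide)
        · exact h.2.2.2
      unfold Tube.fb
      rw [hw]
      congr 2
      push_cast
      ring
    rw [k1, k2] at key
    rw [Finset.sum_congr rfl (fun t _ => c8f_fb t)] at key
    exact key
  · rw [Finset.disjoint_left]
    intro t h1 h2
    rw [Finset.mem_filter] at h1 h2
    rw [h1.2.1] at h2
    exact absurd h2.2.1 (by decide)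

/-- the word t placed at the foot j meets the line iff 2 j ≤ Al t. -/
private lemma c8f_meet {j : ℕ} (hj : 1 ≤ j) (t : List Bool) :
    (∃ i, 1 ≤ i ∧ i ≤ t.length ∧ (vx (ft (j : ℤ)).1 up t i).1 ≤ 0) ↔ 2 * j ≤ Al t := by
  constructor
  · rintro ⟨i, _, h2, h3⟩
    rw [c8f_fst] at h3
    unfold Al
    have h4 := Finset.le_sup (f := fun i => (-(vx oo up t i).1).toNat)
      (Finset.mem_range.2 (show i < t.length + 1 by omega))
    have h5 : 2 * j ≤ (-(vx oo up t i).1).toNat := by omega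
    exact h5.trans h4
  · intro h
    unfold Al at h
    have hne : (Finset.range (t.length + 1)).Nonempty := ⟨0, Finset.mem_range.2 (by omega)⟩
    obtain ⟨i, hi1, hi2⟩ := Finset.exists_mem_eq_sup _ hne (fun i => (-(vx oo up t i).1).toNat)
    rw [hi2] at h
    rw [Finset.mem_range] at hi1
    refine ⟨i, ?_, by omega, ?_⟩
    · rcases Nat.eq_zero_or_pos i with h0 | h0
      · exfalso
        rw [h0] at h
        have h1 : vx oo up t 0 = oo := rfl
        rw [h1] at h
        have h2 : (-(oo : Pt).1).toNat = 0 := by decide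
        rw [h2] at h
        omega
      · exact h0
    · rw [c8f_fst]
      omega

/-- exits of the parallelogram that do not leave through the walls cross the flat strip. -/
private lemma c8f_crw {T A B : ℕ} (hT : 1 ≤ T) (hA : T + 1 ≤ A) {j : ℕ} (hj : 1 ≤ j) (hB : j < B)
    {t : List Bool} (ht : t ∈ exits (Par T A B) (ft (j : ℤ)).1 up)
    (hd : ¬ (dx up t t.length ≠ up ∧ dx up t t.length ≠ -up)) : t ∈ Crw T := by
  have h1 := mem_exits.1 ht
  refine ⟨⟨?_, ?_⟩, ?_⟩
  · intro i hi1 hi2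
    have h2 := mem_par.1 (h1.1.mem i hi1 hi2)
    rw [c8f_lv] at h2
    exact mem_St.2 ⟨h2.2.1, h2.2.2.1⟩
  · intro i k hik hk h2
    apply h1.1.inj i k hik hk
    rw [c8f_vx, c8f_vx, h2]
  · intro h2
    have h3 : 0 < lev t (t.length + 1) ∧ lev t (t.length + 1) < 3 * T + 2 := mem_St.1 h2
    have h4 : lv (tip (ft (j : ℤ)).1 up t) = lev t (t.length + 1) := c8f_lv j t _
    rcases par_exit hT hA hj hB ht with ⟨_, k, h, _⟩ | ⟨_, h, _⟩ | ⟨h, _⟩ | ⟨h, _⟩
    · rw [h, c8f_ft] at h4
      simp only [lv] at h4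
      omega
    · omega
    · apply hd
      rw [h]
      constructor <;> decide
    · apply hd
      rw [h]
      constructor <;> decide

/-- the number of the feet j at which a word meets the line. -/
private lemma c8f_card_le (N a : ℕ) : 2 * ((Finset.Icc 1 N).filter (fun j => 2 * j ≤ a)).card ≤ a := by
  have h1 : (Finset.Icc 1 N).filter (fun j => 2 * j ≤ a) ⊆ Finset.Icc 1 (a / 2) := by
    intro j hj
    rw [Finset.mem_filter, Finset.mem_Icc] at hj
    rw [Finset.mem_Icc]
    omega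
  have h2 := Finset.card_le_card h1
  rw [Nat.card_Icc] at h2
  omega

private lemma c8f_card_ge {N a : ℕ} (h : a ≤ N) : a ≤ 2 * ((Finset.Icc 1 N).filter (fun j => 2 * j ≤ a)).card + 1 := by
  have h1 : Finset.Icc 1 (a / 2) ⊆ (Finset.Icc 1 N).filter (fun j => 2 * j ≤ a) := by
    intro j hj
    rw [Finset.mem_Icc] at hj
    rw [Finset.mem_filter, Finset.mem_Icc]
    omega
  have h2 := Finset.card_le_card h1
  rw [Nat.card_Icc] at h2
  omega

/-- upper bound by the left extents. -/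
theorem cros_le {T : ℕ} (hT : 1 ≤ T) (N : ℕ) {ε : ℝ} (hε : 0 < ε) : ∃ A0 : ℕ, ∀ A B : ℕ, A0 ≤ A → A0 ≤ B →
    ∃ F : Finset (List Bool), (∀ t ∈ F, t ∈ Crw T) ∧ 2 * cros T A B N ≤ ∑ t ∈ F, ct t * Al t + ε := by
  classical
  obtain ⟨A1, hA1⟩ := wall_sum hT N (half_pos hε)
  refine ⟨max A1 (T + N + 1), ?_⟩
  intro A B hA hB
  have a1 := le_of_max_le_left hA
  have a2 := le_of_max_le_right hA
  have b1 := le_of_max_le_left hB
  have b2 := le_of_max_le_right hB
  have hw := hA1 A B a1 b1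
  have hTA : T + 1 ≤ A := by omega
  have hNB : N < B := by omega
  -- the words
  set G : ℕ → Finset (List Bool) := fun j => (exits (Par T A B) (ft (j : ℤ)).1 up).filter (fun t =>
    ¬ (dx up t t.length ≠ up ∧ dx up t t.length ≠ -up)) with hG
  set F : Finset (List Bool) := (Finset.Icc 1 N).biUnion G with hF
  have hFC : ∀ t ∈ F, t ∈ Crw T := by
    intro t ht
    rw [hF, Finset.mem_biUnion] at ht
    obtain ⟨j, hj, ht⟩ := ht
    rw [Finset.mem_Icc] at hj
    rw [hG] at ht
    simp only [Finset.mem_filter] at ht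
    exact c8f_crw hT hTA hj.1 (by omega) ht.1 ht.2
  refine ⟨F, hFC, ?_⟩
  -- the split
  have split : ∀ j ∈ Finset.Icc 1 N,
      ∑ t ∈ (exits (Par T A B) (ft (j : ℤ)).1 up).filter (fun t =>
        ∃ i, 1 ≤ i ∧ i ≤ t.length ∧ (vx (ft (j : ℤ)).1 up t i).1 ≤ 0), ct t ≤
      ∑ t ∈ F, (if 2 * j ≤ Al t then ct t else 0) +
      ∑ t ∈ (exits (Par T A B) (ft (j : ℤ)).1 up).filter (fun t =>
        dx up t t.length ≠ up ∧ dx up t t.length ≠ -up), ct t := by
    intro j hj
    rw [Finset.mem_Icc] at hj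
    have hpos : ∀ t ∈ exits (Par T A B) (ft (j : ℤ)).1 up, 0 ≤ ct t :=
      fun t ht => c8f_par_nonneg hT hTA hj.1 (by omega) ht
    rw [← Finset.sum_filter_add_sum_filter_not _ (fun t : List Bool =>
      ¬ (dx up t t.length ≠ up ∧ dx up t t.length ≠ -up))]
    apply add_le_add
    · rw [← Finset.sum_filter]
      apply Finset.sum_le_sum_of_subset_of_nonneg
      · intro t ht
        simp only [Finset.mem_filter] at ht
        obtain ⟨⟨h1, h2⟩, h3⟩ := ht
        rw [Finset.mem_filter]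
        refine ⟨?_, (c8f_meet hj.1 t).1 h2⟩
        rw [hF, Finset.mem_biUnion]
        refine ⟨j, Finset.mem_Icc.2 hj, ?_⟩
        rw [hG]
        simp only [Finset.mem_filter]
        exact ⟨h1, h3⟩
      · intro t ht _
        rw [Finset.mem_filter] at ht
        exact ct_nonneg hT (hFC t ht.1)
    · apply Finset.sum_le_sum_of_subset_of_nonneg
      · intro t ht
        simp only [Finset.mem_filter] at ht ⊢
        exact ⟨ht.1.1, not_not.1 ht.2⟩
      · intro t ht _
        rw [Finset.mem_filter] at ht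
        exact hpos t ht.1
  have h1 : cros T A B N ≤ ∑ j ∈ Finset.Icc 1 N, (∑ t ∈ F, (if 2 * j ≤ Al t then ct t else 0) +
      ∑ t ∈ (exits (Par T A B) (ft (j : ℤ)).1 up).filter (fun t =>
        dx up t t.length ≠ up ∧ dx up t t.length ≠ -up), ct t) := by
    unfold cros
    exact Finset.sum_le_sum split
  rw [Finset.sum_add_distrib, Finset.sum_comm] at h1
  have h2 : ∑ t ∈ F, ∑ j ∈ Finset.Icc 1 N, (if 2 * j ≤ Al t then ct t else 0) ≤ ∑ t ∈ F, ct t * Al t / 2 := by
    apply Finset.sum_le_sum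
    intro t ht
    rw [← Finset.sum_filter, Finset.sum_const, nsmul_eq_mul]
    have h3 := c8f_card_le N (Al t)
    have h4 : (2 : ℝ) * ((Finset.Icc 1 N).filter (fun j => 2 * j ≤ Al t)).card ≤ Al t := by exact_mod_cast h3
    have h5 := ct_nonneg hT (hFC t ht)
    nlinarith
  rw [← Finset.sum_div] at h2
  linarith

/-- lower bound by the left extents. -/
theorem cros_ge {T : ℕ} (hT : 1 ≤ T) (F : Finset (List Bool)) (hF : ∀ t ∈ F, t ∈ Crw T) : ∃ N0 : ℕ, ∀ N, N0 ≤ N →
    ∃ A0 : ℕ, ∀ A B : ℕ, A0 ≤ A → A0 ≤ B → ∑ t ∈ F, ct t * (Al t - 1) ≤ 2 * cros T A B N := by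
  classical
  refine ⟨F.sup Al, ?_⟩
  intro N hN
  -- bound of the coordinates
  set M : ℕ := F.sup (fun t => (Finset.range (t.length + 1)).sup (fun i => (nn (vx oo up t i)).natAbs)) with hM
  have hMb : ∀ t ∈ F, ∀ i, i ≤ t.length → (nn (vx oo up t i)).natAbs ≤ M := by
    intro t ht i hi
    have h1 := Finset.le_sup (f := fun i => (nn (vx oo up t i)).natAbs)
      (Finset.mem_range.2 (show i < t.length + 1 by omega))
    have h2 := Finset.le_sup (f := fun t : List Bool =>
      (Finset.range (t.length + 1)).sup (fun i => (nn (vx oo up t i)).natAbs)) ht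
    exact h1.trans h2
  refine ⟨T + N + M + 1, ?_⟩
  intro A B hA hB
  have hTA : T + 1 ≤ A := by omega
  have hNB : N < B := by omega
  have key : ∀ j ∈ Finset.Icc 1 N, ∀ t ∈ F, t ∈ exits (Par T A B) (ft (j : ℤ)).1 up := by
    intro j hj t ht
    rw [Finset.mem_Icc] at hj
    obtain ⟨h1, h2⟩ := hF t ht
    rw [mem_exits]
    refine ⟨⟨?_, ?_⟩, ?_⟩
    · intro i hi1 hi2
      have h3 := h1.mem i hi1 hi2
      have h4 := mem_St.1 h3
      have h5 := hMb t ht i hi2
      rw [mem_par]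
      rw [c8f_lv, c8f_nn]
      refine ⟨?_, h4.1, h4.2, ?_, ?_⟩
      · have hde : De (ft (j : ℤ)) := by
          have h6 := (start_HR hT hTA hj.1 (show j < B by omega)).2.1
          unfold bd at h6
          simp only [Finset.mem_filter] at h6
          exact h6.2.1
        exact (de_vx hde t i).2.1
      · omega
      · omega
    · intro i k hik hk h3
      apply h1.inj i k hik hk
      rw [c8f_vx, c8f_vx] at h3
      exact add_right_cancel h3
    · intro h3
      apply h2
      have h4 := mem_par.1 h3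
      have h5 : lv (tip (ft (j : ℤ)).1 up t) = lev t (t.length + 1) := c8f_lv j t _
      rw [h5] at h4
      exact mem_St.2 ⟨h4.2.1, h4.2.2.1⟩
  have h1 : ∑ j ∈ Finset.Icc 1 N, ∑ t ∈ F, (if 2 * j ≤ Al t then ct t else 0) ≤ cros T A B N := by
    unfold cros
    apply Finset.sum_le_sum
    intro j hj
    rw [← Finset.sum_filter]
    have hj' := Finset.mem_Icc.1 hj
    apply Finset.sum_le_sum_of_subset_of_nonneg
    · intro t ht
      rw [Finset.mem_filter] at ht
      simp only [Finset.mem_filter]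
      exact ⟨key j hj t ht.1, (c8f_meet hj'.1 t).2 ht.2⟩
    · intro t ht _
      rw [Finset.mem_filter] at ht
      exact c8f_par_nonneg hT hTA hj'.1 (by omega) ht.1
  rw [Finset.sum_comm] at h1
  have h2 : ∑ t ∈ F, ct t * (Al t - 1) ≤ 2 * ∑ t ∈ F, ∑ j ∈ Finset.Icc 1 N, (if 2 * j ≤ Al t then ct t else 0) := by
    rw [Finset.mul_sum]
    apply Finset.sum_le_sum
    intro t ht
    rw [← Finset.sum_filter, Finset.sum_const, nsmul_eq_mul]
    have h3 := c8f_card_ge (N := N) (a := Al t) ((Finset.le_sup (f := Al) ht).trans hN)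
    have h4 : (Al t : ℝ) ≤ 2 * ((Finset.Icc 1 N).filter (fun j => 2 * j ≤ Al t)).card + 1 := by exact_mod_cast h3
    have h5 := ct_nonneg hT (hF t ht)
    nlinarith
  linarith

end C8F

end LP

end HexObs
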