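import Pool.Agent.HexLoop.DefsW
import Pool.Agent.W47.K4

/-!
SD8, module C8G: the mirror image of the words that cross the flat strip.
-/

set_option autoImplicit false

namespace HexObs

namespace LP

open Complex Finset ENNReal

private lemma c8g_up : mulE (-1, 1) (conjE up) = up := by decide

private lemma c8g_vx (t : List Bool) {i : ℕ} (hi : i ≤ t.length + 1) :
    vx oo up (t.map not) i = oo + mulE (-1, 1) (conjE (vx oo up t i - oo)) := by
  have h := vx_refl (-1, 1) oo oo up t hi
  rwa [c8g_up] at h

private lemma c8g_fst (v : Pt) : (oo + mulE (-1, 1) (conjE (v - oo))).1 = -v.1 := by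
  unfold oo mulE conjE
  simp only [Prod.fst_sub, Prod.snd_sub, Prod.fst_add]
  ring

private lemma c8g_wind (t : List Bool) : wind (t.map not) = -wind t := by
  unfold wind
  induction t with
  | nil => rfl
  | cons b t ih =>
    rw [List.map_cons, List.map_cons, List.map_cons, List.sum_cons, List.sum_cons, ih]
    cases b <;> simp [sgn] <;> ring

theorem crw_mirror {T : ℕ} {t : List Bool} (ht : t ∈ Crw T) : t.map not ∈ Crw T := by
  have h1 : t ∈ out (St T) oo up (dx up t t.length) := ⟨ht.1, ht.2, rfl⟩
  have hu : nrm ((-1, 1) : Pt) = 1 := by decide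
  have h2 := (out_refl_aux hu oo oo up (dx up t t.length) (Ω := St T) (Ω' := St T)
    (fun v => k4_refl_mem)).1 h1
  rw [c8g_up] at h2
  exact ⟨h2.1, h2.2.1⟩

theorem ct_mirror (t : List Bool) : ct (t.map not) = ct t := by
  unfold ct
  rw [List.length_map, c8g_wind]
  push_cast
  rw [neg_mul, Real.cos_neg]

theorem At_mirror (t : List Bool) : At (t.map not) = Al t ∧ Al (t.map not) = At t := by
  constructor
  · unfold At Al
    rw [List.length_map]
    refine Finset.sup_congr rfl fun i hi => ?_
    have hi' := Finset.mem_range.1 hi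
    rw [c8g_vx t (by omega), c8g_fst]
  · unfold At Al
    rw [List.length_map]
    refine Finset.sup_congr rfl fun i hi => ?_
    have hi' := Finset.mem_range.1 hi
    rw [c8g_vx t (by omega), c8g_fst, neg_neg]

end LP

end HexObs
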