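import Pool.Agent.HexLoop.C8A
import Pool.Agent.HexLoop.C8B
import Pool.Agent.HexLoop.C8C
import Pool.Agent.HexLoop.C8D
import Pool.Agent.HexLoop.C8E
import Pool.Agent.HexLoop.C8F
import Pool.Agent.HexLoop.C8G

/-!
SD8, C8H: the sum of the right extents of the words that cross the flat strip.
-/

set_option autoImplicit false

namespace HexObs

namespace LP

open Complex Finset ENNReal

namespace C8H

lemma mfl {α : Type} {p : α → Prop} {d : DecidablePred p} {s : Finset α} {a : α} :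
    a ∈ @Finset.filter α p d s ↔ a ∈ s ∧ p a := Finset.mem_filter

/-! numbers -/

lemma sq2 : 1.41421 < Real.sqrt 2 ∧ Real.sqrt 2 < 1.41422 := by
  constructor
  · rw [Real.lt_sqrt (by norm_num)]
    norm_num
  · rw [Real.sqrt_lt' (by norm_num)]
    norm_num

lemma cos_sq : Real.cos (Real.pi / 8) ^ 2 = (2 + Real.sqrt 2) / 4 := by
  have h3 : Real.cos (Real.pi / 4) = 2 * Real.cos (Real.pi / 8) ^ 2 - 1 := by
    rw [← Real.cos_two_mul]
    congr 1
    ring
  rw [Real.cos_pi_div_four] at h3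
  linarith

lemma cos_le : Real.cos (Real.pi / 8) ≤ 0.9239 := by
  have h1 := cos_sq
  have h2 := sq2.2
  have h3 := cos_pos
  nlinarith

lemma sin_eq : Real.sin (Real.pi / 8) = (Real.sqrt 2 - 1) * Real.cos (Real.pi / 8) := by
  have h2 : Real.sin (Real.pi / 4) = 2 * Real.sin (Real.pi / 8) * Real.cos (Real.pi / 8) := by
    rw [← Real.sin_two_mul]
    congr 1
    ring
  rw [Real.sin_pi_div_four] at h2
  have h1 := cos_sq
  have h3 := cos_pos
  have h9 : Real.sqrt 2 * Real.sqrt 2 = 2 := Real.mul_self_sqrt (by norm_num)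
  have h4 : 2 * Real.cos (Real.pi / 8) * Real.sin (Real.pi / 8) =
      2 * Real.cos (Real.pi / 8) * ((Real.sqrt 2 - 1) * Real.cos (Real.pi / 8)) := by
    calc 2 * Real.cos (Real.pi / 8) * Real.sin (Real.pi / 8) = Real.sqrt 2 / 2 := by
          rw [h2]
          ring
      _ = (Real.sqrt 2 - 1) * (2 * ((2 + Real.sqrt 2) / 4)) := by
          linear_combination (-1 / 2 : ℝ) * h9
      _ = _ := by
          rw [← h1]
          ring
  exact mul_left_cancel₀ (by positivity) h4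

lemma xc_cos : xc * Real.cos (Real.pi / 8) = 1 / 2 := by
  have h := cos_pos
  unfold xc
  field_simp

lemma re_ge {r1 r2 : ℝ} (h2 : 0 ≤ r2) (h : xc * r2 ≤ r1 + 1) :
    1.32 * (Real.sin (Real.pi / 8) * r1 + Real.sin (Real.pi / 4) * r2) - 0.42 ≤
      Real.cos (Real.pi / 8) * r1 + Real.cos (Real.pi / 4) * r2 := by
  rw [sin_eq, Real.sin_pi_div_four, Real.cos_pi_div_four]
  have hc := cos_pos
  have hc2 := cos_le
  obtain ⟨s1, s2⟩ := sq2
  have hx := xc_cos
  set c := Real.cos (Real.pi / 8) with hcdef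
  have h3 : 0 ≤ c * (2.32 - 1.32 * Real.sqrt 2) := mul_nonneg hc.le (by linarith)
  have h4 : c * (2.32 - 1.32 * Real.sqrt 2) * (xc * r2 - 1) ≤ c * (2.32 - 1.32 * Real.sqrt 2) * r1 :=
    mul_le_mul_of_nonneg_left (by linarith) h3
  have h5 : c * (2.32 - 1.32 * Real.sqrt 2) * (xc * r2 - 1) =
      (2.32 - 1.32 * Real.sqrt 2) / 2 * r2 - c * (2.32 - 1.32 * Real.sqrt 2) := by
    calc c * (2.32 - 1.32 * Real.sqrt 2) * (xc * r2 - 1) =
        (xc * c) * (2.32 - 1.32 * Real.sqrt 2) * r2 - c * (2.32 - 1.32 * Real.sqrt 2) := by ring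
      _ = _ := by
        rw [hx]
        ring
  have h6 : c * (2.32 - 1.32 * Real.sqrt 2) ≤ 0.42 := by
    calc c * (2.32 - 1.32 * Real.sqrt 2) ≤ 0.9239 * 0.4533 :=
          mul_le_mul hc2 (by linarith) (by linarith) (by norm_num)
      _ ≤ 0.42 := by norm_num
  have h7 : 0 ≤ (1.16 - 0.82 * Real.sqrt 2) * r2 := mul_nonneg (by linarith) h2
  linarith

lemma re_le {r1 r2 : ℝ} (h1 : 0 ≤ r1) (h2 : 0 ≤ r2) :
    Real.cos (Real.pi / 8) * r1 + Real.cos (Real.pi / 4) * r2 ≤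
      2.4143 * (Real.sin (Real.pi / 8) * r1 + Real.sin (Real.pi / 4) * r2) := by
  rw [sin_eq, Real.sin_pi_div_four, Real.cos_pi_div_four]
  have hc := cos_pos
  obtain ⟨s1, s2⟩ := sq2
  set c := Real.cos (Real.pi / 8) with hcdef
  have h3 : 0 ≤ (2.4143 * (Real.sqrt 2 - 1) - 1) * (c * r1) := mul_nonneg (by linarith) (mul_nonneg hc.le h1)
  have h4 : 0 ≤ Real.sqrt 2 * r2 := mul_nonneg (by linarith) h2
  linarith

lemma s3_pos : 0 ≤ Real.sin (3 * Real.pi / 8) := by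
  apply Real.sin_nonneg_of_nonneg_of_le_pi
  · positivity
  · linarith [Real.pi_pos]

lemma s3_le : Real.sin (3 * Real.pi / 8) ≤ 1 := Real.sin_le_one _

lemma stem_nonneg (T A B N : ℕ) (e : Pt) : 0 ≤ stem T A B N e :=
  Finset.sum_nonneg (fun _ _ => Finset.sum_nonneg (fun _ _ => pow_nonneg xc_pos.le _))

lemma walN_nonneg (T A B N : ℕ) : 0 ≤ walN T A B N :=
  Finset.sum_nonneg (fun _ _ => Finset.sum_nonneg (fun _ _ => pow_nonneg xc_pos.le _))

/-- the walks to the right wall are exits of the parallelogram through the walls. -/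
lemma walN_le {T A B N : ℕ} (hT : 1 ≤ T) (hA : T + 1 ≤ A) (hB : N < B) :
    Real.sin (Real.pi / 4) * walN T A B N ≤
      ∑ j ∈ Finset.Icc 1 N, ∑ t ∈ (exits (Par T A B) (ft (j : ℤ)).1 up).filter (fun t =>
        dx up t t.length ≠ up ∧ dx up t t.length ≠ -up), ct t := by
  unfold walN
  rw [Finset.mul_sum]
  apply Finset.sum_le_sum
  intro j hj
  obtain ⟨hj1, hj2⟩ := Finset.mem_Icc.1 hj
  have hjB : j < B := by omega
  rw [Finset.mul_sum]
  have key : ∀ t, t ∈ exits (HR T A B) (ft (j : ℤ)).1 up → tip (ft (j : ℤ)).1 up t ∉ Par T A B →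
      dx up t t.length ≠ -up → dx up t t.length ≠ up →
      t ∈ exits (Par T A B) (ft (j : ℤ)).1 up ∧ ct t = Real.sin (Real.pi / 4) * xc ^ t.length := by
    intro t ht h1 h2 h3
    obtain ⟨ha, _⟩ := mem_exits.1 ht
    refine ⟨mem_exits.2 ⟨⟨fun i h4 h5 => (mem_HR.1 (ha.mem i h4 h5)).1, ha.inj⟩, h1⟩, ?_⟩
    have hw : wind t = -2 := by
      rcases HR_exit hT hA hj1 hjB ht with ⟨_, h, _⟩ | ⟨_, h, _⟩ | ⟨_, _, h⟩ | ⟨h, _⟩ | ⟨h, _⟩
      · exact absurd h h2
      · exact absurd h h3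
      · exact h
      · exact absurd h h1
      · exact absurd h h1
    unfold ct
    rw [hw]
    have e : ((-2 : ℤ) : ℝ) * (Real.pi / 8) = -(Real.pi / 4) := by
      push_cast
      ring
    rw [e, Real.cos_neg, Real.cos_pi_div_four, Real.sin_pi_div_four]
  refine le_trans (Finset.sum_le_sum (g := ct) fun t ht => ?_) (Finset.sum_le_sum_of_subset_of_nonneg ?_ ?_)
  · obtain ⟨h1, h2, h3, h4⟩ := mfl.1 ht
    exact (key t h1 h2 h3 h4).2.ge
  · intro t ht
    obtain ⟨h1, h2, h3, h4⟩ := mfl.1 ht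
    exact mfl.2 ⟨(key t h1 h2 h3 h4).1, h4, h3⟩
  · intro t ht _
    obtain ⟨h1, h2, h3⟩ := mfl.1 ht
    have hw : wind t = -2 ∨ wind t = 1 := by
      rcases par_exit hT hA hj1 hjB h1 with ⟨h, _⟩ | ⟨h, _⟩ | ⟨_, _, h⟩ | ⟨_, _, h⟩
      · exact absurd h h3
      · exact absurd h h2
      · exact Or.inl h
      · exact Or.inr h
    unfold ct
    apply mul_nonneg _ (pow_nonneg xc_pos.le _)
    apply Real.cos_nonneg_of_mem_Icc
    rcases hw with hw | hw <;> rw [hw] <;> push_cast <;> constructor <;> linarith [Real.pi_pos]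

/-- the mirror image of a finite set of words. -/
lemma mirror_sum {T : ℕ} (F : Finset (List Bool)) (hF : ∀ t ∈ F, t ∈ Crw T) (f : List Bool → ℝ) :
    ∃ F' : Finset (List Bool), (∀ t ∈ F', t ∈ Crw T) ∧ ∑ t ∈ F', f t = ∑ t ∈ F, f (t.map not) := by
  classical
  refine ⟨F.image (List.map not), ?_, ?_⟩
  · intro t ht
    obtain ⟨s, hs, rfl⟩ := Finset.mem_image.1 ht
    exact crw_mirror (hF s hs)
  · rw [Finset.sum_image]
    intro s _ t _ hst
    have := congrArg (List.map not) hst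
    rwa [map_not_not, map_not_not] at this

end C8H

open C8H

/-- SD8: lower bound of the sum of the extents. -/
theorem SD8 {T : ℕ} (hT : 1 ≤ T) : ∃ F : Finset (List Bool), (∀ t ∈ F, t ∈ Crw T) ∧
    2.64 * Real.sin (3 * Real.pi / 8) * kT T - 1 ≤ ∑ t ∈ F, ct t * At t := by
  obtain ⟨N, hN⟩ := out_ge hT (w := kT T - 0.03) (by linarith)
  obtain ⟨B0, hB0⟩ := hN N le_rfl
  obtain ⟨A0, hA0⟩ := cros_le hT N (ε := 0.08) (by norm_num)
  obtain ⟨F, hF, h1⟩ := hA0 (A0 + T + 1) (A0 + B0 + N + 1) (by omega) (by omega)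
  have hA : T + 1 ≤ A0 + T + 1 := by omega
  have hB : N < A0 + B0 + N + 1 := by omega
  have h2 := hB0 (A0 + T + 1) (A0 + B0 + N + 1) hA (by omega)
  have h3 := im_sum hT hA hB
  have h4 := stem_inj hT hA hB
  have h5 := re_sum hT hA hB
  have h6 := re_ge (stem_nonneg T (A0 + T + 1) (A0 + B0 + N + 1) N (-1, 0)) h4
  have h7 := walN_nonneg T (A0 + T + 1) (A0 + B0 + N + 1) N
  rw [h3, h5] at h6
  have s0 := s3_pos
  have s1 := s3_le
  have h8 : Real.sin (3 * Real.pi / 8) * (kT T - 0.03) ≤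
      Real.sin (3 * Real.pi / 8) * outN T (A0 + T + 1) (A0 + B0 + N + 1) N := mul_le_mul_of_nonneg_left h2 s0
  have h9 : 0 ≤ Real.sin (Real.pi / 4) * walN T (A0 + T + 1) (A0 + B0 + N + 1) N := by
    apply mul_nonneg _ h7
    rw [Real.sin_pi_div_four]
    positivity
  obtain ⟨F', hF', h10⟩ := mirror_sum F hF (fun t => ct t * At t)
  refine ⟨F', hF', ?_⟩
  rw [h10]
  have h11 : ∑ t ∈ F, ct (t.map not) * At (t.map not) = ∑ t ∈ F, ct t * Al t := by
    apply Finset.sum_congr rfl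
    intro t _
    rw [ct_mirror, (At_mirror t).1]
  rw [h11]
  nlinarith

/-- SD8: upper bound of the sum of the extents. -/
theorem SD8u {T : ℕ} (hT : 1 ≤ T) (hK : KT T ≠ ∞) (F : Finset (List Bool)) (hF : ∀ t ∈ F, t ∈ Crw T) :
    ∑ t ∈ F, ct t * At t ≤ 4.83 * Real.sin (3 * Real.pi / 8) * kT T + 1 := by
  have hk0 : 0 ≤ kT T := ENNReal.toReal_nonneg
  have s0 := s3_pos
  obtain ⟨F', hF', h10⟩ := mirror_sum F hF (fun t => ct t * Al t)
  have h11 : ∑ t ∈ F, ct (t.map not) * Al (t.map not) = ∑ t ∈ F, ct t * At t := by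
    apply Finset.sum_congr rfl
    intro t _
    rw [ct_mirror, (At_mirror t).2]
  rw [h11] at h10
  rw [← h10]
  apply _root_.le_of_forall_pos_le_add
  intro ε hε
  obtain ⟨N, hN⟩ := cros_ge hT F' hF'
  obtain ⟨A0, hA0⟩ := hN N le_rfl
  obtain ⟨A1, hA1⟩ := wall_sum hT N (ε := ε / 4.83) (by positivity)
  have hA : T + 1 ≤ A0 + A1 + T + 1 := by omega
  have hB : N < A0 + A1 + N + 1 := by omega
  have h1 := hA0 (A0 + A1 + T + 1) (A0 + A1 + N + 1) (by omega) (by omega)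
  have h2 := (walN_le hT hA hB).trans (hA1 (A0 + A1 + T + 1) (A0 + A1 + N + 1) (by omega) (by omega))
  have h3 := im_sum hT hA hB
  have h5 := re_sum hT hA hB
  have h6 := re_le (stem_nonneg T (A0 + A1 + T + 1) (A0 + A1 + N + 1) N (-1, 1))
    (stem_nonneg T (A0 + A1 + T + 1) (A0 + A1 + N + 1) N (-1, 0))
  rw [h3, h5] at h6
  have h7 : Real.sin (3 * Real.pi / 8) * outN T (A0 + A1 + T + 1) (A0 + A1 + N + 1) N ≤
      Real.sin (3 * Real.pi / 8) * kT T := mul_le_mul_of_nonneg_left (out_le hT hK hA hB) s0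
  have h8 : ∑ t ∈ F', ct t * (Al t - 1) = ∑ t ∈ F', ct t * Al t - ∑ t ∈ F', ct t := by
    rw [← Finset.sum_sub_distrib]
    apply Finset.sum_congr rfl
    intro t _
    ring
  rw [h8] at h1
  have h9 := ct_sum_le hT F' hF'
  have h12 : 0 ≤ Real.sin (3 * Real.pi / 8) * kT T := mul_nonneg s0 hk0
  have h13 : 4.83 * (ε / 4.83) = ε := by field_simp
  linarith

end LP

end HexObs
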