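import Pool.Agent.HexLoop.DefsD

/-!
SD10: sum of the increments over a chain of domains.
-/

set_option autoImplicit false

namespace HexObs

namespace LP

open Complex Finset

lemma polys_mono {Ω Ω' : Finset Pt} (h : Ω ⊆ Ω') : polys Ω ⊆ polys Ω' := by
  classical
  intro E hE
  unfold polys at hE ⊢
  rw [Finset.mem_filter, Finset.mem_powerset] at hE ⊢
  exact ⟨hE.1.trans (Finset.product_subset_product_left h), hE.2⟩

lemma LL_mono' {Ω Ω' : Finset Pt} (h : Ω ⊆ Ω') (f : Pt) : LL Ω f ≤ LL Ω' f := by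
  classical
  unfold LL
  apply Finset.sum_le_sum_of_subset_of_nonneg
  · intro E hE
    rw [Finset.mem_filter] at hE ⊢
    exact ⟨polys_mono h hE.1, hE.2⟩
  · intro E _ _
    exact pow_nonneg xc_pos.le _

lemma LL_nonneg' (Ω : Finset Pt) (f : Pt) : 0 ≤ LL Ω f := by
  classical
  unfold LL
  exact Finset.sum_nonneg (fun _ _ => pow_nonneg xc_pos.le _)

open Classical in
/-- the increment of QQ from Ω to Ω' is at least the sum over the new polygons around f of x^|E| c E. -/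
def Inc (f : Pt) (c : Finset (Pt × Pt) → ℝ) (Ω Ω' : Finset Pt) : Prop :=
  ∑ E ∈ (polys Ω' \ polys Ω).filter (fun E => Nw E f ≠ 0), xc ^ E.card * c E ≤ QQ Ω' f - QQ Ω f

lemma Inc.refl (f : Pt) (c : Finset (Pt × Pt) → ℝ) (Ω : Finset Pt) : Inc f c Ω Ω := by
  classical
  unfold Inc
  simp

lemma Inc.trans {f : Pt} {c : Finset (Pt × Pt) → ℝ} {Ω Ω' Ω'' : Finset Pt} (h : Ω ⊆ Ω') (h' : Ω' ⊆ Ω'')
    (h1 : Inc f c Ω Ω') (h2 : Inc f c Ω' Ω'') : Inc f c Ω Ω'' := by
  classical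
  unfold Inc at *
  have key : (polys Ω'' \ polys Ω).filter (fun E => Nw E f ≠ 0) =
      (polys Ω' \ polys Ω).filter (fun E => Nw E f ≠ 0) ∪ (polys Ω'' \ polys Ω').filter (fun E => Nw E f ≠ 0) := by
    ext E
    simp only [Finset.mem_filter, Finset.mem_sdiff, Finset.mem_union]
    have a1 := @polys_mono _ _ h E
    have a2 := @polys_mono _ _ h' E
    tauto
  rw [key, Finset.sum_union]
  · linarith
  · rw [Finset.disjoint_left]
    intro E hE hE'
    rw [Finset.mem_filter, Finset.mem_sdiff] at hE hE'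
    exact hE'.1.2 hE.1.1

/-- a chain of domains. -/
theorem Inc.chain {f : Pt} {c : Finset (Pt × Pt) → ℝ} (Ω : ℕ → Finset Pt) (n : ℕ)
    (hm : ∀ i, i < n → Ω i ⊆ Ω (i + 1)) (h : ∀ i, i < n → Inc f c (Ω i) (Ω (i + 1))) :
    Ω 0 ⊆ Ω n ∧ Inc f c (Ω 0) (Ω n) := by
  induction n with
  | zero => exact ⟨Finset.Subset.refl _, Inc.refl _ _ _⟩
  | succ n ih =>
    obtain ⟨h1, h2⟩ := ih (fun i hi => hm i (by omega)) (fun i hi => h i (by omega))
    exact ⟨h1.trans (hm n (by omega)), Inc.trans h1 (hm n (by omega)) h2 (h n (by omega))⟩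

/-- a smaller function c. -/
lemma Inc.mono {f : Pt} {c c' : Finset (Pt × Pt) → ℝ} {Ω Ω' : Finset Pt} (h : Inc f c Ω Ω')
    (hc : ∀ E ∈ polys Ω', E ∉ polys Ω → Nw E f ≠ 0 → c' E ≤ c E) : Inc f c' Ω Ω' := by
  classical
  unfold Inc at *
  refine le_trans (Finset.sum_le_sum fun E hE => ?_) h
  rw [Finset.mem_filter, Finset.mem_sdiff] at hE
  exact mul_le_mul_of_nonneg_left (hc E hE.1.1 hE.1.2 hE.2) (pow_nonneg xc_pos.le _)

/-- the increment of LL. -/
lemma LL_inc {Ω Ω' : Finset Pt} (h : Ω ⊆ Ω') (f : Pt) {c : Finset (Pt × Pt) → ℝ}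
    (hc : ∀ E ∈ polys Ω', E ∉ polys Ω → Nw E f ≠ 0 → 1 ≤ c E) (hI : Inc f c Ω Ω') :
    LL Ω' f - LL Ω f ≤ QQ Ω' f - QQ Ω f := by
  classical
  have h1 := hI.mono (c' := fun _ => 1) hc
  unfold Inc at h1
  refine le_trans (le_of_eq ?_) h1
  simp only [mul_one]
  unfold LL
  have key : (polys Ω').filter (fun E => Nw E f ≠ 0) =
      (polys Ω).filter (fun E => Nw E f ≠ 0) ∪ (polys Ω' \ polys Ω).filter (fun E => Nw E f ≠ 0) := by
    ext E
    simp only [Finset.mem_filter, Finset.mem_sdiff, Finset.mem_union]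
    have a1 := @polys_mono _ _ h E
    tauto
  rw [key, Finset.sum_union]
  · ring
  · rw [Finset.disjoint_left]
    intro E hE hE'
    rw [Finset.mem_filter] at hE hE'
    exact (Finset.mem_sdiff.1 hE'.1).2 hE.1

/-- the increment bounded below by the increment of LL in smaller domains Γ ⊆ Γ'. -/
lemma LL_inc_box {Ω Ω' Γ Γ' : Finset Pt} (hΓ : Γ ⊆ Γ') (hΓ' : Γ' ⊆ Ω') (f : Pt)
    (hcap : ∀ v ∈ Ω, v ∈ Γ' → v ∈ Γ)
    {c : Finset (Pt × Pt) → ℝ} {β : ℝ}
    (hc0 : ∀ E ∈ polys Ω', E ∉ polys Ω → Nw E f ≠ 0 → 0 ≤ c E)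
    (hc : ∀ E ∈ polys Γ', E ∉ polys Ω → Nw E f ≠ 0 → β ≤ c E) (hI : Inc f c Ω Ω') :
    β * (LL Γ' f - LL Γ f) ≤ QQ Ω' f - QQ Ω f := by
  classical
  unfold Inc at hI
  refine le_trans ?_ hI
  have key : (polys Γ').filter (fun E => Nw E f ≠ 0) =
      (polys Γ).filter (fun E => Nw E f ≠ 0) ∪ (polys Γ' \ polys Γ).filter (fun E => Nw E f ≠ 0) := by
    ext E
    simp only [Finset.mem_filter, Finset.mem_sdiff, Finset.mem_union]
    have a1 := @polys_mono _ _ hΓ E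
    tauto
  have hLL : LL Γ' f - LL Γ f = ∑ E ∈ (polys Γ' \ polys Γ).filter (fun E => Nw E f ≠ 0), xc ^ E.card := by
    unfold LL
    rw [key, Finset.sum_union]
    · ring
    · rw [Finset.disjoint_left]
      intro E hE hE'
      rw [Finset.mem_filter] at hE hE'
      exact (Finset.mem_sdiff.1 hE'.1).2 hE.1
  have hsub : (polys Γ' \ polys Γ).filter (fun E => Nw E f ≠ 0) ⊆
      (polys Ω' \ polys Ω).filter (fun E => Nw E f ≠ 0) := by
    intro E hE
    rw [Finset.mem_filter, Finset.mem_sdiff] at hE ⊢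
    refine ⟨⟨polys_mono hΓ' hE.1.1, fun hcon => hE.1.2 ?_⟩, hE.2⟩
    have h1 := hE.1.1
    unfold polys at hcon h1 ⊢
    rw [Finset.mem_filter, Finset.mem_powerset] at hcon h1 ⊢
    refine ⟨fun p hp => ?_, h1.2⟩
    have h3 := h1.1 hp
    have h4 := hcon.1 hp
    rw [Finset.mem_product] at h3 h4 ⊢
    exact ⟨hcap _ h4.1 h3.1, h4.2⟩
  rw [hLL, Finset.mul_sum]
  calc ∑ E ∈ (polys Γ' \ polys Γ).filter (fun E => Nw E f ≠ 0), β * xc ^ E.card
      ≤ ∑ E ∈ (polys Γ' \ polys Γ).filter (fun E => Nw E f ≠ 0), xc ^ E.card * c E := by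
        apply Finset.sum_le_sum
        intro E hE
        have h2 := hsub hE
        rw [Finset.mem_filter, Finset.mem_sdiff] at hE h2
        rw [mul_comm]
        exact mul_le_mul_of_nonneg_left (hc E hE.1.1 h2.1.2 hE.2) (pow_nonneg xc_pos.le _)
    _ ≤ _ := by
        apply Finset.sum_le_sum_of_subset_of_nonneg hsub
        intro E hE _
        rw [Finset.mem_filter, Finset.mem_sdiff] at hE
        exact mul_nonneg (pow_nonneg xc_pos.le _) (hc0 E hE.1.1 hE.1.2 hE.2)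

end LP

end HexObs
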