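import Pool.Agent.HexLoop.Bulk
import Pool.Agent.HexLoop.Refl

/-!
SD1d: the walks from v to v are the polygons through v.
-/

set_option autoImplicit false

namespace HexObs

namespace LP

open Complex Finset

private lemma cl6_turn_b : ∀ d ∈ dirs, ∀ b b' : Bool, turn b d = turn b' d → b = b' := by
  decide

/-- the edges of a closed word. -/
noncomputable def cl6_E (p : Pt × Pt) (t : List Bool) : Finset (Pt × Pt) :=
  (range t.length).image (fun i => (vx p.1 p.2 t i, dx p.2 t i))

/-- the periodic continuation of a word. -/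
def cl6_tau (t : List Bool) (i : ℕ) : Bool := tf t (i % t.length)

lemma cl6_mem_clo {Ω : Finset Pt} {p : Pt × Pt} {t : List Bool} :
    t ∈ clo Ω p ↔ Arr0 Ω p t ∧ 1 ≤ t.length ∧ le p t = p := by
  unfold clo
  rw [Finset.mem_filter, mem_arr0]

lemma cl6_ds {p : Pt × Pt} {t : List Bool} (i : ℕ) (hi : i ≤ t.length) :
    ds p.2 (cl6_tau t) i = dx p.2 t i := by
  unfold dx
  apply ds_congr
  intro k hk
  unfold cl6_tau
  rw [Nat.mod_eq_of_lt (by omega)]

lemma cl6_vs {p : Pt × Pt} {t : List Bool} (i : ℕ) (hi : i ≤ t.length + 1) :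
    vs p.1 p.2 (cl6_tau t) i = vx p.1 p.2 t i := by
  unfold vx
  apply vs_congr
  intro k hk
  unfold cl6_tau
  rw [Nat.mod_eq_of_lt (by omega)]

lemma cl6_poly {Ω : Finset Pt} {p : Pt × Pt} {t : List Bool} (hp : De p) (ht : t ∈ clo Ω p) :
    Poly p.1 p.2 (cl6_tau t) t.length ∧ cl6_E p t = pe p.1 p.2 (cl6_tau t) t.length := by
  obtain ⟨h1, h2, h3⟩ := cl6_mem_clo.1 ht
  have hv : vx p.1 p.2 t t.length = p.1 := congrArg Prod.fst h3
  have hd : dx p.2 t t.length = p.2 := congrArg Prod.snd h3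
  refine ⟨⟨h2, hp, ?_, ?_, ?_, ?_⟩, ?_⟩
  · intro i
    unfold cl6_tau
    rw [Nat.add_mod_right]
  · rw [cl6_vs _ (by omega), hv]
  · rw [cl6_ds _ le_rfl, hd]
  · intro i k hik hk
    rw [cl6_vs _ (by omega), cl6_vs _ (by omega)]
    rcases Nat.eq_zero_or_pos i with hi | hi
    · subst hi
      have e : vx p.1 p.2 t 0 = vx p.1 p.2 t t.length := by
        rw [hv]
        rfl
      rw [e]
      exact (h1.inj k t.length (by omega) hk le_rfl).symm
    · exact h1.inj i k hi hik (by omega)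
  · unfold cl6_E pe
    apply Finset.image_congr
    intro i hi
    rw [Finset.mem_coe, Finset.mem_range] at hi
    show (vx p.1 p.2 t i, dx p.2 t i) = (vs p.1 p.2 (cl6_tau t) i, ds p.2 (cl6_tau t) i)
    rw [cl6_vs _ (by omega), cl6_ds _ (by omega)]

lemma cl6_windclo {Ω : Finset Pt} {p : Pt × Pt} {t : List Bool} (hp : De p) (ht : t ∈ clo Ω p) :
    wind t = 6 * sg (cl6_E p t) ∧ t.length = (cl6_E p t).card := by
  obtain ⟨hP, hE⟩ := cl6_poly hp ht
  constructor
  · rw [hE, ← turn_sum hP, wind_sum]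
    apply Finset.sum_congr rfl
    intro i hi
    rw [Finset.mem_range] at hi
    unfold cl6_tau
    rw [Nat.mod_eq_of_lt hi]
  · rw [hE, pe_card hP]

lemma cl6_ext {t t' : List Bool} (hl : t.length = t'.length) (h : ∀ i, i < t.length → tf t i = tf t' i) :
    t = t' := by
  apply List.ext_getElem hl
  intro i h1 h2
  have := h i h1
  unfold tf at this
  rwa [List.getD_eq_getElem _ _ h1, List.getD_eq_getElem _ _ h2] at this

lemma cl6_inj {Ω : Finset Pt} {p : Pt × Pt} {t t' : List Bool} (hp : De p) (ht : t ∈ clo Ω p)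
    (ht' : t' ∈ clo Ω p) (h : cl6_E p t = cl6_E p t') : t = t' := by
  have hl : t.length = t'.length := by
    rw [(cl6_windclo hp ht).2, (cl6_windclo hp ht').2, h]
  have hPo : IsPoly (cl6_E p t) := ⟨_, _, _, _, cl6_poly hp ht⟩
  have key : ∀ i, i < t.length → vx p.1 p.2 t i = vx p.1 p.2 t' i ∧ dx p.2 t i = dx p.2 t' i := by
    intro i
    induction i with
    | zero =>
      intro _
      exact ⟨rfl, rfl⟩
    | succ i ih =>
      intro hi
      obtain ⟨e1, e2⟩ := ih (by omega)
      have e3 : vx p.1 p.2 t (i + 1) = vx p.1 p.2 t' (i + 1) := by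
        have a1 : vx p.1 p.2 t (i + 1) = vx p.1 p.2 t i + dx p.2 t i := rfl
        have a2 : vx p.1 p.2 t' (i + 1) = vx p.1 p.2 t' i + dx p.2 t' i := rfl
        rw [a1, a2, e1, e2]
      have m1 : (vx p.1 p.2 t (i + 1), dx p.2 t (i + 1)) ∈ cl6_E p t := by
        unfold cl6_E
        rw [Finset.mem_image]
        exact ⟨i + 1, Finset.mem_range.2 hi, rfl⟩
      have m2 : (vx p.1 p.2 t' (i + 1), dx p.2 t' (i + 1)) ∈ cl6_E p t := by
        rw [h]
        unfold cl6_E
        rw [Finset.mem_image]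
        exact ⟨i + 1, Finset.mem_range.2 (by omega), rfl⟩
      rw [e3] at m1
      exact ⟨e3, isPoly_fun hPo m1 m2⟩
  have key2 : ∀ i, i ≤ t.length → dx p.2 t i = dx p.2 t' i := by
    intro i hi
    rcases Nat.lt_or_ge i t.length with h1 | h1
    · exact (key i h1).2
    · have : i = t.length := by omega
      subst this
      have a1 : dx p.2 t t.length = p.2 := congrArg Prod.snd (cl6_mem_clo.1 ht).2.2
      have a2 : dx p.2 t' t'.length = p.2 := congrArg Prod.snd (cl6_mem_clo.1 ht').2.2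
      rw [a1, hl, a2]
  apply cl6_ext hl
  intro i hi
  have a1 : dx p.2 t (i + 1) = turn (tf t i) (dx p.2 t i) := rfl
  have a2 : dx p.2 t' (i + 1) = turn (tf t' i) (dx p.2 t' i) := rfl
  have a3 := key2 (i + 1) (by omega)
  rw [a1, a2, ← key2 i (by omega)] at a3
  exact cl6_turn_b _ (de_vx hp t i).1 _ _ a3

lemma cl6_thr {Ω : Finset Pt} {p : Pt × Pt} {t : List Bool} (hp : De p) (ht : t ∈ clo Ω p) :
    cl6_E p t ∈ thr Ω p := by
  obtain ⟨h1, h2, h3⟩ := cl6_mem_clo.1 ht
  have hv : vx p.1 p.2 t t.length = p.1 := congrArg Prod.fst h3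
  unfold thr
  rw [Finset.mem_filter, mem_polys]
  refine ⟨⟨⟨_, _, _, _, cl6_poly hp ht⟩, ?_⟩, ?_⟩
  · intro v hv'
    unfold VE cl6_E at hv'
    rw [Finset.mem_image] at hv'
    obtain ⟨q, hq, rfl⟩ := hv'
    rw [Finset.mem_image] at hq
    obtain ⟨i, hi, rfl⟩ := hq
    rw [Finset.mem_range] at hi
    rcases Nat.eq_zero_or_pos i with h | h
    · subst h
      have e : vx p.1 p.2 t 0 = vx p.1 p.2 t t.length := by
        rw [hv]
        rfl
      show vx p.1 p.2 t 0 ∈ Ω
      rw [e]
      exact h1.mem t.length h2 le_rfl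
    · exact h1.mem i h (by omega)
  · unfold cl6_E
    rw [Finset.mem_image]
    exact ⟨0, Finset.mem_range.2 (by omega), rfl⟩

lemma cl6_surj {Ω : Finset Pt} {p : Pt × Pt} (hp : De p) {E : Finset (Pt × Pt)} (hE : E ∈ thr Ω p) :
    ∃ t ∈ clo Ω p, cl6_E p t = E := by
  unfold thr at hE
  rw [Finset.mem_filter, mem_polys] at hE
  obtain ⟨⟨hPo, hV⟩, hpE⟩ := hE
  obtain ⟨τ, m, hP, hEq⟩ := root_at hPo hpE
  obtain ⟨t, htd⟩ : ∃ t : List Bool, t = List.ofFn (fun i : Fin m => τ i) := ⟨_, rfl⟩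
  have hlen : t.length = m := by
    rw [htd, List.length_ofFn]
  have htf : ∀ i, i < m → tf t i = τ i := by
    intro i hi
    unfold tf
    rw [List.getD_eq_getElem _ _ (by omega)]
    simp [htd]
  have hvx : ∀ i, i ≤ m + 1 → vx p.1 p.2 t i = vs p.1 p.2 τ i := by
    intro i hi
    unfold vx
    apply vs_congr
    intro k hk
    exact htf k (by omega)
  have hdx : ∀ i, i ≤ m → dx p.2 t i = ds p.2 τ i := by
    intro i hi
    unfold dx
    apply ds_congr
    intro k hk
    exact htf k (by omega)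
  have hmem : ∀ i, i < m → vs p.1 p.2 τ i ∈ Ω := by
    intro i hi
    apply hV
    unfold VE
    rw [Finset.mem_image]
    refine ⟨eg p.1 p.2 τ i, ?_, rfl⟩
    rw [hEq]
    unfold pe
    rw [Finset.mem_image]
    exact ⟨i, Finset.mem_range.2 hi, rfl⟩
  have hpos := hP.pos
  refine ⟨t, ?_, ?_⟩
  · rw [cl6_mem_clo]
    refine ⟨⟨?_, ?_⟩, by omega, ?_⟩
    · intro i h1 h2
      rw [hvx i (by omega)]
      rcases Nat.lt_or_ge i m with h | h
      · exact hmem i h
      · have : i = m := by omega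
        rw [this, hP.clv]
        exact hmem 0 hpos
    · intro i k h1 h2 h3
      rw [hvx i (by omega), hvx k (by omega)]
      rcases Nat.lt_or_ge k m with h | h
      · exact hP.inj i k h2 h
      · have : k = m := by omega
        rw [this, hP.clv]
        exact (hP.inj 0 i (by omega) (by omega)).symm
    · unfold le
      rw [hlen, hvx m (by omega), hdx m le_rfl, hP.clv, hP.cld]
  · rw [hEq]
    unfold cl6_E pe
    rw [hlen]
    apply Finset.image_congr
    intro i hi
    rw [Finset.mem_coe, Finset.mem_range] at hi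
    show (vx p.1 p.2 t i, dx p.2 t i) = (vs p.1 p.2 τ i, ds p.2 τ i)
    rw [hvx i (by omega), hdx i (by omega)]

lemma clo_mem {Ω : Finset Pt} {p : Pt × Pt} {t : List Bool} :
    t ∈ clo Ω p ↔ Arr0 Ω p t ∧ 1 ≤ t.length ∧ le p t = p := cl6_mem_clo

/-- closed words and polygons. -/
theorem clo_bij {Ω : Finset Pt} {p : Pt × Pt} (hp : De p) {α : Type} [AddCommMonoid α] (F : List Bool → α)
    (G : Finset (Pt × Pt) → α) (h : ∀ t ∈ clo Ω p, F t = G (cl6_E p t)) :
    ∑ t ∈ clo Ω p, F t = ∑ E ∈ thr Ω p, G E := by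
  apply Finset.sum_bij (fun t _ => cl6_E p t)
  · intro t ht
    exact cl6_thr hp ht
  · intro t ht t' ht' h
    exact cl6_inj hp ht ht' h
  · intro E hE
    obtain ⟨t, h1, h2⟩ := cl6_surj hp hE
    exact ⟨t, h1, h2⟩
  · exact h

private lemma sc_app {Ω : Finset Pt} {p : Pt × Pt} {t : List Bool} {b : Bool} :
    Arr0 Ω p (t ++ [b]) ↔
      Arr0 Ω p t ∧ tp p t ∈ Ω ∧ ∀ i, 1 ≤ i → i ≤ t.length → vx p.1 p.2 t i ≠ tp p t := by
  have hl : (t ++ [b]).length = t.length + 1 := by simp
  constructor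
  · intro h
    refine ⟨⟨?_, ?_⟩, ?_, ?_⟩
    · intro i h1 h2
      have := h.mem i h1 (by omega)
      rwa [vx_append (by omega)] at this
    · intro i k h0 h1 h2
      have := h.inj i k h0 h1 (by omega)
      rwa [vx_append (by omega), vx_append (by omega)] at this
    · have := h.mem (t.length + 1) (by omega) (by omega)
      rwa [vx_append (by omega)] at this
    · intro i h0 h1
      have := h.inj i (t.length + 1) h0 (by omega) (by omega)
      rwa [vx_append (by omega), vx_append (by omega)] at this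
  · rintro ⟨h, h1, h2⟩
    constructor
    · intro i h3 h4
      rw [hl] at h4
      rw [vx_append (by omega)]
      rcases Nat.lt_or_ge t.length i with h5 | h5
      · have : i = t.length + 1 := by omega
        rw [this]
        exact h1
      · exact h.mem i h3 h5
    · intro i k h0 h3 h4
      rw [hl] at h4
      rw [vx_append (by omega), vx_append (by omega)]
      rcases Nat.lt_or_ge t.length k with h5 | h5
      · have : k = t.length + 1 := by omega
        rw [this]
        exact h2 i h0 (by omega)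
      · exact h.inj i k h0 h3 h5

private lemma sc_le (p : Pt × Pt) (t : List Bool) (b : Bool) :
    le p (t ++ [b]) = (tp p t, turn b (dx p.2 t t.length)) := by
  have hl : (t ++ [b]).length = t.length + 1 := by simp
  unfold le
  rw [hl, vx_append (by omega), dx_next, dx_append (by omega)]
  have := tf_append_right (t := t) (s := [b]) 0
  rw [add_zero] at this
  rw [this]
  rfl

/-- the closed words without the last turn. -/
private lemma sc_iff {Ω : Finset Pt} {v : Pt} (hv : v ∉ Ω) {a : Pt × Pt} (hav : a.1 = v) {t : List Bool} {b : Bool} :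
    t ++ [b] ∈ clo (insert v Ω) a ↔ (t ∈ ex0 Ω a ∧ tp a t = v) ∧ turn b (dx a.2 t t.length) = a.2 := by
  rw [clo_mem, mem_ex0, sc_app, sc_le]
  constructor
  · rintro ⟨⟨h1, h2, h3⟩, _, h4⟩
    have h5 : tp a t = v := by rw [← hav]; exact congrArg Prod.fst h4
    refine ⟨⟨⟨⟨?_, h1.inj⟩, ?_⟩, h5⟩, congrArg Prod.snd h4⟩
    · intro i hi1 hi2
      rcases Finset.mem_insert.1 (h1.mem i hi1 hi2) with h6 | h6
      · exfalso
        exact h3 i hi1 hi2 (by rw [h6, h5])
      · exact h6
    · rw [h5]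
      exact hv
  · rintro ⟨⟨⟨h1, _⟩, h3⟩, h4⟩
    refine ⟨⟨⟨fun i hi1 hi2 => Finset.mem_insert_of_mem (h1.mem i hi1 hi2), h1.inj⟩, ?_, ?_⟩, by simp, ?_⟩
    · rw [h3]
      exact Finset.mem_insert_self _ _
    · intro i hi1 hi2 e
      apply hv
      rw [← h3, ← e]
      exact h1.mem i hi1 hi2
    · ext1
      · show tp a t = a.1
        rw [h3, hav]
      · exact h4

private lemma sc_ex {Ω : Finset Pt} {v : Pt} {a : Pt × Pt} (ha : a ∈ bd Ω) (hav : a.1 = v)
    {t : List Bool} (ht : t ∈ ex0 Ω a) (h : tp a t = v) : ∃ b, turn b (dx a.2 t t.length) = a.2 := by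
  have hb := mem_bd.1 ha
  have hd := de_vx hb.2.1 t t.length
  have h1 := cl_of_de hd
  have h2 := cl_of_de hb.2.1
  have h3 : cl a.1 = cl (vx a.1 a.2 t t.length) + cl (dx a.2 t t.length) := by
    rw [← cl_add]
    have e : vx a.1 a.2 t t.length + dx a.2 t t.length = a.1 := h.trans hav.symm
    rw [e]
  have h4 : cl a.2 = - cl (dx a.2 t t.length) := by
    simp only at h1
    rcases h1 with ⟨a1, a2⟩ | ⟨a1, a2⟩ <;> rcases h2 with ⟨b1, b2⟩ | ⟨b1, b2⟩ <;> rw [a1, a2, b1] at h3 <;>
      rw [a2, b2] <;> revert h3 <;> decide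
  rcases de_out _ hd.1 _ hb.2.1.1 h4 with h5 | ⟨b, h5⟩
  · exfalso
    have h6 := ex0_pos hb.1 ht
    have h7 : vx a.1 a.2 t t.length = vx a.1 a.2 t 1 := by
      have e1 : vx a.1 a.2 t t.length + dx a.2 t t.length = v := h
      have e2 : vx a.1 a.2 t 1 = a.1 + a.2 := rfl
      have e3 : vx a.1 a.2 t t.length = v - dx a.2 t t.length := by
        rw [← e1]
        abel
      have h5' : a.2 = -dx a.2 t t.length := h5
      rw [e2, e3, hav]
      conv_rhs => rw [h5']
      abel
    have h8 : t.length = 1 := by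
      by_contra h9
      exact (mem_ex0.1 ht).1.inj 1 t.length le_rfl (by omega) le_rfl h7.symm
    obtain ⟨b, rfl⟩ := List.length_eq_one_iff.1 h8
    have h9 : dx a.2 [b] [b].length = turn b a.2 := rfl
    rw [h9] at h5
    have h10 : ∀ d ∈ dirs, ∀ b : Bool, d ≠ -turn b d := by decide
    exact h10 _ hb.2.1.1 b h5
  · exact ⟨b, h5.symm⟩

private lemma sc_dirs : ∀ e ∈ dirs, ∀ dl ∈ dirs, ∀ c β : Bool, turn c dl = turn β e → dl ≠ e → sgn c = -sgn β := by
  decide +kernel

/-- the turn of a polygon at a vertex with an edge that leaves a full domain. -/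
theorem turn_at {Ω : Finset Pt} (hΩ : Full Ω) {p : Pt × Pt} (hp : p ∈ bd Ω) {E : Finset (Pt × Pt)}
    (hE : E ∈ polys Ω) {d : Pt} {c : Bool} (h1 : (p.1 + p.2 - d, d) ∈ E) (h2 : (p.1 + p.2, turn c d) ∈ E) :
    sgn c = sg E := by
  obtain ⟨hE1, hE2⟩ := mem_polys.1 hE
  have hb := mem_bd.1 hp
  have hp1 : p.1 ∉ VE E := fun h => hb.2.2 (hE2 h)
  have hpE : p ∉ E := fun h => hp1 (Finset.mem_image_of_mem _ h)
  have hrE : rv p ∉ E := by
    intro h
    obtain ⟨b, hb'⟩ := isPoly_next hE1 h
    apply hp1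
    have e : (rv p).1 + (rv p).2 = p.1 := by
      show p.1 + p.2 + -p.2 = p.1
      abel
    rw [e] at hb'
    exact Finset.mem_image.2 ⟨_, hb', rfl⟩
  have hIn : ¬ EIn E p := by
    intro h
    exact hb.2.2 (hΩ.2 E hE1 hE2 _ ((ins_edge hE1 hb.2.1 hp1).2 h))
  have hd1 := isPoly_de hE1 h1
  have hd2 := isPoly_de hE1 h2
  have h3 := cl_of_de hd2
  have h4 := cl_of_de hb.2.1
  have h5 : cl (p.1 + p.2) = cl p.1 + cl p.2 := cl_add _ _
  have h6 : cl (turn c d) = - cl p.2 := by
    simp only at h3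
    rcases h3 with ⟨a1, a2⟩ | ⟨a1, a2⟩ <;> rcases h4 with ⟨b1, b2⟩ | ⟨b1, b2⟩ <;> rw [a1, b1, b2] at h5 <;>
      rw [a2, b2] <;> revert h5 <;> decide
  have h7' : turn c d = -p.2 ∨ ∃ b, turn c d = turn b p.2 := de_out _ hb.2.1.1 _ hd2.1 h6
  rcases h7' with h7 | ⟨β, h7⟩
  · exfalso
    apply hrE
    have e : rv p = (p.1 + p.2, turn c d) := by
      unfold rv
      rw [h7]
    rw [e]
    exact h2
  · rw [h7] at h2
    have h8 := (eIn_turn hE1 hb.2.1 hpE hrE h2)
    have h9 : sgn β ≠ sg E := fun h => hIn (h8.2 h)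
    have h10 : d ≠ p.2 := by
      intro h
      apply hpE
      have e : (p.1 + p.2 - d, d) = p := by
        rw [h]
        ext1
        · show p.1 + p.2 - p.2 = p.1
          abel
        · rfl
      rw [← e]
      exact h1
    rw [sc_dirs _ hb.2.1.1 _ hd1.1 c β h7 h10]
    rcases sg_cases E with h11 | h11 <;> cases β <;> rw [h11] at h9 ⊢ <;> simp [sgn] at h9 ⊢

private lemma sc_sin (σ : ℤ) (hσ : σ = 1 ∨ σ = -1) :
    (σ : ℝ) * Real.sin ((5 * σ : ℤ) * (Real.pi / 8)) = Real.sin (3 * Real.pi / 8) := by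
  have h : Real.sin (5 * (Real.pi / 8)) = Real.sin (3 * Real.pi / 8) := by
    have h1 : 5 * (Real.pi / 8) = Real.pi - 3 * Real.pi / 8 := by ring
    rw [h1, Real.sin_pi_sub]
  rcases hσ with rfl | rfl
  · have h2 : (((5 * 1 : ℤ) : ℝ)) * (Real.pi / 8) = 5 * (Real.pi / 8) := by push_cast; ring
    rw [h2, h]
    push_cast
    ring
  · have h2 : (((5 * (-1) : ℤ) : ℝ)) * (Real.pi / 8) = -(5 * (Real.pi / 8)) := by push_cast; ring
    rw [h2, Real.sin_neg, h]
    push_cast
    ring

open Classical in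
/-- the walks from v to v with the first edge a. -/
private lemma sc_one {Ω : Finset Pt} {v : Pt} (hΩ : Full (insert v Ω)) (hv : v ∉ Ω)
    (hb : ∃ b ∈ bd (insert v Ω), b.1 + b.2 = v) {f : Pt} (hf : Fc f) {a : Pt × Pt} (ha : a ∈ bd Ω) (hav : a.1 = v) :
    ∑ t ∈ (ex0 Ω a).filter (fun t => tp a t = v), (NN f a t : ℝ) * (wt t).im =
      ∑ E ∈ thr (insert v Ω) a, (if Nw E f ≠ 0 then Real.sin (3 * Real.pi / 8) * xc ^ (E.card - 1) else 0) := by
  have hbd := mem_bd.1 ha
  rw [← clo_bij hbd.2.1 (fun t => (NN f a t.dropLast : ℝ) * (wt t.dropLast).im)]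
  · symm
    refine Finset.sum_bij (fun t _ => t.dropLast) ?_ ?_ ?_ ?_
    · intro t ht
      have hne : t ≠ [] := by
        rintro rfl
        have := (clo_mem.1 ht).2.1
        simp at this
      rw [← List.dropLast_append_getLast hne] at ht
      rw [Finset.mem_filter]
      exact ((sc_iff hv hav).1 ht).1
    · intro t ht t' ht' h
      have hne : t ≠ [] := by
        rintro rfl
        have := (clo_mem.1 ht).2.1
        simp at this
      have hne' : t' ≠ [] := by
        rintro rfl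
        have := (clo_mem.1 ht').2.1
        simp at this
      have e := List.dropLast_append_getLast hne
      have e' := List.dropLast_append_getLast hne'
      rw [← e] at ht
      rw [← e'] at ht'
      have h1 := ((sc_iff hv hav).1 ht).2
      have h2 := ((sc_iff hv hav).1 ht').2
      rw [← h] at h2
      have h3 := turn_inj _ (de_vx hbd.2.1 t.dropLast t.dropLast.length).1 _ _ (h1.trans h2.symm)
      rw [← e, ← e', h, h3]
    · intro t ht
      rw [Finset.mem_filter] at ht
      obtain ⟨b, hb'⟩ := sc_ex ha hav ht.1 ht.2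
      exact ⟨t ++ [b], (sc_iff hv hav).2 ⟨ht, hb'⟩, by simp⟩
    · intro t _
      rfl
  · intro t ht
    obtain ⟨s, c, rfl⟩ : ∃ s c, t = s ++ [c] := by
      have hne : t ≠ [] := by
        rintro rfl
        have := (clo_mem.1 ht).2.1
        simp at this
      exact ⟨_, _, (List.dropLast_append_getLast hne).symm⟩
    obtain ⟨E, hEd⟩ : ∃ E, E = cl6_E a (s ++ [c]) := ⟨_, rfl⟩
    have hl : (s ++ [c]).length = s.length + 1 := by simp
    have hw := cl6_windclo hbd.2.1 ht
    have hthr := cl6_thr hbd.2.1 ht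
    have hpol := cl6_poly hbd.2.1 ht
    rw [← hEd] at hw hthr hpol ⊢
    have hE : E ∈ polys (insert v Ω) := (Finset.mem_filter.1 hthr).1
    have haE : a ∈ E := (Finset.mem_filter.1 hthr).2
    have hcl := (sc_iff hv hav).1 ht
    have hmem : ∀ i, i < s.length + 1 → (vx a.1 a.2 (s ++ [c]) i, dx a.2 (s ++ [c]) i) ∈ E := by
      intro i hi
      rw [hEd]
      unfold cl6_E
      exact Finset.mem_image.2 ⟨i, Finset.mem_range.2 (by omega), rfl⟩
    have hNN : NN f a s = Nw E f := by
      rw [hpol.2, Nw_poly hpol.1, hl]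
      unfold NN
      apply Finset.sum_congr rfl
      intro i hi
      rw [Finset.mem_range] at hi
      unfold eg
      rw [cl6_vs _ (by omega), cl6_ds _ (by omega), vx_append (by omega), dx_append (by omega)]
    have hsg : sgn c = sg E := by
      obtain ⟨b, hb1, hb2⟩ := hb
      apply turn_at hΩ hb1 hE (d := dx a.2 s s.length) (c := c)
      · have h1 := hmem s.length (by omega)
        rw [vx_append (by omega), dx_append (by omega)] at h1
        have h2 : b.1 + b.2 - dx a.2 s s.length = vx a.1 a.2 s s.length := by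
          rw [hb2, ← hcl.1.2]
          show vx a.1 a.2 s s.length + dx a.2 s s.length - dx a.2 s s.length = _
          abel
        rw [h2]
        exact h1
      · rw [hcl.2, hb2, ← hav]
        exact haE
    have hws : wind s = 5 * sg E := by
      have h1 := hw.1
      rw [wind_append] at h1
      have h2 : wind [c] = sgn c := by
        unfold wind
        simp
      rw [h2, hsg] at h1
      linarith
    have hls : s.length = E.card - 1 := by
      have h1 := hw.2
      omega
    have him : (wt s).im = Real.sin (wind s * (Real.pi / 8)) * xc ^ s.length := by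
      unfold wt
      rw [← Complex.ofReal_pow, Complex.im_mul_ofReal, Complex.exp_ofReal_mul_I_im]
    simp only [List.dropLast_concat]
    rw [hNN, him, hws, hls]
    rcases Nw_cases (mem_polys.1 hE).1 hf with h1 | h1
    · rw [h1]
      simp
    · have h2 : Nw E f ≠ 0 := by
        rw [h1]
        rcases sg_cases E with h3 | h3 <;> rw [h3] <;> decide
      rw [if_pos h2, h1, ← mul_assoc, sc_sin _ (sg_cases E)]

open Classical in
/-- the walks from v to v are the polygons through v. -/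
theorem sd_clo {Ω : Finset Pt} {v : Pt} (hΩ : Full (insert v Ω)) (hv : v ∉ Ω)
    (hb : ∃ b ∈ bd (insert v Ω), b.1 + b.2 = v) {f : Pt} (hf : Fc f) :
    ∑ a ∈ (bd Ω).filter (fun a => a.1 = v), ∑ t ∈ (ex0 Ω a).filter (fun t => tp a t = v), (NN f a t : ℝ) * (wt t).im =
      Real.sin (3 * Real.pi / 8) * ∑ E ∈ (polys (insert v Ω)).filter (fun E => v ∈ VE E ∧ Nw E f ≠ 0),
        xc ^ (E.card - 1) := by
  have h1 : ∑ a ∈ (bd Ω).filter (fun a => a.1 = v), ∑ t ∈ (ex0 Ω a).filter (fun t => tp a t = v),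
      (NN f a t : ℝ) * (wt t).im = ∑ a ∈ (bd Ω).filter (fun a => a.1 = v), ∑ E ∈ thr (insert v Ω) a,
        (if Nw E f ≠ 0 then Real.sin (3 * Real.pi / 8) * xc ^ (E.card - 1) else 0) := by
    apply Finset.sum_congr rfl
    intro a ha
    rw [Finset.mem_filter] at ha
    exact sc_one hΩ hv hb hf ha.1 ha.2
  rw [h1]
  have h2 : ∑ a ∈ (bd Ω).filter (fun a => a.1 = v), ∑ E ∈ thr (insert v Ω) a,
        (if Nw E f ≠ 0 then Real.sin (3 * Real.pi / 8) * xc ^ (E.card - 1) else 0) =
      ∑ E ∈ (polys (insert v Ω)).filter (fun E => v ∈ VE E), ∑ a ∈ ((bd Ω).filter (fun a => a.1 = v)).filter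
        (fun a => a ∈ E), (if Nw E f ≠ 0 then Real.sin (3 * Real.pi / 8) * xc ^ (E.card - 1) else 0) := by
    apply Finset.sum_comm'
    intro a E
    unfold thr
    simp only [Finset.mem_filter]
    constructor
    · rintro ⟨h3, h4, h5⟩
      exact ⟨⟨h3, h5⟩, h4, Finset.mem_image.2 ⟨a, h5, h3.2⟩⟩
    · rintro ⟨⟨h3, h5⟩, h4, _⟩
      exact ⟨h3, h4, h5⟩
  rw [h2, Finset.mul_sum, ← Finset.filter_filter, Finset.sum_filter (fun E => Nw E f ≠ 0)]
  apply Finset.sum_congr rfl
  intro E hE
  rw [Finset.mem_filter] at hE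
  obtain ⟨hE1, hE2⟩ := mem_polys.1 hE.1
  obtain ⟨a, ha, hav⟩ := Finset.mem_image.1 hE.2
  have h3 : ((bd Ω).filter (fun a => a.1 = v)).filter (fun a => a ∈ E) = {a} := by
    ext b
    rw [Finset.mem_filter, Finset.mem_filter, Finset.mem_singleton]
    constructor
    · rintro ⟨⟨_, h4⟩, h5⟩
      have h6 : (v, b.2) ∈ E := by
        rw [← h4]
        exact h5
      have h7 : (v, a.2) ∈ E := by
        rw [← hav]
        exact ha
      have h8 := isPoly_fun hE1 h6 h7
      ext1
      · rw [h4, hav]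
      · exact h8
    · rintro rfl
      refine ⟨⟨?_, hav⟩, ha⟩
      rw [mem_bd]
      have hd := isPoly_de hE1 ha
      refine ⟨?_, hd, ?_⟩
      · obtain ⟨c, hc⟩ := isPoly_next hE1 ha
        have h4 : b.1 + b.2 ∈ insert v Ω := hE2 (Finset.mem_image.2 ⟨_, hc, rfl⟩)
        rcases Finset.mem_insert.1 h4 with h5 | h5
        · exfalso
          rw [← hav] at h5
          have h6 : b.1 + b.2 = b.1 + 0 := by rw [h5, add_zero]
          have h7 := add_left_cancel h6
          have h8 : ∀ d ∈ dirs, d ≠ 0 := by decide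
          exact h8 _ hd.1 h7
        · exact h5
      · rw [hav]
        exact hv
  rw [h3, Finset.sum_singleton]

end LP

end HexObs
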