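import Pool.Agent.HexLoop.Jordan
import Pool.Agent.HexLoop.Par

/-!
LOOP, module L13: arcs at the floor or at the top cross every ray at most two or three times (signed); a crude bound
for all walks of the parallelogram.
-/

set_option autoImplicit false

namespace HexObs

namespace LP

open Complex Finset

section L13

private lemma c_nn_add (a b : Pt) : nn (a + b) = nn a + nn b := by
  show a.1 + b.1 - (a.2 + b.2) = a.1 - a.2 + (b.1 - b.2)
  ring

private lemma c_lv_add (a b : Pt) : lv (a + b) = lv a + lv b := by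
  show a.1 + b.1 + 2 * (a.2 + b.2) = a.1 + 2 * a.2 + (b.1 + 2 * b.2)
  ring

private lemma c_nn_sub (a b : Pt) : nn (a - b) = nn a - nn b := by
  show a.1 - b.1 - (a.2 - b.2) = a.1 - a.2 - (b.1 - b.2)
  ring

private lemma c_lv_sub (a b : Pt) : lv (a - b) = lv a - lv b := by
  show a.1 - b.1 + 2 * (a.2 - b.2) = a.1 + 2 * a.2 - (b.1 + 2 * b.2)
  ring

private lemma c_vt {v : Pt} (h : Vt v) : (v.1 - v.2) % 3 ≠ 1 := by
  intro h1
  apply h
  unfold cl
  have h2 : ((v.1 - v.2 : ℤ) : ZMod 3) = ((1 : ℤ) : ZMod 3) := by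
    rw [ZMod.intCast_eq_intCast_iff']
    simpa using h1
  simpa using h2

private lemma c_fc {v : Pt} (h : Fc v) : (v.1 - v.2) % 3 = 1 := by
  have h1 : cl v = 1 := h
  unfold cl at h1
  have h2 : ((v.1 - v.2 : ℤ) : ZMod 3) = ((1 : ℤ) : ZMod 3) := by simpa using h1
  rw [ZMod.intCast_eq_intCast_iff'] at h2
  simpa using h2

/-- all the edges of a walk are edges of the lattice. -/
private lemma c_de {p : Pt × Pt} (hp : De p) (τ : ℕ → Bool) (i : ℕ) : De (vs p.1 p.2 τ i, ds p.2 τ i) := by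
  have key : ∀ j, cl (vs p.1 p.2 τ j) ≠ 1 := by
    intro j
    rw [cl_vs]
    split_ifs
    · exact hp.2.1
    · rw [← cl_add]
      exact hp.2.2
  exact ⟨ds_mem hp.1 i, key i, key (i + 1)⟩

/-- the turns of the closing zigzag: number q = 0, ..., 2 j. -/
private def cb (b : Bool) (j q : ℕ) : Bool := if q % 2 = 1 ∨ q = 0 ∨ q = 2 * j then b else !b

private def d1 (b : Bool) : Pt := if b then (1, -1) else (-1, 0)

private def d2 (b : Bool) : Pt := if b then (1, 0) else (-1, 1)

private lemma t_0 (b : Bool) : turn b (-up) = d1 b := by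
  revert b
  decide

private lemma t_1 (b : Bool) : turn b (d1 b) = d2 b := by
  revert b
  decide

private lemma t_2 (b : Bool) : turn (!b) (d2 b) = d1 b := by
  revert b
  decide

private lemma t_3 (b : Bool) : turn b (d2 b) = up := by
  revert b
  decide

private lemma c_l1 : ∀ b : Bool, lv (d1 b + d2 b) = 0 := by decide

private lemma c_l2 : ∀ b : Bool, lv (d1 b) ≤ 0 := by decide

private lemma c_hh : ∀ b : Bool, (b = true ∧ nn (d1 b + d2 b) = 3 ∧ nn (d1 b) = 2) ∨
    (b = false ∧ nn (d1 b + d2 b) = -3 ∧ nn (d1 b) = -1) := by decide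

private lemma c_step {v0 d0 : Pt} {σ : ℕ → Bool} {n j : ℕ} {b : Bool}
    (hs : ∀ q, q ≤ 2 * j → σ (n + q) = cb b j q) {q : ℕ} (hq : q < j) {v : Pt}
    (h1 : ds d0 σ (n + 1 + 2 * q) = d1 b) (h2 : vs v0 d0 σ (n + 1 + 2 * q) = v) :
    ds d0 σ (n + 2 + 2 * q) = d2 b ∧ vs v0 d0 σ (n + 2 + 2 * q) = v + d1 b ∧
      vs v0 d0 σ (n + 3 + 2 * q) = v + d1 b + d2 b := by
  have h3 : ds d0 σ (n + 2 + 2 * q) = d2 b := by
    have e : n + 2 + 2 * q = (n + 1 + 2 * q) + 1 := by ring
    have e' : n + 1 + 2 * q = n + (2 * q + 1) := by ring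
    rw [e, ds_succ, h1, e', hs _ (by omega)]
    unfold cb
    rw [if_pos (Or.inl (by omega)), t_1]
  have h4 : vs v0 d0 σ (n + 2 + 2 * q) = v + d1 b := by
    have e : n + 2 + 2 * q = (n + 1 + 2 * q) + 1 := by ring
    rw [e, vs_succ, h1, h2]
  refine ⟨h3, h4, ?_⟩
  have e : n + 3 + 2 * q = (n + 2 + 2 * q) + 1 := by ring
  rw [e, vs_succ, h3, h4]

/-- the closing zigzag. -/
private lemma c_zig {v0 d0 : Pt} {σ : ℕ → Bool} {n j : ℕ} {b : Bool} (hd : ds d0 σ n = -up)
    (hs : ∀ q, q ≤ 2 * j → σ (n + q) = cb b j q) (q : ℕ) (hq : q < j) :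
    vs v0 d0 σ (n + 1 + 2 * q) = vs v0 d0 σ (n + 1) + (q : ℤ) • (d1 b + d2 b) ∧
      ds d0 σ (n + 1 + 2 * q) = d1 b ∧
      vs v0 d0 σ (n + 2 + 2 * q) = vs v0 d0 σ (n + 1) + (q : ℤ) • (d1 b + d2 b) + d1 b ∧
      ds d0 σ (n + 2 + 2 * q) = d2 b ∧
      vs v0 d0 σ (n + 3 + 2 * q) = vs v0 d0 σ (n + 1) + ((q + 1 : ℕ) : ℤ) • (d1 b + d2 b) := by
  have key : ds d0 σ (n + 1 + 2 * q) = d1 b ∧
      vs v0 d0 σ (n + 1 + 2 * q) = vs v0 d0 σ (n + 1) + (q : ℤ) • (d1 b + d2 b) := by
    induction q with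
    | zero =>
      constructor
      · show ds d0 σ (n + 1) = d1 b
        rw [ds_succ, hd]
        have := hs 0 (by omega)
        rw [Nat.add_zero] at this
        rw [this]
        unfold cb
        rw [if_pos (Or.inr (Or.inl rfl)), t_0]
      · simp
    | succ q ih =>
      obtain ⟨h1, h2⟩ := ih (by omega)
      obtain ⟨h3, h4, h5⟩ := c_step hs (by omega : q < j) h1 h2
      have e : n + 1 + 2 * (q + 1) = n + 3 + 2 * q := by ring
      rw [e]
      constructor
      · have e' : n + 3 + 2 * q = (n + 2 + 2 * q) + 1 := by ring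
        have e2 : n + 2 + 2 * q = n + (2 * q + 2) := by ring
        rw [e', ds_succ, h3, e2, hs _ (by omega)]
        unfold cb
        rw [if_neg (by omega), t_2]
      · rw [h5]
        push_cast
        rw [add_smul, one_smul]
        abel
  obtain ⟨h1, h2⟩ := key
  obtain ⟨h3, h4, h5⟩ := c_step hs hq h1 h2
  refine ⟨h2, h1, h4, h3, ?_⟩
  rw [h5]
  push_cast
  rw [add_smul, one_smul]
  abel

private lemma c_sum {N : ℕ} {F : ℕ → ℤ} (h1 : ∀ x, |F x| ≤ 1)
    (h2 : ∀ x y, x < N → y < N → F x ≠ 0 → F y ≠ 0 → x = y) : |∑ x ∈ range N, F x| ≤ 1 := by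
  by_cases h : ∃ x ∈ range N, F x ≠ 0
  · obtain ⟨x, hx, hx1⟩ := h
    rw [Finset.sum_eq_single x]
    · exact h1 x
    · intro y hy hyx
      by_contra h3
      exact hyx (h2 y x (Finset.mem_range.1 hy) (Finset.mem_range.1 hx) h3 hx1)
    · intro h3
      exact absurd hx h3
  · push Not at h
    rw [Finset.sum_eq_zero h]
    simp

private lemma c_cr (f : Pt) (p : Pt × Pt) : |cr f p| ≤ 1 := by
  unfold cr
  split_ifs <;> simp

private lemma c_cr_ne {f : Pt} {p : Pt × Pt} (h : cr f p ≠ 0) :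
    (p.2 = (1, -1) ∧ nn p.1 = nn f - 1) ∨ (p.2 = (-1, 1) ∧ nn p.1 = nn f + 1) := by
  unfold cr at h
  split_ifs at h with h1 h2
  · exact Or.inl ⟨h1.1, h1.2.1⟩
  · exact Or.inr ⟨h2.1, h2.2.1⟩
  · exact absurd rfl h

private lemma c_nn_smul (q : ℤ) (a : Pt) : nn (q • a) = q * nn a := by
  show q * a.1 - q * a.2 = q * (a.1 - a.2)
  ring

private lemma c_lv_smul (q : ℤ) (a : Pt) : lv (q • a) = q * lv a := by
  show q * a.1 + 2 * (q * a.2) = q * (a.1 + 2 * a.2)
  ring

/-- arcs above a level, closed by a zigzag below it: the polygon. -/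
private lemma c_poly {v0 : Pt} {t : List Bool} (hv : De (v0, up))
    (hM : ∀ i, 1 ≤ i → i ≤ t.length → 0 < lv (vx v0 up t i))
    (hI : ∀ i k, i < k → k ≤ t.length → vx v0 up t i ≠ vx v0 up t k)
    (hT : lv (vx v0 up t (t.length + 1)) = 0) (hD : dx up t t.length = -up) {j : ℕ} {b : Bool} (hj : 1 ≤ j)
    (hJ : vx v0 up t (t.length + 1) + (j : ℤ) • (d1 b + d2 b) = v0) :
    ∃ τ : ℕ → Bool, Poly v0 up τ (t.length + 1 + 2 * j) ∧
      (∀ i, i ≤ t.length + 1 → vs v0 up τ i = vx v0 up t i) ∧ (∀ i, i ≤ t.length → ds up τ i = dx up t i) ∧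
      (∀ k, t.length + 1 ≤ k → k < t.length + 1 + 2 * j → ∃ q, q < j ∧
        ((k = t.length + 1 + 2 * q ∧
            nn (vs v0 up τ k) = nn (vx v0 up t (t.length + 1)) + q * nn (d1 b + d2 b) ∧ ds up τ k = d1 b) ∨
          (k = t.length + 2 + 2 * q ∧
            nn (vs v0 up τ k) = nn (vx v0 up t (t.length + 1)) + q * nn (d1 b + d2 b) + nn (d1 b) ∧
            ds up τ k = d2 b))) ∧
      nn v0 = nn (vx v0 up t (t.length + 1)) + j * nn (d1 b + d2 b) ∧ lv v0 = 0 ∧
      ∀ i k, t.length + 1 ≤ i → i < k → k < t.length + 1 + 2 * j → nn (vs v0 up τ i) ≠ nn (vs v0 up τ k) := by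
  set n := t.length with hn
  set m := n + 1 + 2 * j with hm
  set σ : ℕ → Bool := fun i => if i < n then tf t i else cb b j (i - n) with hσ
  set τ : ℕ → Bool := fun i => σ (i % m) with hτ
  have hs : ∀ q, q ≤ 2 * j → σ (n + q) = cb b j q := by
    intro q _
    rw [hσ]
    show (if n + q < n then tf t (n + q) else cb b j (n + q - n)) = _
    rw [if_neg (by omega), Nat.add_sub_cancel_left]
  have a1 : ∀ i, i ≤ m → vs v0 up τ i = vs v0 up σ i := fun i hi =>
    vs_congr i (fun k hk => by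
      show σ (k % m) = σ k
      rw [Nat.mod_eq_of_lt (by omega)])
  have a2 : ∀ i, i ≤ m → ds up τ i = ds up σ i := fun i hi =>
    ds_congr i (fun k hk => by
      show σ (k % m) = σ k
      rw [Nat.mod_eq_of_lt (by omega)])
  have b1 : ∀ i, i ≤ n + 1 → vs v0 up σ i = vx v0 up t i := fun i hi =>
    vs_congr i (fun k hk => by
      show (if k < n then tf t k else cb b j (k - n)) = tf t k
      rw [if_pos (by omega)])
  have b2 : ∀ i, i ≤ n → ds up σ i = dx up t i := fun i hi =>
    ds_congr i (fun k hk => by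
      show (if k < n then tf t k else cb b j (k - n)) = tf t k
      rw [if_pos (by omega)])
  have hd : ds up σ n = -up := by rw [b2 n le_rfl, hD]
  have hz := fun q hq => c_zig (v0 := v0) hd hs q hq
  -- the end
  have e1 : vs v0 up σ m = v0 := by
    obtain ⟨_, _, _, _, h5⟩ := hz (j - 1) (by omega)
    have e : n + 3 + 2 * (j - 1) = m := by omega
    have e' : j - 1 + 1 = j := by omega
    rw [e, e', b1 (n + 1) le_rfl] at h5
    rw [h5, hJ]
  have e2 : ds up σ m = up := by
    obtain ⟨_, _, _, h4, _⟩ := hz (j - 1) (by omega)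
    have e : n + 2 + 2 * (j - 1) = n + 2 * j := by omega
    rw [e] at h4
    have e' : m = (n + 2 * j) + 1 := by omega
    rw [e', ds_succ, h4, hs _ le_rfl]
    unfold cb
    rw [if_pos (Or.inr (Or.inr rfl)), t_3]
  -- the coordinates of the closing vertices
  have hk : ∀ k, n + 1 ≤ k → k < m → ∃ q, q < j ∧
      ((k = n + 1 + 2 * q ∧ nn (vs v0 up σ k) = nn (vx v0 up t (n + 1)) + q * nn (d1 b + d2 b) ∧
        lv (vs v0 up σ k) = 0 ∧ ds up σ k = d1 b) ∨
      (k = n + 2 + 2 * q ∧ nn (vs v0 up σ k) = nn (vx v0 up t (n + 1)) + q * nn (d1 b + d2 b) + nn (d1 b) ∧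
        lv (vs v0 up σ k) ≤ 0 ∧ ds up σ k = d2 b)) := by
    intro k h1 h2
    have hl : lv (d1 b + d2 b) = 0 := c_l1 b
    have hl' : lv (d1 b) ≤ 0 := c_l2 b
    refine ⟨(k - (n + 1)) / 2, by omega, ?_⟩
    obtain ⟨c1, c2, c3, c4, _⟩ := hz ((k - (n + 1)) / 2) (by omega)
    rcases Nat.mod_two_eq_zero_or_one (k - (n + 1)) with h3 | h3
    · left
      have e : n + 1 + 2 * ((k - (n + 1)) / 2) = k := by omega
      rw [e] at c1 c2
      rw [b1 (n + 1) le_rfl] at c1
      refine ⟨by omega, ?_, ?_, c2⟩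
      · rw [c1, c_nn_add, c_nn_smul]
      · rw [c1, c_lv_add, c_lv_smul, hl, hT]
        ring
    · right
      have e : n + 2 + 2 * ((k - (n + 1)) / 2) = k := by omega
      rw [e] at c3 c4
      rw [b1 (n + 1) le_rfl] at c3
      refine ⟨by omega, ?_, ?_, c4⟩
      · rw [c3, c_nn_add, c_nn_add, c_nn_smul]
      · rw [c3, c_lv_add, c_lv_add, c_lv_smul, hl, hT]
        linarith
  have hh := c_hh b
  have hv0 : nn v0 = nn (vx v0 up t (n + 1)) + j * nn (d1 b + d2 b) := by
    rw [← c_nn_smul, ← c_nn_add, hJ]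
  have hinj : ∀ i k, n + 1 ≤ i → i < k → k < m → nn (vs v0 up σ i) ≠ nn (vs v0 up σ k) := by
    intro i k h1 h2 h3 h4
    obtain ⟨q, hq, hq1⟩ := hk i h1 (by omega)
    obtain ⟨q', hq', hq1'⟩ := hk k (by omega) h3
    rcases hh with ⟨_, g1, g2⟩ | ⟨_, g1, g2⟩ <;> rw [g1, g2] at hq1 hq1' <;>
      rcases hq1 with ⟨u1, u2, _⟩ | ⟨u1, u2, _⟩ <;> rcases hq1' with ⟨w1, w2, _⟩ | ⟨w1, w2, _⟩ <;>
      rw [u2, w2] at h4 <;> omega
  have hP : Poly v0 up τ m := by
    refine ⟨by omega, hv, ?_, ?_, ?_, ?_⟩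
    · intro i
      show σ ((i + m) % m) = σ (i % m)
      rw [Nat.add_mod_right]
    · rw [a1 m le_rfl, e1]
    · rw [a2 m le_rfl, e2]
    · intro i k h1 h2 h3
      rw [a1 i (by omega), a1 k h2.le] at h3
      rcases Nat.lt_or_ge n k with h4 | h4
      · obtain ⟨q, hq, hq1⟩ := hk k h4 h2
        have hlk : lv (vs v0 up σ k) ≤ 0 := by
          rcases hq1 with h | h
          · exact h.2.2.1.le
          · exact h.2.2.1
        rcases Nat.lt_or_ge n i with h5 | h5
        · exact hinj i k h5 h1 h2 (by rw [h3])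
        · rcases Nat.eq_zero_or_pos i with h6 | h6
          · rw [h6] at h3
            have h7 : v0 = vs v0 up σ k := h3
            rw [← h7] at hq1
            rcases hh with ⟨_, g1, g2⟩ | ⟨_, g1, g2⟩ <;> rw [g1, g2] at hq1 <;> rw [g1] at hv0 <;>
              rcases hq1 with ⟨_, u2, _⟩ | ⟨_, u2, _⟩ <;> rw [hv0] at u2 <;> omega
          · have h8 := hM i h6 h5
            rw [← b1 i (by omega), h3] at h8
            omega
      · rw [b1 i (by omega), b1 k (by omega)] at h3
        exact hI i k h1 h4 h3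
  refine ⟨τ, hP, fun i hi => by rw [a1 i (by omega), b1 i hi], fun i hi => by rw [a2 i (by omega), b2 i hi], ?_, hv0,
    ?_, ?_⟩
  · intro k h1 h2
    obtain ⟨q, hq, hq1⟩ := hk k h1 h2
    refine ⟨q, hq, ?_⟩
    rw [a1 k h2.le, a2 k h2.le]
    rcases hq1 with ⟨g1, g2, _, g3⟩ | ⟨g1, g2, _, g3⟩
    · exact Or.inl ⟨g1, g2, g3⟩
    · exact Or.inr ⟨g1, g2, g3⟩
  · rw [← hJ, c_lv_add, c_lv_smul, c_l1 b, hT]
    ring
  · intro i k h1 h2 h3
    rw [a1 i (by omega), a1 k (by omega)]
    exact hinj i k h1 h2 h3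

/-- the sum over the closing path. -/
private lemma c_cl {v0 : Pt} {t : List Bool} {τ : ℕ → Bool} {j : ℕ} {b : Bool}
    (hk : ∀ k, t.length + 1 ≤ k → k < t.length + 1 + 2 * j → ∃ q, q < j ∧
        ((k = t.length + 1 + 2 * q ∧
            nn (vs v0 up τ k) = nn (vx v0 up t (t.length + 1)) + q * nn (d1 b + d2 b) ∧ ds up τ k = d1 b) ∨
          (k = t.length + 2 + 2 * q ∧
            nn (vs v0 up τ k) = nn (vx v0 up t (t.length + 1)) + q * nn (d1 b + d2 b) + nn (d1 b) ∧
            ds up τ k = d2 b)))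
    (hv0 : nn v0 = nn (vx v0 up t (t.length + 1)) + j * nn (d1 b + d2 b))
    (hinj : ∀ i k, t.length + 1 ≤ i → i < k → k < t.length + 1 + 2 * j → nn (vs v0 up τ i) ≠ nn (vs v0 up τ k))
    (f : Pt) :
    |∑ x ∈ range (2 * j), cr f (eg v0 up τ (t.length + 1 + x))| ≤ (if (b = false ∧ nn v0 < nn f ∧
      nn f < nn (vx v0 up t (t.length + 1))) ∨ (b = true ∧ nn (vx v0 up t (t.length + 1)) < nn f ∧ nn f < nn v0)
      then 1 else 0) := by
  have hh := c_hh b
  have hx : ∀ x, x < 2 * j → cr f (eg v0 up τ (t.length + 1 + x)) ≠ 0 →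
      (b = true ∧ nn (vs v0 up τ (t.length + 1 + x)) = nn f - 1 ∧ nn (vx v0 up t (t.length + 1)) < nn f ∧
        nn f < nn v0) ∨
      (b = false ∧ nn (vs v0 up τ (t.length + 1 + x)) = nn f + 1 ∧ nn v0 < nn f ∧
        nn f < nn (vx v0 up t (t.length + 1))) := by
    intro x hx1 hx2
    obtain ⟨q, hq, hq1⟩ := hk (t.length + 1 + x) (by omega) (by omega)
    have h4 := c_cr_ne hx2
    rw [show (eg v0 up τ (t.length + 1 + x)).2 = ds up τ (t.length + 1 + x) from rfl,
      show (eg v0 up τ (t.length + 1 + x)).1 = vs v0 up τ (t.length + 1 + x) from rfl] at h4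
    cases b
    · right
      rcases hh with ⟨h, _⟩ | ⟨_, h5, h6⟩
      · exact absurd h (by decide)
      rw [h5, h6] at hq1
      rw [h5] at hv0
      rcases h4 with h4 | h4
      · exfalso
        rcases hq1 with h3 | h3 <;> rw [h3.2.2] at h4 <;> exact absurd h4.1 (by decide)
      · rcases hq1 with h3 | h3
        · rw [h3.2.2] at h4
          exact absurd h4.1 (by decide)
        · refine ⟨rfl, h4.2, ?_, ?_⟩ <;> linarith [h3.2.1, h4.2, (by exact_mod_cast hq : (q : ℤ) + 1 ≤ j)]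
    · left
      rcases hh with ⟨_, h5, h6⟩ | ⟨h, _⟩
      swap
      · exact absurd h (by decide)
      rw [h5, h6] at hq1
      rw [h5] at hv0
      rcases h4 with h4 | h4
      · rcases hq1 with h3 | h3
        · refine ⟨rfl, h4.2, ?_, ?_⟩ <;>
            linarith [h3.2.1, h4.2, (by exact_mod_cast hq : (q : ℤ) + 1 ≤ j), Int.natCast_nonneg q]
        · rw [h3.2.2] at h4
          exact absurd h4.1 (by decide)
      · exfalso
        rcases hq1 with h3 | h3 <;> rw [h3.2.2] at h4 <;> exact absurd h4.1 (by decide)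
  split_ifs with hb
  · apply c_sum (fun x => c_cr f _)
    intro x y hx1 hy1 hx2 hy2
    have k1 := hx x hx1 hx2
    have k2 := hx y hy1 hy2
    have k3 : nn (vs v0 up τ (t.length + 1 + x)) = nn (vs v0 up τ (t.length + 1 + y)) := by
      rcases k1 with ⟨k, k1, _⟩ | ⟨k, k1, _⟩ <;> rcases k2 with ⟨k', k2, _⟩ | ⟨k', k2, _⟩
      · rw [k1, k2]
      · rw [k] at k'
        exact absurd k' (by decide)
      · rw [k] at k'
        exact absurd k' (by decide)
      · rw [k1, k2]
    rcases lt_trichotomy x y with h | h | h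
    · exact absurd k3 (hinj _ _ (by omega) (by omega) (by omega))
    · exact h
    · exact absurd k3.symm (hinj _ _ (by omega) (by omega) (by omega))
  · rw [Finset.sum_eq_zero]
    · simp
    · intro x hx1
      by_contra h
      rcases hx x (Finset.mem_range.1 hx1) h with h1 | h1
      · exact hb (Or.inr ⟨h1.1, h1.2.2⟩)
      · exact hb (Or.inl ⟨h1.1, h1.2.2⟩)

/-- arcs above a level, closed by a zigzag below it: signed crossings. -/
private lemma c_close {v0 : Pt} {t : List Bool} (hv : De (v0, up))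
    (hM : ∀ i, 1 ≤ i → i ≤ t.length → 0 < lv (vx v0 up t i))
    (hI : ∀ i k, i < k → k ≤ t.length → vx v0 up t i ≠ vx v0 up t k)
    (hT : lv (vx v0 up t (t.length + 1)) = 0) (hD : dx up t t.length = -up) {j : ℕ} {b : Bool} (hj : 1 ≤ j)
    (hJ : vx v0 up t (t.length + 1) + (j : ℤ) • (d1 b + d2 b) = v0) {f : Pt} (hf : Fc f) :
    |NN f (v0, up) t| ≤ 2 ∧
    (b = false → NN f (v0, up) t ≤ if nn v0 < nn f ∧ nn f < nn (vx v0 up t (t.length + 1)) then 1 else 0) ∧
    (b = true → -(if nn (vx v0 up t (t.length + 1)) < nn f ∧ nn f < nn v0 then 1 else 0) ≤ NN f (v0, up) t) := by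
  obtain ⟨τ, hP, p1, p2, hk, hv0, hlv, hinj⟩ := c_poly hv hM hI hT hD hj hJ
  have hh := c_hh b
  obtain ⟨s, hs1, _, hs2, hs3⟩ := jordan hP
  have hsum : ∀ g, Nw (pe v0 up τ (t.length + 1 + 2 * j)) g =
      NN g (v0, up) t + ∑ x ∈ range (2 * j), cr g (eg v0 up τ (t.length + 1 + x)) := by
    intro g
    rw [Nw_poly hP, Finset.sum_range_add]
    congr 1
    apply Finset.sum_congr rfl
    intro i hi
    rw [Finset.mem_range] at hi
    show cr g (vs v0 up τ i, ds up τ i) = cr g (vx v0 up t i, dx up t i)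
    rw [p1 i (by omega), p2 i (by omega)]
  have hN := hs2 f hf
  have hN2 := c_cl hk hv0 hinj f
  rw [hsum f] at hN
  -- the arc does not meet the rays from the level 1
  have hlow : ∀ g, lv g = 1 → NN g (v0, up) t = 0 := by
    intro g hg
    unfold NN
    apply Finset.sum_eq_zero
    intro i hi
    rw [Finset.mem_range] at hi
    by_contra h
    have h4 := h
    unfold cr at h4
    rcases Nat.eq_zero_or_pos i with h5 | h5
    · rw [h5] at h4
      have h6 : (if up = (1, -1) ∧ nn v0 = nn g - 1 ∧ lv v0 < lv g then (1 : ℤ)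
        else if up = (-1, 1) ∧ nn v0 = nn g + 1 ∧ lv v0 < lv g then -1 else 0) ≠ 0 := h4
      rw [if_neg (fun h => absurd h.1 (by decide)), if_neg (fun h => absurd h.1 (by decide))] at h6
      exact h6 rfl
    · have h6 := hM i h5 (by omega)
      rw [if_neg, if_neg] at h4
      · exact h4 rfl
      · rintro ⟨_, _, h7⟩
        rw [hg] at h7
        have h8 : lv (vx v0 up t i) < 1 := h7
        omega
      · rintro ⟨_, _, h7⟩
        rw [hg] at h7
        have h8 : lv (vx v0 up t i) < 1 := h7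
        omega
  have hmem : (v0, up) ∈ pe v0 up τ (t.length + 1 + 2 * j) := by
    unfold pe
    rw [Finset.mem_image]
    exact ⟨0, Finset.mem_range.2 (by omega), rfl⟩
  have hside := hs3 _ hmem
  have r1 : nn (v0 + rotL up) = nn v0 - 2 ∧ lv (v0 + rotL up) = 1 := by
    rw [c_nn_add, c_lv_add, hlv]
    exact ⟨by show nn v0 + (-2) = _; ring, by decide⟩
  have r2 : nn (v0 + rotR up) = nn v0 + 1 ∧ lv (v0 + rotR up) = 1 := by
    rw [c_nn_add, c_lv_add, hlv]
    exact ⟨rfl, by decide⟩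
  refine ⟨?_, ?_, ?_⟩
  · have hN3 : |NN f (v0, up) t + ∑ x ∈ range (2 * j), cr f (eg v0 up τ (t.length + 1 + x))| ≤ 1 := by
      rcases hN with h | h
      · rw [h]
        simp
      · rw [h]
        rcases hs1 with h1 | h1 <;> rw [h1] <;> simp
    have hN4 : |∑ x ∈ range (2 * j), cr f (eg v0 up τ (t.length + 1 + x))| ≤ 1 := by
      refine hN2.trans ?_
      split_ifs <;> norm_num
    rw [abs_le] at hN3 hN4 ⊢
    constructor <;> linarith [hN3.1, hN3.2, hN4.1, hN4.2]
  · intro hb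
    have hs : s = -1 := by
      rcases hs1 with h | h
      swap
      · exact h
      exfalso
      have h1 := hside.1
      rw [if_pos h, hsum, hlow _ r1.2, zero_add] at h1
      have h2 := c_cl hk hv0 hinj (v0 + rotL up)
      replace h1 : ∑ x ∈ range (2 * j), cr (v0 + rotL up) (eg v0 up τ (t.length + 1 + x)) = 1 := h1
      rw [h1, r1.1] at h2
      split_ifs at h2 with h3
      · rcases h3 with h3 | h3
        · omega
        · rw [hb] at h3
          exact absurd h3.1 (by decide)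
      · norm_num at h2
    rw [hs] at hN
    have hN3 : -(if nn v0 < nn f ∧ nn f < nn (vx v0 up t (t.length + 1)) then (1 : ℤ) else 0) ≤
        ∑ x ∈ range (2 * j), cr f (eg v0 up τ (t.length + 1 + x)) := by
      rw [abs_le] at hN2
      refine le_trans ?_ hN2.1
      rw [neg_le_neg_iff]
      split_ifs with h1 h2 h2
      · exact le_rfl
      · rcases h1 with h1 | h1
        · exact absurd h1.2 h2
        · rw [hb] at h1
          exact absurd h1.1 (by decide)
      · norm_num
      · exact le_rfl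
    rcases hN with h | h <;> linarith
  · intro hb
    have hs : s = 1 := by
      rcases hs1 with h | h
      · exact h
      exfalso
      have h1 := hside.2
      rw [if_neg (by rw [h]; decide), hsum, hlow _ r2.2, zero_add] at h1
      have h2 := c_cl hk hv0 hinj (v0 + rotR up)
      replace h1 : ∑ x ∈ range (2 * j), cr (v0 + rotR up) (eg v0 up τ (t.length + 1 + x)) = -1 := h1
      rw [h1, r2.1] at h2
      split_ifs at h2 with h3
      · rcases h3 with h3 | h3
        · rw [hb] at h3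
          exact absurd h3.1 (by decide)
        · omega
      · norm_num at h2
    rw [hs] at hN
    have hN3 : ∑ x ∈ range (2 * j), cr f (eg v0 up τ (t.length + 1 + x)) ≤
        (if nn (vx v0 up t (t.length + 1)) < nn f ∧ nn f < nn v0 then (1 : ℤ) else 0) := by
      rw [abs_le] at hN2
      refine le_trans hN2.2 ?_
      split_ifs with h1 h2 h2
      · exact le_rfl
      · rcases h1 with h1 | h1
        · rw [hb] at h1
          exact absurd h1.1 (by decide)
        · exact absurd h1.2 h2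
      · norm_num
      · exact le_rfl
    rcases hN with h | h <;> linarith

private lemma c_hex {v : Pt} (h : Vt v) : IsHex oo up v := by
  have h1 := c_vt h
  have h2 : (v.1 - v.2) % 3 = 0 ∨ (v.1 - v.2) % 3 = 2 := by omega
  rcases h2 with h2 | h2
  · left
    show ((v.1 - v.2 : ℤ) : ZMod 3) = ((0 - 0 : ℤ) : ZMod 3)
    rw [ZMod.intCast_eq_intCast_iff']
    simpa using h2
  · right
    show ((v.1 - v.2 : ℤ) : ZMod 3) = ((0 - 0 : ℤ) : ZMod 3) + ((0 - 1 : ℤ) : ZMod 3)
    rw [← Int.cast_add, ZMod.intCast_eq_intCast_iff']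
    simpa using h2

/-- arcs in the strip above the level 0 that start at level 0. -/
private lemma c_close2 {T : ℕ} {v0 : Pt} (hv : De (v0, up)) (h0 : lv v0 = 0) {t : List Bool}
    (ht : t ∈ out (St T) v0 up (-up)) {f : Pt} (hf : Fc f) : |NN f (v0, up) t| ≤ 2 ∧
      (nn v0 < nn (tip v0 up t) → NN f (v0, up) t ≤ if nn v0 < nn f ∧ nn f < nn (tip v0 up t) then 1 else 0) ∧
      (nn (tip v0 up t) < nn v0 → -(if nn (tip v0 up t) < nn f ∧ nn f < nn v0 then 1 else 0) ≤
        NN f (v0, up) t) := by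
  obtain ⟨⟨h1, h2⟩, h3, h4⟩ := ht
  have hst : ∀ v : Pt, v ∈ St T ↔ IsHex oo up v ∧ 0 < lv v ∧ lv v < 3 * T + 2 := by
    intro v
    have e1 : ip (v - oo) up = lv v := by
      show 2 * ((v.1 - 0) * 0 + (v.2 - 0) * 1) + (v.1 - 0) * 1 + (v.2 - 0) * 0 = v.1 + 2 * v.2
      ring
    show (IsHex oo up v ∧ 0 < ip (v - oo) up ∧ ip (v - oo) up < 3 * T + 2) ↔ _
    rw [e1]
  have hn : 1 ≤ t.length := by
    rcases Nat.eq_zero_or_pos t.length with h | h
    · rw [h] at h4
      exact absurd h4 (by show up ≠ -up; decide)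
    · exact h
  have hde := fun i => c_de hv (tf t) i
  have hlast := (hst _).1 (h1 t.length hn le_rfl)
  have htip : vx v0 up t (t.length + 1) = vx v0 up t t.length + -up := by rw [vx_succ, h4]
  have hlt : lv (vx v0 up t (t.length + 1)) = lv (vx v0 up t t.length) - 2 := by
    rw [htip, c_lv_add]
    show _ + (-0 + 2 * -1 : ℤ) = _
    ring
  have hT : lv (vx v0 up t (t.length + 1)) = 0 := by
    have h5 : ¬ (0 < lv (vx v0 up t (t.length + 1))) := by
      intro h6
      have h7 : lv (vx v0 up t (t.length + 1)) < 3 * T + 2 := by linarith [hlast.2.2]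
      exact h3 ((hst _).2 ⟨c_hex (hde (t.length + 1)).2.1, h6, h7⟩)
    have h6 := c_vt (hde t.length).2.1
    have h7 : lv (vx v0 up t t.length) = (vs v0 up (tf t) t.length).1 + 2 * (vs v0 up (tf t) t.length).2 := rfl
    have h8 := hlast.2.1
    simp only at h6
    omega
  -- the two ends
  have hk : ∃ k : ℤ, v0 - vx v0 up t (t.length + 1) = k • ((2, -1) : Pt) := by
    refine ⟨-(v0 - vx v0 up t (t.length + 1)).2, ?_⟩
    have h5 : lv (v0 - vx v0 up t (t.length + 1)) = 0 := by rw [c_lv_sub, h0, hT, sub_self]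
    generalize v0 - vx v0 up t (t.length + 1) = w at h5 ⊢
    have h6 : w.1 + 2 * w.2 = 0 := h5
    apply Prod.ext
    · show w.1 = -w.2 * 2
      linarith
    · show w.2 = -w.2 * -1
      ring
  obtain ⟨k, hk⟩ := hk
  have hk0 : k ≠ 0 := by
    intro h5
    rw [h5, zero_smul, sub_eq_zero, htip] at hk
    have h6 : vx v0 up t 1 = vx v0 up t t.length := by
      have h8 := congrArg (fun x => x + up) hk
      simp only [neg_add_cancel_right] at h8
      exact h8
    rcases Nat.lt_or_ge 1 t.length with h7 | h7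
    · exact h2 1 t.length h7 le_rfl h6
    · have h8 : t.length = 1 := le_antisymm h7 hn
      rw [h8] at h4
      have h9 : turn (tf t 0) up = -up := h4
      revert h9
      cases tf t 0 <;> decide
  have hM : ∀ i, 1 ≤ i → i ≤ t.length → 0 < lv (vx v0 up t i) := fun i h5 h6 => ((hst _).1 (h1 i h5 h6)).2.1
  have hkn : nn v0 = nn (tip v0 up t) + 3 * k := by
    have h5 : nn (v0 - vx v0 up t (t.length + 1)) = nn (k • ((2, -1) : Pt)) := by rw [hk]
    rw [c_nn_sub, c_nn_smul] at h5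
    have h6 : nn ((2, -1) : Pt) = 3 := by decide
    rw [h6] at h5
    have h7 : nn (tip v0 up t) = nn (vx v0 up t (t.length + 1)) := rfl
    rw [h7]
    linarith
  rcases lt_trichotomy k 0 with h5 | h5 | h5
  · have hc := c_close hv hM h2 hT h4 (j := k.natAbs) (b := false) (by omega) (by
      have e : (k.natAbs : ℤ) = -k := by omega
      rw [e]
      have e2 : d1 false + d2 false = -((2, -1) : Pt) := by decide
      rw [e2, smul_neg, neg_smul, neg_neg, ← hk]
      abel) hf
    exact ⟨hc.1, fun _ => hc.2.1 rfl, fun h => absurd h (by omega)⟩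
  · exact absurd h5 hk0
  · have hc := c_close hv hM h2 hT h4 (j := k.natAbs) (b := true) (by omega) (by
      have e : (k.natAbs : ℤ) = k := by omega
      rw [e]
      have e2 : d1 true + d2 true = ((2, -1) : Pt) := by decide
      rw [e2, ← hk]
      abel) hf
    exact ⟨hc.1, fun h => absurd h (by omega), fun _ => hc.2.2 rfl⟩

private lemma c_ft (k : ℤ) : De (ft k) ∧ lv (ft k).1 = 0 := by
  have e : (ft k).1 = k • ((2, -1) : Pt) := by
    show k • hz up = _
    rw [show hz up = ((2, -1) : Pt) by decide]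
  have e1 : (ft k).1 = (k * 2, k * -1) := e
  refine ⟨⟨by show up ∈ dirs; decide, ?_, ?_⟩, ?_⟩
  · show cl (ft k).1 ≠ 1
    rw [e1]
    unfold cl
    have e2 : k * 2 - k * -1 = 3 * k := by ring
    simp only [e2]
    push_cast
    rw [show (3 : ZMod 3) = 0 from rfl, zero_mul]
    decide
  · show cl ((ft k).1 + up) ≠ 1
    rw [e1]
    unfold cl
    have e2 : (k * 2, k * -1) + up = ((k * 2, k * -1 + 1) : Pt) := by
      show ((k * 2 + 0, k * -1 + 1) : Pt) = _
      rw [add_zero]
    rw [e2]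
    have e3 : k * 2 - (k * -1 + 1) = 3 * k - 1 := by ring
    simp only [e3]
    push_cast
    rw [show (3 : ZMod 3) = 0 from rfl, zero_mul]
    decide
  · rw [e1]
    show k * 2 + 2 * (k * -1) = 0
    ring

/-- arcs between feet cross every ray at most twice (signed). -/
theorem close2 {T : ℕ} (hT : 1 ≤ T) (k : ℤ) {t : List Bool} (ht : t ∈ out (St T) (ft k).1 up (-up)) {f : Pt}
    (hf : Fc f) : |NN f (ft k) t| ≤ 2 :=
  (c_close2 (v0 := (ft k).1) (c_ft k).1 (c_ft k).2 ht hf).1

/-- arcs between feet, from left to right: signed crossings. -/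
theorem nn_floor {T : ℕ} (hT : 1 ≤ T) {k m : ℤ} (hkm : k < m) {t : List Bool}
    (ht : t ∈ Arc (St T) ∅ (ft k).1 up (ft m).1) {f : Pt} (hf : Fc f) (h0 : 0 < lv f) :
    NN f (ft k) t ≤ if 3 * k < nn f ∧ nn f < 3 * m then 1 else 0 := by
  obtain ⟨⟨h1, h2, h3⟩, h4⟩ := ht
  rw [Set.sdiff_empty] at h1
  have hc := (c_close2 (v0 := (ft k).1) (c_ft k).1 (c_ft k).2 ⟨h1, h2, h3⟩ hf).2.1
  have e : ∀ r : ℤ, nn (ft r).1 = 3 * r := by
    intro r
    show nn (r • hz up) = 3 * r
    rw [c_nn_smul, show nn (hz up) = 3 by decide]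
    ring
  rw [h4, e, e] at hc
  exact hc (by omega)

/-- the line through the face f: signed crossings. -/
private lemma c_line {f : Pt} (hf : Fc f) {q : Pt × Pt} (hq : De q) (c : Pt) :
    cr f q = cr (c - f) (c - q.1, -q.2) + ((if nn f < nn (q.1 + q.2) then 1 else 0) - (if nn f < nn q.1 then 1 else 0)) := by
  obtain ⟨⟨x, y⟩, g⟩ := q
  obtain ⟨c1, c2⟩ := c
  obtain ⟨f1, f2⟩ := f
  have h3 := c_vt hq.2.1
  have h4 := c_vt hq.2.2
  have h6 := c_fc hf
  have h5 : g ∈ dirs := hq.1
  simp only [dirs, Finset.mem_insert, Finset.mem_singleton] at h5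
  simp only [cr, nn, lv, Prod.mk_sub_mk] at h3 h4 h6 ⊢
  rcases h5 with rfl | rfl | rfl | rfl | rfl | rfl <;> (simp at h4 ⊢; try (split_ifs <;> omega))

private lemma c_refl (c d : Pt) (t : List Bool) (i : ℕ) :
    vx oo (-d) t i = c - vx c d t i ∧ dx (-d) t i = -dx d t i := by
  induction i with
  | zero =>
    constructor
    · show oo = c - c
      rw [sub_self]
      rfl
    · rfl
  | succ i ih =>
    constructor
    · rw [vx_succ, vx_succ, ih.1, ih.2]
      abel
    · rw [dx_succ, dx_succ, ih.2, turn_neg]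

private lemma c_nn (v : Pt) : nn v = v.1 - v.2 := rfl

private lemma c_lvn (v : Pt) : lv v = nn v + 3 * v.2 := by
  show v.1 + 2 * v.2 = v.1 - v.2 + 3 * v.2
  ring

/-- the arcs at the top, turned upside down. -/
private lemma c_top {T A B : ℕ} {a : Pt × Pt} (ha : a ∈ bd (Par T A B))
    (h1 : a.2 = -up) {t : List Bool} (ht : t ∈ ex0 (Par T A B) a) (h2 : dx a.2 t t.length = up) {f : Pt}
    (hf : Fc f) : t ∈ out (St T) oo up (-up) ∧ Fc (a.1 - f) ∧ tip oo up t = a.1 - tp a t ∧ nn a.1 % 3 = 2 ∧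
    NN f a t = NN (a.1 - f) (oo, up) t +
      ((if nn f < nn (tp a t) then 1 else 0) - (if nn f < nn a.1 then 1 else 0)) := by
  classical
  unfold bd at ha
  rw [Finset.mem_filter] at ha
  obtain ⟨ha1, ha2, ha3⟩ := ha
  rw [Finset.mem_image] at ha1
  obtain ⟨q, hq, hqa⟩ := ha1
  have hq1 : a.1 + a.2 = q.1 := by
    rw [← hqa]
    show q.1 - q.2 + q.2 = q.1
    abel
  have ha4 : a.1 + a.2 ∈ Par T A B := by
    rw [hq1]
    exact (Finset.mem_product.1 hq).1
  unfold ex0 at ht
  rw [Finset.mem_filter, mem_arr0] at ht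
  obtain ⟨⟨hm, hi⟩, hx⟩ := ht
  have hde := fun i => c_de ha2 (tf t) i
  obtain ⟨v, e⟩ := a
  have h1' : e = -up := h1
  subst h1'
  replace h2 : dx (-up) t t.length = up := h2
  have hup : nn up = -1 ∧ lv up = 2 := by decide
  have hnup : nn (-up) = 1 ∧ lv (-up) = -2 := by decide
  -- the start
  have k1 := c_vt ha2.2.1
  have k2 := c_vt ha2.2.2
  rw [← c_nn] at k1 k2
  rw [mem_par] at ha3 ha4
  replace ha4 := ha4.2
  have k0 : ¬ (0 < lv v ∧ lv v < 3 * T + 2 ∧ -(3 * A : ℤ) < nn v ∧ nn v < 3 * B - 1) := fun h => ha3 ⟨ha2.2.1, h⟩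
  simp only [c_nn_add, c_lv_add, hnup.1, hnup.2] at k1 k2 ha4
  have k3 := c_lvn v
  have hv1 : nn v % 3 = 2 := by omega
  have hv : lv v = 3 * T + 2 := by omega
  have hn : 1 ≤ t.length := by
    rcases Nat.eq_zero_or_pos t.length with h | h
    · rw [h] at h2
      exact absurd h2 (by show -up ≠ up; decide)
    · exact h
  have hr := fun i => c_refl v (-up) t i
  simp only [neg_neg] at hr
  have hst : ∀ w : Pt, w ∈ St T ↔ IsHex oo up w ∧ 0 < lv w ∧ lv w < 3 * T + 2 := by
    intro w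
    have e1 : ip (w - oo) up = lv w := by
      show 2 * ((w.1 - 0) * 0 + (w.2 - 0) * 1) + (w.1 - 0) * 1 + (w.2 - 0) * 0 = w.1 + 2 * w.2
      ring
    show (IsHex oo up w ∧ 0 < ip (w - oo) up ∧ ip (w - oo) up < 3 * T + 2) ↔ _
    rw [e1]
  have hoo : De (oo, up) := ⟨by show up ∈ dirs; decide, by show cl oo ≠ 1; decide, by show cl (oo + up) ≠ 1; decide⟩
  have hdo := fun i => c_de hoo (tf t) i
  have hmem : ∀ i, 1 ≤ i → i ≤ t.length → 0 < lv (vx v (-up) t i) ∧ lv (vx v (-up) t i) < 3 * T + 2 ∧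
      -(3 * A : ℤ) < nn (vx v (-up) t i) ∧ nn (vx v (-up) t i) < 3 * B - 1 := fun i g1 g2 => (mem_par.1 (hm i g1 g2)).2
  have hout : t ∈ out (St T) oo up (-up) := by
    refine ⟨⟨?_, ?_⟩, ?_, ?_⟩
    · intro i g1 g2
      rw [hst]
      have g3 := hmem i g1 g2
      refine ⟨c_hex (hdo i).2.1, ?_, ?_⟩ <;> rw [(hr i).1, c_lv_sub, hv] <;> linarith [g3.1, g3.2.1]
    · intro i k g1 g2 g3
      rw [(hr i).1, (hr k).1] at g3
      have g4 : vx v (-up) t i = vx v (-up) t k := sub_right_injective g3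
      rcases Nat.eq_zero_or_pos i with g5 | g5
      · have g6 := (hmem k (by omega) g2).2.1
        rw [← g4, g5] at g6
        have g7 : lv v < 3 * T + 2 := g6
        omega
      · exact hi i k g5 g1 g2 g4
    · intro g
      have g1 : tip v (-up) t ∉ Par T A B := hx
      have g2 : tip v (-up) t = vx v (-up) t t.length + up := by
        show vx v (-up) t (t.length + 1) = _
        rw [vx_succ, h2]
      have g3 : tip oo up t = v - tip v (-up) t := (hr (t.length + 1)).1
      rw [hst, g3, c_lv_sub, hv] at g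
      have g4 := hmem t.length hn le_rfl
      have g5 := c_vt (hde t.length).2.1
      have g6 := (hde (t.length + 1)).2.1
      rw [mem_par] at g1
      have g7 : ¬ (0 < lv (tip v (-up) t) ∧ lv (tip v (-up) t) < 3 * T + 2 ∧ -(3 * A : ℤ) < nn (tip v (-up) t) ∧
        nn (tip v (-up) t) < 3 * B - 1) := fun h => g1 ⟨g6, h⟩
      have g8 := c_vt g6
      rw [← c_nn] at g5 g8
      replace g5 : nn (vx v (-up) t t.length) % 3 ≠ 1 := g5
      replace g8 : nn (tip v (-up) t) % 3 ≠ 1 := g8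
      rw [g2] at g g7 g8
      simp only [c_nn_add, c_lv_add, hup.1, hup.2] at g g7 g8
      omega
    · rw [(hr t.length).2, h2]
  have hf' : Fc (v - f) := by
    have g1 := c_fc hf
    show ((v.1 - f.1 - (v.2 - f.2) : ℤ) : ZMod 3) = 1
    have g2 : ((v.1 - f.1 - (v.2 - f.2) : ℤ) : ZMod 3) = ((1 : ℤ) : ZMod 3) := by
      rw [ZMod.intCast_eq_intCast_iff']
      rw [c_nn] at hv1
      omega
    simpa using g2
  have hs : NN f (v, -up) t = NN (v - f) (oo, up) t +
      ((if nn f < nn (vx v (-up) t (t.length + 1)) then 1 else 0) - (if nn f < nn (vx v (-up) t 0) then 1 else 0)) := by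
    unfold NN
    rw [← Finset.sum_range_sub (fun i => (if nn f < nn (vx v (-up) t i) then (1 : ℤ) else 0)) (t.length + 1),
      ← Finset.sum_add_distrib]
    apply Finset.sum_congr rfl
    intro i _
    have g := c_line hf (q := (vx v (-up) t i, dx (-up) t i)) (hde i) v
    show cr f (vx v (-up) t i, dx (-up) t i) = cr (v - f) (vx oo up t i, dx up t i) + _
    rw [g, (hr i).1, (hr i).2]
    rfl
  exact ⟨hout, hf', (hr (t.length + 1)).1, hv1, hs⟩

private lemma c_oo : De (oo, up) :=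
  ⟨by show up ∈ dirs; decide, by show cl oo ≠ 1; decide, by show cl (oo + up) ≠ 1; decide⟩

/-- the same for the arcs at the top. -/
theorem close_top {T A B : ℕ} (hT : 1 ≤ T) (hA : 1 ≤ A) (hB : 1 ≤ B) {a : Pt × Pt} (ha : a ∈ bd (Par T A B))
    (h1 : a.2 = -up) {t : List Bool} (ht : t ∈ ex0 (Par T A B) a) (h2 : dx a.2 t t.length = up) {f : Pt}
    (hf : Fc f) : |NN f a t| ≤ 3 := by
  obtain ⟨hout, hf', _, _, hs⟩ := c_top ha h1 ht h2 hf
  have hc := (c_close2 (v0 := oo) c_oo (by decide) hout hf').1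
  rw [hs, abs_le]
  rw [abs_le] at hc
  split_ifs <;> constructor <;> linarith [hc.1, hc.2]

/-- arcs at the top, from left to right: signed crossings. -/
theorem nn_top {T A B : ℕ} (hT : 1 ≤ T) (hA : 1 ≤ A) (hB : 1 ≤ B) {a : Pt × Pt} (ha : a ∈ bd (Par T A B))
    (h1 : a.2 = -up) {t : List Bool} (ht : t ∈ ex0 (Par T A B) a) (h2 : dx a.2 t t.length = up)
    (h3 : nn a.1 < nn (tp a t)) {f : Pt} (hf : Fc f) (h4 : lv f < 3 * T + 2) : 0 ≤ NN f a t := by
  obtain ⟨hout, hf', ht', hv, hs⟩ := c_top ha h1 ht h2 hf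
  have hc := (c_close2 (v0 := oo) c_oo (by decide) hout hf').2.2
  have e : nn oo = 0 := by decide
  have e1 := c_fc hf
  rw [← c_nn] at e1
  rw [ht', c_nn_sub, c_nn_sub, e] at hc
  have hc2 := hc (by linarith)
  rw [hs]
  split_ifs at hc2 ⊢ <;> omega

theorem NN_crude {T A B : ℕ} (hT : 1 ≤ T) (hA : 1 ≤ A) (hB : 1 ≤ B) {a : Pt × Pt} (ha : a ∈ bd (Par T A B))
    {t : List Bool} (ht : t ∈ ex0 (Par T A B) a) (f : Pt) : |NN f a t| ≤ 2 * T + 4 := by
  classical
  unfold ex0 at ht
  rw [Finset.mem_filter, mem_arr0] at ht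
  obtain ⟨⟨hm, hi⟩, _⟩ := ht
  unfold NN
  rw [Finset.sum_range_succ']
  have hc : |∑ i ∈ range t.length, cr f (vx a.1 a.2 t (i + 1), dx a.2 t (i + 1))| ≤ 2 * T + 2 := by
    set S := (range t.length).filter (fun i => cr f (vx a.1 a.2 t (i + 1), dx a.2 t (i + 1)) ≠ 0) with hS
    have h1 : |∑ i ∈ range t.length, cr f (vx a.1 a.2 t (i + 1), dx a.2 t (i + 1))| ≤ (S.card : ℤ) := by
      rw [← Finset.sum_filter_ne_zero]
      refine (Finset.abs_sum_le_sum_abs _ _).trans ?_
      refine (Finset.sum_le_card_nsmul _ _ 1 (fun i _ => c_cr f _)).trans ?_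
      rw [nsmul_eq_mul, mul_one]
    have h2 : S.card ≤ (({nn f - 1, nn f + 1} : Finset ℤ) ×ˢ (Finset.Icc (0 : ℤ) T)).card := by
      apply Finset.card_le_card_of_injOn (fun i => (nn (vx a.1 a.2 t (i + 1)), (lv (vx a.1 a.2 t (i + 1)) - 1) / 3))
      · intro i hi1
        rw [Finset.mem_coe, hS, Finset.mem_filter, Finset.mem_range] at hi1
        rw [Finset.mem_coe, Finset.mem_product]
        have h3 := mem_par.1 (hm (i + 1) (by omega) (by omega))
        constructor
        · rw [Finset.mem_insert, Finset.mem_singleton]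
          rcases c_cr_ne hi1.2 with h | h
          · exact Or.inl h.2
          · exact Or.inr h.2
        · rw [Finset.mem_Icc]
          have h4 := h3.2.1
          have h5 := h3.2.2.1
          constructor
          · show 0 ≤ (lv (vx a.1 a.2 t (i + 1)) - 1) / 3
            omega
          · show (lv (vx a.1 a.2 t (i + 1)) - 1) / 3 ≤ T
            omega
      · intro i hi1 k hk1 h3
        rw [Finset.mem_coe, hS, Finset.mem_filter, Finset.mem_range] at hi1 hk1
        rw [Prod.mk.injEq] at h3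
        obtain ⟨h3, h4⟩ := h3
        have h5 : vx a.1 a.2 t (i + 1) = vx a.1 a.2 t (k + 1) := by
          generalize vx a.1 a.2 t (i + 1) = v at h3 h4
          generalize vx a.1 a.2 t (k + 1) = w at h3 h4
          have e1 := c_lvn v
          have e2 := c_lvn w
          have e3 : lv v = lv w := by omega
          rw [c_nn] at h3
          rw [c_nn] at h3
          have e4 : v.2 = w.2 := by
            rw [c_nn] at e1 e2
            omega
          exact Prod.ext (by omega) e4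
        rcases lt_trichotomy i k with h | h | h
        · exact absurd h5 (hi _ _ (by omega) (by omega) (by omega))
        · exact h
        · exact absurd h5.symm (hi _ _ (by omega) (by omega) (by omega))
    have h3 : (({nn f - 1, nn f + 1} : Finset ℤ) ×ˢ (Finset.Icc (0 : ℤ) T)).card ≤ 2 * (T + 1) := by
      rw [Finset.card_product, Int.card_Icc]
      have h4 : ({nn f - 1, nn f + 1} : Finset ℤ).card ≤ 2 := Finset.card_le_two
      have h5 : ((T : ℤ) + 1 - 0).toNat = T + 1 := by omega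
      rw [h5]
      exact Nat.mul_le_mul_right _ h4
    have h4 : (S.card : ℤ) ≤ 2 * T + 2 := by
      have := h2.trans h3
      omega
    exact h1.trans h4
  have h0 := c_cr f (vx a.1 a.2 t 0, dx a.2 t 0)
  rw [abs_le] at hc h0 ⊢
  constructor <;> linarith [hc.1, hc.2, h0.1, h0.2]

end L13

end LP

end HexObs
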