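import Pool.Agent.HexLoop.Defs
import Pool.Agent.HexTube.Final

/-!
LOOP: definitions for the parallelogram.
-/

set_option autoImplicit false

namespace HexObs

namespace LP

open Complex Finset

/-- the parallelogram: rows 1, ..., T, with the walls nn = -3 A and nn = 3 B - 1. -/
noncomputable def Par (T A B : ℕ) : Finset Pt := Tube.dF upd oo true T A B

/-- the start at the foot k. -/
def ft (k : ℤ) : Pt × Pt := (k • hz up, up)

/-- the word crosses the ray from f. -/
def Crs (f : Pt) (p : Pt × Pt) (t : List Bool) : Prop :=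
  ∃ i, i ≤ t.length ∧ cr f (vx p.1 p.2 t i, dx p.2 t i) ≠ 0

/-- the box around z. -/
def Bx (z : Pt) (s : ℕ) (v : Pt) : Prop := |(v - z).1| ≤ s ∧ |(v - z).2| ≤ s

end LP

end HexObs
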