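import Pool.Agent.HexLoop.Jordan
import Pool.Agent.HexLoop.RevW
import Pool.Agent.HexLoop.DefsC

/-!
SD9: closing an arc by the zigzag on the other side of its base line, with signs.
-/

set_option autoImplicit false

namespace HexObs

namespace LP

open Complex Finset

/-- start direction: up for arcs at the floor (c = false), down for arcs at the top (c = true). -/
def cu (c : Bool) : Pt := if c then -up else up

/-- first step of the zigzag. -/
def ce (c : Bool) : Pt := if c then (-1, 1) else (-1, 0)

/-- second step of the zigzag. -/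
def cf (c : Bool) : Pt := if c then (-1, 0) else (-1, 1)

/-- turns of the arc and of the zigzag. -/
def cz (c : Bool) (t : List Bool) (n i : ℕ) : Bool :=
  if i < t.length then tf t i
  else if (i - t.length) % 2 = 0 ∧ 0 < i - t.length ∧ i - t.length < 2 * n + 2 then !c else c

/-- the same, periodic. -/
def cp (c : Bool) (t : List Bool) (n i : ℕ) : Bool := cz c t n (i % (t.length + (2 * n + 3)))

/-- the foot number j of the zigzag. -/
def cj (v : Pt) (n : ℕ) (j : ℕ) : Pt := (v.1 + 2 * ((n : ℤ) + 1 - j), v.2 - ((n : ℤ) + 1 - j))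

section CZ

variable {c : Bool} {t : List Bool} {n : ℕ} {v : Pt}

private lemma z_turns (c : Bool) : turn c (-(cu c)) = ce c ∧ turn c (ce c) = cf c ∧ turn c (cf c) = cu c ∧
    turn (!c) (cf c) = ce c := by
  cases c <;> decide

private lemma z_cp {i : ℕ} (h : i < t.length + (2 * n + 3)) : cp c t n i = cz c t n i := by
  unfold cp
  rw [Nat.mod_eq_of_lt h]

private lemma z_old {i : ℕ} (h : i < t.length) : cz c t n i = tf t i := by
  unfold cz
  rw [if_pos h]

private lemma z_vs {i : ℕ} (h : i ≤ t.length + 1) : vs v (cu c) (cz c t n) i = vx v (cu c) t i :=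
  vs_congr i (fun _ hk => z_old (by omega))

private lemma z_ds {i : ℕ} (h : i ≤ t.length) : ds (cu c) (cz c t n) i = dx (cu c) t i :=
  ds_congr i (fun _ hk => z_old (by omega))

private lemma z_odd (j : ℕ) : cz c t n (t.length + (2 * j + 1)) = c := by
  unfold cz
  rw [if_neg (by omega), if_neg]
  rintro ⟨h, _⟩
  omega

private lemma z_even {j : ℕ} (hj : j < n) : cz c t n (t.length + (2 * j + 2)) = !c := by
  unfold cz
  rw [if_neg (by omega), if_pos ⟨by omega, by omega, by omega⟩]

private lemma z_last : cz c t n (t.length + (2 * n + 2)) = c := by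
  unfold cz
  rw [if_neg (by omega), if_neg]
  rintro ⟨_, _, h⟩
  omega

private lemma z_first : cz c t n t.length = c := by
  unfold cz
  rw [if_neg (by omega), if_neg]
  rintro ⟨_, h, _⟩
  omega

private lemma z_step (j : ℕ) : cj v n j + ce c + cf c = cj v n (j + 1) := by
  unfold cj
  cases c <;> · unfold ce cf; ext <;> · simp; ring

/-- the zigzag: feet and directions. -/
private lemma z_state (htip : tip v (cu c) t = cj v n 0) (hd : dx (cu c) t t.length = -(cu c)) :
    ∀ j, j ≤ n → vs v (cu c) (cz c t n) (t.length + 1 + 2 * j) = cj v n j ∧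
      ds (cu c) (cz c t n) (t.length + 1 + 2 * j) = ce c := by
  intro j
  induction j with
  | zero =>
    intro _
    constructor
    · rw [← htip]
      exact z_vs (by omega)
    · show ds (cu c) (cz c t n) (t.length + 1) = ce c
      rw [ds_succ, z_first, z_ds le_rfl, hd]
      exact (z_turns c).1
  | succ j ih =>
    intro hj
    obtain ⟨h1, h2⟩ := ih (by omega)
    have e1 : vs v (cu c) (cz c t n) (t.length + 1 + 2 * j + 1) = cj v n j + ce c := by
      rw [vs_succ, h1, h2]
    have e2 : ds (cu c) (cz c t n) (t.length + 1 + 2 * j + 1) = cf c := by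
      rw [ds_succ, h2]
      have e3 : t.length + 1 + 2 * j = t.length + (2 * j + 1) := by omega
      rw [e3, z_odd]
      exact (z_turns c).2.1
    have e4 : t.length + 1 + 2 * (j + 1) = t.length + 1 + 2 * j + 1 + 1 := by omega
    rw [e4]
    constructor
    · rw [vs_succ, e1, e2, z_step]
    · rw [ds_succ, e2]
      have e3 : t.length + 1 + 2 * j + 1 = t.length + (2 * j + 2) := by omega
      rw [e3, z_even (by omega)]
      exact (z_turns c).2.2.2

private lemma z_state' (htip : tip v (cu c) t = cj v n 0) (hd : dx (cu c) t t.length = -(cu c)) {j : ℕ} (hj : j ≤ n) :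
    vs v (cu c) (cz c t n) (t.length + 2 + 2 * j) = cj v n j + ce c ∧
      ds (cu c) (cz c t n) (t.length + 2 + 2 * j) = cf c := by
  obtain ⟨h1, h2⟩ := z_state htip hd j hj
  have e4 : t.length + 2 + 2 * j = t.length + 1 + 2 * j + 1 := by omega
  rw [e4]
  constructor
  · rw [vs_succ, h1, h2]
  · rw [ds_succ, h2]
    have e3 : t.length + 1 + 2 * j = t.length + (2 * j + 1) := by omega
    rw [e3, z_odd]
    exact (z_turns c).2.1

private lemma z_end (htip : tip v (cu c) t = cj v n 0) (hd : dx (cu c) t t.length = -(cu c)) :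
    vs v (cu c) (cz c t n) (t.length + (2 * n + 3)) = v ∧
      ds (cu c) (cz c t n) (t.length + (2 * n + 3)) = cu c := by
  obtain ⟨h1, h2⟩ := z_state' htip hd (le_refl n)
  have e4 : t.length + (2 * n + 3) = t.length + 2 + 2 * n + 1 := by omega
  rw [e4]
  constructor
  · rw [vs_succ, h1, h2, z_step]
    unfold cj
    ext <;> simp
  · rw [ds_succ, h2]
    have e3 : t.length + 2 + 2 * n = t.length + (2 * n + 2) := by omega
    rw [e3, z_last]
    exact (z_turns c).2.2.1

private lemma z_pos (htip : tip v (cu c) t = cj v n 0) (hd : dx (cu c) t t.length = -(cu c)) {i : ℕ}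
    (h1 : t.length < i) (h2 : i < t.length + (2 * n + 3)) : ∃ j, j ≤ n ∧
      ((i = t.length + 1 + 2 * j ∧ vs v (cu c) (cz c t n) i = cj v n j ∧ ds (cu c) (cz c t n) i = ce c) ∨
        (i = t.length + 2 + 2 * j ∧ vs v (cu c) (cz c t n) i = cj v n j + ce c ∧
          ds (cu c) (cz c t n) i = cf c)) := by
  rcases Nat.even_or_odd' (i - t.length - 1) with ⟨j, hj | hj⟩
  · have e : i = t.length + 1 + 2 * j := by omega
    refine ⟨j, by omega, Or.inl ⟨e, ?_⟩⟩
    rw [e]
    exact z_state htip hd j (by omega)
  · have e : i = t.length + 2 + 2 * j := by omega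
    refine ⟨j, by omega, Or.inr ⟨e, ?_⟩⟩
    rw [e]
    exact z_state' htip hd (by omega)

private lemma z_nn (v : Pt) (n j : ℕ) : nn (cj v n j) = nn v + 3 * ((n : ℤ) + 1 - j) ∧ lv (cj v n j) = lv v := by
  unfold nn lv cj
  constructor <;> · simp only; ring

private lemma z_ce (c : Bool) (p : Pt) : (c = false ∧ nn (p + ce c) = nn p - 1 ∧ lv (p + ce c) = lv p - 1) ∨
    (c = true ∧ nn (p + ce c) = nn p - 2 ∧ lv (p + ce c) = lv p + 1) := by
  cases c
  · left
    refine ⟨rfl, ?_, ?_⟩
    · show (p.1 + -1) - (p.2 + 0) = p.1 - p.2 - 1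
      ring
    · show (p.1 + -1) + 2 * (p.2 + 0) = p.1 + 2 * p.2 - 1
      ring
  · right
    refine ⟨rfl, ?_, ?_⟩
    · show (p.1 + -1) - (p.2 + 1) = p.1 - p.2 - 2
      ring
    · show (p.1 + -1) + 2 * (p.2 + 1) = p.1 + 2 * p.2 + 1
      ring

/-- the arc lies strictly on one side of its base line. -/
def Ab (c : Bool) (v : Pt) (t : List Bool) : Prop :=
  ∀ i, 1 ≤ i → i ≤ t.length → if c then lv (vx v (cu c) t i) < lv v else lv v < lv (vx v (cu c) t i)

theorem z_poly (hde : De (v, cu c))
    (hinj : ∀ i k, 1 ≤ i → i < k → k ≤ t.length → vx v (cu c) t i ≠ vx v (cu c) t k) (hab : Ab c v t)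
    (htip : tip v (cu c) t = cj v n 0) (hd : dx (cu c) t t.length = -(cu c)) :
    Poly v (cu c) (cp c t n) (t.length + (2 * n + 3)) := by
  have hvs : ∀ i, i ≤ t.length + (2 * n + 3) → vs v (cu c) (cp c t n) i = vs v (cu c) (cz c t n) i :=
    fun i hi => vs_congr i (fun k hk => z_cp (by omega))
  have hds : ∀ i, i ≤ t.length + (2 * n + 3) → ds (cu c) (cp c t n) i = ds (cu c) (cz c t n) i :=
    fun i hi => ds_congr i (fun k hk => z_cp (by omega))
  refine ⟨by omega, hde, ?_, ?_, ?_, ?_⟩
  · intro i
    unfold cp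
    rw [Nat.add_mod_right]
  · rw [hvs _ le_rfl]
    exact (z_end htip hd).1
  · rw [hds _ le_rfl]
    exact (z_end htip hd).2
  · intro i k hik hk heq
    rw [hvs i (by omega), hvs k (by omega)] at heq
    have hcl : ∀ q, t.length < q → q < t.length + (2 * n + 3) → nn v < nn (vs v (cu c) (cz c t n) q) ∧
        (if c then lv v ≤ lv (vs v (cu c) (cz c t n) q) else lv (vs v (cu c) (cz c t n) q) ≤ lv v) := by
      intro q h1 h2
      obtain ⟨j, hj, ⟨_, h4, _⟩ | ⟨_, h4, _⟩⟩ := z_pos htip hd h1 h2
      · rw [h4, (z_nn v n j).1, (z_nn v n j).2]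
        refine ⟨by omega, ?_⟩
        cases c <;> simp
      · rw [h4]
        obtain ⟨h5, h6⟩ := z_nn v n j
        rcases z_ce c (cj v n j) with ⟨h7, h8, h9⟩ | ⟨h7, h8, h9⟩
        · subst h7
          refine ⟨by omega, ?_⟩
          rw [if_neg (by decide)]
          omega
        · subst h7
          refine ⟨by omega, ?_⟩
          rw [if_pos rfl]
          omega
    rcases Nat.eq_zero_or_pos i with h0 | h0
    · subst h0
      rcases Nat.lt_or_ge t.length k with h1 | h1
      · have h2 := (hcl k h1 hk).1
        rw [← heq] at h2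
        exact lt_irrefl _ h2
      · have h2 := hab k (by omega) h1
        rw [z_vs (i := k) (by omega)] at heq
        rw [← heq] at h2
        cases c <;> exact lt_irrefl _ h2
    · rcases Nat.lt_or_ge t.length i with h1 | h1
      · obtain ⟨j, hj, h3⟩ := z_pos htip hd h1 (by omega)
        obtain ⟨l, hl, h4⟩ := z_pos htip hd (show t.length < k by omega) hk
        obtain ⟨a1, a2⟩ := z_nn v n j
        obtain ⟨b1, b2⟩ := z_nn v n l
        have hc1 := z_ce c (cj v n j)
        have hc2 := z_ce c (cj v n l)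
        rcases h3 with ⟨e1, e2, _⟩ | ⟨e1, e2, _⟩ <;> rcases h4 with ⟨f1, f2, _⟩ | ⟨f1, f2, _⟩ <;>
          rw [e2, f2] at heq
        · rw [heq] at a1
          omega
        · rw [heq] at a1
          omega
        · rw [← heq] at b1
          omega
        · rw [heq] at hc1
          omega
      · rcases Nat.lt_or_ge t.length k with h2 | h2
        · have h3 := (hcl k h2 hk).2
          have h4 := hab i h0 h1
          rw [z_vs (i := i) (by omega)] at heq
          rw [← heq] at h3
          cases c
          · exact lt_irrefl _ (lt_of_lt_of_le h4 h3)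
          · exact lt_irrefl _ (lt_of_lt_of_le h4 h3)
        · rw [z_vs (i := i) (by omega), z_vs (i := k) (by omega)] at heq
          exact hinj i k h0 hik h2 heq

private lemma z_sum0 (c : Bool) (n : ℕ) : ∀ j, j ≤ n → ∑ r ∈ range (2 * j + 1),
    sgn (if r % 2 = 0 ∧ 0 < r ∧ r < 2 * n + 2 then !c else c) = sgn c := by
  intro j
  induction j with
  | zero =>
    intro _
    rw [Nat.mul_zero, Nat.zero_add, Finset.sum_range_one, if_neg (by omega)]
  | succ j ih =>
    intro hj
    have e : 2 * (j + 1) + 1 = 2 * j + 1 + 1 + 1 := by omega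
    rw [e, Finset.sum_range_succ, Finset.sum_range_succ, ih (by omega), if_neg (by omega), if_pos ⟨by omega, by omega, by omega⟩]
    cases c <;> decide

theorem z_turn : ∑ i ∈ range (t.length + (2 * n + 3)), sgn (cp c t n i) = wind t + 3 * sgn c := by
  have h1 : ∑ i ∈ range (t.length + (2 * n + 3)), sgn (cp c t n i) =
      ∑ i ∈ range (t.length + (2 * n + 3)), sgn (cz c t n i) := by
    apply Finset.sum_congr rfl
    intro i hi
    rw [Finset.mem_range] at hi
    rw [z_cp hi]
  rw [h1, Finset.sum_range_add, wind_sum]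
  have h2 : ∑ i ∈ range t.length, sgn (cz c t n i) = ∑ i ∈ range t.length, sgn (tf t i) := by
    apply Finset.sum_congr rfl
    intro i hi
    rw [Finset.mem_range] at hi
    rw [z_old hi]
  have h3 : ∑ i ∈ range (2 * n + 3), sgn (cz c t n (t.length + i)) = 3 * sgn c := by
    have h4 : ∀ r, cz c t n (t.length + r) = if r % 2 = 0 ∧ 0 < r ∧ r < 2 * n + 2 then !c else c := by
      intro r
      unfold cz
      rw [if_neg (by omega), Nat.add_sub_cancel_left]
    simp only [h4]
    have e : 2 * n + 3 = 2 * n + 1 + 1 + 1 := by omega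
    rw [e, Finset.sum_range_succ, Finset.sum_range_succ, z_sum0 c n n le_rfl, if_neg (by omega), if_neg (by omega)]
    ring
  rw [h2, h3]

theorem z_NN (hp : Poly v (cu c) (cp c t n) (t.length + (2 * n + 3)))
    (htip : tip v (cu c) t = cj v n 0) (hd : dx (cu c) t t.length = -(cu c)) (f : Pt) :
    Nw (pe v (cu c) (cp c t n) (t.length + (2 * n + 3))) f = NN f (v, cu c) t +
      ∑ j ∈ range (n + 1), (cr f (cj v n j, ce c) + cr f (cj v n j + ce c, cf c)) := by
  have hvs : ∀ i, i ≤ t.length + (2 * n + 3) → vs v (cu c) (cp c t n) i = vs v (cu c) (cz c t n) i :=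
    fun i hi => vs_congr i (fun k hk => z_cp (by omega))
  have hds : ∀ i, i ≤ t.length + (2 * n + 3) → ds (cu c) (cp c t n) i = ds (cu c) (cz c t n) i :=
    fun i hi => ds_congr i (fun k hk => z_cp (by omega))
  rw [Nw_poly hp]
  have e : t.length + (2 * n + 3) = t.length + 1 + 2 * (n + 1) := by omega
  rw [e, Finset.sum_range_add]
  have h1 : ∑ i ∈ range (t.length + 1), cr f (eg v (cu c) (cp c t n) i) = NN f (v, cu c) t := by
    unfold NN
    apply Finset.sum_congr rfl
    intro i hi
    rw [Finset.mem_range] at hi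
    unfold eg
    rw [hvs i (by omega), hds i (by omega), z_vs (by omega), z_ds (by omega)]
  rw [h1]
  congr 1
  have h2 : ∀ k, k ≤ n + 1 → ∑ i ∈ range (2 * k), cr f (eg v (cu c) (cp c t n) (t.length + 1 + i)) =
      ∑ j ∈ range k, (cr f (cj v n j, ce c) + cr f (cj v n j + ce c, cf c)) := by
    intro k
    induction k with
    | zero =>
      intro _
      rfl
    | succ k ih =>
      intro hk
      have e1 : 2 * (k + 1) = 2 * k + 1 + 1 := by omega
      rw [e1, Finset.sum_range_succ, Finset.sum_range_succ, ih (by omega), Finset.sum_range_succ _ k, add_assoc]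
      congr 1
      have e2 : t.length + 1 + (2 * k + 1) = t.length + 2 + 2 * k := by omega
      unfold eg
      rw [e2, hvs _ (by omega), hds _ (by omega), hvs _ (by omega), hds _ (by omega),
        (z_state htip hd k (by omega)).1, (z_state htip hd k (by omega)).2,
        (z_state' htip hd (show k ≤ n by omega)).1, (z_state' htip hd (show k ≤ n by omega)).2]
  exact h2 (n + 1) le_rfl

end CZ

/-- arcs at the floor, from left to right: winding and crossings of the ray from f. -/
theorem close_floor {v : Pt} {t : List Bool} {n : ℕ} (hde : De (v, up))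
    (hinj : ∀ i k, 1 ≤ i → i < k → k ≤ t.length → vx v up t i ≠ vx v up t k)
    (hab : ∀ i, 1 ≤ i → i ≤ t.length → lv v < lv (vx v up t i))
    (htip : tip v up t = cj v n 0) (hd : dx up t t.length = -up) :
    (wind t = -3 ∨ wind t = 9) ∧ (wind t = -3 → ∀ f, Fc f →
      NN f (v, up) t ≤ if nn v < nn f ∧ nn f < nn (tip v up t) then 1 else 0) := by
  have hab' : Ab false v t := fun i h1 h2 => hab i h1 h2
  have hp : Poly v up (cp false t n) (t.length + (2 * n + 3)) := z_poly (c := false) hde hinj hab' htip hd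
  have h1 := turn_sum hp
  have h2 := z_turn (c := false) (t := t) (n := n)
  have h3 : sgn false = -1 := rfl
  rw [h3] at h2
  have hE : IsPoly (pe v up (cp false t n) (t.length + (2 * n + 3))) := ⟨_, _, _, _, hp, rfl⟩
  have h4 := sg_cases (pe v up (cp false t n) (t.length + (2 * n + 3)))
  refine ⟨by omega, ?_⟩
  intro hw f hf
  have h5 := Nw_cases hE hf
  have h6 := z_NN (c := false) hp htip hd f
  have hfn : (nn f) % 3 = 1 := by
    unfold Fc cl at hf
    unfold nn
    have h := ZMod.intCast_eq_intCast_iff' (f.1 - f.2) 1 3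
    rw [Int.cast_one] at h
    have h7 := h.1 hf
    norm_num at h7
    exact h7
  have hvn : (nn v) % 3 = 0 := by
    obtain ⟨_, g1, g2⟩ := hde
    unfold Vt at g1 g2
    unfold cl at g1 g2
    unfold nn
    have k1 := ZMod.intCast_eq_intCast_iff' (v.1 - v.2) 1 3
    have k2 := ZMod.intCast_eq_intCast_iff' ((v + up).1 - (v + up).2) 1 3
    rw [Int.cast_one] at k1 k2
    have e1 : (v + up).1 - (v + up).2 = v.1 - v.2 - 1 := by
      show (v.1 + 0) - (v.2 + 1) = v.1 - v.2 - 1
      ring
    have k3 : ¬ ((v.1 - v.2) % 3 = 1 % 3) := fun h => g1 (k1.2 h)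
    have k4 : ¬ (((v + up).1 - (v + up).2) % 3 = 1 % 3) := fun h => g2 (k2.2 h)
    rw [e1] at k4
    omega
  have h7 : ∀ j ∈ range (n + 1), cr f (cj v n j, ce false) + cr f (cj v n j + ce false, cf false) =
      if (nn v + 3 * ((n : ℤ) + 1 - j) - 2 = nn f ∧ lv v - 1 < lv f) then -1 else 0 := by
    intro j _
    have e1 : cr f (cj v n j, ce false) = 0 := by
      unfold cr
      rw [if_neg, if_neg]
      · rintro ⟨h, _⟩
        exact absurd (show ce false = (-1, 1) from h) (by decide)
      · rintro ⟨h, _⟩
        exact absurd (show ce false = (1, -1) from h) (by decide)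
    have e2 : cr f (cj v n j + ce false, cf false) =
        if (nn v + 3 * ((n : ℤ) + 1 - j) - 2 = nn f ∧ lv v - 1 < lv f) then -1 else 0 := by
      rcases z_ce false (cj v n j) with ⟨_, a1, a2⟩ | ⟨a0, _⟩
      · obtain ⟨b1, b2⟩ := z_nn v n j
        unfold cr
        rw [if_neg]
        · simp only [a1, a2, b1, b2]
          by_cases h : nn v + 3 * ((n : ℤ) + 1 - j) - 2 = nn f ∧ lv v - 1 < lv f
          · rw [if_pos h, if_pos ⟨rfl, by omega, h.2⟩]
          · rw [if_neg h, if_neg]
            rintro ⟨_, c1, c2⟩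
            exact h ⟨by omega, c2⟩
        · rintro ⟨h, _⟩
          exact absurd (show cf false = (1, -1) from h) (by decide)
      · exact absurd a0 (by decide)
    rw [e1, e2, zero_add]
  rw [Finset.sum_congr rfl h7] at h6
  have h8 : -(if nn v < nn f ∧ nn f < nn (tip v up t) then (1 : ℤ) else 0) ≤ ∑ j ∈ range (n + 1),
      (if (nn v + 3 * ((n : ℤ) + 1 - j) - 2 = nn f ∧ lv v - 1 < lv f) then (-1 : ℤ) else 0) := by
    by_cases hbt : nn v < nn f ∧ nn f < nn (tip v up t)
    · rw [if_pos hbt]
      have hcard : ((range (n + 1)).filter (fun j : ℕ => nn v + 3 * ((n : ℤ) + 1 - j) - 2 = nn f ∧ lv v - 1 < lv f)).card ≤ 1 := by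
        rw [Finset.card_le_one]
        intro a ha b hb
        rw [Finset.mem_filter] at ha hb
        omega
      rw [← Finset.sum_filter, Finset.sum_const, nsmul_eq_mul]
      have : (((range (n + 1)).filter (fun j : ℕ => nn v + 3 * ((n : ℤ) + 1 - j) - 2 = nn f ∧ lv v - 1 < lv f)).card : ℤ) ≤ 1 := by
        exact_mod_cast hcard
      linarith
    · rw [if_neg hbt, neg_zero]
      rw [Finset.sum_eq_zero]
      intro j hj
      rw [Finset.mem_range] at hj
      rw [if_neg]
      rintro ⟨c1, _⟩
      apply hbt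
      have e1 : nn (tip v up t) = nn v + 3 * ((n : ℤ) + 1) := by
        rw [htip, (z_nn v n 0).1]
        push_cast
        ring
      rw [e1]
      omega
  have h9 : NN f (v, cu false) t = NN f (v, up) t := rfl
  rw [h9] at h6
  have h10 : pe v (cu false) (cp false t n) (t.length + (2 * n + 3)) = pe v up (cp false t n) (t.length + (2 * n + 3)) := rfl
  rw [h10] at h6
  rcases h4 with h4 | h4
  · exfalso
    omega
  · rw [h4] at h5
    omega

/-- arcs at the top, from left to right. -/
theorem close_topL {v : Pt} {t : List Bool} {n : ℕ} (hde : De (v, -up))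
    (hinj : ∀ i k, 1 ≤ i → i < k → k ≤ t.length → vx v (-up) t i ≠ vx v (-up) t k)
    (hab : ∀ i, 1 ≤ i → i ≤ t.length → lv (vx v (-up) t i) < lv v)
    (htip : tip v (-up) t = cj v n 0) (hd : dx (-up) t t.length = up) :
    (wind t = 3 ∨ wind t = -9) ∧ (wind t = 3 → ∀ f, Fc f → lv f ≤ lv v → 0 ≤ NN f (v, -up) t) := by
  have hab' : Ab true v t := fun i h1 h2 => hab i h1 h2
  have hd' : dx (cu true) t t.length = -(cu true) := by
    show dx (-up) t t.length = -(-up)
    rw [hd, neg_neg]
  have hp : Poly v (-up) (cp true t n) (t.length + (2 * n + 3)) := z_poly (c := true) hde hinj hab' htip hd'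
  have h1 := turn_sum hp
  have h2 := z_turn (c := true) (t := t) (n := n)
  have h3 : sgn true = 1 := rfl
  rw [h3] at h2
  have hE : IsPoly (pe v (-up) (cp true t n) (t.length + (2 * n + 3))) := ⟨_, _, _, _, hp, rfl⟩
  have h4 := sg_cases (pe v (-up) (cp true t n) (t.length + (2 * n + 3)))
  refine ⟨by omega, ?_⟩
  intro hw f hf hlf
  have h5 := Nw_cases hE hf
  have h6 := z_NN (c := true) hp htip hd' f
  have h7 : ∀ j ∈ range (n + 1), cr f (cj v n j, ce true) + cr f (cj v n j + ce true, cf true) = 0 := by
    intro j _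
    have e1 : cr f (cj v n j, ce true) = 0 := by
      unfold cr
      rw [if_neg, if_neg]
      · rintro ⟨_, _, h⟩
        have h8 := (z_nn v n j).2
        simp only at h
        omega
      · rintro ⟨h, _⟩
        exact absurd (show ce true = (1, -1) from h) (by decide)
    have e2 : cr f (cj v n j + ce true, cf true) = 0 := by
      unfold cr
      rw [if_neg, if_neg]
      · rintro ⟨h, _⟩
        exact absurd (show cf true = (-1, 1) from h) (by decide)
      · rintro ⟨h, _⟩
        exact absurd (show cf true = (1, -1) from h) (by decide)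
    rw [e1, e2, add_zero]
  rw [Finset.sum_eq_zero h7] at h6
  have h9 : NN f (v, cu true) t = NN f (v, -up) t := rfl
  rw [h9] at h6
  have h10 : pe v (cu true) (cp true t n) (t.length + (2 * n + 3)) = pe v (-up) (cp true t n) (t.length + (2 * n + 3)) := rfl
  rw [h10] at h6
  rcases h4 with h4 | h4
  · rw [h4] at h5
    omega
  · exfalso
    omega

end LP

end HexObs
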