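import Pool.Agent.HexLoop.Cnt0
import Pool.Agent.HexLoop.SepW

/-!
SD7 (counting), part 1: walks from a left start that avoid G are walks of the flat strip.
-/

set_option autoImplicit false

namespace HexObs

namespace LP

open Complex Finset

/-- the stepped domain: rows 1, ..., T (levels from B), the part of row T+1 to the right of u, the part of row 0 to
the left of r -/
def StP (T : ℕ) (B : ℤ) (u r : Pt) (al be : ℤ) (v : Pt) : Prop :=
  Vt v ∧ al < nn v ∧ nn v < be ∧ ((B < lv v ∧ lv v ≤ B + 3 * T) ∨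
    (B + 3 * T < lv v ∧ lv v ≤ B + 3 * T + 3 ∧ nn u ≤ nn v) ∨ (B - 3 < lv v ∧ lv v ≤ B ∧ nn v ≤ nn r))

/-- the flat strip with the rows 0, ..., T -/
def SlP (T : ℕ) (B : ℤ) (al be : ℤ) (v : Pt) : Prop :=
  Vt v ∧ al < nn v ∧ nn v < be ∧ B - 3 < lv v ∧ lv v ≤ B + 3 * T

/-- vertices with a left boundary edge -/
def LBv (T : ℕ) (B : ℤ) (D : Finset Pt) (v : Pt) : Prop := lv v = B - 1 ∨ (lv v = B + 3 * T ∧ v + up ∉ D)

/-- vertices with a right boundary edge -/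
def RBv (T : ℕ) (B : ℤ) (D : Finset Pt) (v : Pt) : Prop := lv v = B + 3 * T + 3 ∨ (lv v = B + 2 ∧ v - up ∉ D)

/-- the data -/
structure Dat (T : ℕ) (B : ℤ) (D S : Finset Pt) (f u r : Pt) (al be : ℤ) : Prop where
  hD : ∀ v, v ∈ D ↔ StP T B u r al be v
  hS : ∀ v, v ∈ S ↔ SlP T B al be v
  hu : lv u = B + 3 * T + 2
  hr : lv r = B
  hB : B % 3 = 0
  hf : u + r = f + f
  hal : al % 3 = 0
  hbe : be % 3 = 2
  hab : al + be = 2 * nn f

/-- G separates -/
def Sepr (T : ℕ) (B : ℤ) (D G : Finset Pt) : Prop :=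
  ∀ v w, v ∈ (D : Set Pt) \ (G : Set Pt) → SD6.Cn ((D : Set Pt) \ (G : Set Pt)) v w → LBv T B D v → RBv T B D w → False

theorem Cn_walk {Ω : Set Pt} {a : Pt × Pt} (ha : a.2 ∈ dirs) {t : List Bool} {n : ℕ}
    (h : ∀ i, 1 ≤ i → i ≤ n → vx a.1 a.2 t i ∈ Ω) {i k : ℕ} (hi : 1 ≤ i) (hik : i ≤ k) (hk : k ≤ n) :
    SD6.Cn Ω (vx a.1 a.2 t i) (vx a.1 a.2 t k) := by
  induction k with
  | zero => omega
  | succ k ih =>
    rcases Nat.lt_or_ge k i with h1 | h1
    · have : i = k + 1 := by omega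
      rw [this]
      exact Relation.ReflTransGen.refl
    · refine Relation.ReflTransGen.tail (ih h1 (by omega)) ⟨h k (by omega) (by omega), h (k + 1) (by omega) hk, ?_⟩
      rw [vx_next, add_sub_cancel_left]
      exact ds_mem ha k

/-- left starts -/
structure LS (T : ℕ) (B : ℤ) (D : Finset Pt) (a : Pt × Pt) : Prop where
  bd : a ∈ bd D
  lb : LBv T B D (a.1 + a.2)
  lv1 : lv a.1 ≠ B + 3 * T + 3

section Left

variable {T : ℕ} {B : ℤ} {D S G : Finset Pt} {f u r : Pt} {al be : ℤ}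

theorem not_RBv (hs : Sepr T B D G) {a : Pt × Pt} (ha : LS T B D a) {t : List Bool} (ht : t ∈ ex0 D a)
    (hG : ¬ Hit G a t) {i : ℕ} (h1 : 1 ≤ i) (h2 : i ≤ t.length) : ¬ RBv T B D (vx a.1 a.2 t i) := by
  intro hR
  obtain ⟨hA, -⟩ := mem_ex0.1 ht
  have hm : ∀ i, 1 ≤ i → i ≤ t.length → vx a.1 a.2 t i ∈ (D : Set Pt) \ (G : Set Pt) := by
    intro i h1 h2
    exact ⟨hA.mem i h1 h2, fun h => hG ⟨i, h1, h2, h⟩⟩
  refine hs _ _ (hm 1 le_rfl (by omega)) (Cn_walk (mem_bd.1 ha.bd).2.1.1 hm le_rfl h1 h2) ?_ hR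
  exact ha.lb

/-- (i) the walk stays in the rows 0, ..., T -/
theorem left_rows (h : Dat T B D S f u r al be) (hGD : G ⊆ D) (huG : u ∈ G) (hs : Sepr T B D G) {a : Pt × Pt}
    (ha : LS T B D a) {t : List Bool} (ht : t ∈ ex0 D a) (hG : ¬ Hit G a t) {i : ℕ} (h1 : 1 ≤ i)
    (h2 : i ≤ t.length) : lv (vx a.1 a.2 t i) ≤ B + 3 * T := by
  obtain ⟨hA, hE⟩ := mem_ex0.1 ht
  obtain ⟨hb1, hb2, hb3⟩ := mem_bd.1 ha.bd
  by_contra hcon
  have hv := (h.hD _).1 (hA.mem i h1 h2)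
  have huD := (h.hD _).1 (hGD huG)
  have hvG : vx a.1 a.2 t i ∉ G := fun h' => hG ⟨i, h1, h2, h'⟩
  have hRi := not_RBv hs ha ht hG h1 h2
  obtain ⟨hv1, hv2, hv3, hv4⟩ := hv
  have hrow : lv (vx a.1 a.2 t i) ≤ B + 3 * T + 3 ∧ nn u ≤ nn (vx a.1 a.2 t i) := by omega
  have hm := lv_mod (vx a.1 a.2 t i)
  have hmu := lv_mod u
  have hu := h.hu
  have hbe := h.hbe
  have hB := h.hB
  rw [Vt_iff] at hv1
  have hne3 : lv (vx a.1 a.2 t i) ≠ B + 3 * T + 3 := fun h' => hRi (Or.inl h')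
  have hl : lv (vx a.1 a.2 t i) = B + 3 * T + 2 := by omega
  have hneu : nn (vx a.1 a.2 t i) ≠ nn u := by
    intro h'
    exact hvG ((pt_eq h' (by rw [hl, hu])) ▸ huG)
  have hde := de_vx hb2 t i
  have hnn : nn u + 3 ≤ nn (vx a.1 a.2 t i) := by omega
  have hnb : nn (vx a.1 a.2 t i) + 3 ≤ be := by omega
  obtain ⟨d1, d2, d3, d4, d5, d6, d7, d8, d9, d10, d11, d12⟩ := dir_vals
  -- the next vertex is not high
  have hnext : ¬ (dx a.2 t i = (1, 0) ∨ dx a.2 t i = (-1, 1)) := by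
    intro hd
    have hw : lv (vx a.1 a.2 t (i + 1)) = B + 3 * T + 3 ∧ al < nn (vx a.1 a.2 t (i + 1)) ∧
        nn (vx a.1 a.2 t (i + 1)) < be ∧ nn u ≤ nn (vx a.1 a.2 t (i + 1)) ∧
        nn (vx a.1 a.2 t (i + 1)) % 3 ≠ 1 := by
      rw [vx_next, lv_add, nn_add]
      have := huD.2.1
      rcases hd with hd | hd <;> rw [hd] <;> omega
    have hwD : vx a.1 a.2 t (i + 1) ∈ D := by
      rw [h.hD]
      refine ⟨(Vt_iff _).2 hw.2.2.2.2, hw.2.1, hw.2.2.1, Or.inr (Or.inl ⟨by omega, by omega, hw.2.2.2.1⟩)⟩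
    rcases Nat.lt_or_ge i t.length with h3 | h3
    · exact not_RBv hs ha ht hG (by omega) (by omega : i + 1 ≤ t.length) (Or.inl hw.1)
    · have : i = t.length := by omega
      rw [this] at hwD
      exact hE hwD
  have hd0 : dx a.2 t i = (0, -1) := by
    rcases De_cases hde with ⟨-, h3⟩ | ⟨h3, -⟩
    · tauto
    · omega
  obtain ⟨k, rfl⟩ : ∃ k, i = k + 1 := ⟨i - 1, by omega⟩
  have hprev : dx a.2 t k = (-1, 0) ∨ dx a.2 t k = (1, -1) := by
    have hk := de_vx hb2 t k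
    have hturn := dx_next a.2 t k
    rw [hd0] at hturn
    rcases dirs_cases hk.1 with h3 | h3 | h3 | h3 | h3 | h3 <;> simp only at h3 <;> rw [h3] at hturn <;>
      cases htf : tf t k <;> rw [htf] at hturn <;> simp only [h3] <;> revert hturn <;> decide
  have hpl : lv (vx a.1 a.2 t k) = B + 3 * T + 3 := by
    have h3 := hl
    rw [vx_next, lv_add] at h3
    rcases hprev with h4 | h4 <;> rw [h4] at h3 <;> omega
  rcases Nat.eq_zero_or_pos k with h3 | h3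
  · rw [h3] at hpl
    exact ha.lv1 hpl
  · exact not_RBv hs ha ht hG h3 (by omega : k ≤ t.length) (Or.inl hpl)

/-- (b) -/
theorem left_avoid (h : Dat T B D S f u r al be) (hGD : G ⊆ D) (huG : u ∈ G) (hrG : r ∈ G) (hs : Sepr T B D G)
    {a : Pt × Pt} (ha : LS T B D a) {t : List Bool} (ht : t ∈ ex0 D a) (hG : ¬ Hit G a t) : t ∈ ex0 S a := by
  obtain ⟨hA, hE⟩ := mem_ex0.1 ht
  obtain ⟨hb1, hb2, hb3⟩ := mem_bd.1 ha.bd
  have hlen := ex0_pos hb1 ht
  rw [mem_ex0]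
  refine ⟨⟨?_, hA.inj⟩, ?_⟩
  · intro i h1 h2
    have h3 := (h.hD _).1 (hA.mem i h1 h2)
    have h4 := left_rows h hGD huG hs ha ht hG h1 h2
    rw [h.hS]
    obtain ⟨h5, h6, h7, h8⟩ := h3
    exact ⟨h5, h6, h7, by omega, h4⟩
  · intro htS
    rw [h.hS] at htS
    have hz := hA.mem t.length hlen le_rfl
    have hzG : vx a.1 a.2 t t.length ∉ G := fun h' => hG ⟨_, hlen, le_rfl, h'⟩
    have hzR := not_RBv hs ha ht hG hlen le_rfl
    have hz' := (h.hD _).1 hz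
    have hzl := left_rows h hGD huG hs ha ht hG hlen le_rfl
    have htip : tp a t = vx a.1 a.2 t t.length + dx a.2 t t.length := rfl
    have hdown : lv (vx a.1 a.2 t t.length) = B + 2 → dx a.2 t t.length ≠ (0, -1) := by
      intro h1 h2
      apply hzR
      refine Or.inr ⟨h1, ?_⟩
      intro h3
      apply hE
      rw [htip, h2]
      have : vx a.1 a.2 t t.length - up = vx a.1 a.2 t t.length + (0, -1) := by
        rw [sub_eq_add_neg]
        rfl
      rw [← this]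
      exact h3
    have hzr : ¬ (nn (vx a.1 a.2 t t.length) = nn r ∧ lv (vx a.1 a.2 t t.length) = B) := by
      rintro ⟨h1, h2⟩
      exact hzG ((pt_eq h1 (by rw [h2, h.hr])) ▸ hrG)
    have hE' : ¬ StP T B u r al be (tp a t) := fun h' => hE ((h.hD _).2 h')
    rw [htip] at hE' htS
    have hde := de_vx hb2 t t.length
    obtain ⟨d1, d2, d3, d4, d5, d6, d7, d8, d9, d10, d11, d12⟩ := dir_vals
    obtain ⟨s1, s2, s3, s4, s5⟩ := htS
    have hE2 : nn r < nn (vx a.1 a.2 t t.length + dx a.2 t t.length) ∧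
        lv (vx a.1 a.2 t t.length + dx a.2 t t.length) ≤ B := by
      unfold StP at hE'
      constructor
      · by_contra h1
        push Not at h1
        rcases le_or_gt (lv (vx a.1 a.2 t t.length + dx a.2 t t.length)) B with h2 | h2
        · exact hE' ⟨s1, s2, s3, Or.inr (Or.inr ⟨s4, h2, h1⟩)⟩
        · exact hE' ⟨s1, s2, s3, Or.inl ⟨h2, s5⟩⟩
      · by_contra h1
        push Not at h1
        exact hE' ⟨s1, s2, s3, Or.inl ⟨h1, s5⟩⟩
    have hm := lv_mod (vx a.1 a.2 t t.length)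
    have hmr := lv_mod r
    have hr := h.hr
    have hB := h.hB
    obtain ⟨z1, z2, z3, z4⟩ := hz'
    rw [nn_add, lv_add] at hE2
    rw [nn_add] at s2 s3
    rw [lv_add] at s4 s5
    rcases De_cases hde with ⟨h3, h4 | h4 | h4⟩ | ⟨h3, h4 | h4 | h4⟩ <;> rw [h4] at hE2 s2 s3 s4 s5 <;>
      simp only [h4] at hdown <;> try omega
    exact hdown (by omega) rfl

end Left

end LP

end HexObs
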