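import Pool.Agent.HexLoop.Cnt1
import Pool.Agent.HexLoop.HMono

/-!
SD7 (counting), part 2: lower bound of the sum of the walks from a left start that meet G.
-/

set_option autoImplicit false

namespace HexObs

namespace LP

open Complex Finset

/-- the sum over the walks from a that meet K -/
noncomputable def hh (Ω K : Finset Pt) (a : Pt × Pt) : ℝ := by
  classical
  exact ∑ t ∈ (ex0 Ω a).filter (Hit K a), cw t

theorem HH_hh (Ω K : Finset Pt) : HH Ω K = ∑ a ∈ bd Ω, hh Ω K a := by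
  unfold HH hh cw
  rfl

theorem sum_cw {Ω : Finset Pt} (hΩ : Full Ω) {a : Pt × Pt} (ha : De a) (h1 : a.1 ∉ Ω) :
    ∑ t ∈ ex0 Ω a, cw t = 1 := by
  have h := start_one hΩ (Finset.Subset.refl _) ha h1
  have h2 := congrArg Complex.re h
  unfold SS at h2
  rw [Complex.re_sum, Complex.one_re] at h2
  rw [← h2]
  exact Finset.sum_congr rfl (fun t _ => (cw_re t).symm)

open Classical in
/-- (c) lower bound -/
theorem hh_ge {D S G : Finset Pt} (hDF : Full D) (hSF : Full S) {a : Pt × Pt} (ha : De a) (haD : a.1 ∉ D)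
    (haS : a.1 ∉ S) (hw : ∀ t ∈ ex0 S a, |wind t| ≤ 4) (hb : ∀ t ∈ ex0 D a, ¬ Hit G a t → t ∈ ex0 S a)
    (F : Finset (List Bool)) (hF : F ⊆ ex0 S a) :
    ∑ t ∈ F, (if t ∈ ex0 D a ∧ ¬ Hit G a t then 0 else cw t) ≤ hh D G a := by
  have h1 := sum_cw hDF ha haD
  have h2 := sum_cw hSF ha haS
  have h3 : hh D G a + ∑ t ∈ (ex0 D a).filter (fun t => ¬ Hit G a t), cw t = 1 := by
    rw [← h1]
    unfold hh
    exact Finset.sum_filter_add_sum_filter_not _ _ _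
  have h4 : (ex0 D a).filter (fun t => ¬ Hit G a t) = (ex0 S a).filter (fun t => t ∈ ex0 D a ∧ ¬ Hit G a t) := by
    ext t
    rw [Finset.mem_filter, Finset.mem_filter]
    constructor
    · rintro ⟨h5, h6⟩
      exact ⟨hb t h5 h6, h5, h6⟩
    · rintro ⟨-, h5⟩
      exact h5
  have h5 := Finset.sum_filter_add_sum_filter_not (ex0 S a) (fun t => t ∈ ex0 D a ∧ ¬ Hit G a t) cw
  rw [h4] at h3
  have h6 : hh D G a = ∑ t ∈ (ex0 S a).filter (fun t => ¬ (t ∈ ex0 D a ∧ ¬ Hit G a t)), cw t := by linarith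
  have h7 : ∑ t ∈ F, (if t ∈ ex0 D a ∧ ¬ Hit G a t then 0 else cw t) =
      ∑ t ∈ F.filter (fun t => ¬ (t ∈ ex0 D a ∧ ¬ Hit G a t)), cw t := by
    rw [Finset.sum_filter]
    refine Finset.sum_congr rfl (fun t _ => ?_)
    by_cases h8 : t ∈ ex0 D a ∧ ¬ Hit G a t
    · rw [if_pos h8, if_neg (not_not.2 h8)]
    · rw [if_neg h8, if_pos h8]
  rw [h6, h7]
  refine Finset.sum_le_sum_of_subset_of_nonneg (Finset.filter_subset_filter _ hF) ?_
  intro t ht _
  exact cw_nn4 (hw t (Finset.mem_filter.1 ht).1)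

theorem hh_nonneg {D G : Finset Pt} {a : Pt × Pt} (hw : ∀ t ∈ ex0 D a, |wind t| ≤ 4) : 0 ≤ hh D G a := by
  classical
  unfold hh
  refine Finset.sum_nonneg (fun t ht => cw_nn4 (hw t (Finset.mem_filter.1 ht).1))

/-! ### the rotation -/

theorem ex0_Re {D : Finset Pt} {f : Pt} (hD : ∀ v, Rf f v ∈ D ↔ v ∈ D) (a : Pt × Pt) : ex0 D (Re f a) = ex0 D a := by
  ext t
  rw [mem_ex0, mem_ex0]
  have h1 : tp (Re f a) t = Rf f (tp a t) := vx_Re f a t _
  rw [h1, hD]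
  refine and_congr_left (fun _ => ?_)
  constructor
  · rintro ⟨h2, h3⟩
    refine ⟨fun i h4 h5 => ?_, fun i k h4 h5 h6 h7 => h3 i k h4 h5 h6 ?_⟩
    · have := h2 i h4 h5
      rwa [vx_Re, hD] at this
    · rw [vx_Re, vx_Re, h7]
  · rintro ⟨h2, h3⟩
    refine ⟨fun i h4 h5 => ?_, fun i k h4 h5 h6 h7 => h3 i k h4 h5 h6 ?_⟩
    · rw [vx_Re, hD]
      exact h2 i h4 h5
    · rw [vx_Re, vx_Re] at h7
      have := congrArg (Rf f) h7
      rwa [Rf_Rf, Rf_Rf] at this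

theorem Hit_Re {G : Finset Pt} {f : Pt} (hG : ∀ v, Rf f v ∈ G ↔ v ∈ G) (a : Pt × Pt) (t : List Bool) :
    Hit G (Re f a) t ↔ Hit G a t := by
  unfold Hit
  refine exists_congr (fun i => and_congr_right (fun _ => and_congr_right (fun _ => ?_)))
  rw [vx_Re, hG]

theorem hh_Re {D G : Finset Pt} {f : Pt} (hD : ∀ v, Rf f v ∈ D ↔ v ∈ D) (hG : ∀ v, Rf f v ∈ G ↔ v ∈ G)
    (a : Pt × Pt) : hh D G (Re f a) = hh D G a := by
  classical
  unfold hh
  rw [ex0_Re hD]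
  refine Finset.sum_congr ?_ (fun _ _ => rfl)
  ext t
  rw [Finset.mem_filter, Finset.mem_filter, Hit_Re hG]

theorem Re_bd {D : Finset Pt} {f : Pt} (hf : Fc f) (hD : ∀ v, Rf f v ∈ D ↔ v ∈ D) {a : Pt × Pt} (ha : a ∈ bd D) :
    Re f a ∈ bd D := by
  rw [mem_bd] at ha ⊢
  obtain ⟨h1, h2, h3⟩ := ha
  have hf' : nn f % 3 = 1 := by
    have h := ZMod.intCast_eq_intCast_iff (f.1 - f.2) 1 3
    unfold Fc cl at hf
    rw [Int.cast_one] at h
    have h4 := h.1 hf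
    unfold Int.ModEq at h4
    unfold nn
    push_cast at h4
    omega
  have e1 : (Re f a).1 + (Re f a).2 = Rf f (a.1 + a.2) := by
    unfold Re Rf
    simp only
    abel
  refine ⟨by rw [e1, hD]; exact h1, ?_, ?_⟩
  · obtain ⟨h4, h5, h6⟩ := h2
    refine ⟨neg_mem_dirs h4, ?_, ?_⟩
    · show Vt (Rf f a.1)
      rw [Vt_iff] at h5 ⊢
      rw [nn_Rf]
      omega
    · rw [e1]
      rw [Vt_iff] at h6 ⊢
      rw [nn_Rf]
      omega
  · show Rf f a.1 ∉ D
    rw [hD]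
    exact h3

end LP

end HexObs
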