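import Pool.Agent.HexLoop.Cnt2

/-!
SD7 (counting), part 3: the rightmost vertical edge and the pairing of the placements.
-/

set_option autoImplicit false

namespace HexObs

namespace LP

open Complex Finset

/-- walks across the flat strip of height T -/
structure Cw (T : ℕ) (t : List Bool) : Prop where
  mem : ∀ i, 1 ≤ i → i ≤ t.length → 0 < lv (vx 0 up t i) ∧ lv (vx 0 up t i) < 3 * T + 2
  inj : ∀ i k, 1 ≤ i → i < k → k ≤ t.length → vx 0 up t i ≠ vx 0 up t k
  tip : ¬ (0 < lv (vx 0 up t (t.length + 1)) ∧ lv (vx 0 up t (t.length + 1)) < 3 * T + 2)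

/-- the right extent -/
noncomputable def Axt (t : List Bool) : ℕ := (Finset.range (t.length + 1)).sup (fun i => ((vx oo up t i).1).toNat)

theorem De_up : De (0, up) := De_mk (Or.inr ⟨by decide, Or.inl rfl⟩)

theorem le_Axt {t : List Bool} {i : ℕ} (h : i ≤ t.length) : (vx 0 up t i).1 ≤ Axt t := by
  have h1 := Finset.le_sup (f := fun i => ((vx oo up t i).1).toNat) (Finset.mem_range.2 (by omega : i < t.length + 1))
  have h2 : ((vx 0 up t i).1).toNat ≤ Axt t := h1
  omega

theorem Axt_ex {t : List Bool} (h : 0 < Axt t) : ∃ i, 1 ≤ i ∧ i ≤ t.length ∧ (vx 0 up t i).1 = Axt t := by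
  obtain ⟨i, hi, h1⟩ := Finset.exists_mem_eq_sup (Finset.range (t.length + 1))
    ⟨0, Finset.mem_range.2 (by omega)⟩ (fun i => ((vx oo up t i).1).toNat)
  rw [Finset.mem_range] at hi
  have h2 : Axt t = ((vx 0 up t i).1).toNat := h1
  refine ⟨i, ?_, by omega, by omega⟩
  rcases Nat.eq_zero_or_pos i with h3 | h3
  · exfalso
    rw [h3] at h2
    have : ((vx 0 up t 0).1).toNat = 0 := rfl
    omega
  · exact h3

/-- the last step is vertical -/
theorem Cw_last {T : ℕ} {t : List Bool} (h : Cw T t) (hl : 1 ≤ t.length) :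
    (dx up t t.length = (0, 1) ∧ lv (vx 0 up t t.length) = 3 * T) ∨
      (dx up t t.length = (0, -1) ∧ lv (vx 0 up t t.length) = 2) := by
  have h1 := h.mem t.length hl le_rfl
  have h2 := h.tip
  rw [vx_next, lv_add] at h2
  have hm := lv_mod (vx 0 up t t.length)
  have hde : De (vx 0 up t t.length, dx up t t.length) := de_vx De_up t t.length
  obtain ⟨d1, d2, d3, d4, d5, d6, d7, d8, d9, d10, d11, d12⟩ := dir_vals
  rcases De_cases hde with ⟨h3, h4 | h4 | h4⟩ | ⟨h3, h4 | h4 | h4⟩ <;> rw [h4] at h2 ⊢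
  · exfalso; omega
  · exfalso; omega
  · right; exact ⟨rfl, by omega⟩
  · left; exact ⟨rfl, by omega⟩
  · exfalso; omega
  · exfalso; omega

theorem vx_fst_le (t : List Bool) (i : ℕ) : |(vx 0 up t (i + 1)).1| ≤ i := by
  induction i with
  | zero =>
    show |(0 : ℤ) + 0| ≤ 0
    simp
  | succ i ih =>
    rw [vx_next, Prod.fst_add]
    have h1 := (de_vx De_up t (i + 1)).1
    rw [abs_le] at ih ⊢
    push_cast
    rcases dirs_cases h1 with h2 | h2 | h2 | h2 | h2 | h2 <;> simp only at h2 <;> rw [h2] <;> simp only <;>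
      constructor <;> omega

theorem Axt_le {t : List Bool} : Axt t ≤ t.length := by
  rcases Nat.eq_zero_or_pos (Axt t) with h | h
  · omega
  · obtain ⟨i, h1, h2, h3⟩ := Axt_ex h
    obtain ⟨k, rfl⟩ : ∃ k, i = k + 1 := ⟨i - 1, by omega⟩
    have := vx_fst_le t k
    rw [h3, abs_le] at this
    omega

/-- the rightmost vertical edge -/
theorem top_edge {T : ℕ} {t : List Bool} (h : Cw T t) (hA : 0 < Axt t) : ∃ k, 1 ≤ k ∧ k ≤ t.length ∧
    (vx 0 up t k).1 = Axt t ∧ (dx up t k = (0, 1) ∨ dx up t k = (0, -1)) := by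
  obtain ⟨i, h1, h2, h3⟩ := Axt_ex hA
  have hde : De (vx 0 up t i, dx up t i) := de_vx De_up t i
  -- the outgoing step does not go to the right
  have hout : dx up t i ≠ (1, 0) ∧ dx up t i ≠ (1, -1) := by
    have key : ∀ d : Pt, d.1 = 1 → d.2 = 0 ∨ d.2 = -1 → dx up t i ≠ d := by
      intro d hd1 hd2 hd
      rcases Nat.lt_or_ge i t.length with h4 | h4
      · have h5 := le_Axt (t := t) (i := i + 1) (by omega)
        rw [vx_next, Prod.fst_add, h3, hd, hd1] at h5
        omega
      · have h5 : i = t.length := by omega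
        rw [h5] at hd
        rcases Cw_last h (by omega) with ⟨h6, -⟩ | ⟨h6, -⟩ <;> rw [h6] at hd <;> rw [← hd] at hd1 <;>
          exact absurd hd1 (by decide)
    exact ⟨key _ rfl (Or.inl rfl), key _ rfl (Or.inr rfl)⟩
  obtain ⟨k, rfl⟩ : ∃ k, i = k + 1 := ⟨i - 1, by omega⟩
  have hprev : (vx 0 up t k).1 ≤ Axt t := le_Axt (by omega)
  have hk0 : (vx 0 up t k).1 = Axt t → 1 ≤ k := by
    intro h4
    rcases Nat.eq_zero_or_pos k with h5 | h5
    · exfalso
      rw [h5] at h4
      have h6 : (vx 0 up t 0).1 = 0 := rfl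
      omega
    · exact h5
  have hturn := dx_next up t k
  have hdk := (de_vx De_up t k).1
  simp only at hdk
  have h3' := h3
  rw [vx_next, Prod.fst_add] at h3'
  rcases De_cases hde with ⟨-, h4 | h4 | h4⟩ | ⟨-, h4 | h4 | h4⟩
  · exact absurd h4 hout.1
  · -- (-1, 1)
    have hd : dx up t k = (0, 1) ∨ dx up t k = (-1, 0) := by
      rw [h4] at hturn
      rcases dirs_cases hdk with h5 | h5 | h5 | h5 | h5 | h5 <;> rw [h5] at hturn ⊢ <;>
        cases htf : tf t k <;> rw [htf] at hturn <;> revert hturn <;> decide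
    rcases hd with hd | hd
    · rw [hd] at h3'
      have h6 : (vx 0 up t k).1 = Axt t := by simpa using h3'
      exact ⟨k, hk0 h6, by omega, h6, Or.inl hd⟩
    · rw [hd] at h3'
      simp only at h3'
      omega
  · exact ⟨k + 1, h1, h2, h3, Or.inr h4⟩
  · exact ⟨k + 1, h1, h2, h3, Or.inl h4⟩
  · -- (-1, 0)
    have hd : dx up t k = (0, -1) ∨ dx up t k = (-1, 1) := by
      rw [h4] at hturn
      rcases dirs_cases hdk with h5 | h5 | h5 | h5 | h5 | h5 <;> rw [h5] at hturn ⊢ <;>
        cases htf : tf t k <;> rw [htf] at hturn <;> revert hturn <;> decide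
    rcases hd with hd | hd
    · rw [hd] at h3'
      have h6 : (vx 0 up t k).1 = Axt t := by simpa using h3'
      exact ⟨k, hk0 h6, by omega, h6, Or.inr hd⟩
    · rw [hd] at h3'
      simp only at h3'
      omega
  · exact absurd h4 hout.2

/-- the foot number j to the left of r, below row 0 -/
def pj (r : Pt) (j : ℕ) : Pt × Pt := ((r.1 - 1 - 2 * j, r.2 - 1 + j), up)

/-- the foot number m to the right of r, below row 1 -/
def qm (r : Pt) (m : ℕ) : Pt × Pt := ((r.1 + 2 * m, r.2 - m), up)

section Pair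

variable {T : ℕ} {B : ℤ} {D S G : Finset Pt} {f u r : Pt} {al be : ℤ}

theorem pair (h : Dat T B D S f u r al be) (hs : Sepr T B D G) {L : ℕ}
    (hwin : ∀ v : Pt, B - 3 ≤ lv v → lv v ≤ B + 3 * T + 5 → |v.1 - r.1| ≤ 3 * L + 5 → al < nn v ∧ nn v < be)
    {t : List Bool} (ht : Cw (T + 1) t) (hL : t.length ≤ L) {j : ℕ} (hj : j < Axt t)
    (hq : qm r (Axt t - j) ∈ bd D)
    (h1 : t ∈ ex0 D (pj r j)) (h1' : ¬ Hit G (pj r j) t)
    (h2 : mir t ∈ ex0 D (qm r (Axt t - j))) (h2' : ¬ Hit G (qm r (Axt t - j)) (mir t)) : False := by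
  have hAL := Axt_le (t := t)
  obtain ⟨k, k1, k2, k3, k4⟩ := top_edge ht (by omega)
  obtain ⟨a1, a2⟩ := mem_ex0.1 h1
  obtain ⟨b1, b2⟩ := mem_ex0.1 h2
  -- positions
  have p1 : ∀ i, vx (pj r j).1 (pj r j).2 t i = (pj r j).1 + vx 0 up t i := fun i => vx_zero _ _ _ _
  have hsu : sg1 up = up := by decide
  have q1 : ∀ i, i ≤ t.length + 1 → vx (qm r (Axt t - j)).1 (qm r (Axt t - j)).2 (mir t) i =
      (qm r (Axt t - j)).1 + sg1 (vx 0 up t i) := by
    intro i hi
    have := vx_mir (qm r (Axt t - j)).1 up t hi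
    rw [hsu] at this
    exact this
  have hcast : ((Axt t - j : ℕ) : ℤ) = (Axt t : ℤ) - j := by
    rw [Nat.cast_sub (by omega)]
  have hB := h.hB
  have hr := h.hr
  have hu := h.hu
  have hmr := lv_mod r
  have hmu := lv_mod u
  rcases Nat.lt_or_ge k t.length with hk | hk
  · -- inner vertical edge
    -- the lower vertex w1 and the upper vertex w2
    obtain ⟨i1, i2, hi1, hi1', hi2, hi2', hw⟩ : ∃ i1 i2, 1 ≤ i1 ∧ i1 ≤ t.length ∧ 1 ≤ i2 ∧ i2 ≤ t.length ∧
        (vx 0 up t i1).1 = Axt t ∧ vx 0 up t i2 = vx 0 up t i1 + (0, 1) := by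
      rcases k4 with k4 | k4
      · exact ⟨k, k + 1, k1, k2, by omega, by omega, k3, by rw [vx_next, k4]⟩
      · refine ⟨k + 1, k, by omega, by omega, k1, k2, ?_, ?_⟩
        · rw [vx_next, k4, Prod.fst_add, k3]
          simp
        · rw [vx_next, k4, add_assoc]
          have : ((0, -1) : Pt) + (0, 1) = 0 := by decide
          rw [this, add_zero]
    obtain ⟨hw1, hw2⟩ := hw
    have hmemP : ∀ i, 1 ≤ i → i ≤ t.length → vx (pj r j).1 (pj r j).2 t i ∈ (D : Set Pt) \ (G : Set Pt) :=
      fun i h3 h4 => ⟨a1.mem i h3 h4, fun h5 => h1' ⟨i, h3, h4, h5⟩⟩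
    have hml : (mir t).length = t.length := mir_length t
    have hmemQ : ∀ i, 1 ≤ i → i ≤ t.length →
        vx (qm r (Axt t - j)).1 (qm r (Axt t - j)).2 (mir t) i ∈ (D : Set Pt) \ (G : Set Pt) :=
      fun i h3 h4 => ⟨b1.mem i h3 (by omega), fun h5 => h2' ⟨i, h3, by omega, h5⟩⟩
    have c1 : SD6.Cn ((D : Set Pt) \ (G : Set Pt)) (vx (pj r j).1 (pj r j).2 t 1)
        (vx (pj r j).1 (pj r j).2 t i2) := Cn_walk upd hmemP le_rfl hi2 hi2'
    have c2 : SD6.Cn ((D : Set Pt) \ (G : Set Pt)) (vx (qm r (Axt t - j)).1 (qm r (Axt t - j)).2 (mir t) 1)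
        (vx (qm r (Axt t - j)).1 (qm r (Axt t - j)).2 (mir t) i1) := Cn_walk upd hmemQ le_rfl hi1 hi1'
    have c3 : SD6.Cn ((D : Set Pt) \ (G : Set Pt)) (vx (pj r j).1 (pj r j).2 t i2)
        (vx (qm r (Axt t - j)).1 (qm r (Axt t - j)).2 (mir t) i1) := by
      refine SD6.Cn.single (hmemP i2 hi2 hi2') (hmemQ i1 hi1 hi1') ?_
      rw [p1, q1 i1 (by omega), hw2]
      have : (qm r (Axt t - j)).1 + sg1 (vx 0 up t i1) - ((pj r j).1 + (vx 0 up t i1 + (0, 1))) = (1, 0) := by
        unfold qm pj sg1
        ext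
        · simp only [Prod.fst_add, Prod.fst_sub]
          rw [hcast, hw1]
          ring
        · simp only [Prod.snd_add, Prod.snd_sub]
          rw [hcast, hw1]
          ring
      rw [this]
      decide
    refine hs _ _ (hmemP 1 le_rfl (by omega)) (c1.trans (c3.trans c2.symm)) ?_ ?_
    · left
      rw [p1, lv_add]
      have : lv (vx 0 up t 1) = 2 := by
        show lv (0 + up) = 2
        decide
      rw [this]
      unfold pj lv at *
      simp only
      omega
    · right
      have hv1 : vx (qm r (Axt t - j)).1 (qm r (Axt t - j)).2 (mir t) 1 = (qm r (Axt t - j)).1 + up := rfl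
      rw [hv1]
      constructor
      · rw [lv_add]
        have : lv up = 2 := by decide
        rw [this]
        unfold qm lv at *
        simp only
        omega
      · rw [add_sub_cancel_right]
        exact (mem_bd.1 hq).2.2
  · -- the exit
    have hk' : k = t.length := by omega
    subst hk'
    have hmz := vx_fst_le t (t.length - 1)
    have e0 : t.length - 1 + 1 = t.length := by omega
    rw [e0, k3] at hmz
    rcases Cw_last ht k1 with ⟨g1, g2⟩ | ⟨g1, g2⟩
    · -- bridge
      have htip : tp (pj r j) t = (pj r j).1 + (vx 0 up t t.length + (0, 1)) := by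
        unfold tp tip
        rw [p1, vx_next, g1]
      have hz := b1.mem t.length k1 (by rw [mir_length])
      rw [q1 t.length (by omega), h.hD] at hz
      rw [htip, h.hD] at a2
      have hT : lv ((pj r j).1 + (vx 0 up t t.length + (0, 1))) = B + 3 * T + 2 := by
        rw [lv_add, lv_add, g2]
        have : lv ((0, 1) : Pt) = 2 := by decide
        rw [this]
        unfold pj lv at *
        simp only
        push_cast
        omega
      have hwn := hwin _ (by rw [hT]; omega) (by rw [hT]; omega) (by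
        unfold pj
        simp only [Prod.fst_add]
        rw [k3, abs_le]
        constructor <;> omega)
      have hnu : nn ((pj r j).1 + (vx 0 up t t.length + (0, 1))) < nn u := by
        by_contra hcon
        push Not at hcon
        apply a2
        refine ⟨?_, hwn.1, hwn.2, Or.inr (Or.inl ⟨by omega, by omega, hcon⟩)⟩
        rw [Vt_iff, ← lv_mod, hT]
        omega
      obtain ⟨z1, z2, z3, z4⟩ := hz
      have hV : lv ((qm r (Axt t - j)).1 + sg1 (vx 0 up t t.length)) = B + 3 * T + 3 := by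
        have h5 : lv (vx 0 up t t.length) = 3 * ((T + 1 : ℕ) : ℤ) := g2
        unfold qm lv sg1 at *
        simp only [Prod.fst_add, Prod.snd_add]
        rw [hcast]
        push_cast at h5
        omega
      have hn : nn ((qm r (Axt t - j)).1 + sg1 (vx 0 up t t.length)) =
          nn ((pj r j).1 + (vx 0 up t t.length + (0, 1))) + 1 := by
        unfold qm pj nn sg1
        simp only [Prod.fst_add, Prod.snd_add]
        rw [hcast, k3]
        ring
      have hm := lv_mod ((qm r (Axt t - j)).1 + sg1 (vx 0 up t t.length))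
      omega
    · -- arc
      have hz := a1.mem t.length k1 le_rfl
      rw [p1, h.hD] at hz
      have htip : tp (qm r (Axt t - j)) (mir t) = (qm r (Axt t - j)).1 + sg1 (vx 0 up t t.length + (0, -1)) := by
        unfold tp tip
        rw [mir_length, q1 _ le_rfl, vx_next, g1]
      rw [htip, h.hD] at b2
      have hV : lv ((pj r j).1 + vx 0 up t t.length) = B - 1 := by
        rw [lv_add, g2]
        unfold pj lv at *
        simp only
        omega
      have hT : lv ((qm r (Axt t - j)).1 + sg1 (vx 0 up t t.length + (0, -1))) = B := by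
        unfold qm lv sg1 at *
        simp only [Prod.fst_add, Prod.snd_add]
        rw [hcast]
        omega
      have hwn := hwin _ (by rw [hT]; omega) (by rw [hT]; omega) (by
        unfold qm sg1
        simp only [Prod.fst_add]
        rw [hcast, k3, abs_le]
        constructor <;> omega)
      have hnr : nn r < nn ((qm r (Axt t - j)).1 + sg1 (vx 0 up t t.length + (0, -1))) := by
        by_contra hcon
        push Not at hcon
        apply b2
        refine ⟨?_, hwn.1, hwn.2, Or.inr (Or.inr ⟨by omega, by omega, hcon⟩)⟩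
        rw [Vt_iff, ← lv_mod, hT]
        omega
      obtain ⟨z1, z2, z3, z4⟩ := hz
      have hn : nn ((qm r (Axt t - j)).1 + sg1 (vx 0 up t t.length + (0, -1))) =
          nn ((pj r j).1 + vx 0 up t t.length) + 1 := by
        unfold qm pj nn sg1
        simp only [Prod.fst_add, Prod.snd_add]
        rw [hcast, k3]
        ring
      have hm := lv_mod ((pj r j).1 + vx 0 up t t.length)
      have hm' := lv_mod ((qm r (Axt t - j)).1 + sg1 (vx 0 up t t.length + (0, -1)))
      omega

end Pair

end LP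

end HexObs
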