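import Pool.Agent.HexLoop.Cnt3

/-!
SD7 (counting), part 4: HH D G is at least twice the sum of the weighted right extents.
-/

set_option autoImplicit false

namespace HexObs

namespace LP

open Complex Finset

theorem Fc_mod {f : Pt} (hf : Fc f) : nn f % 3 = 1 := by
  have h := ZMod.intCast_eq_intCast_iff (f.1 - f.2) 1 3
  unfold Fc cl at hf
  rw [Int.cast_one] at h
  have h4 := h.1 hf
  unfold Int.ModEq at h4
  unfold nn
  push_cast at h4
  omega

theorem sum_four {α : Type} [DecidableEq α] (Bd : Finset α) (hw : α → ℝ) (h0 : ∀ a ∈ Bd, 0 ≤ hw a) (L : ℕ)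
    (g : Fin 4 → ℕ → α) (κ : α → ℤ) (k : Fin 4 → ℤ) (hk : ∀ i i', k i = k i' → i = i')
    (hg : ∀ i j, j < L → g i j ∈ Bd) (hκ : ∀ i j, κ (g i j) = k i) (hinj : ∀ i j j', g i j = g i j' → j = j') :
    ∑ i : Fin 4, ∑ j ∈ range L, hw (g i j) ≤ ∑ a ∈ Bd, hw a := by
  rw [← Finset.sum_product']
  have hI : Set.InjOn (fun x : Fin 4 × ℕ => g x.1 x.2) ((Finset.univ ×ˢ range L : Finset (Fin 4 × ℕ)) : Set (Fin 4 × ℕ)) := by
    rintro ⟨i, j⟩ - ⟨i', j'⟩ - hx
    simp only at hx
    have h1 : i = i' := by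
      apply hk
      rw [← hκ i j, ← hκ i' j', hx]
    subst h1
    rw [hinj i j j' hx]
  rw [← Finset.sum_image (g := fun x : Fin 4 × ℕ => g x.1 x.2) (f := hw) (s := Finset.univ ×ˢ range L) hI]
  refine Finset.sum_le_sum_of_subset_of_nonneg ?_ (fun a ha _ => h0 a ha)
  intro a ha
  rw [Finset.mem_image] at ha
  obtain ⟨⟨i, j⟩, hx, rfl⟩ := ha
  rw [Finset.mem_product, Finset.mem_range] at hx
  exact hg i j hx.2

theorem sum_pair (A L : ℕ) (hAL : A ≤ L) (c : ℝ) (X Y : ℕ → ℝ) (hX : ∀ j, 0 ≤ X j) (hY : ∀ j, 0 ≤ Y j)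
    (h : ∀ j, j < A → c ≤ X j + Y (A - 1 - j)) : c * A ≤ ∑ j ∈ range L, X j + ∑ i ∈ range L, Y i := by
  have h1 : ∑ j ∈ range A, X j ≤ ∑ j ∈ range L, X j :=
    Finset.sum_le_sum_of_subset_of_nonneg (Finset.range_subset_range.2 hAL) (fun j _ _ => hX j)
  have h2 : ∑ j ∈ range A, Y j ≤ ∑ j ∈ range L, Y j :=
    Finset.sum_le_sum_of_subset_of_nonneg (Finset.range_subset_range.2 hAL) (fun j _ _ => hY j)
  have h3 : ∑ j ∈ range A, Y (A - 1 - j) = ∑ j ∈ range A, Y j := Finset.sum_range_reflect Y A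
  have h4 : ∑ j ∈ range A, c ≤ ∑ j ∈ range A, (X j + Y (A - 1 - j)) :=
    Finset.sum_le_sum (fun j hj => h j (Finset.mem_range.1 hj))
  rw [Finset.sum_const, Finset.card_range, nsmul_eq_mul, Finset.sum_add_distrib, h3] at h4
  linarith

section Main

variable {T : ℕ} {B : ℤ} {D S G : Finset Pt} {f u r : Pt} {al be : ℤ}

theorem Dat.nnf (h : Dat T B D S f u r al be) : nn u + nn r = 2 * nn f ∧ 2 * lv f = 2 * B + 3 * T + 2 := by
  have h1 := congrArg nn h.hf
  have h2 := congrArg lv h.hf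
  rw [nn_add, nn_add] at h1
  rw [lv_add, lv_add, h.hu, h.hr] at h2
  constructor <;> linarith

theorem Dat.rot1 (h : Dat T B D S f u r al be) (hf : Fc f) {v : Pt} (hv : v ∈ D) : Rf f v ∈ D := by
  obtain ⟨h1, h2⟩ := h.nnf
  have hf3 := Fc_mod hf
  have hab := h.hab
  rw [h.hD] at hv ⊢
  obtain ⟨z1, z2, z3, z4⟩ := hv
  rw [Vt_iff] at z1
  unfold StP
  rw [Vt_iff, nn_Rf, lv_Rf]
  have hm := lv_mod v
  refine ⟨by omega, by omega, by omega, ?_⟩
  have hB := h.hB
  have hbe := h.hbe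
  rcases z4 with z4 | z4 | z4
  · left; omega
  · right; right; omega
  · right; left; omega

theorem Dat.rot (h : Dat T B D S f u r al be) (hf : Fc f) (v : Pt) : Rf f v ∈ D ↔ v ∈ D := by
  constructor
  · intro h1
    have := h.rot1 hf h1
    rwa [Rf_Rf] at this
  · exact h.rot1 hf

theorem Dat.rr (h : Dat T B D S f u r al be) : Rf f u = r := by
  unfold Rf
  rw [← h.hf]
  abel

/-- the window around r is inside the walls -/
def Win (T : ℕ) (B : ℤ) (L : ℕ) (r : Pt) (al be : ℤ) : Prop :=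
  ∀ v : Pt, B - 3 ≤ lv v → lv v ≤ B + 3 * T + 5 → |v.1 - r.1| ≤ 3 * L + 5 → al < nn v ∧ nn v < be

theorem pj_lv (h : Dat T B D S f u r al be) (j : ℕ) : lv (pj r j).1 = B - 3 ∧ nn (pj r j).1 = nn r - 3 * j := by
  have hr := h.hr
  unfold pj lv nn at *
  simp only
  constructor <;> omega

theorem qm_lv (h : Dat T B D S f u r al be) (m : ℕ) : lv (qm r m).1 = B ∧ nn (qm r m).1 = nn r + 3 * m := by
  have hr := h.hr
  unfold qm lv nn at *
  simp only
  constructor <;> omega

theorem up_vals : lv up = 2 ∧ nn up = -1 ∧ up.1 = 0 := by decide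

theorem pj_bd (h : Dat T B D S f u r al be) {L : ℕ} (hwin : Win T B L r al be) {j : ℕ} (hj : j < L) :
    pj r j ∈ bd D := by
  obtain ⟨h1, h2⟩ := pj_lv h j
  obtain ⟨u1, u2, u3⟩ := up_vals
  have hB := h.hB
  have hmr := lv_mod r
  have hr := h.hr
  have hm := lv_mod (pj r j).1
  have e1 : lv ((pj r j).1 + up) = B - 1 := by rw [lv_add, h1, u1]; ring
  have e2 : nn ((pj r j).1 + up) = nn r - 3 * j - 1 := by rw [nn_add, h2, u2]; ring
  rw [mem_bd]
  refine ⟨?_, De_mk (v := (pj r j).1) (d := up) (Or.inr ⟨by omega, Or.inl rfl⟩), ?_⟩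
  · show (pj r j).1 + up ∈ D
    rw [h.hD]
    have hw := hwin ((pj r j).1 + up) (by omega) (by omega) (by
      unfold pj
      simp only [Prod.fst_add, u3]
      rw [abs_le]
      constructor <;> omega)
    refine ⟨?_, hw.1, hw.2, Or.inr (Or.inr ⟨by omega, by omega, by omega⟩)⟩
    rw [Vt_iff]
    omega
  · rw [h.hD]
    rintro ⟨-, -, -, h3⟩
    omega

theorem qm_bd (h : Dat T B D S f u r al be) (hT : 1 ≤ T) {L : ℕ} (hwin : Win T B L r al be) {m : ℕ} (hm1 : 1 ≤ m)
    (hm : m ≤ L) : qm r m ∈ bd D := by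
  obtain ⟨h1, h2⟩ := qm_lv h m
  obtain ⟨u1, u2, u3⟩ := up_vals
  have hB := h.hB
  have hmr := lv_mod r
  have hr := h.hr
  have hmm := lv_mod (qm r m).1
  have e1 : lv ((qm r m).1 + up) = B + 2 := by rw [lv_add, h1, u1]
  have e2 : nn ((qm r m).1 + up) = nn r + 3 * m - 1 := by rw [nn_add, h2, u2]; ring
  rw [mem_bd]
  refine ⟨?_, De_mk (v := (qm r m).1) (d := up) (Or.inr ⟨by omega, Or.inl rfl⟩), ?_⟩
  · show (qm r m).1 + up ∈ D
    rw [h.hD]
    have hw := hwin ((qm r m).1 + up) (by omega) (by omega) (by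
      unfold qm
      simp only [Prod.fst_add, u3]
      rw [abs_le]
      constructor <;> omega)
    refine ⟨?_, hw.1, hw.2, Or.inl ⟨by omega, by omega⟩⟩
    rw [Vt_iff]
    omega
  · rw [h.hD]
    rintro ⟨-, -, -, h3⟩
    have : (1 : ℤ) ≤ m := by exact_mod_cast hm1
    omega

theorem ls_pj (h : Dat T B D S f u r al be) {L : ℕ} (hwin : Win T B L r al be) {j : ℕ} (hj : j < L) :
    LS T B D (pj r j) := by
  obtain ⟨h1, h2⟩ := pj_lv h j
  obtain ⟨u1, u2, u3⟩ := up_vals
  refine ⟨pj_bd h hwin hj, Or.inl ?_, by omega⟩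
  show lv ((pj r j).1 + up) = B - 1
  rw [lv_add, h1, u1]
  ring

theorem ls_qm (h : Dat T B D S f u r al be) (hf : Fc f) (hT : 1 ≤ T) {L : ℕ} (hwin : Win T B L r al be) {m : ℕ}
    (hm1 : 1 ≤ m) (hm : m ≤ L) : LS T B D (Re f (qm r m)) := by
  obtain ⟨h1, h2⟩ := qm_lv h m
  obtain ⟨u1, u2, u3⟩ := up_vals
  obtain ⟨n1, n2⟩ := h.nnf
  have hq := qm_bd h hT hwin hm1 hm
  have e1 : (Re f (qm r m)).1 + (Re f (qm r m)).2 = Rf f ((qm r m).1 + up) := by
    show Rf f (qm r m).1 + -up = Rf f ((qm r m).1 + up)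
    unfold Rf
    abel
  have e3 : lv (Rf f (qm r m).1) = B + 3 * T + 2 := by rw [lv_Rf, h1]; linarith
  refine ⟨Re_bd hf (h.rot hf) hq, Or.inr ⟨?_, ?_⟩, ?_⟩
  · rw [e1, lv_Rf, lv_add, h1, u1]
    linarith
  · rw [e1]
    have e2 : Rf f ((qm r m).1 + up) + up = Rf f (qm r m).1 := by
      unfold Rf
      abel
    rw [e2, h.rot hf]
    exact (mem_bd.1 hq).2.2
  · show lv (Rf f (qm r m).1) ≠ B + 3 * T + 3
    omega

theorem vx_fst_le' (t : List Bool) {i : ℕ} (hi : 1 ≤ i) : |(vx 0 up t i).1| ≤ i - 1 := by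
  obtain ⟨k, rfl⟩ : ∃ k, i = k + 1 := ⟨i - 1, by omega⟩
  have := vx_fst_le t k
  push_cast
  linarith

theorem Vt_walk (t : List Bool) (i : ℕ) : nn (vx 0 up t i) % 3 ≠ 1 := by
  have := (de_vx De_up t i).2.1
  rwa [Vt_iff] at this

theorem pl_pj (h : Dat T B D S f u r al be) {L : ℕ} (hwin : Win T B L r al be) {j : ℕ} (hj : j < L)
    {t : List Bool} (ht : Cw (T + 1) t) (hL : t.length ≤ L) : t ∈ ex0 S (pj r j) := by
  obtain ⟨h1, h2⟩ := pj_lv h j
  have hB := h.hB
  have hr := h.hr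
  have hmr := lv_mod r
  have p1 : ∀ i, vx (pj r j).1 (pj r j).2 t i = (pj r j).1 + vx 0 up t i := fun i => vx_zero _ _ _ _
  rw [mem_ex0]
  refine ⟨⟨fun i i1 i2 => ?_, fun i k i1 i2 i3 i4 => ?_⟩, ?_⟩
  · rw [p1, h.hS]
    have h3 := ht.mem i i1 i2
    have h4 := vx_fst_le' t i1
    have h5 := Vt_walk t i
    have h6 := lv_mod (vx 0 up t i)
    push_cast at h3
    have hw := hwin ((pj r j).1 + vx 0 up t i) (by rw [lv_add]; omega) (by rw [lv_add]; omega) (by
      unfold pj
      simp only [Prod.fst_add]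
      rw [abs_le] at h4 ⊢
      constructor <;> omega)
    refine ⟨?_, hw.1, hw.2, by rw [lv_add]; omega, by rw [lv_add]; omega⟩
    rw [Vt_iff, nn_add]
    omega
  · rw [p1, p1] at i4
    exact ht.inj i k i1 i2 i3 (add_left_cancel i4)
  · have h3 := ht.tip
    have e : tp (pj r j) t = (pj r j).1 + vx 0 up t (t.length + 1) := p1 _
    rw [e, h.hS]
    rintro ⟨-, -, -, h4, h5⟩
    rw [lv_add] at h4 h5
    push_cast at h3
    omega

theorem pl_qm (h : Dat T B D S f u r al be) (hf : Fc f) {L : ℕ} (hwin : Win T B L r al be) {m : ℕ}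
    (hm : m ≤ L) {t : List Bool} (ht : Cw (T + 1) t) (hL : t.length ≤ L) : mir t ∈ ex0 S (Re f (qm r m)) := by
  obtain ⟨h1, h2⟩ := qm_lv h m
  obtain ⟨n1, n2⟩ := h.nnf
  have hB := h.hB
  have hr := h.hr
  have hab := h.hab
  have hf3 := Fc_mod hf
  have hmr := lv_mod r
  have hsu : sg1 up = up := by decide
  have q1 : ∀ i, i ≤ t.length + 1 → vx (Re f (qm r m)).1 (Re f (qm r m)).2 (mir t) i =
      Rf f ((qm r m).1 + sg1 (vx 0 up t i)) := by
    intro i hi
    rw [vx_Re]
    have := vx_mir (qm r m).1 up t hi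
    rw [hsu] at this
    exact congrArg (Rf f) this
  have hs1 : ∀ p : Pt, lv (sg1 p) = lv p := by
    intro p
    unfold lv sg1
    simp only
    ring
  have hs2 : ∀ p : Pt, (sg1 p).1 = -p.1 := fun p => rfl
  rw [mem_ex0]
  refine ⟨⟨fun i i1 i2 => ?_, fun i k i1 i2 i3 i4 => ?_⟩, ?_⟩
  · rw [mir_length] at i2
    rw [q1 i (by omega), h.hS]
    have h3 := ht.mem i i1 i2
    have h4 := vx_fst_le' t i1
    have h5 := Vt_walk t i
    have h6 := lv_mod (vx 0 up t i)
    have h7 := lv_mod (sg1 (vx 0 up t i))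
    have h8 := hs1 (vx 0 up t i)
    push_cast at h3
    have hw := hwin ((qm r m).1 + sg1 (vx 0 up t i)) (by rw [lv_add]; omega) (by rw [lv_add]; omega) (by
      unfold qm
      simp only [Prod.fst_add]
      rw [hs2]
      rw [abs_le] at h4 ⊢
      constructor <;> omega)
    have h9 := lv_mod ((qm r m).1 + sg1 (vx 0 up t i))
    rw [lv_add] at h9
    refine ⟨?_, by rw [nn_Rf]; omega, by rw [nn_Rf]; omega, by rw [lv_Rf, lv_add]; omega,
      by rw [lv_Rf, lv_add]; omega⟩
    rw [Vt_iff, nn_Rf]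
    omega
  · rw [mir_length] at i3
    rw [q1 i (by omega), q1 k (by omega)] at i4
    have i5 := congrArg (Rf f) i4
    rw [Rf_Rf, Rf_Rf] at i5
    have i6 := add_left_cancel i5
    apply ht.inj i k i1 i2 i3
    have i7 := congrArg sg1 i6
    have hss : ∀ p : Pt, sg1 (sg1 p) = p := by
      intro p
      unfold sg1
      ext
      · simp only; ring
      · simp only; ring
    rwa [hss, hss] at i7
  · have h3 := ht.tip
    have e : tp (Re f (qm r m)) (mir t) = Rf f ((qm r m).1 + sg1 (vx 0 up t (t.length + 1))) := by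
      unfold tp tip
      rw [mir_length]
      exact q1 _ le_rfl
    rw [e, h.hS]
    rintro ⟨-, -, -, h4, h5⟩
    rw [lv_Rf, lv_add, hs1] at h4 h5
    push_cast at h3
    omega

open Classical in
/-- SD7 -/
theorem count (h : Dat T B D S f u r al be) (hT : 1 ≤ T) (hf : Fc f) (hDF : Full D) (hSF : Full S)
    (wD : ∀ a ∈ bd D, ∀ t ∈ ex0 D a, |wind t| ≤ 4) (wS : ∀ a ∈ bd S, ∀ t ∈ ex0 S a, |wind t| ≤ 4)
    (hGD : G ⊆ D) (hGR : ∀ v, Rf f v ∈ G ↔ v ∈ G) (huG : u ∈ G) (hs : Sepr T B D G) {L : ℕ}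
    (hwin : Win T B L r al be) (F : Finset (List Bool)) (hF : ∀ t ∈ F, Cw (T + 1) t)
    (hL : ∀ t ∈ F, t.length ≤ L) : 2 * ∑ t ∈ F, cw t * Axt t ≤ HH D G := by
  have hrG : r ∈ G := by
    rw [← h.rr, hGR]
    exact huG
  have hDR := h.rot hf
  have h0 : ∀ a ∈ bd D, 0 ≤ hh D G a := fun a ha => hh_nonneg (wD a ha)
  -- the four families
  have hfour := sum_four (bd D) (hh D G) h0 L
    (fun i j => if i = 0 then pj r j else if i = 1 then Re f (qm r (j + 1)) else if i = 2 then Re f (pj r j)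
      else qm r (j + 1)) (fun a => lv a.1)
    (fun i => if i = 0 then B - 3 else if i = 1 then B + 3 * T + 2 else if i = 2 then B + 3 * T + 5 else B)
    (by
      intro i i' hii
      fin_cases i <;> fin_cases i' <;> simp at hii ⊢ <;> omega)
    (by
      intro i j hj
      fin_cases i
      · exact pj_bd h hwin hj
      · exact Re_bd hf hDR (qm_bd h hT hwin (by omega) (by omega))
      · exact Re_bd hf hDR (pj_bd h hwin hj)
      · exact qm_bd h hT hwin (by omega) (by omega))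
    (by
      intro i j
      obtain ⟨n1, n2⟩ := h.nnf
      have e1 := (pj_lv h j).1
      have e2 := (qm_lv h (j + 1)).1
      fin_cases i
      · exact e1
      · show lv (Rf f (qm r (j + 1)).1) = B + 3 * T + 2
        rw [lv_Rf, e2]
        linarith
      · show lv (Rf f (pj r j).1) = B + 3 * T + 5
        rw [lv_Rf, e1]
        linarith
      · exact e2)
    (by
      intro i j j' hjj
      have a1 : pj r j = pj r j' → j = j' := by
        intro hx
        have := congrArg (fun a : Pt × Pt => a.1.2) hx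
        simp only [pj] at this
        omega
      have a2 : qm r (j + 1) = qm r (j' + 1) → j = j' := by
        intro hx
        have := congrArg (fun a : Pt × Pt => a.1.2) hx
        simp only [qm] at this
        omega
      fin_cases i
      · exact a1 hjj
      · refine a2 ?_
        have := congrArg (Re f) hjj
        simp only at this
        change Re f (Re f (qm r (j + 1))) = Re f (Re f (qm r (j' + 1))) at this
        rwa [Re_Re, Re_Re] at this
      · refine a1 ?_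
        have := congrArg (Re f) hjj
        simp only at this
        change Re f (Re f (pj r j)) = Re f (Re f (pj r j')) at this
        rwa [Re_Re, Re_Re] at this
      · exact a2 hjj)
  rw [Fin.sum_univ_four] at hfour
  have hfour' : ∑ j ∈ range L, hh D G (pj r j) + ∑ j ∈ range L, hh D G (Re f (qm r (j + 1))) +
      ∑ j ∈ range L, hh D G (Re f (pj r j)) + ∑ j ∈ range L, hh D G (qm r (j + 1)) ≤ ∑ a ∈ bd D, hh D G a := hfour
  have e1 : ∑ j ∈ range L, hh D G (Re f (pj r j)) = ∑ j ∈ range L, hh D G (pj r j) :=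
    Finset.sum_congr rfl (fun j _ => hh_Re hDR hGR _)
  have e2 : ∑ j ∈ range L, hh D G (Re f (qm r (j + 1))) = ∑ j ∈ range L, hh D G (qm r (j + 1)) :=
    Finset.sum_congr rfl (fun j _ => hh_Re hDR hGR _)
  rw [HH_hh]
  suffices hsuff : ∑ t ∈ F, cw t * Axt t ≤ ∑ j ∈ range L, hh D G (pj r j) +
      ∑ j ∈ range L, hh D G (Re f (qm r (j + 1))) by
    rw [e1, ← e2] at hfour'
    linarith
  -- lower bounds of the terms
  have b1 : ∀ j ∈ range L, ∑ t ∈ F, (if t ∈ ex0 D (pj r j) ∧ ¬ Hit G (pj r j) t then 0 else cw t) ≤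
      hh D G (pj r j) := by
    intro j hj
    rw [Finset.mem_range] at hj
    have hls := ls_pj h hwin hj
    obtain ⟨c1, c2, c3⟩ := mem_bd.1 hls.bd
    obtain ⟨p1, p2⟩ := pj_lv h j
    have hS1 : (pj r j).1 ∉ S := by
      rw [h.hS]
      rintro ⟨-, -, -, h4, -⟩
      omega
    refine hh_ge hDF hSF c2 c3 hS1 (fun t ht => wS _ ?_ t ht)
      (fun t ht hh => left_avoid h hGD huG hrG hs hls ht hh) F (fun t ht => pl_pj h hwin hj (hF t ht) (hL t ht))
    rw [mem_bd]
    refine ⟨?_, c2, hS1⟩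
    rw [h.hD] at c1
    rw [h.hS]
    obtain ⟨c4, c5, c6, c7⟩ := c1
    have hl : lv ((pj r j).1 + (pj r j).2) = B - 1 := by
      show lv ((pj r j).1 + up) = B - 1
      rw [lv_add, p1, up_vals.1]
      ring
    exact ⟨c4, c5, c6, by omega, by omega⟩
  have b2 : ∀ j ∈ range L, ∑ t ∈ F, (if mir t ∈ ex0 D (Re f (qm r (j + 1))) ∧ ¬ Hit G (Re f (qm r (j + 1))) (mir t)
      then 0 else cw t) ≤ hh D G (Re f (qm r (j + 1))) := by
    intro j hj
    rw [Finset.mem_range] at hj
    have hls := ls_qm h hf hT hwin (by omega : 1 ≤ j + 1) (by omega)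
    obtain ⟨c1, c2, c3⟩ := mem_bd.1 hls.bd
    obtain ⟨p1, p2⟩ := qm_lv h (j + 1)
    obtain ⟨n1, n2⟩ := h.nnf
    have hl1 : lv (Re f (qm r (j + 1))).1 = B + 3 * T + 2 := by
      show lv (Rf f (qm r (j + 1)).1) = _
      rw [lv_Rf, p1]
      linarith
    have hS1 : (Re f (qm r (j + 1))).1 ∉ S := by
      rw [h.hS]
      rintro ⟨-, -, -, -, h4⟩
      omega
    have key := hh_ge hDF hSF c2 c3 hS1 (fun t ht => wS _ (by
        rw [mem_bd]
        refine ⟨?_, c2, hS1⟩
        rw [h.hD] at c1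
        rw [h.hS]
        obtain ⟨c4, c5, c6, c7⟩ := c1
        have hl : lv ((Re f (qm r (j + 1))).1 + (Re f (qm r (j + 1))).2) = B + 3 * T := by
          show lv ((Re f (qm r (j + 1))).1 + -up) = B + 3 * T
          rw [← sub_eq_add_neg, lv_sub, hl1, up_vals.1]
          ring
        exact ⟨c4, c5, c6, by omega, by omega⟩) t ht)
      (fun t ht hh => left_avoid h hGD huG hrG hs hls ht hh) (F.image mir) (by
        intro s hs'
        rw [Finset.mem_image] at hs'
        obtain ⟨t, ht, rfl⟩ := hs'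
        exact pl_qm h hf hwin (by omega) (hF t ht) (hL t ht))
    rw [Finset.sum_image (by
      intro s _ s' _ hss
      have := congrArg mir hss
      rwa [mir_mir, mir_mir] at this)] at key
    refine le_trans (le_of_eq ?_) key
    refine Finset.sum_congr rfl (fun t _ => ?_)
    rw [cw_mir]
  refine le_trans ?_ (add_le_add (Finset.sum_le_sum b1) (Finset.sum_le_sum b2))
  rw [Finset.sum_comm, Finset.sum_comm (s := range L) (t := F), ← Finset.sum_add_distrib]
  refine Finset.sum_le_sum (fun t ht => ?_)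
  have hc : 0 ≤ cw t := by
    rcases Nat.eq_zero_or_pos L with hL0 | hL0
    · have hl0 := hL t ht
      have : t = [] := List.length_eq_zero_iff.1 (by omega)
      rw [this]
      unfold cw wind
      simp
    · refine cw_nn4 (wS (pj r 0) ?_ t (pl_pj h hwin hL0 (hF t ht) (hL t ht)))
      obtain ⟨c1, c2, c3⟩ := mem_bd.1 (pj_bd h hwin hL0)
      obtain ⟨p1, p2⟩ := pj_lv h 0
      rw [mem_bd]
      refine ⟨?_, c2, ?_⟩
      · rw [h.hD] at c1
        rw [h.hS]
        obtain ⟨c4, c5, c6, c7⟩ := c1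
        have hl : lv ((pj r 0).1 + (pj r 0).2) = B - 1 := by
          show lv ((pj r 0).1 + up) = B - 1
          rw [lv_add, p1, up_vals.1]
          ring
        exact ⟨c4, c5, c6, by omega, by omega⟩
      · rw [h.hS]
        rintro ⟨-, -, -, h4, -⟩
        omega
  refine sum_pair (Axt t) L (le_trans Axt_le (hL t ht)) (cw t) _ _ ?_ ?_ ?_
  · intro j
    split_ifs
    · exact le_rfl
    · exact hc
  · intro j
    split_ifs
    · exact le_rfl
    · exact hc
  · intro j hj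
    have hAL := le_trans (Axt_le (t := t)) (hL t ht)
    have em : Axt t - 1 - j + 1 = Axt t - j := by omega
    rw [em]
    by_cases h1 : t ∈ ex0 D (pj r j) ∧ ¬ Hit G (pj r j) t
    · by_cases h2 : mir t ∈ ex0 D (Re f (qm r (Axt t - j))) ∧ ¬ Hit G (Re f (qm r (Axt t - j))) (mir t)
      · exfalso
        obtain ⟨h3, h4⟩ := h2
        rw [ex0_Re hDR] at h3
        rw [Hit_Re hGR] at h4
        exact pair h hs hwin (hF t ht) (hL t ht) hj (qm_bd h hT hwin (by omega) (by omega)) h1.1 h1.2 h3 h4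
      · rw [if_pos h1, if_neg h2, zero_add]
    · rw [if_neg h1]
      split_ifs
      · rw [add_zero]
      · linarith

end Main

end LP

end HexObs
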