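import Pool.Agent.HexLoop.Inside

/-!
LOOP module L8: the difference relation for the sticks inside a polygon.
-/

set_option autoImplicit false

namespace HexObs

namespace LP

open Complex Finset

lemma d8_stk {Ω : Finset Pt} {E : Finset (Pt × Pt)} {p : Pt × Pt} {s : List Bool} :
    s ∈ stk Ω E p ↔ Arr0 Ω p s ∧ (∀ i, 1 ≤ i → i ≤ s.length → vx p.1 p.2 s i ∉ VE E) ∧ tp p s ∈ VE E ∧
      le p s ∉ E ∧ rv (le p s) ∉ E := by
  unfold stk
  simp only [Finset.mem_filter, mem_arr0]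

/-- all edges of a walk are edges of the lattice. -/
lemma d8_de {p : Pt × Pt} (hp : De p) (t : List Bool) (i : ℕ) : De (vx p.1 p.2 t i, dx p.2 t i) := by
  obtain ⟨h0, h1, h2⟩ := hp
  have key : ∀ k : ℕ, Vt (vx p.1 p.2 t k) := by
    intro k
    unfold Vt at h1 h2 ⊢
    unfold vx
    rw [cl_vs]
    split
    · exact h1
    · rw [← cl_add]
      exact h2
  exact ⟨ds_mem h0 i, key i, key (i + 1)⟩

/-- the endpoint of an edge inside E that is not a vertex of E is a vertex of the inner domain. -/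
lemma d8_end {Ω : Finset Pt} {E : Finset (Pt × Pt)} (hΩ : Full Ω) (hE : E ∈ polys Ω) {p : Pt × Pt} (hp : De p) :
    EIn E p → (p.1 ∉ inn Ω E ↔ p.1 ∈ VE E) := by
  intro h
  rw [mem_polys] at hE
  constructor
  · intro h1
    by_contra h2
    exact h1 (mem_inn.2 ⟨hΩ.2 E hE.1 hE.2 _ ((ins_edge hE.1 hp h2).2 h), (ins_edge hE.1 hp h2).2 h⟩)
  · intro h1 h2
    exact (mem_inn.1 h2).2.2.1 h1

lemma d8_end' {Ω : Finset Pt} {E : Finset (Pt × Pt)} (hE : E ∈ polys Ω) {p : Pt × Pt} (hp : De p) :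
    ¬ EIn E p → p.1 ∉ inn Ω E := by
  intro h h1
  rw [mem_polys] at hE
  have h2 := (mem_inn.1 h1).2
  exact h ((ins_edge hE.1 hp h2.2.1).1 h2)

lemma d8_rv {p : Pt × Pt} (hp : De p) : De (rv p) := by
  obtain ⟨h0, h1, h2⟩ := hp
  refine ⟨?_, h2, ?_⟩
  · show -p.2 ∈ dirs
    rw [mem_dirs, nrm_neg]
    exact mem_dirs.1 h0
  · show Vt (p.1 + p.2 + -p.2)
    rw [add_neg_cancel_right]
    exact h1

/-- along a walk off E all vertices are on the same side. -/
lemma d8_same {E : Finset (Pt × Pt)} (hE : IsPoly E) {p : Pt × Pt} (hp : De p) (t : List Bool) (n : ℕ)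
    (h : ∀ i, 1 ≤ i → i ≤ n → vx p.1 p.2 t i ∉ VE E) {k : ℕ} (h1 : 1 ≤ k) (h2 : k ≤ n) :
    Ins E (vx p.1 p.2 t k) ↔ Ins E (vx p.1 p.2 t 1) := by
  induction k with
  | zero => omega
  | succ k ih =>
    rcases Nat.eq_zero_or_pos k with h3 | h3
    · rw [h3]
    · have h4 := ins_adj hE (d8_de hp t k) (h k h3 (by omega)) (h (k + 1) (by omega) h2)
      rw [← ih h3 (by omega)]
      exact h4.symm

open Classical in
/-- sticks inside E of positive length = exits of the inner domain of positive length. -/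
lemma d8_mem {Ω : Finset Pt} {E : Finset (Pt × Pt)} (hΩ : Full Ω) (hE : E ∈ polys Ω) {p : Pt × Pt} (hp : De p)
    {t : List Bool} (ht : t ≠ []) :
    (t ∈ (stk Ω E p).filter (fun s => EIn E (le p s))) ↔ t ∈ ex0 (inn Ω E) p := by
  have hE' := mem_polys.1 hE
  have hl : 1 ≤ t.length := by
    rcases Nat.eq_zero_or_pos t.length with h | h
    · exact absurd (List.length_eq_zero_iff.1 h) ht
    · exact h
  have hle : De (le p t) := d8_de hp t t.length
  have htp : (le p t).1 + (le p t).2 = tp p t := rfl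
  rw [Finset.mem_filter, d8_stk, ex0, Finset.mem_filter, mem_arr0]
  constructor
  · rintro ⟨⟨ha, hv, h1, h2, h3⟩, h4⟩
    have h5 : Ins E (le p t).1 := (ins_edge hE'.1 hle (hv _ hl le_rfl)).2 h4
    have h6 : Ins E (vx p.1 p.2 t 1) := (d8_same hE'.1 hp t t.length hv hl le_rfl).1 h5
    refine ⟨⟨?_, ha.inj⟩, ?_⟩
    · intro i hi1 hi2
      exact mem_inn.2 ⟨ha.mem i hi1 hi2, (d8_same hE'.1 hp t t.length hv hi1 hi2).2 h6⟩
    · intro h7
      exact (mem_inn.1 h7).2.2.1 h1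
  · rintro ⟨ha, h1⟩
    have hv : ∀ i, 1 ≤ i → i ≤ t.length → vx p.1 p.2 t i ∉ VE E := by
      intro i hi1 hi2
      exact (mem_inn.1 (ha.mem i hi1 hi2)).2.2.1
    have h5 : Ins E (le p t).1 := (mem_inn.1 (ha.mem _ hl le_rfl)).2
    have h4 : EIn E (le p t) := (ins_edge hE'.1 hle (hv _ hl le_rfl)).1 h5
    refine ⟨⟨⟨?_, ha.inj⟩, hv, ?_, h4.1, h4.2.1⟩, h4⟩
    · intro i hi1 hi2
      exact (mem_inn.1 (ha.mem i hi1 hi2)).1
    · by_contra h6
      apply h1
      have h7 : Ins E (tp p t) := by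
        have := ins_adj hE'.1 hle (hv _ hl le_rfl) (by rw [htp]; exact h6)
        rw [htp] at this
        exact this.1 h5
      exact mem_inn.2 ⟨hΩ.2 E hE'.1 hE'.2 _ h7, h7⟩

/-- a sum over a finite set of words: the empty word apart. -/
lemma d8_split (A : Finset (List Bool)) (F : List Bool → ℂ) :
    ∑ t ∈ A, F t = ∑ t ∈ A.erase [], F t + if [] ∈ A then F [] else 0 := by
  split
  · rename_i h
    rw [Finset.sum_erase_add _ _ h]
  · rename_i h
    rw [Finset.erase_eq_of_notMem h, add_zero]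

open Classical in
/-- sticks inside E: the exits of the inner domain up to the empty word. -/
lemma d8_sin {Ω : Finset Pt} {E : Finset (Pt × Pt)} (hΩ : Full Ω) (hE : E ∈ polys Ω) {p : Pt × Pt} (hp : De p) :
    Sin Ω E p - SS (inn Ω E) p = if EIn E p then 0 else -wt [] := by
  have h0 : ((stk Ω E p).filter (fun s => EIn E (le p s))).erase [] = (ex0 (inn Ω E) p).erase [] := by
    ext t
    rw [Finset.mem_erase, Finset.mem_erase]
    constructor
    · rintro ⟨h1, h2⟩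
      exact ⟨h1, (d8_mem hΩ hE hp h1).1 h2⟩
    · rintro ⟨h1, h2⟩
      exact ⟨h1, (d8_mem hΩ hE hp h1).2 h2⟩
  have h1 : Sin Ω E p = ∑ s ∈ (stk Ω E p).filter (fun s => EIn E (le p s)), wt s := rfl
  have h2 : SS (inn Ω E) p = ∑ s ∈ ex0 (inn Ω E) p, wt s := rfl
  have hnil : ∀ Ω' : Finset Pt, Arr0 Ω' p [] := by
    intro Ω'
    constructor
    · intro i hi1 hi2
      rw [List.length_nil] at hi2
      omega
    · intro i k hi1 hi2 hi3
      rw [List.length_nil] at hi3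
      omega
  have h3 : ([] : List Bool) ∈ (stk Ω E p).filter (fun s => EIn E (le p s)) ↔ (rv p).1 ∈ VE E ∧ EIn E p := by
    rw [Finset.mem_filter, d8_stk]
    constructor
    · rintro ⟨⟨_, _, h4, _, _⟩, h5⟩
      exact ⟨h4, h5⟩
    · rintro ⟨h4, h5⟩
      refine ⟨⟨hnil _, ?_, h4, h5.1, h5.2.1⟩, h5⟩
      intro i hi1 hi2
      rw [List.length_nil] at hi2
      omega
  have h4 : ([] : List Bool) ∈ ex0 (inn Ω E) p ↔ (rv p).1 ∉ inn Ω E := by
    rw [ex0, Finset.mem_filter, mem_arr0]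
    constructor
    · rintro ⟨_, h5⟩
      exact h5
    · intro h5
      exact ⟨hnil _, h5⟩
  have hE' := mem_polys.1 hE
  rw [h1, h2, d8_split _ wt, d8_split (ex0 (inn Ω E) p) wt, h0]
  by_cases h5 : EIn E p
  · have h6 := d8_end hΩ hE (d8_rv hp) ((eIn_rv hE'.1 hp).2 h5)
    rw [if_pos h5]
    by_cases h7 : (rv p).1 ∈ VE E
    · rw [if_pos (h3.2 ⟨h7, h5⟩), if_pos (h4.2 (h6.2 h7))]
      ring
    · rw [if_neg (fun h8 => h7 (h3.1 h8).1), if_neg (fun h8 => h7 (h6.1 (h4.1 h8)))]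
      ring
  · have h6 := d8_end' hE (d8_rv hp) (fun h7 => h5 ((eIn_rv hE'.1 hp).1 h7))
    rw [if_neg h5, if_neg (fun h8 => h5 (h3.1 h8).2), if_pos (h4.2 h6)]
    ring

/-- the difference relation. -/
theorem diff {Ω : Finset Pt} {E : Finset (Pt × Pt)} (hΩ : Full Ω) (hE : E ∈ polys Ω) {p : Pt × Pt} (hp : De p) :
    Sin Ω E p - Sin Ω E (rv p) = SS (inn Ω E) p - SS (inn Ω E) (rv p) := by
  classical
  have h1 := d8_sin hΩ hE hp
  have h2 := d8_sin hΩ hE (d8_rv hp)
  have h3 := eIn_rv (mem_polys.1 hE).1 hp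
  by_cases h4 : EIn E p
  · rw [if_pos h4] at h1
    rw [if_pos (h3.2 h4)] at h2
    linear_combination h1 - h2
  · rw [if_neg h4] at h1
    rw [if_neg (fun h5 => h4 (h3.1 h5))] at h2
    linear_combination h1 - h2

end LP

end HexObs
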