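import Pool.Agent.HexLoop.Bulk
import Pool.Agent.HexLoop.Diff

/-!
LOOP, module L9: the flux through the ray.
-/

set_option autoImplicit false

namespace HexObs

namespace LP

open Complex Finset

section L9

private lemma f9_rv_rv (p : Pt × Pt) : rv (rv p) = p := by
  unfold rv
  ext <;> simp

private lemma f9_cr (f : Pt) (q : Pt × Pt) :
    cr f q = (if cr f q = 1 then (1 : ℤ) else 0) - (if cr f q = -1 then (1 : ℤ) else 0) := by
  have h : cr f q = 1 ∨ cr f q = -1 ∨ cr f q = 0 := by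
    unfold cr
    split_ifs
    · exact Or.inl rfl
    · exact Or.inr (Or.inl rfl)
    · exact Or.inr (Or.inr rfl)
  rcases h with h | h | h <;> rw [h] <;> norm_num

private lemma f9_rv_fst (p : Pt × Pt) : (rv p).1 + (rv p).2 = p.1 := by
  show p.1 + p.2 + -p.2 = p.1
  rw [add_neg_cancel_right]

open Classical in
private lemma f9_count {Ω : Finset Pt} {f : Pt} {R : Finset (Pt × Pt)} (h1 : ∀ p ∈ R, De p ∧ cr f p = 1)
    (h2 : ∀ p, De p → cr f p = 1 → (p.1 ∈ Ω ∨ p.1 + p.2 ∈ Ω) → p ∈ R) {E : Finset (Pt × Pt)} (hE : E ∈ polys Ω) :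
    ∑ p ∈ R, ((if p ∈ E then (1 : ℤ) else 0) - (if rv p ∈ E then (1 : ℤ) else 0)) = Nw E f := by
  rw [mem_polys] at hE
  have hV : ∀ q ∈ E, q.1 ∈ Ω := fun q hq => hE.2 (Finset.mem_image_of_mem Prod.fst hq)
  unfold Nw
  rw [Finset.sum_congr rfl (fun q _ => f9_cr f q), Finset.sum_sub_distrib, Finset.sum_sub_distrib,
    ← Finset.sum_filter, ← Finset.sum_filter, ← Finset.sum_filter, ← Finset.sum_filter]
  congr 1
  · apply Finset.sum_congr
    · ext q
      rw [Finset.mem_filter, Finset.mem_filter]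
      constructor
      · rintro ⟨hq, hqE⟩
        exact ⟨hqE, (h1 q hq).2⟩
      · rintro ⟨hqE, hq⟩
        exact ⟨h2 q (isPoly_de hE.1 hqE) hq (Or.inl (hV q hqE)), hqE⟩
    · intro _ _
      rfl
  · apply Finset.sum_nbij' rv rv
    · intro p hp
      rw [Finset.mem_filter] at hp ⊢
      obtain ⟨h3, h4⟩ := h1 p hp.1
      refine ⟨hp.2, ?_⟩
      rw [cr_rv h3, h4]
    · intro q hq
      rw [Finset.mem_filter] at hq ⊢
      have h3 := isPoly_de hE.1 hq.1
      have h4 : cr f (rv q) = 1 := by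
        rw [cr_rv h3, hq.2]
        rfl
      refine ⟨h2 (rv q) (d8_rv h3) h4 (Or.inr ?_), ?_⟩
      · rw [f9_rv_fst]
        exact hV q hq.1
      · rw [f9_rv_rv]
        exact hq.1
    · intro p _
      exact f9_rv_rv p
    · intro q _
      exact f9_rv_rv q
    · intro _ _
      rfl

open Classical in
private lemma f9_thr {Ω : Finset Pt} (p : Pt × Pt) :
    ∑ E ∈ thr Ω p, (xc : ℂ) ^ E.card * e6 E =
      ∑ E ∈ polys Ω, (xc : ℂ) ^ E.card * e6 E * (if p ∈ E then (1 : ℂ) else 0) := by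
  unfold thr
  rw [Finset.sum_filter]
  apply Finset.sum_congr rfl
  intro E _
  by_cases h : p ∈ E
  · simp [h]
  · simp [h]

private lemma f9_e6 (E : Finset (Pt × Pt)) : e6 E = -((Real.sqrt 2 / 2 : ℝ) : ℂ) + ((Real.sqrt 2 / 2 : ℝ) : ℂ) * I * (sg E : ℂ) := by
  unfold e6
  have hc : Real.cos (6 * (Real.pi / 8)) = -(Real.sqrt 2 / 2) := by
    have : 6 * (Real.pi / 8) = Real.pi - Real.pi / 4 := by ring
    rw [this, Real.cos_pi_sub, Real.cos_pi_div_four]
  have hs : Real.sin (6 * (Real.pi / 8)) = Real.sqrt 2 / 2 := by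
    have : 6 * (Real.pi / 8) = Real.pi - Real.pi / 4 := by ring
    rw [this, Real.sin_pi_sub, Real.sin_pi_div_four]
  rcases sg_cases E with h | h
  · rw [h]
    have e : (((6 * (1 : ℤ) : ℤ) : ℝ) : ℂ) * ((Real.pi : ℂ) / 8) * I = ((6 * (Real.pi / 8) : ℝ) : ℂ) * I := by
      push_cast
      ring
    have e' : Complex.exp ((((6 * (1 : ℤ) : ℤ) : ℝ) : ℂ) * ((Real.pi : ℂ) / 8) * I) =
        Complex.exp (((6 * (Real.pi / 8) : ℝ) : ℂ) * I) := by rw [e]
    rw [e', Complex.exp_mul_I, ← Complex.ofReal_cos, ← Complex.ofReal_sin, hc, hs]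
    push_cast
    ring
  · rw [h]
    have e : (((6 * (-1 : ℤ) : ℤ) : ℝ) : ℂ) * ((Real.pi : ℂ) / 8) * I = ((-(6 * (Real.pi / 8)) : ℝ) : ℂ) * I := by
      push_cast
      ring
    have e' : Complex.exp ((((6 * (-1 : ℤ) : ℤ) : ℝ) : ℂ) * ((Real.pi : ℂ) / 8) * I) =
        Complex.exp (((-(6 * (Real.pi / 8)) : ℝ) : ℂ) * I) := by rw [e]
    rw [e', Complex.exp_mul_I, ← Complex.ofReal_cos, ← Complex.ofReal_sin, Real.cos_neg, Real.sin_neg, hc, hs]
    push_cast
    ring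

/-- the through polygons. -/
private lemma f9_first {Ω : Finset Pt} {f : Pt} (hf : Fc f) :
    ∑ E ∈ polys Ω, (xc : ℂ) ^ E.card * e6 E * (Nw E f : ℂ) =
      (((Real.sqrt 2 / 2) * ∑ E ∈ polys Ω, xc ^ E.card * |(Nw E f : ℝ)| : ℝ) : ℂ) * I := by
  have h1 : ∑ E ∈ polys Ω, (xc : ℂ) ^ E.card * (Nw E f : ℂ) = 0 := by
    have h2 : ∑ E ∈ polys Ω, (xc : ℂ) ^ E.card * (Nw E f : ℂ) =
        ∑ E ∈ polys Ω, -((xc : ℂ) ^ E.card * (Nw E f : ℂ)) := by
      apply Finset.sum_nbij' rE rE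
      · intro E hE
        rw [mem_polys] at hE ⊢
        exact ⟨isPoly_rE hE.1, by rw [VE_rE hE.1]; exact hE.2⟩
      · intro E hE
        rw [mem_polys] at hE ⊢
        exact ⟨isPoly_rE hE.1, by rw [VE_rE hE.1]; exact hE.2⟩
      · intro E _
        exact rE_rE E
      · intro E _
        exact rE_rE E
      · intro E hE
        rw [mem_polys] at hE
        rw [card_rE, Nw_rE hE.1]
        push_cast
        ring
    rw [Finset.sum_neg_distrib] at h2
    linear_combination (1 / 2 : ℂ) * h2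
  have h3 : ∀ E ∈ polys Ω, (xc : ℂ) ^ E.card * e6 E * (Nw E f : ℂ) =
      -((Real.sqrt 2 / 2 : ℝ) : ℂ) * ((xc : ℂ) ^ E.card * (Nw E f : ℂ)) +
        ((Real.sqrt 2 / 2 : ℝ) : ℂ) * I * ((xc : ℂ) ^ E.card * ((|(Nw E f : ℝ)| : ℝ) : ℂ)) := by
    intro E hE
    rw [mem_polys] at hE
    have h4 : (sg E : ℂ) * (Nw E f : ℂ) = ((|(Nw E f : ℝ)| : ℝ) : ℂ) := by
      rcases Nw_cases hE.1 hf with h | h
      · rw [h]
        simp
      · rw [h]
        rcases sg_cases E with h5 | h5 <;> rw [h5] <;> norm_num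
    rw [f9_e6, ← h4]
    ring
  rw [Finset.sum_congr rfl h3, Finset.sum_add_distrib, ← Finset.mul_sum, ← Finset.mul_sum, h1, mul_zero, zero_add]
  push_cast
  ring

/-- one step. -/
private lemma f9_step {Ω : Finset Pt} (hΩ : Full Ω) {f : Pt} (hf : Fc f) (R : Finset (Pt × Pt))
    (h1 : ∀ p ∈ R, De p ∧ cr f p = 1)
    (h2 : ∀ p, De p → cr f p = 1 → (p.1 ∈ Ω ∨ p.1 + p.2 ∈ Ω) → p ∈ R) :
    ∑ p ∈ R, (SS Ω p - SS Ω (rv p)) =
      -((((Real.sqrt 2 / 2) * ∑ E ∈ polys Ω, xc ^ E.card * |(Nw E f : ℝ)| : ℝ) : ℂ) * I) +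
        ∑ E ∈ polys Ω, (xc : ℂ) ^ E.card * ∑ p ∈ R, (SS (inn Ω E) p - SS (inn Ω E) (rv p)) := by
  classical
  have h3 : ∀ p ∈ R, SS Ω p - SS Ω (rv p) =
      -(∑ E ∈ polys Ω, (xc : ℂ) ^ E.card * e6 E * (((if p ∈ E then (1 : ℤ) else 0) -
        (if rv p ∈ E then (1 : ℤ) else 0) : ℤ) : ℂ)) +
        ∑ E ∈ polys Ω, (xc : ℂ) ^ E.card * (SS (inn Ω E) p - SS (inn Ω E) (rv p)) := by
    intro p hp
    have h4 := (h1 p hp).1
    rw [bulk hΩ.1 h4, bulk hΩ.1 (d8_rv h4), f9_thr, f9_thr]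
    have h5 : ∑ E ∈ polys Ω, (xc : ℂ) ^ E.card * (SS (inn Ω E) p - SS (inn Ω E) (rv p)) =
        ∑ E ∈ polys Ω, (xc : ℂ) ^ E.card * Sin Ω E p - ∑ E ∈ polys Ω, (xc : ℂ) ^ E.card * Sin Ω E (rv p) := by
      rw [← Finset.sum_sub_distrib]
      apply Finset.sum_congr rfl
      intro E hE
      rw [← diff hΩ hE h4]
      ring
    have h6 : ∑ E ∈ polys Ω, (xc : ℂ) ^ E.card * e6 E * (((if p ∈ E then (1 : ℤ) else 0) -
        (if rv p ∈ E then (1 : ℤ) else 0) : ℤ) : ℂ) =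
        ∑ E ∈ polys Ω, (xc : ℂ) ^ E.card * e6 E * (if p ∈ E then (1 : ℂ) else 0) -
          ∑ E ∈ polys Ω, (xc : ℂ) ^ E.card * e6 E * (if rv p ∈ E then (1 : ℂ) else 0) := by
      rw [← Finset.sum_sub_distrib]
      apply Finset.sum_congr rfl
      intro E _
      push_cast
      ring
    rw [h5, h6]
    ring
  rw [Finset.sum_congr rfl h3, Finset.sum_add_distrib, Finset.sum_neg_distrib]
  congr 1
  · rw [← f9_first hf, Finset.sum_comm]
    congr 1
    apply Finset.sum_congr rfl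
    intro E hE
    rw [← Finset.mul_sum, ← f9_count h1 h2 hE]
    push_cast
    rfl
  · rw [Finset.sum_comm]
    apply Finset.sum_congr rfl
    intro E _
    rw [Finset.mul_sum]

/-- the flux through the ray has the sign of -i. -/
theorem flux {Ω : Finset Pt} (hΩ : Full Ω) {f : Pt} (hf : Fc f) (R : Finset (Pt × Pt))
    (h1 : ∀ p ∈ R, De p ∧ cr f p = 1)
    (h2 : ∀ p, De p → cr f p = 1 → (p.1 ∈ Ω ∨ p.1 + p.2 ∈ Ω) → p ∈ R) :
    ∃ g : ℝ, 0 ≤ g ∧ ∑ p ∈ R, (SS Ω p - SS Ω (rv p)) = -(g : ℂ) * I := by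
  classical
  have key : ∀ n : ℕ, ∀ Ω : Finset Pt, Ω.card ≤ n → Full Ω →
      (∀ p, De p → cr f p = 1 → (p.1 ∈ Ω ∨ p.1 + p.2 ∈ Ω) → p ∈ R) →
      ∃ g : ℝ, 0 ≤ g ∧ ∑ p ∈ R, (SS Ω p - SS Ω (rv p)) = -(g : ℂ) * I := by
    intro n
    induction n with
    | zero =>
      intro Ω hn hΩ h2
      have he : polys Ω = ∅ := by
        rw [Finset.eq_empty_iff_forall_notMem]
        intro E hE
        have := inn_card hE
        omega
      refine ⟨0, le_refl _, ?_⟩
      rw [f9_step hΩ hf R h1 h2, he]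
      simp
    | succ n ih =>
      intro Ω hn hΩ h2
      have h3 : ∀ E ∈ polys Ω, ∃ g : ℝ, 0 ≤ g ∧
          ∑ p ∈ R, (SS (inn Ω E) p - SS (inn Ω E) (rv p)) = -(g : ℂ) * I := by
        intro E hE
        apply ih (inn Ω E) (by have := inn_card hE; omega) (full_inn hΩ hE)
        intro p hp hcr hor
        apply h2 p hp hcr
        rcases hor with h | h
        · exact Or.inl (mem_inn.1 h).1
        · exact Or.inr (mem_inn.1 h).1
      choose! G hG0 hG using h3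
      refine ⟨(Real.sqrt 2 / 2) * ∑ E ∈ polys Ω, xc ^ E.card * |(Nw E f : ℝ)| +
        ∑ E ∈ polys Ω, xc ^ E.card * G E, ?_, ?_⟩
      · apply add_nonneg
        · apply mul_nonneg (by positivity)
          apply Finset.sum_nonneg
          intro E _
          exact mul_nonneg (pow_nonneg xc_pos.le _) (abs_nonneg _)
        · apply Finset.sum_nonneg
          intro E hE
          exact mul_nonneg (pow_nonneg xc_pos.le _) (hG0 E hE)
      · rw [f9_step hΩ hf R h1 h2]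
        have h4 : ∑ E ∈ polys Ω, (xc : ℂ) ^ E.card * ∑ p ∈ R, (SS (inn Ω E) p - SS (inn Ω E) (rv p)) =
            -((∑ E ∈ polys Ω, xc ^ E.card * G E : ℝ) : ℂ) * I := by
          rw [Finset.sum_congr rfl (fun E hE => by rw [hG E hE])]
          push_cast
          rw [neg_mul, Finset.sum_mul, ← Finset.sum_neg_distrib]
          apply Finset.sum_congr rfl
          intro E _
          ring
        rw [h4]
        push_cast
        ring
  exact key Ω.card Ω (le_refl _) hΩ h2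

end L9

end LP

end HexObs
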