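import Pool.Agent.HexLoop.DefsC
import Pool.Agent.RSWP.WedgeUp

/-!
LOOP, module L14a: walks through a gate at distance r.
-/

set_option autoImplicit false

namespace HexObs

namespace LP

open Complex Finset

lemma gt_false {T L r : ℕ} (hT : 1 ≤ T) (hL : 1 ≤ L) (hr : 1 ≤ r) :
    Tube.wS (Tube.gE Tube.upm oo false T L r) ≤ 6001 * bT (min r T) * Tube.q0 ^ (r / T) := by
  classical
  have hq := Tube.q0_pos
  rcases Nat.lt_or_ge r T with h | h
  · rw [Nat.div_eq_of_lt h, pow_zero, mul_one, min_eq_left h.le]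
    have e1 := Tube.gE_split Tube.upm oo false T r L r
    have e2 := Tube.gate_first Tube.upm oo hr h.le hL hr
    have e3 := RP.P8_top hr hL hr
    have e4 := RP.P8_far hr hL (le_refl r)
    have e5 := Real.cos_le_one (Real.pi / 8)
    have e7 := bT_nonneg r
    have e6 : 0 ≤ Real.cos (Real.pi / 8) := cos_pos.le
    have e8 : Real.cos (Real.pi / 8) * Ex (Tube.dF Tube.upm oo false r L r) oo up up ≤ bT r := by
      calc _ ≤ Real.cos (Real.pi / 8) * bT r := mul_le_mul_of_nonneg_left e3 e6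
        _ ≤ 1 * bT r := mul_le_mul_of_nonneg_right e5 e7
        _ = bT r := one_mul _
    linarith
  · rw [min_eq_right h]
    have hm : 1 ≤ r / T := (Nat.one_le_div_iff (by omega)).2 h
    have h1 := Tube.z_anti Tube.upm oo hT hL (Nat.mul_pos hm hT) (Nat.div_mul_le_self r T)
    have h2 := Tube.lat_fin T hT (r / T) L hm hL
    have h5 := bT_nonneg T
    have h6 : 0 ≤ Tube.q0 ^ (r / T) := pow_nonneg hq.le _
    have h7 : 0 ≤ bT T * Tube.q0 ^ (r / T) := mul_nonneg h5 h6
    calc _ ≤ _ := h1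
      _ ≤ 6000 * Tube.q0 ^ (r / T) * bT T := h2
      _ = 6000 * (bT T * Tube.q0 ^ (r / T)) := by ring
      _ ≤ 6001 * (bT T * Tube.q0 ^ (r / T)) := by linarith
      _ = _ := by ring

/-- walks through a gate at distance r: one constant for both gates. -/
theorem gate_bound : ∃ C q : ℝ, 0 < C ∧ 0 < q ∧ q < 1 ∧ ∀ (k : Bool) (T L r : ℕ), 1 ≤ T → 1 ≤ L → 1 ≤ r →
    Tube.wS (Tube.gE upd oo k T L r) ≤ C * uu (min r T) * q ^ (r / T) := by
  have hc : 0 < Real.cos (Real.pi / 8) := cos_pos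
  have hc1 := Real.cos_le_one (Real.pi / 8)
  have hq := Tube.q0_pos
  refine ⟨6001 / Real.cos (Real.pi / 8), Tube.q0, by positivity, hq, by linarith [Tube.q0_lt],
    fun k T L r hT hL hr => ?_⟩
  have h1 := gt_false hT hL hr
  have hm : 1 ≤ min r T := le_min hr hT
  rw [← uu_eq hm] at h1
  have h0 : 0 ≤ uu (min r T) * Tube.q0 ^ (r / T) := by
    rw [uu_eq hm]
    exact mul_nonneg (bT_nonneg _) (pow_nonneg hq.le _)
  have e : 6001 / Real.cos (Real.pi / 8) * uu (min r T) * Tube.q0 ^ (r / T) =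
      6001 * (uu (min r T) * Tube.q0 ^ (r / T)) / Real.cos (Real.pi / 8) := by ring
  rw [e, le_div_iff₀ hc]
  have h2 : Tube.wS (Tube.gE Tube.upm oo false T L r) ≤ 6001 * (uu (min r T) * Tube.q0 ^ (r / T)) := by
    rw [← mul_assoc]
    exact h1
  have hw : 0 ≤ Tube.wS (Tube.gE Tube.upm oo false T L r) := Tube.wS_nonneg _
  cases k with
  | false =>
    refine le_trans ?_ h2
    have : Tube.wS (Tube.gE Tube.upm oo false T L r) * Real.cos (Real.pi / 8) ≤
        Tube.wS (Tube.gE Tube.upm oo false T L r) * 1 := mul_le_mul_of_nonneg_left hc1 hw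
    rw [mul_one] at this
    exact this
  | true =>
    refine le_trans ?_ h2
    have h3 := Tube.st1 Tube.upm oo hT hL hr
    rw [mul_comm] at h3
    exact h3

end LP

end HexObs
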