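import Pool.Agent.HexLoop.SD1c
import Pool.Agent.HexLoop.Clo

/-!
SD, part A: Hadamard's formula.
-/

set_option autoImplicit false

namespace HexObs

namespace LP

open Complex Finset

namespace SD

/-- HH by the sticks. -/
theorem HH_stk {Ω : Finset Pt} (hΩ : Full Ω) {E : Finset (Pt × Pt)} (hE : E ∈ polys Ω) :
    HH Ω (VE E) = ∑ a ∈ bd Ω, ∑ s ∈ stk Ω E a, (wt s).re := by
  classical
  unfold HH
  apply Finset.sum_congr rfl
  intro a ha
  obtain ⟨_, ha2, ha3⟩ := mem_bd.1 ha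
  have h := congrArg Complex.re (TW.stk_wt hΩ hE ha2 ha3)
  rw [Complex.re_sum, Complex.re_sum] at h
  rw [h]
  apply Finset.sum_congr _ (fun t _ => (wt_re t).symm)
  congr 1

theorem stk_at {Ω : Finset Pt} {E : Finset (Pt × Pt)} (hE : E ∈ polys Ω) {a : Pt × Pt} (ha : a ∈ bd Ω)
    (h : a.1 + a.2 ∈ VE E) : stk Ω E a = {[]} := by
  classical
  obtain ⟨hP, hV⟩ := mem_polys.1 hE
  obtain ⟨ha1, ha2, ha3⟩ := mem_bd.1 ha
  ext s
  rw [Finset.mem_singleton, mem_stk]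
  constructor
  · rintro ⟨_, h2, _⟩
    by_contra hs
    have h3 : 1 ≤ s.length := List.length_pos_iff.2 hs
    exact h2 1 le_rfl h3 h
  · rintro rfl
    refine ⟨⟨?_, ?_⟩, ?_, h, ?_, ?_⟩
    · intro i h1 h2
      simp only [List.length_nil] at h2
      omega
    · intro i k h1 h2 h3
      simp only [List.length_nil] at h3
      omega
    · intro i h1 h2
      simp only [List.length_nil] at h2
      omega
    · intro h1
      have h2 : a ∈ E := h1
      exact ha3 (hV (Finset.mem_image_of_mem _ h2))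
    · intro h1
      have h2 : rv a ∈ E := h1
      obtain ⟨b, hb⟩ := isPoly_next hP h2
      have e : (rv a).1 + (rv a).2 = a.1 := by
        show a.1 + a.2 + -a.2 = a.1
        rw [add_neg_cancel_right]
      rw [e] at hb
      exact ha3 (hV (Finset.mem_image.2 ⟨_, hb, rfl⟩))

/-- a vertex of a polygon has at most one outer edge. -/
theorem outer_one {Ω : Finset Pt} {E : Finset (Pt × Pt)} (hE : E ∈ polys Ω) {v : Pt} (hv : v ∈ VE E) {a b : Pt × Pt}
    (ha : a ∈ bd Ω) (hb : b ∈ bd Ω) (hav : a.1 + a.2 = v) (hbv : b.1 + b.2 = v) : a = b := by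
  obtain ⟨hP, hV⟩ := mem_polys.1 hE
  obtain ⟨_, ha2, ha3⟩ := mem_bd.1 ha
  obtain ⟨_, hb2, hb3⟩ := mem_bd.1 hb
  obtain ⟨d, c, h1, h2⟩ := isPoly_prev hP hv
  have hd := (isPoly_de hP h1)
  have hd' := (isPoly_de hP h2)
  have n1 : v + -d ∈ Ω := by
    rw [← sub_eq_add_neg]
    exact hV (Finset.mem_image.2 ⟨_, h1, rfl⟩)
  have n2 : v + turn c d ∈ Ω := by
    obtain ⟨c', h3⟩ := isPoly_next hP h2
    exact hV (Finset.mem_image.2 ⟨_, h3, rfl⟩)
  have e1 : De (v, -d) := by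
    have := de_back hd
    simp only at this
    rwa [sub_add_cancel] at this
  have e3 : De (v, -a.2) := by
    have := de_back ha2
    rwa [hav] at this
  have e4 : De (v, -b.2) := by
    have := de_back hb2
    rwa [hbv] at this
  have w3 : a.1 = v + -a.2 := by
    rw [← hav]
    abel
  have w4 : b.1 = v + -b.2 := by
    rw [← hbv]
    abel
  have hne : ∀ d ∈ dirs, ∀ c : Bool, -d ≠ turn c d := by decide
  have m1 : -d ≠ -a.2 := by
    intro h
    rw [h, ← w3] at n1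
    exact ha3 n1
  have m2 : turn c d ≠ -a.2 := by
    intro h
    rw [h, ← w3] at n2
    exact ha3 n2
  rcases dir3 (-d) e1.1 (turn c d) hd'.1 (-a.2) e3.1 (-b.2) e4.1 (de_cl2 e1 e4) (de_cl2 hd' e4) (de_cl2 e3 e4)
    (hne d hd.1 c) m1 m2 with h | h | h
  · rw [w4, h] at hb3
    exact absurd n1 hb3
  · rw [w4, h] at hb3
    exact absurd n2 hb3
  · have h5 : a.2 = b.2 := (neg_injective h).symm
    refine Prod.ext ?_ h5
    rw [w3, w4, h5]

theorem wt_rev_im (t : List Bool) : (wt (rev t)).im = -(wt t).im := by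
  rw [wt_im, wt_im, wind_rev, rev_length]
  push_cast
  rw [neg_mul, Real.sin_neg]
  ring

theorem tp_rev (a : Pt × Pt) (t : List Bool) : tp (rv (le a t)) (rev t) = a.1 := by
  unfold tp tip
  rw [rev_length, vx_rev0 t _ le_rfl, Nat.sub_self]
  rfl

theorem ex0_avoid {Ω : Finset Pt} {v : Pt} (hv : v ∉ Ω) (a : Pt × Pt) {t : List Bool} :
    (t ∈ ex0 (insert v Ω) a ∧ v ∉ vst a t) ↔ (t ∈ ex0 Ω a ∧ tp a t ≠ v) := by
  rw [mem_ex0, mem_ex0]
  constructor
  · rintro ⟨⟨h1, h2⟩, h3⟩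
    refine ⟨⟨⟨?_, h1.inj⟩, fun h => h2 (Finset.mem_insert_of_mem h)⟩, fun h => h2 (by rw [h]; exact Finset.mem_insert_self _ _)⟩
    intro i i1 i2
    rcases Finset.mem_insert.1 (h1.mem i i1 i2) with h | h
    · exact absurd (mem_vst.2 ⟨i, i1, i2, h⟩) h3
    · exact h
  · rintro ⟨⟨h1, h2⟩, h3⟩
    refine ⟨⟨⟨fun i i1 i2 => Finset.mem_insert_of_mem (h1.mem i i1 i2), h1.inj⟩, ?_⟩, ?_⟩
    · intro h
      rcases Finset.mem_insert.1 h with h | h
      · exact h3 h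
      · exact h2 h
    · intro h
      obtain ⟨i, i1, i2, i3⟩ := mem_vst.1 h
      apply hv
      rw [← i3]
      exact h1.mem i i1 i2

theorem bd_filter {Ω : Finset Pt} {v : Pt} (hv : v ∉ Ω) [DecidablePred (fun a : Pt × Pt => a.1 ≠ v)]
    [DecidablePred (fun a : Pt × Pt => a.1 + a.2 ≠ v)] :
    (bd (insert v Ω)).filter (fun a => a.1 + a.2 ≠ v) = (bd Ω).filter (fun a => a.1 ≠ v) := by
  ext a
  rw [Finset.mem_filter, Finset.mem_filter, mem_bd, mem_bd]
  constructor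
  · rintro ⟨⟨h1, h2, h3⟩, h4⟩
    rcases Finset.mem_insert.1 h1 with h | h
    · exact absurd h h4
    · exact ⟨⟨h, h2, fun h5 => h3 (Finset.mem_insert_of_mem h5)⟩, fun h5 => h3 (by rw [h5]; exact Finset.mem_insert_self _ _)⟩
  · rintro ⟨⟨h1, h2, h3⟩, h4⟩
    refine ⟨⟨Finset.mem_insert_of_mem h1, h2, fun h5 => ?_⟩, fun h5 => hv (by rwa [h5] at h1)⟩
    rcases Finset.mem_insert.1 h5 with h | h
    · exact h4 h
    · exact h3 h

open Classical in
/-- the walks of a domain with an end at v. -/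
theorem sum_ends {Ω : Finset Pt} (hΩ : ∀ w ∈ Ω, Vt w) (v f : Pt) :
    ∑ a ∈ bd Ω, ∑ t ∈ ex0 Ω a, (NN f a t : ℝ) * (wt t).im =
      ∑ a ∈ (bd Ω).filter (fun a => a.1 ≠ v), ∑ t ∈ (ex0 Ω a).filter (fun t => tp a t ≠ v), (NN f a t : ℝ) * (wt t).im +
      2 * ∑ a ∈ (bd Ω).filter (fun a => a.1 ≠ v), ∑ t ∈ (ex0 Ω a).filter (fun t => tp a t = v),
        (NN f a t : ℝ) * (wt t).im +
      ∑ a ∈ (bd Ω).filter (fun a => a.1 = v), ∑ t ∈ (ex0 Ω a).filter (fun t => tp a t = v),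
        (NN f a t : ℝ) * (wt t).im := by
  have hR := rev_ex hΩ (fun a t => if a.1 = v ∧ tp a t ≠ v then (NN f a t : ℝ) * (wt t).im else 0)
  have h1 : ∑ a ∈ bd Ω, ∑ t ∈ ex0 Ω a, (if (rv (le a t)).1 = v ∧ tp (rv (le a t)) (rev t) ≠ v then
      (NN f (rv (le a t)) (rev t) : ℝ) * (wt (rev t)).im else 0) =
      ∑ a ∈ bd Ω, ∑ t ∈ ex0 Ω a, (if a.1 ≠ v ∧ tp a t = v then (NN f a t : ℝ) * (wt t).im else 0) := by
    apply Finset.sum_congr rfl
    intro a ha
    apply Finset.sum_congr rfl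
    intro t _
    have e1 : (rv (le a t)).1 = tp a t := rfl
    rw [tp_rev, e1, NN_rev (fun i _ => de_vx (mem_bd.1 ha).2.1 t i), wt_rev_im]
    by_cases c : tp a t = v ∧ a.1 ≠ v
    · rw [if_pos c, if_pos ⟨c.2, c.1⟩]
      push_cast
      ring
    · rw [if_neg c, if_neg (fun h => c ⟨h.2, h.1⟩)]
  rw [h1] at hR
  have key : ∀ (P : Pt × Pt → Prop) (_ : DecidablePred P) (Q : Pt × Pt → List Bool → Prop)
      (_ : ∀ a, DecidablePred (Q a)), ∑ a ∈ (bd Ω).filter P, ∑ t ∈ (ex0 Ω a).filter (Q a), (NN f a t : ℝ) * (wt t).im =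
        ∑ a ∈ bd Ω, ∑ t ∈ ex0 Ω a, (if P a ∧ Q a t then (NN f a t : ℝ) * (wt t).im else 0) := by
    intro P _ Q _
    rw [Finset.sum_filter]
    apply Finset.sum_congr rfl
    intro a _
    split_ifs with h
    · rw [Finset.sum_filter]
      apply Finset.sum_congr rfl
      intro t _
      by_cases c : Q a t
      · rw [if_pos c, if_pos ⟨h, c⟩]
      · rw [if_neg c, if_neg (fun h => c h.2)]
    · symm
      apply Finset.sum_eq_zero
      intro t _
      rw [if_neg (fun h' => h h'.1)]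
  rw [key (fun a => a.1 ≠ v) _ (fun a t => tp a t ≠ v) _, key (fun a => a.1 ≠ v) _ (fun a t => tp a t = v) _,
    key (fun a => a.1 = v) _ (fun a t => tp a t = v) _]
  have h2 : ∑ a ∈ bd Ω, ∑ t ∈ ex0 Ω a, (NN f a t : ℝ) * (wt t).im =
      ∑ a ∈ bd Ω, ∑ t ∈ ex0 Ω a, (if a.1 ≠ v ∧ tp a t ≠ v then (NN f a t : ℝ) * (wt t).im else 0) +
      ∑ a ∈ bd Ω, ∑ t ∈ ex0 Ω a, (if a.1 ≠ v ∧ tp a t = v then (NN f a t : ℝ) * (wt t).im else 0) +
      ∑ a ∈ bd Ω, ∑ t ∈ ex0 Ω a, (if a.1 = v ∧ tp a t ≠ v then (NN f a t : ℝ) * (wt t).im else 0) +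
      ∑ a ∈ bd Ω, ∑ t ∈ ex0 Ω a, (if a.1 = v ∧ tp a t = v then (NN f a t : ℝ) * (wt t).im else 0) := by
    rw [← Finset.sum_add_distrib, ← Finset.sum_add_distrib, ← Finset.sum_add_distrib]
    apply Finset.sum_congr rfl
    intro a _
    rw [← Finset.sum_add_distrib, ← Finset.sum_add_distrib, ← Finset.sum_add_distrib]
    apply Finset.sum_congr rfl
    intro t _
    by_cases c1 : a.1 = v <;> by_cases c2 : tp a t = v <;> simp [c1, c2]
  rw [h2, hR]
  ring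

open Classical in
/-- the walks of a domain through the vertex v. -/
theorem sum_thr {Ω : Finset Pt} (hΩ : ∀ w ∈ Ω, Vt w) (v f : Pt) :
    ∑ a ∈ bd Ω, ∑ t ∈ ex0 Ω a, (NN f a t : ℝ) * (wt t).im =
      ∑ a ∈ bd Ω, ∑ t ∈ (ex0 Ω a).filter (fun t => v ∉ vst a t), (NN f a t : ℝ) * (wt t).im +
      2 * ∑ a ∈ bd Ω, ∑ t ∈ ex0 Ω a, (NB f v a t : ℝ) * (wt t).im := by
  have hR := rev_ex hΩ (fun a t => (NB f v a t : ℝ) * (wt t).im)
  have h1 : ∀ a ∈ bd Ω, ∀ t ∈ ex0 Ω a, (NN f a t : ℝ) * (wt t).im =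
      (if v ∉ vst a t then (NN f a t : ℝ) * (wt t).im else 0) + (NB f v a t : ℝ) * (wt t).im +
        (NB f v (rv (le a t)) (rev t) : ℝ) * (wt (rev t)).im := by
    intro a ha t ht
    by_cases c : v ∈ vst a t
    · rw [if_neg (not_not.2 c), NB_rev (mem_bd.1 ha).2.1 (mem_ex0.1 ht).1 c, wt_rev_im]
      push_cast
      ring
    · rw [if_pos c, NB_zero c, NB_zero]
      · push_cast
        ring
      · intro h
        obtain ⟨i, i1, i2, i3⟩ := mem_vst.1 h
        rw [rev_length] at i2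
        rw [vx_rev0 t i (by omega)] at i3
        exact c (mem_vst.2 ⟨_, by omega, by omega, i3⟩)
  have h2 : ∑ a ∈ bd Ω, ∑ t ∈ ex0 Ω a, (NN f a t : ℝ) * (wt t).im =
      ∑ a ∈ bd Ω, ∑ t ∈ (ex0 Ω a).filter (fun t => v ∉ vst a t), (NN f a t : ℝ) * (wt t).im +
      ∑ a ∈ bd Ω, ∑ t ∈ ex0 Ω a, (NB f v a t : ℝ) * (wt t).im +
      ∑ a ∈ bd Ω, ∑ t ∈ ex0 Ω a, (NB f v (rv (le a t)) (rev t) : ℝ) * (wt (rev t)).im := by
    rw [← Finset.sum_add_distrib, ← Finset.sum_add_distrib]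
    apply Finset.sum_congr rfl
    intro a ha
    rw [Finset.sum_filter, ← Finset.sum_add_distrib, ← Finset.sum_add_distrib]
    exact Finset.sum_congr rfl (fun t ht => h1 a ha t ht)
  rw [h2, ← hR]
  ring

lemma s3_ge : xc ≤ Real.sin (3 * Real.pi / 8) := by
  have h1 : Real.sin (3 * Real.pi / 8) = Real.cos (Real.pi / 8) := by
    rw [← Real.cos_pi_div_two_sub]
    congr 1
    ring
  rw [h1]
  unfold xc
  have h2 := cos_pos
  have h3 : Real.cos (Real.pi / 4) ≤ Real.cos (Real.pi / 8) := by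
    apply Real.cos_le_cos_of_nonneg_of_le_pi
    · linarith [Real.pi_pos]
    · linarith [Real.pi_pos]
    · linarith [Real.pi_pos]
  rw [Real.cos_pi_div_four] at h3
  have h4 : (1 : ℝ) ≤ 2 * Real.cos (Real.pi / 8) * Real.cos (Real.pi / 8) := by
    have h5 : Real.sqrt 2 / 2 * (Real.sqrt 2 / 2) ≤ Real.cos (Real.pi / 8) * Real.cos (Real.pi / 8) :=
      mul_self_le_mul_self (by positivity) h3
    have h6 : Real.sqrt 2 * Real.sqrt 2 = 2 := Real.mul_self_sqrt (by norm_num)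
    nlinarith
  rw [div_le_iff₀ (by positivity)]
  linarith

open Classical in
/-- HADAMARD'S FORMULA: v is a boundary vertex. -/
theorem dQ_eq {Ω : Finset Pt} {v : Pt} (hΩ : Full (insert v Ω)) (hv : v ∉ Ω)
    (hb : ∃ a ∈ bd (insert v Ω), a.1 + a.2 = v) {f : Pt} (hf : Fc f)
    (hcr : ∀ a ∈ bd (insert v Ω), a.1 + a.2 = v → cr f a = 0) :
    QQ (insert v Ω) f - QQ Ω f =
      ∑ E ∈ (polys (insert v Ω)).filter (fun E => v ∈ VE E ∧ Nw E f ≠ 0),
        (xc ^ E.card * (HH (insert v Ω) (VE E) - 1) + Real.sin (3 * Real.pi / 8) * xc ^ (E.card - 1)) := by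
  have hΩ0 := full_erase hΩ hv hb
  have qq : ∀ W : Finset Pt, QQ W f = -∑ a ∈ bd W, ∑ t ∈ ex0 W a, (NN f a t : ℝ) * (wt t).im := by
    intro W
    unfold QQ
    congr 1
    apply Finset.sum_congr rfl
    intro a _
    apply Finset.sum_congr rfl
    intro t _
    rw [wt_im]
    ring
  rw [qq, qq, sum_ends hΩ0.1 v f, sum_thr hΩ.1 v f, sd_clo hΩ hv hb hf]
  -- the walks that avoid v
  have e1 : ∑ a ∈ bd (insert v Ω), ∑ t ∈ (ex0 (insert v Ω) a).filter (fun t => v ∉ vst a t),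
      (NN f a t : ℝ) * (wt t).im = ∑ a ∈ (bd Ω).filter (fun a => a.1 ≠ v),
        ∑ t ∈ (ex0 Ω a).filter (fun t => tp a t ≠ v), (NN f a t : ℝ) * (wt t).im := by
    rw [← Finset.sum_filter_add_sum_filter_not (bd (insert v Ω)) (fun a => a.1 + a.2 ≠ v), bd_filter hv]
    have h1 : ∑ a ∈ (bd (insert v Ω)).filter (fun a => ¬ (a.1 + a.2 ≠ v)),
        ∑ t ∈ (ex0 (insert v Ω) a).filter (fun t => v ∉ vst a t), (NN f a t : ℝ) * (wt t).im = 0 := by
      apply Finset.sum_eq_zero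
      intro a ha
      obtain ⟨ha1, ha2⟩ := Finset.mem_filter.1 ha
      rw [not_not] at ha2
      apply Finset.sum_eq_zero
      intro t ht
      exfalso
      obtain ⟨h2, h3⟩ := Finset.mem_filter.1 ht
      obtain ⟨h4, h5⟩ := mem_ex0.1 h2
      rcases Nat.eq_zero_or_pos t.length with h0 | h0
      · apply h5
        rw [List.length_eq_zero_iff.1 h0]
        exact (mem_bd.1 ha1).1
      · exact h3 (mem_vst.2 ⟨1, le_rfl, h0, ha2⟩)
    rw [h1, add_zero]
    apply Finset.sum_congr rfl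
    intro a _
    apply Finset.sum_congr _ (fun _ _ => rfl)
    ext t
    rw [Finset.mem_filter, Finset.mem_filter]
    exact ex0_avoid hv a
  -- the starts at v
  have e2 : ∑ a ∈ bd (insert v Ω), ∑ t ∈ ex0 (insert v Ω) a, (NB f v a t : ℝ) * (wt t).im =
      ∑ a ∈ (bd Ω).filter (fun a => a.1 ≠ v), ∑ t ∈ ex0 (insert v Ω) a, (NB f v a t : ℝ) * (wt t).im := by
    rw [← Finset.sum_filter_add_sum_filter_not (bd (insert v Ω)) (fun a => a.1 + a.2 ≠ v), bd_filter hv]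
    have h1 : ∑ a ∈ (bd (insert v Ω)).filter (fun a => ¬ (a.1 + a.2 ≠ v)),
        ∑ t ∈ ex0 (insert v Ω) a, (NB f v a t : ℝ) * (wt t).im = 0 := by
      apply Finset.sum_eq_zero
      intro a ha
      obtain ⟨ha1, ha2⟩ := Finset.mem_filter.1 ha
      rw [not_not] at ha2
      apply Finset.sum_eq_zero
      intro t ht
      obtain ⟨h4, h5⟩ := mem_ex0.1 ht
      rcases Nat.eq_zero_or_pos t.length with h0 | h0
      · exfalso
        apply h5
        rw [List.length_eq_zero_iff.1 h0]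
        exact (mem_bd.1 ha1).1
      · have h6 := NB_eq (f := f) h4 le_rfl h0 ha2
        rw [h6, Finset.sum_range_one]
        have h7 : cr f (vx a.1 a.2 t 0, dx a.2 t 0) = cr f a := rfl
        rw [h7, hcr a ha1 ha2]
        simp
    rw [h1, add_zero]
  -- the lollipops
  have e3 : ∀ a ∈ (bd Ω).filter (fun a => a.1 ≠ v), 2 * ∑ t ∈ (ex0 Ω a).filter (fun t => tp a t = v),
      (NN f a t : ℝ) * (wt t).im - 2 * ∑ t ∈ ex0 (insert v Ω) a, (NB f v a t : ℝ) * (wt t).im =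
      ∑ E ∈ (polys (insert v Ω)).filter (fun E => v ∈ VE E ∧ Nw E f ≠ 0), xc ^ E.card *
        ∑ s ∈ stk (insert v Ω) E a, (wt s).re := by
    intro a ha
    obtain ⟨ha1, ha2⟩ := Finset.mem_filter.1 ha
    obtain ⟨_, hb2, hb3⟩ := mem_bd.1 (bd_of_bd ha1 ha2)
    have h1 := congrArg Complex.im (sd_ext (f := f) hΩ hv hb ha1 ha2)
    have h2 := congrArg Complex.im (sd_lol hΩ hb2 hb3 hf hb (fun h => hv (by
      have h5 := (mem_bd.1 ha1).1
      rwa [h] at h5)))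
    have im1 : ∀ (z : ℤ) (w : ℂ), ((z : ℂ) * w).im = (z : ℝ) * w.im := by
      intro z w
      rw [Complex.mul_im]
      simp
    rw [Complex.add_im, Complex.im_sum, Complex.im_sum, Complex.im_sum] at h1
    simp only [im1] at h1
    rw [Complex.I_mul_im, Complex.re_sum, Complex.mul_im] at h2
    simp only [Complex.re_ofNat, Complex.im_ofNat, zero_mul, add_zero] at h2
    rw [Complex.im_sum] at h2
    simp only [im1] at h2
    have h3 : ∀ E : Finset (Pt × Pt), ((xc : ℂ) ^ E.card * ∑ s ∈ stk (insert v Ω) E a, wt s).re =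
        xc ^ E.card * ∑ s ∈ stk (insert v Ω) E a, (wt s).re := by
      intro E
      rw [← Complex.ofReal_pow, Complex.re_ofReal_mul, Complex.re_sum]
    simp only [h3] at h2
    linarith
  have e4 : 2 * ∑ a ∈ (bd Ω).filter (fun a => a.1 ≠ v), ∑ t ∈ (ex0 Ω a).filter (fun t => tp a t = v),
        (NN f a t : ℝ) * (wt t).im -
      2 * ∑ a ∈ (bd Ω).filter (fun a => a.1 ≠ v), ∑ t ∈ ex0 (insert v Ω) a, (NB f v a t : ℝ) * (wt t).im =
      ∑ E ∈ (polys (insert v Ω)).filter (fun E => v ∈ VE E ∧ Nw E f ≠ 0),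
        xc ^ E.card * (HH (insert v Ω) (VE E) - 1) := by
    rw [Finset.mul_sum, Finset.mul_sum, ← Finset.sum_sub_distrib, Finset.sum_congr rfl e3, Finset.sum_comm]
    apply Finset.sum_congr rfl
    intro E hE
    obtain ⟨hE1, hE2, _⟩ := Finset.mem_filter.1 hE
    rw [← Finset.mul_sum]
    congr 1
    rw [HH_stk hΩ hE1, ← Finset.sum_filter_add_sum_filter_not (bd (insert v Ω)) (fun a => a.1 + a.2 ≠ v),
      bd_filter hv]
    have h1 : ∑ a ∈ (bd (insert v Ω)).filter (fun a => ¬ (a.1 + a.2 ≠ v)),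
        ∑ s ∈ stk (insert v Ω) E a, (wt s).re = 1 := by
      obtain ⟨b, hb1, hb2⟩ := hb
      have h2 : (bd (insert v Ω)).filter (fun a => ¬ (a.1 + a.2 ≠ v)) = {b} := by
        ext a
        rw [Finset.mem_filter, Finset.mem_singleton, not_not]
        constructor
        · rintro ⟨h3, h4⟩
          exact outer_one hE1 hE2 h3 hb1 h4 hb2
        · rintro rfl
          exact ⟨hb1, hb2⟩
      rw [h2, Finset.sum_singleton, stk_at hE1 hb1 (by rw [hb2]; exact hE2), Finset.sum_singleton, wt_nil]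
      rfl
    rw [h1]
    ring
  rw [e1, e2, Finset.sum_add_distrib, ← e4, ← Finset.mul_sum]
  ring

open Classical in
/-- SD1. -/
theorem dQ {Ω : Finset Pt} {v : Pt} (hΩ : Full (insert v Ω)) (hv : v ∉ Ω)
    (hb : ∃ a ∈ bd (insert v Ω), a.1 + a.2 = v) {f : Pt} (hf : Fc f)
    (hcr : ∀ a ∈ bd (insert v Ω), a.1 + a.2 = v → cr f a = 0) :
    ∑ E ∈ (polys (insert v Ω)).filter (fun E => v ∈ VE E ∧ Nw E f ≠ 0), xc ^ E.card * HH (insert v Ω) (VE E) ≤
      QQ (insert v Ω) f - QQ Ω f := by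
  rw [dQ_eq hΩ hv hb hf hcr]
  apply Finset.sum_le_sum
  intro E hE
  obtain ⟨_, hE2, _⟩ := Finset.mem_filter.1 hE
  have hc : 1 ≤ E.card := by
    obtain ⟨e, he, _⟩ := Finset.mem_image.1 hE2
    exact Finset.card_pos.2 ⟨e, he⟩
  have h1 : xc ^ E.card = xc * xc ^ (E.card - 1) := by
    rw [← pow_succ']
    congr 1
    omega
  have h2 : xc * xc ^ (E.card - 1) ≤ Real.sin (3 * Real.pi / 8) * xc ^ (E.card - 1) :=
    mul_le_mul_of_nonneg_right s3_ge (pow_nonneg xc_pos.le _)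
  linarith

end SD

open Classical in
/-- SD1: Hadamard's formula, lower bound. -/
theorem dQ {Ω : Finset Pt} {v : Pt} (hΩ : Full (insert v Ω)) (hv : v ∉ Ω)
    (hb : ∃ a ∈ bd (insert v Ω), a.1 + a.2 = v) {f : Pt} (hf : Fc f)
    (hcr : ∀ a ∈ bd (insert v Ω), a.1 + a.2 = v → cr f a = 0) :
    ∑ E ∈ (polys (insert v Ω)).filter (fun E => v ∈ VE E ∧ Nw E f ≠ 0), xc ^ E.card * HH (insert v Ω) (VE E) ≤
      QQ (insert v Ω) f - QQ Ω f := SD.dQ hΩ hv hb hf hcr

end LP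

end HexObs
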