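import Pool.Agent.HexLoop.Refl
import Pool.Agent.HexLoop.Bulk

/-!
SD3: the upper ray. QQ does not change if the domain is rotated by 180 degrees around the face.
-/

set_option autoImplicit false

namespace HexObs

namespace LP

open Complex Finset

namespace SD3

lemma mod3 {v : Pt} : cl v = 1 ↔ nn v % 3 = 1 := by
  have h := ZMod.intCast_eq_intCast_iff (nn v) 1 3
  unfold cl
  unfold nn at h ⊢
  constructor
  · intro h1
    have h2 := h.1 (by rw [h1]; norm_num)
    exact h2
  · intro h1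
    have h2 := h.2 h1
    rw [h2]
    norm_num

/-- lower ray minus upper ray. -/
lemma cr_sub {g : Pt} (hg : Fc g) {f : Pt} {p : Pt × Pt} (hp : De p) :
    cr g p - cr (Rf f g) (Re f p) = (if nn g < nn (p.1 + p.2) then 1 else 0) - (if nn g < nn p.1 then 1 else 0) := by
  obtain ⟨h1, h2, h3⟩ := hp
  have hg' := mod3.1 hg
  have h2' : ¬ nn p.1 % 3 = 1 := fun h => h2 (mod3.2 h)
  have h3' : ¬ nn (p.1 + p.2) % 3 = 1 := fun h => h3 (mod3.2 h)
  have hlv : ∀ v : Pt, (lv v - nn v) % 3 = 0 := by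
    intro v
    unfold lv nn
    omega
  have e1 := hlv g
  have e2 := hlv p.1
  have en : nn (p.1 + p.2) = nn p.1 + nn p.2 := by
    unfold nn
    simp only [Prod.fst_add, Prod.snd_add]
    ring
  rw [en] at h3' ⊢
  obtain ⟨v, d⟩ := p
  unfold cr Re
  simp only [nn_Rf, lv_Rf] at h2' h3' e2 ⊢
  have hd : d = (1, 0) ∨ d = (0, 1) ∨ d = (-1, 1) ∨ d = (-1, 0) ∨ d = (0, -1) ∨ d = (1, -1) := by
    revert h1
    unfold dirs
    simp only [Finset.mem_insert, Finset.mem_singleton]
    exact id
  generalize nn v = N at *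
  generalize lv v = L at *
  generalize nn g = G at *
  generalize lv g = K at *
  have n1 : nn (1, 0) = 1 := rfl
  have n2 : nn (0, 1) = -1 := rfl
  have n3 : nn (-1, 1) = -2 := rfl
  have n4 : nn (-1, 0) = -1 := rfl
  have n5 : nn (0, -1) = 1 := rfl
  have n6 : nn (1, -1) = 2 := rfl
  rcases hd with rfl | rfl | rfl | rfl | rfl | rfl <;>
    simp only [n1, n2, n3, n4, n5, n6, Prod.neg_mk, Prod.mk.injEq, neg_neg, neg_zero] at h3' ⊢ <;>
    norm_num <;> split_ifs <;> omega

/-- the telescoping sum of the crossings of the line. -/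
lemma tele {g : Pt} (hg : Fc g) (f : Pt) {v d : Pt} {τ : ℕ → Bool} (hde : ∀ i, De (vs v d τ i, ds d τ i)) (n : ℕ) :
    ∑ i ∈ range n, cr g (vs v d τ i, ds d τ i) - ∑ i ∈ range n, cr (Rf f g) (Re f (vs v d τ i, ds d τ i)) =
      (if nn g < nn (vs v d τ n) then 1 else 0) - (if nn g < nn v then 1 else 0) := by
  rw [← Finset.sum_sub_distrib]
  have h1 : ∀ i ∈ range n, cr g (vs v d τ i, ds d τ i) - cr (Rf f g) (Re f (vs v d τ i, ds d τ i)) =
      (fun i => if nn g < nn (vs v d τ i) then (1 : ℤ) else 0) (i + 1) -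
        (fun i => if nn g < nn (vs v d τ i) then (1 : ℤ) else 0) i := fun i _ => cr_sub hg (hde i)
  rw [Finset.sum_congr rfl h1]
  exact Finset.sum_range_sub (fun i => if nn g < nn (vs v d τ i) then (1 : ℤ) else 0) n

end SD3

/-- the upper ray: QQ does not change if the domain is rotated by 180 degrees around f. -/
theorem QQ_Re {Ω : Finset Pt} (hΩ : Full Ω) {f : Pt} (hf : Fc f) : QQ (Ω.image (Rf f)) f = QQ Ω f := by
  have hff : Rf f f = f := by
    unfold Rf
    abel
  unfold QQ
  rw [bd_Re hf, Finset.sum_image (fun a _ b _ h => Re_inj f h), neg_inj, ← sub_eq_zero,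
    ← Finset.sum_sub_distrib]
  have e1 : ∀ a ∈ bd Ω, (∑ t ∈ ex0 (Ω.image (Rf f)) (Re f a), (NN f (Re f a) t : ℝ) *
      Real.sin (wind t * (Real.pi / 8)) * xc ^ t.length) -
      ∑ t ∈ ex0 Ω a, (NN f a t : ℝ) * Real.sin (wind t * (Real.pi / 8)) * xc ^ t.length =
      ∑ t ∈ ex0 Ω a, (if nn f < nn a.1 then (1 : ℝ) else 0) * Real.sin (wind t * (Real.pi / 8)) * xc ^ t.length -
      ∑ t ∈ ex0 Ω a, (if nn f < nn (tp a t) then (1 : ℝ) else 0) * Real.sin (wind t * (Real.pi / 8)) *
        xc ^ t.length := by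
    intro a ha
    rw [ex0_img, ← Finset.sum_sub_distrib, ← Finset.sum_sub_distrib]
    apply Finset.sum_congr rfl
    intro t _
    have hde := (mem_bd.1 ha).2.1
    have h1 := SD3.tele hf f (v := a.1) (d := a.2) (τ := tf t) (fun i => de_vx hde t i) (t.length + 1)
    rw [hff] at h1
    have h2 : NN f a t - NN f (Re f a) t =
        (if nn f < nn (tp a t) then (1 : ℤ) else 0) - (if nn f < nn a.1 then 1 else 0) := by
      have h3 : ∀ i ∈ range (t.length + 1), cr f (vx (Re f a).1 (Re f a).2 t i, dx (Re f a).2 t i) =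
          cr f (Re f (vs a.1 a.2 (tf t) i, ds a.2 (tf t) i)) := by
        intro i _
        unfold Re
        rw [vx_Rf, dx_Rf]
        rfl
      unfold NN
      rw [Finset.sum_congr rfl h3]
      exact h1
    have h4 : (NN f a t : ℝ) - (NN f (Re f a) t : ℝ) =
        (if nn f < nn (tp a t) then (1 : ℝ) else 0) - (if nn f < nn a.1 then 1 else 0) := by
      have := congrArg (fun z : ℤ => (z : ℝ)) h2
      push_cast at this
      exact this
    linear_combination (-(Real.sin (wind t * (Real.pi / 8)) * xc ^ t.length)) * h4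
  rw [Finset.sum_congr rfl e1, Finset.sum_sub_distrib]
  have e2 : ∑ a ∈ bd Ω, ∑ t ∈ ex0 Ω a, (if nn f < nn a.1 then (1 : ℝ) else 0) *
      Real.sin (wind t * (Real.pi / 8)) * xc ^ t.length = 0 := by
    apply Finset.sum_eq_zero
    intro a ha
    obtain ⟨h1, h2, h3⟩ := mem_bd.1 ha
    have h4 := start_one hΩ (Finset.Subset.refl Ω) h2 h3
    have h5 : ∑ t ∈ ex0 Ω a, Real.sin (wind t * (Real.pi / 8)) * xc ^ t.length = 0 := by
      have h6 := congrArg Complex.im h4
      unfold SS at h6
      rw [Complex.im_sum, Complex.one_im] at h6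
      rw [← h6]
      apply Finset.sum_congr rfl
      intro t _
      unfold wt
      rw [← Complex.ofReal_pow, Complex.im_mul_ofReal, Complex.exp_ofReal_mul_I_im]
    have h7 : ∑ t ∈ ex0 Ω a, (if nn f < nn a.1 then (1 : ℝ) else 0) * Real.sin (wind t * (Real.pi / 8)) *
        xc ^ t.length = (if nn f < nn a.1 then (1 : ℝ) else 0) *
          ∑ t ∈ ex0 Ω a, Real.sin (wind t * (Real.pi / 8)) * xc ^ t.length := by
      rw [Finset.mul_sum]
      apply Finset.sum_congr rfl
      intro t _
      ring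
    rw [h7, h5, mul_zero]
  have e3 : ∑ a ∈ bd Ω, ∑ t ∈ ex0 Ω a, (if nn f < nn (tp a t) then (1 : ℝ) else 0) *
      Real.sin (wind t * (Real.pi / 8)) * xc ^ t.length = 0 := by
    rw [rev_ex hΩ.1 (fun a t => (if nn f < nn (tp a t) then (1 : ℝ) else 0) *
      Real.sin (wind t * (Real.pi / 8)) * xc ^ t.length)]
    have h8 : ∑ a ∈ bd Ω, ∑ t ∈ ex0 Ω a, (if nn f < nn (tp (rv (le a t)) (rev t)) then (1 : ℝ) else 0) *
        Real.sin (wind (rev t) * (Real.pi / 8)) * xc ^ (rev t).length =
        -∑ a ∈ bd Ω, ∑ t ∈ ex0 Ω a, (if nn f < nn a.1 then (1 : ℝ) else 0) *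
      Real.sin (wind t * (Real.pi / 8)) * xc ^ t.length := by
      rw [← Finset.sum_neg_distrib]
      apply Finset.sum_congr rfl
      intro a ha
      rw [← Finset.sum_neg_distrib]
      apply Finset.sum_congr rfl
      intro t _
      have h1 : tp (rv (le a t)) (rev t) = a.1 := by
        have := vx_rev0 (p := a) t (t.length + 1) le_rfl
        rw [Nat.sub_self] at this
        unfold tp tip
        rw [rev_length]
        exact this
      rw [h1, wind_rev, rev_length]
      push_cast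
      rw [neg_mul, Real.sin_neg]
      ring
    rw [h8, e2, neg_zero]
  rw [e2, e3, sub_zero]

end LP

end HexObs
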