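import Pool.Agent.HexLoop.DefsW
import Pool.Agent.HexLoop.HMono
import Pool.Agent.HexLoop.Refl
import Pool.Agent.HexLoop.Inside
import Pool.Agent.HexLoop.SD1e
import Pool.Agent.HexLoop.SPWind
import Pool.Agent.HexLoop.BornSP
import Pool.Agent.HexLoop.Stepped
import Pool.Agent.HexLoop.Chain
import Pool.Agent.HexLoop.SD3

/-!
SD, part B: the growth from PP m M to PP (m + 1) M, by pairs of steps symmetric around f0.
-/

set_option autoImplicit false

namespace HexObs

namespace LP

open Complex Finset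

section Grow

open Classical in
lemma gr_polys {Ω : Finset Pt} {v : Pt} (hv : v ∉ Ω) {E : Finset (Pt × Pt)} :
    E ∈ polys (insert v Ω) \ polys Ω ↔ E ∈ polys (insert v Ω) ∧ v ∈ VE E := by
  rw [Finset.mem_sdiff, mem_polys, mem_polys]
  constructor
  · rintro ⟨⟨h1, h2⟩, h3⟩
    refine ⟨⟨h1, h2⟩, ?_⟩
    by_contra hcon
    apply h3
    refine ⟨h1, fun w hw => ?_⟩
    rcases Finset.mem_insert.1 (h2 hw) with h | h
    · rw [h] at hw
      exact absurd hw hcon
    · exact h
  · rintro ⟨h1, h2⟩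
    exact ⟨h1, fun h3 => hv (h3.2 h2)⟩

/-- one insertion. -/
theorem gr_ins {Ω : Finset Pt} {v : Pt} (hΩ : Full (insert v Ω)) (hv : v ∉ Ω)
    (hb : ∃ a ∈ bd (insert v Ω), a.1 + a.2 = v) {f : Pt} (hf : Fc f)
    (hcr : ∀ a ∈ bd (insert v Ω), a.1 + a.2 = v → cr f a = 0) {c : Finset (Pt × Pt) → ℝ}
    (hc : ∀ E ∈ polys (insert v Ω), v ∈ VE E → Nw E f ≠ 0 → c E ≤ HH (insert v Ω) (VE E)) :
    Inc f c Ω (insert v Ω) := by
  classical
  unfold Inc
  refine le_trans ?_ (dQ hΩ hv hb hf hcr)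
  have hset : (polys (insert v Ω) \ polys Ω).filter (fun E => Nw E f ≠ 0) =
      (polys (insert v Ω)).filter (fun E => v ∈ VE E ∧ Nw E f ≠ 0) := by
    ext E
    rw [Finset.mem_filter, Finset.mem_filter, gr_polys hv]
    tauto
  rw [hset]
  apply Finset.sum_le_sum
  intro E hE
  rw [Finset.mem_filter] at hE
  exact mul_le_mul_of_nonneg_left (hc E hE.1 hE.2.1 hE.2.2) (pow_pos xc_pos _).le

/-- the upper vertex added at the step k. -/
def aG (m : ℕ) (k : ℤ) : Pt := (m + 1 + 2 * k, m + 1 - k)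

/-- the lower vertex added at the step k: it closes a face. -/
def uG (m : ℕ) (k : ℤ) : Pt := (m + 2 * k, m + 1 - k)

lemma aG_lv (m : ℕ) (k : ℤ) : lv (aG m k) = 3 * m + 3 := by
  unfold lv aG
  ring

lemma aG_nn (m : ℕ) (k : ℤ) : nn (aG m k) = 3 * k := by
  unfold nn aG
  ring

lemma uG_lv (m : ℕ) (k : ℤ) : lv (uG m k) = 3 * m + 2 := by
  unfold lv uG
  ring

lemma uG_nn (m : ℕ) (k : ℤ) : nn (uG m k) = 3 * k - 1 := by
  unfold nn uG
  ring

lemma gr_lvnn (v : Pt) : (lv v - nn v) % 3 = 0 := by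
  unfold lv nn
  omega

lemma gr_eq {v w : Pt} (h1 : lv v = lv w) (h2 : nn v = nn w) : v = w := by
  unfold lv at h1
  unfold nn at h2
  ext <;> omega

theorem SP_insA {m M : ℕ} {k : ℤ} (h1 : -(M : ℤ) < k) (h2 : k ≤ M) (θ' : ℤ) :
    SP m M (3 * k - 1) θ' = insert (aG m k) (SP m M (3 * k + 1) θ') ∧ aG m k ∉ SP m M (3 * k + 1) θ' := by
  have ha1 := aG_lv m k
  have ha2 := aG_nn m k
  constructor
  · ext v
    rw [Finset.mem_insert, mem_SP, mem_SP]
    unfold InSP
    rw [abs_lt, abs_lt]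
    have hc := gr_lvnn v
    have hv : Vt v ↔ nn v % 3 ≠ 1 := Vt_iff v
    constructor
    · rintro ⟨a1, a2, a3⟩
      by_cases hva : v = aG m k
      · exact Or.inl hva
      · right
        refine ⟨a1, a2, ?_⟩
        rcases a3 with a3 | a3 | a3
        · exact Or.inl a3
        · right
          left
          refine ⟨a3.1, a3.2.1, ?_⟩
          by_contra hcon
          apply hva
          rw [hv] at a1
          apply gr_eq
          · omega
          · omega
        · exact Or.inr (Or.inr a3)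
    · rintro (rfl | ⟨a1, a2, a3⟩)
      · refine ⟨hv.2 (by omega), by omega, Or.inr (Or.inl ⟨by omega, by omega, by omega⟩)⟩
      · refine ⟨a1, a2, ?_⟩
        rcases a3 with a3 | a3 | a3
        · exact Or.inl a3
        · exact Or.inr (Or.inl ⟨a3.1, a3.2.1, by omega⟩)
        · exact Or.inr (Or.inr a3)
  · rw [mem_SP]
    unfold InSP
    rw [abs_lt, abs_lt]
    rintro ⟨_, a2, a3⟩
    omega

theorem SP_insU {m M : ℕ} {k : ℤ} (h1 : -(M : ℤ) < k) (h2 : k ≤ M) (θ' : ℤ) :
    SP m M (3 * k - 2) θ' = insert (uG m k) (SP m M (3 * k - 1) θ') ∧ uG m k ∉ SP m M (3 * k - 1) θ' := by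
  have ha1 := uG_lv m k
  have ha2 := uG_nn m k
  constructor
  · ext v
    rw [Finset.mem_insert, mem_SP, mem_SP]
    unfold InSP
    rw [abs_lt, abs_lt]
    have hc := gr_lvnn v
    have hv : Vt v ↔ nn v % 3 ≠ 1 := Vt_iff v
    constructor
    · rintro ⟨a1, a2, a3⟩
      by_cases hva : v = uG m k
      · exact Or.inl hva
      · right
        refine ⟨a1, a2, ?_⟩
        rcases a3 with a3 | a3 | a3
        · exact Or.inl a3
        · right
          left
          refine ⟨a3.1, a3.2.1, ?_⟩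
          by_contra hcon
          apply hva
          rw [hv] at a1
          apply gr_eq
          · omega
          · omega
        · exact Or.inr (Or.inr a3)
    · rintro (rfl | ⟨a1, a2, a3⟩)
      · refine ⟨hv.2 (by omega), by omega, Or.inr (Or.inl ⟨by omega, by omega, by omega⟩)⟩
      · refine ⟨a1, a2, ?_⟩
        rcases a3 with a3 | a3 | a3
        · exact Or.inl a3
        · exact Or.inr (Or.inl ⟨a3.1, a3.2.1, by omega⟩)
        · exact Or.inr (Or.inr a3)
  · rw [mem_SP]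
    unfold InSP
    rw [abs_lt, abs_lt]
    rintro ⟨_, a2, a3⟩
    omega

lemma gr_nbr {Ω : Finset Pt} {E : Finset (Pt × Pt)} (hE : E ∈ polys Ω) {v : Pt} (hv : v ∈ VE E) :
    ∃ d d' : Pt, De (v, d) ∧ De (v, d') ∧ d ≠ d' ∧ v + d ∈ VE E ∧ v + d' ∈ VE E := by
  obtain ⟨h1, h2⟩ := mem_polys.1 hE
  obtain ⟨d, b, h3, h4⟩ := isPoly_prev h1 hv
  have a3 := isPoly_de h1 h3
  have a4 := isPoly_de h1 h4
  obtain ⟨b', h5⟩ := isPoly_next h1 h4
  have a5 := w_de_rv a3
  have e1 : v - d + d = v := sub_add_cancel v d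
  refine ⟨-d, turn b d, ?_, a4, ?_, ?_, ?_⟩
  · unfold rv at a5
    simp only [e1] at a5
    exact a5
  · intro h6
    exact (w_turn_ne d a3.1 b).2.1 h6.symm
  · rw [← sub_eq_add_neg]
    exact Finset.mem_image_of_mem _ h3
  · exact Finset.mem_image_of_mem _ h5

/-- two steps at the top. -/
theorem inc_top (m M : ℕ) (k k' : ℤ) (c : Finset (Pt × Pt) → ℝ)
    (hc : ∀ E ∈ polys (SP m M (3 * k - 2) (3 * k' + 1)), E ∉ polys (SP m M (3 * k + 1) (3 * k' + 1)) →
      Nw E f0 ≠ 0 → c E ≤ HH (SP m M (3 * k - 2) (3 * k' + 1)) (VE E)) :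
    Inc f0 c (SP m M (3 * k + 1) (3 * k' + 1)) (SP m M (3 * k - 2) (3 * k' + 1)) := by
  have hf : Fc f0 := by
    unfold Fc f0
    decide
  by_cases hk : -(M : ℤ) < k ∧ k ≤ M
  · obtain ⟨hk1, hk2⟩ := hk
    obtain ⟨eA, nA⟩ := SP_insA hk1 hk2 (3 * k' + 1)
    obtain ⟨eU, nU⟩ := SP_insU hk1 hk2 (3 * k' + 1)
    have fA := SP_full m M (3 * k - 1) (3 * k' + 1)
    have fU := SP_full m M (3 * k - 2) (3 * k' + 1)
    rw [eA] at fA
    rw [eU] at fU
    have la := aG_lv m k
    have na := aG_nn m k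
    have lu := uG_lv m k
    have nu := uG_nn m k
    have hlow : ∀ (v : Pt) (Ω : Finset Pt), 2 ≤ lv v → ∀ a ∈ bd Ω, a.1 + a.2 = v → cr f0 a = 0 := by
      intro v Ω hv a ha hav
      have hd := (mem_bd.1 ha).2.1.1
      have e1 : lv a.1 + lv a.2 = lv v := by
        rw [← hav]
        unfold lv
        simp only [Prod.fst_add, Prod.snd_add]
        ring
      have e2 : lv f0 = 1 := by decide
      unfold cr
      split_ifs with h1 h2
      · exfalso
        have e4 := h1.2.2
        have e5 : lv a.2 = -1 := by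
          rw [h1.1]
          decide
        rw [e2] at e4
        omega
      · exfalso
        have e4 := h2.2.2
        have e5 : lv a.2 = 1 := by
          rw [h2.1]
          decide
        rw [e2] at e4
        omega
      · rfl
    have stepA : Inc f0 c (SP m M (3 * k + 1) (3 * k' + 1)) (SP m M (3 * k - 1) (3 * k' + 1)) := by
      rw [eA]
      apply gr_ins fA nA _ hf (hlow _ _ (by omega))
      · intro E hE hv hN
        exfalso
        obtain ⟨d, d', h1, h2, h3, h4, h5⟩ := gr_nbr hE hv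
        rw [← eA] at hE
        have h6 := (mem_polys.1 hE).2
        have key : ∀ e : Pt, De (aG m k, e) → aG m k + e ∈ VE E → e = (1, -1) := by
          intro e he hm
          have h7 := h6 hm
          rw [mem_SP] at h7
          obtain ⟨_, h8, h9⟩ := h7
          rw [abs_lt] at h8
          rw [nn_add, lv_add, abs_lt] at h9
          rcases De_cases he with ⟨h0, _⟩ | ⟨_, h0 | h0 | h0⟩
          · omega
          · exfalso
            have e1 : lv e = 2 := by rw [h0]; decide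
            omega
          · exfalso
            have e1 : lv e = -1 := by rw [h0]; decide
            have e2 : nn e = -1 := by rw [h0]; decide
            omega
          · exact h0
        exact h3 ((key d h1 h4).trans (key d' h2 h5).symm)
      · refine ⟨(aG m k + up, -up), ?_, ?_⟩
        · rw [mem_bd, ← eA]
          have e1 : aG m k + up + -up = aG m k := add_neg_cancel_right _ _
          have e3 : lv up = 2 := by decide
          have e4 : nn up = -1 := by decide
          refine ⟨?_, ?_, ?_⟩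
          · show aG m k + up + -up ∈ _
            rw [e1, eA]
            exact Finset.mem_insert_self _ _
          · have h7 := De_mk (v := aG m k) (d := (0, 1)) (Or.inr ⟨by omega, Or.inl rfl⟩)
            exact w_de_rv h7
          · show aG m k + up ∉ _
            rw [mem_SP]
            rintro ⟨_, h8, h9⟩
            rw [nn_add, lv_add, abs_lt] at h9
            omega
        · exact add_neg_cancel_right _ _
    have stepU : Inc f0 c (SP m M (3 * k - 1) (3 * k' + 1)) (SP m M (3 * k - 2) (3 * k' + 1)) := by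
      rw [eU]
      apply gr_ins fU nU _ hf (hlow _ _ (by omega))
      · intro E hE hv hN
        rw [← eU] at hE ⊢
        apply hc E hE _ hN
        intro h1
        have h2 := (mem_polys.1 h1).2 hv
        rw [mem_SP] at h2
        obtain ⟨_, h8, h9⟩ := h2
        rw [abs_lt] at h9
        omega
      · refine ⟨(uG m k + (-1, 1), (1, -1)), ?_, ?_⟩
        · rw [mem_bd, ← eU]
          have e0 : uG m k + (-1, 1) + (1, -1) = uG m k := by
            rw [add_assoc]
            have : ((-1, 1) : Pt) + (1, -1) = 0 := by decide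
            rw [this, add_zero]
          have e3 : lv ((-1, 1) : Pt) = 1 := by decide
          have e4 : nn ((-1, 1) : Pt) = -2 := by decide
          refine ⟨?_, ?_, ?_⟩
          · show uG m k + (-1, 1) + (1, -1) ∈ _
            rw [e0, eU]
            exact Finset.mem_insert_self _ _
          · have h7 := De_mk (v := uG m k) (d := (-1, 1)) (Or.inl ⟨by omega, Or.inr (Or.inl rfl)⟩)
            exact w_de_rv h7
          · show uG m k + (-1, 1) ∉ _
            rw [mem_SP]
            rintro ⟨_, h8, h9⟩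
            rw [nn_add, lv_add, abs_lt] at h9
            omega
        · show uG m k + (-1, 1) + (1, -1) = uG m k
          rw [add_assoc]
          have : ((-1, 1) : Pt) + (1, -1) = 0 := by decide
          rw [this, add_zero]
    apply Inc.trans _ _ stepA stepU
    · rw [eA]
      exact Finset.subset_insert _ _
    · rw [eU]
      exact Finset.subset_insert _ _
  · have e : SP m M (3 * k - 2) (3 * k' + 1) = SP m M (3 * k + 1) (3 * k' + 1) := by
      ext v
      rw [mem_SP, mem_SP]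
      unfold InSP
      rw [abs_lt, abs_lt]
      have hcv := gr_lvnn v
      constructor
      · rintro ⟨a1, a2, a3⟩
        refine ⟨a1, a2, ?_⟩
        rw [Vt_iff] at a1
        rcases a3 with a3 | a3 | a3
        · exact Or.inl a3
        · exact Or.inr (Or.inl ⟨a3.1, a3.2.1, by omega⟩)
        · exact Or.inr (Or.inr a3)
      · rintro ⟨a1, a2, a3⟩
        refine ⟨a1, a2, ?_⟩
        rcases a3 with a3 | a3 | a3
        · exact Or.inl a3
        · exact Or.inr (Or.inl ⟨a3.1, a3.2.1, by omega⟩)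
        · exact Or.inr (Or.inr a3)
    rw [e]
    exact Inc.refl _ _ _

lemma gr_R2 (v : Pt) : R2 v = Rf f0 v := by
  unfold R2 Rf f0
  ext
  · simp only [Prod.fst_add, Prod.fst_sub]
    ring
  · simp only [Prod.snd_add, Prod.snd_sub]
    ring

lemma gr_fc : Fc f0 := by
  unfold Fc f0
  decide

theorem SP_img (m M : ℕ) (θ θ' : ℤ) : (SP m M θ θ').image (Rf f0) = SP m M θ' θ := by
  ext v
  rw [mem_Rf_image, ← gr_R2, SP_R2]

theorem polys_img {f : Pt} (hf : Fc f) {Ω : Finset Pt} {E : Finset (Pt × Pt)} :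
    E ∈ polys (Ω.image (Rf f)) ↔ RE f E ∈ polys Ω := by
  rw [mem_polys, mem_polys]
  constructor
  · rintro ⟨h1, h2⟩
    refine ⟨isPoly_RE hf h1, fun w hw => ?_⟩
    rw [mem_VE_RE] at hw
    have h3 := h2 hw
    rwa [mem_Rf_image, Rf_Rf] at h3
  · rintro ⟨h1, h2⟩
    have h3 := isPoly_RE hf h1
    rw [RE_RE] at h3
    refine ⟨h3, fun w hw => ?_⟩
    rw [mem_Rf_image]
    apply h2
    rw [mem_VE_RE, Rf_Rf]
    exact hw

theorem Inc.rot {f : Pt} (hf : Fc f) {Ω Ω' : Finset Pt} (hΩ : Full Ω) (hΩ' : Full Ω') {c : Finset (Pt × Pt) → ℝ}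
    (h : Inc f (fun E => c (RE f E)) Ω Ω') : Inc f c (Ω.image (Rf f)) (Ω'.image (Rf f)) := by
  classical
  unfold Inc at *
  rw [QQ_Re hΩ hf, QQ_Re hΩ' hf]
  refine le_trans (le_of_eq ?_) h
  have hset : (polys (Ω'.image (Rf f)) \ polys (Ω.image (Rf f))).filter (fun E => Nw E f ≠ 0) =
      ((polys Ω' \ polys Ω).filter (fun E => Nw E f ≠ 0)).image (RE f) := by
    ext E
    rw [Finset.mem_image, Finset.mem_filter, Finset.mem_sdiff, polys_img hf, polys_img hf]
    constructor
    · rintro ⟨⟨h1, h2⟩, h3⟩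
      refine ⟨RE f E, ?_, RE_RE f E⟩
      rw [Finset.mem_filter, Finset.mem_sdiff]
      refine ⟨⟨h1, h2⟩, ?_⟩
      have h4 := Nw_RE_self hf (mem_polys.1 h1).1
      rw [RE_RE] at h4
      rwa [← h4]
    · rintro ⟨E', h1, rfl⟩
      rw [Finset.mem_filter, Finset.mem_sdiff] at h1
      rw [RE_RE, Nw_RE_self hf (mem_polys.1 h1.1.1).1]
      exact h1
  rw [hset, Finset.sum_image]
  · apply Finset.sum_congr rfl
    intro E _
    rw [card_RE]
  · intro E _ E' _ h1
    rw [← RE_RE f E, h1, RE_RE]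

/-- two steps at the bottom. -/
theorem inc_bot (m M : ℕ) (k k' : ℤ) (c : Finset (Pt × Pt) → ℝ)
    (hc : ∀ E ∈ polys (SP m M (3 * k + 1) (3 * k' - 2)), E ∉ polys (SP m M (3 * k + 1) (3 * k' + 1)) →
      Nw E f0 ≠ 0 → c E ≤ HH (SP m M (3 * k + 1) (3 * k' - 2)) (VE E)) :
    Inc f0 c (SP m M (3 * k + 1) (3 * k' + 1)) (SP m M (3 * k + 1) (3 * k' - 2)) := by
  have h : Inc f0 (fun E => c (RE f0 E)) (SP m M (3 * k' + 1) (3 * k + 1)) (SP m M (3 * k' - 2) (3 * k + 1)) := by
    apply inc_top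
    intro E hE hE' hN
    have h1 : RE f0 E ∈ polys (SP m M (3 * k + 1) (3 * k' - 2)) := by
      rw [← SP_img, polys_img gr_fc, RE_RE]
      exact hE
    have h2 : RE f0 E ∉ polys (SP m M (3 * k + 1) (3 * k' + 1)) := by
      rw [← SP_img, polys_img gr_fc, RE_RE]
      exact hE'
    have h3 := hc _ h1 h2 (by rwa [Nw_RE_self gr_fc (mem_polys.1 hE).1])
    rw [VE_RE, ← SP_img, HH_Re gr_fc] at h3
    exact h3
  have h2 := Inc.rot gr_fc (SP_full _ _ _ _) (SP_full _ _ _ _) h
  rwa [SP_img, SP_img] at h2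

/-- the polygons that are born at the top pass through the new lower vertex. -/
theorem gr_born {m M : ℕ} {k k' : ℤ} {E : Finset (Pt × Pt)} (hE : E ∈ polys (SP m M (3 * k - 2) (3 * k' + 1)))
    (hE' : E ∉ polys (SP m M (3 * k + 1) (3 * k' + 1))) :
    ∃ a ∈ bd (SP m M (3 * k - 2) (3 * k' + 1)), a.1 + a.2 ∈ VE E := by
  obtain ⟨h1, h2⟩ := mem_polys.1 hE
  have h3 : ∃ w ∈ VE E, w ∉ SP m M (3 * k + 1) (3 * k' + 1) := by
    by_contra hcon
    push Not at hcon
    exact hE' (mem_polys.2 ⟨h1, hcon⟩)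
  obtain ⟨w, hw, hw'⟩ := h3
  have hw2 := h2 hw
  refine ⟨if nn w % 3 = 0 then (w + (0, 1), (0, -1)) else (w + (-1, 1), (1, -1)), ?_, ?_⟩
  · rw [mem_SP] at hw' hw2
    unfold InSP at hw' hw2
    rw [abs_lt, abs_lt] at hw' hw2
    obtain ⟨b1, b2, b3⟩ := hw2
    have hc := gr_lvnn w
    have b1' := b1
    rw [Vt_iff] at b1'
    have b4 : 3 * (m : ℤ) < lv w - 1 ∧ lv w - 1 < 3 * m + 3 ∧ 3 * k - 2 ≤ nn w - 1 ∧ nn w - 1 < 3 * k + 1 := by
      by_contra hcon
      apply hw'
      refine ⟨b1, b2, ?_⟩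
      rcases b3 with b3 | b3 | b3
      · exact Or.inl b3
      · exact Or.inr (Or.inl ⟨b3.1, b3.2.1, by omega⟩)
      · exact Or.inr (Or.inr b3)
    split_ifs with h0
    · rw [mem_bd]
      have e1 : w + (0, 1) + (0, -1) = w := by
        rw [add_assoc]
        have : ((0, 1) : Pt) + (0, -1) = 0 := by decide
        rw [this, add_zero]
      refine ⟨?_, ?_, ?_⟩
      · show w + (0, 1) + (0, -1) ∈ _
        rw [e1]
        exact h2 hw
      · exact w_de_rv (De_mk (v := w) (d := (0, 1)) (Or.inr ⟨h0, Or.inl rfl⟩))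
      · show w + (0, 1) ∉ _
        rw [mem_SP]
        rintro ⟨_, h8, h9⟩
        have e3 : lv ((0, 1) : Pt) = 2 := by decide
        have e4 : nn ((0, 1) : Pt) = -1 := by decide
        rw [nn_add, lv_add, abs_lt] at h9
        omega
    · rw [mem_bd]
      have e1 : w + (-1, 1) + (1, -1) = w := by
        rw [add_assoc]
        have : ((-1, 1) : Pt) + (1, -1) = 0 := by decide
        rw [this, add_zero]
      refine ⟨?_, ?_, ?_⟩
      · show w + (-1, 1) + (1, -1) ∈ _
        rw [e1]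
        exact h2 hw
      · exact w_de_rv (De_mk (v := w) (d := (-1, 1)) (Or.inl ⟨by omega, Or.inr (Or.inl rfl)⟩))
      · show w + (-1, 1) ∉ _
        rw [mem_SP]
        rintro ⟨_, h8, h9⟩
        have e3 : lv ((-1, 1) : Pt) = 1 := by decide
        have e4 : nn ((-1, 1) : Pt) = -2 := by decide
        rw [nn_add, lv_add, abs_lt] at h9
        omega
  · split_ifs with h0
    · show w + (0, 1) + (0, -1) ∈ _
      rw [add_assoc]
      have : ((0, 1) : Pt) + (0, -1) = 0 := by decide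
      rw [this, add_zero]
      exact hw
    · show w + (-1, 1) + (1, -1) ∈ _
      rw [add_assoc]
      have : ((-1, 1) : Pt) + (1, -1) = 0 := by decide
      rw [this, add_zero]
      exact hw

/-- one boundary edge at K. -/
theorem gr_ge_one {Ω K : Finset Pt} (hΩ : Full Ω) (hw : WB Ω) {a : Pt × Pt} (ha : a ∈ bd Ω) (hK : a.1 + a.2 ∈ K) :
    1 ≤ HH Ω K := by
  classical
  rw [HH_def, ← start_re hΩ ha]
  have h1 : ∑ t ∈ ex0 Ω a, cw t = ∑ t ∈ (ex0 Ω a).filter (Hit K a), cw t := by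
    rw [Finset.filter_true_of_mem]
    intro t ht
    refine ⟨1, le_rfl, ?_, hK⟩
    by_contra hcon
    have h2 : t = [] := List.length_eq_zero_iff.1 (by omega)
    rw [h2] at ht
    have h3 := (mem_ex0.1 ht).2
    exact h3 (mem_bd.1 ha).1
  rw [h1]
  apply Finset.single_le_sum (f := fun a => ∑ t ∈ (ex0 Ω a).filter (Hit K a), cw t) _ ha
  intro b hb
  apply Finset.sum_nonneg
  intro t ht
  rw [Finset.mem_filter] at ht
  exact cw_nn4 (hw b hb t ht.1)

lemma gr_WB (m M : ℕ) (k k' : ℤ) : WB (SP m M (3 * k + 1) (3 * k' + 1)) := by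
  intro a ha t ht
  exact SP_wind (by omega) (by omega) ha ht

lemma gr_WB' (m M : ℕ) (k k' : ℤ) : WB (SP m M (3 * k - 2) (3 * k' + 1)) := by
  intro a ha t ht
  exact SP_wind (by omega) (by omega) ha ht

lemma gr_sub1 (m M : ℕ) (k : ℤ) : SP m M (3 * k + 1) (3 * k + 1) ⊆ SP m M (3 * k - 2) (3 * k + 1) :=
  SP_mono (by omega) le_rfl

lemma gr_sub2 (m M : ℕ) (k : ℤ) : SP m M (3 * k - 2) (3 * k + 1) ⊆ SP m M (3 * k - 2) (3 * k - 2) :=
  SP_mono le_rfl (by omega)

/-- GS1: the double step, with the bound 1. -/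
theorem inc_one (m M : ℕ) (k : ℤ) :
    Inc f0 (fun _ => 1) (SP m M (3 * k + 1) (3 * k + 1)) (SP m M (3 * k - 2) (3 * k - 2)) := by
  have h1 : Inc f0 (fun _ => 1) (SP m M (3 * k + 1) (3 * k + 1)) (SP m M (3 * k - 2) (3 * k + 1)) := by
    apply inc_top
    intro E hE hE' _
    obtain ⟨a, ha, hav⟩ := gr_born hE hE'
    exact gr_ge_one (SP_full _ _ _ _) (gr_WB' m M k k) ha hav
  have e : 3 * (k - 1) + 1 = 3 * k - 2 := by ring
  have h2 : Inc f0 (fun _ => 1) (SP m M (3 * k - 2) (3 * k + 1)) (SP m M (3 * k - 2) (3 * k - 2)) := by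
    have h3 := inc_bot m M (k - 1) k (fun _ => 1)
    rw [e] at h3
    apply h3
    intro E hE hE' _
    have b1 : RE f0 E ∈ polys (SP m M (3 * k - 2) (3 * (k - 1) + 1)) := by
      rw [e, ← polys_img gr_fc, SP_img]
      exact hE
    have b2 : RE f0 E ∉ polys (SP m M (3 * k + 1) (3 * (k - 1) + 1)) := by
      rw [e, ← polys_img gr_fc, SP_img]
      exact hE'
    obtain ⟨a, ha, hav⟩ := gr_born b1 b2
    have b3 := gr_ge_one (SP_full _ _ _ _) (gr_WB' m M k (k - 1)) ha hav
    rw [e, VE_RE] at b3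
    have b4 : HH ((SP m M (3 * k - 2) (3 * k - 2)).image (Rf f0)) ((VE E).image (Rf f0)) =
        HH (SP m M (3 * k - 2) (3 * k - 2)) (VE E) := HH_Re gr_fc _ _
    rw [SP_img] at b4
    linarith
  exact Inc.trans (gr_sub1 m M k) (gr_sub2 m M k) h1 h2

/-- GS2: the double step, with the sum over the crossings. -/
theorem inc_F (m : ℕ) (hm : 1 ≤ m) (F : Finset (List Bool)) (hF : ∀ t ∈ F, t ∈ Crw (2 * m + 1)) : ∃ A0 : ℕ,
    ∀ (M : ℕ) (k : ℤ), |k| + A0 ≤ M → Inc f0 (fun _ => ∑ t ∈ F, ct t * At t)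
      (SP m M (3 * k + 1) (3 * k + 1)) (SP m M (3 * k - 2) (3 * k - 2)) := by
  obtain ⟨A1, h1⟩ := born_top m hm F hF
  obtain ⟨A2, h2⟩ := born_bot m hm F hF
  refine ⟨max A1 A2, fun M k hM => ?_⟩
  push_cast at hM
  have hM1 : |k| + A1 ≤ M := le_trans (by linarith [le_max_left (A1 : ℤ) A2]) hM
  have hM2 : |k| + A2 ≤ M := le_trans (by linarith [le_max_right (A1 : ℤ) A2]) hM
  have s1 : Inc f0 (fun _ => ∑ t ∈ F, ct t * At t) (SP m M (3 * k + 1) (3 * k + 1))
      (SP m M (3 * k - 2) (3 * k + 1)) := inc_top m M k k _ (h1 M k hM1)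
  have e : 3 * (k - 1) + 1 = 3 * k - 2 := by ring
  have s2 : Inc f0 (fun _ => ∑ t ∈ F, ct t * At t) (SP m M (3 * k - 2) (3 * k + 1))
      (SP m M (3 * k - 2) (3 * k - 2)) := by
    have h3 := inc_bot m M (k - 1) k (fun _ => ∑ t ∈ F, ct t * At t)
    rw [e] at h3
    apply h3
    intro E hE hE' hN
    have b1 : RE f0 E ∈ polys (SP m M (3 * k - 2) (3 * k - 2)) := by
      rw [← polys_img gr_fc, SP_img]
      exact hE
    have b2 : RE f0 E ∉ polys (SP m M (3 * k + 1) (3 * k - 2)) := by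
      rw [← polys_img gr_fc, SP_img]
      exact hE'
    have b3 := h2 M k hM2 _ b1 b2 (by rwa [Nw_RE_self gr_fc (mem_polys.1 hE).1])
    have b4 : HH ((SP m M (3 * k - 2) (3 * k - 2)).image (Rf f0)) ((VE E).image (Rf f0)) =
        HH (SP m M (3 * k - 2) (3 * k - 2)) (VE E) := HH_Re gr_fc _ _
    rw [SP_img, ← VE_RE] at b4
    linarith
  exact Inc.trans (gr_sub1 m M k) (gr_sub2 m M k) s1 s2

end Grow

end LP

end HexObs
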