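import Mathlib

/-!
SD10: the growth inequality, numerical part.
-/

set_option autoImplicit false

namespace HexObs

namespace LP

open Filter

/-- The growth inequality: a real-variable lemma. -/
theorem growth_num {q L : ℕ → ℕ → ℝ} {K : ℕ → ℝ} {a C0 θ : ℝ} (ha : 0 < a) (hθ : 0 < θ) (hθ' : θ < 1.32)
    (hL : ∀ m M M', M ≤ M' → L m M ≤ L m M') (hLm : ∀ m M, L m M ≤ L (m + 1) M) (hLnn : ∀ m M, 0 ≤ L m M)
    (hpos : 0 < L 1 1) (hbase : ∀ M, L 1 M ≤ q 1 M) (hK : ∀ T, 0 ≤ K T)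
    (h1 : ∀ m M, 1 ≤ m → L (m + 1) M - L m M ≤ q (m + 1) M - q m M)
    (h2 : ∀ m M', 1 ≤ m → ∃ M0, ∀ M, M0 ≤ M →
      (1.32 * a * K (2 * m + 1) - C0) * (L (m + 1) M' - L m M') ≤ q (m + 1) M - q m M)
    (h3 : ∀ m, 1 ≤ m → ∃ M0, ∀ M, M0 ≤ M → q m M ≤ a * K (2 * m) + 1)
    (hK1 : ∀ δ : ℝ, 0 < δ → ∃ C1 : ℝ, ∀ T, 1 ≤ T → K (T + 1) ≤ (1 + δ) * K T + C1) (hKinf : Tendsto K atTop atTop) :
    ∃ C : ℝ, 0 < C ∧ ∀ m M, Real.exp (θ * L m M) ≤ C * (1 + K (2 * m)) := by
  have hLmm : ∀ m m' M, m ≤ m' → L m M ≤ L m' M := by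
    intro m m' M h
    induction m', h using Nat.le_induction with
    | base => exact le_rfl
    | succ n _ ih => exact ih.trans (hLm n M)
  have hqL : ∀ m M, 1 ≤ m → L m M ≤ q m M := by
    intro m M hm
    induction m, hm using Nat.le_induction with
    | base => exact hbase M
    | succ n hn ih =>
      have := h1 n M hn
      linarith
  have hcoef : 0 < (1.32 - θ) / 2 * a := mul_pos (by linarith) ha
  have hδ : 0 < (1.32 - θ) / (2 * θ) := div_pos (by linarith) (by linarith)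
  obtain ⟨C1, hC1⟩ := hK1 _ hδ
  -- from m1 on the growth dominates
  obtain ⟨T1, hT1⟩ := (hKinf.eventually_ge_atTop ((C0 + θ * (a * C1 + 1)) / ((1.32 - θ) / 2 * a))).exists_forall_of_atTop
  obtain ⟨m1, hm1, hm1T⟩ : ∃ m1 : ℕ, 1 ≤ m1 ∧ T1 ≤ m1 := ⟨T1 + 1, by omega, by omega⟩
  have hbig : ∀ m, m1 ≤ m → θ * (a * K (2 * (m + 1)) + 1) ≤ 1.32 * a * K (2 * m + 1) - C0 := by
    intro m hm
    have h4 := hT1 (2 * m + 1) (by omega)
    rw [div_le_iff₀ hcoef] at h4
    have h5 := hC1 (2 * m + 1) (by omega)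
    have h6 : 2 * (m + 1) = 2 * m + 1 + 1 := by ring
    rw [h6]
    have h7 : θ * a * K (2 * m + 1 + 1) ≤ θ * a * ((1 + (1.32 - θ) / (2 * θ)) * K (2 * m + 1) + C1) :=
      mul_le_mul_of_nonneg_left h5 (mul_pos hθ ha).le
    have h8 : θ * (1 + (1.32 - θ) / (2 * θ)) = (1.32 + θ) / 2 := by
      field_simp
      ring
    have h9 : θ * a * ((1 + (1.32 - θ) / (2 * θ)) * K (2 * m + 1) + C1) =
        (1.32 + θ) / 2 * a * K (2 * m + 1) + θ * a * C1 := by
      rw [← h8]
      ring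
    rw [h9] at h7
    linarith
  have step : ∀ m M', m1 ≤ m → ∃ M0, ∀ M, M0 ≤ M →
      q m M * Real.exp (θ * (L (m + 1) M' - L m M')) ≤ q (m + 1) M := by
    intro m M' hm
    obtain ⟨A, hA⟩ := h2 m M' (by omega)
    obtain ⟨B, hB⟩ := h3 (m + 1) (by omega)
    refine ⟨max A B, fun M hM => ?_⟩
    have e1 := hA M (le_trans (le_max_left _ _) hM)
    have e2 := hB M (le_trans (le_max_right _ _) hM)
    have hΔ : 0 ≤ L (m + 1) M' - L m M' := sub_nonneg.2 (hLm m M')
    have e4 := hbig m hm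
    have e5 : 0 ≤ q (m + 1) M := (hLnn _ _).trans (hqL _ _ (by omega))
    have e6 : θ * q (m + 1) M * (L (m + 1) M' - L m M') ≤ q (m + 1) M - q m M := by
      refine le_trans ?_ e1
      apply mul_le_mul_of_nonneg_right _ hΔ
      have e7 : θ * q (m + 1) M ≤ θ * (a * K (2 * (m + 1)) + 1) := mul_le_mul_of_nonneg_left e2 hθ.le
      linarith
    set Δ := L (m + 1) M' - L m M' with hΔd
    have e7 : q m M ≤ q (m + 1) M * (1 - θ * Δ) := by linarith
    have e8 : q m M ≤ q (m + 1) M * Real.exp (-(θ * Δ)) := by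
      refine e7.trans (mul_le_mul_of_nonneg_left ?_ e5)
      have := Real.add_one_le_exp (-(θ * Δ))
      linarith
    calc q m M * Real.exp (θ * Δ) ≤ q (m + 1) M * Real.exp (-(θ * Δ)) * Real.exp (θ * Δ) :=
          mul_le_mul_of_nonneg_right e8 (Real.exp_pos _).le
      _ = q (m + 1) M := by rw [mul_assoc, ← Real.exp_add]; simp
  have chain : ∀ m M', m1 ≤ m → ∃ M0, ∀ M, M0 ≤ M →
      q m1 M * Real.exp (θ * (L m M' - L m1 M')) ≤ q m M := by
    intro m M' hm
    induction m, hm using Nat.le_induction with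
    | base => exact ⟨0, fun M _ => by simp⟩
    | succ n hn ih =>
      obtain ⟨A, hA⟩ := ih
      obtain ⟨B, hB⟩ := step n M' hn
      refine ⟨max A B, fun M hM => ?_⟩
      have e1 := hA M (le_trans (le_max_left _ _) hM)
      have e2 := hB M (le_trans (le_max_right _ _) hM)
      have e3 : θ * (L (n + 1) M' - L m1 M') = θ * (L n M' - L m1 M') + θ * (L (n + 1) M' - L n M') := by ring
      rw [e3, Real.exp_add, ← mul_assoc]
      exact (mul_le_mul_of_nonneg_right e1 (Real.exp_pos _).le).trans e2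
  -- bound for L m1
  have hm1b : ∀ M', L m1 M' ≤ a * K (2 * m1) + 1 := by
    intro M'
    obtain ⟨B, hB⟩ := h3 m1 hm1
    have e1 := hB (max B M') (le_max_left _ _)
    have e2 := hqL m1 (max B M') hm1
    have e3 := hL m1 M' (max B M') (le_max_right _ _)
    linarith
  set D : ℝ := Real.exp (θ * (a * K (2 * m1) + 1)) with hD
  have hDpos : 0 < D := Real.exp_pos _
  refine ⟨D * ((a + 1) / L 1 1 + 1), by positivity, fun m M => ?_⟩
  have hKm := hK (2 * m)
  rcases le_total m m1 with hmm | hmm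
  · have e1 : Real.exp (θ * L m M) ≤ D := by
      rw [hD]
      apply Real.exp_le_exp.2
      have h8 := hm1b M
      have h9 := hLmm m m1 M hmm
      exact mul_le_mul_of_nonneg_left (h9.trans h8) hθ.le
    calc Real.exp (θ * L m M) ≤ D := e1
      _ ≤ D * ((a + 1) / L 1 1 + 1) * (1 + K (2 * m)) := by
        have h5 : 1 ≤ ((a + 1) / L 1 1 + 1) * (1 + K (2 * m)) := by
          have h6 : 0 ≤ (a + 1) / L 1 1 := by positivity
          nlinarith
        nlinarith
  · obtain ⟨A, hA⟩ := chain m M hmm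
    obtain ⟨B, hB⟩ := h3 m (le_trans hm1 hmm)
    set N := max (max A B) 1 with hN
    have e1 := hA N (le_trans (le_max_left _ _) (le_max_left _ _))
    have e2 := hB N (le_trans (le_max_right _ _) (le_max_left _ _))
    have e3 : L 1 1 ≤ q m1 N := by
      have := hqL m1 N hm1
      have := hL m1 1 N (le_max_right _ _)
      have := hLmm 1 m1 1 hm1
      linarith
    have e4 : L 1 1 * Real.exp (θ * (L m M - L m1 M)) ≤ a * K (2 * m) + 1 :=
      (mul_le_mul_of_nonneg_right e3 (Real.exp_pos _).le).trans (e1.trans e2)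
    have e5 : Real.exp (θ * L m M) = Real.exp (θ * (L m M - L m1 M)) * Real.exp (θ * L m1 M) := by
      rw [← Real.exp_add]
      congr 1
      ring
    have e6 : Real.exp (θ * L m1 M) ≤ D := by
      rw [hD]
      apply Real.exp_le_exp.2
      exact mul_le_mul_of_nonneg_left (hm1b M) hθ.le
    have e7 : Real.exp (θ * (L m M - L m1 M)) ≤ (a * K (2 * m) + 1) / L 1 1 := by
      rw [le_div_iff₀ hpos]
      linarith
    have e8 : (a * K (2 * m) + 1) / L 1 1 ≤ (a + 1) / L 1 1 * (1 + K (2 * m)) := by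
      rw [div_mul_eq_mul_div]
      apply div_le_div_of_nonneg_right _ hpos.le
      nlinarith
    rw [e5]
    calc Real.exp (θ * (L m M - L m1 M)) * Real.exp (θ * L m1 M)
        ≤ ((a + 1) / L 1 1 * (1 + K (2 * m))) * D :=
          mul_le_mul (e7.trans e8) e6 (Real.exp_pos _).le (by positivity)
      _ ≤ D * ((a + 1) / L 1 1 + 1) * (1 + K (2 * m)) := by
        have : 0 ≤ D * (1 + K (2 * m)) := by positivity
        nlinarith

end LP

end HexObs
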