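import Pool.Agent.HexLoop.Chain

/-!
SD10: the growth from PP m M to PP (m + 1) M.
-/

set_option autoImplicit false

namespace HexObs

namespace LP

open Complex Finset

lemma gp_big {m M : ℕ} {θ θ' : ℤ} (h : 3 * (M : ℤ) ≤ θ) (h' : 3 * (M : ℤ) ≤ θ') : SP m M θ θ' = PP m M := by
  ext v
  rw [mem_SP, mem_PP]
  unfold InSP
  constructor
  · rintro ⟨h1, h2, h3⟩
    rw [abs_lt] at h2
    refine ⟨h1, ?_, by rw [abs_lt]; omega⟩
    rcases h3 with h3 | h3 | h3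
    · exact h3
    · omega
    · omega
  · rintro ⟨h1, h2, h3⟩
    exact ⟨h1, h3, Or.inl h2⟩

lemma gp_mod {v : Pt} (hv : Vt v) : lv v % 3 ≠ 1 := by
  intro h
  apply hv
  unfold cl
  have h2 : (((v.1 - v.2 : ℤ)) : ZMod 3) = ((1 : ℤ) : ZMod 3) := by
    rw [ZMod.intCast_eq_intCast_iff]
    unfold lv at h
    show (v.1 - v.2) % 3 = 1 % 3
    omega
  rw [h2]
  norm_num

lemma gp_small {m M : ℕ} {θ θ' : ℤ} (h : θ ≤ -(3 * (M : ℤ))) (h' : θ' ≤ -(3 * (M : ℤ))) :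
    SP m M θ θ' = PP (m + 1) M := by
  ext v
  rw [mem_SP, mem_PP]
  unfold InSP
  push_cast
  constructor
  · rintro ⟨h1, h2, h3⟩
    refine ⟨h1, ?_, h2⟩
    rw [abs_lt] at h2 ⊢
    rw [abs_lt] at h3
    omega
  · rintro ⟨h1, h2, h3⟩
    refine ⟨h1, h3, ?_⟩
    have h4 := gp_mod h1
    rw [abs_lt] at h2 h3
    rw [abs_lt]
    omega

lemma gp_mono {m M : ℕ} {θ θ' η η' : ℤ} (h : η ≤ θ) (h' : η' ≤ θ') : SP m M θ θ' ⊆ SP m M η η' := by
  intro v hv
  rw [mem_SP] at hv ⊢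
  obtain ⟨h1, h2, h3⟩ := hv
  refine ⟨h1, h2, ?_⟩
  rcases h3 with h3 | ⟨h3, h4, h5⟩ | ⟨h3, h4, h5⟩
  · exact Or.inl h3
  · exact Or.inr (Or.inl ⟨h3, h4, by omega⟩)
  · exact Or.inr (Or.inr ⟨h3, h4, by omega⟩)

lemma PP_mono {m m' M M' : ℕ} (h : m ≤ m') (h' : M ≤ M') : PP m M ⊆ PP m' M' := by
  intro v hv
  rw [mem_PP] at hv ⊢
  obtain ⟨h1, h2, h3⟩ := hv
  rw [abs_lt] at h2 h3
  refine ⟨h1, ?_, ?_⟩ <;> rw [abs_lt] <;> omega

/-- the chain of the double steps. -/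
theorem inc_chain (m M : ℕ) (c : Finset (Pt × Pt) → ℝ)
    (h : ∀ k : ℤ, Inc f0 c (SP m M (3 * k + 1) (3 * k + 1)) (SP m M (3 * k - 2) (3 * k - 2))) :
    Inc f0 c (PP m M) (PP (m + 1) M) := by
  have h1 := Inc.chain (f := f0) (c := c)
    (fun i => SP m M (3 * ((M : ℤ) - i) + 1) (3 * ((M : ℤ) - i) + 1)) (2 * M + 1)
    (fun i _ => gp_mono (by push_cast; omega) (by push_cast; omega))
    (fun i _ => by
      have h2 := h ((M : ℤ) - i)
      have e1 : 3 * ((M : ℤ) - i) - 2 = 3 * ((M : ℤ) - ((i + 1 : ℕ) : ℤ)) + 1 := by push_cast; ring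
      rw [e1] at h2
      exact h2)
  have h3 := h1.2
  have e0 : SP m M (3 * ((M : ℤ) - ((0 : ℕ) : ℤ)) + 1) (3 * ((M : ℤ) - ((0 : ℕ) : ℤ)) + 1) = PP m M :=
    gp_big (by push_cast; omega) (by push_cast; omega)
  have e1 : SP m M (3 * ((M : ℤ) - ((2 * M + 1 : ℕ) : ℤ)) + 1) (3 * ((M : ℤ) - ((2 * M + 1 : ℕ) : ℤ)) + 1) =
      PP (m + 1) M := gp_small (by push_cast; omega) (by push_cast; omega)
  simp only [e0, e1] at h3
  exact h3

/-- first form: all the polygons. -/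
theorem grow1_of (m M : ℕ)
    (h : ∀ k : ℤ, Inc f0 (fun _ => 1) (SP m M (3 * k + 1) (3 * k + 1)) (SP m M (3 * k - 2) (3 * k - 2))) :
    LL (PP (m + 1) M) f0 - LL (PP m M) f0 ≤ QQ (PP (m + 1) M) f0 - QQ (PP m M) f0 :=
  LL_inc (PP_mono (by omega) le_rfl) f0 (fun _ _ _ _ => le_rfl) (inc_chain m M _ h)

/-- a polygon born far from the centre is not in the box. -/
lemma born_far {m M M' : ℕ} {k : ℤ} (hk : (M' : ℤ) + 1 ≤ |k|) {E : Finset (Pt × Pt)}
    (hE : E ∈ polys (SP m M (3 * k - 2) (3 * k - 2))) (hE' : E ∉ polys (SP m M (3 * k + 1) (3 * k + 1))) :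
    E ∉ polys (PP (m + 1) M') := by
  classical
  intro hcon
  apply hE'
  unfold polys at hE hcon ⊢
  rw [Finset.mem_filter, Finset.mem_powerset] at hE hcon ⊢
  refine ⟨fun p hp => ?_, hE.2⟩
  have h1 := hE.1 hp
  have h2 := hcon.1 hp
  rw [Finset.mem_product] at h1 h2 ⊢
  refine ⟨?_, h1.2⟩
  have h3 := h1.1
  have h4 := h2.1
  rw [mem_SP] at h3 ⊢
  rw [mem_PP] at h4
  obtain ⟨a1, a2, a3⟩ := h3
  obtain ⟨_, b2, b3⟩ := h4
  refine ⟨a1, a2, ?_⟩
  rw [abs_lt] at b3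
  rcases a3 with a3 | ⟨a3, a4, a5⟩ | ⟨a3, a4, a5⟩
  · exact Or.inl a3
  · refine Or.inr (Or.inl ⟨a3, a4, ?_⟩)
    rcases le_total 0 k with h0 | h0
    · rw [abs_of_nonneg h0] at hk
      omega
    · rw [abs_of_nonpos h0] at hk
      omega
  · refine Or.inr (Or.inr ⟨a3, a4, ?_⟩)
    rcases le_total 0 k with h0 | h0
    · rw [abs_of_nonneg h0] at hk
      omega
    · rw [abs_of_nonpos h0] at hk
      omega

/-- second form: the polygons in the box PP (m+1) M', with the lower bound β. -/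
theorem grow2_of (m : ℕ) (β : ℝ) (A0 : ℕ)
    (h1 : ∀ (M : ℕ) (k : ℤ), Inc f0 (fun _ => 1) (SP m M (3 * k + 1) (3 * k + 1)) (SP m M (3 * k - 2) (3 * k - 2)))
    (h2 : ∀ (M : ℕ) (k : ℤ), |k| + A0 ≤ M →
      Inc f0 (fun _ => β) (SP m M (3 * k + 1) (3 * k + 1)) (SP m M (3 * k - 2) (3 * k - 2))) (M' : ℕ) :
    ∃ M0 : ℕ, ∀ M, M0 ≤ M → β * (LL (PP (m + 1) M') f0 - LL (PP m M') f0) ≤
      QQ (PP (m + 1) M) f0 - QQ (PP m M) f0 := by
  classical
  refine ⟨A0 + M' + 1, fun M hM => ?_⟩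
  have hLL : 0 ≤ LL (PP (m + 1) M') f0 - LL (PP m M') f0 :=
    sub_nonneg.2 (LL_mono' (PP_mono (by omega) le_rfl) f0)
  rcases le_or_gt 0 β with hβ | hβ
  · set c : Finset (Pt × Pt) → ℝ := fun E => if E ∈ polys (PP (m + 1) M') then β else 0 with hc
    have hI : Inc f0 c (PP m M) (PP (m + 1) M) := by
      apply inc_chain
      intro k
      by_cases hk : |k| + A0 ≤ M
      · refine (h2 M k hk).mono (fun E _ _ _ => ?_)
        rw [hc]
        dsimp only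
        split_ifs
        · exact le_rfl
        · exact hβ
      · refine (h1 M k).mono (fun E hE hE' _ => ?_)
        rw [hc]
        dsimp only
        rw [if_neg (born_far (by push Not at hk; omega) hE hE')]
        exact zero_le_one
    apply LL_inc_box (PP_mono (by omega) le_rfl) (PP_mono le_rfl (by omega)) f0 _ _ _ hI
    · intro v hv hv'
      rw [mem_PP] at hv hv' ⊢
      exact ⟨hv.1, hv.2.1, hv'.2.2⟩
    · intro E _ _ _
      rw [hc]
      dsimp only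
      split_ifs
      · exact hβ
      · exact le_rfl
    · intro E hE _ _
      rw [hc]
      dsimp only
      rw [if_pos hE]
  · have h3 := grow1_of m M (h1 M)
    have h4 : 0 ≤ LL (PP (m + 1) M) f0 - LL (PP m M) f0 :=
      sub_nonneg.2 (LL_mono' (PP_mono (by omega) le_rfl) f0)
    nlinarith

end LP

end HexObs
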