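import Pool.Agent.HexLoop.QQ
import Pool.Agent.HexLoop.Ring
import Pool.Agent.HexLoop.Twist
import Pool.Agent.PHW.Num1

/-!
LOOP, module L18: the hitting estimate.
-/

set_option autoImplicit false

namespace HexObs

namespace LP

open Complex Finset

lemma hit_cross {Ω : Finset Pt} (hΩ : Full Ω) {E : Finset (Pt × Pt)} (hE : E ∈ polys Ω) {p : Pt × Pt}
    (hp : De p) (h0 : p.1 ∉ Ω) {t : List Bool} {i : ℕ} (hi : i ≤ t.length) (h : Ins E (vx p.1 p.2 t i)) :
    Hit (VE E) p t := by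
  obtain ⟨hEp, hsub⟩ := mem_polys.1 hE
  by_contra hc
  have h1 : ∀ k, k ≤ t.length → vx p.1 p.2 t k ∉ VE E := by
    intro k hk h2
    rcases Nat.eq_zero_or_pos k with h3 | h3
    · subst h3
      exact h0 (hsub h2)
    · exact hc ⟨k, h3, hk, h2⟩
  have h2 : ∀ k, k ≤ t.length → ¬ Ins E (vx p.1 p.2 t k) := by
    intro k
    induction k with
    | zero =>
      intro _ h3
      exact h0 (hΩ.2 E hEp hsub _ h3)
    | succ k ih =>
      intro hk h3
      apply ih (by omega)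
      exact (ins_adj hEp (de_vx hp t k) (h1 k (by omega)) (h1 (k + 1) hk)).2 h3
  exact h2 i hi h

lemma hit_vx (k : ℤ) (t : List Bool) (i : ℕ) : vx (ft k).1 up t i = (ft k).1 + vx oo up t i := by
  have h2 := vx_mulE (1, 0) oo (ft k).1 up t i
  rw [mulE_one, mulE_one] at h2
  rw [h2]
  congr 1
  exact sub_zero _

lemma hit_lv_add (v w : Pt) : lv (v + w) = lv v + lv w := by
  unfold lv
  simp only [Prod.fst_add, Prod.snd_add]
  ring

lemma hit_nn_add (v w : Pt) : nn (v + w) = nn v + nn w := by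
  unfold nn
  simp only [Prod.fst_add, Prod.snd_add]
  ring

lemma lv_ft (k : ℤ) : lv (ft k).1 = 0 := by
  show (k • hz up).1 + 2 * (k • hz up).2 = 0
  have : hz up = (2, -1) := by decide
  rw [this]
  simp only [Prod.smul_mk, smul_eq_mul]
  ring

lemma cl_ft (k : ℤ) : cl (ft k).1 = 0 := by
  show (((k • hz up).1 - (k • hz up).2 : ℤ) : ZMod 3) = 0
  have : hz up = (2, -1) := by decide
  rw [this]
  simp only [Prod.smul_mk, smul_eq_mul]
  have h3 : (3 : ZMod 3) = 0 := three_eq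
  push_cast
  linear_combination (k : ZMod 3) * h3

lemma de_ft (k : ℤ) : De (ft k) := by
  refine ⟨upd, ?_, ?_⟩
  · unfold Vt
    rw [cl_ft]
    decide
  · unfold Vt
    rw [cl_add, cl_ft]
    show (0 : ZMod 3) + cl up ≠ 1
    decide

lemma hit_par {T A B : ℕ} (k : ℤ) {t : List Bool} (ht : t ∈ Brd T) (hA : ∀ i, i ≤ t.length →
    -(3 * A : ℤ) < nn (vx (ft k).1 up t i) ∧ nn (vx (ft k).1 up t i) < 3 * B - 1) :
    ∀ i, 1 ≤ i → i ≤ t.length → vx (ft k).1 up t i ∈ Par T A B := by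
  intro i h1 h2
  rw [mem_Brd] at ht
  have h3 := ht.1 i h1 h2
  have h4 : lv (vx (ft k).1 up t i) = lev t i := by
    rw [hit_vx, hit_lv_add, lv_ft, zero_add]
    show (vx oo up t i).1 + 2 * (vx oo up t i).2 = ip (vx oo up t i) up
    unfold ip up
    ring
  rw [mem_par]
  refine ⟨(de_vx (de_ft k) t i).2.1, ?_, ?_, (hA i h2).1, (hA i h2).2⟩
  · rw [h4]
    exact h3.1
  · rw [h4]
    have := h3.2
    omega

lemma hit_box {z v : Pt} {s : ℕ} (h : Bx z s v) : |lv v - lv z| ≤ 3 * s ∧ |nn v - nn z| ≤ 2 * s := by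
  obtain ⟨h1, h2⟩ := h
  simp only [Prod.fst_sub, Prod.snd_sub] at h1 h2
  unfold lv nn
  rw [abs_le] at h1 h2 ⊢
  rw [abs_le]
  omega

lemma hit_bx_mono {z v : Pt} {s s' : ℕ} (hs : s ≤ s') (h : Bx z s v) : Bx z s' v := by
  unfold Bx at *
  constructor
  · have := h.1
    omega
  · have := h.2
    omega

lemma hit_bx_self (z : Pt) (s : ℕ) : Bx z s z := by
  unfold Bx
  rw [sub_self]
  simp

lemma VE_ne {E : Finset (Pt × Pt)} (hE : IsPoly E) : ∃ v, v ∈ VE E := by
  obtain ⟨v, d, τ, m, hP, rfl⟩ := hE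
  exact ⟨v, Finset.mem_image.2 ⟨(v, d), Finset.mem_image.2 ⟨0, mem_range.2 hP.pos, rfl⟩, rfl⟩⟩

/-- the estimate for given scales. -/
lemma hit_scales {T A B : ℕ} (hT : 1 ≤ T) (hA : 1 ≤ A) (hB : 1 ≤ B) {z : Pt} (hz0 : cl z = 0) {c W : ℝ} (hW : 0 ≤ W)
    {J : ℕ} (e : ℕ → ℕ) (R : ℕ) (he : ∀ j k, j < k → R * e j ≤ e k) (𝓔 : ℕ → Finset (Finset (Pt × Pt)))
    (h1 : ∀ j, j < J → ∀ E ∈ 𝓔 j, IsPoly E ∧ (∀ v ∈ VE E, Bx z (R * e j) v) ∧ ∀ v, Vt v → Bx z (e j) v → Ins E v)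
    (h2 : ∀ j, j < J → c ≤ ∑ E ∈ 𝓔 j, xc ^ E.card)
    (h3 : ∀ j, j < J → ∀ v, Vt v → Bx z (R * e j) v → v ∈ Par T A B)
    (h4 : ∀ j, j < J → ∀ E ∈ 𝓔 j, W ≤ HH (Par T A B) (VE E)) :
    (J : ℝ) * c * W ≤ QQ (Par T A B) (z + rotL up) := by
  classical
  have hf : Fc (z + rotL up) := by
    unfold Fc
    rw [cl_add, hz0]
    decide
  have hzd : De (z, up) := by
    refine ⟨upd, ?_, ?_⟩
    · show cl z ≠ 1
      rw [hz0]
      decide
    · show cl (z + up) ≠ 1
      rw [cl_add, hz0]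
      decide
  have hvt : Vt z := hzd.2.1
  have hmem : ∀ j, j < J → ∀ E ∈ 𝓔 j, E ∈ (polys (Par T A B)).filter (fun E => Nw E (z + rotL up) ≠ 0) := by
    intro j hj E hE
    obtain ⟨a1, a2, a3⟩ := h1 j hj E hE
    rw [Finset.mem_filter, mem_polys]
    refine ⟨⟨a1, ?_⟩, ?_⟩
    · intro v hv
      have hv2 := hv
      unfold VE at hv2
      rw [Finset.mem_image] at hv2
      obtain ⟨q, hq, rfl⟩ := hv2
      exact h3 j hj _ (isPoly_de a1 hq).2.1 (a2 _ hv)
    · have h5 := a3 z hvt (hit_bx_self z _)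
      have h6 : z ∉ VE E := h5.2.1
      exact ((ins_edge a1 hzd h6).1 h5).2.2
  have hdis : ∀ j ∈ range J, ∀ k ∈ range J, j ≠ k → Disjoint (𝓔 j) (𝓔 k) := by
    have key : ∀ j k, j < k → k < J → Disjoint (𝓔 j) (𝓔 k) := by
      intro j k hjk hk
      rw [Finset.disjoint_left]
      intro E hE hE'
      obtain ⟨a1, a2, a3⟩ := h1 j (by omega) E hE
      obtain ⟨b1, b2, b3⟩ := h1 k hk E hE'
      obtain ⟨v, hv⟩ := VE_ne a1
      have hv2 := hv
      unfold VE at hv2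
      rw [Finset.mem_image] at hv2
      obtain ⟨q, hq, rfl⟩ := hv2
      exact (b3 _ (isPoly_de a1 hq).2.1 (hit_bx_mono (he j k hjk) (a2 _ hv))).2.1 hv
    intro j hj k hk hjk
    rw [mem_range] at hj hk
    rcases lt_or_gt_of_ne hjk with h | h
    · exact key j k h hk
    · exact (key k j h hj).symm
  have hl := loop (par_full T A B) hf
  refine le_trans ?_ hl
  have hx := xc_pos
  have e1 : ∑ E ∈ (range J).biUnion 𝓔, xc ^ E.card * HH (Par T A B) (VE E) ≤
      ∑ E ∈ (polys (Par T A B)).filter (fun E => Nw E (z + rotL up) ≠ 0), xc ^ E.card * HH (Par T A B) (VE E) := by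
    apply Finset.sum_le_sum_of_subset_of_nonneg
    · intro E hE
      rw [Finset.mem_biUnion] at hE
      obtain ⟨j, hj, hE⟩ := hE
      rw [mem_range] at hj
      exact hmem j hj E hE
    · intro E _ _
      exact mul_nonneg (pow_pos hx _).le (HH_nonneg hT hA hB _)
  refine le_trans ?_ e1
  rw [Finset.sum_biUnion hdis]
  calc (J : ℝ) * c * W = ∑ j ∈ range J, c * W := by
        rw [Finset.sum_const, card_range, nsmul_eq_mul]
        ring
    _ ≤ ∑ j ∈ range J, ∑ E ∈ 𝓔 j, xc ^ E.card * HH (Par T A B) (VE E) := by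
        apply Finset.sum_le_sum
        intro j hj
        rw [mem_range] at hj
        calc c * W ≤ (∑ E ∈ 𝓔 j, xc ^ E.card) * W := mul_le_mul_of_nonneg_right (h2 j hj) hW
          _ = ∑ E ∈ 𝓔 j, xc ^ E.card * W := Finset.sum_mul _ _ _
          _ ≤ _ := Finset.sum_le_sum (fun E hE => mul_le_mul_of_nonneg_left (h4 j hj E hE) (pow_pos hx _).le)

/-- THE HITTING ESTIMATE: bridges (from all the feet) that meet the box of size s around z. -/
theorem hit_le : ∀ η : ℝ, 0 < η → ∃ (C : ℝ) (M : ℕ), 0 < C ∧ 1 ≤ M ∧ ∀ (T s : ℕ) (z : Pt), 1 ≤ s → M * s ≤ T →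
    cl z = 0 → 3 * η * T ≤ lv z → (lv z : ℝ) ≤ 3 * T - 3 * η * T → ∀ X : Finset (ℤ × List Bool),
    (∀ x ∈ X, x.2 ∈ Brd T ∧ ∃ i, 1 ≤ i ∧ i ≤ x.2.length ∧ Bx z s (vx (ft x.1).1 up x.2 i)) →
    (∑ x ∈ X, xc ^ x.2.length) * Real.log (T / (M * s)) ≤ C * T * uu T := by
  intro η hη
  obtain ⟨R, e0, c, hR, he0, hc, hring⟩ := ring
  obtain ⟨C, hC, hQ⟩ := QQ_le (η / 2) (by positivity)
  obtain ⟨M, hM⟩ := exists_nat_gt ((R * e0 : ℝ) / η + 1 / η)
  have hR1 : (1 : ℝ) ≤ R := by exact_mod_cast hR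
  have he1 : (1 : ℝ) ≤ e0 := by exact_mod_cast he0
  have hM0 : (0 : ℝ) < M := lt_of_le_of_lt (by positivity) hM
  have hMM : (R * e0 : ℝ) + 1 ≤ η * M := by
    have h1 : ((R * e0 : ℝ) / η + 1 / η) * η = R * e0 + 1 := by
      field_simp
    nlinarith [mul_lt_mul_of_pos_right hM hη]
  have hM1 : 1 ≤ M := by
    by_contra h
    have : M = 0 := by omega
    rw [this] at hM0
    simp at hM0
  have hΛ : (0 : ℝ) < Real.log (R + 1) := Real.log_pos (by linarith)
  refine ⟨(C + 1) * Real.log (R + 1) / c, M, by positivity, hM1, ?_⟩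
  intro T s z hs hMs hz0 hz1 hz2 X hX
  have hsR : (1 : ℝ) ≤ s := by exact_mod_cast hs
  have hMsR : (M * s : ℝ) ≤ T := by exact_mod_cast hMs
  have hT : 1 ≤ T := by
    have : 1 ≤ M * s := Nat.mul_pos hM1 hs
    omega
  have hTR : (1 : ℝ) ≤ T := by exact_mod_cast hT
  have hMT : (M : ℝ) ≤ T := by nlinarith
  have hηT : 1 ≤ η * T := by
    have h1 : η * M ≤ η * T := mul_le_mul_of_nonneg_left hMT hη.le
    have h2 : (0 : ℝ) ≤ R * e0 := by positivity
    linarith
  have hu := uu_pos T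
  -- the scales
  set e : ℕ → ℕ := fun j => e0 * s * (R + 1) ^ j with he
  have he_pos : ∀ j, 1 ≤ e j := fun j => Nat.mul_pos (Nat.mul_pos he0 hs) (pow_pos (Nat.succ_pos R) j)
  have hex : ∃ j : ℕ, η * T ≤ R * e j := by
    obtain ⟨j, hj⟩ := pow_unbounded_of_one_lt (η * T) (show (1 : ℝ) < R + 1 by linarith)
    refine ⟨j, ?_⟩
    rw [he]
    push_cast
    have h1 : (1 : ℝ) ≤ R * (e0 * s) := by
      have : (1 : ℝ) ≤ e0 * s := by nlinarith
      nlinarith
    have h2 : (0 : ℝ) < (R + 1) ^ j := by positivity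
    nlinarith
  classical
  set J := Nat.find hex with hJ
  have hJ1 : η * T ≤ R * e J := Nat.find_spec hex
  have hJ2 : ∀ j, j < J → (R : ℝ) * e j < η * T := fun j hj => not_le.1 (Nat.find_min hex hj)
  have hmono : ∀ j k, j < k → R * e j ≤ e k := by
    intro j k hjk
    show R * (e0 * s * (R + 1) ^ j) ≤ e0 * s * (R + 1) ^ k
    have h1 : (R + 1) ^ (j + 1) ≤ (R + 1) ^ k := Nat.pow_le_pow_right (Nat.succ_pos R) hjk
    calc R * (e0 * s * (R + 1) ^ j) = e0 * s * ((R + 1) ^ j * R) := by ring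
      _ ≤ e0 * s * ((R + 1) ^ j * (R + 1)) := by gcongr; omega
      _ = e0 * s * (R + 1) ^ (j + 1) := by rw [pow_succ]
      _ ≤ _ := Nat.mul_le_mul_left _ h1
  have hch : ∀ j, ∃ 𝓔 : Finset (Finset (Pt × Pt)), (∀ E ∈ 𝓔, IsPoly E ∧ (∀ v ∈ VE E, Bx z (R * e j) v) ∧
      ∀ v, Vt v → Bx z (e j) v → Ins E v) ∧ c ≤ ∑ E ∈ 𝓔, xc ^ E.card := by
    intro j
    apply hring (e j) z _ hz0
    show e0 ≤ e0 * s * (R + 1) ^ j
    rw [mul_assoc]
    exact Nat.le_mul_of_pos_right _ (Nat.mul_pos hs (pow_pos (Nat.succ_pos R) j))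
  choose 𝓔 h𝓔1 h𝓔2 using hch
  -- the domain
  have hfl : lv (z + rotL up) = lv z + 1 := by
    rw [hit_lv_add]
    rfl
  obtain ⟨A0, hA0⟩ := hQ T (z + rotL up) hT (by
      unfold Fc
      rw [cl_add, hz0]
      decide) (by
      rw [hfl]
      have : (0 : ℝ) < lv z := by nlinarith
      have : 0 < lv z := by exact_mod_cast this
      omega) (by
      rw [hfl]
      push_cast
      linarith) (T * uu T) (by positivity)
  set N := ∑ x ∈ X, ∑ i ∈ range (x.2.length + 1), (nn (vx (ft x.1).1 up x.2 i)).natAbs with hN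
  obtain ⟨N', hN'⟩ := exists_nat_ge (η * T)
  set A := A0 + N + (nn z).natAbs + 2 * N' + 2 with hAd
  have hA1 : 1 ≤ A := by omega
  have hQQ := hA0 A A (by omega) (by omega)
  have hW : 0 ≤ ∑ x ∈ X, xc ^ x.2.length := Finset.sum_nonneg (fun x _ => (pow_pos xc_pos _).le)
  have hbox : ∀ j, j < J → ∀ v, Vt v → Bx z (R * e j) v → v ∈ Par T A A := by
    intro j hj v hv hvb
    have h1 := hit_box hvb
    have h2 := hJ2 j hj
    have h3 : ((R * e j : ℕ) : ℝ) < η * T := by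
      push_cast
      exact h2
    have h4 : R * e j ≤ N' := by
      have : ((R * e j : ℕ) : ℝ) ≤ N' := h3.le.trans hN'
      exact_mod_cast this
    have h5 : (lv v : ℝ) - lv z ≤ 3 * (R * e j : ℕ) ∧ -(3 * (R * e j : ℕ) : ℝ) ≤ (lv v : ℝ) - lv z := by
      have := abs_le.1 h1.1
      constructor
      · exact_mod_cast this.2
      · exact_mod_cast this.1
    rw [mem_par]
    refine ⟨hv, ?_, ?_, ?_, ?_⟩
    · have : (0 : ℝ) < lv v := by linarith [h5.2]
      exact_mod_cast this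
    · have : (lv v : ℝ) < 3 * T + 2 := by linarith [h5.1]
      exact_mod_cast this
    · have := abs_le.1 h1.2
      omega
    · have := abs_le.1 h1.2
      omega
  have hHH : ∀ j, j < J → ∀ E ∈ 𝓔 j, ∑ x ∈ X, xc ^ x.2.length ≤ HH (Par T A A) (VE E) := by
    intro j hj E hE
    obtain ⟨a1, a2, a3⟩ := h𝓔1 j E hE
    apply HH_ge hT hA1 hA1 X
    intro x hx
    obtain ⟨b1, i, b2, b3, b4⟩ := hX x hx
    have hpoly : E ∈ polys (Par T A A) := by
      rw [mem_polys]
      refine ⟨a1, ?_⟩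
      intro v hv
      have hv2 := hv
      unfold VE at hv2
      rw [Finset.mem_image] at hv2
      obtain ⟨q, hq, rfl⟩ := hv2
      exact hbox j hj _ (isPoly_de a1 hq).2.1 (a2 _ hv)
    have hft0 : (ft x.1).1 ∉ Par T A A := by
      rw [mem_par, lv_ft]
      intro h
      exact absurd h.2.1 (lt_irrefl _)
    refine ⟨b1, ?_, ?_⟩
    · apply hit_par x.1 b1
      intro k hk
      have h1 : (nn (vx (ft x.1).1 up x.2 k)).natAbs ≤ N := by
        have h2 : (nn (vx (ft x.1).1 up x.2 k)).natAbs ≤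
            ∑ i ∈ range (x.2.length + 1), (nn (vx (ft x.1).1 up x.2 i)).natAbs :=
          Finset.single_le_sum (f := fun i => (nn (vx (ft x.1).1 up x.2 i)).natAbs)
            (fun _ _ => Nat.zero_le _) (mem_range.2 (by omega))
        exact h2.trans (Finset.single_le_sum (f := fun x : ℤ × List Bool =>
          ∑ i ∈ range (x.2.length + 1), (nn (vx (ft x.1).1 up x.2 i)).natAbs) (fun _ _ => Nat.zero_le _) hx)
      omega
    · apply hit_cross (par_full T A A) hpoly (de_ft x.1) hft0 b3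
      apply a3 _ (de_vx (de_ft x.1) x.2 i).2.1
      apply hit_bx_mono _ b4
      show s ≤ e0 * s * (R + 1) ^ j
      calc s ≤ e0 * s := Nat.le_mul_of_pos_left _ he0
        _ ≤ _ := Nat.le_mul_of_pos_right _ (pow_pos (Nat.succ_pos R) j)
  have hmain := hit_scales hT hA1 hA1 hz0 hW e R hmono 𝓔 (J := J) (fun j _ => h𝓔1 j) (fun j _ => h𝓔2 j) hbox hHH
  -- the number of scales
  have hlog : Real.log (T / (M * s)) ≤ J * Real.log (R + 1) := by
    rw [← Real.log_pow]
    apply Real.log_le_log (by positivity)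
    rw [div_le_iff₀ (by positivity)]
    have h1 : η * T ≤ R * (e0 * s * (R + 1) ^ J) := by
      have := hJ1
      rw [he] at this
      push_cast at this
      exact this
    have h2 : (0 : ℝ) < (R + 1) ^ J := by positivity
    have h3 : η * T ≤ η * ((R + 1) ^ J * (M * s)) := by
      calc η * T ≤ R * (e0 * s * (R + 1) ^ J) := h1
        _ = (R * e0) * (s * (R + 1) ^ J) := by ring
        _ ≤ (η * M) * (s * (R + 1) ^ J) := by
            apply mul_le_mul_of_nonneg_right _ (by positivity)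
            linarith
        _ = _ := by ring
    exact le_of_mul_le_mul_left h3 hη
  calc (∑ x ∈ X, xc ^ x.2.length) * Real.log (T / (M * s))
      ≤ (∑ x ∈ X, xc ^ x.2.length) * (J * Real.log (R + 1)) := mul_le_mul_of_nonneg_left hlog hW
    _ = (J * c * ∑ x ∈ X, xc ^ x.2.length) * (Real.log (R + 1) / c) := by
        field_simp
    _ ≤ (C * T * uu T + T * uu T) * (Real.log (R + 1) / c) :=
        mul_le_mul_of_nonneg_right (hmain.trans hQQ) (by positivity)
    _ = (C + 1) * Real.log (R + 1) / c * T * uu T := by ring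

end LP

end HexObs
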