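import Pool.Agent.HexLoop.Wind

/-!
LOOP, module L2: Jordan's theorem and Hopf's Umlaufsatz for lattice polygons.
-/

set_option autoImplicit false

namespace HexObs

namespace LP

open Complex Finset


section L2

variable {v d : Pt} {τ : ℕ → Bool} {m : ℕ}

private lemma j_face (d : Pt) (hd : d ∈ dirs) (c : ZMod 3) (h1 : c ≠ 1) (h2 : c + cl d ≠ 1) :
    c + cl (rotL d) = 1 ∧ c + cl (rotR d) = 1 := by
  revert d
  revert c
  decide +kernel

private lemma j_left {p : Pt × Pt} (hp : De p) : Fc (p.1 + rotL p.2) := by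
  obtain ⟨h1, h2, h3⟩ := hp
  unfold Vt at h2 h3
  rw [cl_add] at h3
  unfold Fc
  rw [cl_add]
  exact (j_face p.2 h1 (cl p.1) h2 h3).1

private lemma j_vt (d : Pt) (hd : d ∈ dirs) (b : Bool) (c : ZMod 3) (h1 : c ≠ 1) (h2 : c + cl d ≠ 1) :
    c + cl d + cl (turn b d) ≠ 1 := by
  revert d
  revert c b
  decide +kernel

private lemma j_tab (d : Pt) (hd : d ∈ dirs) : -d ≠ rotR d ∧ -d ≠ rotL d ∧ rotL d ≠ rotR d ∧ rotL d ∈ dirs ∧
    rotR d ∈ dirs := by
  revert d
  decide +kernel

/-- the faces on the left of consecutive edges, and the faces on the right, have the same winding numbers -/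
private lemma j_step {E : Finset (Pt × Pt)} (hE : IsPoly E) {w x : Pt} {b : Bool} (hp : (w, x) ∈ E)
    (hq : (w + x, turn b x) ∈ E) :
    Nw E (w + x + rotL (turn b x)) = Nw E (w + rotL x) ∧ Nw E (w + x + rotR (turn b x)) = Nw E (w + rotR x) := by
  have hd := isPoly_de hE hp
  obtain ⟨hx, hw, hwx⟩ := hd
  have ht := j_tab x hx
  have hin : (w + x, -x) ∈ rE E := by
    rw [mem_rE]
    have e : rv (w + x, -x) = (w, x) := by
      unfold rv
      simp
    rw [e]
    exact hp
  -- the third edge is not on E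
  have key : ∀ y, y ∈ dirs → y ≠ turn b x → -x ≠ y → (w + x, y) ∉ E ∧ rv (w + x, y) ∉ E := by
    intro y _ h1 h2
    constructor
    · intro h
      exact h1 (isPoly_fun hE h hq)
    · intro h
      have h3 : (w + x, y) ∈ rE E := mem_rE.2 h
      exact h2 (isPoly_fun (isPoly_rE hE) hin h3)
  have hde : ∀ c : Bool, De (w + x, turn c x) := by
    intro c
    refine ⟨?_, hwx, ?_⟩
    · cases c
      · exact ht.2.2.2.2
      · exact ht.2.2.2.1
    · unfold Vt
      show cl (w + x + turn c x) ≠ 1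
      rw [cl_add, cl_add]
      unfold Vt at hw hwx
      have hwx' : cl w + cl x ≠ 1 := by
        have : cl (w + x) ≠ 1 := hwx
        rwa [cl_add] at this
      exact j_vt x hx c (cl w) hw hwx'
  cases b
  · -- right turn
    have hk := key (rotL x) ht.2.2.2.1 (fun h => ht.2.2.1 h) ht.2.1
    have h1 := Nw_edge hE (hde true)
    have e0 : turn true x = rotL x := rfl
    rw [e0, if_neg hk.1, if_neg hk.2, sub_self] at h1
    have e1 : w + x + rotL (turn false x) = w + x + rotR (turn true x) := by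
      simp only [turn, Bool.false_eq_true, if_false, if_true, rotL, rotR]
      ext <;> simp
    have e2 : w + rotL x = w + x + rotL (turn true x) := by
      simp only [turn, if_true, rotL]
      ext <;> simp <;> ring
    have e3 : w + x + rotR (turn false x) = w + rotR x := by
      simp only [turn, Bool.false_eq_true, if_false, rotR]
      ext <;> simp <;> ring
    have h1' : Nw E (w + x + rotL (turn true x)) - Nw E (w + x + rotR (turn true x)) = 0 := h1
    constructor
    · rw [e1, e2]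
      linarith
    · rw [e3]
  · -- left turn
    have hk := key (rotR x) ht.2.2.2.2 (fun h => ht.2.2.1 h.symm) ht.1
    have h1 := Nw_edge hE (hde false)
    have e0 : turn false x = rotR x := rfl
    rw [e0, if_neg hk.1, if_neg hk.2, sub_self] at h1
    have e1 : w + x + rotR (turn true x) = w + x + rotL (turn false x) := by
      simp only [turn, Bool.false_eq_true, if_false, if_true, rotL, rotR]
      ext <;> simp
    have e2 : w + rotR x = w + x + rotR (turn false x) := by
      simp only [turn, Bool.false_eq_true, if_false, rotR]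
      ext <;> simp <;> ring
    have e3 : w + x + rotL (turn true x) = w + rotL x := by
      simp only [turn, if_true, rotL]
      ext <;> simp <;> ring
    have h1' : Nw E (w + x + rotL (turn false x)) - Nw E (w + x + rotR (turn false x)) = 0 := h1
    constructor
    · rw [e3]
    · rw [e1, e2]
      linarith

private lemma j_isPoly (h : Poly v d τ m) : IsPoly (pe v d τ m) := ⟨v, d, τ, m, h, rfl⟩

private lemma j_mem (h : Poly v d τ m) (i : ℕ) : eg v d τ i ∈ pe v d τ m := by
  have h1 := (poly_rot h i).2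
  rw [← h1]
  unfold pe
  rw [Finset.mem_image]
  exact ⟨0, Finset.mem_range.2 h.pos, rfl⟩

/-- the winding numbers on the left of all edges are equal, on the right too -/
private lemma j_const (h : Poly v d τ m) (i : ℕ) :
    Nw (pe v d τ m) ((eg v d τ i).1 + rotL (eg v d τ i).2) = Nw (pe v d τ m) (v + rotL d) ∧
      Nw (pe v d τ m) ((eg v d τ i).1 + rotR (eg v d τ i).2) = Nw (pe v d τ m) (v + rotR d) := by
  induction i with
  | zero => exact ⟨rfl, rfl⟩
  | succ i ih =>
    have h1 := j_mem h i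
    have h2 := j_mem h (i + 1)
    have h3 : eg v d τ (i + 1) = (vs v d τ i + ds d τ i, turn (τ i) (ds d τ i)) := rfl
    rw [h3] at h2
    have h4 := j_step (j_isPoly h) h1 h2
    rw [h3]
    exact ⟨h4.1.trans ih.1, h4.2.trans ih.2⟩

private lemma j_ray (g : Pt) (k : ℕ) : ((g.1 - (k + 1 : ℕ), g.2 - (k + 1 : ℕ)) : Pt) =
    (g.1 - (k : ℕ) + -1, g.2 - (k : ℕ)) + rotR (1, -1) := by
  simp only [rotR]
  ext <;> simp <;> ring

/-- one step along the ray below the face g -/
private lemma j_down {E : Finset (Pt × Pt)} (hE : IsPoly E) {NL NR : ℤ} (hL : ∀ p ∈ E, Nw E (p.1 + rotL p.2) = NL)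
    (hR : ∀ p ∈ E, Nw E (p.1 + rotR p.2) = NR) {g : Pt} (hg : Fc g) :
    Nw E g = Nw E (g + (-1, -1)) ∨ (Nw E g = NL ∧ Nw E (g + (-1, -1)) = NR) ∨
      (Nw E g = NR ∧ Nw E (g + (-1, -1)) = NL) := by
  have hc : cl g = 1 := hg
  have hde : De (g + (-1, 0), (1, -1)) := by
    refine ⟨(by decide : ((1, -1) : Pt) ∈ dirs), ?_, ?_⟩
    · unfold Vt
      show cl (g + (-1, 0)) ≠ 1
      rw [cl_add, hc]
      decide
    · unfold Vt
      show cl (g + (-1, 0) + (1, -1)) ≠ 1
      rw [cl_add, cl_add, hc]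
      decide
  have e1 : g + (-1, 0) + rotL (1, -1) = g := by
    simp only [rotL]
    ext <;> simp
  have e2 : g + (-1, 0) + rotR (1, -1) = g + (-1, -1) := by
    simp only [rotR]
    ext <;> simp
  have h1 := Nw_edge hE hde
  have h1' : Nw E (g + (-1, 0) + rotL (1, -1)) - Nw E (g + (-1, 0) + rotR (1, -1)) =
    (if ((g + (-1, 0), (1, -1)) : Pt × Pt) ∈ E then 1 else 0) -
      (if rv ((g + (-1, 0), (1, -1)) : Pt × Pt) ∈ E then 1 else 0) := h1
  rw [e1, e2] at h1'
  by_cases ha : ((g + (-1, 0), (1, -1)) : Pt × Pt) ∈ E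
  · right
    left
    have h2 : Nw E (g + (-1, 0) + rotL (1, -1)) = NL := hL _ ha
    have h3 : Nw E (g + (-1, 0) + rotR (1, -1)) = NR := hR _ ha
    rw [e1] at h2
    rw [e2] at h3
    exact ⟨h2, h3⟩
  · by_cases hb : rv ((g + (-1, 0), (1, -1)) : Pt × Pt) ∈ E
    · right
      right
      have h2 := hL _ hb
      have h3 := hR _ hb
      have e3 : (rv ((g + (-1, 0), (1, -1)) : Pt × Pt)).1 + rotL (rv ((g + (-1, 0), (1, -1)) : Pt × Pt)).2 =
          g + (-1, -1) := by
        simp only [rv, rotL]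
        ext <;> simp
      have e4 : (rv ((g + (-1, 0), (1, -1)) : Pt × Pt)).1 + rotR (rv ((g + (-1, 0), (1, -1)) : Pt × Pt)).2 = g := by
        simp only [rv, rotR]
        ext <;> simp
      rw [e3] at h2
      rw [e4] at h3
      exact ⟨h3, h2⟩
    · left
      rw [if_neg ha, if_neg hb] at h1'
      linarith

private lemma j_fc {g : Pt} (hg : Fc g) : Fc (g + (-1, -1)) := by
  unfold Fc at hg ⊢
  rw [cl_add, hg]
  decide

private lemma j_bound (E : Finset (Pt × Pt)) : ∃ L : ℤ, ∀ v ∈ VE E, L ≤ lv v := by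
  refine ⟨-∑ v ∈ VE E, |lv v|, fun v hv => ?_⟩
  have h1 : |lv v| ≤ ∑ v ∈ VE E, |lv v| :=
    Finset.single_le_sum (f := fun v => |lv v|) (fun _ _ => abs_nonneg _) hv
  have h2 := neg_abs_le (lv v)
  linarith

/-- induction from far below -/
private lemma j_ind (P : Pt → Prop) (L : ℤ) (h0 : ∀ g, Fc g → lv g ≤ L → P g)
    (h1 : ∀ g, Fc g → P (g + (-1, -1)) → P g) : ∀ g, Fc g → P g := by
  have key : ∀ n : ℕ, ∀ g, Fc g → lv g ≤ L + n → P g := by
    intro n
    induction n with
    | zero =>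
      intro g hg hl
      exact h0 g hg (by push_cast at hl; linarith)
    | succ n ih =>
      intro g hg hl
      apply h1 g hg
      apply ih _ (j_fc hg)
      have e : lv (g + (-1, -1)) = lv g - 3 := by
        unfold lv
        simp only [Prod.fst_add, Prod.snd_add]
        ring
      rw [e]
      push_cast at hl
      linarith
  intro g hg
  exact key (lv g - L).toNat g hg (by have := Int.self_le_toNat (lv g - L); linarith)

private lemma j_sum_rot (h : Poly v d τ m) (k : ℕ) :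
    ∑ i ∈ range m, sgn (τ (k + i)) = ∑ i ∈ range m, sgn (τ i) := by
  induction k with
  | zero => simp
  | succ k ih =>
    rw [← ih]
    obtain ⟨n, rfl⟩ : ∃ n, m = n + 1 := ⟨m - 1, by have := h.pos; omega⟩
    rw [Finset.sum_range_succ, Finset.sum_range_succ' (fun i => sgn (τ (k + i)))]
    have e1 : τ (k + 1 + n) = τ (k + 0) := by
      have := h.per k
      rw [add_zero, ← this]
      congr 1
      omega
    rw [e1]
    congr 1
    apply Finset.sum_congr rfl
    intro i _
    congr 2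
    omega

/-- the turning number, if the first vertex is the lowest one -/
private lemma j_hopf (h : Poly v d τ m) (hlow : ∀ i, lv v ≤ lv (vs v d τ i)) :
    (∑ i ∈ range m, sgn (τ i) = -6 ∧ Nw (pe v d τ m) (v + rotL d) = 0) ∨
      (∑ i ∈ range m, sgn (τ i) = 6 ∧ Nw (pe v d τ m) (v + rotR d) = 0) := by
  obtain ⟨n, rfl⟩ : ∃ n, m = n + 1 := ⟨m - 1, by have := h.pos; omega⟩
  obtain ⟨e, he⟩ : ∃ e, e = ds d τ n := ⟨_, rfl⟩
  obtain ⟨hd, hv, hvd⟩ := h.de
  have hem : e ∈ dirs := by
    rw [he]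
    exact ds_mem hd n
  have hlast : vs v d τ n + e = v := by
    rw [he, ← vs_succ]
    exact h.clv
  have hturn : turn (τ n) e = d := by
    rw [he, ← ds_succ]
    exact h.cld
  -- levels
  have hlev : ∀ a b : Pt, lv (a + b) = lv a + lv b := by
    intro a b
    unfold lv
    simp only [Prod.fst_add, Prod.snd_add]
    ring
  have l1 : 0 ≤ lv d := by
    have h1 := hlow 1
    have e1 : vs v d τ 1 = v + d := rfl
    rw [e1, hlev] at h1
    linarith
  have l2 : lv e ≤ 0 := by
    have h1 := hlow n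
    have h2 := congrArg lv hlast
    rw [hlev] at h2
    linarith
  have hc : cl v ≠ 1 := hv
  have hc2 : cl v + cl d ≠ 1 := by
    have : cl (v + d) ≠ 1 := hvd
    rwa [cl_add] at this
  have hc3 : cl v - cl e ≠ 1 := by
    have h1 := (poly_de h n).2.1
    have h2 : cl (vs v d τ n) ≠ 1 := h1
    have h3 : vs v d τ n = v - e := eq_sub_iff_add_eq.2 hlast
    rwa [h3, cl_sub] at h2
  have htab : ∀ x ∈ dirs, ∀ y ∈ dirs, ∀ b : Bool, ∀ c : ZMod 3, 0 ≤ lv x → lv y ≤ 0 → turn b y = x → c ≠ 1 →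
      c + cl x ≠ 1 → c - cl y ≠ 1 →
      c = 2 ∧ ((x = (-1, 1) ∧ b = false) ∨ (x = (1, 0) ∧ b = true)) := by
    unfold lv
    decide +kernel
  obtain ⟨hcv, hcase⟩ := htab d hd e hem (τ n) (cl v) l1 l2 hturn hc hc2 hc3
  -- the walk from below
  obtain ⟨b, hb⟩ : ∃ b : Bool, b = !(τ n) := ⟨_, rfl⟩
  have hupd : ((0, 1) : Pt) ∈ dirs := by decide
  have hbt : turn b (0, 1) = d := by
    rcases hcase with ⟨hx, ht⟩ | ⟨hx, ht⟩
    · rw [hb, ht, hx]
      rfl
    · rw [hb, ht, hx]
      rfl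
  obtain ⟨ν, hν⟩ : ∃ ν : ℕ → Bool, ν = fun i => if i = 0 then b else τ (i - 1) := ⟨_, rfl⟩
  have hν0 : ν 0 = b := by rw [hν]; simp
  have hνs : ∀ i, ν (1 + i) = τ i := by
    intro i
    rw [hν]
    show (if 1 + i = 0 then b else τ (1 + i - 1)) = τ i
    rw [if_neg (by omega)]
    congr 1
    omega
  obtain ⟨w, hw⟩ : ∃ w : Pt, w = v - (0, 1) := ⟨_, rfl⟩
  have hw1 : vs w (0, 1) ν 1 = v := by
    show w + (0, 1) = v
    rw [hw]
    abel
  have hd1 : ds (0, 1) ν 1 = d := by
    show turn (ν 0) (0, 1) = d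
    rw [hν0, hbt]
  have hvs : ∀ i, vs w (0, 1) ν (1 + i) = vs v d τ i := by
    intro i
    rw [vs_shift w (0, 1) ν 1 i, hw1, hd1]
    exact vs_congr i (fun k _ => hνs k)
  have hloop := loop_turn (v0 := w) (τ := ν) hupd (j := 1) (l := n + 1) le_rfl (by omega) (by
      rw [show n + 1 + 1 = 1 + (n + 1) by omega, hvs, hw1]
      exact h.clv) (by
      intro i k hik hk
      rcases Nat.eq_zero_or_pos i with rfl | hi
      · obtain ⟨k', rfl⟩ : ∃ k', k = 1 + k' := ⟨k - 1, by omega⟩
        rw [hvs]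
        intro h1
        have h2 := hlow k'
        have h3 : vs w (0, 1) ν 0 = w := rfl
        rw [← h1, h3, hw] at h2
        unfold lv at h2
        simp only [Prod.fst_sub, Prod.snd_sub] at h2
        linarith
      · obtain ⟨k', rfl⟩ : ∃ k', k = 1 + k' := ⟨k - 1, by omega⟩
        obtain ⟨i', rfl⟩ : ∃ i', i = 1 + i' := ⟨i - 1, by omega⟩
        rw [hvs, hvs]
        exact h.inj i' k' (by omega) (by omega)) (by
      intro i hi _
      obtain ⟨i', rfl⟩ : ∃ i', i = 1 + i' := ⟨i - 1, by omega⟩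
      rw [hvs]
      have h2 := hlow i'
      unfold lv at h2
      unfold ip
      rw [hw]
      simp only [Prod.fst_sub, Prod.snd_sub]
      linarith)
  have hs1 : ∑ i ∈ range n, sgn (τ i) = -5 * sgn b := by
    rw [Nat.sub_self, hν0, Nat.add_sub_cancel] at hloop
    rw [← hloop]
    apply Finset.sum_congr rfl
    intro i _
    rw [hνs]
  have hs2 : sgn (τ n) = -sgn b := by
    rw [hb, sgn_not, neg_neg]
  have hs3 : ∑ i ∈ range (n + 1), sgn (τ i) = -6 * sgn b := by
    rw [Finset.sum_range_succ, hs1, hs2]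
    ring
  -- the faces below
  have hlow' : ∀ u ∈ VE (pe v d τ (n + 1)), lv v ≤ lv u := by
    intro u hu
    unfold VE pe at hu
    rw [Finset.mem_image] at hu
    obtain ⟨p, hp, rfl⟩ := hu
    rw [Finset.mem_image] at hp
    obtain ⟨i, _, rfl⟩ := hp
    exact hlow i
  rcases hcase with ⟨hx, ht⟩ | ⟨hx, ht⟩
  · left
    constructor
    · rw [hs3, hb, ht]
      rfl
    · apply Nw_low
      intro u hu
      refine le_trans ?_ (hlow' u hu)
      rw [hlev, hx]
      unfold lv rotL
      simp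
  · right
    constructor
    · rw [hs3, hb, ht]
      rfl
    · apply Nw_low
      intro u hu
      refine le_trans ?_ (hlow' u hu)
      rw [hlev, hx]
      unfold lv rotR
      simp

/-- Jordan's theorem and Hopf's Umlaufsatz for lattice polygons. -/
theorem jordan (h : Poly v d τ m) : ∃ σ : ℤ, (σ = 1 ∨ σ = -1) ∧ ∑ i ∈ range m, sgn (τ i) = 6 * σ ∧
    (∀ f, Fc f → Nw (pe v d τ m) f = 0 ∨ Nw (pe v d τ m) f = σ) ∧
    ∀ p ∈ pe v d τ m, Nw (pe v d τ m) (p.1 + rotL p.2) = (if σ = 1 then 1 else 0) ∧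
      Nw (pe v d τ m) (p.1 + rotR p.2) = (if σ = 1 then 0 else -1) := by
  have hE := j_isPoly h
  obtain ⟨E, hEE⟩ : ∃ E, E = pe v d τ m := ⟨_, rfl⟩
  obtain ⟨NL, hNL⟩ : ∃ NL, NL = Nw E (v + rotL d) := ⟨_, rfl⟩
  obtain ⟨NR, hNR⟩ : ∃ NR, NR = Nw E (v + rotR d) := ⟨_, rfl⟩
  have hedge : ∀ p ∈ E, ∃ i, p = eg v d τ i := by
    intro p hp
    rw [hEE] at hp
    unfold pe at hp
    rw [Finset.mem_image] at hp
    obtain ⟨i, _, hi⟩ := hp
    exact ⟨i, hi.symm⟩
  have hL : ∀ p ∈ E, Nw E (p.1 + rotL p.2) = NL := by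
    intro p hp
    obtain ⟨i, rfl⟩ := hedge p hp
    rw [hNL, hEE]
    exact (j_const h i).1
  have hR : ∀ p ∈ E, Nw E (p.1 + rotR p.2) = NR := by
    intro p hp
    obtain ⟨i, rfl⟩ := hedge p hp
    rw [hNR, hEE]
    exact (j_const h i).2
  rw [← hEE] at hE ⊢
  have h0 : eg v d τ 0 ∈ E := by
    rw [hEE]
    exact j_mem h 0
  have hd0 := isPoly_de hE h0
  have hLR : NL - NR = 1 := by
    have h1 := Nw_edge hE hd0
    rw [hL _ h0, hR _ h0, if_pos h0, if_neg (isPoly_rv hE h0), sub_zero] at h1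
    exact h1
  obtain ⟨L, hLL⟩ := j_bound E
  have hfar : ∀ g, lv g ≤ L → Nw E g = 0 := fun g hg => Nw_low fun v hv => hg.trans (hLL v hv)
  -- all faces
  have hall : ∀ g, Fc g → Nw E g = 0 ∨ Nw E g = NL ∨ Nw E g = NR := by
    apply j_ind (fun g => Nw E g = 0 ∨ Nw E g = NL ∨ Nw E g = NR) L
    · intro g _ hg
      exact Or.inl (hfar g hg)
    · intro g hg ih
      rcases j_down hE hL hR hg with h1 | ⟨h1, _⟩ | ⟨h1, _⟩
      · rw [h1]
        exact ih
      · exact Or.inr (Or.inl h1)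
      · exact Or.inr (Or.inr h1)
  have hzero : NL = 0 ∨ NR = 0 := by
    by_contra hne
    push Not at hne
    obtain ⟨n1, n2⟩ := hne
    have hind : ∀ g, Fc g → Nw E g = 0 := by
      apply j_ind (fun g => Nw E g = 0) L
      · intro g _ hg
        exact hfar g hg
      · intro g hg ih
        rcases j_down hE hL hR hg with h1 | ⟨_, h1⟩ | ⟨_, h1⟩
        · rw [h1]
          exact ih
        · exact absurd (h1.symm.trans ih) n2
        · exact absurd (h1.symm.trans ih) n1
    apply n1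
    rw [hNL]
    exact hind _ (j_left hd0)
  -- the turning number
  obtain ⟨k, hk⟩ : ∃ k, ∀ i, lv (vs v d τ k) ≤ lv (vs v d τ i) := by
    obtain ⟨k, _, hk⟩ := Finset.exists_min_image (range m) (fun i => lv (vs v d τ i)) ⟨0, Finset.mem_range.2 h.pos⟩
    refine ⟨k, fun i => ?_⟩
    have h1 := j_mem h i
    unfold pe at h1
    rw [Finset.mem_image] at h1
    obtain ⟨i', hi', h2⟩ := h1
    have h3 : vs v d τ i' = vs v d τ i := congrArg Prod.fst h2
    rw [← h3]
    exact hk i' hi'
  obtain ⟨hrot, hpe⟩ := poly_rot h k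
  have hvs : ∀ i, vs (vs v d τ k) (ds d τ k) (fun i => τ (k + i)) i = vs v d τ (k + i) := by
    intro i
    exact (vs_shift v d τ k i).symm
  have hopf := j_hopf hrot (fun i => by rw [hvs]; exact hk (k + i))
  rw [j_sum_rot h k, hpe, ← hEE] at hopf
  have hk1 : Nw E (vs v d τ k + rotL (ds d τ k)) = NL := by
    rw [hNL, hEE]
    exact (j_const h k).1
  have hk2 : Nw E (vs v d τ k + rotR (ds d τ k)) = NR := by
    rw [hNR, hEE]
    exact (j_const h k).2
  rw [hk1, hk2] at hopf
  rcases hopf with ⟨h1, h2⟩ | ⟨h1, h2⟩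
  · refine ⟨-1, Or.inr rfl, by rw [h1]; norm_num, ?_, ?_⟩
    · intro f hf
      rcases hall f hf with h3 | h3 | h3
      · exact Or.inl h3
      · left
        rw [h3, h2]
      · right
        rw [h3]
        linarith
    · intro p hp
      rw [hL p hp, hR p hp, if_neg (by norm_num), if_neg (by norm_num)]
      exact ⟨h2, by linarith⟩
  · refine ⟨1, Or.inl rfl, by rw [h1]; norm_num, ?_, ?_⟩
    · intro f hf
      rcases hall f hf with h3 | h3 | h3
      · exact Or.inl h3
      · right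
        rw [h3]
        linarith
      · left
        rw [h3, h2]
    · intro p hp
      rw [hL p hp, hR p hp, if_pos rfl, if_pos rfl]
      exact ⟨by linarith, h2⟩

private lemma j_sg {E : Finset (Pt × Pt)} (hE : IsPoly E) : ∀ (v d : Pt) (τ : ℕ → Bool) (m : ℕ), Poly v d τ m →
    E = pe v d τ m → (∑ i ∈ range m, sgn (τ i) = 6 * sg E) ∧ (∀ f, Fc f → Nw E f = 0 ∨ Nw E f = sg E) ∧
      ∀ p ∈ E, Nw E (p.1 + rotL p.2) = (if sg E = 1 then 1 else 0) ∧
        Nw E (p.1 + rotR p.2) = (if sg E = 1 then 0 else -1) := by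
  intro v d τ m h hEE
  obtain ⟨σ, h1, h2, h3, h4⟩ := jordan h
  rw [← hEE] at h3 h4
  have h0 : eg v d τ 0 ∈ E := by
    rw [hEE]
    exact j_mem h 0
  have hs : sg E = σ := by
    unfold sg
    rcases h1 with rfl | rfl
    · rw [if_pos]
      refine ⟨_, j_left (isPoly_de hE h0), ?_⟩
      have := (h4 _ h0).1
      rw [this, if_pos rfl]
    · rw [if_neg]
      rintro ⟨f, hf, h5⟩
      rcases h3 f hf with h6 | h6
      · rw [h5] at h6
        norm_num at h6
      · rw [h5] at h6
        norm_num at h6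
  rw [hs]
  exact ⟨h2, h3, h4⟩

theorem Nw_cases {E : Finset (Pt × Pt)} (hE : IsPoly E) {f : Pt} (hf : Fc f) : Nw E f = 0 ∨ Nw E f = sg E := by
  obtain ⟨v, d, τ, m, h, hEE⟩ := hE
  exact (j_sg ⟨v, d, τ, m, h, hEE⟩ v d τ m h hEE).2.1 f hf

theorem sg_cases (E : Finset (Pt × Pt)) : sg E = 1 ∨ sg E = -1 := by
  unfold sg
  split_ifs
  · exact Or.inl rfl
  · exact Or.inr rfl

theorem turn_sum (h : Poly v d τ m) : ∑ i ∈ range m, sgn (τ i) = 6 * sg (pe v d τ m) :=
  (j_sg (j_isPoly h) v d τ m h rfl).1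

theorem side {E : Finset (Pt × Pt)} (hE : IsPoly E) {p : Pt × Pt} (hp : p ∈ E) :
    Nw E (p.1 + rotL p.2) = (if sg E = 1 then 1 else 0) ∧ Nw E (p.1 + rotR p.2) = (if sg E = 1 then 0 else -1) := by
  obtain ⟨v, d, τ, m, h, hEE⟩ := hE
  exact (j_sg ⟨v, d, τ, m, h, hEE⟩ v d τ m h hEE).2.2 p hp

theorem sg_rE {E : Finset (Pt × Pt)} (hE : IsPoly E) : sg (rE E) = -sg E := by
  obtain ⟨v, d, τ, m, h, hEE⟩ := hE
  have hE : IsPoly E := ⟨v, d, τ, m, h, hEE⟩
  have h0 : eg v d τ 0 ∈ E := by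
    rw [hEE]
    exact j_mem h 0
  have hd := isPoly_de hE h0
  have hf := j_left hd
  have hr := isPoly_rE hE
  have h1 := (side hE h0)
  have hmem : rv (eg v d τ 0) ∈ rE E := by
    rw [mem_rE]
    have e : rv (rv (eg v d τ 0)) = eg v d τ 0 := by
      unfold rv
      simp
    rw [e]
    exact h0
  rcases sg_cases E with hs | hs
  · have h2 := h1.1
    rw [hs, if_pos rfl] at h2
    have h3 := Nw_rE hE ((eg v d τ 0).1 + rotL (eg v d τ 0).2)
    rw [h2] at h3
    rcases Nw_cases hr hf with h4 | h4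
    · rw [h3] at h4
      norm_num at h4
    · rw [hs, ← h4, h3]
  · have h2 := h1.2
    rw [hs, if_neg (by norm_num)] at h2
    have h3 := Nw_rE hE ((eg v d τ 0).1 + rotR (eg v d τ 0).2)
    rw [h2] at h3
    have hf' : Fc ((eg v d τ 0).1 + rotR (eg v d τ 0).2) := by
      obtain ⟨g1, g2, g3⟩ := hd
      unfold Vt at g2 g3
      rw [cl_add] at g3
      unfold Fc
      rw [cl_add]
      exact (j_face _ g1 _ g2 g3).2
    rcases Nw_cases hr hf' with h4 | h4
    · rw [h3] at h4
      norm_num at h4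
    · rw [hs, ← h4, h3]

end L2

end LP

end HexObs
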