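import Pool.Agent.HexLoop.Arc
import Pool.Agent.HexLoop.RevW
import Pool.Agent.HexLoop.Par
import Pool.Agent.HexLoop.DefsW
import Pool.Agent.HexLoop.Cnt0
import Pool.Agent.W47.K1
import Pool.Agent.W47.K4
import Pool.Agent.W47.Bridge1

/-!
SD9: the first moment of the arcs is at most C T u_T (helper8).
-/

set_option autoImplicit false

namespace HexObs

namespace LP

open Complex Finset ENNReal

lemma KT_ft (k : ℤ) : (ft k).1 = (2 * k, -k) := by
  unfold ft hz rotR up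
  ext
  · simp
    ring
  · simp

lemma KT_vx (k : ℤ) (t : List Bool) (i : ℕ) : vx (ft k).1 up t i = (ft k).1 + vx oo up t i := by
  have h := CB.vx_trans (ft k).1 oo up t i
  have e : oo + (ft k).1 = (ft k).1 := zero_add _
  rw [e] at h
  rw [h]
  exact add_comm _ _

lemma KT_lv (k : ℤ) (t : List Bool) (i : ℕ) : lv (vx (ft k).1 up t i) = lv (vx oo up t i) := by
  rw [KT_vx, KT_ft]
  unfold lv
  simp only [Prod.fst_add, Prod.snd_add]
  ring

lemma KT_nn (k : ℤ) (t : List Bool) (i : ℕ) : nn (vx (ft k).1 up t i) = 3 * k + nn (vx oo up t i) := by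
  rw [KT_vx, KT_ft]
  unfold nn
  simp only [Prod.fst_add, Prod.snd_add]
  ring

lemma KT_mem {T : ℕ} {v : Pt} (h : v ∈ St T) : Vt v ∧ 0 < lv v ∧ lv v < 3 * T + 2 := by
  have h1 := CC.mem_St.1 h
  have e : CC.lv v = lv v := rfl
  rw [e] at h1
  refine ⟨?_, h1.2⟩
  rw [Vt_iff, ← lv_mod]
  exact h1.1

lemma KT_De (k : ℤ) : De (ft k) := by
  have h : ft k = ((2 * k, -k), (0, 1)) := by
    apply Prod.ext
    · exact KT_ft k
    · rfl
  rw [h]
  apply De_mk
  right
  refine ⟨?_, Or.inl rfl⟩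
  unfold nn
  simp only
  omega

/-- the data of an arc. -/
lemma KT_arc {T : ℕ} {j : ℕ} {t : List Bool} (ht : t ∈ HexObs.Arc (St T) ∅ oo up (foot oo up j)) :
    Saw (St T) oo up t ∧ dx up t t.length = -up ∧ tip oo up t = (2 * (j : ℤ), -(j : ℤ)) := by
  rw [k4_arc] at ht
  refine ⟨ht.1.1, ht.1.2.2, ?_⟩
  rw [ht.2, k4_foot]

lemma KT_len {T : ℕ} {j : ℕ} {t : List Bool} (ht : t ∈ HexObs.Arc (St T) ∅ oo up (foot oo up j)) : 1 ≤ t.length := by
  by_contra hcon
  have hz : t.length = 0 := by omega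
  have h1 := (KT_arc ht).2.1
  rw [hz] at h1
  have h2 : up = -up := h1
  exact absurd h2 (by decide)

/-- the translate of an arc crosses the ray. -/
lemma KT_crs {T : ℕ} {f : Pt} (hf : nn f = 1) (hl : (3 * T + 2 : ℤ) ≤ lv f) {k : ℤ} {j : ℕ} (hk : k ≤ 0)
    (hj : 1 ≤ k + j) {t : List Bool} (ht : t ∈ HexObs.Arc (St T) ∅ oo up (foot oo up j)) : Crs f (ft k) t := by
  obtain ⟨h1, h2, h3⟩ := KT_arc ht
  by_contra hcon
  unfold Crs at hcon
  push Not at hcon
  have hf' : (f.1 - f.2) % 3 = 1 := by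
    unfold nn at hf
    rw [hf]
    rfl
  have hlv : ∀ i, i ≤ t.length → lv (vx (ft k).1 up t i) < lv f := by
    intro i hi
    rw [KT_lv]
    rcases Nat.eq_zero_or_pos i with h4 | h4
    · subst h4
      have : lv (vx oo up t 0) = 0 := rfl
      omega
    · have := (KT_mem (h1.mem i h4 hi)).2.2
      omega
  have key : ∀ i, i ≤ t.length + 1 → ¬ (nn f < nn (vx (ft k).1 up t i)) := by
    intro i
    induction i with
    | zero =>
      intro _
      rw [KT_nn]
      have : nn (vx oo up t 0) = 0 := rfl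
      omega
    | succ i ih =>
      intro hi
      have h5 := hcon i (by omega)
      have h6 : cr f (vx (ft k).1 up t i, dx up t i) = 0 := h5
      have h9 : De (vx (ft k).1 up t i, dx up t i) := de_vx (KT_De k) t i
      rw [w_cr_step hf' h9 (hlv i (by omega)), if_neg (ih (by omega))] at h6
      intro h7
      have h8 : nn f < nn (vx (ft k).1 up t i + dx up t i) := h7
      rw [if_pos h8] at h6
      omega
  apply key (t.length + 1) le_rfl
  rw [KT_nn]
  have e : vx oo up t (t.length + 1) = (2 * (j : ℤ), -(j : ℤ)) := h3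
  rw [e]
  unfold nn at hf ⊢
  simp only
  omega

open Classical in
/-- the finite inequality. -/
lemma KT_fin {T A B : ℕ} {f : Pt} (hf : nn f = 1) (hl : (3 * T + 2 : ℤ) ≤ lv f) (X : Finset (ℕ × List Bool))
    (h : ∀ x ∈ X, (∃ j : ℕ, x.1 < j ∧ x.2 ∈ HexObs.Arc (St T) ∅ oo up (foot oo up j)) ∧
      ∀ i, 1 ≤ i → i ≤ x.2.length → -(3 * A : ℤ) < nn (vx (ft (-(x.1 : ℤ))).1 up x.2 i) ∧
        nn (vx (ft (-(x.1 : ℤ))).1 up x.2 i) < 3 * B - 1) :
    ∑ x ∈ X, xc ^ x.2.length ≤ ∑ a ∈ (bd (Par T A B)).filter (fun a => a.2 = up),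
      ∑ t ∈ (ex0 (Par T A B) a).filter (fun t => dx a.2 t t.length = -up ∧ Crs f a t), xc ^ t.length := by
  have key : ∀ x ∈ X, ft (-(x.1 : ℤ)) ∈ (bd (Par T A B)).filter (fun a => a.2 = up) ∧
      x.2 ∈ (ex0 (Par T A B) (ft (-(x.1 : ℤ)))).filter (fun t => dx (ft (-(x.1 : ℤ))).2 t t.length = -up ∧
        Crs f (ft (-(x.1 : ℤ))) t) := by
    rintro ⟨m, t⟩ hx
    obtain ⟨⟨j, hj, ht⟩, h2⟩ := h _ hx
    simp only at hj ht h2 ⊢
    obtain ⟨a1, a2, a3⟩ := KT_arc ht
    have hmem : ∀ i, 1 ≤ i → i ≤ t.length → vx (ft (-(m : ℤ))).1 up t i ∈ Par T A B := by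
      intro i h3 h4
      obtain ⟨c1, c2, c3⟩ := KT_mem (a1.mem i h3 h4)
      rw [mem_par]
      refine ⟨?_, ?_, ?_, (h2 i h3 h4).1, (h2 i h3 h4).2⟩
      · rw [Vt_iff, ← lv_mod, KT_lv, lv_mod, ← Vt_iff]
        exact c1
      · rw [KT_lv]
        exact c2
      · rw [KT_lv]
        exact c3
    refine ⟨?_, ?_⟩
    · rw [Finset.mem_filter, mem_bd]
      refine ⟨⟨?_, KT_De _, ?_⟩, rfl⟩
      · exact hmem 1 le_rfl (KT_len ht)
      · intro hcon
        have := (mem_par.1 hcon).2.1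
        rw [KT_ft] at this
        unfold lv at this
        simp only at this
        omega
    · rw [Finset.mem_filter, mem_ex0]
      refine ⟨⟨⟨hmem, ?_⟩, ?_⟩, a2, KT_crs hf hl (by omega) (by omega) ht⟩
      · intro i l _ hil hl
        show vx (ft (-(m : ℤ))).1 up t i ≠ vx (ft (-(m : ℤ))).1 up t l
        rw [KT_vx, KT_vx]
        intro hc
        exact a1.inj i l hil hl (add_left_cancel hc)
      · intro hcon
        have h5 := (mem_par.1 hcon).2.1
        have h6 : lv (tp (ft (-(m : ℤ))) t) = lv (tip oo up t) := KT_lv _ t _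
        rw [h6, a3] at h5
        unfold lv at h5
        simp only at h5
        omega
  have hinj : ∀ x ∈ X, ∀ y ∈ X, (⟨ft (-(x.1 : ℤ)), x.2⟩ : Σ _ : Pt × Pt, List Bool) = ⟨ft (-(y.1 : ℤ)), y.2⟩ →
      x = y := by
    rintro ⟨k, t⟩ _ ⟨l, s⟩ _ he
    simp only [Sigma.mk.injEq, heq_eq_eq] at he
    obtain ⟨e1, e2⟩ := he
    have e3 : (ft (-(k : ℤ))).1 = (ft (-(l : ℤ))).1 := by rw [e1]
    rw [KT_ft, KT_ft] at e3
    have e4 := congrArg Prod.snd e3
    simp only at e4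
    rw [e2, show k = l by omega]
  have h1 : ∑ x ∈ X, xc ^ x.2.length =
      ∑ y ∈ X.image (fun x => (⟨ft (-(x.1 : ℤ)), x.2⟩ : Σ _ : Pt × Pt, List Bool)), xc ^ y.2.length := by
    rw [Finset.sum_image hinj]
  rw [h1, Finset.sum_sigma']
  apply Finset.sum_le_sum_of_subset_of_nonneg
  · intro y hy
    rw [Finset.mem_image] at hy
    obtain ⟨x, hx, rfl⟩ := hy
    rw [Finset.mem_sigma]
    exact key x hx
  · intro y _ _
    exact pow_nonneg xc_pos.le _

/-- the first moment of the arcs. -/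
theorem KT_le : ∃ C : ℝ, 0 < C ∧ ∀ T : ℕ, 1 ≤ T → KT T ≤ ENNReal.ofReal (C * T * uu T) := by
  classical
  obtain ⟨C, hC, hfl⟩ := arc_floor
  refine ⟨C, hC, ?_⟩
  intro T hT
  have hf1 : nn (((T : ℤ) + 2, (T : ℤ) + 1) : Pt) = 1 := by
    unfold nn
    simp only
    ring
  have hl1 : lv (((T : ℤ) + 2, (T : ℤ) + 1) : Pt) = 3 * T + 4 := by
    unfold lv
    simp only
    ring
  have hFc : Fc (((T : ℤ) + 2, (T : ℤ) + 1) : Pt) := by
    unfold Fc cl
    simp only
    push_cast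
    ring
  have e1 : KT T = ∑' t : List Bool, ∑' k : ℕ,
      (k : ℝ≥0∞) * (HexObs.Arc (St T) ∅ oo up (foot oo up k)).indicator wE t := by
    rw [ENNReal.tsum_comm]
    unfold KT GG
    apply tsum_congr
    intro k
    rw [K1.gf_indicator, ENNReal.tsum_mul_left]
  rw [e1, ENNReal.tsum_eq_iSup_sum]
  apply iSup_le
  intro s
  have huniq : ∀ t : List Bool, ∀ j k : ℕ, t ∈ HexObs.Arc (St T) ∅ oo up (foot oo up j) →
      t ∈ HexObs.Arc (St T) ∅ oo up (foot oo up k) → j = k := by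
    intro t j k h1 h2
    have h3 := (KT_arc h1).2.2
    rw [(KT_arc h2).2.2] at h3
    have h4 := congrArg Prod.snd h3
    simp only at h4
    omega
  let j : List Bool → ℕ := fun t =>
    if h : ∃ j : ℕ, t ∈ HexObs.Arc (St T) ∅ oo up (foot oo up j) then h.choose else 0
  have hj : ∀ t, j t ≠ 0 → t ∈ HexObs.Arc (St T) ∅ oo up (foot oo up (j t)) := by
    intro t ht
    by_cases h : ∃ j : ℕ, t ∈ HexObs.Arc (St T) ∅ oo up (foot oo up j)
    · have e : j t = h.choose := dif_pos h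
      rw [e]
      exact h.choose_spec
    · exact absurd (dif_neg h) ht
  have hterm : ∀ t, ∑' k : ℕ, (k : ℝ≥0∞) * (HexObs.Arc (St T) ∅ oo up (foot oo up k)).indicator wE t ≤
      ∑ m ∈ Finset.range (j t), wE t := by
    intro t
    rw [Finset.sum_const, Finset.card_range, nsmul_eq_mul]
    by_cases h : ∃ j : ℕ, t ∈ HexObs.Arc (St T) ∅ oo up (foot oo up j)
    · have e : j t = h.choose := dif_pos h
      have h2 : t ∈ HexObs.Arc (St T) ∅ oo up (foot oo up (j t)) := by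
        rw [e]
        exact h.choose_spec
      rw [tsum_eq_single (j t), Set.indicator_of_mem h2]
      intro k hk
      rw [Set.indicator_of_notMem, mul_zero]
      intro h3
      exact hk (huniq t k (j t) h3 h2)
    · have : ∑' k : ℕ, (k : ℝ≥0∞) * (HexObs.Arc (St T) ∅ oo up (foot oo up k)).indicator wE t = 0 := by
        rw [ENNReal.tsum_eq_zero]
        intro k
        rw [Set.indicator_of_notMem, mul_zero]
        intro h3
        exact h ⟨k, h3⟩
      rw [this]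
      exact zero_le
  refine (Finset.sum_le_sum (fun t _ => hterm t)).trans ?_
  rw [Finset.sum_sigma']
  -- the pairs
  let Y : Finset (Σ _ : List Bool, ℕ) := s.sigma (fun t => Finset.range (j t))
  let X : Finset (ℕ × List Bool) := Y.image (fun y => (y.2, y.1))
  have hXsum : ∑ x ∈ X, xc ^ x.2.length = ∑ y ∈ Y, xc ^ y.1.length := by
    show ∑ x ∈ Y.image (fun y : (Σ _ : List Bool, ℕ) => (y.2, y.1)), xc ^ x.2.length = _
    rw [Finset.sum_image]
    rintro ⟨t, m⟩ _ ⟨t', m'⟩ _ h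
    simp only [Prod.mk.injEq] at h
    rw [h.1, h.2]
  have hX : ∀ x ∈ X, ∃ l : ℕ, x.1 < l ∧ x.2 ∈ HexObs.Arc (St T) ∅ oo up (foot oo up l) := by
    intro x hx
    obtain ⟨⟨t, m⟩, hy, rfl⟩ := Finset.mem_image.1 hx
    have h1 := (Finset.mem_sigma.1 hy).2
    simp only [Finset.mem_range] at h1
    exact ⟨j t, h1, hj t (by omega)⟩
  let N : ℕ := ∑ x ∈ X, ∑ i ∈ Finset.range (x.2.length + 1), (nn (vx (ft (-(x.1 : ℤ))).1 up x.2 i)).natAbs
  have hN : ∀ x ∈ X, ∀ i, i ≤ x.2.length → (nn (vx (ft (-(x.1 : ℤ))).1 up x.2 i)).natAbs ≤ N := by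
    intro x hx i hi
    have h1 : (nn (vx (ft (-(x.1 : ℤ))).1 up x.2 i)).natAbs ≤
        ∑ i ∈ Finset.range (x.2.length + 1), (nn (vx (ft (-(x.1 : ℤ))).1 up x.2 i)).natAbs :=
      Finset.single_le_sum (f := fun i => (nn (vx (ft (-(x.1 : ℤ))).1 up x.2 i)).natAbs)
        (fun _ _ => Nat.zero_le _) (Finset.mem_range.2 (by omega))
    have h2 : ∑ i ∈ Finset.range (x.2.length + 1), (nn (vx (ft (-(x.1 : ℤ))).1 up x.2 i)).natAbs ≤ N :=
      Finset.single_le_sum (f := fun x : ℕ × List Bool =>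
        ∑ i ∈ Finset.range (x.2.length + 1), (nn (vx (ft (-(x.1 : ℤ))).1 up x.2 i)).natAbs)
        (fun _ _ => Nat.zero_le _) hx
    exact h1.trans h2
  have hfin := KT_fin (T := T) (A := N + 1) (B := N + 1) hf1 (by rw [hl1]; omega) X (fun x hx =>
    ⟨hX x hx, fun i _ hi => by
      have := hN x hx i hi
      push_cast
      constructor <;> omega⟩)
  have hmain := hfl T (N + 1) (N + 1) ((T : ℤ) + 2, (T : ℤ) + 1) hT (by omega) (by omega) hFc
    (by rw [hl1]; omega) (by rw [hf1]; push_cast; omega) (by rw [hf1]; push_cast; omega)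
  have h3 := hfin.trans hmain
  rw [hXsum] at h3
  have h4 : ∑ y ∈ s.sigma (fun t => Finset.range (j t)), wE y.1 = ENNReal.ofReal (∑ y ∈ Y, xc ^ y.1.length) := by
    rw [ENNReal.ofReal_sum_of_nonneg (fun y _ => pow_nonneg xc_pos.le _)]
    rfl
  rw [h4]
  exact ENNReal.ofReal_le_ofReal h3

theorem KT_ne_top {T : ℕ} (hT : 1 ≤ T) : KT T ≠ ∞ := by
  obtain ⟨C, _, h⟩ := KT_le
  exact ne_top_of_le_ne_top ENNReal.ofReal_ne_top (h T hT)

end LP

end HexObs
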