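import Pool.Agent.HexLoop.DefsW
import Pool.Agent.HexLoop.KTle
import Pool.Agent.HexStep.Main
import Pool.Agent.HexStep.KUp
import Pool.Agent.HexSPR.Spr

/-!
SD: the first moment of the arcs: growth, doubling, limit.
-/

set_option autoImplicit false

namespace HexObs

namespace LP

open Complex Finset Filter

theorem KT_eq (T : ℕ) : KT T = SP.KT T := by
  unfold KT SP.KT
  rw [tsum_eq_zero_add' ENNReal.summable]
  simp

theorem kT_ge : ∃ c : ℝ, 0 < c ∧ ∀ T : ℕ, 1 ≤ T → c * (T : ℝ) ^ (2 - Real.sqrt 2) ≤ kT (T + 1) := by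
  obtain ⟨c, h0, _, h2⟩ := SP.step_all
  refine ⟨c, h0, fun T hT => ?_⟩
  have := h2 T hT
  unfold kT
  rw [KT_eq]
  exact this

theorem kT_tendsto : Tendsto kT atTop atTop := by
  obtain ⟨c, h0, h1⟩ := kT_ge
  have h2 : 0 < 2 - Real.sqrt 2 := by
    have : Real.sqrt 2 < 2 := by
      rw [Real.sqrt_lt' (by norm_num)]
      norm_num
    linarith
  have h3 : Tendsto (fun T : ℕ => c * (T : ℝ) ^ (2 - Real.sqrt 2)) atTop atTop :=
    ((tendsto_rpow_atTop h2).comp tendsto_natCast_atTop_atTop).const_mul_atTop h0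
  have h4 : Tendsto (fun T : ℕ => kT (T + 1)) atTop atTop :=
    tendsto_atTop_mono' atTop (by
      filter_upwards [eventually_ge_atTop 1] with T hT
      exact h1 T hT) h3
  exact (tendsto_add_atTop_iff_nat 1).1 h4

theorem kT_nonneg (T : ℕ) : 0 ≤ kT T := ENNReal.toReal_nonneg

theorem kT_one_pos : 0 < kT 1 := by
  have h1 : AT 1 ≤ 2 * KT 1 := by
    rw [arcs_total le_rfl]
    apply mul_le_mul' le_rfl
    unfold KT
    rw [tsum_eq_zero_add' (f := fun k : ℕ => (k : ENNReal) * GG 1 k) ENNReal.summable]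
    refine le_trans ?_ le_add_self
    apply ENNReal.tsum_le_tsum
    intro k
    have : (1 : ENNReal) ≤ ((k + 1 : ℕ) : ENNReal) := by
      exact_mod_cast Nat.succ_le_succ (Nat.zero_le k)
    calc GG 1 (k + 1) = 1 * GG 1 (k + 1) := (one_mul _).symm
      _ ≤ _ := mul_le_mul' this le_rfl
  have h2 := Ex.aT_one_pos
  unfold aT at h2
  have h3 : KT 1 ≠ ⊤ := KT_ne_top le_rfl
  have h4 : (AT 1).toReal ≤ (2 * KT 1).toReal := ENNReal.toReal_mono (ENNReal.mul_ne_top (by norm_num) h3) h1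
  rw [ENNReal.toReal_mul] at h4
  have h5 : (2 : ENNReal).toReal = 2 := rfl
  rw [h5] at h4
  unfold kT
  linarith

theorem kT_step_ge {T : ℕ} (hT : 1 ≤ T) :
    kT T + (Real.sqrt 2 - 1) * (Real.sqrt 2 * xc) * bT T ≤ kT (T + 1) := by
  have hx := xc_pos
  have hs : 0 ≤ Real.sqrt 2 - 1 := by
    have := Real.one_le_sqrt.2 (by norm_num : (1 : ℝ) ≤ 2)
    linarith
  have h1 := SP.K_step hT
  have h2 := (SP.le_XX hT).trans (SP.XX_le T)
  have h3 : ENNReal.ofReal (Real.sqrt 2 * xc) * BT T ≤ ∑' z : ℤ, SP.xT T z := by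
    have e1 : ENNReal.ofReal (Real.sqrt 2 * xc) * BT T =
        ENNReal.ofReal xc⁻¹ * (ENNReal.ofReal (Real.sqrt 2 * xc ^ 2) * BT T) := by
      rw [← mul_assoc, ← ENNReal.ofReal_mul (by positivity)]
      congr 2
      field_simp
    have e2 : ENNReal.ofReal xc⁻¹ * (ENNReal.ofReal xc * ∑' z : ℤ, SP.xT T z) = ∑' z : ℤ, SP.xT T z := by
      rw [← mul_assoc, ← ENNReal.ofReal_mul (by positivity), inv_mul_cancel₀ hx.ne', ENNReal.ofReal_one, one_mul]
    rw [e1, ← e2]
    exact mul_le_mul' le_rfl h2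
  have h4 : ENNReal.ofReal (kT T + (Real.sqrt 2 - 1) * (Real.sqrt 2 * xc) * bT T) ≤ KT (T + 1) := by
    rw [ENNReal.ofReal_add (kT_nonneg T) (mul_nonneg (mul_nonneg hs (by positivity)) (bT_nonneg T)),
      ENNReal.ofReal_mul (mul_nonneg hs (by positivity)), ENNReal.ofReal_mul hs]
    have e3 : ENNReal.ofReal (kT T) = SP.KT T := by
      rw [← KT_eq]
      exact ENNReal.ofReal_toReal (KT_ne_top hT)
    have e4 : ENNReal.ofReal (bT T) = BT T := ENNReal.ofReal_toReal (BT_ne_top hT)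
    rw [e3, e4, KT_eq, add_comm, mul_assoc]
    refine le_trans ?_ h1
    gcongr
  have h5 := ENNReal.toReal_mono (KT_ne_top (T := T + 1) (by omega)) h4
  rwa [ENNReal.toReal_ofReal (add_nonneg (kT_nonneg T)
    (mul_nonneg (mul_nonneg hs (by positivity)) (bT_nonneg T)))] at h5

theorem kT_step_le {T : ℕ} (hT : 1 ≤ T) : kT (T + 1) ≤ kT T + bT (T + 1) := by
  have hx := xc_pos
  have h1 := SP.K_succ_le hT
  have h2 : ENNReal.ofReal ((Real.sqrt 2 - 1) / (2 * xc)) ≤ 1 := by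
    rw [ENNReal.ofReal_le_one, div_le_one (by positivity)]
    have h5 : Real.sqrt 2 ≤ 1.4143 := Real.sqrt_le_iff.2 ⟨by norm_num, by norm_num⟩
    have h6 : (0.5 : ℝ) ^ 2 ≤ xc ^ 2 := by
      rw [xc_sq, le_div_iff₀ (by positivity)]
      nlinarith
    have h7 : (0.5 : ℝ) ≤ xc := le_of_sq_le_sq h6 hx.le
    linarith
  have h3 : KT (T + 1) ≤ ENNReal.ofReal (kT T + bT (T + 1)) := by
    rw [ENNReal.ofReal_add (kT_nonneg T) (bT_nonneg _)]
    have e3 : ENNReal.ofReal (kT T) = SP.KT T := by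
      rw [← KT_eq]
      exact ENNReal.ofReal_toReal (KT_ne_top hT)
    have e4 : ENNReal.ofReal (bT (T + 1)) = BT (T + 1) := ENNReal.ofReal_toReal (BT_ne_top (by omega))
    rw [e3, e4, KT_eq]
    refine h1.trans (add_le_add le_rfl ?_)
    calc _ ≤ 1 * BT (T + 1) := mul_le_mul' h2 le_rfl
      _ = _ := one_mul _
  have h5 := ENNReal.toReal_mono ENNReal.ofReal_ne_top h3
  rwa [ENNReal.toReal_ofReal (add_nonneg (kT_nonneg T) (bT_nonneg _))] at h5

theorem kT_mono_succ {T : ℕ} (hT : 1 ≤ T) : kT T ≤ kT (T + 1) := by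
  have hs : 0 ≤ Real.sqrt 2 - 1 := by
    have := Real.one_le_sqrt.2 (by norm_num : (1 : ℝ) ≤ 2)
    linarith
  have h1 := kT_step_ge hT
  have h2 : 0 ≤ (Real.sqrt 2 - 1) * (Real.sqrt 2 * xc) * bT T :=
    mul_nonneg (mul_nonneg hs (mul_nonneg (Real.sqrt_nonneg _) xc_pos.le)) (bT_nonneg T)
  linarith

theorem kT_pos {T : ℕ} (hT : 1 ≤ T) : 0 < kT T := by
  induction T, hT using Nat.le_induction with
  | base => exact kT_one_pos
  | succ n hn ih => exact ih.trans_le (kT_mono_succ hn)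

/-- T b_T is at most a constant times the first moment. -/
theorem TbT_le : ∃ C : ℝ, 0 < C ∧ ∀ T : ℕ, 1 ≤ T → T * bT T ≤ C * kT T := by
  set c1 : ℝ := (Real.sqrt 2 - 1) * (Real.sqrt 2 * xc) with hc1
  have hc1p : 0 < c1 := by
    have h1 : 1 < Real.sqrt 2 := by
      rw [Real.lt_sqrt (by norm_num)]
      norm_num
    have := xc_pos
    have h2 : 0 < Real.sqrt 2 - 1 := by linarith
    positivity
  have h1 := kT_one_pos
  have key : ∀ T : ℕ, 1 ≤ T → kT 1 + c1 * ((T - 1 : ℝ) * bT T) ≤ kT T := by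
    intro T hT
    induction T, hT using Nat.le_induction with
    | base => simp
    | succ n hn ih =>
      have h2 := kT_step_ge hn
      have h3 := bT_antitone hn
      have hn' : (1 : ℝ) ≤ n := by exact_mod_cast hn
      have h4 : ((n : ℝ) + 1 - 1) * bT (n + 1) ≤ (n - 1) * bT n + bT n := by
        have := mul_le_mul_of_nonneg_left h3 (by linarith : (0 : ℝ) ≤ n)
        linarith
      have h5 := mul_le_mul_of_nonneg_left h4 hc1p.le
      push_cast
      linarith
  refine ⟨1 / c1 + 1 / kT 1, by positivity, fun T hT => ?_⟩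
  have h2 := key T hT
  have h3 : bT T ≤ 1 := by
    have := ENNReal.toReal_mono ENNReal.one_ne_top (BT_le_one hT)
    simpa [bT] using this
  have h4 : (T - 1 : ℝ) * bT T ≤ (kT T - kT 1) / c1 := by
    rw [le_div_iff₀ hc1p]
    linarith
  have h5 : 1 ≤ 1 / kT 1 * kT T := by
    rw [div_mul_eq_mul_div, one_mul, le_div_iff₀ h1]
    have : 0 ≤ c1 * ((T - 1 : ℝ) * bT T) := by
      have h6 : (1 : ℝ) ≤ T := by exact_mod_cast hT
      exact mul_nonneg hc1p.le (mul_nonneg (by linarith) (bT_nonneg T))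
    linarith
  have h6 : (kT T - kT 1) / c1 ≤ 1 / c1 * kT T := by
    rw [div_mul_eq_mul_div, one_mul]
    apply div_le_div_of_nonneg_right _ hc1p.le
    linarith
  have h7 : (T : ℝ) * bT T = (T - 1 : ℝ) * bT T + bT T := by ring
  rw [h7, add_mul]
  linarith

theorem kT_add_le {T : ℕ} (hT : 1 ≤ T) (s : ℕ) : kT (T + s) ≤ kT T + s * bT T := by
  have hanti : ∀ s : ℕ, bT (T + s) ≤ bT T := by
    intro s
    induction s with
    | zero => simp
    | succ s ih => exact (bT_antitone (T := T + s) (by omega)).trans ih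
  induction s with
  | zero => simp
  | succ s ih =>
    have h1 := kT_step_le (T := T + s) (by omega)
    have h2 := hanti (s + 1)
    have e : T + s + 1 = T + (s + 1) := by ring
    rw [e] at h1
    push_cast
    linarith

/-- doubling. -/
theorem kT_double : ∃ C : ℝ, 0 < C ∧ ∀ T : ℕ, 1 ≤ T → kT (2 * T) ≤ C * kT T := by
  obtain ⟨C, hC, h⟩ := TbT_le
  refine ⟨1 + C, by linarith, fun T hT => ?_⟩
  have h1 := kT_add_le hT T
  have h2 := h T hT
  rw [show 2 * T = T + T by ring]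
  linarith

end LP

end HexObs
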