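import Pool.Agent.HexLoop.KSucc
import Pool.Agent.HexLoop.C8H
import Pool.Agent.HexLoop.KTle
import Pool.Agent.HexDecay.Decay

/-!
SD10: the ratio of two successive first moments of the arcs.
-/

set_option autoImplicit false

namespace HexObs

namespace LP

open Complex Finset ENNReal

private lemma kr_dir : ∀ d ∈ dirs, |d.1| ≤ 1 := by decide

lemma tip_le_ext (t : List Bool) : ((tip oo up t).1.natAbs : ℝ) ≤ At t + Al t + 1 := by
  have h1 : ((vx oo up t t.length).1).toNat ≤ At t :=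
    Finset.le_sup (f := fun i => ((vx oo up t i).1).toNat) (Finset.mem_range.2 (Nat.lt_succ_self _))
  have h2 : (-(vx oo up t t.length).1).toNat ≤ Al t :=
    Finset.le_sup (f := fun i => (-(vx oo up t i).1).toNat) (Finset.mem_range.2 (Nat.lt_succ_self _))
  have h3 : (tip oo up t).1 = (vx oo up t t.length).1 + (dx up t t.length).1 := rfl
  have h4 := kr_dir _ (dx_mem (by decide : (up : Pt) ∈ dirs) t t.length)
  rw [abs_le] at h4
  have h5 : (tip oo up t).1.natAbs ≤ At t + Al t + 1 := by omega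
  exact_mod_cast h5

theorem ext_sum {T : ℕ} (hT : 1 ≤ T) (F : Finset (List Bool)) (hF : ∀ t ∈ F, t ∈ Crw T) :
    ∑ t ∈ F, ct t * ((tip oo up t).1.natAbs : ℝ) ≤ 9.66 * kT T + 3 := by
  have hk0 : 0 ≤ kT T := ENNReal.toReal_nonneg
  have hK := KT_ne_top hT
  have h1 := SD8u hT hK F hF
  obtain ⟨F', hF', h2⟩ := C8H.mirror_sum F hF (fun t => ct t * At t)
  have h3 := SD8u hT hK F' hF'
  have h4 : ∑ t ∈ F, ct (t.map not) * At (t.map not) = ∑ t ∈ F, ct t * Al t := by
    apply Finset.sum_congr rfl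
    intro t _
    rw [ct_mirror, (At_mirror t).1]
  have h5 := ct_sum_le hT F hF
  have h6 : ∑ t ∈ F, ct t * ((tip oo up t).1.natAbs : ℝ) ≤
      ∑ t ∈ F, ct t * At t + ∑ t ∈ F, ct t * Al t + ∑ t ∈ F, ct t := by
    rw [← Finset.sum_add_distrib, ← Finset.sum_add_distrib]
    apply Finset.sum_le_sum
    intro t ht
    have := mul_le_mul_of_nonneg_left (tip_le_ext t) (ct_nonneg hT (hF t ht))
    linarith
  have h7 : Real.sin (3 * Real.pi / 8) ≤ 1 := Real.sin_le_one _
  have h8 : 4.83 * Real.sin (3 * Real.pi / 8) * kT T ≤ 4.83 * kT T := by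
    apply mul_le_mul_of_nonneg_right _ hk0
    linarith
  rw [h2, h4] at h3
  linarith

/-- the weights without the cosine. -/
theorem ct_ge {T : ℕ} (hT : 1 ≤ T) {t : List Bool} (ht : t ∈ Crw T) : 0.38 * xc ^ t.length ≤ ct t := by
  have h38 : (0.38 : ℝ) ≤ Real.cos (3 * (Real.pi / 8)) := by
    have h1 : Real.cos (3 * (Real.pi / 8)) = Real.sin (Real.pi / 8) := by
      rw [← Real.cos_pi_div_two_sub]
      congr 1
      ring
    rw [h1, Real.sin_pi_div_eight]
    have h2 : Real.sqrt 2 ≤ 1.4143 := Real.sqrt_le_iff.2 ⟨by norm_num, by norm_num⟩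
    have h3 : (0.76 : ℝ) ≤ Real.sqrt (2 - Real.sqrt 2) := Real.le_sqrt_of_sq_le (by norm_num; linarith)
    linarith
  unfold ct
  apply mul_le_mul_of_nonneg_right _ (pow_nonneg xc_pos.le _)
  rcases crw_wind hT ht with h | h | h
  · rw [h, Int.cast_zero, zero_mul, Real.cos_zero]
    norm_num
  · rw [h]
    exact_mod_cast h38
  · rw [h]
    push_cast
    rw [neg_mul, Real.cos_neg]
    exact h38

theorem ext_sum' {T : ℕ} (hT : 1 ≤ T) (F : Finset (List Bool)) (hF : ∀ t ∈ F, t ∈ Crw T) :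
    ∑ t ∈ F, ((tip oo up t).1.natAbs : ℝ) * xc ^ t.length ≤ 26 * (kT T + 1) := by
  have hk0 : 0 ≤ kT T := ENNReal.toReal_nonneg
  have h1 := ext_sum hT F hF
  have h2 : 0.38 * ∑ t ∈ F, ((tip oo up t).1.natAbs : ℝ) * xc ^ t.length ≤
      ∑ t ∈ F, ct t * ((tip oo up t).1.natAbs : ℝ) := by
    rw [Finset.mul_sum]
    apply Finset.sum_le_sum
    intro t ht
    have := mul_le_mul_of_nonneg_right (ct_ge hT (hF t ht)) (Nat.cast_nonneg (tip oo up t).1.natAbs : (0 : ℝ) ≤ _)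
    linarith
  linarith

/-- first moment of the displacement of the bridges. -/
theorem M1_le {T : ℕ} (hT : 1 ≤ T) : M1 T ≤ ENNReal.ofReal (26 * (kT T + 1)) := by
  unfold M1
  rw [ENNReal.tsum_eq_iSup_sum]
  apply iSup_le
  intro s
  have h1 : ∑ t ∈ s, ((tip oo up (t : List Bool)).1.natAbs : ℝ≥0∞) * wE t =
      ENNReal.ofReal (∑ t ∈ s, ((tip oo up (t : List Bool)).1.natAbs : ℝ) * xc ^ (t : List Bool).length) := by
    rw [ENNReal.ofReal_sum_of_nonneg (fun t _ => mul_nonneg (Nat.cast_nonneg _) (pow_nonneg xc_pos.le _))]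
    apply Finset.sum_congr rfl
    intro t _
    rw [ENNReal.ofReal_mul (Nat.cast_nonneg _), ENNReal.ofReal_natCast]
    rfl
  rw [h1]
  apply ENNReal.ofReal_le_ofReal
  have h2 := ext_sum' hT (s.map (Function.Embedding.subtype _)) (fun t ht => by
    obtain ⟨u, _, rfl⟩ := Finset.mem_map.1 ht
    exact ⟨u.2.1, u.2.2.1⟩)
  rw [Finset.sum_map] at h2
  exact h2

theorem kT_succ {T : ℕ} (hT : 1 ≤ T) :
    kT (T + 1) ≤ kT T + 200 * (kT (T + 1) + 1) * bT (T + 1) := by
  have hk0 : 0 ≤ kT (T + 1) := ENNReal.toReal_nonneg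
  have hk1 : 0 ≤ kT T := ENNReal.toReal_nonneg
  have hp : 0 ≤ 200 * (kT (T + 1) + 1) * bT (T + 1) := mul_nonneg (by linarith) (bT_nonneg _)
  have h1 := KT_succ T
  have h2 : 4 * ENNReal.ofReal xc⁻¹ * (M1 (T + 1) * BT (T + 1)) ≤
      ENNReal.ofReal (200 * (kT (T + 1) + 1) * bT (T + 1)) := by
    have hb : BT (T + 1) = ENNReal.ofReal (bT (T + 1)) := (ENNReal.ofReal_toReal (BT_ne_top (by omega))).symm
    have hx : xc⁻¹ ≤ 1.9 := by
      have h3 : (0.53 : ℝ) ≤ xc := by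
        have h4 := xc_sq
        have h5 : Real.sqrt 2 ≤ 1.4143 := Real.sqrt_le_iff.2 ⟨by norm_num, by norm_num⟩
        have h6 : (0.53 : ℝ) ^ 2 ≤ xc ^ 2 := by
          rw [h4, le_div_iff₀ (by positivity)]
          nlinarith
        exact le_of_sq_le_sq h6 xc_pos.le
      rw [inv_le_comm₀ xc_pos (by norm_num)]
      linarith
    have h4 : (4 : ℝ≥0∞) = ENNReal.ofReal 4 := by norm_num
    calc 4 * ENNReal.ofReal xc⁻¹ * (M1 (T + 1) * BT (T + 1))
        ≤ 4 * ENNReal.ofReal 1.9 * (ENNReal.ofReal (26 * (kT (T + 1) + 1)) * ENNReal.ofReal (bT (T + 1))) := by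
          gcongr
          · exact M1_le (by omega)
          · exact hb.le
      _ = ENNReal.ofReal (4 * 1.9 * (26 * (kT (T + 1) + 1) * bT (T + 1))) := by
          rw [h4, ← ENNReal.ofReal_mul (by norm_num), ← ENNReal.ofReal_mul (by positivity),
            ← ENNReal.ofReal_mul (by norm_num)]
      _ ≤ _ := by
          apply ENNReal.ofReal_le_ofReal
          have : 0 ≤ (kT (T + 1) + 1) * bT (T + 1) := mul_nonneg (by linarith) (bT_nonneg _)
          nlinarith
  have h3 : KT (T + 1) ≤ ENNReal.ofReal (kT T + 200 * (kT (T + 1) + 1) * bT (T + 1)) := by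
    rw [ENNReal.ofReal_add hk1 hp]
    refine h1.trans (add_le_add (le_of_eq ?_) h2)
    exact (ENNReal.ofReal_toReal (KT_ne_top hT)).symm
  have h4 := ENNReal.toReal_mono ENNReal.ofReal_ne_top h3
  rwa [ENNReal.toReal_ofReal (add_nonneg hk1 hp)] at h4

theorem kT_ratio (δ : ℝ) (hδ : 0 < δ) : ∃ C1 : ℝ, ∀ T, 1 ≤ T → kT (T + 1) ≤ (1 + δ) * kT T + C1 := by
  have hlim : Filter.Tendsto (fun T : ℕ => 200 * (2 * ((T : ℝ) ^ (-(1 / 35) : ℝ)))) Filter.atTop (nhds 0) := by
    have h1 := (tendsto_rpow_neg_atTop (by norm_num : (0 : ℝ) < 1 / 35)).comp tendsto_natCast_atTop_atTop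
    have h2 := (h1.const_mul 2).const_mul 200
    simpa using h2
  have he : 0 < δ / (1 + δ) := div_pos hδ (by linarith)
  obtain ⟨T0, hT0⟩ := (hlim.eventually_le_const he).exists_forall_of_atTop
  have hkn : ∀ T, 0 ≤ kT T := fun T => ENNReal.toReal_nonneg
  refine ⟨δ + ∑ T ∈ range (T0 + 1), kT (T + 1), fun T hT => ?_⟩
  have hs0 : 0 ≤ ∑ T ∈ range (T0 + 1), kT (T + 1) := Finset.sum_nonneg (fun T _ => hkn _)
  rcases Nat.lt_or_ge T T0 with h | h
  · have h1 : kT (T + 1) ≤ ∑ T ∈ range (T0 + 1), kT (T + 1) :=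
      Finset.single_le_sum (f := fun T => kT (T + 1)) (fun T _ => hkn _) (Finset.mem_range.2 (by omega))
    have := mul_nonneg (by linarith : 0 ≤ 1 + δ) (hkn T)
    linarith
  · have h1 := kT_succ hT
    have h2 := bT_decay (T := T + 1) (by omega)
    have h3 := hT0 (T + 1) (by omega)
    have h4 : 200 * bT (T + 1) ≤ δ / (1 + δ) := by linarith
    have h5 : 200 * (kT (T + 1) + 1) * bT (T + 1) ≤ δ / (1 + δ) * (kT (T + 1) + 1) := by
      have := mul_le_mul_of_nonneg_right h4 (by linarith [hkn (T + 1)] : 0 ≤ kT (T + 1) + 1)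
      linarith
    have h6 : kT (T + 1) ≤ kT T + δ / (1 + δ) * (kT (T + 1) + 1) := by linarith
    have h7 : (1 + δ) * kT (T + 1) ≤ (1 + δ) * (kT T + δ / (1 + δ) * (kT (T + 1) + 1)) :=
      mul_le_mul_of_nonneg_left h6 (by linarith)
    have h8 : (1 + δ) * (kT T + δ / (1 + δ) * (kT (T + 1) + 1)) = (1 + δ) * kT T + δ * (kT (T + 1) + 1) := by
      field_simp
    rw [h8] at h7
    linarith

end LP

end HexObs
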