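import Pool.Agent.HexLoop.DefsW
import Pool.Agent.HexLoop.Cnt0
import Pool.Agent.W47.Surgery

/-!
SD10: the first moment of the arcs of the strip of height T + 1.
-/

set_option autoImplicit false

namespace HexObs

namespace LP

open Complex Finset ENNReal

/-- first moment of the displacement of the bridges. -/
noncomputable def M1 (T : ℕ) : ℝ≥0∞ := ∑' t : out (St T) oo up up, ((tip oo up t).1.natAbs : ℝ≥0∞) * wE t

lemma tip_surg {a r : List Bool} {b : Bool} (hdx : dx up (a ++ [!b]) (a ++ [!b]).length = up) :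
    tip oo up (a ++ ([b] ++ r)) = tip oo up (a ++ [!b]) - tip oo up ([!b] ++ r) := by
  have h := surg_after (v0 := oo) (d0 := up) (r := r) (by decide) hdx (r.length + 1)
  have e1 : (a ++ ([b] ++ r)).length + 1 = a.length + 1 + (r.length + 1) := by
    simp only [List.length_append, List.length_cons, List.length_nil]
    omega
  have e2 : ([!b] ++ r).length + 1 = 1 + (r.length + 1) := by
    simp only [List.length_append, List.length_cons, List.length_nil]
    omega
  show vx oo up _ _ = _ - vx oo up _ _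
  rw [e1, e2, ← h, vx_neg]
  rfl

/-- moments along an injective map to pairs. -/
lemma mom_pair {P Q : Set (List Bool)} (c : ℝ≥0∞) (N : List Bool → ℝ≥0∞) (f g : List Bool → List Bool)
    (hf : ∀ t ∈ P, f t ∈ Q) (hg : ∀ t ∈ P, g t ∈ Q) (hi : ∀ s ∈ P, ∀ t ∈ P, f s = f t → g s = g t → s = t)
    (hw : ∀ t ∈ P, wE t ≤ c * (wE (f t) * wE (g t))) (hN : ∀ t ∈ P, N t ≤ N (f t) + N (g t)) :
    ∑' t : P, N t * wE t ≤ 2 * c * ((∑' t : Q, N t * wE t) * gf Q) := by
  have e1 : ∑' t : P, N t * wE t ≤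
      ∑' p : Q × Q, c * ((N p.1 * wE p.1) * wE p.2 + wE p.1 * (N p.2 * wE p.2)) := by
    let ψ : P → Q × Q := fun t => (⟨f t, hf t t.2⟩, ⟨g t, hg t t.2⟩)
    have hψ : Function.Injective ψ := by
      intro a b hab
      have h1 : f a = f b := congrArg (fun p => (p.1 : List Bool)) hab
      have h2 : g a = g b := congrArg (fun p => (p.2 : List Bool)) hab
      exact Subtype.ext (hi a a.2 b b.2 h1 h2)
    calc ∑' t : P, N t * wE t ≤ ∑' t : P, (fun p : Q × Q =>
          c * ((N p.1 * wE p.1) * wE p.2 + wE p.1 * (N p.2 * wE p.2))) (ψ t) := by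
          apply ENNReal.tsum_le_tsum
          intro t
          refine (mul_le_mul' (hN t t.2) (hw t t.2)).trans (le_of_eq ?_)
          show (N (f t) + N (g t)) * (c * (wE (f t) * wE (g t))) =
            c * ((N (f t) * wE (f t)) * wE (g t) + wE (f t) * (N (g t) * wE (g t)))
          ring
      _ ≤ _ := ENNReal.tsum_comp_le_tsum_of_injective hψ _
  refine e1.trans (le_of_eq ?_)
  rw [ENNReal.tsum_mul_left, ENNReal.tsum_add,
    ENNReal.tsum_prod (f := fun (a : Q) (b : Q) => N a * wE a * wE b),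
    ENNReal.tsum_prod (f := fun (a : Q) (b : Q) => wE a * (N b * wE b))]
  simp_rw [ENNReal.tsum_mul_left, ENNReal.tsum_mul_right]
  unfold gf
  ring

lemma surgD_mom (T : ℕ) (b : Bool) :
    ∑' t : surgD oo up T b, ((tip oo up t).1.natAbs : ℝ≥0∞) * wE t ≤
      2 * ENNReal.ofReal xc⁻¹ * (M1 (T + 1) * BT (T + 1)) := by
  classical
  have h0 : (up : Pt) ∈ dirs := by decide
  have hD : ∀ t ∈ surgD oo up T b, ∃ p : List Bool × List Bool, t = p.1 ++ ([b] ++ p.2) ∧
      p.1 ++ [!b] ∈ out (strip oo up (T + 1)) oo up up ∧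
        ∃ w, [!b] ++ p.2 ∈ out (strip w (-up) (T + 1)) w (-up) (-up) := by
    rintro t ⟨_, a, r, h⟩
    exact ⟨(a, r), h⟩
  choose! p hp1 hp2 hp3 using hD
  have hB : BT (T + 1) = gf (out (St (T + 1)) oo up up) := rfl
  rw [hB]
  refine mom_pair (ENNReal.ofReal xc⁻¹) (fun t => ((tip oo up t).1.natAbs : ℝ≥0∞))
    (fun t => (p t).1 ++ [!b]) (fun t => [!b] ++ (p t).2) hp2 ?_ ?_ ?_ ?_
  · intro t ht
    obtain ⟨w, hw⟩ := hp3 t ht
    rw [(strip_rot (neg_mem_dirs h0) h0 w oo (T + 1)).1] at hw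
    exact hw
  · intro s hs t ht h1 h2
    have h3 : (p s).1 = (p t).1 := List.append_cancel_right h1
    have h4 : (p s).2 = (p t).2 := List.append_cancel_left h2
    rw [hp1 s hs, hp1 t ht, h3, h4]
  · intro t ht
    apply surg_weight
    have h := congrArg List.length (hp1 t ht)
    simp only [List.length_append, List.length_cons, List.length_nil] at h ⊢
    omega
  · intro t ht
    have h := tip_surg (r := (p t).2) (hp2 t ht).2.2
    rw [← hp1 t ht] at h
    have h1 : (tip oo up t).1 = (tip oo up ((p t).1 ++ [!b])).1 - (tip oo up ([!b] ++ (p t).2)).1 := by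
      rw [h]; rfl
    show ((tip oo up t).1.natAbs : ℝ≥0∞) ≤ ((tip oo up ((p t).1 ++ [!b])).1.natAbs : ℝ≥0∞) +
      ((tip oo up ([!b] ++ (p t).2)).1.natAbs : ℝ≥0∞)
    rw [h1, ← Nat.cast_add, Nat.cast_le]
    omega

/-- the words of D that land at the feet k, weighted with k. -/
lemma sum_fib (D : Set (List Bool)) :
    ∑' k : ℕ, (k : ℝ≥0∞) * gf {t | t ∈ D ∧ tip oo up t = foot oo up k} ≤
      ∑' t : D, ((tip oo up t).1.natAbs : ℝ≥0∞) * wE t := by
  have e1 : ∀ k : ℕ, (k : ℝ≥0∞) * gf {t | t ∈ D ∧ tip oo up t = foot oo up k} =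
      ∑' t : D, if tip oo up t = foot oo up k then (k : ℝ≥0∞) * wE t else 0 := by
    intro k
    unfold gf
    rw [← ENNReal.tsum_mul_left, tsum_subtype {t | t ∈ D ∧ tip oo up t = foot oo up k} (fun t => (k : ℝ≥0∞) * wE t),
      tsum_subtype D (fun t => if tip oo up t = foot oo up k then (k : ℝ≥0∞) * wE t else 0)]
    apply tsum_congr
    intro t
    by_cases h1 : t ∈ D
    · rw [Set.indicator_of_mem h1]
      by_cases h2 : tip oo up t = foot oo up k
      · rw [if_pos h2, Set.indicator_of_mem (show t ∈ {t | t ∈ D ∧ tip oo up t = foot oo up k} from ⟨h1, h2⟩)]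
      · rw [if_neg h2, Set.indicator_of_notMem]
        exact fun h => h2 h.2
    · rw [Set.indicator_of_notMem h1, Set.indicator_of_notMem]
      exact fun h => h1 h.1
  simp_rw [e1]
  rw [ENNReal.tsum_comm]
  apply ENNReal.tsum_le_tsum
  intro t
  by_cases h : ∃ k : ℕ, tip oo up (t : List Bool) = foot oo up k
  · obtain ⟨k, hk⟩ := h
    have hf : ∀ j : ℕ, (foot oo up (j : ℤ)).1 = 2 * (j : ℤ) := by
      intro j
      show (0 : ℤ) + ((j : ℤ) • hz up).1 = _
      rw [show hz up = ((2, -1) : Pt) by decide]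
      show (0 : ℤ) + (j : ℤ) * 2 = _
      ring
    rw [tsum_eq_single k]
    · rw [if_pos hk, hk, hf]
      gcongr
      omega
    · intro j hj
      rw [if_neg]
      intro h
      apply hj
      have h2 := congrArg Prod.fst (h.symm.trans hk)
      rw [hf, hf] at h2
      omega
  · rw [ENNReal.tsum_eq_zero.2]
    · exact bot_le
    · intro k
      rw [if_neg]
      exact fun h2 => h ⟨k, h2⟩

theorem KT_succ (T : ℕ) : KT (T + 1) ≤ KT T + 4 * ENNReal.ofReal xc⁻¹ * (M1 (T + 1) * BT (T + 1)) := by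
  classical
  have h0 : (up : Pt) ∈ dirs := by decide
  have key : ∀ k : ℕ, GG (T + 1) k ≤ GG T k + (gf {t | t ∈ surgD oo up T true ∧ tip oo up t = foot oo up k} +
      gf {t | t ∈ surgD oo up T false ∧ tip oo up t = foot oo up k}) := by
    intro k
    refine le_trans (gf_mono (Q := Arc (St T) ∅ oo up (foot oo up k) ∪
      ({t | t ∈ surgD oo up T true ∧ tip oo up t = foot oo up k} ∪
        {t | t ∈ surgD oo up T false ∧ tip oo up t = foot oo up k})) ?_) ?_
    · rintro t ⟨⟨h1, h2, h3⟩, h4⟩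
      rw [Set.sdiff_empty] at h1
      have ht : t ∈ out (strip oo up (T + 1)) oo up (-up) := ⟨h1, h2, h3⟩
      by_cases h : t ∈ out (strip oo up T) oo up (-up)
      · refine Or.inl ⟨⟨?_, h.2.1, h.2.2⟩, h4⟩
        rw [Set.sdiff_empty]
        exact h.1
      · right
        obtain ⟨a, b, r, g1, g2, g3⟩ := cut_top h0 ht h
        cases b
        · exact Or.inr ⟨⟨ht, a, r, g1, g2, g3⟩, h4⟩
        · exact Or.inl ⟨⟨ht, a, r, g1, g2, g3⟩, h4⟩
    · exact (gf_union_le _ _).trans (add_le_add le_rfl (gf_union_le _ _))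
  unfold KT
  calc ∑' k : ℕ, (k : ℝ≥0∞) * GG (T + 1) k
      ≤ ∑' k : ℕ, ((k : ℝ≥0∞) * GG T k +
        ((k : ℝ≥0∞) * gf {t | t ∈ surgD oo up T true ∧ tip oo up t = foot oo up k} +
        (k : ℝ≥0∞) * gf {t | t ∈ surgD oo up T false ∧ tip oo up t = foot oo up k})) := by
        apply ENNReal.tsum_le_tsum
        intro k
        refine (mul_le_mul' le_rfl (key k)).trans (le_of_eq ?_)
        ring
    _ = (∑' k : ℕ, (k : ℝ≥0∞) * GG T k) +
        ((∑' k : ℕ, (k : ℝ≥0∞) * gf {t | t ∈ surgD oo up T true ∧ tip oo up t = foot oo up k}) +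
        ∑' k : ℕ, (k : ℝ≥0∞) * gf {t | t ∈ surgD oo up T false ∧ tip oo up t = foot oo up k}) := by
        rw [ENNReal.tsum_add, ENNReal.tsum_add]
    _ ≤ (∑' k : ℕ, (k : ℝ≥0∞) * GG T k) + (2 * ENNReal.ofReal xc⁻¹ * (M1 (T + 1) * BT (T + 1)) +
        2 * ENNReal.ofReal xc⁻¹ * (M1 (T + 1) * BT (T + 1))) := by
        gcongr
        · exact (sum_fib _).trans (surgD_mom T true)
        · exact (sum_fib _).trans (surgD_mom T false)
    _ = _ := by ring

end LP

end HexObs
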