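import Pool.Agent.HexLoop.QQ3
import Pool.Agent.HexLoop.Shift

/-!
SD9 for the centred parallelograms PP m M.
-/

set_option autoImplicit false

namespace HexObs

namespace LP

open Complex Finset

/-- the sharp bound for the right side of the loop identity in the centred parallelograms. -/
theorem QQ_PP (m : ℕ) (hm : 1 ≤ m) (hK : KT (2 * m) ≠ ⊤) {ε : ℝ} (hε : 0 < ε) :
    ∃ M0 : ℕ, ∀ M, M0 ≤ M →
      QQ (PP m M) f0 ≤ 2 * Real.sin (3 * Real.pi / 8) * kT (2 * m) + ε := by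
  have hz : cl ((m, m) : Pt) = 0 := by
    unfold cl
    simp
  have hf : Fc (f0 + ((m : ℤ), (m : ℤ))) := (tr_Fc hz).2 (show cl f0 = 1 from rfl)
  have hl : lv (f0 + ((m : ℤ), (m : ℤ))) ≤ 3 * ((2 * m : ℕ) : ℤ) + 2 := by
    unfold lv f0
    simp only [Prod.mk_add_mk]
    push_cast
    linarith [(Nat.cast_nonneg m : (0 : ℤ) ≤ (m : ℤ))]
  obtain ⟨A0, h⟩ := QQ_le2 (2 * m) _ (by omega) hK hf hl ε hε
  refine ⟨A0, fun M hM => ?_⟩
  have h1 := h M (M + 1) hM (by omega)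
  rwa [← PP_Par, QQ_tr hz] at h1

end LP

end HexObs
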