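import Pool.Agent.HexLoop.LLlog
import Pool.Agent.HexLoop.Grow
import Pool.Agent.HexLoop.Base1
import Pool.Agent.HexLoop.QQPP
import Pool.Agent.HexLoop.KRat
import Pool.Agent.HexLoop.KInf

/-!
SD10: exponential moments of the weight of the polygons around a face.
-/

set_option autoImplicit false

namespace HexObs

namespace LP

open Complex Finset Filter

/-- exponential moments of the weight of the polygons around the central face. -/
theorem LL_log {θ : ℝ} (hθ : 0 < θ) (hθ' : θ < 1.32) :
    ∃ C : ℝ, 0 < C ∧ ∀ m M : ℕ, Real.exp (θ * LL (PP m M) f0) ≤ C * (1 + kT (2 * m)) := by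
  refine LL_log_of (K := kT) (C0 := 1) hθ hθ' (fun m M k _ => inc_one m M k) ?_ ?_ base1 LL_pos
    (fun T => ENNReal.toReal_nonneg) kT_ratio kT_tendsto
  · intro m hm
    obtain ⟨F, hF, h1⟩ := SD8 (T := 2 * m + 1) (by omega)
    obtain ⟨A0, h2⟩ := inc_F m hm F hF
    exact ⟨_, A0, h1, h2⟩
  · intro m hm
    exact QQ_PP m hm (KT_ne_top (by omega)) one_pos

end LP

end HexObs
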