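import Pool.Agent.HexLoop.GrowPP
import Pool.Agent.HexLoop.GrowNum

/-!
SD10: exponential moments of the weight of the polygons around a face.
-/

set_option autoImplicit false

namespace HexObs

namespace LP

open Complex Finset Filter

theorem LL_log_of {K : ℕ → ℝ} {C0 θ : ℝ} (hθ : 0 < θ) (hθ' : θ < 1.32)
    (h1 : ∀ (m M : ℕ) (k : ℤ), 1 ≤ m →
      Inc f0 (fun _ => 1) (SP m M (3 * k + 1) (3 * k + 1)) (SP m M (3 * k - 2) (3 * k - 2)))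
    (h2 : ∀ m : ℕ, 1 ≤ m → ∃ (β : ℝ) (A0 : ℕ), 2.64 * Real.sin (3 * Real.pi / 8) * K (2 * m + 1) - C0 ≤ β ∧
      ∀ (M : ℕ) (k : ℤ), |k| + A0 ≤ M →
        Inc f0 (fun _ => β) (SP m M (3 * k + 1) (3 * k + 1)) (SP m M (3 * k - 2) (3 * k - 2)))
    (h3 : ∀ m : ℕ, 1 ≤ m → ∃ M0 : ℕ, ∀ M, M0 ≤ M →
      QQ (PP m M) f0 ≤ 2 * Real.sin (3 * Real.pi / 8) * K (2 * m) + 1)
    (hbase : ∀ M : ℕ, LL (PP 1 M) f0 ≤ QQ (PP 1 M) f0) (hpos : 0 < LL (PP 1 1) f0)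
    (hK : ∀ T, 0 ≤ K T) (hK1 : ∀ δ : ℝ, 0 < δ → ∃ C1 : ℝ, ∀ T, 1 ≤ T → K (T + 1) ≤ (1 + δ) * K T + C1) (hKinf : Tendsto K atTop atTop) :
    ∃ C : ℝ, 0 < C ∧ ∀ m M : ℕ, Real.exp (θ * LL (PP m M) f0) ≤ C * (1 + K (2 * m)) := by
  have ha : 0 < 2 * Real.sin (3 * Real.pi / 8) :=
    mul_pos two_pos (Real.sin_pos_of_pos_of_lt_pi (by positivity) (by linarith [Real.pi_pos]))
  refine growth_num (q := fun m M => QQ (PP m M) f0) (L := fun m M => LL (PP m M) f0) (K := K)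
    (a := 2 * Real.sin (3 * Real.pi / 8)) (C0 := C0) (θ := θ) ha hθ hθ'
    (fun m M M' h => LL_mono' (PP_mono le_rfl h) f0) (fun m M => LL_mono' (PP_mono (by omega) le_rfl) f0)
    (fun m M => LL_nonneg' _ _) hpos hbase hK (fun m M hm => grow1_of m M (fun k => h1 m M k hm))
    (fun m M' hm => ?_) h3 hK1 hKinf
  obtain ⟨β, A0, hβ, hI⟩ := h2 m hm
  obtain ⟨M0, hM0⟩ := grow2_of m β A0 (fun M k => h1 m M k hm) hI M'
  refine ⟨M0, fun M hM => le_trans ?_ (hM0 M hM)⟩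
  apply mul_le_mul_of_nonneg_right _ (sub_nonneg.2 (LL_mono' (PP_mono (by omega) le_rfl) f0))
  refine le_trans (le_of_eq ?_) hβ
  ring

end LP

end HexObs
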