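import Pool.Agent.HexLoop.QRef
import Pool.Agent.HexLoop.HMono

/-!
SD2: pendant vertices (vertices with one neighbour in the domain) do not change the sums HH and QQ.
-/

set_option autoImplicit false

namespace HexObs

namespace LP

open Complex Finset

/-- v has at most the neighbour u in Ω. -/
def Pd (Ω : Finset Pt) (v u : Pt) : Prop := ∀ d ∈ dirs, v + d ∈ Ω → v + d = u

private lemma pd_append {Ω : Finset Pt} {p : Pt × Pt} {t : List Bool} {b : Bool} :
    Arr0 Ω p (t ++ [b]) ↔
      Arr0 Ω p t ∧ tp p t ∈ Ω ∧ ∀ i, 1 ≤ i → i ≤ t.length → vx p.1 p.2 t i ≠ tp p t := by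
  have hl : (t ++ [b]).length = t.length + 1 := by simp
  constructor
  · intro h
    refine ⟨⟨?_, ?_⟩, ?_, ?_⟩
    · intro i h1 h2
      have := h.mem i h1 (by omega)
      rwa [vx_append (by omega)] at this
    · intro i k h0 h1 h2
      have := h.inj i k h0 h1 (by omega)
      rwa [vx_append (by omega), vx_append (by omega)] at this
    · have := h.mem (t.length + 1) (by omega) (by omega)
      rwa [vx_append (by omega)] at this
    · intro i h0 h1
      have := h.inj i (t.length + 1) h0 (by omega) (by omega)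
      rwa [vx_append (by omega), vx_append (by omega)] at this
  · rintro ⟨h, h1, h2⟩
    constructor
    · intro i h3 h4
      rw [hl] at h4
      rw [vx_append (by omega)]
      rcases Nat.lt_or_ge t.length i with h5 | h5
      · have : i = t.length + 1 := by omega
        rw [this]
        exact h1
      · exact h.mem i h3 h5
    · intro i k h0 h3 h4
      rw [hl] at h4
      rw [vx_append (by omega), vx_append (by omega)]
      rcases Nat.lt_or_ge t.length k with h5 | h5
      · have : k = t.length + 1 := by omega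
        rw [this]
        exact h2 i h0 (by omega)
      · exact h.inj i k h0 h3 h5

/-- the predecessor of v is u -/
private lemma pd_pre {Ω : Finset Pt} {v u : Pt} (hu : Pd Ω v u) {p : Pt × Pt} (hp : De p) {t : List Bool} {k : ℕ}
    (h1 : vx p.1 p.2 t (k + 1) = v) (h2 : vx p.1 p.2 t k ∈ Ω) : vx p.1 p.2 t k = u := by
  have h3 := de_vx hp t k
  have h4 : v + -(dx p.2 t k) = vx p.1 p.2 t k := by
    rw [← h1, vx_next]
    abel
  rw [← h4]
  apply hu _ (neg_dirs_iff.2 h3.1)
  rw [h4]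
  exact h2

/-- the successor of v is u -/
private lemma pd_suc {Ω : Finset Pt} {v u : Pt} (hu : Pd Ω v u) {p : Pt × Pt} (hp : De p) {t : List Bool} {k : ℕ}
    (h1 : vx p.1 p.2 t k = v) (h2 : vx p.1 p.2 t (k + 1) ∈ Ω) : vx p.1 p.2 t (k + 1) = u := by
  have h3 := de_vx hp t k
  have h4 : v + dx p.2 t k = vx p.1 p.2 t (k + 1) := by
    rw [← h1, vx_next]
  rw [← h4]
  apply hu _ h3.1
  rw [h4]
  exact h2

/-- a walk that visits v does so in its last vertex -/
private lemma pd_last {Ω : Finset Pt} {v u : Pt} (hv : v ∉ Ω) (hu : Pd Ω v u) {a : Pt × Pt} (ha : a ∈ bd Ω)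
    {t : List Bool} (ht : t ∈ ex0 (insert v Ω) a) {k : ℕ} (h1 : 1 ≤ k) (h2 : k ≤ t.length)
    (h3 : vx a.1 a.2 t k = v) : k = t.length := by
  rw [mem_bd] at ha
  rw [mem_ex0] at ht
  obtain ⟨hA, _⟩ := ht
  by_contra hne
  have hk1 : k ≠ 1 := by
    intro e
    subst e
    apply hv
    rw [← h3]
    exact ha.1
  have hin : ∀ i, 1 ≤ i → i ≤ t.length → i ≠ k → vx a.1 a.2 t i ∈ Ω := by
    intro i hi1 hi2 hi3
    have h4 := hA.mem i hi1 hi2
    rcases Finset.mem_insert.1 h4 with h5 | h5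
    · exfalso
      rcases Nat.lt_or_ge i k with h6 | h6
      · exact hA.inj i k hi1 h6 h2 (by rw [h3, h5])
      · exact hA.inj k i h1 (by omega) hi2 (by rw [h3, h5])
    · exact h5
  obtain ⟨j, rfl⟩ : ∃ j, k = j + 1 := ⟨k - 1, by omega⟩
  have h4 := pd_pre hu ha.2.1 h3 (hin j (by omega) (by omega) (by omega))
  have h5 := pd_suc hu ha.2.1 h3 (hin (j + 1 + 1) (by omega) (by omega) (by omega))
  exact hA.inj j (j + 1 + 1) (by omega) (by omega) (by omega) (by rw [h4, h5])

private lemma pd_turn : ∀ d ∈ dirs, ∀ b : Bool, turn b d ≠ -d ∧ turn b d ≠ 0 := by decide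

/-- the walks of the larger domain: ending with v -/
private lemma pd_iff {Ω : Finset Pt} {v u : Pt} (hv : v ∉ Ω) (hu : Pd Ω v u) {a : Pt × Pt} (ha : a ∈ bd Ω)
    (_hav : a.1 ≠ v) {g : List Bool} {b : Bool} :
    (g ++ [b] ∈ ex0 (insert v Ω) a ∧ vx a.1 a.2 (g ++ [b]) (g ++ [b]).length = v) ↔
      (g ∈ ex0 Ω a ∧ tp a g = v) := by
  have hl : (g ++ [b]).length = g.length + 1 := by simp
  have hb := mem_bd.1 ha
  rw [hl, vx_append (by omega), mem_ex0, mem_ex0, pd_append]
  constructor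
  · rintro ⟨⟨⟨h1, h2, h3⟩, h4⟩, h5⟩
    have h5' : tp a g = v := h5
    refine ⟨⟨⟨?_, h1.inj⟩, ?_⟩, h5⟩
    · intro i hi1 hi2
      rcases Finset.mem_insert.1 (h1.mem i hi1 hi2) with h6 | h6
      · exfalso
        exact h3 i hi1 hi2 (by rw [h6, h5'])
      · exact h6
    · rw [h5']
      exact hv
  · rintro ⟨⟨h1, h2⟩, h3⟩
    refine ⟨⟨⟨⟨fun i hi1 hi2 => Finset.mem_insert_of_mem (h1.mem i hi1 hi2), h1.inj⟩, ?_, ?_⟩, ?_⟩, h3⟩
    · rw [h3]
      exact Finset.mem_insert_self _ _
    · intro i hi1 hi2 e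
      apply hv
      rw [← h3, ← e]
      exact h1.mem i hi1 hi2
    · have hg : 1 ≤ g.length := by
        rcases Nat.eq_zero_or_pos g.length with h | h
        · exfalso
          apply h2
          unfold tp tip
          rw [h]
          exact hb.1
        · exact h
      have hd := de_vx hb.2.1 (g ++ [b]) g.length
      have e1 : vx a.1 a.2 (g ++ [b]) (g.length + 1) = v := by
        rw [vx_append (by omega)]
        exact h3
      have e2 : tp a (g ++ [b]) = v + turn b (dx a.2 g g.length) := by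
        show vx a.1 a.2 (g ++ [b]) ((g ++ [b]).length + 1) = _
        rw [hl, vx_next, e1, dx_next, dx_append (by omega)]
        congr 2
        have := tf_append_right (t := g) (s := [b]) 0
        rw [add_zero] at this
        rw [this]
        rfl
      have hdm : dx a.2 g g.length ∈ dirs := (de_vx hb.2.1 g g.length).1
      intro hcon
      rcases Finset.mem_insert.1 hcon with h6 | h6
      · rw [e2] at h6
        exact (pd_turn _ hdm b).2 (by
          have h7 : v + turn b (dx a.2 g g.length) = v + 0 := by rw [h6, add_zero]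
          exact add_left_cancel h7)
      · have h7 := hu (turn b (dx a.2 g g.length)) (turn_mem hdm b) (by rw [← e2]; exact h6)
        have h8 : vx a.1 a.2 g g.length = u := pd_pre hu hb.2.1 h3 (h1.mem _ hg le_rfl)
        have h9 : v + turn b (dx a.2 g g.length) = v + -(dx a.2 g g.length) := by
          rw [h7, ← h8]
          have h10 : v = vx a.1 a.2 g g.length + dx a.2 g g.length := h3.symm
          rw [h10]
          abel
        exact (pd_turn _ hdm b).1 (add_left_cancel h9)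

private lemma pd_not {Ω : Finset Pt} {v : Pt} {a : Pt × Pt} {t : List Bool} :
    (t ∈ ex0 (insert v Ω) a ∧ ∀ k, 1 ≤ k → k ≤ t.length → vx a.1 a.2 t k ≠ v) ↔
      (t ∈ ex0 Ω a ∧ tp a t ≠ v ∧ ∀ k, 1 ≤ k → k ≤ t.length → vx a.1 a.2 t k ≠ v) := by
  rw [mem_ex0, mem_ex0]
  constructor
  · rintro ⟨⟨h1, h2⟩, h3⟩
    rw [Finset.mem_insert, not_or] at h2
    refine ⟨⟨⟨?_, h1.inj⟩, h2.2⟩, h2.1, h3⟩
    intro i hi1 hi2
    rcases Finset.mem_insert.1 (h1.mem i hi1 hi2) with h4 | h4
    · exact absurd h4 (h3 i hi1 hi2)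
    · exact h4
  · rintro ⟨⟨h1, h2⟩, h3, h4⟩
    refine ⟨⟨⟨fun i hi1 hi2 => Finset.mem_insert_of_mem (h1.mem i hi1 hi2), h1.inj⟩, ?_⟩, h4⟩
    rw [Finset.mem_insert, not_or]
    exact ⟨h3, h2⟩

open Classical in
/-- the walks with the last vertex v -/
private lemma pd_sumv {Ω : Finset Pt} {v u : Pt} (hv : v ∉ Ω) (hu : Pd Ω v u) {a : Pt × Pt} (ha : a ∈ bd Ω)
    (hav : a.1 ≠ v) (G : List Bool → ℝ)
    (hG : ∀ g ∈ ex0 Ω a, tp a g = v → G (g ++ [true]) + G (g ++ [false]) = G g) :
    ∑ t ∈ (ex0 (insert v Ω) a).filter (fun t => vx a.1 a.2 t t.length = v), G t =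
      ∑ g ∈ (ex0 Ω a).filter (fun g => tp a g = v), G g := by
  have h1 : ∑ g ∈ (ex0 Ω a).filter (fun g => tp a g = v), G g =
      ∑ g ∈ (ex0 Ω a).filter (fun g => tp a g = v), ∑ b : Bool, G (g ++ [b]) := by
    apply Finset.sum_congr rfl
    intro g hg
    rw [Finset.mem_filter] at hg
    rw [Fintype.sum_bool, hG g hg.1 hg.2]
  rw [h1, ← Finset.sum_product']
  symm
  refine Finset.sum_bij (fun q _ => q.1 ++ [q.2]) ?_ ?_ ?_ ?_
  · rintro ⟨g, b⟩ hq
    rw [Finset.mem_product, Finset.mem_filter] at hq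
    rw [Finset.mem_filter]
    exact (pd_iff hv hu ha hav).2 hq.1
  · rintro ⟨t, b⟩ _ ⟨s, c⟩ _ h
    have := List.append_inj' h rfl
    simp only [List.cons.injEq, and_true] at this
    exact Prod.ext this.1 this.2
  · intro t ht
    rw [Finset.mem_filter] at ht
    have hb := mem_bd.1 ha
    have hne : t ≠ [] := by
      rintro rfl
      apply hav
      exact ht.2
    have h2 := List.dropLast_append_getLast hne
    refine ⟨(t.dropLast, t.getLast hne), ?_, h2⟩
    rw [Finset.mem_product, Finset.mem_filter]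
    refine ⟨?_, Finset.mem_univ _⟩
    rw [← h2] at ht
    exact (pd_iff hv hu ha hav).1 ht
  · intro q _
    rfl

open Classical in
/-- the walks from the other boundary edges -/
private lemma pd_suma {Ω : Finset Pt} {v u : Pt} (hv : v ∉ Ω) (hu : Pd Ω v u) {a : Pt × Pt} (ha : a ∈ bd Ω)
    (hav : a.1 ≠ v) (G : List Bool → ℝ)
    (hG : ∀ g ∈ ex0 Ω a, tp a g = v → G (g ++ [true]) + G (g ++ [false]) = G g) :
    ∑ t ∈ ex0 (insert v Ω) a, G t = ∑ g ∈ ex0 Ω a, G g := by
  rw [← Finset.sum_filter_add_sum_filter_not (ex0 (insert v Ω) a) (fun t => vx a.1 a.2 t t.length = v),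
    pd_sumv hv hu ha hav G hG,
    ← Finset.sum_filter_add_sum_filter_not (ex0 Ω a) (fun t => tp a t = v)]
  congr 1
  apply Finset.sum_congr _ (fun _ _ => rfl)
  ext t
  rw [Finset.mem_filter, Finset.mem_filter]
  have key : t ∈ ex0 (insert v Ω) a → (vx a.1 a.2 t t.length ≠ v ↔ ∀ k, 1 ≤ k → k ≤ t.length → vx a.1 a.2 t k ≠ v) := by
    intro ht
    constructor
    · intro h1 k hk1 hk2 h3
      have h4 := pd_last hv hu ha ht hk1 hk2 h3
      rw [h4] at h3
      exact h1 h3
    · intro h1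
      rcases Nat.eq_zero_or_pos t.length with h | h
      · rw [h]
        exact hav
      · exact h1 _ h le_rfl
  constructor
  · rintro ⟨h1, h2⟩
    have h3 := pd_not.1 ⟨h1, (key h1).1 h2⟩
    exact ⟨h3.1, h3.2.1⟩
  · rintro ⟨h1, h2⟩
    have h3 := pd_not.2 ⟨h1, h2, fun k hk1 hk2 e => hv (by rw [← e]; exact (mem_ex0.1 h1).1.mem k hk1 hk2)⟩
    exact ⟨h3.1, (key h3.1).2 h3.2⟩

/-- pendant vertices: general form. -/
theorem pend_sum {Ω : Finset Pt} {v u : Pt} (hΩ : ∀ w ∈ Ω, Vt w) (hvt : Vt v) (hv : v ∉ Ω) (hu : Pd Ω v u)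
    (G : Pt × Pt → List Bool → ℝ)
    (hG : ∀ a ∈ bd Ω, a.1 ≠ v → ∀ g ∈ ex0 Ω a, tp a g = v → G a (g ++ [true]) + G a (g ++ [false]) = G a g)
    (hR : ∀ a, De a → ∀ t, G (rv (le a t)) (rev t) = G a t)
    (h0 : ∀ a ∈ bd (insert v Ω), a.1 + a.2 = v → ∀ b, [b] ∈ ex0 (insert v Ω) a → G a [b] = 0) :
    ∑ a ∈ bd (insert v Ω), ∑ t ∈ ex0 (insert v Ω) a, G a t = ∑ a ∈ bd Ω, ∑ t ∈ ex0 Ω a, G a t := by
  classical
  have hΩ' : ∀ w ∈ insert v Ω, Vt w := by
    intro w hw
    rcases Finset.mem_insert.1 hw with rfl | h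
    · exact hvt
    · exact hΩ w h
  -- the boundary edges
  have hP : (bd (insert v Ω)).filter (fun a => ¬ a.1 + a.2 = v) = (bd Ω).filter (fun a => ¬ a.1 = v) := by
    ext a
    rw [Finset.mem_filter, Finset.mem_filter, mem_bd, mem_bd, Finset.mem_insert, Finset.mem_insert, not_or]
    constructor
    · rintro ⟨⟨h1 | h1, h2, h3, h4⟩, h5⟩
      · exact absurd h1 h5
      · exact ⟨⟨h1, h2, h4⟩, h3⟩
    · rintro ⟨⟨h1, h2, h3⟩, h4⟩
      refine ⟨⟨Or.inr h1, h2, h4, h3⟩, ?_⟩
      intro h5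
      rw [h5] at h1
      exact hv h1
  rw [← Finset.sum_filter_add_sum_filter_not (bd (insert v Ω)) (fun a => a.1 + a.2 = v), hP,
    ← Finset.sum_filter_add_sum_filter_not (bd Ω) (fun a => a.1 = v)]
  have hA : ∑ a ∈ (bd Ω).filter (fun a => ¬ a.1 = v), ∑ t ∈ ex0 (insert v Ω) a, G a t =
      ∑ a ∈ (bd Ω).filter (fun a => ¬ a.1 = v), ∑ t ∈ ex0 Ω a, G a t := by
    apply Finset.sum_congr rfl
    intro a ha
    rw [Finset.mem_filter] at ha
    exact pd_suma hv hu ha.1 ha.2 (G a) (hG a ha.1 ha.2)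
  rw [hA]
  congr 1
  -- the starts at v: reversal
  have hL : ∑ a ∈ (bd (insert v Ω)).filter (fun a => a.1 + a.2 = v), ∑ t ∈ ex0 (insert v Ω) a, G a t =
      ∑ a ∈ (bd Ω).filter (fun a => ¬ a.1 = v), ∑ g ∈ (ex0 Ω a).filter (fun g => tp a g = v), G a g := by
    have e1 : ∑ a ∈ (bd (insert v Ω)).filter (fun a => a.1 + a.2 = v), ∑ t ∈ ex0 (insert v Ω) a, G a t =
        ∑ a ∈ bd (insert v Ω), ∑ t ∈ ex0 (insert v Ω) a, (if a.1 + a.2 = v then G a t else 0) := by
      rw [Finset.sum_filter]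
      apply Finset.sum_congr rfl
      intro a _
      split_ifs
      · rfl
      · rw [Finset.sum_const_zero]
    rw [e1, rev_ex hΩ']
    have e2 : ∀ a ∈ bd (insert v Ω), ∑ t ∈ ex0 (insert v Ω) a,
        (if (rv (le a t)).1 + (rv (le a t)).2 = v then G (rv (le a t)) (rev t) else 0) =
        ∑ t ∈ (ex0 (insert v Ω) a).filter (fun t => vx a.1 a.2 t t.length = v), G a t := by
      intro a ha
      rw [Finset.sum_filter]
      apply Finset.sum_congr rfl
      intro t _
      have e3 : (rv (le a t)).1 + (rv (le a t)).2 = vx a.1 a.2 t t.length := by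
        show vx a.1 a.2 t t.length + dx a.2 t t.length + -(dx a.2 t t.length) = _
        rw [add_neg_cancel_right]
      rw [e3, hR a (mem_bd.1 ha).2.1]
    rw [Finset.sum_congr rfl e2, ← Finset.sum_filter_add_sum_filter_not (bd (insert v Ω)) (fun a => a.1 + a.2 = v), hP]
    have e4 : ∑ a ∈ (bd (insert v Ω)).filter (fun a => a.1 + a.2 = v),
        ∑ t ∈ (ex0 (insert v Ω) a).filter (fun t => vx a.1 a.2 t t.length = v), G a t = 0 := by
      apply Finset.sum_eq_zero
      intro a ha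
      apply Finset.sum_eq_zero
      intro t ht
      rw [Finset.mem_filter] at ha ht
      have h1 := (mem_ex0.1 ht.1).1
      have h2 := ex0_pos (mem_bd.1 ha.1).1 ht.1
      have h3 : t.length = 1 := by
        by_contra h4
        exact h1.inj 1 t.length le_rfl (by omega) le_rfl (by rw [ht.2]; exact ha.2)
      obtain ⟨b, rfl⟩ := List.length_eq_one_iff.1 h3
      exact h0 a ha.1 ha.2 b ht.1
    rw [e4, zero_add]
    apply Finset.sum_congr rfl
    intro a ha
    rw [Finset.mem_filter] at ha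
    exact pd_sumv hv hu ha.1 ha.2 (G a) (hG a ha.1 ha.2)
  have hR' : ∑ a ∈ (bd Ω).filter (fun a => a.1 = v), ∑ t ∈ ex0 Ω a, G a t =
      ∑ a ∈ (bd Ω).filter (fun a => ¬ a.1 = v), ∑ g ∈ (ex0 Ω a).filter (fun g => tp a g = v), G a g := by
    have e1 : ∑ a ∈ (bd Ω).filter (fun a => a.1 = v), ∑ t ∈ ex0 Ω a, G a t =
        ∑ a ∈ bd Ω, ∑ t ∈ ex0 Ω a, (if a.1 = v then G a t else 0) := by
      rw [Finset.sum_filter]
      apply Finset.sum_congr rfl
      intro a _
      split_ifs
      · rfl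
      · rw [Finset.sum_const_zero]
    rw [e1, rev_ex hΩ]
    have e2 : ∀ a ∈ bd Ω, ∑ t ∈ ex0 Ω a, (if (rv (le a t)).1 = v then G (rv (le a t)) (rev t) else 0) =
        ∑ t ∈ (ex0 Ω a).filter (fun t => tp a t = v), G a t := by
      intro a ha
      rw [Finset.sum_filter]
      apply Finset.sum_congr rfl
      intro t _
      rw [hR a (mem_bd.1 ha).2.1]
      rfl
    rw [Finset.sum_congr rfl e2, ← Finset.sum_filter_add_sum_filter_not (bd Ω) (fun a => a.1 = v)]
    have e4 : ∑ a ∈ (bd Ω).filter (fun a => a.1 = v), ∑ t ∈ (ex0 Ω a).filter (fun t => tp a t = v), G a t = 0 := by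
      apply Finset.sum_eq_zero
      intro a ha
      apply Finset.sum_eq_zero
      intro t ht
      exfalso
      rw [Finset.mem_filter] at ha ht
      have h1 := (mem_ex0.1 ht.1).1
      have hb := mem_bd.1 ha.1
      have h2 := ex0_pos hb.1 ht.1
      have h3 : a.1 + a.2 = u := by
        have h5 := pd_suc (t := t) (k := 0) hu hb.2.1 ha.2 hb.1
        exact h5
      have h4 : vx a.1 a.2 t t.length = u := pd_pre hu hb.2.1 ht.2 (h1.mem _ h2 le_rfl)
      have h5 : t.length = 1 := by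
        by_contra h6
        exact h1.inj 1 t.length le_rfl (by omega) le_rfl (by rw [h4]; exact h3)
      obtain ⟨b, rfl⟩ := List.length_eq_one_iff.1 h5
      have h6 : tp a [b] = a.1 + a.2 + turn b a.2 := rfl
      have h7 : a.1 + a.2 + turn b a.2 = a.1 := by rw [← h6, ht.2, ha.2]
      have h8 : turn b a.2 = -a.2 := by
        have h9 : a.1 + a.2 + turn b a.2 = a.1 + a.2 + -a.2 := by rw [h7]; abel
        exact add_left_cancel h9
      exact (pd_turn _ hb.2.1.1 b).1 h8
    rw [e4, zero_add]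
  rw [hL, hR']

lemma wt_im' (t : List Bool) : (wt t).im = Real.sin (wind t * (Real.pi / 8)) * xc ^ t.length := by
  unfold wt
  rw [← Complex.ofReal_pow, Complex.im_mul_ofReal, Complex.exp_ofReal_mul_I_im]

lemma cw_extend (t : List Bool) : cw (t ++ [true]) + cw (t ++ [false]) = cw t := by
  rw [← cw_re, ← cw_re, ← cw_re, ← Complex.add_re, wt_extend]

lemma cw_rev (t : List Bool) : cw (rev t) = cw t := by
  unfold cw
  rw [wind_rev, rev_length]
  push_cast
  rw [neg_mul, Real.cos_neg]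

private lemma pd_hit {K : Finset Pt} {a : Pt × Pt} {g : List Bool} {b : Bool} (h : tp a g ∉ K) :
    Hit K a (g ++ [b]) ↔ Hit K a g := by
  have hl : (g ++ [b]).length = g.length + 1 := by simp
  unfold Hit
  rw [hl]
  constructor
  · rintro ⟨i, h1, h2, h3⟩
    rw [vx_append (by omega)] at h3
    rcases Nat.lt_or_ge g.length i with h4 | h4
    · exfalso
      apply h
      have h5 : i = g.length + 1 := by omega
      rw [h5] at h3
      exact h3
    · exact ⟨i, h1, h4, h3⟩
  · rintro ⟨i, h1, h2, h3⟩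
    refine ⟨i, h1, by omega, ?_⟩
    rw [vx_append (by omega)]
    exact h3

/-- SD2: pendant vertices do not change HH. -/
theorem HH_pend {Ω : Finset Pt} {v u : Pt} (hΩ : ∀ w ∈ Ω, Vt w) (hvt : Vt v) (hv : v ∉ Ω) (hu : Pd Ω v u)
    {K : Finset Pt} (hK : v ∉ K) : HH (insert v Ω) K = HH Ω K := by
  classical
  rw [HH_def, HH_def]
  simp only [Finset.sum_filter]
  apply pend_sum hΩ hvt hv hu (fun a t => if Hit K a t then cw t else 0)
  · intro a _ _ g _ h3
    have h4 : tp a g ∉ K := by rw [h3]; exact hK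
    simp only [pd_hit h4]
    split_ifs
    · exact cw_extend g
    · rw [add_zero]
  · intro a _ t
    simp only [Hit_rev, cw_rev]
  · intro a _ h2 b _
    rw [if_neg]
    rintro ⟨i, h3, h4, h5⟩
    have h6 : i = 1 := by
      simp only [List.length_cons, List.length_nil] at h4
      omega
    subst h6
    apply hK
    rw [← h2]
    exact h5

private lemma pd_NN (f : Pt) (p : Pt × Pt) (t : List Bool) (b : Bool) :
    NN f p (t ++ [b]) = NN f p t + cr f (le p (t ++ [b])) := by
  have hl : (t ++ [b]).length = t.length + 1 := by simp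
  unfold NN le
  rw [hl, Finset.sum_range_succ]
  congr 1
  apply Finset.sum_congr rfl
  intro i hi
  rw [Finset.mem_range] at hi
  rw [vx_append (by omega), dx_append (by omega)]

/-- SD2: pendant vertices do not change QQ. -/
theorem QQ_pend {Ω : Finset Pt} {v u : Pt} (hΩ : ∀ w ∈ Ω, Vt w) (hvt : Vt v) (hv : v ∉ Ω) (hu : Pd Ω v u)
    {f : Pt} (hcr : ∀ a ∈ bd (insert v Ω), a.1 + a.2 = v → cr f a = 0) : QQ (insert v Ω) f = QQ Ω f := by
  classical
  -- the last edge
  have hlast : ∀ a, De a → ∀ t ∈ ex0 (insert v Ω) a, 1 ≤ t.length → vx a.1 a.2 t t.length = v →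
      cr f (le a t) = 0 := by
    intro a ha t ht h1 h2
    have h3 : rv (le a t) ∈ bd (insert v Ω) := by
      rw [mem_bd]
      have e : (rv (le a t)).1 + (rv (le a t)).2 = vx a.1 a.2 t t.length := by
        show vx a.1 a.2 t t.length + dx a.2 t t.length + -(dx a.2 t t.length) = _
        rw [add_neg_cancel_right]
      refine ⟨?_, ?_, (mem_ex0.1 ht).2⟩
      · rw [e]
        exact (mem_ex0.1 ht).1.mem _ h1 le_rfl
      · exact w_de_rv (de_vx ha t t.length)
    have h4 := hcr _ h3 (by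
      show vx a.1 a.2 t t.length + dx a.2 t t.length + -(dx a.2 t t.length) = _
      rw [add_neg_cancel_right]
      exact h2)
    rw [w_cr_rv] at h4
    omega
  unfold QQ
  rw [neg_inj]
  apply pend_sum hΩ hvt hv hu (fun a t => (NN f a t : ℝ) * Real.sin (wind t * (Real.pi / 8)) * xc ^ t.length)
  · intro a ha hav g hg h3
    have h4 : ∀ b, NN f a (g ++ [b]) = NN f a g := by
      intro b
      have h5 := (pd_iff (b := b) hv hu ha hav).2 ⟨hg, h3⟩
      rw [pd_NN, hlast a (mem_bd.1 ha).2.1 _ h5.1 (by simp) h5.2, add_zero]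
    simp only [h4]
    have h5 := congrArg Complex.im (wt_extend g)
    rw [Complex.add_im, wt_im', wt_im', wt_im'] at h5
    linear_combination (NN f a g : ℝ) * h5
  · intro a ha t
    rw [NN_rev (fun i _ => de_vx ha t i), wind_rev, rev_length]
    push_cast
    rw [neg_mul (wind t : ℝ), Real.sin_neg]
    ring
  · intro a ha h2 b hb
    have h3 : NN f a [b] = cr f a + cr f (le a [b]) := by
      unfold NN le
      simp only [List.length_cons, List.length_nil, zero_add, Finset.sum_range_succ, Finset.sum_range_zero]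
      rfl
    have h4 := hcr a ha h2
    have h5 := hlast a (mem_bd.1 ha).2.1 [b] hb (by simp) h2
    rw [h3, h4, h5]
    push_cast
    ring

end LP

end HexObs
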