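import Pool.Agent.HexLoop.Par
import Pool.Agent.HexLoop.RevW
import Pool.Agent.HexSPR.Final

/-!
LOOP, L15: walks from or to the walls of the parallelogram that cross the ray.
-/

set_option autoImplicit false

namespace HexObs

namespace LP

open Complex Finset


namespace Wall

/-- points of the parallelogram. -/
private lemma mem_par' {T A B : ℕ} {v : Pt} : v ∈ Par T A B ↔
    (cl v = 0 ∨ cl v = -1) ∧ 0 < lv v ∧ lv v < 3 * T + 2 ∧ -(3 * A : ℤ) < nn v ∧ nn v < 3 * B - 1 := by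
  unfold Par
  rw [Tube.mem_dF]
  have e0 : v - oo = v := sub_zero v
  have e1 : ip v up = lv v := by
    unfold ip lv up
    ring
  have e2 : ip v (rotL up) = -nn v := by
    unfold ip rotL nn up
    ring
  have e3 : ip v (Tube.gn true up) = nn v := by
    unfold Tube.gn rotR ip nn up
    simp only [if_true]
    ring
  have c0 : cl oo = 0 := by decide
  have c1 : cl oo + cl up = -1 := by decide
  have key : v ∈ Tube.dm oo up true T A B ↔ ((cl v = cl oo ∨ cl v = cl oo + cl up) ∧ 0 < ip (v - oo) up ∧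
      ip (v - oo) up < 3 * T + 2) ∧ ip (v - oo) (rotL up) < 3 * A ∧ ip (v - oo) (Tube.gn true up) < 3 * B - 1 := Iff.rfl
  rw [key, e0, e1, e2, e3, c1, c0]
  constructor
  · rintro ⟨⟨h1, h2, h3⟩, h4, h5⟩
    exact ⟨h1, h2, h3, by linarith, h5⟩
  · rintro ⟨h1, h2, h3, h4, h5⟩
    exact ⟨⟨h1, h2, h3⟩, by linarith, h5⟩

private lemma par_vt {T A B : ℕ} : ∀ v ∈ Par T A B, Vt v := by
  intro v hv
  unfold Vt
  rcases (mem_par'.1 hv).1 with h | h <;> rw [h] <;> decide

/-- boundary edges. -/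
private lemma bd_mem {Ω : Finset Pt} {a : Pt × Pt} (ha : a ∈ bd Ω) : De a ∧ a.1 ∉ Ω ∧ a.1 + a.2 ∈ Ω := by
  unfold bd at ha
  simp only [Finset.mem_filter, Finset.mem_image] at ha
  obtain ⟨⟨p, hp, rfl⟩, h1, h2⟩ := ha
  refine ⟨h1, h2, ?_⟩
  show p.1 - p.2 + p.2 ∈ Ω
  rw [sub_add_cancel]
  exact (Finset.mem_product.1 hp).1

/-- the old notion of walks that leave the domain. -/
private lemma ex0_sub {Ω : Finset Pt} {p : Pt × Pt} (h : p.1 ∉ Ω) {t : List Bool} (ht : t ∈ ex0 Ω p) :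
    t ∈ exits Ω p.1 p.2 := by
  unfold ex0 at ht
  rw [Finset.mem_filter, mem_arr0] at ht
  obtain ⟨⟨h1, h2⟩, h3⟩ := ht
  rw [mem_exits]
  refine ⟨⟨h1, ?_⟩, h3⟩
  intro i k hik hk
  rcases Nat.eq_zero_or_pos i with hi | hi
  · intro heq
    apply h
    have h4 := h1 k (by omega) hk
    rw [← heq, hi] at h4
    exact h4
  · exact h2 i k hi hik hk

/-- cosines of the admissible windings. -/
private lemma fb_ge {t : List Bool} (h : -3 ≤ wind t ∧ wind t ≤ 3) :
    Real.cos (3 * Real.pi / 8) * xc ^ t.length ≤ Tube.fb 0 t := by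
  unfold Tube.fb
  rw [add_zero]
  apply mul_le_mul_of_nonneg_right _ (pow_nonneg xc_pos.le _)
  rw [← Real.cos_abs (wind t * (Real.pi / 8))]
  have h3 : (-3 : ℝ) ≤ wind t := by exact_mod_cast h.1
  have h4 : (wind t : ℝ) ≤ 3 := by exact_mod_cast h.2
  have hp := Real.pi_pos
  apply Real.cos_le_cos_of_nonneg_of_le_pi (abs_nonneg _) (by linarith)
  rw [abs_mul, abs_of_pos (by positivity : 0 < Real.pi / 8)]
  have h5 : |(wind t : ℝ)| ≤ 3 := abs_le.2 ⟨h3, h4⟩
  nlinarith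

private lemma fb_le (t : List Bool) : Tube.fb 0 t ≤ xc ^ t.length := by
  unfold Tube.fb
  have h1 := Real.cos_le_one (wind t * (Real.pi / 8) + 0)
  have h2 := pow_nonneg xc_pos.le t.length
  nlinarith

open Classical in
/-- walks that leave the strip of height h: as many as bridges of height h. -/
private lemma core {Ω : Finset Pt} {v0 d0 : Pt} (hg : GoodDom Ω v0 d0) (hc : ∀ v ∈ Ω, IsHex v0 d0 v) {h : ℕ}
    (hh : 1 ≤ h) : Real.cos (3 * Real.pi / 8) * ∑ t ∈ (exits Ω v0 d0).filter (fun t => ∃ i, 1 ≤ i ∧ i ≤ t.length ∧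
      3 * (h : ℤ) + 2 ≤ ip (vx v0 d0 t i - v0) d0), xc ^ t.length ≤ uu h := by
  set D : Finset Pt := Ω.filter (fun v => ip (v - v0) d0 < 3 * h + 2) with hD
  have hDs : ∀ v ∈ D, v ∈ strip v0 d0 h := by
    intro v hv
    rw [hD, Finset.mem_filter] at hv
    exact ⟨hc v hv.1, hg.half v hv.1, hv.2⟩
  have h1 := Tube.two_dom (Ω := Ω) (Ω' := D) hg.dir hg.half
    (fun v hv => hg.half v (Finset.mem_of_mem_filter v hv)) 0
  have h2 : Real.cos (3 * Real.pi / 8) * ∑ t ∈ (exits Ω v0 d0).filter (fun t => ∃ i, 1 ≤ i ∧ i ≤ t.length ∧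
      3 * (h : ℤ) + 2 ≤ ip (vx v0 d0 t i - v0) d0), xc ^ t.length ≤ ∑ t ∈ exits Ω v0 d0 \ exits D v0 d0, Tube.fb 0 t := by
    rw [Finset.mul_sum]
    have h3 : ∀ t ∈ exits Ω v0 d0, -3 ≤ wind t ∧ wind t ≤ 3 := by
      intro t ht
      rcases hg.wind_cases ht with h | h | h | h | h | h | h <;> omega
    refine le_trans (Finset.sum_le_sum (fun t ht => fb_ge (h3 t (Finset.mem_filter.1 ht).1))) ?_
    apply Finset.sum_le_sum_of_subset_of_nonneg
    · intro t ht
      rw [Finset.mem_filter] at ht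
      obtain ⟨ht1, i, hi1, hi2, hi3⟩ := ht
      rw [Finset.mem_sdiff]
      refine ⟨ht1, fun h4 => ?_⟩
      have h5 := (mem_exits.1 h4).1.mem i hi1 hi2
      rw [hD, Finset.mem_filter] at h5
      have := h5.2
      omega
    · intro t ht _
      exact Tube.fb_nonneg (by rw [abs_zero]; positivity) (h3 t (Finset.mem_sdiff.1 ht).1)
  have h6 : ∑ t ∈ exits D v0 d0 \ exits Ω v0 d0, Tube.fb 0 t ≤ uu h := by
    refine le_trans (Finset.sum_le_sum (fun t _ => fb_le t)) ?_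
    have h7 : gf ((exits D v0 d0 \ exits Ω v0 d0 : Finset (List Bool)) : Set (List Bool)) ≤ BT h := by
      rw [← gf_B hg.dir v0 h]
      apply gf_mono
      intro t ht
      rw [Finset.mem_coe, Finset.mem_sdiff, mem_exits, mem_exits] at ht
      obtain ⟨⟨a1, a2⟩, a3⟩ := ht
      have a4 : IsArr Ω v0 d0 t := ⟨fun i hi hl => Finset.mem_of_mem_filter _ (a1.mem i hi hl), a1.inj⟩
      have a5 : tip v0 d0 t ∈ Ω := by
        by_contra hcon
        exact a3 ⟨a4, hcon⟩
      have a6 : ¬ ip (tip v0 d0 t - v0) d0 < 3 * h + 2 := by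
        intro hcon
        exact a2 (Finset.mem_filter.2 ⟨a5, hcon⟩)
      have a7 : Saw (strip v0 d0 h) v0 d0 t := ⟨fun i hi hl => hDs _ (a1.mem i hi hl), a1.inj⟩
      have a8 : tip v0 d0 t ∉ strip v0 d0 h := fun hcon => a6 hcon.2.2
      refine ⟨a7, a8, ?_⟩
      rcases strip_exit hg.dir hh a7 a8 with ⟨_, b⟩ | ⟨b, _⟩
      · exfalso
        rw [b] at a6
        apply a6
        positivity
      · exact b
    rw [gf_finset] at h7
    have h8 : BT h ≠ ⊤ := ne_top_of_le_ne_top ENNReal.one_ne_top (BT_le_one hh)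
    exact (ENNReal.ofReal_le_iff_le_toReal h8).1 h7
  calc _ ≤ _ := h2
    _ = _ := h1
    _ ≤ _ := h6

/-- the bridge weights tend to 0. -/
private lemma uu_small {ε : ℝ} (hε : 0 < ε) : ∃ h : ℕ, 1 ≤ h ∧ uu h ≤ ε := by
  obtain ⟨c, hc, h⟩ := Ex.relDecay
  have hc' : 0 < min c 1 := lt_min hc one_pos
  have h1 : ∀ T : ℕ, 1 ≤ T → uu T * (T : ℝ) ^ (min c 1) ≤ 1 := by
    intro T hT
    have h2 := Ex.rd_pow (b := uu) (fun T _ => uu_pos T) hc' (min_le_right _ _) (by
      intro T hT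
      have h1 := h T hT
      have h2 : 0 ≤ bT T := bT_nonneg T
      have h3 : min c 1 * bT T ≤ c * bT T := mul_le_mul_of_nonneg_right (min_le_left _ _) h2
      exact h3.trans h1) (le_refl 1) T hT
    have h3 := uu_le_one 1
    rw [Nat.cast_one, Real.one_rpow, mul_one] at h2
    exact h2.trans h3
  have h4 : Filter.Tendsto (fun T : ℕ => (T : ℝ) ^ (min c 1)) Filter.atTop Filter.atTop :=
    (tendsto_rpow_atTop hc').comp tendsto_natCast_atTop_atTop
  obtain ⟨T, hT1, hT2⟩ := ((Filter.eventually_ge_atTop 1).and (h4.eventually_ge_atTop (1 / ε))).exists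
  refine ⟨T, hT1, ?_⟩
  have h5 := h1 T hT1
  have h6 : 0 < (T : ℝ) ^ (min c 1) := lt_of_lt_of_le (by positivity) hT2
  have h7 : uu T * (1 / ε) ≤ 1 := le_trans (mul_le_mul_of_nonneg_left hT2 (uu_pos T).le) h5
  rw [mul_one_div, div_le_one hε] at h7
  exact h7

/-- a walk that crosses the ray, in the direction of its start. -/
private lemma far {f : Pt} {a : Pt × Pt} {t : List Bool} {h A B : ℕ} (hc : Crs f a t)
    (hA : h + 2 + (nn f).natAbs ≤ A) (hB : h + 2 + (nn f).natAbs ≤ B)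
    (ha : (a.2 = (1, -1) ∧ nn a.1 = -(3 * A : ℤ)) ∨ (a.2 = (-1, 1) ∧ nn a.1 = 3 * B - 1)) :
    ∃ i, 1 ≤ i ∧ i ≤ t.length ∧ 3 * (h : ℤ) + 2 ≤ ip (vx a.1 a.2 t i - a.1) a.2 := by
  obtain ⟨i, hi, hcr⟩ := hc
  have h1 : nn f - 1 ≤ nn (vx a.1 a.2 t i) ∧ nn (vx a.1 a.2 t i) ≤ nn f + 1 := by
    unfold cr at hcr
    split_ifs at hcr with h2 h3
    · have := h2.2.1
      simp only at this
      omega
    · have := h3.2.1
      simp only at this
      omega
    · exact absurd rfl hcr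
  have h2 : 3 * (h : ℤ) + 2 ≤ ip (vx a.1 a.2 t i - a.1) a.2 := by
    set v := vx a.1 a.2 t i with hv
    rcases ha with ⟨e, hn⟩ | ⟨e, hn⟩
    · have e1 : ip (v - a.1) a.2 = nn v - nn a.1 := by
        rw [e]
        unfold ip nn
        simp only [Prod.fst_sub, Prod.snd_sub]
        ring
      rw [e1, hn]
      omega
    · have e1 : ip (v - a.1) a.2 = nn a.1 - nn v := by
        rw [e]
        unfold ip nn
        simp only [Prod.fst_sub, Prod.snd_sub]
        ring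
      rw [e1, hn]
      omega
  refine ⟨i, ?_, hi, h2⟩
  rcases Nat.eq_zero_or_pos i with h3 | h3
  · exfalso
    rw [h3] at h2
    have e1 : vx a.1 a.2 t 0 - a.1 = 0 := sub_self _
    have e2 : ip 0 a.2 = 0 := by
      unfold ip
      simp
    rw [e1, e2] at h2
    omega
  · exact h3

/-- the walls have few edges. -/
private lemma wall_card {T A B : ℕ} (hT : 1 ≤ T) (hA : 1 ≤ A) (hB : 1 ≤ B) :
    ((bd (Par T A B)).filter (fun a => a.2 ≠ up ∧ a.2 ≠ -up)).card ≤ 2 * (3 * T + 3) := by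
  classical
  have h1 : ∀ a ∈ (bd (Par T A B)).filter (fun a => a.2 ≠ up ∧ a.2 ≠ -up),
      ((a.2 = (1, -1) ∧ nn a.1 = -(3 * A : ℤ)) ∨ (a.2 = (-1, 1) ∧ nn a.1 = 3 * B - 1)) ∧
        0 ≤ lv a.1 ∧ lv a.1 < 3 * T + 3 := by
    intro a ha
    rw [Finset.mem_filter] at ha
    obtain ⟨ha1, ha2, ha3⟩ := ha
    have h2 := (mem_par'.1 (bd_mem ha1).2.2).2
    have e1 : lv (a.1 + a.2) = lv a.1 + lv a.2 := by
      unfold lv
      simp only [Prod.fst_add, Prod.snd_add]
      ring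
    rw [e1] at h2
    rcases par_bd hT hA hB ha1 with ⟨e, _⟩ | ⟨e, _⟩ | h3 | h3
    · exact absurd e ha2
    · exact absurd e ha3
    · refine ⟨Or.inl h3, ?_⟩
      have e2 : lv a.2 = -1 := by
        rw [h3.1]
        rfl
      rw [e2] at h2
      omega
    · refine ⟨Or.inr h3, ?_⟩
      have e2 : lv a.2 = 1 := by
        rw [h3.1]
        rfl
      rw [e2] at h2
      omega
  have h2 : ((bd (Par T A B)).filter (fun a => a.2 ≠ up ∧ a.2 ≠ -up)).card ≤
      ((Finset.univ : Finset Bool) ×ˢ Finset.Ico (0 : ℤ) (3 * T + 3)).card := by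
    apply Finset.card_le_card_of_injOn (fun a => (decide (a.2 = (1, -1)), lv a.1))
    · intro a ha
      have h3 := (h1 a ha).2
      rw [Finset.mem_coe, Finset.mem_product, Finset.mem_Ico]
      exact ⟨Finset.mem_univ _, h3⟩
    · intro a ha b hb hab
      obtain ⟨h3, _⟩ := h1 a ha
      obtain ⟨h4, _⟩ := h1 b hb
      have e1 : decide (a.2 = (1, -1)) = decide (b.2 = (1, -1)) := congrArg Prod.fst hab
      have e2 : lv a.1 = lv b.1 := congrArg Prod.snd hab
      have hne : ((-1, 1) : Pt) ≠ (1, -1) := by decide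
      have key : a.2 = b.2 ∧ nn a.1 = nn b.1 := by
        rcases h3 with ⟨a1, a2⟩ | ⟨a1, a2⟩ <;> rcases h4 with ⟨b1, b2⟩ | ⟨b1, b2⟩
        · exact ⟨a1.trans b1.symm, a2.trans b2.symm⟩
        · exfalso
          rw [a1, b1] at e1
          simp at e1
        · exfalso
          rw [a1, b1] at e1
          simp at e1
        · exact ⟨a1.trans b1.symm, a2.trans b2.symm⟩
      obtain ⟨k1, k2⟩ := key
      unfold lv at e2
      unfold nn at k2
      have k3 : a.1.2 = b.1.2 := by linarith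
      have k4 : a.1.1 = b.1.1 := by linarith
      exact Prod.ext (Prod.ext k4 k3) k1
  refine h2.trans ?_
  rw [Finset.card_product, Int.card_Ico, Finset.card_univ, Fintype.card_bool]
  have : (3 * (T : ℤ) + 3 - 0).toNat = 3 * T + 3 := by omega
  rw [this]

/-- hexagonal points. -/
private lemma par_hex {T A B : ℕ} {a : Pt × Pt} (ha : a ∈ bd (Par T A B)) : ∀ v ∈ Par T A B, IsHex a.1 a.2 v := by
  intro v hv
  obtain ⟨⟨h1, h2, h3⟩, _, h4⟩ := bd_mem ha
  have h5 := (mem_par'.1 hv).1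
  have h6 := (mem_par'.1 h4).1
  unfold IsHex
  have h7 : cl (a.1 + a.2) = cl a.1 + cl a.2 := cl_add _ _
  rw [← h7]
  have h8 : cl a.2 ≠ 0 := by
    have : ∀ d ∈ dirs, cl d ≠ 0 := by decide
    exact this _ h1
  have h9 : cl a.1 ≠ 1 := h2
  have h10 : ∀ x y z w : ZMod 3, (x = 0 ∨ x = -1) → (y = 0 ∨ y = -1) → y = z + w → w ≠ 0 → z ≠ 1 → x = z ∨ x = y := by
    decide
  exact h10 _ _ _ _ h5 h6 h7 h8 h9

open Classical in
/-- starts at the walls. -/
private lemma starts {T A B : ℕ} (hT : 1 ≤ T) {f : Pt} {h : ℕ} (hh : 1 ≤ h) (hA : h + 2 + (nn f).natAbs ≤ A)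
    (hB : h + 2 + (nn f).natAbs ≤ B) :
    Real.cos (3 * Real.pi / 8) * ∑ a ∈ bd (Par T A B), ∑ t ∈ ex0 (Par T A B) a,
      (if (a.2 ≠ up ∧ a.2 ≠ -up) ∧ Crs f a t then xc ^ t.length else 0) ≤ 2 * (3 * T + 3) * uu h := by
  have hA1 : 1 ≤ A := by omega
  have hB1 : 1 ≤ B := by omega
  have hcos := cos3_pos
  have h1 : ∀ a ∈ bd (Par T A B), Real.cos (3 * Real.pi / 8) * ∑ t ∈ ex0 (Par T A B) a,
      (if (a.2 ≠ up ∧ a.2 ≠ -up) ∧ Crs f a t then xc ^ t.length else 0) ≤ if a.2 ≠ up ∧ a.2 ≠ -up then uu h else 0 := by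
    intro a ha
    by_cases hw : a.2 ≠ up ∧ a.2 ≠ -up
    · rw [if_pos hw]
      have ha' : (a.2 = (1, -1) ∧ nn a.1 = -(3 * A : ℤ)) ∨ (a.2 = (-1, 1) ∧ nn a.1 = 3 * B - 1) := by
        rcases par_bd hT hA1 hB1 ha with ⟨e, _⟩ | ⟨e, _⟩ | h3 | h3
        · exact absurd e hw.1
        · exact absurd e hw.2
        · exact Or.inl h3
        · exact Or.inr h3
      refine le_trans (mul_le_mul_of_nonneg_left ?_ hcos.le) (core (par_good hT hA1 hB1 ha) (par_hex ha) hh)
      rw [← Finset.sum_filter]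
      apply Finset.sum_le_sum_of_subset_of_nonneg
      · intro t ht
        rw [Finset.mem_filter] at ht ⊢
        exact ⟨ex0_sub (bd_mem ha).2.1 ht.1, far ht.2.2 hA hB ha'⟩
      · intro t _ _
        exact pow_nonneg xc_pos.le _
    · rw [if_neg hw]
      apply le_of_eq
      have e1 : ∀ t ∈ ex0 (Par T A B) a, (if (a.2 ≠ up ∧ a.2 ≠ -up) ∧ Crs f a t then xc ^ t.length else 0) = 0 :=
        fun t _ => if_neg (fun h => hw h.1)
      rw [Finset.sum_eq_zero e1, mul_zero]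
  rw [Finset.mul_sum]
  refine le_trans (Finset.sum_le_sum h1) ?_
  rw [← Finset.sum_filter, Finset.sum_const, nsmul_eq_mul]
  apply mul_le_mul_of_nonneg_right _ (uu_pos h).le
  have h2 := wall_card hT hA1 hB1
  exact_mod_cast h2

/-- the crossing of the reversed edge. -/
private lemma cr_rev {f p d : Pt} (hd : De (p, d)) (h : cr f (p + d, -d) ≠ 0) : cr f (p, d) ≠ 0 := by
  have hl : ∀ v : Pt, (3 : ℤ) ∣ lv v - nn v := by
    intro v
    exact ⟨v.2, by unfold lv nn; ring⟩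
  have hv : ∀ v : Pt, Vt v → ¬ (3 : ℤ) ∣ nn v - 1 := by
    intro v h1 h2
    apply h1
    have h3 : ((nn v : ℤ) : ZMod 3) = ((1 : ℤ) : ZMod 3) :=
      (ZMod.intCast_eq_intCast_iff_dvd_sub _ _ 3).2 (by
        have := (dvd_neg (a := (3 : ℤ)) (b := nn v - 1)).2 h2
        push_cast
        rwa [neg_sub] at this)
    have h4 : cl v = ((nn v : ℤ) : ZMod 3) := rfl
    rw [h4, h3]
    rfl
  obtain ⟨_, h1, h2⟩ := hd
  have k1 := hv _ h1
  have k2 := hv _ h2
  have k3 := hl p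
  have k4 := hl f
  have e1 : nn (p + d) = nn p + nn d := by
    unfold nn
    simp only [Prod.fst_add, Prod.snd_add]
    ring
  have e2 : lv (p + d) = lv p + lv d := by
    unfold lv
    simp only [Prod.fst_add, Prod.snd_add]
    ring
  simp only at k1 k2
  rw [e1] at k2
  unfold cr at h ⊢
  simp only at h ⊢
  rw [e1, e2] at h
  have c1 : nn ((1, -1) : Pt) = 2 ∧ lv ((1, -1) : Pt) = -1 := by decide
  have c2 : nn ((-1, 1) : Pt) = -2 ∧ lv ((-1, 1) : Pt) = 1 := by decide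
  have hne : ((-1, 1) : Pt) ≠ (1, -1) := by decide
  split_ifs at h with h3 h4
  · obtain ⟨m1, m2, m3⟩ := h3
    have hd : d = (-1, 1) := by
      have := congrArg Neg.neg m1
      rw [neg_neg] at this
      exact this
    subst hd
    rw [c2.1] at k2 m2
    rw [c2.2] at m3
    rw [if_neg (fun h => hne h.1), if_pos ⟨rfl, by omega, by omega⟩]
    decide
  · obtain ⟨m1, m2, m3⟩ := h4
    have hd : d = (1, -1) := by
      have := congrArg Neg.neg m1
      rw [neg_neg] at this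
      exact this
    subst hd
    rw [c1.1] at k2 m2
    rw [c1.2] at m3
    rw [if_pos ⟨rfl, by omega, by omega⟩]
    decide
  · exact absurd rfl h

private lemma de_vx' {p : Pt × Pt} (hp : De p) (t : List Bool) (i : ℕ) : De (vx p.1 p.2 t i, dx p.2 t i) := by
  have h1 : ∀ i, Vt (vx p.1 p.2 t i) := by
    intro i
    unfold Vt
    rw [cl_vx]
    split_ifs
    · exact hp.2.1
    · rw [← cl_add]
      exact hp.2.2
  exact ⟨dx_mem hp.1 t i, h1 i, h1 (i + 1)⟩

/-- reversal preserves crossings. -/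
private lemma crs_rev {f : Pt} {a : Pt × Pt} (ha : De a) {t : List Bool} (h : Crs f (rv (le a t)) (rev t)) :
    Crs f a t := by
  obtain ⟨i, hi, hc⟩ := h
  rw [rev_length] at hi
  have e1 : vx (rv (le a t)).1 (rv (le a t)).2 (rev t) i = vx a.1 a.2 t (t.length + 1 - i) :=
    vx_rev a.1 a.2 t i (by omega)
  have e2 : dx (rv (le a t)).2 (rev t) i = -(dx a.2 t (t.length - i)) := dx_rev a.2 t i hi
  rw [e1, e2] at hc
  refine ⟨t.length - i, by omega, ?_⟩
  have e3 : vx a.1 a.2 t (t.length + 1 - i) = vx a.1 a.2 t (t.length - i) + dx a.2 t (t.length - i) := by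
    rw [← vx_succ]
    congr 1
    omega
  rw [e3] at hc
  exact cr_rev (de_vx' ha t _) hc

end Wall

open Classical in
/-- walks from or to the walls that cross the ray. -/
theorem walls : ∀ (T : ℕ) (f : Pt) (ε : ℝ), 1 ≤ T → Fc f → 0 < ε → ∃ A0 : ℕ, ∀ A B : ℕ, A0 ≤ A → A0 ≤ B →
    ∑ a ∈ bd (Par T A B), ∑ t ∈ (ex0 (Par T A B) a).filter (fun t =>
      ((a.2 ≠ up ∧ a.2 ≠ -up) ∨ (dx a.2 t t.length ≠ up ∧ dx a.2 t t.length ≠ -up)) ∧ Crs f a t),
        xc ^ t.length ≤ ε := by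
  intro T f ε hT _ hε
  have hcos := cos3_pos
  have hTp : (0 : ℝ) < 2 * (3 * T + 3) := by positivity
  obtain ⟨h, hh, hu⟩ := Wall.uu_small (ε := ε * Real.cos (3 * Real.pi / 8) / (2 * (2 * (3 * T + 3)))) (by positivity)
  refine ⟨h + 2 + (nn f).natAbs, ?_⟩
  intro A B hA hB
  have h1 := Wall.starts hT (f := f) hh hA hB
  set S := ∑ a ∈ bd (Par T A B), ∑ t ∈ ex0 (Par T A B) a,
      (if (a.2 ≠ up ∧ a.2 ≠ -up) ∧ Crs f a t then xc ^ t.length else 0) with hS
  have h2 : ∑ a ∈ bd (Par T A B), ∑ t ∈ (ex0 (Par T A B) a).filter (fun t =>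
      ((a.2 ≠ up ∧ a.2 ≠ -up) ∨ (dx a.2 t t.length ≠ up ∧ dx a.2 t t.length ≠ -up)) ∧ Crs f a t),
        xc ^ t.length ≤ S + ∑ a ∈ bd (Par T A B), ∑ t ∈ ex0 (Par T A B) a,
      (if (dx a.2 t t.length ≠ up ∧ dx a.2 t t.length ≠ -up) ∧ Crs f a t then xc ^ t.length else 0) := by
    rw [hS, ← Finset.sum_add_distrib]
    apply Finset.sum_le_sum
    intro a _
    rw [← Finset.sum_add_distrib, Finset.sum_filter]
    apply Finset.sum_le_sum
    intro t _
    have hx := pow_nonneg xc_pos.le t.length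
    by_cases c : Crs f a t
    · by_cases p : a.2 ≠ up ∧ a.2 ≠ -up
      · by_cases q : dx a.2 t t.length ≠ up ∧ dx a.2 t t.length ≠ -up
        · rw [if_pos ⟨Or.inl p, c⟩, if_pos ⟨p, c⟩, if_pos ⟨q, c⟩]
          linarith
        · rw [if_pos ⟨Or.inl p, c⟩, if_pos ⟨p, c⟩, if_neg (fun h => q h.1)]
          linarith
      · by_cases q : dx a.2 t t.length ≠ up ∧ dx a.2 t t.length ≠ -up
        · rw [if_pos ⟨Or.inr q, c⟩, if_neg (fun h => p h.1), if_pos ⟨q, c⟩]
          linarith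
        · rw [if_neg (fun h => h.1.elim p q), if_neg (fun h => p h.1), if_neg (fun h => q h.1)]
          linarith
    · rw [if_neg (fun h => c h.2), if_neg (fun h => c h.2), if_neg (fun h => c h.2)]
      linarith
  have h3 : ∑ a ∈ bd (Par T A B), ∑ t ∈ ex0 (Par T A B) a,
      (if (dx a.2 t t.length ≠ up ∧ dx a.2 t t.length ≠ -up) ∧ Crs f a t then xc ^ t.length else 0) ≤ S := by
    rw [rev_ex Wall.par_vt (fun a t => if (dx a.2 t t.length ≠ up ∧ dx a.2 t t.length ≠ -up) ∧ Crs f a t then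
      xc ^ t.length else 0), hS]
    apply Finset.sum_le_sum
    intro a ha
    apply Finset.sum_le_sum
    intro t _
    have hx := pow_nonneg xc_pos.le t.length
    rw [rev_length]
    have e2 : dx (rv (le a t)).2 (rev t) t.length = -a.2 := by
      have := dx_rev a.2 t t.length le_rfl
      rw [Nat.sub_self] at this
      exact this
    rw [e2]
    by_cases c : (-a.2 ≠ up ∧ -a.2 ≠ -up) ∧ Crs f (rv (le a t)) (rev t)
    · rw [if_pos c, if_pos]
      refine ⟨⟨?_, ?_⟩, Wall.crs_rev (Wall.bd_mem ha).1 c.2⟩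
      · intro e
        exact c.1.2 (by rw [e])
      · intro e
        exact c.1.1 (by rw [e, neg_neg])
    · rw [if_neg c]
      split_ifs
      · exact hx
      · exact le_refl _
  have h4 : Real.cos (3 * Real.pi / 8) * (2 * S) ≤ Real.cos (3 * Real.pi / 8) * ε := by
    have h5 : 2 * (3 * (T : ℝ) + 3) * uu h ≤ 2 * (3 * (T : ℝ) + 3) *
        (ε * Real.cos (3 * Real.pi / 8) / (2 * (2 * (3 * T + 3)))) := mul_le_mul_of_nonneg_left hu hTp.le
    have h6 : 2 * (3 * (T : ℝ) + 3) * (ε * Real.cos (3 * Real.pi / 8) / (2 * (2 * (3 * T + 3)))) =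
        ε * Real.cos (3 * Real.pi / 8) / 2 := by
      field_simp
    rw [h6] at h5
    linarith
  have h7 := le_of_mul_le_mul_left h4 hcos
  linarith

end LP

end HexObs
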