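import Pool.Agent.HexLoop.Close
import Pool.Agent.HexLoop.Arc
import Pool.Agent.HexLoop.Wall
import Pool.Agent.HexLoop.RevW

/-!
LOOP, module L16: the right side of the loop identity in the parallelogram.
-/

set_option autoImplicit false

namespace HexObs

namespace LP

open Complex Finset



section L16

private lemma qq_bd {Ω : Finset Pt} {a : Pt × Pt} (ha : a ∈ bd Ω) : De a ∧ a.1 ∉ Ω := by
  classical
  unfold bd at ha
  rw [Finset.mem_filter] at ha
  exact ha.2

private lemma qq_NN {f : Pt} {a : Pt × Pt} {t : List Bool} (h : ¬ Crs f a t) : NN f a t = 0 := by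
  unfold NN
  apply Finset.sum_eq_zero
  intro i hi
  rw [Finset.mem_range] at hi
  by_contra h0
  exact h ⟨i, by omega, h0⟩

private lemma qq_vt {v : Pt} : Vt v ↔ (v.1 - v.2) % 3 ≠ 1 := by
  unfold Vt cl
  have h := ZMod.intCast_eq_intCast_iff' (v.1 - v.2) 1 3
  rw [Int.cast_one] at h
  rw [ne_eq, h]
  norm_num

private lemma qq_wind {T A B : ℕ} (hT : 1 ≤ T) (hA : 1 ≤ A) (hB : 1 ≤ B) {a : Pt × Pt} (ha : a ∈ bd (Par T A B))
    {t : List Bool} (ht : t ∈ ex0 (Par T A B) a) (h1 : a.2 = up ∨ a.2 = -up) (h2 : dx a.2 t t.length = a.2) :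
    wind t = 0 := by
  rw [ex0_exits (qq_bd ha).2] at ht
  have h := (par_good hT hA hB ha).wind ht
  rw [h2] at h
  rcases h with h | h | h | h | h | h
  · exact h.2
  all_goals
    exfalso
    have h3 := h.1
    rcases h1 with h1 | h1 <;> rw [h1] at h3 <;> revert h3 <;> decide

private lemma qq_floor {T A B : ℕ} (hT : 1 ≤ T) (hA : 1 ≤ A) (hB : 1 ≤ B) {a : Pt × Pt} (ha : a ∈ bd (Par T A B))
    {t : List Bool} (ht : t ∈ ex0 (Par T A B) a) (h1 : a.2 = up) (h2 : dx a.2 t t.length = -up) {f : Pt}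
    (hf : Fc f) : |NN f a t| ≤ 2 := by
  obtain ⟨hde, h0⟩ := qq_bd ha
  have hlv : lv a.1 = 0 := by
    rcases par_bd hT hA hB ha with h | h | h | h
    · exact h.2
    all_goals
      exfalso
      have h3 := h.1
      rw [h1] at h3
      revert h3
      decide
  have hk : a = ft (-a.1.2) := by
    have h4 : hz up = (2, -1) := by decide
    unfold ft
    rw [h4]
    unfold lv at hlv
    apply Prod.ext
    · apply Prod.ext
      · show a.1.1 = (-a.1.2) • (2 : ℤ)
        rw [smul_eq_mul]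
        omega
      · show a.1.2 = (-a.1.2) • (-1 : ℤ)
        rw [smul_eq_mul]
        omega
    · exact h1
  have hde2 := de_vx hde t t.length
  rw [ex0_exits h0, mem_exits] at ht
  obtain ⟨h5, h6⟩ := ht
  have h7 : t.length ≠ 0 := by
    intro h
    rw [h] at h2
    have h8 : dx a.2 t 0 = a.2 := rfl
    rw [h8, h1] at h2
    revert h2
    decide
  have h9 := h5.mem t.length (by omega) le_rfl
  have h10 : tip a.1 a.2 t = vx a.1 a.2 t t.length + -up := by
    rw [← h2]
    rfl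
  have h13 : Vt (tip a.1 a.2 t) := hde2.2.2
  have hout : t ∈ out (St T) a.1 a.2 (-up) := by
    refine ⟨⟨?_, h5.inj⟩, ?_, h2⟩
    · intro i hi1 hi2
      have h8 := h5.mem i hi1 hi2
      unfold Par at h8
      rw [Tube.mem_dF] at h8
      exact h8.1
    · intro h8
      apply h6
      rw [mem_par] at h9 ⊢
      obtain ⟨_, h11, h12⟩ := h8
      generalize tip a.1 a.2 t = w at *
      generalize vx a.1 a.2 t t.length = u at *
      obtain ⟨w1, w2⟩ := w
      obtain ⟨u1, u2⟩ := u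
      have h14 : w1 = u1 + -0 ∧ w2 = u2 + -1 := Prod.ext_iff.1 h10
      refine ⟨h13, ?_⟩
      rw [qq_vt] at h13 h9
      unfold lv nn at *
      have h15 : ip ((w1, w2) - oo) up = w1 + 2 * w2 := by
        show 2 * ((w1 - 0) * 0 + (w2 - 0) * 1) + (w1 - 0) * 1 + (w2 - 0) * 0 = w1 + 2 * w2
        ring
      rw [h15] at h11 h12
      simp only at h9 h13 ⊢
      omega
  have e1 : (ft (-a.1.2)).1 = a.1 := by rw [← hk]
  rw [h1, ← e1] at hout
  have h8 := close2 hT (-a.1.2) hout hf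
  rw [← hk] at h8
  exact h8

private lemma qq_term {n : ℤ} {c w x : ℝ} (hn : |n| ≤ c) (hw : 0 ≤ w) :
    -((n : ℝ) * Real.sin x * w) ≤ c * w := by
  have h1 : -((n : ℝ) * Real.sin x) ≤ |(n : ℝ)| * 1 := by
    have h2 : -((n : ℝ) * Real.sin x) ≤ |(n : ℝ) * Real.sin x| := neg_le_abs _
    rw [abs_mul] at h2
    exact h2.trans (mul_le_mul_of_nonneg_left (Real.abs_sin_le_one x) (abs_nonneg _))
  have h3 : |(n : ℝ)| ≤ c := by
    rw [← Int.cast_abs]
    exact hn
  calc -((n : ℝ) * Real.sin x * w) = -((n : ℝ) * Real.sin x) * w := by ring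
    _ ≤ c * w := mul_le_mul_of_nonneg_right (by linarith) hw

open Classical in
private lemma qq_point {T A B : ℕ} (hT : 1 ≤ T) (hA : 1 ≤ A) (hB : 1 ≤ B) {a : Pt × Pt} (ha : a ∈ bd (Par T A B))
    {t : List Bool} (ht : t ∈ ex0 (Par T A B) a) {f : Pt} (hf : Fc f) :
    -((NN f a t : ℝ) * Real.sin (wind t * (Real.pi / 8)) * xc ^ t.length) ≤
      2 * (if a.2 = up then (if dx a.2 t t.length = -up ∧ Crs f a t then xc ^ t.length else 0) else 0) +
      3 * (if a.2 = -up then (if dx a.2 t t.length = up ∧ Crs f a t then xc ^ t.length else 0) else 0) +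
      (2 * T + 4) * (if ((a.2 ≠ up ∧ a.2 ≠ -up) ∨ (dx a.2 t t.length ≠ up ∧ dx a.2 t t.length ≠ -up)) ∧
        Crs f a t then xc ^ t.length else 0) := by
  have hw : 0 ≤ xc ^ t.length := pow_nonneg xc_pos.le _
  have hu : (up : Pt) ≠ -up := by decide
  have p1 : 0 ≤ (if a.2 = up then (if dx a.2 t t.length = -up ∧ Crs f a t then xc ^ t.length else 0) else 0) := by
    split_ifs <;> first | exact hw | exact le_rfl
  have p2 : 0 ≤ (if a.2 = -up then (if dx a.2 t t.length = up ∧ Crs f a t then xc ^ t.length else 0) else 0) := by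
    split_ifs <;> first | exact hw | exact le_rfl
  have p3 : 0 ≤ (if ((a.2 ≠ up ∧ a.2 ≠ -up) ∨ (dx a.2 t t.length ≠ up ∧ dx a.2 t t.length ≠ -up)) ∧
        Crs f a t then xc ^ t.length else 0) := by
    split_ifs <;> first | exact hw | exact le_rfl
  have p4 : (0 : ℝ) ≤ (2 * T + 4) * (if ((a.2 ≠ up ∧ a.2 ≠ -up) ∨
      (dx a.2 t t.length ≠ up ∧ dx a.2 t t.length ≠ -up)) ∧ Crs f a t then xc ^ t.length else 0) :=
    mul_nonneg (by positivity) p3
  by_cases hC : Crs f a t
  swap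
  · rw [qq_NN hC, Int.cast_zero]
    linarith
  by_cases hW : (a.2 ≠ up ∧ a.2 ≠ -up) ∨ (dx a.2 t t.length ≠ up ∧ dx a.2 t t.length ≠ -up)
  · rw [if_pos (show _ ∧ _ from ⟨hW, hC⟩)]
    have h1 : ((|NN f a t| : ℤ) : ℝ) ≤ 2 * T + 4 := by exact_mod_cast NN_crude hT hA hB ha ht f
    have h2 := qq_term (x := wind t * (Real.pi / 8)) h1 hw
    linarith
  · have h1 : a.2 = up ∨ a.2 = -up := by
      by_contra h
      push Not at h
      exact hW (Or.inl h)
    have h2 : dx a.2 t t.length = up ∨ dx a.2 t t.length = -up := by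
      by_contra h
      push Not at h
      exact hW (Or.inr h)
    have hz : dx a.2 t t.length = a.2 → -((NN f a t : ℝ) * Real.sin (wind t * (Real.pi / 8)) * xc ^ t.length) = 0 := by
      intro h3
      rw [qq_wind hT hA hB ha ht h1 h3]
      simp
    rcases h1 with h1 | h1 <;> rcases h2 with h2 | h2
    · rw [hz (h2.trans h1.symm)]
      linarith
    · rw [if_pos h1, if_pos (show _ ∧ _ from ⟨h2, hC⟩)]
      have h3 : ((|NN f a t| : ℤ) : ℝ) ≤ 2 := by exact_mod_cast qq_floor hT hA hB ha ht h1 h2 hf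
      have h4 := qq_term (x := wind t * (Real.pi / 8)) h3 hw
      linarith
    · rw [if_pos h1, if_pos (show dx a.2 t t.length = up ∧ Crs f a t from ⟨h2, hC⟩)]
      have h3 : ((|NN f a t| : ℤ) : ℝ) ≤ 3 := by exact_mod_cast close_top hT hA hB ha h1 ht h2 hf
      have h4 := qq_term (x := wind t * (Real.pi / 8)) h3 hw
      linarith
    · rw [hz (h2.trans h1.symm)]
      linarith

/-- the right side of the loop identity. -/
theorem QQ_le : ∀ η : ℝ, 0 < η → ∃ C : ℝ, 0 < C ∧ ∀ (T : ℕ) (f : Pt), 1 ≤ T → Fc f → 0 < lv f →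
    (lv f : ℝ) ≤ 3 * T - 3 * η * T → ∀ ε : ℝ, 0 < ε → ∃ A0 : ℕ, ∀ A B : ℕ, A0 ≤ A → A0 ≤ B →
    QQ (Par T A B) f ≤ C * T * uu T + ε := by
  classical
  intro η hη
  obtain ⟨C1, hC1, h1⟩ := arc_floor
  obtain ⟨C2, hC2, h2⟩ := arc_top η hη
  refine ⟨2 * C1 + 3 * C2, by positivity, ?_⟩
  intro T f hT hf hf1 hf2 ε hε
  have hT4 : (0 : ℝ) < 2 * T + 4 := by positivity
  obtain ⟨A1, h3⟩ := walls T f (ε / (2 * T + 4)) hT hf (by positivity)
  refine ⟨max A1 ((nn f).natAbs + 1), ?_⟩
  intro A B hA hB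
  have hA1 : A1 ≤ A := (le_max_left _ _).trans hA
  have hB1 : A1 ≤ B := (le_max_left _ _).trans hB
  have hA2 : (nn f).natAbs + 1 ≤ A := (le_max_right _ _).trans hA
  have hB2 : (nn f).natAbs + 1 ≤ B := (le_max_right _ _).trans hB
  have g1 := h1 T A B f hT (by omega) (by omega) hf hf1 (by omega) (by omega)
  have g2 := h2 T A B f hT (by omega) (by omega) hf hf2 (by omega) (by omega)
  have g3 := h3 A B hA1 hB1
  simp only [Finset.sum_filter] at g1 g2 g3
  have key : QQ (Par T A B) f ≤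
      2 * (∑ a ∈ bd (Par T A B), if a.2 = up then ∑ t ∈ ex0 (Par T A B) a,
        (if dx a.2 t t.length = -up ∧ Crs f a t then xc ^ t.length else 0) else 0) +
      3 * (∑ a ∈ bd (Par T A B), if a.2 = -up then ∑ t ∈ ex0 (Par T A B) a,
        (if dx a.2 t t.length = up ∧ Crs f a t then xc ^ t.length else 0) else 0) +
      (2 * T + 4) * ∑ a ∈ bd (Par T A B), ∑ t ∈ ex0 (Par T A B) a,
        (if ((a.2 ≠ up ∧ a.2 ≠ -up) ∨ (dx a.2 t t.length ≠ up ∧ dx a.2 t t.length ≠ -up)) ∧ Crs f a t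
          then xc ^ t.length else 0) := by
    unfold QQ
    rw [← Finset.sum_neg_distrib, Finset.mul_sum, Finset.mul_sum, Finset.mul_sum, ← Finset.sum_add_distrib,
      ← Finset.sum_add_distrib]
    apply Finset.sum_le_sum
    intro a ha
    have e1 : (if a.2 = up then ∑ t ∈ ex0 (Par T A B) a,
        (if dx a.2 t t.length = -up ∧ Crs f a t then xc ^ t.length else 0) else 0) =
        ∑ t ∈ ex0 (Par T A B) a, (if a.2 = up then
          (if dx a.2 t t.length = -up ∧ Crs f a t then xc ^ t.length else 0) else 0) := by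
      split_ifs
      · rfl
      · rw [Finset.sum_const_zero]
    have e2 : (if a.2 = -up then ∑ t ∈ ex0 (Par T A B) a,
        (if dx a.2 t t.length = up ∧ Crs f a t then xc ^ t.length else 0) else 0) =
        ∑ t ∈ ex0 (Par T A B) a, (if a.2 = -up then
          (if dx a.2 t t.length = up ∧ Crs f a t then xc ^ t.length else 0) else 0) := by
      split_ifs
      · rfl
      · rw [Finset.sum_const_zero]
    rw [e1, e2, ← Finset.sum_neg_distrib, Finset.mul_sum, Finset.mul_sum, Finset.mul_sum,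
      ← Finset.sum_add_distrib, ← Finset.sum_add_distrib]
    apply Finset.sum_le_sum
    intro t ht
    exact qq_point hT (by omega) (by omega) ha ht hf
  have g4 : (2 * (T : ℝ) + 4) * ∑ a ∈ bd (Par T A B), ∑ t ∈ ex0 (Par T A B) a,
        (if ((a.2 ≠ up ∧ a.2 ≠ -up) ∨ (dx a.2 t t.length ≠ up ∧ dx a.2 t t.length ≠ -up)) ∧ Crs f a t
          then xc ^ t.length else 0) ≤ ε := by
    calc _ ≤ (2 * (T : ℝ) + 4) * (ε / (2 * T + 4)) := mul_le_mul_of_nonneg_left g3 hT4.le
      _ = ε := by field_simp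
  refine key.trans ?_
  have e3 : (2 * C1 + 3 * C2) * T * uu T = 2 * (C1 * T * uu T) + 3 * (C2 * T * uu T) := by ring
  rw [e3]
  linarith

end L16

end LP

end HexObs
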