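import Pool.Agent.HexLoop.CloseZ
import Pool.Agent.HexLoop.Cnt0
import Pool.Agent.HexLoop.QQ

/-!
SD9: the sharp bound of the right side of the loop identity in a parallelogram, part 1: pointwise.
-/

set_option autoImplicit false

namespace HexObs

namespace LP

open Complex Finset

/-- the line nn = nn f separates the ends of the walk. -/
def Btw (f : Pt) (a : Pt × Pt) (t : List Bool) : Prop :=
  (nn a.1 < nn f ∧ nn f < nn (tp a t)) ∨ (nn (tp a t) < nn f ∧ nn f < nn a.1)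

private lemma q2_rv {Ω : Finset Pt} {a : Pt × Pt} (ha : a ∈ bd Ω) {t : List Bool} (ht : t ∈ ex0 Ω a) :
    rv (le a t) ∈ bd Ω ∧ (rv (le a t)).1 = tp a t ∧ (rv (le a t)).2 = -dx a.2 t t.length := by
  have h0 := mem_bd.1 ha
  have hl := ex0_pos h0.1 ht
  obtain ⟨h1, h2⟩ := mem_ex0.1 ht
  refine ⟨?_, rfl, rfl⟩
  rw [mem_bd]
  have hde := de_vx h0.2.1 t t.length
  refine ⟨?_, ?_, h2⟩
  · show vx a.1 a.2 t t.length + dx a.2 t t.length + -dx a.2 t t.length ∈ Ω
    rw [add_neg_cancel_right]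
    exact h1.mem t.length hl le_rfl
  · obtain ⟨h3, h4, h5⟩ := hde
    refine ⟨?_, h5, ?_⟩
    · show -dx a.2 t t.length ∈ dirs
      have : ∀ d ∈ dirs, -d ∈ dirs := by decide
      exact this _ h3
    · show Vt (vx a.1 a.2 t t.length + dx a.2 t t.length + -dx a.2 t t.length)
      rw [add_neg_cancel_right]
      exact h4

private lemma q2_rev {Ω : Finset Pt} {a : Pt × Pt} (ha : a ∈ bd Ω) {t : List Bool} (ht : t ∈ ex0 Ω a) :
    rev t ∈ ex0 Ω (rv (le a t)) ∧ dx (rv (le a t)).2 (rev t) (rev t).length = -a.2 ∧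
      tp (rv (le a t)) (rev t) = a.1 ∧ (∀ f, NN f (rv (le a t)) (rev t) = -NN f a t) ∧ wind (rev t) = -wind t := by
  have h0 := mem_bd.1 ha
  obtain ⟨h1, h2⟩ := mem_ex0.1 ht
  have htip : tp (rv (le a t)) (rev t) = a.1 := by
    unfold tp tip
    rw [rev_length, vx_rev0 t _ le_rfl]
    have e : t.length + 1 - (t.length + 1) = 0 := by omega
    rw [e]
    rfl
  refine ⟨?_, ?_, htip, ?_, wind_rev t⟩
  · rw [mem_ex0]
    refine ⟨⟨?_, ?_⟩, ?_⟩
    · intro i hi1 hi2
      rw [rev_length] at hi2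
      rw [vx_rev0 t i (by omega)]
      exact h1.mem _ (by omega) (by omega)
    · intro i k hi1 hik hk
      rw [rev_length] at hk
      rw [vx_rev0 t i (by omega), vx_rev0 t k (by omega)]
      exact (h1.inj _ _ (by omega) (by omega) (by omega)).symm
    · rw [htip]
      exact h0.2.2
  · rw [rev_length, dx_rev0 t _ le_rfl]
    have e : t.length - t.length = 0 := by omega
    rw [e]
    rfl
  · intro f
    exact NN_rev (fun i _ => de_vx h0.2.1 t i)

private lemma q2_floor0 {T A B : ℕ} (hT : 1 ≤ T) (hA : 1 ≤ A) (hB : 1 ≤ B) {a : Pt × Pt} (ha : a ∈ bd (Par T A B))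
    (h1 : a.2 = up) : lv a.1 = 0 ∧ nn a.1 % 3 = 0 := by
  constructor
  · rcases par_bd hT hA hB ha with h | h | h | h
    · exact h.2
    all_goals
      exfalso
      have h3 := h.1
      rw [h1] at h3
      revert h3
      decide
  · have h2 := (mem_bd.1 ha).2.1
    have h3 : De (a.1, a.2) := h2
    rcases De_cases h3 with ⟨_, h4⟩ | ⟨h4, _⟩
    · exfalso
      rw [h1] at h4
      revert h4
      decide
    · exact h4

private lemma q2_top0 {T A B : ℕ} (hT : 1 ≤ T) (hA : 1 ≤ A) (hB : 1 ≤ B) {a : Pt × Pt} (ha : a ∈ bd (Par T A B))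
    (h1 : a.2 = -up) : lv a.1 = 3 * T + 2 ∧ nn a.1 % 3 = 2 := by
  constructor
  · rcases par_bd hT hA hB ha with h | h | h | h
    · exfalso
      have h3 := h.1
      rw [h1] at h3
      revert h3
      decide
    · exact h.2
    all_goals
      exfalso
      have h3 := h.1
      rw [h1] at h3
      revert h3
      decide
  · have h2 := (mem_bd.1 ha).2.1
    have h3 : De (a.1, a.2) := h2
    rcases De_cases h3 with ⟨h4, _⟩ | ⟨_, h4⟩
    · exact h4
    · exfalso
      rw [h1] at h4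
      revert h4
      decide

private lemma q2_wind {T A B : ℕ} (hT : 1 ≤ T) (hA : 1 ≤ A) (hB : 1 ≤ B) {a : Pt × Pt} (ha : a ∈ bd (Par T A B))
    {t : List Bool} (ht : t ∈ ex0 (Par T A B) a) : -3 ≤ wind t ∧ wind t ≤ 3 := by
  rw [ex0_exits (mem_bd.1 ha).2.2] at ht
  have h := (par_good hT hA hB ha).wind ht
  rcases h with h | h | h | h | h | h
  · omega
  · omega
  · omega
  · omega
  · omega
  · rcases h.2 with h2 | h2 <;> omega

/-- equal points in the zigzag coordinates. -/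
private lemma q2_cj {v w : Pt} (h1 : lv w = lv v) {n : ℕ} (h2 : nn w = nn v + 3 * ((n : ℤ) + 1)) : w = cj v n 0 := by
  unfold lv nn at *
  unfold cj
  ext
  · show w.1 = v.1 + 2 * ((n : ℤ) + 1 - ((0 : ℕ) : ℤ))
    push_cast
    omega
  · show w.2 = v.2 - ((n : ℤ) + 1 - ((0 : ℕ) : ℤ))
    push_cast
    omega

private lemma q2_floorR {T A B : ℕ} (hT : 1 ≤ T) (hA : 1 ≤ A) (hB : 1 ≤ B) {a : Pt × Pt} (ha : a ∈ bd (Par T A B))
    {t : List Bool} (ht : t ∈ ex0 (Par T A B) a) (h1 : a.2 = up) (h2 : dx a.2 t t.length = -up)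
    (h3 : nn a.1 < nn (tp a t)) : wind t = -3 ∧ ∀ f, Fc f →
      NN f a t ≤ if nn a.1 < nn f ∧ nn f < nn (tp a t) then 1 else 0 := by
  obtain ⟨b1, b2, b3⟩ := q2_rv ha ht
  obtain ⟨c1, c2⟩ := q2_floor0 hT hA hB ha h1
  have e1 : (rv (le a t)).2 = up := by
    rw [b3, h2, neg_neg]
  obtain ⟨d1, d2⟩ := q2_floor0 hT hA hB b1 e1
  rw [b2] at d1 d2
  obtain ⟨n, hn⟩ : ∃ n : ℕ, nn (tp a t) = nn a.1 + 3 * ((n : ℤ) + 1) := by
    refine ⟨((nn (tp a t) - nn a.1) / 3 - 1).toNat, ?_⟩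
    omega
  have h4 := mem_bd.1 ha
  obtain ⟨h5, h6⟩ := mem_ex0.1 ht
  obtain ⟨v, u⟩ := a
  simp only at h1
  subst h1
  have key := close_floor (v := v) (t := t) (n := n) h4.2.1 h5.inj (fun i hi1 hi2 => by
    have h7 := (mem_par.1 (h5.mem i hi1 hi2)).2.1
    simp only at c1
    rw [c1]
    exact h7) (q2_cj (by rw [show tip v up t = tp (v, up) t from rfl, d1]; exact c1.symm) hn) h2
  have hw := q2_wind hT hA hB ha ht
  have hw2 : wind t = -3 := by
    rcases key.1 with h | h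
    · exact h
    · omega
  exact ⟨hw2, key.2 hw2⟩

private lemma q2_topR {T A B : ℕ} (hT : 1 ≤ T) (hA : 1 ≤ A) (hB : 1 ≤ B) {a : Pt × Pt} (ha : a ∈ bd (Par T A B))
    {t : List Bool} (ht : t ∈ ex0 (Par T A B) a) (h1 : a.2 = -up) (h2 : dx a.2 t t.length = up)
    (h3 : nn a.1 < nn (tp a t)) : wind t = 3 ∧ ∀ f, Fc f → lv f ≤ 3 * T + 2 → 0 ≤ NN f a t := by
  obtain ⟨b1, b2, b3⟩ := q2_rv ha ht
  obtain ⟨c1, c2⟩ := q2_top0 hT hA hB ha h1
  have e1 : (rv (le a t)).2 = -up := by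
    rw [b3, h2]
  obtain ⟨d1, d2⟩ := q2_top0 hT hA hB b1 e1
  rw [b2] at d1 d2
  obtain ⟨n, hn⟩ : ∃ n : ℕ, nn (tp a t) = nn a.1 + 3 * ((n : ℤ) + 1) := by
    refine ⟨((nn (tp a t) - nn a.1) / 3 - 1).toNat, ?_⟩
    omega
  have h4 := mem_bd.1 ha
  obtain ⟨h5, h6⟩ := mem_ex0.1 ht
  obtain ⟨v, u⟩ := a
  simp only at h1
  subst h1
  have key := close_topL (v := v) (t := t) (n := n) h4.2.1 h5.inj (fun i hi1 hi2 => by
    have h7 := (mem_par.1 (h5.mem i hi1 hi2)).2.2.1
    simp only at c1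
    rw [c1]
    exact h7) (q2_cj (by rw [show tip v (-up) t = tp (v, -up) t from rfl, d1]; exact c1.symm) hn) h2
  have hw := q2_wind hT hA hB ha ht
  have hw2 : wind t = 3 := by
    rcases key.1 with h | h
    · exact h
    · omega
  refine ⟨hw2, fun f hf hlf => key.2 hw2 f hf ?_⟩
  simp only at c1
  rw [c1]
  exact hlf

/-- the walk does not come back to its starting point. -/
private lemma q2_ne {T A B : ℕ} {a : Pt × Pt} (ha : a ∈ bd (Par T A B))
    {t : List Bool} (ht : t ∈ ex0 (Par T A B) a) (h2 : dx a.2 t t.length = -a.2) : tp a t ≠ a.1 := by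
  intro h
  have h4 := mem_bd.1 ha
  have hl := ex0_pos h4.1 ht
  obtain ⟨h5, h6⟩ := mem_ex0.1 ht
  have h7 : vx a.1 a.2 t t.length = vx a.1 a.2 t 1 := by
    have h8 : tp a t = vx a.1 a.2 t t.length + dx a.2 t t.length := rfl
    rw [h2, h] at h8
    calc vx a.1 a.2 t t.length = (vx a.1 a.2 t t.length + -a.2) + a.2 := by abel
      _ = a.1 + a.2 := by rw [← h8]
  rcases Nat.lt_or_ge 1 t.length with h8 | h8
  · exact h5.inj 1 t.length le_rfl h8 le_rfl h7.symm
  · have h9 : t.length = 1 := by omega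
    rw [h9] at h2
    have h10 : turn (tf t 0) a.2 = -a.2 := h2
    have h11 : ∀ d ∈ dirs, ∀ b : Bool, turn b d ≠ -d := by decide
    exact h11 _ h4.2.1.1 _ h10

private lemma q2_s3 : Real.sin (((-3 : ℤ) : ℝ) * (Real.pi / 8)) = -Real.sin (3 * Real.pi / 8) ∧
    Real.sin (((3 : ℤ) : ℝ) * (Real.pi / 8)) = Real.sin (3 * Real.pi / 8) := by
  constructor
  · rw [← Real.sin_neg]
    congr 1
    push_cast
    ring
  · congr 1
    push_cast
    ring

private lemma q2_s3pos : 0 ≤ Real.sin (3 * Real.pi / 8) := by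
  apply Real.sin_nonneg_of_nonneg_of_le_pi <;> linarith [Real.pi_pos]

open Classical in
/-- arcs at the floor. -/
theorem floor_term {T A B : ℕ} (hT : 1 ≤ T) (hA : 1 ≤ A) (hB : 1 ≤ B) {a : Pt × Pt} (ha : a ∈ bd (Par T A B))
    {t : List Bool} (ht : t ∈ ex0 (Par T A B) a) (h1 : a.2 = up) (h2 : dx a.2 t t.length = -up) {f : Pt}
    (hf : Fc f) : -((NN f a t : ℝ) * Real.sin (wind t * (Real.pi / 8)) * xc ^ t.length) ≤
      Real.sin (3 * Real.pi / 8) * (if Btw f a t then xc ^ t.length else 0) := by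
  have hs := q2_s3pos
  have hx : 0 ≤ xc ^ t.length := pow_nonneg xc_pos.le _
  have main : ∀ (N : ℤ) (Q : Prop) [Decidable Q], N ≤ (if Q then 1 else 0) → (Q → Btw f a t) →
      (N : ℝ) * Real.sin (3 * Real.pi / 8) * xc ^ t.length ≤
        Real.sin (3 * Real.pi / 8) * (if Btw f a t then xc ^ t.length else 0) := by
    intro N Q _ hN hQ
    have h0 : (N : ℝ) ≤ (if Btw f a t then 1 else 0) := by
      by_cases hq : Q
      · rw [if_pos hq] at hN
        rw [if_pos (hQ hq)]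
        exact_mod_cast hN
      · rw [if_neg hq] at hN
        split_ifs
        · have : N ≤ 1 := by omega
          exact_mod_cast this
        · exact_mod_cast hN
    calc (N : ℝ) * Real.sin (3 * Real.pi / 8) * xc ^ t.length
        ≤ (if Btw f a t then 1 else 0) * Real.sin (3 * Real.pi / 8) * xc ^ t.length := by
          apply mul_le_mul_of_nonneg_right _ hx
          exact mul_le_mul_of_nonneg_right h0 hs
      _ = _ := by
          split_ifs
          · ring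
          · ring
  have hne := q2_ne ha ht (by rw [h2, h1])
  obtain ⟨b1, b2, b3⟩ := q2_rv ha ht
  have e1 : (rv (le a t)).2 = up := by
    rw [b3, h2, neg_neg]
  obtain ⟨c1, c2⟩ := q2_floor0 hT hA hB ha h1
  obtain ⟨d1, d2⟩ := q2_floor0 hT hA hB b1 e1
  rw [b2] at d1 d2
  rcases lt_trichotomy (nn a.1) (nn (tp a t)) with h | h | h
  · obtain ⟨h3, h4⟩ := q2_floorR hT hA hB ha ht h1 h2 h
    rw [h3, q2_s3.1]
    have h5 := main (NN f a t) _ (h4 f hf) (fun hq => Or.inl hq)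
    linarith
  · exact absurd (pt_eq h.symm (by rw [d1, c1])) hne
  · obtain ⟨r1, r2, r3, r4, r5⟩ := q2_rev ha ht
    have h6 : nn (rv (le a t)).1 < nn (tp (rv (le a t)) (rev t)) := by
      rw [r3, b2]
      exact h
    obtain ⟨h3, h4⟩ := q2_floorR hT hA hB b1 r1 e1 (by rw [r2, h1]) h6
    have h7 : wind t = 3 := by
      rw [r5] at h3
      omega
    rw [h7, q2_s3.2]
    have h8 := h4 f hf
    rw [r4 f, r3, b2] at h8
    have h5 := main (-NN f a t) _ h8 (fun hq => Or.inr hq)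
    push_cast at h5
    linarith

/-- arcs at the top. -/
theorem top_term {T A B : ℕ} (hT : 1 ≤ T) (hA : 1 ≤ A) (hB : 1 ≤ B) {a : Pt × Pt} (ha : a ∈ bd (Par T A B))
    {t : List Bool} (ht : t ∈ ex0 (Par T A B) a) (h1 : a.2 = -up) (h2 : dx a.2 t t.length = up) {f : Pt}
    (hf : Fc f) (hlf : lv f ≤ 3 * T + 2) :
    -((NN f a t : ℝ) * Real.sin (wind t * (Real.pi / 8)) * xc ^ t.length) ≤ 0 := by
  have hs := q2_s3pos
  have hx : 0 ≤ xc ^ t.length := pow_nonneg xc_pos.le _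
  have hne := q2_ne ha ht (by rw [h2, h1, neg_neg])
  obtain ⟨b1, b2, b3⟩ := q2_rv ha ht
  have e1 : (rv (le a t)).2 = -up := by
    rw [b3, h2]
  obtain ⟨c1, c2⟩ := q2_top0 hT hA hB ha h1
  obtain ⟨d1, d2⟩ := q2_top0 hT hA hB b1 e1
  rw [b2] at d1 d2
  rcases lt_trichotomy (nn a.1) (nn (tp a t)) with h | h | h
  · obtain ⟨h3, h4⟩ := q2_topR hT hA hB ha ht h1 h2 h
    rw [h3, q2_s3.2]
    have h5 : (0 : ℝ) ≤ (NN f a t : ℝ) := by exact_mod_cast h4 f hf hlf
    have := mul_nonneg (mul_nonneg h5 hs) hx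
    linarith
  · exact absurd (pt_eq h.symm (by rw [d1, c1])) hne
  · obtain ⟨r1, r2, r3, r4, r5⟩ := q2_rev ha ht
    have h6 : nn (rv (le a t)).1 < nn (tp (rv (le a t)) (rev t)) := by
      rw [r3, b2]
      exact h
    obtain ⟨h3, h4⟩ := q2_topR hT hA hB b1 r1 e1 (by rw [r2, h1, neg_neg]) h6
    have h7 : wind t = -3 := by
      rw [r5] at h3
      omega
    rw [h7, q2_s3.1]
    have h8 := h4 f hf hlf
    rw [r4 f] at h8
    have h5 : (0 : ℝ) ≤ -(NN f a t : ℝ) := by exact_mod_cast h8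
    have := mul_nonneg (mul_nonneg h5 hs) hx
    linarith

end LP

end HexObs
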