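import Pool.Agent.HexLoop.QQ2
import Pool.Agent.HexLoop.DefsW
import Pool.Agent.HexLoop.Wall
import Pool.Agent.W47.K3
import Pool.Agent.W47.K4

/-!
SD9: the sharp bound of the right side of the loop identity in a parallelogram:
QQ (Par T A B) f <= 2 sin (3 pi / 8) kT T + eps.
-/

set_option autoImplicit false

namespace HexObs

namespace LP

open Complex Finset

/-- displacement of a word, in feet. -/
def J0 (t : List Bool) : ℤ := nn (tip oo up t) / 3

private lemma q3_nn_foot (k : ℤ) : nn (foot oo up k) = 3 * k := by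
  rw [k4_foot]
  unfold nn
  simp only
  ring

private lemma q3_J0 {T : ℕ} {t : List Bool} {k : ℤ} (h : t ∈ Arc (St T) ∅ oo up (foot oo up k)) : J0 t = k := by
  unfold J0
  rw [(k4_arc.1 h).2, q3_nn_foot]
  omega

private lemma q3_pos {T : ℕ} (F : Finset (List Bool)) (hF : ∀ t ∈ F, ∃ k : ℕ, t ∈ Arc (St T) ∅ oo up (foot oo up k)) :
    ENNReal.ofReal (∑ t ∈ F, ((J0 t).toNat : ℝ) * xc ^ t.length) ≤ KT T := by
  classical
  have e1 : ∑ t ∈ F, ((J0 t).toNat : ℝ) * xc ^ t.length = ∑ k ∈ F.image (fun t => (J0 t).toNat),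
      (k : ℝ) * ∑ t ∈ F.filter (fun t => (J0 t).toNat = k), xc ^ t.length := by
    rw [← Finset.sum_fiberwise_of_maps_to (g := fun t => (J0 t).toNat) (t := F.image (fun t => (J0 t).toNat))
      (fun t ht => Finset.mem_image_of_mem _ ht)]
    apply Finset.sum_congr rfl
    intro k _
    rw [Finset.mul_sum]
    apply Finset.sum_congr rfl
    intro t ht
    rw [(Finset.mem_filter.1 ht).2]
  rw [e1, ENNReal.ofReal_sum_of_nonneg (fun k _ => mul_nonneg (Nat.cast_nonneg _)
    (Finset.sum_nonneg (fun t _ => pow_nonneg xc_pos.le _)))]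
  calc ∑ k ∈ F.image (fun t => (J0 t).toNat),
        ENNReal.ofReal ((k : ℝ) * ∑ t ∈ F.filter (fun t => (J0 t).toNat = k), xc ^ t.length)
      ≤ ∑ k ∈ F.image (fun t => (J0 t).toNat), (k : ENNReal) * GG T k := by
        apply Finset.sum_le_sum
        intro k _
        rw [ENNReal.ofReal_mul (Nat.cast_nonneg _), ENNReal.ofReal_natCast, ← gf_finset]
        gcongr
        unfold GG
        apply gf_mono
        intro t ht
        rw [Finset.mem_coe, Finset.mem_filter] at ht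
        obtain ⟨l, hl⟩ := hF t ht.1
        have h1 := q3_J0 hl
        have h2 : l = k := by
          rw [← ht.2, h1]
          simp
        rw [← h2]
        exact hl
    _ ≤ KT T := ENNReal.sum_le_tsum _

private lemma q3_mir {T : ℕ} {t : List Bool} (h : t ∈ out (St T) oo up (-up)) (hT : 1 ≤ T) :
    ∃ k : ℤ, k ≠ 0 ∧ t ∈ Arc (St T) ∅ oo up (foot oo up k) := by
  obtain ⟨k, h1, h2⟩ := k4_land hT h
  exact ⟨k, h1, k4_arc.2 ⟨h, h2⟩⟩

/-- first moment of finitely many arcs. -/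
theorem moment_le {T : ℕ} (hT : 1 ≤ T) (hK : KT T ≠ ⊤) (F : Finset (List Bool)) (hF : ∀ t ∈ F, t ∈ out (St T) oo up (-up)) :
    ∑ t ∈ F, ((J0 t).natAbs : ℝ) * xc ^ t.length ≤ 2 * kT T := by
  classical
  have h1 : ∑ t ∈ F.filter (fun t => 0 < J0 t), ((J0 t).toNat : ℝ) * xc ^ t.length ≤ kT T := by
    have h := q3_pos (T := T) (F.filter (fun t => 0 < J0 t)) (fun t ht => by
      rw [Finset.mem_filter] at ht
      obtain ⟨k, _, hk⟩ := q3_mir (hF t ht.1) hT
      have h2 := q3_J0 hk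
      refine ⟨k.toNat, ?_⟩
      have h3 : ((k.toNat : ℕ) : ℤ) = k := by omega
      rw [h3]
      exact hk)
    unfold kT
    rwa [ENNReal.ofReal_le_iff_le_toReal hK] at h
  have h2 : ∑ t ∈ F.filter (fun t => ¬ 0 < J0 t), ((-(J0 t)).toNat : ℝ) * xc ^ t.length ≤ kT T := by
    have h := q3_pos (T := T) ((F.filter (fun t => ¬ 0 < J0 t)).image (List.map not)) (fun t ht => by
      rw [Finset.mem_image] at ht
      obtain ⟨s, hs, rfl⟩ := ht
      rw [Finset.mem_filter] at hs
      obtain ⟨k, _, hk⟩ := q3_mir (hF s hs.1) hT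
      have h2 := q3_J0 hk
      refine ⟨(-k).toNat, ?_⟩
      have h3 : (((-k).toNat : ℕ) : ℤ) = -k := by omega
      rw [h3]
      exact k4_refl hk)
    have hinj : Set.InjOn (List.map not) ((F.filter (fun t => ¬ 0 < J0 t)) : Set (List Bool)) := by
      intro s _ s' _ hss
      have := congrArg (List.map not) hss
      rwa [map_not_not, map_not_not] at this
    rw [Finset.sum_image hinj] at h
    have e : ∀ t ∈ F.filter (fun t => ¬ 0 < J0 t), ((J0 (t.map not)).toNat : ℝ) * xc ^ (t.map not).length =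
        ((-(J0 t)).toNat : ℝ) * xc ^ t.length := by
      intro t ht
      rw [Finset.mem_filter] at ht
      obtain ⟨k, _, hk⟩ := q3_mir (hF t ht.1) hT
      rw [q3_J0 hk, q3_J0 (k4_refl hk), List.length_map]
    rw [Finset.sum_congr rfl e] at h
    unfold kT
    rwa [ENNReal.ofReal_le_iff_le_toReal hK] at h
  rw [← Finset.sum_filter_add_sum_filter_not F (fun t => 0 < J0 t)]
  have e1 : ∑ t ∈ F.filter (fun t => 0 < J0 t), ((J0 t).natAbs : ℝ) * xc ^ t.length =
      ∑ t ∈ F.filter (fun t => 0 < J0 t), ((J0 t).toNat : ℝ) * xc ^ t.length := by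
    apply Finset.sum_congr rfl
    intro t ht
    have h := (Finset.mem_filter.1 ht).2
    have h3 : (J0 t).natAbs = (J0 t).toNat := by omega
    rw [h3]
  have e2 : ∑ t ∈ F.filter (fun t => ¬ 0 < J0 t), ((J0 t).natAbs : ℝ) * xc ^ t.length =
      ∑ t ∈ F.filter (fun t => ¬ 0 < J0 t), ((-(J0 t)).toNat : ℝ) * xc ^ t.length := by
    apply Finset.sum_congr rfl
    intro t ht
    have h := (Finset.mem_filter.1 ht).2
    have h3 : (J0 t).natAbs = (-(J0 t)).toNat := by omega
    rw [h3]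
  rw [e1, e2]
  linarith

private lemma q3_shape {T A B : ℕ} (hT : 1 ≤ T) (hA : 1 ≤ A) (hB : 1 ≤ B) {a : Pt × Pt} (ha : a ∈ bd (Par T A B))
    {t : List Bool} (ht : t ∈ ex0 (Par T A B) a) (h1 : a.2 = up) (h2 : dx a.2 t t.length = -up) :
    lv a.1 = 0 ∧ nn a.1 % 3 = 0 ∧ t ∈ out (St T) oo up (-up) ∧ nn (tp a t) = nn a.1 + 3 * J0 t := by
  have hfl : ∀ b : Pt × Pt, b ∈ bd (Par T A B) → b.2 = up → lv b.1 = 0 ∧ nn b.1 % 3 = 0 := by
    intro b hb hb1
    constructor
    · rcases par_bd hT hA hB hb with h | h | h | h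
      · exact h.2
      all_goals
        exfalso
        have h3 := h.1
        rw [hb1] at h3
        revert h3
        decide
    · have h3 : De (b.1, b.2) := (mem_bd.1 hb).2.1
      rcases De_cases h3 with ⟨_, h4⟩ | ⟨h4, _⟩
      · exfalso
        rw [hb1] at h4
        revert h4
        decide
      · exact h4
  have h0 := mem_bd.1 ha
  have hl := ex0_pos h0.1 ht
  obtain ⟨h3, h4⟩ := mem_ex0.1 ht
  have hrv : rv (le a t) ∈ bd (Par T A B) := by
    rw [mem_bd]
    obtain ⟨g1, g2, g3⟩ := de_vx h0.2.1 t t.length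
    refine ⟨?_, ⟨?_, g3, ?_⟩, h4⟩
    · show vx a.1 a.2 t t.length + dx a.2 t t.length + -dx a.2 t t.length ∈ Par T A B
      rw [add_neg_cancel_right]
      exact h3.mem t.length hl le_rfl
    · show -dx a.2 t t.length ∈ dirs
      have : ∀ d ∈ dirs, -d ∈ dirs := by decide
      exact this _ g1
    · show Vt (vx a.1 a.2 t t.length + dx a.2 t t.length + -dx a.2 t t.length)
      rw [add_neg_cancel_right]
      exact g2
  have hrv2 : (rv (le a t)).2 = up := by
    show -dx a.2 t t.length = up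
    rw [h2, neg_neg]
  obtain ⟨c1, c2⟩ := hfl a ha h1
  obtain ⟨d1, d2⟩ := hfl _ hrv hrv2
  have d1' : lv (tp a t) = 0 := d1
  have d2' : nn (tp a t) % 3 = 0 := d2
  have hlvf : ∀ k : ℤ, lv (foot oo up k) = 0 := by
    intro k
    rw [k4_foot]
    unfold lv
    simp only
    ring
  have e1 : a.1 = foot oo up (nn a.1 / 3) := by
    apply pt_eq
    · rw [q3_nn_foot]
      omega
    · rw [c1, hlvf]
  have e2 : tp a t = foot oo up (nn (tp a t) / 3) := by
    apply pt_eq
    · rw [q3_nn_foot]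
      omega
    · rw [d1', hlvf]
  have hSt : ∀ v : Pt, v ∈ St T → 0 < lv v := by
    intro v hv
    have h5 := hv.2.1
    have e : ip (v - oo) up = lv v := by
      unfold ip oo up lv
      simp only [Prod.fst_sub, Prod.snd_sub]
      ring
    rw [e] at h5
    exact h5
  have hmem : ∀ i, 1 ≤ i → i ≤ t.length → vx a.1 a.2 t i ∈ St T ∧ 0 < lv (vx a.1 a.2 t i) := by
    intro i hi1 hi2
    have h5 := h3.mem i hi1 hi2
    refine ⟨?_, (mem_par.1 h5).2.1⟩
    unfold Par at h5
    rw [Tube.mem_dF] at h5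
    exact h5.1
  have hout : t ∈ out (St T) a.1 up (-up) := by
    refine ⟨⟨?_, ?_⟩, ?_, ?_⟩
    · intro i hi1 hi2
      rw [← h1]
      exact (hmem i hi1 hi2).1
    · intro i k hik hk
      rw [← h1]
      rcases Nat.eq_zero_or_pos i with h5 | h5
      · subst h5
        intro h6
        have h7 := (hmem k (by omega) hk).2
        rw [← h6] at h7
        have h8 : lv (vx a.1 a.2 t 0) = 0 := c1
        omega
      · exact h3.inj i k h5 hik hk
    · intro h5
      have h6 := hSt _ h5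
      have h7 : lv (tip a.1 up t) = 0 := by
        rw [← h1]
        exact d1'
      omega
    · rw [← h1]
      rw [h1] at h2 ⊢
      exact h2
  have harc : t ∈ Arc (St T) ∅ (foot oo up (nn a.1 / 3)) up (foot oo up (nn (tp a t) / 3)) := by
    have h5 : t ∈ Arc (St T) ∅ (foot oo up (nn a.1 / 3)) up (foot oo up (nn (tp a t) / 3)) ↔
        t ∈ out (St T) (foot oo up (nn a.1 / 3)) up (-up) ∧
          tip (foot oo up (nn a.1 / 3)) up t = foot oo up (nn (tp a t) / 3) := by
      unfold Arc Dn out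
      rw [Set.sdiff_empty]
      exact Iff.rfl
    rw [h5, ← e1, ← e2]
    refine ⟨hout, ?_⟩
    rw [← h1]
    rfl
  rw [k3_arc] at harc
  refine ⟨c1, c2, (k4_arc.1 harc).1, ?_⟩
  rw [q3_J0 harc]
  omega

open Classical in
/-- all arcs at the floor whose feet are on different sides of the line. -/
theorem floor_sum {T A B : ℕ} (hT : 1 ≤ T) (hA : 1 ≤ A) (hB : 1 ≤ B) {f : Pt} (hf : Fc f) (hK : KT T ≠ ⊤) :
    ∑ a ∈ bd (Par T A B), ∑ t ∈ ex0 (Par T A B) a,
      (if a.2 = up ∧ dx a.2 t t.length = -up ∧ Btw f a t then xc ^ t.length else 0) ≤ 2 * kT T := by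
  have hfn : nn f % 3 = 1 := by
    have h := ZMod.intCast_eq_intCast_iff' (f.1 - f.2) 1 3
    unfold Fc cl at hf
    rw [Int.cast_one] at h
    have h7 := h.1 hf
    unfold nn
    norm_num at h7
    exact h7
  rw [Finset.sum_sigma', ← Finset.sum_filter]
  set S := ((bd (Par T A B)).sigma (fun a => ex0 (Par T A B) a)).filter
    (fun x : (Σ _ : Pt × Pt, List Bool) => x.1.2 = up ∧ dx x.1.2 x.2 x.2.length = -up ∧ Btw f x.1 x.2) with hS
  have hSmem : ∀ x ∈ S, lv x.1.1 = 0 ∧ nn x.1.1 % 3 = 0 ∧ x.2 ∈ out (St T) oo up (-up) ∧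
      nn (tp x.1 x.2) = nn x.1.1 + 3 * J0 x.2 ∧ x.1.2 = up ∧ Btw f x.1 x.2 := by
    intro x hx
    rw [hS, Finset.mem_filter, Finset.mem_sigma] at hx
    obtain ⟨⟨h1, h2⟩, h3, h4, h5⟩ := hx
    obtain ⟨g1, g2, g3, g4⟩ := q3_shape hT hA hB h1 h2 h3 h4
    exact ⟨g1, g2, g3, g4, h3, h5⟩
  have e1 : ∑ x ∈ S, xc ^ x.2.length = ∑ t ∈ S.image (fun x => x.2),
      ((S.filter (fun x => x.2 = t)).card : ℝ) * xc ^ t.length := by
    rw [← Finset.sum_fiberwise_of_maps_to (g := fun x : (Σ _ : Pt × Pt, List Bool) => x.2)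
      (t := S.image (fun x => x.2)) (fun x hx => Finset.mem_image_of_mem _ hx)]
    apply Finset.sum_congr rfl
    intro t _
    rw [Finset.sum_congr rfl (g := fun _ => xc ^ t.length)]
    · rw [Finset.sum_const, nsmul_eq_mul]
    · intro x hx
      rw [(Finset.mem_filter.1 hx).2]
  have hcard : ∀ t, (S.filter (fun x => x.2 = t)).card ≤ (J0 t).natAbs := by
    intro t
    have h1 : (S.filter (fun x => x.2 = t)).card ≤
        (Finset.Ioc (min ((nn f - 1) / 3) ((nn f - 1) / 3 - J0 t)) (max ((nn f - 1) / 3) ((nn f - 1) / 3 - J0 t))).card := by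
      apply Finset.card_le_card_of_injOn (fun x => nn x.1.1 / 3)
      · intro x hx
        rw [Finset.mem_coe, Finset.mem_filter] at hx
        obtain ⟨g1, g2, g3, g4, g5, g6⟩ := hSmem x hx.1
        rw [hx.2] at g4
        rw [Finset.mem_coe, Finset.mem_Ioc]
        unfold Btw at g6
        rw [hx.2, ← hx.2] at g6
        rw [hx.2] at g6
        rw [g4] at g6
        simp only
        rcases g6 with ⟨g7, g8⟩ | ⟨g7, g8⟩
        · rw [min_def, max_def]
          split_ifs <;> omega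
        · rw [min_def, max_def]
          split_ifs <;> omega
      · intro x hx y hy hxy
        rw [Finset.mem_coe, Finset.mem_filter] at hx hy
        obtain ⟨g1, g2, _, _, g5, _⟩ := hSmem x hx.1
        obtain ⟨k1, k2, _, _, k5, _⟩ := hSmem y hy.1
        simp only at hxy
        obtain ⟨⟨x1, x2⟩, x3⟩ := x
        obtain ⟨⟨y1, y2⟩, y3⟩ := y
        simp only at *
        have e3 : x1 = y1 := pt_eq (by omega) (by omega)
        rw [e3, g5, k5, hx.2, hy.2]
    refine h1.trans ?_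
    rw [Int.card_Ioc]
    rw [min_def, max_def]
    split_ifs <;> omega
  rw [e1]
  refine le_trans ?_ (moment_le hT hK (S.image (fun x => x.2)) ?_)
  · apply Finset.sum_le_sum
    intro t _
    apply mul_le_mul_of_nonneg_right _ (pow_nonneg xc_pos.le _)
    exact_mod_cast hcard t
  · intro t ht
    rw [Finset.mem_image] at ht
    obtain ⟨x, hx, rfl⟩ := ht
    exact (hSmem x hx).2.2.1

private lemma q3_NN {f : Pt} {a : Pt × Pt} {t : List Bool} (h : ¬ Crs f a t) : NN f a t = 0 := by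
  unfold NN
  apply Finset.sum_eq_zero
  intro i hi
  rw [Finset.mem_range] at hi
  by_contra h0
  exact h ⟨i, by omega, h0⟩

private lemma q3_wind {T A B : ℕ} (hT : 1 ≤ T) (hA : 1 ≤ A) (hB : 1 ≤ B) {a : Pt × Pt} (ha : a ∈ bd (Par T A B))
    {t : List Bool} (ht : t ∈ ex0 (Par T A B) a) (h1 : a.2 = up ∨ a.2 = -up) (h2 : dx a.2 t t.length = a.2) :
    wind t = 0 := by
  rw [ex0_exits (mem_bd.1 ha).2.2] at ht
  have h := (par_good hT hA hB ha).wind ht
  rw [h2] at h
  rcases h with h | h | h | h | h | h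
  · exact h.2
  all_goals
    exfalso
    have h3 := h.1
    rcases h1 with h1 | h1 <;> rw [h1] at h3 <;> revert h3 <;> decide

private lemma q3_term {n : ℤ} {c w x : ℝ} (hn : |n| ≤ c) (hw : 0 ≤ w) :
    -((n : ℝ) * Real.sin x * w) ≤ c * w := by
  have h1 : -((n : ℝ) * Real.sin x) ≤ |(n : ℝ)| * 1 := by
    have h2 : -((n : ℝ) * Real.sin x) ≤ |(n : ℝ) * Real.sin x| := neg_le_abs _
    rw [abs_mul] at h2
    exact h2.trans (mul_le_mul_of_nonneg_left (Real.abs_sin_le_one x) (abs_nonneg _))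
  have h3 : |(n : ℝ)| ≤ c := by
    rw [← Int.cast_abs]
    exact hn
  calc -((n : ℝ) * Real.sin x * w) = -((n : ℝ) * Real.sin x) * w := by ring
    _ ≤ c * w := mul_le_mul_of_nonneg_right (by linarith) hw

open Classical in
private lemma q3_point {T A B : ℕ} (hT : 1 ≤ T) (hA : 1 ≤ A) (hB : 1 ≤ B) {a : Pt × Pt} (ha : a ∈ bd (Par T A B))
    {t : List Bool} (ht : t ∈ ex0 (Par T A B) a) {f : Pt} (hf : Fc f) (hlf : lv f ≤ 3 * T + 2) :
    -((NN f a t : ℝ) * Real.sin (wind t * (Real.pi / 8)) * xc ^ t.length) ≤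
      Real.sin (3 * Real.pi / 8) * (if a.2 = up ∧ dx a.2 t t.length = -up ∧ Btw f a t then xc ^ t.length else 0) +
      (2 * T + 4) * (if ((a.2 ≠ up ∧ a.2 ≠ -up) ∨ (dx a.2 t t.length ≠ up ∧ dx a.2 t t.length ≠ -up)) ∧
        Crs f a t then xc ^ t.length else 0) := by
  have hs : 0 ≤ Real.sin (3 * Real.pi / 8) := by
    apply Real.sin_nonneg_of_nonneg_of_le_pi <;> linarith [Real.pi_pos]
  have hw : 0 ≤ xc ^ t.length := pow_nonneg xc_pos.le _
  have p1 : 0 ≤ Real.sin (3 * Real.pi / 8) *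
      (if a.2 = up ∧ dx a.2 t t.length = -up ∧ Btw f a t then xc ^ t.length else 0) := by
    apply mul_nonneg hs
    split_ifs <;> first | exact hw | exact le_rfl
  have p3 : (0 : ℝ) ≤ (2 * T + 4) * (if ((a.2 ≠ up ∧ a.2 ≠ -up) ∨
      (dx a.2 t t.length ≠ up ∧ dx a.2 t t.length ≠ -up)) ∧ Crs f a t then xc ^ t.length else 0) := by
    apply mul_nonneg (by positivity)
    split_ifs <;> first | exact hw | exact le_rfl
  by_cases hC : Crs f a t
  swap
  · rw [q3_NN hC, Int.cast_zero]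
    linarith
  by_cases hW : (a.2 ≠ up ∧ a.2 ≠ -up) ∨ (dx a.2 t t.length ≠ up ∧ dx a.2 t t.length ≠ -up)
  · rw [if_pos (show ((a.2 ≠ up ∧ a.2 ≠ -up) ∨ (dx a.2 t t.length ≠ up ∧ dx a.2 t t.length ≠ -up)) ∧ Crs f a t
      from ⟨hW, hC⟩)]
    have h1 : ((|NN f a t| : ℤ) : ℝ) ≤ 2 * T + 4 := by exact_mod_cast NN_crude hT hA hB ha ht f
    have h2 := q3_term (x := wind t * (Real.pi / 8)) h1 hw
    linarith
  · have h1 : a.2 = up ∨ a.2 = -up := by
      by_contra h
      push Not at h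
      exact hW (Or.inl h)
    have h2 : dx a.2 t t.length = up ∨ dx a.2 t t.length = -up := by
      by_contra h
      push Not at h
      exact hW (Or.inr h)
    have hz : dx a.2 t t.length = a.2 → -((NN f a t : ℝ) * Real.sin (wind t * (Real.pi / 8)) * xc ^ t.length) = 0 := by
      intro h3
      rw [q3_wind hT hA hB ha ht h1 h3]
      simp
    rcases h1 with h1 | h1 <;> rcases h2 with h2 | h2
    · rw [hz (h2.trans h1.symm)]
      linarith
    · have h3 := floor_term hT hA hB ha ht h1 h2 hf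
      have e : (if a.2 = up ∧ dx a.2 t t.length = -up ∧ Btw f a t then xc ^ t.length else 0) =
          (if Btw f a t then xc ^ t.length else 0) := by
        by_cases hb : Btw f a t
        · rw [if_pos ⟨h1, h2, hb⟩, if_pos hb]
        · rw [if_neg (fun h => hb h.2.2), if_neg hb]
      rw [e]
      linarith
    · have h3 := top_term hT hA hB ha ht h1 h2 hf hlf
      linarith
    · rw [hz (h2.trans h1.symm)]
      linarith

/-- THE SHARP BOUND of the right side of the loop identity in a parallelogram. -/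
theorem QQ_le2 : ∀ (T : ℕ) (f : Pt), 1 ≤ T → KT T ≠ ⊤ → Fc f → lv f ≤ 3 * T + 2 → ∀ ε : ℝ, 0 < ε →
    ∃ A0 : ℕ, ∀ A B : ℕ, A0 ≤ A → A0 ≤ B →
      QQ (Par T A B) f ≤ 2 * Real.sin (3 * Real.pi / 8) * kT T + ε := by
  classical
  intro T f hT hK hf hlf ε hε
  have hs : 0 ≤ Real.sin (3 * Real.pi / 8) := by
    apply Real.sin_nonneg_of_nonneg_of_le_pi <;> linarith [Real.pi_pos]
  have hT4 : (0 : ℝ) < 2 * T + 4 := by positivity
  obtain ⟨A1, h3⟩ := walls T f (ε / (2 * T + 4)) hT hf (by positivity)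
  refine ⟨max A1 1, ?_⟩
  intro A B hA hB
  have hA1 : A1 ≤ A := (le_max_left _ _).trans hA
  have hB1 : A1 ≤ B := (le_max_left _ _).trans hB
  have hA2 : 1 ≤ A := (le_max_right _ _).trans hA
  have hB2 : 1 ≤ B := (le_max_right _ _).trans hB
  have g1 := floor_sum hT hA2 hB2 hf hK
  have g3 := h3 A B hA1 hB1
  simp only [Finset.sum_filter] at g3
  have key : QQ (Par T A B) f ≤
      Real.sin (3 * Real.pi / 8) * (∑ a ∈ bd (Par T A B), ∑ t ∈ ex0 (Par T A B) a,
        (if a.2 = up ∧ dx a.2 t t.length = -up ∧ Btw f a t then xc ^ t.length else 0)) +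
      (2 * T + 4) * ∑ a ∈ bd (Par T A B), ∑ t ∈ ex0 (Par T A B) a,
        (if ((a.2 ≠ up ∧ a.2 ≠ -up) ∨ (dx a.2 t t.length ≠ up ∧ dx a.2 t t.length ≠ -up)) ∧ Crs f a t
          then xc ^ t.length else 0) := by
    unfold QQ
    rw [← Finset.sum_neg_distrib, Finset.mul_sum, Finset.mul_sum, ← Finset.sum_add_distrib]
    apply Finset.sum_le_sum
    intro a ha
    rw [← Finset.sum_neg_distrib, Finset.mul_sum, Finset.mul_sum, ← Finset.sum_add_distrib]
    apply Finset.sum_le_sum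
    intro t ht
    exact q3_point hT hA2 hB2 ha ht hf hlf
  have g4 : (2 * (T : ℝ) + 4) * ∑ a ∈ bd (Par T A B), ∑ t ∈ ex0 (Par T A B) a,
        (if ((a.2 ≠ up ∧ a.2 ≠ -up) ∨ (dx a.2 t t.length ≠ up ∧ dx a.2 t t.length ≠ -up)) ∧ Crs f a t
          then xc ^ t.length else 0) ≤ ε := by
    calc _ ≤ (2 * (T : ℝ) + 4) * (ε / (2 * T + 4)) := mul_le_mul_of_nonneg_left g3 hT4.le
      _ = ε := by field_simp
  refine key.trans ?_
  have g5 := mul_le_mul_of_nonneg_left g1 hs
  have e3 : 2 * Real.sin (3 * Real.pi / 8) * kT T = Real.sin (3 * Real.pi / 8) * (2 * kT T) := by ring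
  rw [e3]
  linarith

end LP

end HexObs
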