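import Pool.Agent.HexLoop.Bulk
import Pool.Agent.HexLoop.Refl

/-!
SD3: the sum QQ does not change if the domain is rotated by 180 degrees around f (upper ray instead of lower ray).
-/

set_option autoImplicit false

namespace HexObs

namespace LP

open Complex Finset

/-- the side of the vertical line through f. -/
def sdv (f v : Pt) : ℤ := if nn f < nn v then 1 else 0

lemma cr_Re {f : Pt} (hf : Fc f) {p : Pt × Pt} (hp : De p) :
    cr f p - cr f (Re f p) = sdv f (p.1 + p.2) - sdv f p.1 := by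
  obtain ⟨v, d⟩ := p
  have hf' : nn f % 3 = 1 := by
    have h1 := Vt_iff f
    unfold Vt at h1
    unfold Fc at hf
    by_contra h2
    exact (h1.2 h2) hf
  have hl := lv_mod v
  have hlf := lv_mod f
  have key := De_cases hp
  obtain ⟨e1, e2, e3, e4, e5, e6, e7, e8, e9, e10, e11, e12⟩ := dir_vals
  unfold cr sdv Re
  simp only [nn_Rf, lv_Rf, nn_add]
  rcases key with ⟨h1, rfl | rfl | rfl⟩ | ⟨h1, rfl | rfl | rfl⟩
  · rw [e1]
    simp only [Prod.mk.injEq, Prod.neg_mk]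
    norm_num
    split_ifs <;> omega
  · rw [e5]
    simp only [Prod.mk.injEq, Prod.neg_mk]
    norm_num
    split_ifs <;> omega
  · rw [e9]
    simp only [Prod.mk.injEq, Prod.neg_mk]
    norm_num
    split_ifs <;> omega
  · rw [e3]
    simp only [Prod.mk.injEq, Prod.neg_mk]
    norm_num
    split_ifs <;> omega
  · rw [e7]
    simp only [Prod.mk.injEq, Prod.neg_mk]
    norm_num
    split_ifs <;> omega
  · rw [e11]
    simp only [Prod.mk.injEq, Prod.neg_mk]
    norm_num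
    split_ifs <;> omega

lemma NN_Re {f : Pt} (hf : Fc f) {p : Pt × Pt} (hp : De p) (t : List Bool) :
    NN f p t - NN f (Re f p) t = sdv f (tp p t) - sdv f p.1 := by
  unfold NN
  rw [← Finset.sum_sub_distrib]
  have h1 : ∀ i ∈ range (t.length + 1), cr f (vx p.1 p.2 t i, dx p.2 t i) -
      cr f (vx (Re f p).1 (Re f p).2 t i, dx (Re f p).2 t i) =
      sdv f (vx p.1 p.2 t (i + 1)) - sdv f (vx p.1 p.2 t i) := by
    intro i _
    have h2 := cr_Re hf (de_vx hp t i)
    rw [vx_next, ← h2]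
    congr 2
    unfold Re
    simp only
    rw [vx_Rf, dx_Rf]
  rw [Finset.sum_congr rfl h1]
  exact Finset.sum_range_sub (fun i => sdv f (vx p.1 p.2 t i)) (t.length + 1)

private lemma q3_im {Ω : Finset Pt} (hΩ : Full Ω) {a : Pt × Pt} (ha : a ∈ bd Ω) :
    ∑ t ∈ ex0 Ω a, Real.sin (wind t * (Real.pi / 8)) * xc ^ t.length = 0 := by
  rw [mem_bd] at ha
  have h := start_one hΩ (Finset.Subset.refl Ω) ha.2.1 ha.2.2
  unfold SS at h
  have h1 := congrArg Complex.im h
  rw [Complex.im_sum, Complex.one_im] at h1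
  rw [← h1]
  apply Finset.sum_congr rfl
  intro t _
  unfold wt
  rw [← Complex.ofReal_pow, Complex.im_mul_ofReal, Complex.exp_ofReal_mul_I_im]

private lemma q3_start {Ω : Finset Pt} (hΩ : Full Ω) (φ : Pt → ℤ) :
    ∑ a ∈ bd Ω, ∑ t ∈ ex0 Ω a, (φ a.1 : ℝ) * (Real.sin (wind t * (Real.pi / 8)) * xc ^ t.length) = 0 := by
  apply Finset.sum_eq_zero
  intro a ha
  rw [← Finset.mul_sum, q3_im hΩ ha, mul_zero]

private lemma q3_end {Ω : Finset Pt} (hΩ : Full Ω) (φ : Pt → ℤ) :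
    ∑ a ∈ bd Ω, ∑ t ∈ ex0 Ω a, (φ (tp a t) : ℝ) * (Real.sin (wind t * (Real.pi / 8)) * xc ^ t.length) = 0 := by
  rw [rev_ex hΩ.1]
  have h1 : ∀ a ∈ bd Ω, ∀ t ∈ ex0 Ω a, (φ (tp (rv (le a t)) (rev t)) : ℝ) *
      (Real.sin (wind (rev t) * (Real.pi / 8)) * xc ^ (rev t).length) =
      -((φ a.1 : ℝ) * (Real.sin (wind t * (Real.pi / 8)) * xc ^ t.length)) := by
    intro a _ t _
    have h2 : tp (rv (le a t)) (rev t) = a.1 := by
      unfold tp tip
      rw [rev_length, vx_rev0 t _ le_rfl, Nat.sub_self]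
      rfl
    rw [h2, rev_length, wind_rev]
    push_cast
    rw [neg_mul, Real.sin_neg]
    ring
  rw [Finset.sum_congr rfl (fun a ha => Finset.sum_congr rfl (h1 a ha))]
  simp only [Finset.sum_neg_distrib]
  rw [q3_start hΩ φ, neg_zero]

/-- SD3: the upper ray instead of the lower ray. -/
theorem QQ_Re' {Ω : Finset Pt} (hΩ : Full Ω) {f : Pt} (hf : Fc f) : QQ (Ω.image (Rf f)) f = QQ Ω f := by
  unfold QQ
  rw [bd_Re hf, Finset.sum_image (fun a _ b _ h => Re_inj f h), neg_inj]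
  have h1 := q3_end hΩ (sdv f)
  have h2 := q3_start hΩ (sdv f)
  have h3 : ∀ a ∈ bd Ω, ∀ t ∈ ex0 Ω a, (NN f (Re f a) t : ℝ) * Real.sin (wind t * (Real.pi / 8)) * xc ^ t.length =
      (NN f a t : ℝ) * Real.sin (wind t * (Real.pi / 8)) * xc ^ t.length -
        (sdv f (tp a t) : ℝ) * (Real.sin (wind t * (Real.pi / 8)) * xc ^ t.length) +
        (sdv f a.1 : ℝ) * (Real.sin (wind t * (Real.pi / 8)) * xc ^ t.length) := by
    intro a ha t _
    have h4 : (NN f a t : ℝ) - NN f (Re f a) t = sdv f (tp a t) - sdv f a.1 := by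
      exact_mod_cast NN_Re hf (mem_bd.1 ha).2.1 t
    linear_combination (-(Real.sin (wind t * (Real.pi / 8)) * xc ^ t.length)) * h4
  have h5 : ∑ a ∈ bd Ω, ∑ t ∈ ex0 (Ω.image (Rf f)) (Re f a), (NN f (Re f a) t : ℝ) *
      Real.sin (wind t * (Real.pi / 8)) * xc ^ t.length =
      ∑ a ∈ bd Ω, ∑ t ∈ ex0 Ω a, ((NN f a t : ℝ) * Real.sin (wind t * (Real.pi / 8)) * xc ^ t.length -
        (sdv f (tp a t) : ℝ) * (Real.sin (wind t * (Real.pi / 8)) * xc ^ t.length) +
        (sdv f a.1 : ℝ) * (Real.sin (wind t * (Real.pi / 8)) * xc ^ t.length)) := by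
    apply Finset.sum_congr rfl
    intro a ha
    rw [ex0_img]
    exact Finset.sum_congr rfl (h3 a ha)
  rw [h5]
  simp only [Finset.sum_add_distrib, Finset.sum_sub_distrib]
  rw [h1, h2]
  ring

end LP

end HexObs
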