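import Pool.Agent.HexLoop.DefsW
import Pool.Agent.HexLoop.HitV
import Pool.Agent.HexLoop.MeanLen

/-!
SD12c: the mean length of the bridges of height T (assembly).
-/

set_option autoImplicit false

namespace HexObs

namespace LP

open Complex Finset ENNReal

/-- (S2) from the bound of the polygons and the properties of the half width. -/
theorem S2_of {ρ κ C1 C2 C3 c4 : ℝ} (hρ : 1 < ρ) (hκ : 0 < κ) (hc4 : 0 < c4)
    (h10 : ∀ m M : ℕ, Real.exp (ρ * LL (PP m M) f0) ≤ C1 * (1 + kT (2 * m)))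
    (h1 : ∀ T : ℕ, 1 ≤ T → kT T ≤ C2 * (T * bT T))
    (h2 : ∀ T : ℕ, 1 ≤ T → kT (2 * T) ≤ C3 * kT T)
    (h3 : ∀ T : ℕ, 1 ≤ T → c4 * (T : ℝ) ^ κ ≤ kT T) :
    ∃ C : ℝ, 0 < C ∧ ∀ T : ℕ, 1 ≤ T →
      ∑' t : Brd T, (t.1.length : ℝ≥0∞) * wE t.1 ≤
        ENNReal.ofReal (C * (T : ℝ) ^ (2 - (1 - 1 / ρ) * κ)) * BT T := by
  have hρ0 : 0 < ρ := by linarith
  have hC1 : 0 < C1 := by
    have := (Real.exp_pos _).trans_le (h10 0 0)
    by_contra hc
    have hk : (0 : ℝ) ≤ kT (2 * 0) := ENNReal.toReal_nonneg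
    nlinarith
  have hk0 : ∀ T : ℕ, 1 ≤ T → c4 ≤ kT T := by
    intro T hT
    refine le_trans ?_ (h3 T hT)
    have hT1 : (1 : ℝ) ≤ T := by exact_mod_cast hT
    have := Real.one_le_rpow hT1 hκ.le
    nlinarith
  have hC3 : 0 < C3 := by
    have ha := hk0 1 le_rfl
    have hb := hk0 (2 * 1) (by norm_num)
    have hc := h2 1 le_rfl
    by_contra hn
    nlinarith
  have hC2 : 0 < C2 := by
    have ha := hk0 1 le_rfl
    have hb := h1 1 le_rfl
    have hc : (0 : ℝ) ≤ ((1 : ℕ) : ℝ) * bT 1 := mul_nonneg (Nat.cast_nonneg _) ENNReal.toReal_nonneg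
    by_contra hn
    nlinarith
  -- the constant
  set D : ℝ := C1 * (1 / c4 + C3) with hD
  have hD0 : 0 < D := by positivity
  have h1ρ : 0 < 1 - 1 / ρ := by
    rw [sub_pos, div_lt_one hρ0]
    exact hρ
  refine ⟨6 * D ^ (1 / ρ) * c4 ^ (-(1 - 1 / ρ)) * C2, by positivity, ?_⟩
  intro T hT
  have hT1 : (1 : ℝ) ≤ T := by exact_mod_cast hT
  have hT0 : (0 : ℝ) < T := by linarith
  have hk : 0 < kT T := hc4.trans_le (hk0 T hT)
  -- the exponential
  have hexp : ∀ M : ℕ, Real.exp (LL (PP T M) f0) ≤ D ^ (1 / ρ) * kT T ^ (1 / ρ) := by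
    intro M
    have e1 : Real.exp (ρ * LL (PP T M) f0) ≤ D * kT T := by
      refine (h10 T M).trans ?_
      rw [hD, mul_assoc]
      apply mul_le_mul_of_nonneg_left _ hC1.le
      have e2 : 1 ≤ 1 / c4 * kT T := by
        rw [one_div, inv_mul_eq_div, le_div_iff₀ hc4]
        linarith [hk0 T hT]
      have e3 := h2 T hT
      calc 1 + kT (2 * T) ≤ 1 / c4 * kT T + C3 * kT T := by linarith
        _ = (1 / c4 + C3) * kT T := by ring
    have e4 : Real.exp (LL (PP T M) f0) = Real.exp (ρ * LL (PP T M) f0) ^ (1 / ρ) := by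
      rw [← Real.exp_mul]
      congr 1
      field_simp
    rw [e4, ← Real.mul_rpow hD0.le hk.le]
    exact Real.rpow_le_rpow (Real.exp_pos _).le e1 (by positivity)
  have hbase : 0 < D ^ (1 / ρ) * kT T ^ (1 / ρ) := by positivity
  set L : ℝ := Real.log (D ^ (1 / ρ) * kT T ^ (1 / ρ)) with hL
  have hLL : ∀ M : ℕ, LL (PP T M) f0 ≤ L := by
    intro M
    rw [hL, Real.le_log_iff_exp_le hbase]
    exact hexp M
  have hm := mean_len (T := T) (b := 3 * Real.exp L) (fun v X hX => hit_vertex_le hT hLL v X hX)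
  refine hm.trans ?_
  rw [hL, Real.exp_log hbase]
  rw [← ofReal_bT hT, ← ENNReal.ofReal_mul (by positivity)]
  apply ENNReal.ofReal_le_ofReal
  -- kT ^ (1 / ρ) = kT * kT ^ (-(1 - 1 / ρ))
  have e5 : kT T ^ (1 / ρ) ≤ C2 * (T * bT T) * (c4 ^ (-(1 - 1 / ρ)) * (T : ℝ) ^ (-((1 - 1 / ρ) * κ))) := by
    have e6 : kT T ^ (1 / ρ) = kT T * kT T ^ (-(1 - 1 / ρ)) := by
      nth_rewrite 2 [← Real.rpow_one (kT T)]
      rw [← Real.rpow_add hk]
      congr 1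
      ring
    have e7 : kT T ^ (-(1 - 1 / ρ)) ≤ c4 ^ (-(1 - 1 / ρ)) * (T : ℝ) ^ (-((1 - 1 / ρ) * κ)) := by
      have e8 : (c4 * (T : ℝ) ^ κ) ^ (-(1 - 1 / ρ)) =
          c4 ^ (-(1 - 1 / ρ)) * (T : ℝ) ^ (-((1 - 1 / ρ) * κ)) := by
        rw [Real.mul_rpow hc4.le (by positivity), ← Real.rpow_mul hT0.le]
        congr 2
        ring
      rw [← e8]
      exact Real.rpow_le_rpow_of_nonpos (by positivity) (h3 T hT) (by linarith)
    rw [e6]
    have hb0 : 0 ≤ C2 * (T * bT T) := hk.le.trans (h1 T hT)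
    exact mul_le_mul (h1 T hT) e7 (by positivity) hb0
  have e9 : (T : ℝ) ^ (2 - (1 - 1 / ρ) * κ) = T * T * (T : ℝ) ^ (-((1 - 1 / ρ) * κ)) := by
    rw [sub_eq_add_neg, Real.rpow_add hT0]
    congr 1
    rw [Real.rpow_two]
    ring
  rw [e9]
  calc 2 * (T : ℝ) * (3 * (D ^ (1 / ρ) * kT T ^ (1 / ρ)))
      = 6 * T * D ^ (1 / ρ) * kT T ^ (1 / ρ) := by ring
    _ ≤ 6 * T * D ^ (1 / ρ) *
        (C2 * (T * bT T) * (c4 ^ (-(1 - 1 / ρ)) * (T : ℝ) ^ (-((1 - 1 / ρ) * κ)))) :=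
        mul_le_mul_of_nonneg_left e5 (by positivity)
    _ = _ := by ring

end LP

end HexObs
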