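import Pool.Agent.HexLoop.S2gen
import Pool.Agent.HexLoop.LLfin

/-!
SD12e: the mean length of the bridges of height T.
-/

set_option autoImplicit false

namespace HexObs

namespace LP

open Complex Finset ENNReal

/-- (S2): the mean length of the bridges of height T is at most C T ^ 1.86. -/
theorem S2_main : ∃ C : ℝ, 0 < C ∧ ∀ T : ℕ, 1 ≤ T →
    ∑' t : Brd T, (t.1.length : ℝ≥0∞) * wE t.1 ≤ ENNReal.ofReal (C * (T : ℝ) ^ (1.86 : ℝ)) * BT T := by
  have hs : (0.5857 : ℝ) ≤ 2 - Real.sqrt 2 := by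
    have h : Real.sqrt 2 ≤ 1.4143 := Real.sqrt_le_iff.2 ⟨by norm_num, by norm_num⟩
    linarith
  obtain ⟨C, hC, h⟩ := S2_gen (θ := 1.316) (κ := 2 - Real.sqrt 2) (by norm_num) (by linarith)
    (LL_log (by norm_num) (by norm_num)) kT_ge_all
  refine ⟨C, hC, fun T hT => (h T hT).trans ?_⟩
  apply mul_le_mul' _ le_rfl
  apply ENNReal.ofReal_le_ofReal
  apply mul_le_mul_of_nonneg_left _ hC.le
  have hT1 : (1 : ℝ) ≤ T := by exact_mod_cast hT
  apply Real.rpow_le_rpow_of_exponent_le hT1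
  have h1 : (0.2401 : ℝ) ≤ 1 - 1 / 1.316 := by norm_num
  nlinarith

end LP

end HexObs
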