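import Pool.Agent.HexLoop.S2
import Pool.Agent.HexLoop.KInf
import Pool.Agent.HexLoop.KTle

/-!
SD12d: the mean length of the bridges of height T, with a general lower bound of the half width.
-/

set_option autoImplicit false

namespace HexObs

namespace LP

open Complex Finset ENNReal

private lemma S2_sqrt : (0.5857 : ℝ) ≤ 2 - Real.sqrt 2 := by
  have h : Real.sqrt 2 ≤ 1.4143 := Real.sqrt_le_iff.2 ⟨by norm_num, by norm_num⟩
  linarith

/-- the half width grows at least like T ^ (2 - √2). -/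
theorem kT_ge_all : ∃ c : ℝ, 0 < c ∧ ∀ T : ℕ, 1 ≤ T → c * (T : ℝ) ^ (2 - Real.sqrt 2) ≤ kT T := by
  obtain ⟨c, hc, h⟩ := kT_ge
  have hκ : 0 ≤ 2 - Real.sqrt 2 := by linarith [S2_sqrt]
  have hp := kT_one_pos
  refine ⟨min (kT 1) (c * (1 / 2) ^ (2 - Real.sqrt 2)), lt_min hp (by positivity), ?_⟩
  intro T hT
  rcases Nat.eq_or_lt_of_le hT with h1 | h1
  · subst h1
    simp only [Nat.cast_one, Real.one_rpow, mul_one]
    exact min_le_left _ _
  · obtain ⟨n, rfl⟩ : ∃ n, T = n + 1 := ⟨T - 1, by omega⟩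
    refine le_trans ?_ (h n (by omega))
    have hn : (1 : ℝ) ≤ n := by
      have : 1 ≤ n := by omega
      exact_mod_cast this
    calc min (kT 1) (c * (1 / 2) ^ (2 - Real.sqrt 2)) * ((n + 1 : ℕ) : ℝ) ^ (2 - Real.sqrt 2)
        ≤ (c * (1 / 2) ^ (2 - Real.sqrt 2)) * ((n + 1 : ℕ) : ℝ) ^ (2 - Real.sqrt 2) :=
          mul_le_mul_of_nonneg_right (min_le_right _ _) (by positivity)
      _ = c * ((1 / 2) * ((n + 1 : ℕ) : ℝ)) ^ (2 - Real.sqrt 2) := by
          rw [Real.mul_rpow (by norm_num) (by positivity)]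
          ring
      _ ≤ c * (n : ℝ) ^ (2 - Real.sqrt 2) := by
          apply mul_le_mul_of_nonneg_left _ hc.le
          apply Real.rpow_le_rpow (by positivity) _ hκ
          push_cast
          linarith

/-- (S2) with a general lower bound of the half width. -/
theorem S2_gen {θ κ : ℝ} (hθ : 1 < θ) (hκ : 0 < κ)
    (hL : ∃ C : ℝ, 0 < C ∧ ∀ m M : ℕ, Real.exp (θ * LL (PP m M) f0) ≤ C * (1 + kT (2 * m)))
    (hk : ∃ c : ℝ, 0 < c ∧ ∀ T : ℕ, 1 ≤ T → c * (T : ℝ) ^ κ ≤ kT T) :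
    ∃ C : ℝ, 0 < C ∧ ∀ T : ℕ, 1 ≤ T →
      ∑' t : Brd T, (t.1.length : ℝ≥0∞) * wE t.1 ≤
        ENNReal.ofReal (C * (T : ℝ) ^ (2 - (1 - 1 / θ) * κ)) * BT T := by
  obtain ⟨C1, hC1, h1⟩ := hL
  obtain ⟨c, hc, h3⟩ := hk
  obtain ⟨C2, hC2, h2⟩ := KT_le
  obtain ⟨C3, hC3, h4⟩ := kT_double
  refine S2_of hθ hκ hc h1 (C2 := C2) ?_ h4 h3
  intro T hT
  have h5 := h2 T hT
  have h6 : uu T = bT T := rfl
  unfold kT
  rw [← h6, ← mul_assoc]
  exact ENNReal.toReal_le_of_le_ofReal (by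
    have : 0 ≤ uu T := ENNReal.toReal_nonneg
    positivity) h5

end LP

end HexObs
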