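import Pool.Agent.HexLoop.Twist
import Pool.Agent.HexLoop.Bulk
import Pool.Agent.HexLoop.Lolli

/-!
SD, part A: basic facts on walks through a boundary vertex.
-/

set_option autoImplicit false

namespace HexObs

namespace LP

open Complex Finset

/-- the vertices of the word t (from p). -/
def vst (p : Pt × Pt) (t : List Bool) : Finset Pt := (Finset.Icc 1 t.length).image (fun i => vx p.1 p.2 t i)

/-- signed number of the crossings of the ray from f by the edges of the word before its visit to v (0 if it does not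
visit v). -/
noncomputable def NB (f v : Pt) (p : Pt × Pt) (t : List Bool) : ℤ := by
  classical
  exact ∑ i ∈ range (t.length + 1), if ∃ j, i < j ∧ j ≤ t.length ∧ vx p.1 p.2 t j = v then
    cr f (vx p.1 p.2 t i, dx p.2 t i) else 0

/-- the lollipop t has v on its loop. -/
def Lv (v : Pt) (p : Pt × Pt) (t : List Bool) : Prop :=
  ∃ j i, 1 ≤ j ∧ j ≤ i ∧ i ≤ t.length ∧ vx p.1 p.2 t j = tp p t ∧ vx p.1 p.2 t i = v

/-- rotation by 180 degrees around f. -/
def rt (f v : Pt) : Pt := f + f - v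

namespace SD

theorem mem_vst {p : Pt × Pt} {t : List Bool} {w : Pt} :
    w ∈ vst p t ↔ ∃ i, 1 ≤ i ∧ i ≤ t.length ∧ vx p.1 p.2 t i = w := by
  unfold vst
  rw [Finset.mem_image]
  constructor
  · rintro ⟨i, hi, h⟩
    rw [Finset.mem_Icc] at hi
    exact ⟨i, hi.1, hi.2, h⟩
  · rintro ⟨i, h1, h2, h⟩
    exact ⟨i, Finset.mem_Icc.2 ⟨h1, h2⟩, h⟩

theorem mem_bd {Ω : Finset Pt} {a : Pt × Pt} : a ∈ bd Ω ↔ a.1 + a.2 ∈ Ω ∧ De a ∧ a.1 ∉ Ω := by
  classical
  unfold bd
  rw [Finset.mem_filter, Finset.mem_image]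
  constructor
  · rintro ⟨⟨q, hq, rfl⟩, h2⟩
    rw [Finset.mem_product] at hq
    refine ⟨?_, h2⟩
    show q.1 - q.2 + q.2 ∈ Ω
    rw [sub_add_cancel]
    exact hq.1
  · rintro ⟨h1, h2⟩
    refine ⟨⟨(a.1 + a.2, a.2), ?_, ?_⟩, h2⟩
    · rw [Finset.mem_product]
      exact ⟨h1, h2.1.1⟩
    · show (a.1 + a.2 - a.2, a.2) = a
      rw [add_sub_cancel_right]

theorem mem_ex0 {Ω : Finset Pt} {p : Pt × Pt} {t : List Bool} : t ∈ ex0 Ω p ↔ Arr0 Ω p t ∧ tp p t ∉ Ω := by
  unfold ex0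
  rw [Finset.mem_filter, mem_arr0]

theorem wt_re (t : List Bool) : (wt t).re = Real.cos (wind t * (Real.pi / 8)) * xc ^ t.length := by
  unfold wt
  rw [← Complex.ofReal_pow, Complex.re_mul_ofReal, Complex.exp_ofReal_mul_I_re]

theorem wt_im (t : List Bool) : (wt t).im = Real.sin (wind t * (Real.pi / 8)) * xc ^ t.length := by
  unfold wt
  rw [← Complex.ofReal_pow, Complex.im_mul_ofReal, Complex.exp_ofReal_mul_I_im]

/-- walking back from a vertex of a walk that avoids E. -/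
theorem back_ins {E : Finset (Pt × Pt)} (hE : IsPoly E) {a : Pt × Pt} (ha : De a) {t : List Bool} {n : ℕ}
    (hV : ∀ i, i ≤ n → vx a.1 a.2 t i ∉ VE E) (h : Ins E (vx a.1 a.2 t n)) : Ins E a.1 := by
  have key : ∀ k, k ≤ n → Ins E (vx a.1 a.2 t (n - k)) := by
    intro k
    induction k with
    | zero => exact fun _ => h
    | succ k ih =>
      intro hk
      have h1 := ih (by omega)
      have e : n - k = n - (k + 1) + 1 := by omega
      rw [e] at h1
      exact (ins_adj hE (de_vx ha t (n - (k + 1))) (hV _ (by omega)) (by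
        have := hV (n - (k + 1) + 1) (by omega)
        exact this)).2 h1
  have h2 := key n le_rfl
  rw [Nat.sub_self] at h2
  exact h2

/-- a full domain minus a walk from outside is full. -/
theorem full_cut {Ω : Finset Pt} (hΩ : Full Ω) {a : Pt × Pt} (ha : De a) (h1 : a.1 ∉ Ω) (t : List Bool) :
    Full (Ω \ vst a t) := by
  refine ⟨fun v hv => hΩ.1 v (Finset.mem_sdiff.1 hv).1, ?_⟩
  intro E hE hVE v hv
  have hVΩ : VE E ⊆ Ω := fun w hw => (Finset.mem_sdiff.1 (hVE hw)).1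
  refine Finset.mem_sdiff.2 ⟨hΩ.2 E hE hVΩ v hv, ?_⟩
  intro hvt
  obtain ⟨n, hn1, hn2, rfl⟩ := mem_vst.1 hvt
  have h2 : Ins E a.1 := by
    refine back_ins hE ha ?_ hv
    intro i hi hVi
    rcases Nat.eq_zero_or_pos i with h0 | h0
    · rw [h0] at hVi
      exact h1 (hVΩ hVi)
    · exact (Finset.mem_sdiff.1 (hVE hVi)).2 (mem_vst.2 ⟨i, h0, by omega, rfl⟩)
  exact h1 (hΩ.2 E hE hVΩ _ h2)

/-- removing a boundary vertex. -/
theorem full_erase {Ω : Finset Pt} {v : Pt} (hΩ : Full (insert v Ω)) (hv : v ∉ Ω)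
    (hb : ∃ b ∈ bd (insert v Ω), b.1 + b.2 = v) : Full Ω := by
  obtain ⟨b, hb1, hb2⟩ := hb
  obtain ⟨_, hbd, hbn⟩ := mem_bd.1 hb1
  refine ⟨fun w hw => hΩ.1 w (Finset.mem_insert_of_mem hw), ?_⟩
  intro E hE hVE w hw
  have hVE' : VE E ⊆ insert v Ω := fun z hz => Finset.mem_insert_of_mem (hVE hz)
  rcases Finset.mem_insert.1 (hΩ.2 E hE hVE' w hw) with h1 | h1
  · exfalso
    rw [h1] at hw
    have h2 : Ins E b.1 := (ins_adj hE hbd (fun h => hbn (hVE' h)) (fun h => hv (hVE (by rwa [hb2] at h)))).2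
      (by rw [hb2]; exact hw)
    exact hbn (hΩ.2 E hE hVE' _ h2)
  · exact h1

theorem bd_of_bd {Ω : Finset Pt} {v : Pt} {a : Pt × Pt} (ha : a ∈ bd Ω) (hav : a.1 ≠ v) : a ∈ bd (insert v Ω) := by
  obtain ⟨h1, h2, h3⟩ := mem_bd.1 ha
  refine mem_bd.2 ⟨Finset.mem_insert_of_mem h1, h2, fun h => ?_⟩
  rcases Finset.mem_insert.1 h with h4 | h4
  · exact hav h4
  · exact h3 h4

theorem NB_eq {f v : Pt} {Ω : Finset Pt} {p : Pt × Pt} {t : List Bool} (h : Arr0 Ω p t) {k : ℕ} (h1 : 1 ≤ k)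
    (h2 : k ≤ t.length) (h3 : vx p.1 p.2 t k = v) :
    NB f v p t = ∑ i ∈ range k, cr f (vx p.1 p.2 t i, dx p.2 t i) := by
  classical
  unfold NB
  have e : t.length + 1 = k + (t.length + 1 - k) := by omega
  rw [e, Finset.sum_range_add]
  have e1 : ∑ x ∈ range k, (if ∃ j, x < j ∧ j ≤ t.length ∧ vx p.1 p.2 t j = v then
      cr f (vx p.1 p.2 t x, dx p.2 t x) else 0) = ∑ i ∈ range k, cr f (vx p.1 p.2 t i, dx p.2 t i) := by
    apply Finset.sum_congr rfl
    intro i hi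
    rw [Finset.mem_range] at hi
    rw [if_pos ⟨k, hi, h2, h3⟩]
  have e2 : ∑ x ∈ range (t.length + 1 - k), (if ∃ j, k + x < j ∧ j ≤ t.length ∧ vx p.1 p.2 t j = v then
      cr f (vx p.1 p.2 t (k + x), dx p.2 t (k + x)) else 0) = 0 := by
    apply Finset.sum_eq_zero
    intro i _
    rw [if_neg]
    rintro ⟨j, hj1, hj2, hj3⟩
    exact h.inj k j h1 (by omega) hj2 (h3.trans hj3.symm)
  rw [e1, e2, add_zero]

theorem NB_zero {f v : Pt} {p : Pt × Pt} {t : List Bool} (h : v ∉ vst p t) : NB f v p t = 0 := by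
  classical
  unfold NB
  apply Finset.sum_eq_zero
  intro i _
  rw [if_neg]
  rintro ⟨j, hj1, hj2, hj3⟩
  exact h (mem_vst.2 ⟨j, by omega, hj2, hj3⟩)

theorem cr_rv0 (f : Pt) {p : Pt × Pt} (hp : De p) : cr f (rv p) = -cr f p := cr_rv hp f

theorem arr_rev {Ω : Finset Pt} {a : Pt × Pt} {t : List Bool} (h : Arr0 Ω a t) :
    Arr0 Ω (rv (le a t)) (rev t) := by
  constructor
  · intro i h1 h2
    rw [rev_length] at h2
    rw [vx_rev0 t i (by omega)]
    exact h.mem _ (by omega) (by omega)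
  · intro i k h1 h2 h3
    rw [rev_length] at h3
    rw [vx_rev0 t i (by omega), vx_rev0 t k (by omega)]
    exact (h.inj _ _ (by omega) (by omega) (by omega)).symm

theorem NB_rev {f v : Pt} {Ω : Finset Pt} {p : Pt × Pt} (hp : De p) {t : List Bool} (h : Arr0 Ω p t)
    (hv : v ∈ vst p t) : NN f p t = NB f v p t - NB f v (rv (le p t)) (rev t) := by
  obtain ⟨k, h1, h2, h3⟩ := mem_vst.1 hv
  have e1 := NB_eq (f := f) h h1 h2 h3
  have hr := arr_rev h
  have hk : vx (rv (le p t)).1 (rv (le p t)).2 (rev t) (t.length + 1 - k) = v := by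
    rw [vx_rev0 t _ (by omega)]
    have : t.length + 1 - (t.length + 1 - k) = k := by omega
    rw [this, h3]
  have e2 := NB_eq (f := f) hr (k := t.length + 1 - k) (by omega) (by rw [rev_length]; omega) hk
  rw [e1, e2]
  unfold NN
  have e3 : t.length + 1 = k + (t.length + 1 - k) := by omega
  conv_lhs => rw [e3, Finset.sum_range_add]
  rw [sub_eq_add_neg]
  congr 1
  rw [← Finset.sum_neg_distrib, ← Finset.sum_range_reflect]
  apply Finset.sum_congr rfl
  intro i hi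
  rw [Finset.mem_range] at hi
  rw [vx_rev0 t i (by omega), dx_rev0 t i (by omega)]
  have e4 : k + (t.length + 1 - k - 1 - i) = t.length - i := by omega
  have e5 : t.length + 1 - i = t.length - i + 1 := by omega
  rw [e4, e5]
  have e6 := cr_rv0 f (de_vx hp t (t.length - i))
  have e7 : rv (vx p.1 p.2 t (t.length - i), dx p.2 t (t.length - i)) =
      (vx p.1 p.2 t (t.length - i + 1), -dx p.2 t (t.length - i)) := rfl
  rw [← e7, e6, neg_neg]

end SD

end LP

end HexObs
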