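import Pool.Agent.HexLoop.SD1a

/-!
SD, part A: the extensions of the walks that arrive at a boundary vertex.
-/

set_option autoImplicit false

namespace HexObs

namespace LP

open Complex Finset

namespace SD

theorem vx_app (p : Pt × Pt) (g m : List Bool) (k : ℕ) :
    vx p.1 p.2 (g ++ m) (g.length + k) = vx (le p g).1 (le p g).2 m k ∧
      dx p.2 (g ++ m) (g.length + k) = dx (le p g).2 m k := by
  have e : (fun i => tf (g ++ m) (g.length + i)) = tf m := by
    funext i
    exact tf_append_right i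
  have e1 : vx p.1 p.2 (g ++ m) g.length = (le p g).1 := vx_append (by omega)
  have e2 : dx p.2 (g ++ m) g.length = (le p g).2 := dx_append le_rfl
  constructor
  · have h := vs_shift p.1 p.2 (tf (g ++ m)) g.length k
    rw [e] at h
    unfold vx at e1 ⊢
    unfold dx at e2
    rw [h, e1, e2]
  · have h := ds_shift p.2 (tf (g ++ m)) g.length k
    rw [e] at h
    unfold dx at e2 ⊢
    rw [h, e2]

theorem tp_app (p : Pt × Pt) (g m : List Bool) : tp p (g ++ m) = tp (le p g) m := by
  have h := (vx_app p g m (m.length + 1)).1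
  have e : (g ++ m).length + 1 = g.length + (m.length + 1) := by
    rw [List.length_append]
    omega
  unfold tp tip
  rw [e]
  exact h

theorem wt_app (g m : List Bool) : wt (g ++ m) = wt g * wt m := by
  unfold wt
  rw [wind_append, List.length_append, pow_add]
  have e : (((wind g + wind m : ℤ) : ℝ) * (Real.pi / 8) : ℝ) = (wind g : ℝ) * (Real.pi / 8) + (wind m : ℝ) * (Real.pi / 8) := by
    push_cast
    ring
  rw [e, Complex.ofReal_add, add_mul, Complex.exp_add]
  ring

lemma dir3 : ∀ d1 ∈ dirs, ∀ d2 ∈ dirs, ∀ d3 ∈ dirs, ∀ d4 ∈ dirs, cl d1 = cl d4 → cl d2 = cl d4 → cl d3 = cl d4 →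
    d1 ≠ d2 → d1 ≠ d3 → d2 ≠ d3 → d4 = d1 ∨ d4 = d2 ∨ d4 = d3 := by
  decide +kernel

lemma dir_cl : ∀ d ∈ dirs, cl d = 1 ∨ cl d = 2 := by decide

lemma de_cl {v d : Pt} (h : De (v, d)) : (cl v = 0 ∧ cl d = 2) ∨ (cl v = 2 ∧ cl d = 1) := by
  obtain ⟨h1, h2, h3⟩ := h
  unfold Vt at h2 h3
  rw [cl_add] at h3
  simp only at h1 h2 h3
  rcases dir_cl d h1 with h | h
  · right
    refine ⟨?_, h⟩
    rw [h] at h3
    revert h2 h3
    generalize cl v = z
    revert z
    decide
  · left
    refine ⟨?_, h⟩
    rw [h] at h3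
    revert h2 h3
    generalize cl v = z
    revert z
    decide

lemma de_cl2 {v d e : Pt} (h : De (v, d)) (h' : De (v, e)) : cl d = cl e := by
  rcases de_cl h with ⟨h1, h2⟩ | ⟨h1, h2⟩ <;> rcases de_cl h' with ⟨h3, h4⟩ | ⟨h3, h4⟩
  · rw [h2, h4]
  · rw [h1] at h3
    exact absurd h3 (by decide)
  · rw [h1] at h3
    exact absurd h3 (by decide)
  · rw [h2, h4]

lemma de_back {p : Pt × Pt} (h : De p) : De (p.1 + p.2, -p.2) := by
  obtain ⟨h1, h2, h3⟩ := h
  refine ⟨neg_mem_dirs h1, h3, ?_⟩
  show Vt (p.1 + p.2 + -p.2)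
  rw [add_neg_cancel_right]
  exact h2

/-- a walk does not come back to a boundary vertex. -/
theorem no_back {Ω : Finset Pt} {a : Pt × Pt} (ha : De a) {t : List Bool} (ht : Arr0 Ω a t) {v : Pt}
    (hb : ∃ b ∈ bd Ω, b.1 + b.2 = v) {k : ℕ} (h2 : 2 ≤ k) (hk : k ≤ t.length) (hv : vx a.1 a.2 t k = v) :
    tp a t ≠ v := by
  intro htp
  obtain ⟨b, hb1, hb2⟩ := hb
  obtain ⟨_, hbd, hbn⟩ := mem_bd.1 hb1
  obtain ⟨k, rfl⟩ : ∃ j, k = j + 1 := ⟨k - 1, by omega⟩
  have hd := fun i => dx_mem ha.1 t i
  have s1 : vx a.1 a.2 t (k + 1) = vx a.1 a.2 t k + dx a.2 t k := vx_succ _ _ _ _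
  have s2 : vx a.1 a.2 t (k + 2) = vx a.1 a.2 t (k + 1) + dx a.2 t (k + 1) := vx_succ _ _ _ _
  have s3 : tp a t = vx a.1 a.2 t t.length + dx a.2 t t.length := vx_succ _ _ _ _
  have hlt : k + 1 < t.length := by
    rcases Nat.lt_or_ge (k + 1) t.length with h | h
    · exact h
    · exfalso
      have e : t.length = k + 1 := by omega
      rw [e, hv, htp] at s3
      have h0 : dx a.2 t (k + 1) = 0 := by
        have := congrArg (fun z => z - v) s3
        simpa using this.symm
      have := hd (k + 1)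
      rw [h0] at this
      revert this
      decide
  have hne : t.length ≠ k + 2 := by
    intro e
    have s4 : dx a.2 t (k + 1 + 1) = turn (tf t (k + 1)) (dx a.2 t (k + 1)) := dx_succ _ _ _
    rw [e, s2, hv, htp, s4] at s3
    have h1 : ∀ d ∈ dirs, ∀ c : Bool, d + turn c d ≠ 0 := by decide
    apply h1 _ (hd (k + 1)) (tf t (k + 1))
    have := congrArg (fun z => z - v) s3
    simp only [sub_self] at this
    rw [add_assoc, add_sub_cancel_left] at this
    exact this.symm
  have n1 : vx a.1 a.2 t k ≠ vx a.1 a.2 t (k + 2) := ht.inj k (k + 2) (by omega) (by omega) (by omega)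
  have n2 : vx a.1 a.2 t k ≠ vx a.1 a.2 t t.length := ht.inj k t.length (by omega) (by omega) le_rfl
  have n3 : vx a.1 a.2 t (k + 2) ≠ vx a.1 a.2 t t.length := ht.inj (k + 2) t.length (by omega) (by omega) le_rfl
  have m1 := ht.mem k (by omega) (by omega)
  have m2 := ht.mem (k + 2) (by omega) (by omega)
  have m3 := ht.mem t.length (by omega) le_rfl
  have d1 : De (v, -dx a.2 t k) := by
    have := de_back (de_vx ha t k)
    simp only at this
    rwa [← s1, hv] at this
  have d2 : De (v, dx a.2 t (k + 1)) := by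
    have := de_vx ha t (k + 1)
    rwa [hv] at this
  have d3 : De (v, -dx a.2 t t.length) := by
    have := de_back (de_vx ha t t.length)
    simp only at this
    rwa [← s3, htp] at this
  have d4 : De (v, -b.2) := by
    have := de_back hbd
    rwa [hb2] at this
  have w1 : vx a.1 a.2 t k = v + -dx a.2 t k := by
    rw [← hv, s1]
    abel
  have w2 : vx a.1 a.2 t (k + 2) = v + dx a.2 t (k + 1) := by
    rw [s2, hv]
  have w3 : vx a.1 a.2 t t.length = v + -dx a.2 t t.length := by
    rw [← htp, s3]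
    abel
  have w4 : b.1 = v + -b.2 := by
    rw [← hb2]
    abel
  rw [w1, w2] at n1
  rw [w1, w3] at n2
  rw [w2, w3] at n3
  rw [w4] at hbn
  rw [w1] at m1
  rw [w2] at m2
  rw [w3] at m3
  rcases dir3 _ (neg_mem_dirs (hd k)) _ (hd (k + 1)) _ (neg_mem_dirs (hd t.length)) _ d4.1 (de_cl2 d1 d4)
    (de_cl2 d2 d4) (de_cl2 d3 d4) (fun h => n1 (by rw [h])) (fun h => n2 (by rw [h])) (fun h => n3 (by rw [h])) with
    h | h | h
  · have h' : -b.2 = -dx a.2 t k := h
    rw [h'] at hbn
    exact hbn m1
  · have h' : -b.2 = dx a.2 t (k + 1) := h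
    rw [h'] at hbn
    exact hbn m2
  · have h' : -b.2 = -dx a.2 t t.length := h
    rw [h'] at hbn
    exact hbn m3

open Classical in
/-- the extensions of the walks that arrive at the new vertex v. -/
theorem sd_ext {Ω : Finset Pt} {v f : Pt} (hΩ : Full (insert v Ω)) (hv : v ∉ Ω)
    (hb : ∃ b ∈ bd (insert v Ω), b.1 + b.2 = v) {a : Pt × Pt} (ha : a ∈ bd Ω) (hav : a.1 ≠ v) :
    ∑ g ∈ (ex0 Ω a).filter (fun g => tp a g = v), (NN f a g : ℂ) * wt g =
      ∑ t ∈ ex0 (insert v Ω) a, (NB f v a t : ℂ) * wt t +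
        ∑ t ∈ (lol (insert v Ω) a).filter (Lv v a), (NB f v a t : ℂ) * wt t := by
  obtain ⟨ha1, ha2, ha3⟩ := mem_bd.1 ha
  obtain ⟨_, _, hb3⟩ := mem_bd.1 (bd_of_bd ha hav)
  -- the vertices of g
  have hvg : ∀ g, Arr0 Ω a g → v ∉ vst a g := by
    intro g hg h
    obtain ⟨i, h1, h2, h3⟩ := mem_vst.1 h
    exact hv (by rw [← h3]; exact hg.mem i h1 h2)
  have hL : ∑ g ∈ (ex0 Ω a).filter (fun g => tp a g = v), (NN f a g : ℂ) * wt g =
      ∑ x ∈ ((ex0 Ω a).filter (fun g => tp a g = v)).sigma (fun g => ex0 (insert v Ω \ vst a g) (le a g)),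
        (NB f v a (x.1 ++ x.2) : ℂ) * wt (x.1 ++ x.2) := by
    rw [Finset.sum_sigma]
    apply Finset.sum_congr rfl
    intro g hg
    obtain ⟨hg1, hg2⟩ := Finset.mem_filter.1 hg
    obtain ⟨hg3, hg4⟩ := mem_ex0.1 hg1
    have hlen : 1 ≤ g.length := by
      by_contra hcon
      have h0 : g = [] := List.length_eq_zero_iff.1 (by omega)
      apply hg4
      rw [h0]
      exact ha1
    have hone : SS (insert v Ω \ vst a g) (le a g) = 1 := by
      refine start_one (full_cut hΩ ha2 hb3 g) (Finset.Subset.refl _) (de_vx ha2 g g.length) ?_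
      intro h
      exact (Finset.mem_sdiff.1 h).2 (mem_vst.2 ⟨g.length, hlen, le_rfl, rfl⟩)
    have h1 : ∀ m ∈ ex0 (insert v Ω \ vst a g) (le a g), (NB f v a (g ++ m) : ℂ) * wt (g ++ m) =
        (NN f a g : ℂ) * wt g * wt m := by
      intro m hm
      obtain ⟨hm1, hm2⟩ := mem_ex0.1 hm
      have hm0 : m ≠ [] := by
        rintro rfl
        apply hm2
        have : tp (le a g) [] = v := by
          rw [← hg2]
          rfl
        rw [this]
        exact Finset.mem_sdiff.2 ⟨Finset.mem_insert_self _ _, hvg g hg3⟩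
      have hml : 1 ≤ m.length := List.length_pos_iff.2 hm0
      have hNB : NB f v a (g ++ m) = NN f a g := by
        unfold NB NN
        have e : (g ++ m).length + 1 = g.length + 1 + m.length := by
          rw [List.length_append]
          omega
        rw [e, Finset.sum_range_add]
        have e1 : ∑ i ∈ range (g.length + 1), (if ∃ j, i < j ∧ j ≤ (g ++ m).length ∧ vx a.1 a.2 (g ++ m) j = v then
            cr f (vx a.1 a.2 (g ++ m) i, dx a.2 (g ++ m) i) else 0) =
            ∑ i ∈ range (g.length + 1), cr f (vx a.1 a.2 g i, dx a.2 g i) := by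
          apply Finset.sum_congr rfl
          intro i hi
          rw [Finset.mem_range] at hi
          rw [if_pos, vx_append (by omega), dx_append (by omega)]
          refine ⟨g.length + 1, hi, by rw [List.length_append]; omega, ?_⟩
          rw [vx_append (by omega)]
          exact hg2
        have e2 : ∑ i ∈ range m.length, (if ∃ j, g.length + 1 + i < j ∧ j ≤ (g ++ m).length ∧
            vx a.1 a.2 (g ++ m) j = v then
            cr f (vx a.1 a.2 (g ++ m) (g.length + 1 + i), dx a.2 (g ++ m) (g.length + 1 + i)) else 0) = 0 := by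
          apply Finset.sum_eq_zero
          intro i _
          rw [if_neg]
          rintro ⟨j, hj1, hj2, hj3⟩
          rw [List.length_append] at hj2
          obtain ⟨j', rfl⟩ : ∃ j', j = g.length + j' := ⟨j - g.length, by omega⟩
          rw [(vx_app a g m j').1] at hj3
          have h2 := hm1.inj 1 j' le_rfl (by omega) (by omega)
          apply h2
          rw [hj3, ← hg2]
          rfl
        rw [e1, e2, add_zero]
      rw [hNB, wt_app]
      ring
    rw [Finset.sum_congr rfl h1, ← Finset.mul_sum]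
    unfold SS at hone
    rw [hone, mul_one]
  -- the target
  have hR1 : ∑ t ∈ ex0 (insert v Ω) a, (NB f v a t : ℂ) * wt t =
      ∑ t ∈ (ex0 (insert v Ω) a).filter (fun t => v ∈ vst a t), (NB f v a t : ℂ) * wt t := by
    rw [Finset.sum_filter]
    apply Finset.sum_congr rfl
    intro t _
    split_ifs with h
    · rfl
    · rw [NB_zero h]
      simp
  have hdis : Disjoint ((ex0 (insert v Ω) a).filter (fun t => v ∈ vst a t)) ((lol (insert v Ω) a).filter (Lv v a)) := by
    rw [Finset.disjoint_left]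
    intro t h1 h2
    obtain ⟨h3, _⟩ := Finset.mem_filter.1 h1
    obtain ⟨h4, h5⟩ := Finset.mem_filter.1 h2
    obtain ⟨j, i, j1, j2, j3, j4, _⟩ := h5
    obtain ⟨h6, h7⟩ := mem_ex0.1 h3
    apply h7
    rw [← j4]
    exact h6.mem j j1 (by omega)
  have hmemR : ∀ t, t ∈ ((ex0 (insert v Ω) a).filter (fun t => v ∈ vst a t)) ∪ ((lol (insert v Ω) a).filter (Lv v a)) ↔
      Arr0 (insert v Ω) a t ∧ v ∈ vst a t ∧ (tp a t ∉ insert v Ω ∨ Lv v a t) := by
    intro t
    rw [Finset.mem_union, Finset.mem_filter, Finset.mem_filter, mem_ex0]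
    unfold lol
    rw [Finset.mem_filter, mem_arr0]
    constructor
    · rintro (⟨⟨h1, h2⟩, h3⟩ | ⟨⟨h1, _, _⟩, h3⟩)
      · exact ⟨h1, h3, Or.inl h2⟩
      · refine ⟨h1, ?_, Or.inr h3⟩
        obtain ⟨j, i, j1, j2, j3, _, j5⟩ := h3
        exact mem_vst.2 ⟨i, by omega, j3, j5⟩
    · rintro ⟨h1, h2, h3⟩
      rcases h3 with h3 | h3
      · exact Or.inl ⟨⟨h1, h3⟩, h2⟩
      · right
        refine ⟨⟨h1, ?_, ?_⟩, h3⟩
        · obtain ⟨j, i, j1, j2, j3, j4, _⟩ := h3
          exact ⟨j, j1, by omega, j4⟩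
        · intro h4
          obtain ⟨j, i, j1, j2, j3, _, _⟩ := h3
          have h5 := h1.mem t.length (by omega) le_rfl
          have h6 : vx a.1 a.2 t t.length = a.1 := congrArg Prod.fst h4
          rw [h6] at h5
          exact hb3 h5
  rw [hL, hR1, ← Finset.sum_union hdis]
  refine Finset.sum_bij (fun x _ => x.1 ++ x.2) ?_ ?_ ?_ (fun _ _ => rfl)
  -- the map lands in the target
  · rintro ⟨g, m⟩ hx
    rw [Finset.mem_sigma] at hx
    simp only at hx ⊢
    obtain ⟨hg, hm⟩ := hx
    obtain ⟨hg1, hg2⟩ := Finset.mem_filter.1 hg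
    obtain ⟨hg3, hg4⟩ := mem_ex0.1 hg1
    obtain ⟨hm1, hm2⟩ := mem_ex0.1 hm
    have hm0 : m ≠ [] := by
      rintro rfl
      apply hm2
      have : tp (le a g) [] = v := by
        rw [← hg2]
        rfl
      rw [this]
      exact Finset.mem_sdiff.2 ⟨Finset.mem_insert_self _ _, hvg g hg3⟩
    have hml : 1 ≤ m.length := List.length_pos_iff.2 hm0
    have hvat : vx a.1 a.2 (g ++ m) (g.length + 1) = v := by
      rw [vx_append (by omega)]
      exact hg2
    rw [hmemR]
    refine ⟨⟨?_, ?_⟩, ?_, ?_⟩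
    · intro i h1 h2
      rw [List.length_append] at h2
      rcases Nat.lt_or_ge g.length i with h3 | h3
      · obtain ⟨i', rfl⟩ : ∃ i', i = g.length + i' := ⟨i - g.length, by omega⟩
        rw [(vx_app a g m i').1]
        exact (Finset.mem_sdiff.1 (hm1.mem i' (by omega) (by omega))).1
      · rw [vx_append (by omega)]
        exact Finset.mem_insert_of_mem (hg3.mem i h1 h3)
    · intro i k h1 h2 h3
      rw [List.length_append] at h3
      rcases Nat.lt_or_ge g.length k with h4 | h4
      · obtain ⟨k', rfl⟩ : ∃ k', k = g.length + k' := ⟨k - g.length, by omega⟩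
        rw [(vx_app a g m k').1]
        rcases Nat.lt_or_ge g.length i with h5 | h5
        · obtain ⟨i', rfl⟩ : ∃ i', i = g.length + i' := ⟨i - g.length, by omega⟩
          rw [(vx_app a g m i').1]
          exact hm1.inj i' k' (by omega) (by omega) (by omega)
        · rw [vx_append (by omega)]
          intro h6
          exact (Finset.mem_sdiff.1 (hm1.mem k' (by omega) (by omega))).2 (mem_vst.2 ⟨i, h1, h5, h6⟩)
      · rw [vx_append (by omega), vx_append (by omega)]
        exact hg3.inj i k h1 h2 h4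
    · exact mem_vst.2 ⟨g.length + 1, by omega, by rw [List.length_append]; omega, hvat⟩
    · rw [tp_app]
      by_cases h1 : tp (le a g) m ∈ insert v Ω
      · right
        by_cases h2 : tp (le a g) m ∈ vst a g
        · obtain ⟨j, j1, j2, j3⟩ := mem_vst.1 h2
          refine ⟨j, g.length + 1, j1, by omega, by rw [List.length_append]; omega, ?_, hvat⟩
          rw [tp_app, vx_append (by omega)]
          exact j3
        · exact absurd (Finset.mem_sdiff.2 ⟨h1, h2⟩) hm2
      · exact Or.inl h1
  -- injectivity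
  · rintro ⟨g, m⟩ hx ⟨g', m'⟩ hx' h
    rw [Finset.mem_sigma] at hx hx'
    simp only at hx hx' h
    have key : ∀ g m g' m', g ∈ (ex0 Ω a).filter (fun g => tp a g = v) → m ∈ ex0 (insert v Ω \ vst a g) (le a g) →
        g' ∈ (ex0 Ω a).filter (fun g => tp a g = v) → g ++ m = g' ++ m' → g'.length ≤ g.length := by
      intro g m g' m' hg hm hg' h
      obtain ⟨hg1, hg2⟩ := Finset.mem_filter.1 hg
      obtain ⟨hg1', _⟩ := Finset.mem_filter.1 hg'
      obtain ⟨hg3', _⟩ := mem_ex0.1 hg1'
      by_contra hcon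
      have e1 : vx a.1 a.2 (g ++ m) (g.length + 1) = v := by
        rw [vx_append (by omega)]
        exact hg2
      rw [h, vx_append (by omega)] at e1
      apply hv
      rw [← e1]
      exact hg3'.mem _ (by omega) (by omega)
    have hl : g.length = g'.length :=
      le_antisymm (key g' m' g m hx'.1 hx'.2 hx.1 h.symm) (key g m g' m' hx.1 hx.2 hx'.1 h)
    obtain ⟨e1, e2⟩ := List.append_inj h hl
    rw [e1, e2]
  -- surjectivity
  · intro t ht
    rw [hmemR] at ht
    obtain ⟨h1, h2, h3⟩ := ht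
    obtain ⟨k, k1, k2, k3⟩ := mem_vst.1 h2
    have hk2 : 2 ≤ k := by
      rcases Nat.lt_or_ge k 2 with h | h
      · exfalso
        have : k = 1 := by omega
        rw [this] at k3
        apply hv
        rw [← k3]
        exact ha1
      · exact h
    have hg : (t.take (k - 1)).length = k - 1 := by
      rw [List.length_take]
      omega
    have hgm : t.take (k - 1) ++ t.drop (k - 1) = t := List.take_append_drop _ _
    have hml : (t.drop (k - 1)).length = t.length - (k - 1) := List.length_drop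
    obtain ⟨g, hgd⟩ : ∃ g, g = t.take (k - 1) := ⟨_, rfl⟩
    obtain ⟨m, hmd⟩ : ∃ m, m = t.drop (k - 1) := ⟨_, rfl⟩
    rw [← hgd] at hg hgm
    rw [← hmd] at hgm hml
    have eg : ∀ i, i ≤ k → vx a.1 a.2 t i = vx a.1 a.2 g i := by
      intro i hi
      rw [← hgm, vx_append (by omega)]
    have em : ∀ i, vx a.1 a.2 t (k - 1 + i) = vx (le a g).1 (le a g).2 m i := by
      intro i
      have h := (vx_app a g m i).1
      rw [hg, hgm] at h
      exact h
    have etp : tp a t = tp (le a g) m := by
      rw [← tp_app, hgm]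
    have hgv : tp a g = v := by
      have h := eg k le_rfl
      rw [k3] at h
      show vx a.1 a.2 g (g.length + 1) = v
      rw [hg, h]
      congr 1
      omega
    refine ⟨⟨g, m⟩, ?_, hgm⟩
    rw [Finset.mem_sigma]
    simp only
    refine ⟨?_, ?_⟩
    · rw [Finset.mem_filter, mem_ex0, hgv]
      refine ⟨⟨⟨?_, ?_⟩, hv⟩, rfl⟩
      · intro i i1 i2
        rw [← eg i (by omega)]
        rcases Finset.mem_insert.1 (h1.mem i i1 (by omega)) with h | h
        · exact absurd (h.trans k3.symm) (h1.inj i k i1 (by omega) k2)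
        · exact h
      · intro i j i1 i2 i3
        rw [← eg i (by omega), ← eg j (by omega)]
        exact h1.inj i j i1 i2 (by omega)
    · rw [mem_ex0]
      refine ⟨⟨?_, ?_⟩, ?_⟩
      · intro i i1 i2
        rw [← em i]
        refine Finset.mem_sdiff.2 ⟨h1.mem _ (by omega) (by omega), ?_⟩
        intro h
        obtain ⟨j, j1, j2, j3⟩ := mem_vst.1 h
        rw [← eg j (by omega)] at j3
        exact h1.inj j (k - 1 + i) j1 (by omega) (by omega) j3
      · intro i j i1 i2 i3
        rw [← em i, ← em j]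
        exact h1.inj _ _ (by omega) (by omega) (by omega)
      · rw [← etp]
        intro h
        obtain ⟨h4, h5⟩ := Finset.mem_sdiff.1 h
        rcases h3 with h3 | h3
        · exact h3 h4
        · obtain ⟨j, i, j1, j2, j3, j4, j5⟩ := h3
          have hik : i = k := by
            rcases lt_trichotomy i k with h6 | h6 | h6
            · exact absurd (j5.trans k3.symm) (h1.inj i k (by omega) h6 k2)
            · exact h6
            · exact absurd (k3.trans j5.symm) (h1.inj k i (by omega) h6 j3)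
          rcases Nat.lt_or_ge j k with h6 | h6
          · apply h5
            refine mem_vst.2 ⟨j, j1, by omega, ?_⟩
            rw [← eg j (by omega)]
            exact j4
          · have h7 : j = k := by omega
            rw [h7, k3] at j4
            exact no_back ha2 h1 hb hk2 k2 k3 j4.symm

end SD

end LP

end HexObs
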