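import Pool.Agent.HexLoop.SD1b

/-!
SD, part A: the lollipops with a given vertex on the loop.
-/

set_option autoImplicit false

namespace HexObs

namespace LP

open Complex Finset

namespace SD

lemma mfl {α : Type} {p : α → Prop} {d : DecidablePred p} {s : Finset α} {a : α} :
    a ∈ @Finset.filter α p d s ↔ a ∈ s ∧ p a := Finset.mem_filter

lemma mem_stk {Ω : Finset Pt} {E : Finset (Pt × Pt)} {p : Pt × Pt} {s : List Bool} : s ∈ stk Ω E p ↔
    Arr0 Ω p s ∧ (∀ i, 1 ≤ i → i ≤ s.length → vx p.1 p.2 s i ∉ VE E) ∧ tp p s ∈ VE E ∧ le p s ∉ E ∧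
      rv (le p s) ∉ E := by
  unfold stk
  constructor
  · intro h
    obtain ⟨h1, h2⟩ := mfl.1 h
    exact ⟨mem_arr0.1 h1, h2⟩
  · rintro ⟨h1, h2⟩
    exact mfl.2 ⟨mem_arr0.2 h1, h2⟩

lemma mem_lol {Ω : Finset Pt} {p : Pt × Pt} {t : List Bool} : t ∈ lol Ω p ↔
    Arr0 Ω p t ∧ (∃ j, 1 ≤ j ∧ j ≤ t.length ∧ vx p.1 p.2 t j = tp p t) ∧ le p t ≠ p := by
  unfold lol
  constructor
  · intro h
    obtain ⟨h1, h2⟩ := mfl.1 h
    exact ⟨mem_arr0.1 h1, h2⟩
  · rintro ⟨h1, h2⟩
    exact mfl.2 ⟨mem_arr0.2 h1, h2⟩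

/-- the initial part of a lollipop. -/
theorem lol_pre {p : Pt × Pt} {s t : List Bool} (h : t.take s.length = s) :
    (∀ i, i ≤ s.length + 1 → vx p.1 p.2 t i = vx p.1 p.2 s i) ∧ ∀ i, i ≤ s.length → dx p.2 t i = dx p.2 s i := by
  have e : t = s ++ t.drop s.length := by
    conv_lhs => rw [← List.take_append_drop s.length t, h]
  constructor
  · intro i hi
    rw [e]
    exact vx_append hi
  · intro i hi
    rw [e]
    exact dx_append hi

/-- the lollipop belongs to the domain. -/
theorem lol_arr {Ω : Finset Pt} {E : Finset (Pt × Pt)} {p : Pt × Pt} {s t : List Bool} (hp : De p)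
    (hE : E ∈ polys Ω) (hs : s ∈ stk Ω E p) (ht : IsLol E p s t) : Arr0 Ω p t := by
  obtain ⟨t', h1, h2⟩ := lol_join hp hE hs
  rw [lol_unique hp (mem_polys.1 hE).1 ht h2]
  exact (mem_lol.1 h1).1

/-- the loop in the other orientation. -/
theorem lol_back {E : Finset (Pt × Pt)} {p : Pt × Pt} {s t t' : List Bool} (hE : IsPoly E)
    (ht : IsLol E p s t) (ht' : IsLol (rE E) p s t') : ∀ j, j ≤ E.card →
      vx p.1 p.2 t' (s.length + 1 + j) = vx p.1 p.2 t (t.length + 1 - j) ∧
      (j < E.card → (vx p.1 p.2 t' (s.length + 1 + j), dx p.2 t' (s.length + 1 + j)) =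
        rv (vx p.1 p.2 t (t.length - j), dx p.2 t (t.length - j))) := by
  obtain ⟨a1, a2, a3, a4⟩ := ht
  obtain ⟨b1, b2, b3, b4⟩ := ht'
  rw [card_rE] at b1
  have hE' := isPoly_rE hE
  have two : ∀ j, j ≤ E.card → vx p.1 p.2 t' (s.length + 1 + j) = vx p.1 p.2 t (t.length + 1 - j) →
      (j < E.card → (vx p.1 p.2 t' (s.length + 1 + j), dx p.2 t' (s.length + 1 + j)) =
        rv (vx p.1 p.2 t (t.length - j), dx p.2 t (t.length - j))) := by
    intro j _ h1 h2
    have m1 : (vx p.1 p.2 t' (s.length + 1 + j), dx p.2 t' (s.length + 1 + j)) ∈ rE E := by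
      rw [b3]
      exact Finset.mem_image.2 ⟨s.length + 1 + j, Finset.mem_Icc.2 ⟨by omega, by omega⟩, rfl⟩
    have m2 : (vx p.1 p.2 t (t.length - j), dx p.2 t (t.length - j)) ∈ E := by
      rw [a3]
      exact Finset.mem_image.2 ⟨t.length - j, Finset.mem_Icc.2 ⟨by omega, by omega⟩, rfl⟩
    have m3 : rv (vx p.1 p.2 t (t.length - j), dx p.2 t (t.length - j)) ∈ rE E := Finset.mem_image_of_mem _ m2
    have e1 : (rv (vx p.1 p.2 t (t.length - j), dx p.2 t (t.length - j))).1 = vx p.1 p.2 t (t.length + 1 - j) := by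
      show vx p.1 p.2 t (t.length - j) + dx p.2 t (t.length - j) = _
      have : t.length + 1 - j = t.length - j + 1 := by omega
      rw [this, vx_succ]
    have e2 : rv (vx p.1 p.2 t (t.length - j), dx p.2 t (t.length - j)) =
        (vx p.1 p.2 t' (s.length + 1 + j), -dx p.2 t (t.length - j)) := Prod.ext (e1.trans h1.symm) rfl
    rw [e2] at m3
    rw [e2, isPoly_fun hE' m1 m3]
  intro j
  induction j with
  | zero =>
    intro _
    have h1 : vx p.1 p.2 t' (s.length + 1 + 0) = vx p.1 p.2 t (t.length + 1 - 0) := by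
      rw [add_zero, Nat.sub_zero]
      have e := (lol_pre (p := p) a2).1 (s.length + 1) le_rfl
      have e' := (lol_pre (p := p) b2).1 (s.length + 1) le_rfl
      rw [e', ← e, a4]
      rfl
    exact ⟨h1, two 0 (by omega) h1⟩
  | succ j ih =>
    intro hj
    obtain ⟨h1, h2⟩ := ih (by omega)
    have h3 := h2 (by omega)
    have h4 : vx p.1 p.2 t' (s.length + 1 + (j + 1)) = vx p.1 p.2 t (t.length + 1 - (j + 1)) := by
      have e1 : s.length + 1 + (j + 1) = s.length + 1 + j + 1 := by omega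
      have e2 : t.length + 1 - (j + 1) = t.length - j := by omega
      rw [e1, e2, vx_succ]
      have e3 := congrArg Prod.fst h3
      have e4 := congrArg Prod.snd h3
      simp only [rv] at e3 e4
      rw [e3, e4]
      abel
    exact ⟨h4, two _ (by omega) h4⟩

/-- the lollipops with the two orientations of the loop. -/
theorem lol_NB {Ω : Finset Pt} {E : Finset (Pt × Pt)} {p : Pt × Pt} {s t t' : List Bool} (hp : De p)
    (hE : E ∈ polys Ω) (hs : s ∈ stk Ω E p) (ht : IsLol E p s t) (ht' : IsLol (rE E) p s t') {f v : Pt}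
    (hv : v ∈ VE E) (hsv : tp p s ≠ v) : NB f v p t - NB f v p t' = Nw E f := by
  have hP := (mem_polys.1 hE).1
  have hA := lol_arr hp hE hs ht
  have hA' := lol_arr hp (TW.rE_polys hE) (by rw [TW.stk_rE hE]; exact hs) ht'
  have hb := lol_back hP ht ht'
  obtain ⟨a1, a2, a3, a4⟩ := ht
  obtain ⟨b1, b2, b3, b4⟩ := ht'
  rw [card_rE] at b1
  have hv' := hv
  unfold VE at hv'
  rw [Finset.mem_image] at hv'
  obtain ⟨e, he, hev⟩ := hv'
  rw [a3, Finset.mem_image] at he
  obtain ⟨k, hk, hke⟩ := he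
  rw [Finset.mem_Icc] at hk
  have hkv : vx p.1 p.2 t k = v := by
    rw [← hev, ← hke]
  have hk1 : s.length + 2 ≤ k := by
    rcases Nat.lt_or_ge k (s.length + 2) with h | h
    · exfalso
      have h2 : k = s.length + 1 := by omega
      rw [h2, (lol_pre (p := p) a2).1 _ le_rfl] at hkv
      exact hsv hkv
    · exact h
  obtain ⟨j, hj⟩ : ∃ j, j = t.length + 1 - k := ⟨_, rfl⟩
  have hj1 : j ≤ E.card := by omega
  have hkv' : vx p.1 p.2 t' (s.length + 1 + j) = v := by
    rw [(hb j hj1).1, ← hkv]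
    congr 1
    omega
  rw [NB_eq hA (by omega) hk.2 hkv, NB_eq hA' (by omega) (by omega) hkv']
  have e1 : k = s.length + 1 + (k - (s.length + 1)) := by omega
  rw [e1, Finset.sum_range_add _ (s.length + 1) (k - (s.length + 1)), Finset.sum_range_add _ (s.length + 1) j]
  have e2 : ∑ x ∈ range (s.length + 1), cr f (vx p.1 p.2 t' x, dx p.2 t' x) =
      ∑ x ∈ range (s.length + 1), cr f (vx p.1 p.2 t x, dx p.2 t x) := by
    apply Finset.sum_congr rfl
    intro i hi
    rw [Finset.mem_range] at hi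
    rw [(lol_pre (p := p) a2).1 i (by omega), (lol_pre (p := p) a2).2 i (by omega),
      (lol_pre (p := p) b2).1 i (by omega), (lol_pre (p := p) b2).2 i (by omega)]
  rw [e2]
  -- the second part of the loop
  have e3 : ∑ x ∈ range j, cr f (vx p.1 p.2 t' (s.length + 1 + x), dx p.2 t' (s.length + 1 + x)) =
      -∑ x ∈ range j, cr f (vx p.1 p.2 t (k + x), dx p.2 t (k + x)) := by
    rw [← Finset.sum_neg_distrib, ← Finset.sum_range_reflect]
    apply Finset.sum_congr rfl
    intro i hi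
    rw [Finset.mem_range] at hi
    rw [(hb (j - 1 - i) (by omega)).2 (by omega), cr_rv (de_vx hp t _)]
    have e4 : t.length - (j - 1 - i) = k + i := by omega
    rw [e4]
  rw [e3]
  -- the sum over E
  have hinj : Set.InjOn (fun i => (vx p.1 p.2 t i, dx p.2 t i)) (Finset.Icc (s.length + 1) t.length : Finset ℕ) := by
    apply Finset.card_image_iff.1
    rw [← a3, Nat.card_Icc]
    omega
  have e4 : Nw E f = ∑ i ∈ Finset.Icc (s.length + 1) t.length, cr f (vx p.1 p.2 t i, dx p.2 t i) := by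
    unfold Nw
    conv_lhs => rw [a3]
    exact Finset.sum_image hinj
  have e5 : Finset.Icc (s.length + 1) t.length = Finset.Ico (s.length + 1) (t.length + 1) := by
    ext i
    simp only [Finset.mem_Icc, Finset.mem_Ico]
    omega
  rw [e4, e5, Finset.sum_Ico_eq_sum_range]
  have e6 : t.length + 1 - (s.length + 1) = (k - (s.length + 1)) + j := by omega
  rw [e6, Finset.sum_range_add _ (k - (s.length + 1)) j]
  have e7 : ∑ x ∈ range j, cr f (vx p.1 p.2 t (s.length + 1 + (k - (s.length + 1) + x)),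
      dx p.2 t (s.length + 1 + (k - (s.length + 1) + x))) =
      ∑ x ∈ range j, cr f (vx p.1 p.2 t (k + x), dx p.2 t (k + x)) := by
    apply Finset.sum_congr rfl
    intro i _
    have e8 : s.length + 1 + (k - (s.length + 1) + i) = k + i := by omega
    rw [e8]
  rw [e7]
  ring

/-- the sticks do not end at a boundary vertex of the loop. -/
theorem stk_ne {Ω : Finset Pt} {E : Finset (Pt × Pt)} (hE : E ∈ polys Ω) {v : Pt} (hv : v ∈ VE E)
    (hb : ∃ b ∈ bd Ω, b.1 + b.2 = v) {a : Pt × Pt} (ha : De a) (hav : a.1 + a.2 ≠ v) {s : List Bool}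
    (hs : s ∈ stk Ω E a) : tp a s ≠ v := by
  intro h
  obtain ⟨hP, hV⟩ := mem_polys.1 hE
  obtain ⟨s1, s2, s3, s4, s5⟩ := mem_stk.1 hs
  have hl : 1 ≤ s.length := by
    rcases Nat.eq_zero_or_pos s.length with h0 | h0
    · exfalso
      apply hav
      rw [← h, List.length_eq_zero_iff.1 h0]
      rfl
    · exact h0
  obtain ⟨b, hb1, hb2⟩ := hb
  obtain ⟨_, hbd, hbn⟩ := mem_bd.1 hb1
  obtain ⟨d, c, h1, h2⟩ := isPoly_prev hP hv
  have hd := isPoly_de hP h1
  have hd' := isPoly_de hP h2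
  have e1 : De (v, -d) := by
    have := de_back hd
    simp only at this
    rwa [sub_add_cancel] at this
  have e3 : De (v, -dx a.2 s s.length) := by
    have := de_back (de_vx ha s s.length)
    simp only at this
    have h' : vx a.1 a.2 s s.length + dx a.2 s s.length = v := h
    rwa [h'] at this
  have e4 : De (v, -b.2) := by
    have := de_back hbd
    rwa [hb2] at this
  have m1 : v + -d ∈ VE E := by
    rw [← sub_eq_add_neg]
    exact Finset.mem_image.2 ⟨_, h1, rfl⟩
  have m2 : v + turn c d ∈ VE E := by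
    obtain ⟨c', h3⟩ := isPoly_next hP h2
    exact Finset.mem_image.2 ⟨_, h3, rfl⟩
  have w3 : vx a.1 a.2 s s.length = v + -dx a.2 s s.length := by
    have h' : vx a.1 a.2 s s.length + dx a.2 s s.length = v := h
    rw [← h']
    abel
  have w4 : b.1 = v + -b.2 := by
    rw [← hb2]
    abel
  have m3 := s2 s.length hl le_rfl
  have m3' := s1.mem s.length hl le_rfl
  rw [w3] at m3 m3'
  rw [w4] at hbn
  have hne : ∀ d ∈ dirs, ∀ c : Bool, -d ≠ turn c d := by decide
  rcases dir3 (-d) e1.1 (turn c d) hd'.1 (-dx a.2 s s.length) e3.1 (-b.2) e4.1 (de_cl2 e1 e4) (de_cl2 hd' e4)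
    (de_cl2 e3 e4) (hne d hd.1 c) (fun h => m3 (by rw [← h]; exact m1)) (fun h => m3 (by rw [← h]; exact m2)) with
    h | h | h
  · rw [h] at hbn
    exact hbn (hV m1)
  · rw [h] at hbn
    exact hbn (hV m2)
  · rw [h] at hbn
    exact hbn m3'

open Classical in
/-- the sum over the lollipops with v on the loop. -/
theorem sd_lol {Ω : Finset Pt} (hΩ : Full Ω) {a : Pt × Pt} (ha : De a) (h1 : a.1 ∉ Ω) {f : Pt} (hf : Fc f) {v : Pt}
    (hb : ∃ b ∈ bd Ω, b.1 + b.2 = v) (hav : a.1 + a.2 ≠ v) :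
    2 * ∑ t ∈ (lol Ω a).filter (Lv v a), (NB f v a t : ℂ) * wt t =
      I * ∑ E ∈ (polys Ω).filter (fun E => v ∈ VE E ∧ Nw E f ≠ 0), (xc : ℂ) ^ E.card * ∑ s ∈ stk Ω E a, wt s := by
  obtain ⟨G, hG⟩ : ∃ G : Finset (Pt × Pt) → List Bool → ℂ, G = fun E s =>
      if h : ∃ t, IsLol E a s t then (if v ∈ VE E then (NB f v a (Classical.choose h) : ℂ) * wt (Classical.choose h)
        else 0) else 0 := ⟨_, rfl⟩
  have hGe : ∀ E s t, IsPoly E → IsLol E a s t → G E s = if v ∈ VE E then (NB f v a t : ℂ) * wt t else 0 := by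
    intro E s t hE ht
    have h2 : ∃ t, IsLol E a s t := ⟨t, ht⟩
    rw [hG]
    simp only
    rw [dif_pos h2, lol_unique ha hE (Classical.choose_spec h2) ht]
  have hL := lolli (fun w hw => hΩ.1 w hw) ha (fun t => if Lv v a t then (NB f v a t : ℂ) * wt t else 0) G (by
    intro E s t hE hs ht
    rw [hGe E s t (mem_polys.1 hE).1 ht]
    have hA := lol_arr ha hE hs ht
    have hiff : Lv v a t ↔ v ∈ VE E := by
      obtain ⟨a1, a2, a3, a4⟩ := ht
      have hc : 1 ≤ E.card := by
        obtain ⟨e, he, _⟩ := Finset.mem_image.1 (mem_stk.1 hs).2.2.1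
        exact Finset.card_pos.2 ⟨e, he⟩
      constructor
      · rintro ⟨j, i, j1, j2, j3, j4, j5⟩
        have hj : j = s.length + 1 := by
          rw [← a4] at j4
          rcases lt_trichotomy j (s.length + 1) with h | h | h
          · exact absurd j4 (hA.inj _ _ j1 h (by omega))
          · exact h
          · exact absurd j4.symm (hA.inj _ _ (by omega) h (by omega))
        unfold VE
        rw [a3]
        refine Finset.mem_image.2 ⟨(vx a.1 a.2 t i, dx a.2 t i), ?_, j5⟩
        exact Finset.mem_image.2 ⟨i, Finset.mem_Icc.2 ⟨by omega, j3⟩, rfl⟩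
      · intro hv
        unfold VE at hv
        rw [a3] at hv
        obtain ⟨e, he, hev⟩ := Finset.mem_image.1 hv
        obtain ⟨i, hi, hie⟩ := Finset.mem_image.1 he
        rw [Finset.mem_Icc] at hi
        exact ⟨s.length + 1, i, by omega, hi.1, hi.2, a4, by rw [← hev, ← hie]⟩
    by_cases c : v ∈ VE E
    · rw [if_pos c, if_pos (hiff.2 c)]
    · rw [if_neg c, if_neg (fun h => c (hiff.1 h))])
  rw [← Finset.sum_filter] at hL
  rw [hL]
  have hrev : ∑ E ∈ polys Ω, ∑ s ∈ stk Ω E a, G E s = ∑ E ∈ polys Ω, ∑ s ∈ stk Ω E a, G (rE E) s := by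
    refine Finset.sum_bij' (fun E _ => rE E) (fun E _ => rE E) (fun E hE => TW.rE_polys hE)
      (fun E hE => TW.rE_polys hE) (fun E _ => rE_rE E) (fun E _ => rE_rE E) (fun E hE => ?_)
    rw [rE_rE, TW.stk_rE hE]
  have h2 : 2 * ∑ E ∈ polys Ω, ∑ s ∈ stk Ω E a, G E s = ∑ E ∈ polys Ω, ∑ s ∈ stk Ω E a, (G E s + G (rE E) s) := by
    rw [two_mul]
    conv_lhs => rw [hrev]
    rw [← hrev]
    conv_lhs =>
      enter [2]
      rw [hrev]
    rw [← Finset.sum_add_distrib]
    exact Finset.sum_congr rfl (fun E _ => Finset.sum_add_distrib.symm)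
  rw [h2, Finset.mul_sum, Finset.sum_filter]
  apply Finset.sum_congr rfl
  intro E hE
  obtain ⟨hP, hV⟩ := mem_polys.1 hE
  have hE' := TW.rE_polys hE
  have hP' := isPoly_rE hP
  by_cases c : v ∈ VE E
  · have key : ∀ s ∈ stk Ω E a, G E s + G (rE E) s = (Nw E f : ℂ) * ((xc : ℂ) ^ E.card * wt s * (I * (sg E : ℂ))) := by
      intro s hs
      obtain ⟨t, _, ht⟩ := lol_join ha hE hs
      have hs' : s ∈ stk Ω (rE E) a := by
        rw [TW.stk_rE hE]
        exact hs
      obtain ⟨t', _, ht'⟩ := lol_join ha hE' hs'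
      rw [hGe E s t hP ht, hGe (rE E) s t' hP' ht', if_pos c, if_pos (by rw [VE_rE hP]; exact c),
        lol_wt ha hE hs ht, lol_wt ha hE' hs' ht', card_rE]
      have e1 := TW.stick_out hΩ hE ha h1 hs
      have e2 := TW.stick_out hΩ hE' ha h1 hs'
      unfold ph
      rw [if_neg e1, if_neg e2, sg_rE hP]
      have e3 := lol_NB ha hE hs ht ht' (f := f) c (stk_ne hE c hb ha hav hs)
      have e4 : (Nw E f : ℂ) = (NB f v a t : ℂ) - (NB f v a t' : ℂ) := by
        rw [← e3]
        push_cast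
        ring
      rw [e4]
      push_cast
      ring
    rw [Finset.sum_congr rfl key]
    rcases Nw_cases hP hf with h | h
    · rw [if_neg (fun h' => h'.2 h), h]
      simp
    · have hs2 : (sg E : ℂ) * (sg E : ℂ) = 1 := by
        rcases sg_cases E with h' | h' <;> rw [h'] <;> norm_num
      have hn : Nw E f ≠ 0 := by
        rw [h]
        rcases sg_cases E with h' | h' <;> rw [h'] <;> norm_num
      rw [if_pos ⟨c, hn⟩, h, Finset.mul_sum, Finset.mul_sum]
      apply Finset.sum_congr rfl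
      intro s _
      linear_combination ((xc : ℂ) ^ E.card * wt s * I) * hs2
  · rw [if_neg (fun h' => c h'.1)]
    apply Finset.sum_eq_zero
    intro s hs
    obtain ⟨t, _, ht⟩ := lol_join ha hE hs
    have hs' : s ∈ stk Ω (rE E) a := by
      rw [TW.stk_rE hE]
      exact hs
    obtain ⟨t', _, ht'⟩ := lol_join ha hE' hs'
    rw [hGe E s t hP ht, hGe (rE E) s t' hP' ht', if_neg c, if_neg (by rw [VE_rE hP]; exact c), add_zero]

end SD

end LP

end HexObs
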