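import Pool.Agent.HexLoop.Bulk
import Pool.Agent.HexLoop.RevW

/-!
SD11, first part: chains of polygons and the exponential; the faces and the edges at a vertex.
-/

set_option autoImplicit false

namespace HexObs

namespace LP

open Complex Finset

/-- chains: the sum over the last element. -/
theorem exp_chain {ι : Type} [DecidableEq ι] (s : Finset ι) (a : ι → ℝ) (r : ι → ℕ) (ha : ∀ i ∈ s, 0 ≤ a i) :
    1 + ∑ i ∈ s, a i * Real.exp (∑ j ∈ s.filter (fun j => r j < r i), a j) ≤ Real.exp (∑ i ∈ s, a i) := by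
  induction s using Finset.induction_on_max_value r with
  | empty => simp
  | insert i s hi hmax ih =>
    have ih' := ih (fun j hj => ha j (Finset.mem_insert_of_mem hj))
    have hai := ha i (Finset.mem_insert_self i s)
    rw [Finset.sum_insert hi, Finset.sum_insert hi, Real.exp_add]
    have h1 : ∀ k ∈ s, (insert i s).filter (fun j => r j < r k) = s.filter (fun j => r j < r k) := by
      intro k hk
      rw [Finset.filter_insert, if_neg (not_lt.2 (hmax k hk))]
    have h2 : ∑ k ∈ s, a k * Real.exp (∑ j ∈ (insert i s).filter (fun j => r j < r k), a j) =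
        ∑ k ∈ s, a k * Real.exp (∑ j ∈ s.filter (fun j => r j < r k), a j) := by
      apply Finset.sum_congr rfl
      intro k hk
      rw [h1 k hk]
    have h3 : (insert i s).filter (fun j => r j < r i) = s.filter (fun j => r j < r i) := by
      rw [Finset.filter_insert, if_neg (lt_irrefl _)]
    have h4 : ∑ j ∈ s.filter (fun j => r j < r i), a j ≤ ∑ j ∈ s, a j := by
      apply Finset.sum_le_sum_of_subset_of_nonneg (Finset.filter_subset _ _)
      intro j hj _
      exact ha j (Finset.mem_insert_of_mem hj)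
    have h5 : a i * Real.exp (∑ j ∈ s.filter (fun j => r j < r i), a j) ≤ a i * Real.exp (∑ j ∈ s, a j) :=
      mul_le_mul_of_nonneg_left (Real.exp_le_exp.2 h4) hai
    have h6 := Real.add_one_le_exp (a i)
    have h7 := Real.exp_pos (∑ j ∈ s, a j)
    rw [h2, h3]
    nlinarith [mul_le_mul_of_nonneg_right h6 h7.le]

/-- the polygons inside a polygon. -/
theorem polys_inn {Ω : Finset Pt} {E E' : Finset (Pt × Pt)} (hE : E ∈ polys Ω)
    (hE' : E' ∈ polys (inn Ω E)) : E' ∈ polys Ω ∧ (inn Ω E').card < (inn Ω E).card := by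
  rw [mem_polys] at hE hE' ⊢
  have h1 : ∀ w ∈ VE E', Ins E w := fun w hw => (mem_inn.1 (hE'.2 hw)).2
  refine ⟨⟨hE'.1, fun w hw => (mem_inn.1 (hE'.2 hw)).1⟩, ?_⟩
  apply Finset.card_lt_card
  rw [Finset.ssubset_iff_of_subset]
  · obtain ⟨v, d, τ, m, hP, hEq⟩ := hE'.1
    have h2 : v ∈ VE E' := by
      unfold VE
      rw [Finset.mem_image]
      refine ⟨eg v d τ 0, ?_, rfl⟩
      rw [hEq]
      unfold pe
      rw [Finset.mem_image]
      exact ⟨0, Finset.mem_range.2 hP.pos, rfl⟩
    exact ⟨v, hE'.2 h2, fun h3 => (mem_inn.1 h3).2.2.1 h2⟩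
  · intro w hw
    rw [mem_inn] at hw ⊢
    exact ⟨hw.1, nested hE.1 hE'.1 h1 hw.2⟩

/-- one face: chains of polygons around it. -/
theorem face_chain {Ω : Finset Pt} (f : Pt) :
    1 + ∑ E ∈ (polys Ω).filter (fun E => Nw E f ≠ 0), xc ^ E.card *
      Real.exp (∑ E' ∈ (polys (inn Ω E)).filter (fun E' => Nw E' f ≠ 0), xc ^ E'.card) ≤
      Real.exp (∑ E ∈ (polys Ω).filter (fun E => Nw E f ≠ 0), xc ^ E.card) := by
  classical
  refine le_trans ?_ (exp_chain ((polys Ω).filter (fun E => Nw E f ≠ 0)) (fun E => xc ^ E.card)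
    (fun E => (inn Ω E).card) (fun E _ => pow_nonneg xc_pos.le _))
  apply add_le_add_right
  apply Finset.sum_le_sum
  intro E hE
  apply mul_le_mul_of_nonneg_left _ (pow_nonneg xc_pos.le _)
  rw [Real.exp_le_exp]
  apply Finset.sum_le_sum_of_subset_of_nonneg
  · intro E' hE'
    rw [Finset.mem_filter] at hE hE'
    obtain ⟨h1, h2⟩ := polys_inn hE.1 hE'.1
    rw [Finset.mem_filter, Finset.mem_filter]
    exact ⟨⟨h1, hE'.2⟩, h2⟩
  · intro E' _ _
    exact pow_nonneg xc_pos.le _

end LP

end HexObs
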