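import Pool.Agent.HexLoop.SDVertB

/-!
SD11, third part: the sticks from v to the polygons around v.
-/

set_option autoImplicit false

namespace HexObs

namespace LP

open Complex Finset

private lemma sdc_stk {Ω : Finset Pt} {E : Finset (Pt × Pt)} {p : Pt × Pt} {s : List Bool} :
    s ∈ stk Ω E p ↔ Arr0 Ω p s ∧ (∀ i, 1 ≤ i → i ≤ s.length → vx p.1 p.2 s i ∉ VE E) ∧ tp p s ∈ VE E ∧
      le p s ∉ E ∧ rv (le p s) ∉ E := by
  unfold stk
  simp only [Finset.mem_filter, mem_arr0]

private lemma sdc_ex0 {Ω : Finset Pt} {a : Pt × Pt} {t : List Bool} :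
    t ∈ ex0 Ω a ↔ Arr0 Ω a t ∧ tp a t ∉ Ω := by
  unfold ex0
  rw [Finset.mem_filter, mem_arr0]

/-- along a walk off E all vertices are on the same side. -/
private lemma sdc_same {E : Finset (Pt × Pt)} (hE : IsPoly E) {p : Pt × Pt} (hp : De p) (h0 : p.1 ∉ VE E)
    (t : List Bool) (n : ℕ) (h : ∀ i, 1 ≤ i → i ≤ n → vx p.1 p.2 t i ∉ VE E) {k : ℕ} (h2 : k ≤ n) :
    Ins E (vx p.1 p.2 t k) ↔ Ins E p.1 := by
  induction k with
  | zero => rfl
  | succ k ih =>
    have h3 : vx p.1 p.2 t k ∉ VE E := by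
      rcases Nat.eq_zero_or_pos k with h4 | h4
      · rw [h4]
        exact h0
      · exact h k h4 (by omega)
    have h4 := ins_adj hE (de_vx hp t k) h3 (h (k + 1) (by omega) h2)
    rw [← ih (by omega)]
    exact h4.symm

open Classical in
/-- the sticks inside E that start at v. -/
theorem Sin_vertex {Ω : Finset Pt} (hΩ : Full Ω) {v : Pt} {E : Finset (Pt × Pt)} (hE : E ∈ polys Ω)
    (hv : v ∉ VE E) {d : Pt} (hd : De (v, d)) :
    Sin (Ω.erase v) E (v, d) = if Ins E v then ∑ t ∈ exv (inn Ω E) v (v, d), wt t else 0 := by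
  have hE' := mem_polys.1 hE
  unfold Sin
  split_ifs with hI
  · apply Finset.sum_congr _ (fun _ _ => rfl)
    ext t
    unfold exv
    have hle : De (le (v, d) t) := de_vx hd t t.length
    rw [Finset.mem_filter, Finset.mem_filter, sdc_stk, sdc_ex0]
    constructor
    · rintro ⟨⟨h1, h2, h3, h4, h5⟩, h6⟩
      refine ⟨⟨⟨?_, h1.inj⟩, ?_⟩, ?_⟩
      · intro i hi1 hi2
        have h7 := Finset.mem_erase.1 (h1.mem i hi1 hi2)
        refine Finset.mem_erase.2 ⟨h7.1, mem_inn.2 ⟨h7.2, ?_⟩⟩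
        exact (sdc_same hE'.1 hd hv t t.length h2 hi2).2 hI
      · intro h7
        exact (mem_inn.1 (Finset.mem_of_mem_erase h7)).2.2.1 h3
      · intro h7
        rw [h7] at h3
        exact hv h3
    · rintro ⟨⟨h1, h2⟩, h3⟩
      have h4 : ∀ i, 1 ≤ i → i ≤ t.length → vx v d t i ∉ VE E := by
        intro i hi1 hi2
        exact (mem_inn.1 (Finset.mem_of_mem_erase (h1.mem i hi1 hi2))).2.2.1
      have h5 : (le (v, d) t).1 ∉ VE E := by
        show vx v d t t.length ∉ VE E
        rcases Nat.eq_zero_or_pos t.length with h0 | h0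
        · rw [h0]
          exact hv
        · exact h4 _ h0 le_rfl
      have h6 : Ins E (le (v, d) t).1 := (sdc_same hE'.1 hd hv t t.length h4 le_rfl).2 hI
      have h7 : EIn E (le (v, d) t) := (ins_edge hE'.1 hle h5).1 h6
      refine ⟨⟨⟨?_, h1.inj⟩, h4, ?_, h7.1, h7.2.1⟩, h7⟩
      · intro i hi1 hi2
        have h8 := Finset.mem_erase.1 (h1.mem i hi1 hi2)
        exact Finset.mem_erase.2 ⟨h8.1, (mem_inn.1 h8.2).1⟩
      · by_contra h8
        have h9 : Ins E (tp (v, d) t) := (ins_adj hE'.1 hle h5 h8).1 h6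
        exact h2 (Finset.mem_erase.2 ⟨h3, mem_inn.2 ⟨hΩ.2 E hE'.1 hE'.2 _ h9, h9⟩⟩)
  · apply Finset.sum_eq_zero
    intro t ht
    exfalso
    rw [Finset.mem_filter, sdc_stk] at ht
    obtain ⟨⟨h1, h2, h3, h4, h5⟩, h6⟩ := ht
    have hle : De (le (v, d) t) := de_vx hd t t.length
    have h7 : (le (v, d) t).1 ∉ VE E := by
      show vx v d t t.length ∉ VE E
      rcases Nat.eq_zero_or_pos t.length with h0 | h0
      · rw [h0]
        exact hv
      · exact h2 _ h0 le_rfl
    exact hI ((sdc_same hE'.1 hd hv t t.length h2 le_rfl).1 ((ins_edge hE'.1 hle h7).2 h6))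

open Classical in
/-- the sum of the bulk relations at v. -/
theorem bulk_vertex {Ω : Finset Pt} (hΩ : Full Ω) {v : Pt} (hv : v ∈ Ω) :
    ∑ d ∈ dirs.filter (fun d => De (v, d)), (SS (Ω.erase v) (v, d)).re =
      ((dirs.filter (fun d => De (v, d))).card : ℝ) +
        ∑ E ∈ (polys Ω).filter (fun E => Ins E v), xc ^ E.card * HH (inn Ω E) {v} := by
  have h1 : ∀ d ∈ dirs.filter (fun d => De (v, d)), (SS (Ω.erase v) (v, d)).re =
      1 + ∑ E ∈ (polys Ω).filter (fun E => Ins E v), xc ^ E.card * ∑ t ∈ exv (inn Ω E) v (v, d), (wt t).re := by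
    intro d hd
    rw [Finset.mem_filter] at hd
    have h2 := bulk (Ω := Ω.erase v) (fun w hw => hΩ.1 w (Finset.mem_of_mem_erase hw)) hd.2
    have h3 : thr (Ω.erase v) (v, d) = ∅ := by
      rw [Finset.eq_empty_iff_forall_notMem]
      intro E hE
      unfold thr at hE
      rw [Finset.mem_filter, mem_polys] at hE
      have h4 : v ∈ VE E := by
        unfold VE
        rw [Finset.mem_image]
        exact ⟨(v, d), hE.2, rfl⟩
      exact (Finset.mem_erase.1 (hE.1.2 h4)).1 rfl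
    rw [h3, Finset.sum_empty, sub_zero] at h2
    rw [h2, Complex.add_re, Complex.one_re, Complex.re_sum]
    congr 1
    have h5 : (polys Ω).filter (fun E => Ins E v) ⊆ polys (Ω.erase v) := by
      intro E hE
      rw [Finset.mem_filter, mem_polys] at hE
      rw [mem_polys]
      refine ⟨hE.1.1, fun w hw => Finset.mem_erase.2 ⟨?_, hE.1.2 hw⟩⟩
      rintro rfl
      exact hE.2.2.1 hw
    rw [← Finset.sum_subset h5]
    · apply Finset.sum_congr rfl
      intro E hE
      rw [Finset.mem_filter] at hE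
      rw [Sin_vertex hΩ hE.1 hE.2.2.1 hd.2, if_pos hE.2, ← Complex.ofReal_pow, Complex.re_ofReal_mul,
        Complex.re_sum]
    · intro E hE hE2
      rw [mem_polys] at hE
      have h6 : E ∈ polys Ω := mem_polys.2 ⟨hE.1, fun w hw => Finset.mem_of_mem_erase (hE.2 hw)⟩
      have h7 : v ∉ VE E := fun hw => (Finset.mem_erase.1 (hE.2 hw)).1 rfl
      have h8 : ¬ Ins E v := fun h9 => hE2 (Finset.mem_filter.2 ⟨h6, h9⟩)
      rw [Sin_vertex hΩ h6 h7 hd.2, if_neg h8, mul_zero, Complex.zero_re]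
  rw [Finset.sum_congr rfl h1, Finset.sum_add_distrib, Finset.sum_const, nsmul_eq_mul, mul_one, Finset.sum_comm]
  congr 1
  apply Finset.sum_congr rfl
  intro E hE
  rw [Finset.mem_filter] at hE
  rw [HH_vertex (full_inn hΩ hE.1) (mem_inn.2 ⟨hv, hE.2⟩), ← Finset.mul_sum]

end LP

end HexObs
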