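import Pool.Agent.HexLoop.SDVertC

/-!
SD11, fourth part: the walks that come back to v.
-/

set_option autoImplicit false

namespace HexObs

namespace LP

open Complex Finset

/-- the faces at v. -/
noncomputable def fcs (v : Pt) : Finset Pt := (dirs.image (fun d => v + d)).filter (fun f => cl f = 1)

private lemma sdd_ex0 {Ω : Finset Pt} {a : Pt × Pt} {t : List Bool} :
    t ∈ ex0 Ω a ↔ Arr0 Ω a t ∧ tp a t ∉ Ω := by
  unfold ex0
  rw [Finset.mem_filter, mem_arr0]

private lemma sdd_dir : ∀ d ∈ dirs, ∀ d' ∈ dirs, cl d = cl (-d') → d ≠ -d' → ∃ c : Bool, turn c d' = d := by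
  decide

private lemma sdd_neg : ∀ d ∈ dirs, ∀ b : Bool, turn b d ≠ -d := by
  decide

private lemma sdd_cl : ∀ a b c : ZMod 3, a ≠ 1 → (b = 1 ∨ b = 2) → (c = 1 ∨ c = 2) → a + b ≠ 1 → a + c ≠ 1 → b = c := by
  decide

private lemma sdd_cl2 {d : Pt} (h : d ∈ dirs) : cl d = 1 ∨ cl d = 2 := by
  revert d
  decide

/-- two edges at v. -/
private lemma sdd_two {v d d' : Pt} (h : De (v, d)) (h' : De (v - d', d')) (hne : d ≠ -d') :
    ∃ c : Bool, turn c d' = d := by
  apply sdd_dir d h.1 d' h'.1 _ hne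
  have h1 := h.2.1
  have h2 := h.2.2
  have h3 := h'.2.1
  unfold Vt at h1 h2 h3
  simp only at h1 h2 h3
  rw [cl_add] at h2
  rw [sub_eq_add_neg, cl_add] at h3
  exact sdd_cl _ _ _ h1 (sdd_cl2 h.1) (sdd_cl2 (neg_mem_dirs h'.1)) h2 h3

/-- the polygon of a walk that comes back to v. -/
private noncomputable def sddE (v d : Pt) (t : List Bool) : Finset (Pt × Pt) :=
  (range (t.length + 1)).image (fun i => (vx v d t i, dx d t i))

private noncomputable def sddT (t : List Bool) (c : Bool) (i : ℕ) : Bool :=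
  if i % (t.length + 1) = t.length then c else tf t (i % (t.length + 1))

private lemma sdd_last {Ω : Finset Pt} {v : Pt} {d : Pt} (hd : De (v, d)) {t : List Bool}
    (ht : t ∈ ex0 (Ω.erase v) (v, d)) (h : tp (v, d) t = v) : ∃ c : Bool, turn c (dx d t t.length) = d := by
  rw [sdd_ex0] at ht
  have h1 : vx v d t t.length + dx d t t.length = v := h
  have h2 : vx v d t t.length = v - dx d t t.length := eq_sub_of_add_eq h1
  have h3 : De (vx v d t t.length, dx d t t.length) := de_vx hd t t.length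
  have h4 : De (v - dx d t t.length, dx d t t.length) := by
    rw [← h2]
    exact h3
  apply sdd_two hd h4
  intro h5
  rcases Nat.eq_zero_or_pos t.length with h0 | h0
  · rw [h0] at h5
    have h6 : dx d t 0 = d := rfl
    rw [h6] at h5
    have : ∀ e ∈ dirs, e ≠ -e := by decide
    exact this d hd.1 h5
  · have h6 : vx v d t t.length = vx v d t 1 := by
      rw [h2]
      show v - dx d t t.length = v + d
      nth_rw 2 [h5]
      abel
    rcases Nat.lt_or_ge 1 t.length with h7 | h7
    · exact ht.1.inj 1 t.length le_rfl h7 le_rfl h6.symm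
    · have h8 : t.length = 1 := by omega
      rw [h8] at h5
      have h9 : dx d t 1 = turn (tf t 0) d := rfl
      rw [h9] at h5
      exact sdd_neg d hd.1 (tf t 0) (neg_eq_iff_eq_neg.1 h5.symm)

private lemma sdd_tau {t : List Bool} {c : Bool} {i : ℕ} (h : i < t.length) : sddT t c i = tf t i := by
  unfold sddT
  rw [Nat.mod_eq_of_lt (by omega), if_neg (by omega)]

private lemma sdd_tauc {t : List Bool} {c : Bool} : sddT t c t.length = c := by
  unfold sddT
  rw [Nat.mod_eq_of_lt (by omega), if_pos rfl]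

private lemma sdd_ds {d : Pt} {t : List Bool} {c : Bool} {i : ℕ} (h : i ≤ t.length) :
    ds d (sddT t c) i = dx d t i := by
  unfold dx
  apply ds_congr
  intro k hk
  exact sdd_tau (by omega)

private lemma sdd_vs {v d : Pt} {t : List Bool} {c : Bool} {i : ℕ} (h : i ≤ t.length + 1) :
    vs v d (sddT t c) i = vx v d t i := by
  unfold vx
  apply vs_congr
  intro k hk
  exact sdd_tau (by omega)

private lemma sdd_poly {Ω : Finset Pt} {v : Pt} {d : Pt} (hd : De (v, d)) {t : List Bool}
    (ht : t ∈ ex0 (Ω.erase v) (v, d)) (h : tp (v, d) t = v) {c : Bool} (hc : turn c (dx d t t.length) = d) :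
    Poly v d (sddT t c) (t.length + 1) ∧ sddE v d t = pe v d (sddT t c) (t.length + 1) := by
  rw [sdd_ex0] at ht
  refine ⟨⟨by omega, hd, ?_, ?_, ?_, ?_⟩, ?_⟩
  · intro i
    unfold sddT
    rw [Nat.add_mod_right]
  · rw [sdd_vs le_rfl]
    exact h
  · have h1 : ds d (sddT t c) (t.length + 1) = turn (sddT t c t.length) (ds d (sddT t c) t.length) := rfl
    rw [h1, sdd_tauc, sdd_ds le_rfl, hc]
  · intro i k hik hk
    rw [sdd_vs (by omega), sdd_vs (by omega)]
    rcases Nat.eq_zero_or_pos i with hi | hi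
    · subst hi
      intro h2
      have h3 : vx v d t 0 = v := rfl
      rw [h3] at h2
      have h4 := ht.1.mem k (by omega) (by omega)
      exact (Finset.mem_erase.1 h4).1 h2.symm
    · exact ht.1.inj i k hi hik (by omega)
  · unfold sddE pe
    apply Finset.image_congr
    intro i hi
    rw [Finset.mem_coe, Finset.mem_range] at hi
    show (vx v d t i, dx d t i) = (vs v d (sddT t c) i, ds d (sddT t c) i)
    rw [sdd_vs (by omega), sdd_ds (by omega)]

private lemma sdd_thr {Ω : Finset Pt} {v : Pt} (hv : v ∈ Ω) {d : Pt} (hd : De (v, d)) {t : List Bool}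
    (ht : t ∈ ex0 (Ω.erase v) (v, d)) (h : tp (v, d) t = v) : sddE v d t ∈ thr Ω (v, d) := by
  obtain ⟨c, hc⟩ := sdd_last hd ht h
  obtain ⟨hP, hE⟩ := sdd_poly hd ht h hc
  rw [sdd_ex0] at ht
  unfold thr
  rw [Finset.mem_filter, mem_polys]
  refine ⟨⟨⟨_, _, _, _, hP, hE⟩, ?_⟩, ?_⟩
  · intro w hw
    unfold VE sddE at hw
    rw [Finset.mem_image] at hw
    obtain ⟨q, hq, rfl⟩ := hw
    rw [Finset.mem_image] at hq
    obtain ⟨i, hi, rfl⟩ := hq
    rw [Finset.mem_range] at hi
    rcases Nat.eq_zero_or_pos i with h1 | h1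
    · subst h1
      exact hv
    · exact Finset.mem_of_mem_erase (ht.1.mem i h1 (by omega))
  · unfold sddE
    rw [Finset.mem_image]
    exact ⟨0, Finset.mem_range.2 (by omega), rfl⟩

private lemma sdd_turn_b : ∀ d ∈ dirs, ∀ b b' : Bool, turn b d = turn b' d → b = b' := by
  decide

private lemma sdd_inj {Ω : Finset Pt} {v : Pt} {d : Pt} (hd : De (v, d)) {t t' : List Bool}
    (ht : t ∈ ex0 (Ω.erase v) (v, d)) (h : tp (v, d) t = v)
    (ht' : t' ∈ ex0 (Ω.erase v) (v, d)) (h' : tp (v, d) t' = v) (hEE : sddE v d t = sddE v d t') : t = t' := by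
  obtain ⟨c, hc⟩ := sdd_last hd ht h
  obtain ⟨c', hc'⟩ := sdd_last hd ht' h'
  obtain ⟨hP, hE⟩ := sdd_poly hd ht h hc
  obtain ⟨hP', hE'⟩ := sdd_poly hd ht' h' hc'
  have hl : t.length = t'.length := by
    have h1 := pe_card hP
    have h2 := pe_card hP'
    rw [← hE, hEE, hE', h2] at h1
    omega
  have hPo : IsPoly (sddE v d t) := ⟨_, _, _, _, hP, hE⟩
  have key : ∀ i, i ≤ t.length → vx v d t i = vx v d t' i ∧ dx d t i = dx d t' i := by
    intro i
    induction i with
    | zero =>
      intro _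
      exact ⟨rfl, rfl⟩
    | succ i ih =>
      intro hi
      obtain ⟨e1, e2⟩ := ih (by omega)
      have e3 : vx v d t (i + 1) = vx v d t' (i + 1) := by
        rw [vx_succ, vx_succ, e1, e2]
      have m1 : (vx v d t (i + 1), dx d t (i + 1)) ∈ sddE v d t := by
        unfold sddE
        rw [Finset.mem_image]
        exact ⟨i + 1, Finset.mem_range.2 (by omega), rfl⟩
      have m2 : (vx v d t' (i + 1), dx d t' (i + 1)) ∈ sddE v d t := by
        rw [hEE]
        unfold sddE
        rw [Finset.mem_image]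
        exact ⟨i + 1, Finset.mem_range.2 (by omega), rfl⟩
      rw [e3] at m1
      exact ⟨e3, isPoly_fun hPo m1 m2⟩
  apply List.ext_getElem hl
  intro i h1 h2
  have a1 : dx d t (i + 1) = turn (tf t i) (dx d t i) := rfl
  have a2 : dx d t' (i + 1) = turn (tf t' i) (dx d t' i) := rfl
  have a3 := (key (i + 1) (by omega)).2
  rw [a1, a2, ← (key i (by omega)).2] at a3
  have a4 := sdd_turn_b _ (de_vx hd t i).1 _ _ a3
  unfold tf at a4
  rwa [List.getD_eq_getElem _ _ h1, List.getD_eq_getElem _ _ h2] at a4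

private lemma sdd_cl3 : ∀ a b : ZMod 3, a ≠ 1 → (b = 1 ∨ b = 2) → a + b ≠ 1 → a + -b = 1 := by
  decide

private lemma sdd_rL : ∀ d ∈ dirs, rotL d ∈ dirs ∧ rotR d ∈ dirs ∧ -d ∈ dirs ∧ cl (rotL d) = -cl d ∧
    cl (rotR d) = -cl d ∧ cl (-d) = -cl d ∧ rotL d ≠ rotR d ∧ rotL d ≠ -d ∧ rotR d ≠ -d := by
  decide

private lemma sdd_rot (d : Pt) : -d + rotL d = -rotR d ∧ -d + rotR d = -rotL d := by
  obtain ⟨a, b⟩ := d
  unfold rotL rotR
  simp only [Prod.neg_mk, Prod.mk_add_mk, Prod.mk.injEq]
  omega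

private lemma sdd_fcs {v d e : Pt} (hd : De (v, d)) (he : e ∈ dirs) (hc : cl e = -cl d) : v + e ∈ fcs v := by
  unfold fcs
  rw [Finset.mem_filter, Finset.mem_image]
  refine ⟨⟨e, he, rfl⟩, ?_⟩
  have h1 := hd.2.1
  have h2 := hd.2.2
  unfold Vt at h1 h2
  simp only at h1 h2
  rw [cl_add] at h2 ⊢
  rw [hc]
  exact sdd_cl3 _ _ h1 (sdd_cl2 hd.1) h2

private lemma sdd_count {E : Finset (Pt × Pt)} (hE : IsPoly E) {v d u d' : Pt} (h1 : (v, d) ∈ E)
    (h2 : (u, d') ∈ E) (h3 : u + d' = v) {c : Bool} (hc : turn c d' = d) :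
    (if sgn c = sg E then 1 else 2) ≤ ((fcs v).filter (fun f => Nw E f ≠ 0)).card := by
  have hd : De (v, d) := isPoly_de hE h1
  obtain ⟨a1, a2, a3, a4, a5, a6, a7, a8, a9⟩ := sdd_rL d hd.1
  have s1 := side hE h1
  have s2 := side hE h2
  simp only at s1 s2
  have m1 : v + rotL d ∈ fcs v := sdd_fcs hd a1 a4
  have m2 : v + rotR d ∈ fcs v := sdd_fcs hd a2 a5
  have m3 : v + -d ∈ fcs v := sdd_fcs hd a3 a6
  have hu : u = v + -d' := by
    rw [← h3]
    abel
  have n3 : Nw E (v + -d) = if c = true then (if sg E = 1 then 0 else -1) else (if sg E = 1 then 1 else 0) := by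
    cases c
    · have : u + rotL d' = v + -d := by
        rw [hu, add_assoc, (sdd_rot d').1, ← hc]
        rfl
      rw [← this, s2.1]
      simp
    · have : u + rotR d' = v + -d := by
        rw [hu, add_assoc, (sdd_rot d').2, ← hc]
        rfl
      rw [← this, s2.2]
      simp
  have k1 : ∀ {x y : Pt}, x ∈ (fcs v).filter (fun f => Nw E f ≠ 0) → y ∈ (fcs v).filter (fun f => Nw E f ≠ 0) →
      x ≠ y → 2 ≤ ((fcs v).filter (fun f => Nw E f ≠ 0)).card := by
    intro x y hx hy hxy
    exact Finset.one_lt_card.2 ⟨x, hx, y, hy, hxy⟩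
  have k2 : ∀ {x : Pt}, x ∈ (fcs v).filter (fun f => Nw E f ≠ 0) →
      1 ≤ ((fcs v).filter (fun f => Nw E f ≠ 0)).card := by
    intro x hx
    exact Finset.card_pos.2 ⟨x, hx⟩
  rcases sg_cases E with hs | hs
  · have q1 : v + rotL d ∈ (fcs v).filter (fun f => Nw E f ≠ 0) := by
      rw [Finset.mem_filter, s1.1, if_pos hs]
      exact ⟨m1, one_ne_zero⟩
    cases c
    · rw [if_neg (by rw [hs]; decide)]
      have q3 : v + -d ∈ (fcs v).filter (fun f => Nw E f ≠ 0) := by
        rw [Finset.mem_filter, n3, hs]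
        exact ⟨m3, by simp⟩
      exact k1 q1 q3 (fun h => a8 (add_left_cancel h))
    · rw [if_pos (by rw [hs]; decide)]
      exact k2 q1
  · have hs1 : ¬ sg E = 1 := by rw [hs]; decide
    have q2 : v + rotR d ∈ (fcs v).filter (fun f => Nw E f ≠ 0) := by
      rw [Finset.mem_filter, s1.2, if_neg hs1]
      exact ⟨m2, by decide⟩
    cases c
    · rw [if_pos (by rw [hs]; decide)]
      exact k2 q2
    · rw [if_neg (by rw [hs]; decide)]
      have q3 : v + -d ∈ (fcs v).filter (fun f => Nw E f ≠ 0) := by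
        rw [Finset.mem_filter, n3, if_pos rfl, if_neg hs1]
        exact ⟨m3, by decide⟩
      exact k1 q2 q3 (fun h => a9 (add_left_cancel h))

private lemma sdd_cos5 : -Real.cos (5 * (Real.pi / 8)) ≤ xc := by
  have h1 : Real.cos (5 * (Real.pi / 8)) = -Real.sin (Real.pi / 8) := by
    have : (5 * (Real.pi / 8) : ℝ) = Real.pi / 8 + Real.pi / 2 := by ring
    rw [this, Real.cos_add_pi_div_two]
  have h2 := HexObs.cos_pos
  rw [h1, neg_neg]
  unfold xc
  rw [le_div_iff₀ (by positivity)]
  have h3 : 2 * Real.sin (Real.pi / 8) * Real.cos (Real.pi / 8) = Real.sin (2 * (Real.pi / 8)) := (Real.sin_two_mul _).symm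
  have h4 := Real.sin_le_one (2 * (Real.pi / 8))
  nlinarith

private lemma sdd_cos7 : -Real.cos (7 * (Real.pi / 8)) ≤ xc * 2 := by
  have h1 : Real.cos (7 * (Real.pi / 8)) = -Real.cos (Real.pi / 8) := by
    have : (7 * (Real.pi / 8) : ℝ) = Real.pi - Real.pi / 8 := by ring
    rw [this, Real.cos_pi_sub]
  have h2 := HexObs.cos_pos
  rw [h1, neg_neg]
  unfold xc
  rw [div_mul_eq_mul_div, le_div_iff₀ (by positivity)]
  have h4 := Real.cos_le_one (Real.pi / 8)
  nlinarith

private lemma sdd_term {Ω : Finset Pt} {v : Pt} {d : Pt} (hd : De (v, d)) {t : List Bool}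
    (ht : t ∈ ex0 (Ω.erase v) (v, d)) (h : tp (v, d) t = v) :
    -(wt t).re ≤ xc ^ (sddE v d t).card * ((fcs v).filter (fun f => Nw (sddE v d t) f ≠ 0)).card := by
  obtain ⟨c, hc⟩ := sdd_last hd ht h
  obtain ⟨hP, hE⟩ := sdd_poly hd ht h hc
  have hPo : IsPoly (sddE v d t) := ⟨_, _, _, _, hP, hE⟩
  have hcard : (sddE v d t).card = t.length + 1 := by
    rw [hE, pe_card hP]
  have hwind : wind t + sgn c = 6 * sg (sddE v d t) := by
    rw [hE, ← turn_sum hP, Finset.sum_range_succ, sdd_tauc, wind_sum]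
    congr 1
    apply Finset.sum_congr rfl
    intro i hi
    rw [Finset.mem_range] at hi
    rw [sdd_tau hi]
  have hm1 : (v, d) ∈ sddE v d t := by
    unfold sddE
    rw [Finset.mem_image]
    exact ⟨0, Finset.mem_range.2 (by omega), rfl⟩
  have hm2 : (vx v d t t.length, dx d t t.length) ∈ sddE v d t := by
    unfold sddE
    rw [Finset.mem_image]
    exact ⟨t.length, Finset.mem_range.2 (by omega), rfl⟩
  have hcnt := sdd_count hPo hm1 hm2 h hc
  have hx := xc_pos
  have hxp : 0 < xc ^ t.length := pow_pos hx _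
  rw [wt_re, hcard, pow_succ]
  have hcnt' : ((if sgn c = sg (sddE v d t) then 1 else 2 : ℕ) : ℝ) ≤
      (((fcs v).filter (fun f => Nw (sddE v d t) f ≠ 0)).card : ℝ) := by
    exact_mod_cast hcnt
  have key : -Real.cos (wind t * (Real.pi / 8)) ≤ xc * ((if sgn c = sg (sddE v d t) then 1 else 2 : ℕ) : ℝ) := by
    rcases sg_cases (sddE v d t) with hs | hs
    · cases c
      · have hw : wind t = 7 := by
          rw [hs] at hwind
          have : sgn false = -1 := rfl
          omega
        rw [hw, if_neg (by rw [hs]; decide)]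
        push_cast
        exact sdd_cos7
      · have hw : wind t = 5 := by
          rw [hs] at hwind
          have : sgn true = 1 := rfl
          omega
        rw [hw, if_pos (by rw [hs]; decide)]
        push_cast
        rw [mul_one]
        exact sdd_cos5
    · cases c
      · have hw : wind t = -5 := by
          rw [hs] at hwind
          have : sgn false = -1 := rfl
          omega
        rw [hw, if_pos (by rw [hs]; decide)]
        push_cast
        rw [mul_one, neg_mul, Real.cos_neg]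
        exact sdd_cos5
      · have hw : wind t = -7 := by
          rw [hs] at hwind
          have : sgn true = 1 := rfl
          omega
        rw [hw, if_neg (by rw [hs]; decide)]
        push_cast
        rw [neg_mul, Real.cos_neg]
        exact sdd_cos7
  have k1 : xc * ((if sgn c = sg (sddE v d t) then 1 else 2 : ℕ) : ℝ) ≤
      xc * (((fcs v).filter (fun f => Nw (sddE v d t) f ≠ 0)).card : ℝ) :=
    mul_le_mul_of_nonneg_left hcnt' hx.le
  have k2 := mul_le_mul_of_nonneg_right (key.trans k1) hxp.le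
  calc -(Real.cos (wind t * (Real.pi / 8)) * xc ^ t.length) = -Real.cos (wind t * (Real.pi / 8)) * xc ^ t.length := by ring
    _ ≤ _ := k2
    _ = _ := by ring

open Classical in
/-- the walks that come back to v. -/
theorem ret_le {Ω : Finset Pt} {v : Pt} (hv : v ∈ Ω) :
    -∑ d ∈ dirs.filter (fun d => De (v, d)), ∑ t ∈ (ex0 (Ω.erase v) (v, d)).filter (fun t => tp (v, d) t = v),
      (wt t).re ≤ ∑ E ∈ (polys Ω).filter (fun E => v ∈ VE E),
        xc ^ E.card * ((fcs v).filter (fun f => Nw E f ≠ 0)).card := by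
  have hx := xc_pos
  have h1 : ∀ d ∈ dirs.filter (fun d => De (v, d)),
      -∑ t ∈ (ex0 (Ω.erase v) (v, d)).filter (fun t => tp (v, d) t = v), (wt t).re ≤
        ∑ E ∈ (polys Ω).filter (fun E => (v, d) ∈ E), xc ^ E.card * ((fcs v).filter (fun f => Nw E f ≠ 0)).card := by
    intro d hd
    rw [Finset.mem_filter] at hd
    have hd := hd.2
    rw [← Finset.sum_neg_distrib]
    have h2 : ∀ t ∈ (ex0 (Ω.erase v) (v, d)).filter (fun t => tp (v, d) t = v), -(wt t).re ≤
        xc ^ (sddE v d t).card * ((fcs v).filter (fun f => Nw (sddE v d t) f ≠ 0)).card := by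
      intro t ht
      rw [Finset.mem_filter] at ht
      exact sdd_term hd ht.1 ht.2
    refine (Finset.sum_le_sum h2).trans ?_
    rw [← Finset.sum_image (f := fun E => xc ^ E.card * (((fcs v).filter (fun f => Nw E f ≠ 0)).card : ℝ))
      (g := sddE v d)]
    · apply Finset.sum_le_sum_of_subset_of_nonneg
      · intro E hE
        rw [Finset.mem_image] at hE
        obtain ⟨t, ht, rfl⟩ := hE
        rw [Finset.mem_filter] at ht
        have := sdd_thr hv hd ht.1 ht.2
        unfold thr at this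
        exact this
      · intro E _ _
        positivity
    · intro t ht t' ht' h3
      rw [Finset.mem_coe, Finset.mem_filter] at ht ht'
      exact sdd_inj hd ht.1 ht.2 ht'.1 ht'.2 h3
  rw [← Finset.sum_neg_distrib]
  refine (Finset.sum_le_sum h1).trans (le_of_eq ?_)
  rw [← Finset.sum_biUnion]
  · apply Finset.sum_congr _ (fun _ _ => rfl)
    ext E
    rw [Finset.mem_biUnion, Finset.mem_filter]
    constructor
    · rintro ⟨d, _, hE⟩
      rw [Finset.mem_filter] at hE
      refine ⟨hE.1, ?_⟩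
      unfold VE
      rw [Finset.mem_image]
      exact ⟨(v, d), hE.2, rfl⟩
    · rintro ⟨hE, hv'⟩
      unfold VE at hv'
      rw [Finset.mem_image] at hv'
      obtain ⟨⟨w, d⟩, hq, hw⟩ := hv'
      simp only at hw
      subst hw
      have hde := isPoly_de (mem_polys.1 hE).1 hq
      exact ⟨d, Finset.mem_filter.2 ⟨hde.1, hde⟩, Finset.mem_filter.2 ⟨hE, hq⟩⟩
  · intro d _ d' _ hne
    rw [Function.onFun, Finset.disjoint_left]
    intro E hE hE'
    rw [Finset.mem_filter] at hE hE'
    exact hne (isPoly_fun (mem_polys.1 hE.1).1 hE.2 hE'.2)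

end LP

end HexObs
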