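import Pool.Agent.HexLoop.SDVertD
import Pool.Agent.HexLoop.DefsD

/-!
SD11, last part: the walks that hit a vertex.
-/

set_option autoImplicit false

namespace HexObs

namespace LP

open Complex Finset

theorem LL_nonneg (Ω : Finset Pt) (f : Pt) : 0 ≤ LL Ω f := by
  have hx := xc_pos
  unfold LL
  exact Finset.sum_nonneg (fun E _ => by positivity)

private lemma sde_card1 : ∀ c : ZMod 3, c ≠ 1 →
    (dirs.filter (fun d => c + cl d ≠ 1)).card = (dirs.filter (fun d => c + cl d = 1)).card := by
  decide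

open Classical in
private lemma sde_card {v : Pt} (hv : Vt v) : (dirs.filter (fun d => De (v, d))).card = (fcs v).card := by
  have h1 : dirs.filter (fun d => De (v, d)) = dirs.filter (fun d => cl v + cl d ≠ 1) := by
    apply Finset.filter_congr
    intro d hd
    unfold De Vt
    simp only [← cl_add]
    constructor
    · rintro ⟨_, _, h⟩
      exact h
    · intro h
      exact ⟨hd, hv, h⟩
  have h2 : fcs v = (dirs.filter (fun d => cl v + cl d = 1)).image (fun d => v + d) := by
    unfold fcs
    rw [Finset.filter_image]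
    congr 1
    apply Finset.filter_congr
    intro d _
    rw [cl_add]
  rw [h1, h2, Finset.card_image_of_injective _ (fun a b h => add_left_cancel h)]
  exact sde_card1 _ hv

private lemma sde_dir : ∀ e ∈ dirs, ∀ e' ∈ dirs, cl e = cl e' → e ≠ e' →
    ∃ d ∈ dirs, cl d = -cl e ∧ ((rotL d = e ∧ rotR d = e') ∨ (rotL d = e' ∧ rotR d = e)) := by
  decide

private lemma sde_cl : ∀ a b : ZMod 3, a ≠ 1 → a + b = 1 → a + -b ≠ 1 := by
  decide

private lemma sde_cl' : ∀ a b c : ZMod 3, a + b = 1 → a + c = 1 → b = c := by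
  decide

private lemma sde_all {E : Finset (Pt × Pt)} (hE : IsPoly E) {v : Pt} (h : Ins E v) :
    ∀ f ∈ fcs v, Nw E f ≠ 0 := by
  intro f hf
  unfold fcs at hf
  rw [Finset.mem_filter, Finset.mem_image] at hf
  obtain ⟨⟨e, he, rfl⟩, hc⟩ := hf
  obtain ⟨hv, hvE, e', he', hc', hN⟩ := h
  by_cases hee : e = e'
  · rw [hee]
    exact hN
  · unfold Fc at hc'
    rw [cl_add] at hc hc'
    have hcc := sde_cl' _ _ _ hc hc'
    obtain ⟨d, hd, hcd, hrot⟩ := sde_dir e he e' he' hcc hee
    have hde : De (v, d) := by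
      refine ⟨hd, hv, ?_⟩
      unfold Vt
      simp only
      rw [cl_add, hcd]
      exact sde_cl _ _ hv hc
    have h1 : (v, d) ∉ E := by
      intro h2
      apply hvE
      unfold VE
      rw [Finset.mem_image]
      exact ⟨(v, d), h2, rfl⟩
    have h2 : rv (v, d) ∉ E := by
      intro h3
      obtain ⟨b, hb⟩ := isPoly_next hE h3
      apply hvE
      unfold VE
      rw [Finset.mem_image]
      refine ⟨_, hb, ?_⟩
      show v + d + -d = v
      abel
    have h3 := Nw_edge hE hde
    rw [if_neg h1, if_neg h2] at h3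
    simp only at h3
    rcases hrot with ⟨h4, h5⟩ | ⟨h4, h5⟩
    · rw [h4, h5] at h3
      have : Nw E (v + e) = Nw E (v + e') := by omega
      rw [this]
      exact hN
    · rw [h4, h5] at h3
      have : Nw E (v + e) = Nw E (v + e') := by omega
      rw [this]
      exact hN

open Classical in
private lemma sde_split {Ω : Finset Pt} (v : Pt) (p : Pt × Pt) :
    ∑ t ∈ exv Ω v p, (wt t).re = (SS (Ω.erase v) p).re -
      ∑ t ∈ (ex0 (Ω.erase v) p).filter (fun t => tp p t = v), (wt t).re := by
  have h1 : exv Ω v p = (ex0 (Ω.erase v) p).filter (fun t => ¬ tp p t = v) := by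
    unfold exv
    apply Finset.filter_congr
    intro t _
    rfl
  unfold SS
  rw [Complex.re_sum, h1, ← Finset.sum_filter_add_sum_filter_not (ex0 (Ω.erase v) p) (fun t => tp p t = v)]
  ring

private lemma sde_main (n : ℕ) : ∀ {Ω : Finset Pt}, Ω.card ≤ n → Full Ω → ∀ {v : Pt}, v ∈ Ω →
    HH Ω {v} ≤ ∑ f ∈ fcs v, Real.exp (LL Ω f) := by
  classical
  induction n with
  | zero =>
    intro Ω h _ v hv
    have := Finset.card_pos.2 ⟨v, hv⟩
    omega
  | succ n ih =>
    intro Ω hcard hΩ v hv
    have hx := xc_pos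
    have hvt : Vt v := hΩ.1 v hv
    have e1 : HH Ω {v} = ∑ d ∈ dirs.filter (fun d => De (v, d)), (SS (Ω.erase v) (v, d)).re +
        -∑ d ∈ dirs.filter (fun d => De (v, d)), ∑ t ∈ (ex0 (Ω.erase v) (v, d)).filter (fun t => tp (v, d) t = v),
          (wt t).re := by
      rw [HH_vertex hΩ hv, ← sub_eq_add_neg, ← Finset.sum_sub_distrib]
      apply Finset.sum_congr rfl
      intro d _
      rw [sde_split]
    have e2 := bulk_vertex hΩ hv
    have e3 := ret_le hv
    have e4 : ∑ E ∈ (polys Ω).filter (fun E => Ins E v), xc ^ E.card * HH (inn Ω E) {v} ≤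
        ∑ E ∈ (polys Ω).filter (fun E => Ins E v), xc ^ E.card *
          ∑ f ∈ (fcs v).filter (fun f => Nw E f ≠ 0), Real.exp (LL (inn Ω E) f) := by
      apply Finset.sum_le_sum
      intro E hE
      rw [Finset.mem_filter] at hE
      apply mul_le_mul_of_nonneg_left _ (by positivity)
      have h1 : (fcs v).filter (fun f => Nw E f ≠ 0) = fcs v :=
        Finset.filter_true_of_mem (sde_all (mem_polys.1 hE.1).1 hE.2)
      rw [h1]
      have h2 := inn_card hE.1
      exact ih (by omega) (full_inn hΩ hE.1) (mem_inn.2 ⟨hv, hE.2⟩)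
    have e5 : ∑ E ∈ (polys Ω).filter (fun E => v ∈ VE E),
        xc ^ E.card * (((fcs v).filter (fun f => Nw E f ≠ 0)).card : ℝ) ≤
        ∑ E ∈ (polys Ω).filter (fun E => v ∈ VE E), xc ^ E.card *
          ∑ f ∈ (fcs v).filter (fun f => Nw E f ≠ 0), Real.exp (LL (inn Ω E) f) := by
      apply Finset.sum_le_sum
      intro E _
      apply mul_le_mul_of_nonneg_left _ (by positivity)
      rw [Finset.cast_card]
      apply Finset.sum_le_sum
      intro f _
      exact Real.one_le_exp (LL_nonneg _ _)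
    have e6 : ∑ E ∈ (polys Ω).filter (fun E => Ins E v), xc ^ E.card *
          ∑ f ∈ (fcs v).filter (fun f => Nw E f ≠ 0), Real.exp (LL (inn Ω E) f) +
        ∑ E ∈ (polys Ω).filter (fun E => v ∈ VE E), xc ^ E.card *
          ∑ f ∈ (fcs v).filter (fun f => Nw E f ≠ 0), Real.exp (LL (inn Ω E) f) ≤
        ∑ E ∈ polys Ω, xc ^ E.card *
          ∑ f ∈ (fcs v).filter (fun f => Nw E f ≠ 0), Real.exp (LL (inn Ω E) f) := by
      rw [← Finset.sum_union]
      · apply Finset.sum_le_sum_of_subset_of_nonneg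
        · intro E hE
          rw [Finset.mem_union, Finset.mem_filter, Finset.mem_filter] at hE
          rcases hE with h | h
          · exact h.1
          · exact h.1
        · intro E _ _
          apply mul_nonneg (by positivity)
          exact Finset.sum_nonneg (fun f _ => (Real.exp_pos _).le)
      · rw [Finset.disjoint_left]
        intro E hE hE'
        rw [Finset.mem_filter] at hE hE'
        exact hE.2.2.1 hE'.2
    have e7 : ∑ E ∈ polys Ω, xc ^ E.card *
          ∑ f ∈ (fcs v).filter (fun f => Nw E f ≠ 0), Real.exp (LL (inn Ω E) f) =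
        ∑ f ∈ fcs v, ∑ E ∈ (polys Ω).filter (fun E => Nw E f ≠ 0), xc ^ E.card * Real.exp (LL (inn Ω E) f) := by
      simp only [Finset.mul_sum, Finset.sum_filter, mul_ite, mul_zero]
      rw [Finset.sum_comm]
    have e8 : ((dirs.filter (fun d => De (v, d))).card : ℝ) = ∑ f ∈ fcs v, (1 : ℝ) := by
      rw [sde_card hvt, Finset.cast_card]
    have e9 : ∑ f ∈ fcs v, (1 + ∑ E ∈ (polys Ω).filter (fun E => Nw E f ≠ 0), xc ^ E.card *
        Real.exp (LL (inn Ω E) f)) ≤ ∑ f ∈ fcs v, Real.exp (LL Ω f) := by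
      apply Finset.sum_le_sum
      intro f _
      exact face_chain f
    rw [Finset.sum_add_distrib] at e9
    rw [e1]
    linarith

/-- SD11: the walks that hit a vertex. -/
theorem HH_exp {Ω : Finset Pt} (hΩ : Full Ω) {v : Pt} (hv : v ∈ Ω) :
    HH Ω {v} ≤ ∑ f ∈ fcs v, Real.exp (LL Ω f) :=
  sde_main Ω.card le_rfl hΩ hv

end LP

end HexObs
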