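import Pool.Agent.HexLoop.Stepped

/-!
SD4: the steps of the growth.
-/

set_option autoImplicit false

namespace HexObs

namespace LP

open Finset

private lemma gpt {v w : Pt} : v = w ↔ v.1 = w.1 ∧ v.2 = w.2 := Prod.ext_iff

lemma dirs_lin : ∀ d ∈ dirs, (d.1 = 1 ∧ d.2 = 0) ∨ (d.1 = 0 ∧ d.2 = 1) ∨ (d.1 = -1 ∧ d.2 = 1) ∨
    (d.1 = -1 ∧ d.2 = 0) ∨ (d.1 = 0 ∧ d.2 = -1) ∨ (d.1 = 1 ∧ d.2 = -1) := by decide

/-- the pendant vertex. -/
theorem SP_a {m M : ℕ} {j θ' : ℤ} (h1 : -(M : ℤ) < j) (h2 : j ≤ M) :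
    SP m M (3 * j - 1) θ' = insert (am m j) (SP m M (3 * j + 1) θ') := by
  ext v
  rw [Finset.mem_insert, mem_SP', mem_SP', gpt]
  unfold am
  dsimp only
  omega

theorem am_notin {m M : ℕ} {j θ' : ℤ} : am m j ∉ SP m M (3 * j + 1) θ' := by
  rw [mem_SP']
  unfold am
  dsimp only
  omega

/-- the closing vertex. -/
theorem SP_u {m M : ℕ} {j θ' : ℤ} (h1 : -(M : ℤ) < j) (h2 : j ≤ M) :
    SP m M (3 * j - 2) θ' = insert (um m (j - 1)) (SP m M (3 * j - 1) θ') := by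
  ext v
  rw [Finset.mem_insert, mem_SP', mem_SP', gpt]
  unfold um
  dsimp only
  omega

theorem um_notin {m M : ℕ} {j θ' : ℤ} : um m (j - 1) ∉ SP m M (3 * j - 1) θ' := by
  rw [mem_SP']
  unfold um
  dsimp only
  omega

/-- the first two vertices of the row, at the right wall (the other order). -/
theorem SP_first {m M : ℕ} {θ' : ℤ} (hM : 1 ≤ M) :
    SP m M (3 * M - 2) θ' = insert (am m M) (insert (um m (M - 1)) (SP m M (3 * M) θ')) := by
  ext v
  rw [Finset.mem_insert, Finset.mem_insert, mem_SP', mem_SP', gpt, gpt]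
  unfold am um
  dsimp only
  omega

/-- the neighbours of the pendant vertex. -/
theorem am_nb {m M : ℕ} {j θ' : ℤ} (h1 : -(M : ℤ) < j) (h2 : j < M) {d : Pt} (hd : d ∈ dirs) :
    am m j + d ∈ SP m M (3 * j + 1) θ' ↔ d = (1, -1) := by
  have h := dirs_lin d hd
  rw [mem_SP', gpt]
  unfold am at *
  simp only [Prod.fst_add, Prod.snd_add] at *
  omega

/-- the neighbours of the closing vertex. -/
theorem um_nb {m M : ℕ} (hm : 1 ≤ m) {j θ' : ℤ} (h1 : -(M : ℤ) < j) (h2 : j < M) {d : Pt} (hd : d ∈ dirs) :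
    um m (j - 1) + d ∈ SP m M (3 * j - 1) θ' ↔ (d = (1, 0) ∨ d = (0, -1)) := by
  have h := dirs_lin d hd
  rw [mem_SP']
  simp only [gpt]
  unfold um at *
  simp only [Prod.fst_add, Prod.snd_add] at *
  omega

/-- the first vertex um m (M - 1) has the only neighbour below it. -/
theorem um_first {m M : ℕ} (hm : 1 ≤ m) (hM : 1 ≤ M) {θ' : ℤ} {d : Pt} (hd : d ∈ dirs) :
    um m (M - 1) + d ∈ SP m M (3 * M) θ' ↔ d = (0, -1) := by
  have h := dirs_lin d hd
  rw [mem_SP']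
  simp only [gpt]
  unfold um at *
  simp only [Prod.fst_add, Prod.snd_add] at *
  omega

/-- the vertex am m M has the only neighbour um m (M - 1). -/
theorem am_first {m M : ℕ} (hM : 1 ≤ M) {θ' : ℤ} {d : Pt} (hd : d ∈ dirs) :
    am m M + d ∈ insert (um m (M - 1)) (SP m M (3 * M) θ') ↔ d = (-1, 0) := by
  have h := dirs_lin d hd
  rw [Finset.mem_insert, mem_SP']
  simp only [gpt]
  unfold am um at *
  simp only [Prod.fst_add, Prod.snd_add] at *
  omega

/-- the same at the bottom. -/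
theorem SP_a' {m M : ℕ} {θ j : ℤ} (h1 : -(M : ℤ) < j) (h2 : j ≤ M) :
    SP m M θ (3 * j - 1) = insert (R2 (am m j)) (SP m M θ (3 * j + 1)) := by
  ext v
  rw [Finset.mem_insert, mem_SP', mem_SP', gpt]
  unfold R2 am
  dsimp only
  omega

theorem am_notin' {m M : ℕ} {θ j : ℤ} : R2 (am m j) ∉ SP m M θ (3 * j + 1) := by
  rw [mem_SP']
  unfold R2 am
  dsimp only
  omega

theorem SP_u' {m M : ℕ} {θ j : ℤ} (h1 : -(M : ℤ) < j) (h2 : j ≤ M) :
    SP m M θ (3 * j - 2) = insert (R2 (um m (j - 1))) (SP m M θ (3 * j - 1)) := by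
  ext v
  rw [Finset.mem_insert, mem_SP', mem_SP', gpt]
  unfold R2 um
  dsimp only
  omega

theorem um_notin' {m M : ℕ} {θ j : ℤ} : R2 (um m (j - 1)) ∉ SP m M θ (3 * j - 1) := by
  rw [mem_SP']
  unfold R2 um
  dsimp only
  omega

theorem am_nb' {m M : ℕ} {θ j : ℤ} (h1 : -(M : ℤ) < j) (h2 : j < M) {d : Pt} (hd : d ∈ dirs) :
    R2 (am m j) + d ∈ SP m M θ (3 * j + 1) ↔ d = (-1, 1) := by
  have h := dirs_lin d hd
  rw [mem_SP', gpt]
  unfold R2 am at *
  simp only [Prod.fst_add, Prod.snd_add] at *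
  omega

theorem um_nb' {m M : ℕ} (hm : 1 ≤ m) {θ j : ℤ} (h1 : -(M : ℤ) < j) (h2 : j < M) {d : Pt} (hd : d ∈ dirs) :
    R2 (um m (j - 1)) + d ∈ SP m M θ (3 * j - 1) ↔ (d = (-1, 0) ∨ d = (0, 1)) := by
  have h := dirs_lin d hd
  rw [mem_SP']
  simp only [gpt]
  unfold R2 um at *
  simp only [Prod.fst_add, Prod.snd_add] at *
  omega

/-- coordinates of the special vertices. -/
theorem um_lv (m : ℕ) (j : ℤ) : lv (um m j) = 3 * m + 2 ∧ nn (um m j) = 3 * j + 2 ∧ cl (um m j) = 2 := by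
  refine ⟨?_, ?_, ?_⟩
  · unfold lv um
    dsimp only
    ring
  · unfold nn um
    dsimp only
    ring
  · unfold cl um
    have : ((m : ℤ) + 2 * j + 2 - (m - j) : ℤ) = 2 + 3 * j := by ring
    dsimp only
    rw [this]
    push_cast
    have h3 : (3 : ZMod 3) = 0 := by decide
    rw [h3, zero_mul, add_zero]

theorem am_lv (m : ℕ) (j : ℤ) : lv (am m j) = 3 * m + 3 ∧ nn (am m j) = 3 * j ∧ cl (am m j) = 0 := by
  refine ⟨?_, ?_, ?_⟩
  · unfold lv am
    dsimp only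
    ring
  · unfold nn am
    dsimp only
    ring
  · unfold cl am
    have : ((m : ℤ) + 2 * j + 1 - (m - j + 1) : ℤ) = 3 * j := by ring
    dsimp only
    rw [this]
    push_cast
    have h3 : (3 : ZMod 3) = 0 := by decide
    rw [h3, zero_mul]

end LP

end HexObs
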